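import Pool.Agent.PGr.Defs

/-! # Module CutIso: invariance under isomorphism -/

set_option linter.unusedSectionVars false

namespace PGr
open Equiv Finset

section iso
variable {T T' : Type*} [Fintype T] [DecidableEq T] [Fintype T'] [DecidableEq T']
  {a s : Perm T} {a' s' : Perm T'}

theorem CutIso.mem (e : T ≃ T') (A : Finset T) (t : T) : e t ∈ A.map e.toEmbedding ↔ t ∈ A := by
  rw [Finset.mem_map_equiv, Equiv.symm_apply_apply]

theorem cut_iso (e : T ≃ T') (h : ∀ t, e (s t) = s' (e t)) (A : Finset T) :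
    cut s' (A.map e.toEmbedding) = cut s A := by
  unfold cut
  have h1 : bd s' (A.map e.toEmbedding) = (bd s A).map e.toEmbedding := by
    ext t'
    obtain ⟨t, rfl⟩ := e.surjective t'
    rw [CutIso.mem]
    unfold bd
    rw [mem_filter, mem_filter, ← h, CutIso.mem, CutIso.mem]
    simp
  rw [h1, card_map]

theorem Cl_iso (e : T ≃ T') (h : ∀ t, e (a t) = a' (e t)) {A : Finset T} (hA : Cl a A) :
    Cl a' (A.map e.toEmbedding) := by
  intro t'
  obtain ⟨t, rfl⟩ := e.surjective t'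
  rw [← h, CutIso.mem, CutIso.mem]
  exact hA t

theorem Pl_iso (e : T ≃ T') (h : ∀ t, e (a t) = a' (e t)) (h' : ∀ t, e (s t) = s' (e t))
    (hp : Pl a s) : Pl a' s' := by
  intro p q hpq
  obtain ⟨g, hg1, hg2⟩ := hp (fun t => p (e t)) (fun t => q (e t)) (by
    intro t
    have := hpq (e t)
    rw [← h, ← h'] at this
    exact this)
  refine ⟨fun t' => g (e.symm t'), ?_, ?_⟩
  · intro t'
    obtain ⟨t, rfl⟩ := e.surjective t'
    rw [← h]
    simp only [Equiv.symm_apply_apply]
    exact hg1 t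
  · intro t'
    obtain ⟨t, rfl⟩ := e.surjective t'
    rw [← h']
    simp only [Equiv.symm_apply_apply]
    exact hg2 t

theorem CutIso.symm {e : T ≃ T'} (h : ∀ t, e (a t) = a' (e t)) (t' : T') :
    e.symm (a' t') = a (e.symm t') := by
  rw [Equiv.symm_apply_eq, h, Equiv.apply_symm_apply]

theorem CutIso.map_symm (e : T ≃ T') (A : Finset T') :
    (A.map e.symm.toEmbedding).map e.toEmbedding = A := by
  ext t'
  obtain ⟨t, rfl⟩ := e.surjective t'
  rw [CutIso.mem, Finset.mem_map_equiv, Equiv.symm_symm]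

theorem CutIso.map_univ (e : T ≃ T') {A : Finset T} (h : A.map e.toEmbedding = univ) :
    A = univ := by
  rw [eq_univ_iff_forall] at h ⊢
  intro t
  exact (CutIso.mem e A t).1 (h (e t))

theorem Good_iso (e : T ≃ T') (h : ∀ t, e (a t) = a' (e t)) (h' : ∀ t, e (s t) = s' (e t))
    (hp : Good a s) : Good a' s' where
  inv := by
    intro t'
    obtain ⟨t, rfl⟩ := e.surjective t'
    rw [← h, ← h, hp.inv]
  fpf := by
    intro t'
    obtain ⟨t, rfl⟩ := e.surjective t'
    rw [← h]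
    exact fun h1 => hp.fpf t (e.injective h1)
  ns := by
    intro A hA hne hu
    have h1 : Cl a (A.map e.symm.toEmbedding) := Cl_iso e.symm (CutIso.symm h) hA
    have h2 := hp.ns _ h1 (hne.map) (fun h3 => hu (by
      have h4 := CutIso.map_symm e A
      rw [h3] at h4
      rw [← h4]
      ext t'
      obtain ⟨t, rfl⟩ := e.surjective t'
      rw [CutIso.mem]
      simp))
    rw [← cut_iso e h', CutIso.map_symm] at h2
    exact h2
  pl := Pl_iso e h h' hp.pl
  big := by
    rw [← Fintype.card_congr e]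
    exact hp.big

theorem CutIso.zpow (e : T ≃ T') (h' : ∀ t, e (s t) = s' (e t)) (i : ℤ) (t : T) :
    e ((s ^ i) t) = (s' ^ i) (e t) := by
  have h1 : ∀ (n : ℕ) (t : T), e ((s ^ n) t) = (s' ^ n) (e t) := by
    intro n
    induction n with
    | zero => intro t; simp
    | succ n ih =>
      intro t
      rw [pow_succ', pow_succ', Perm.mul_apply, Perm.mul_apply, h', ih]
  obtain ⟨n, rfl | rfl⟩ := i.eq_nat_or_neg
  · rw [zpow_natCast, zpow_natCast, h1]
  · rw [zpow_neg, zpow_neg, zpow_natCast, zpow_natCast]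
    rw [Perm.eq_inv_iff_eq, ← h1]
    exact congrArg e (Equiv.apply_symm_apply (s ^ n) t)

theorem nV_iso (e : T ≃ T') (h' : ∀ t, e (s t) = s' (e t)) : nV s = nV s' := by
  unfold nV
  refine Nat.card_congr (Quotient.congr e ?_)
  intro x y
  change Perm.SameCycle s x y ↔ Perm.SameCycle s' (e x) (e y)
  constructor
  · rintro ⟨i, hi⟩
    exact ⟨i, by rw [← CutIso.zpow e h', hi]⟩
  · rintro ⟨i, hi⟩
    refine ⟨i, e.injective ?_⟩
    rw [CutIso.zpow e h', hi]

end iso

/-! ### invariance under isomorphism of rooted maps -/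

theorem BIso.good {M N : BMap} (h : BIso M N) (hM : M.IsGood) : N.IsGood := by
  obtain ⟨e, h1, h2, h3⟩ := h
  exact Good_iso e h1 h2 hM

theorem BIso.card_eq {M N : BMap} (h : BIso M N) : Fintype.card M.D = Fintype.card N.D := by
  obtain ⟨e, h1, h2, h3⟩ := h
  have h4 := Fintype.card_congr e
  simpa using h4

theorem BIso.nV_eq {M N : BMap} (h : BIso M N) : nV M.s = nV N.s := by
  obtain ⟨e, h1, h2, h3⟩ := h
  exact nV_iso e h2

theorem CutIso.iter {M N : BMap} (e : M.T ≃ N.T) (h1 : ∀ t, e (M.aa t) = N.aa (e t))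
    (h2 : ∀ t, e (M.s t) = N.s (e t)) (n : ℕ) (t : M.T) :
    e ((fun t => (M.aa * M.s) t)^[n] t) = (fun t => (N.aa * N.s) t)^[n] (e t) := by
  induction n generalizing t with
  | zero => rfl
  | succ n ih =>
    rw [Function.iterate_succ_apply, Function.iterate_succ_apply, ih]
    congr 1
    rw [Perm.mul_apply, Perm.mul_apply, h1, h2]

theorem BIso.rl_eq {M N : BMap} (h : BIso M N) : M.rl = N.rl := by
  obtain ⟨e, h1, h2, h3⟩ := h
  unfold BMap.rl
  rw [Function.minimalPeriod_eq_minimalPeriod_iff]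
  intro n
  change ((fun t => (M.aa * M.s) t)^[n] (Sum.inr true) = Sum.inr true) ↔
    ((fun t => (N.aa * N.s) t)^[n] (Sum.inr true) = Sum.inr true)
  have h4 := CutIso.iter e h1 h2 n (Sum.inr true)
  rw [h3] at h4
  rw [← h4]
  constructor
  · intro h5
    rw [h5, h3]
  · intro h5
    exact e.injective (h5.trans h3.symm)

theorem CutIso.inr {M N : BMap} {e : M.T ≃ N.T} (h1 : ∀ t, e (M.aa t) = N.aa (e t))
    (h3 : e (Sum.inr true) = Sum.inr true) (b : Bool) : e (Sum.inr b) = Sum.inr b := by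
  cases b
  · have h4 := h1 (Sum.inr true)
    rw [h3] at h4
    exact h4
  · exact h3

theorem CutIso.root {M N : BMap} {e : M.T ≃ N.T} (h1 : ∀ t, e (M.aa t) = N.aa (e t))
    (h3 : e (Sum.inr true) = Sum.inr true) (A : Finset M.T) :
    (A ∪ M.root).map e.toEmbedding = A.map e.toEmbedding ∪ N.root := by
  rw [map_union]
  congr 1
  unfold BMap.root
  rw [map_insert, map_singleton]
  change {e (Sum.inr true), e (Sum.inr false)} = _
  rw [CutIso.inr h1 h3, CutIso.inr h1 h3]

theorem BIso.ser {M N : BMap} (h : BIso M N) (hM : IsSer M) : IsSer N := by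
  obtain ⟨e, h1, h2, h3⟩ := h
  obtain ⟨A, hA, hA2⟩ := hM
  refine ⟨A.map e.toEmbedding, ⟨Cl_iso e h1 hA.cl, ?_, ?_, ?_, ?_, ?_⟩, ?_⟩
  · rw [← h3, CutIso.mem]
    exact hA.root
  · rw [← h3, ← h2, CutIso.mem]
    exact hA.fst
  · rw [← CutIso.root h1 h3]
    exact fun h4 => hA.rest (CutIso.map_univ e h4)
  · rw [cut_iso e h2]
    exact hA.cut4
  · rw [← CutIso.root h1 h3, cut_iso e h2]
    exact hA.cut4'
  · have h4 : N.s⁻¹ (Sum.inr true) = e (M.s⁻¹ (Sum.inr true)) := by
      rw [Perm.inv_eq_iff_eq, ← h2]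
      exact h3.symm.trans (congrArg e (Equiv.apply_symm_apply M.s (Sum.inr true)).symm)
    rw [h4, CutIso.mem]
    exact hA2

theorem BIso.rigid {M N : BMap} (h : BIso M N) (hM : Rigid M) : Rigid N := by
  obtain ⟨e, h1, h2, h3⟩ := h
  obtain ⟨hM1, hM2⟩ := hM
  have hc := Fintype.card_congr e
  refine ⟨by rw [← hc]; exact hM1, ?_⟩
  intro A hA hA1 hA2
  have h4 := hM2 (A.map e.symm.toEmbedding) (Cl_iso e.symm (CutIso.symm h1) hA)
    (by rw [card_map]; exact hA1) (by rw [card_map, hc]; exact hA2)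
  rw [← cut_iso e h2, CutIso.map_symm] at h4
  exact h4

theorem BIso.dual {M N : BMap} (h : BIso M N) : BIso M.dual N.dual := by
  obtain ⟨e, h1, h2, h3⟩ := h
  refine ⟨e, h1, ?_, h3⟩
  intro t
  change e ((M.aa * M.s) t) = (N.aa * N.s) (e t)
  rw [Perm.mul_apply, Perm.mul_apply, h1, h2]

theorem BIso.par {M N : BMap} (h : BIso M N) (hM : IsPar M) : IsPar N := h.dual.ser hM
theorem BIso.W_eq {M N : BMap} (h : BIso M N) (s y : ENNReal) : W s y M = W s y N := by
  rw [W, W, h.card_eq, h.nV_eq]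

end PGr
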