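import Pool.Agent.PGr.RetLib

/-! # Module PlRestrict: deletion of edges preserves planarity -/

set_option linter.unusedSectionVars false

namespace PGr
open Equiv Finset

section
variable {T : Type*} [Fintype T] [DecidableEq T]

/-- propagation of a value along the runs of `s` outside `S` -/
theorem PlRestrict_run (s : Perm T) (S : Finset T) (f g : {x // x ∈ S} → ZMod 2)
    (hfg : ∀ x, f x = g (ret s S x)) :
    ∃ R : T → ZMod 2, (∀ x : {x // x ∈ S}, R x.1 = f x) ∧ (∀ t, s t ∉ S → R (s t) = R t) ∧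
      (∀ t (h : s t ∈ S), R t = g ⟨s t, h⟩) := by
  classical
  -- the backward search
  let E : T → Prop := fun t => ∃ k : ℕ, ((s⁻¹) ^ k) t ∈ S
  let R : T → ZMod 2 := fun t => if h : E t then f ⟨((s⁻¹) ^ (Nat.find h)) t, Nat.find_spec h⟩ else 0
  have hsub : ∀ (k : ℕ) (t : T), ((s⁻¹) ^ (k + 1)) (s t) = ((s⁻¹) ^ k) t := by
    intro k t
    rw [pow_succ, Perm.mul_apply]; simp
  refine ⟨R, ?_, ?_, ?_⟩
  · intro x
    have hE : E x.1 := ⟨0, by simp⟩
    have h0 : Nat.find hE = 0 := by
      rw [Nat.find_eq_zero]; simp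
    have : R x.1 = f ⟨((s⁻¹) ^ (Nat.find hE)) x.1, Nat.find_spec hE⟩ := dif_pos hE
    rw [this]
    congr 1
    apply Subtype.ext
    simp [h0]
  · intro t ht
    by_cases hE : E t
    · have hE' : E (s t) := by
        obtain ⟨k, hk⟩ := hE
        exact ⟨k + 1, by rw [hsub]; exact hk⟩
      have h1 : Nat.find hE' = Nat.find hE + 1 := by
        rw [Nat.find_eq_iff]
        refine ⟨by rw [hsub]; exact Nat.find_spec hE, ?_⟩
        intro n hn
        rcases n with _ | n
        · simpa using ht
        · rw [hsub]; exact Nat.find_min hE (by omega)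
      have e1 : R (s t) = f ⟨((s⁻¹) ^ (Nat.find hE')) (s t), Nat.find_spec hE'⟩ := dif_pos hE'
      have e2 : R t = f ⟨((s⁻¹) ^ (Nat.find hE)) t, Nat.find_spec hE⟩ := dif_pos hE
      rw [e1, e2]
      congr 1
      apply Subtype.ext
      simp only [h1, hsub]
    · have hE' : ¬ E (s t) := by
        rintro ⟨k, hk⟩
        rcases k with _ | k
        · exact ht (by simpa using hk)
        · exact hE ⟨k, by rw [hsub] at hk; exact hk⟩
      have e1 : R (s t) = 0 := dif_neg hE'
      have e2 : R t = 0 := dif_neg hE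
      rw [e1, e2]
  · intro t ht
    have hE : E t := by
      refine ⟨orderOf s - 1, ?_⟩
      have h1 : ((s⁻¹) ^ (orderOf s)) (s t) = s t := by
        rw [inv_pow, pow_orderOf_eq_one]; simp
      have h2 : orderOf s = (orderOf s - 1) + 1 := by
        have := orderOf_pos s; omega
      rw [h2, hsub] at h1
      rw [h1]; exact ht
    have e2 : R t = f ⟨((s⁻¹) ^ (Nat.find hE)) t, Nat.find_spec hE⟩ := dif_pos hE
    rw [e2, hfg]
    congr 1
    have key : ∀ i ≤ Nat.find hE, (s ^ i) (((s⁻¹) ^ (Nat.find hE)) t) =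
        ((s⁻¹) ^ (Nat.find hE - i)) t := by
      intro i hi
      have : Nat.find hE = i + (Nat.find hE - i) := by omega
      conv_lhs => rw [this]
      rw [pow_add, Perm.mul_apply, inv_pow]; simp
    have hlast : (s ^ (Nat.find hE + 1)) (((s⁻¹) ^ (Nat.find hE)) t) = s t := by
      rw [pow_succ', Perm.mul_apply, key _ le_rfl]; simp
    rw [ret_spec s S ⟨((s⁻¹) ^ (Nat.find hE)) t, Nat.find_spec hE⟩ (k := Nat.find hE + 1)
      (Nat.succ_pos _) (by simp only [hlast]; exact ht)]
    · apply Subtype.ext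
      exact hlast
    · intro i hi hi'
      simp only
      rw [key i (by omega)]
      exact Nat.find_min hE (by omega)

theorem PlRestrict_iter {s : Perm T} {u : T → ZMod 2} (hu : ∀ t, u (s t) = u t) (k : ℕ) (t : T) :
    u ((s ^ k) t) = u t := by
  induction k with
  | zero => simp
  | succ k ih => rw [pow_succ', Perm.mul_apply, hu, ih]

theorem PlRestrict_swap {a b c d : ZMod 2} (h : a + b = c + d) : b + d = a + c := by
  have h2 : ∀ x : ZMod 2, x + x = 0 := by decide
  have : b = a + c + d := by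
    calc b = (a + b) + a := by rw [add_comm a b, add_assoc, h2, add_zero]
      _ = a + c + d := by rw [h]; ring
  rw [this, add_assoc, h2, add_zero]

theorem Pl.restrict {a s : Perm T} (h : Pl a s) (hinv : ∀ t, a (a t) = t) (S : Finset T)
    (hS : Cl a S) : Pl (subA a S hS) (ret s S) := by
  classical
  intro p q hpq
  obtain ⟨R, hR1, hR2, hR3⟩ := PlRestrict_run s S (fun x => p x + q (subA a S hS x))
    (fun x => p x + q x) hpq
  let P : T → ZMod 2 := fun t => if ht : t ∈ S then p ⟨t, ht⟩ else R t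
  let Q : T → ZMod 2 := fun t => if ht : t ∈ S then q ⟨t, ht⟩ else 0
  have hL : ∀ t, P t + Q (a t) = R t := by
    intro t
    by_cases ht : t ∈ S
    · have hat : a t ∈ S := (hS t).2 ht
      have e1 : P t = p ⟨t, ht⟩ := dif_pos ht
      have e2 : Q (a t) = q ⟨a t, hat⟩ := dif_pos hat
      rw [e1, e2, hR1 ⟨t, ht⟩]
      rfl
    · have hat : a t ∉ S := fun h => ht ((hS t).1 h)
      have e1 : P t = R t := dif_neg ht
      have e2 : Q (a t) = 0 := dif_neg hat
      rw [e1, e2, add_zero]
  have hE : ∀ t, P t + Q (a t) = P (s t) + Q (s t) := by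
    intro t
    rw [hL]
    by_cases ht : s t ∈ S
    · have e1 : P (s t) = p ⟨s t, ht⟩ := dif_pos ht
      have e2 : Q (s t) = q ⟨s t, ht⟩ := dif_pos ht
      rw [e1, e2, hR3 t ht]
    · have e1 : P (s t) = R (s t) := dif_neg ht
      have e2 : Q (s t) = 0 := dif_neg ht
      rw [e1, e2, hR2 t ht, add_zero]
  obtain ⟨g, hg1, hg2⟩ := h P Q hE
  refine ⟨fun x => g x.1, fun t => hg1 t.1, ?_⟩
  intro t
  have hu : ∀ t, (g (s t) + P (s t)) = (g t + P t) := fun t => PlRestrict_swap (hg2 t)
  have h3 := PlRestrict_iter (u := fun t => g t + P t) hu (retK s S t) t.1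
  rw [← ret_val] at h3
  have e1 : P t.1 = p t := dif_pos t.2
  have e2 : P (ret s S t).1 = p (ret s S t) := dif_pos (ret s S t).2
  rw [e1, e2] at h3
  have h4 := PlRestrict_swap h3
  rw [add_comm (p (ret s S t)) (p t), add_comm (g _) (g _)] at h4
  exact h4.symm

/-- deletion of one edge, inverse of `insS` -/
theorem Pl.del {a s : Perm T} {c0 c1 : T} (hinv : ∀ t, a (a t) = t) (hc : c0 ≠ c1)
    (h : Pl (ext a) (insS s c0 c1)) : Pl a s := by
  classical
  intro p q hpq
  have hs0 : insS s c0 c1 (Sum.inl c0) = Sum.inr true := by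
    simp [insS, Perm.mul_apply, swap_apply_def, hc]
  have hs1 : insS s c0 c1 (Sum.inl c1) = Sum.inr false := by
    simp [insS, Perm.mul_apply, swap_apply_def]
  have hst : insS s c0 c1 (Sum.inr true) = Sum.inl (s c0) := by
    simp [insS, Perm.mul_apply, swap_apply_def]
  have hsf : insS s c0 c1 (Sum.inr false) = Sum.inl (s c1) := by
    simp [insS, Perm.mul_apply, swap_apply_def, hc.symm]
  have hsn : ∀ t, t ≠ c0 → t ≠ c1 → insS s c0 c1 (Sum.inl t) = Sum.inl (s t) := by
    intro t h0 h1
    simp [insS, Perm.mul_apply, swap_apply_def, h0, h1]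
  let P : T ⊕ Bool → ZMod 2 := fun t => match t with
    | Sum.inl t => p t
    | Sum.inr true => p c0 + q (a c0)
    | Sum.inr false => p c1 + q (a c1)
  let Q : T ⊕ Bool → ZMod 2 := fun t => match t with
    | Sum.inl t => q t
    | Sum.inr _ => 0
  have hE : ∀ t, P t + Q (ext a t) = P (insS s c0 c1 t) + Q (insS s c0 c1 t) := by
    rintro (t | b)
    · by_cases h0 : t = c0
      · subst h0
        rw [hs0]
        show p t + q (a t) = p t + q (a t) + 0
        rw [add_zero]
      · by_cases h1 : t = c1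
        · subst h1
          rw [hs1]
          show p t + q (a t) = p t + q (a t) + 0
          rw [add_zero]
        · rw [hsn t h0 h1]
          exact hpq t
    · cases b
      · rw [hsf]
        show p c1 + q (a c1) + 0 = p (s c1) + q (s c1)
        rw [add_zero, hpq]
      · rw [hst]
        show p c0 + q (a c0) + 0 = p (s c0) + q (s c0)
        rw [add_zero, hpq]
  obtain ⟨g, hg1, hg2⟩ := h P Q hE
  have h2 : ∀ x : ZMod 2, x + x = 0 := by decide
  have tel : ∀ x y z x' y' z' : ZMod 2, x + y = x' + y' → y + z = y' + z' → x + z = x' + z' := by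
    decide
  refine ⟨fun t => g (Sum.inl t), fun t => hg1 (Sum.inl t), ?_⟩
  intro t
  by_cases h0 : t = c0
  · subst h0
    have e1 := hg2 (Sum.inl t)
    have e2 := hg2 (Sum.inr true)
    rw [hs0] at e1
    rw [hst] at e2
    exact tel _ _ _ _ _ _ e1 e2
  · by_cases h1 : t = c1
    · subst h1
      have e1 := hg2 (Sum.inl t)
      have e2 := hg2 (Sum.inr false)
      rw [hs1] at e1
      rw [hsf] at e2
      exact tel _ _ _ _ _ _ e1 e2
    · have e1 := hg2 (Sum.inl t)
      rw [hsn t h0 h1] at e1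
      exact e1

end

end PGr
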