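import Pool.Agent.PGr.Defs

/-! # Module RetLib: first return permutations -/

set_option linter.unusedSectionVars false

namespace PGr
open Equiv Finset

section
variable {T : Type*} [Fintype T] [DecidableEq T] (s : Perm T) (S : Finset T)

theorem ret_spec (x : {x // x ∈ S}) {k : ℕ} (hk : 0 < k) (h : (s ^ k) x.1 ∈ S)
    (hmin : ∀ i, 0 < i → i < k → (s ^ i) x.1 ∉ S) : ret s S x = ⟨(s ^ k) x.1, h⟩ := by
  have h1 : retK s S x = k := by
    apply le_antisymm
    · exact Nat.find_min' (exists_pow_mem s S x) ⟨hk, h⟩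
    · by_contra hlt
      push Not at hlt
      exact hmin _ (retK_pos s S x) hlt (retK_mem s S x)
  apply Subtype.ext
  rw [ret_val, h1]

theorem ret_of_mem (x : {x // x ∈ S}) (h : s x.1 ∈ S) : ret s S x = ⟨s x.1, h⟩ := by
  have h' : (s ^ 1) x.1 ∈ S := by simpa using h
  rw [ret_spec s S x one_pos h' (fun i hi hlt => by omega)]
  apply Subtype.ext
  simp

/-- the first return is reached through elements outside `S` -/
theorem exists_ret (x : {x // x ∈ S}) : ∃ k, 0 < k ∧ (s ^ k) x.1 = (ret s S x).1 ∧
    ∀ i, 0 < i → i < k → (s ^ i) x.1 ∉ S :=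
  ⟨retK s S x, retK_pos s S x, rfl, fun _ hi hlt => retK_min s S x hi hlt⟩

theorem RetLib_sameCycle_pow (x : {x // x ∈ S}) (n : ℕ) :
    s.SameCycle x.1 (((ret s S) ^ n) x).1 := by
  induction n with
  | zero => exact Perm.SameCycle.refl _ _
  | succ n ih =>
    rw [pow_succ', Perm.mul_apply]
    refine ih.trans ?_
    rw [ret_val]
    exact ⟨(retK s S (((ret s S) ^ n) x) : ℤ), by simp⟩

theorem RetLib_of_pow (y : {x // x ∈ S}) (n : ℕ) : ∀ x : {x // x ∈ S}, (s ^ n) x.1 = y.1 →
    (ret s S).SameCycle x y := by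
  induction n using Nat.strong_induction_on with
  | _ n ih =>
    intro x hx
    rcases Nat.eq_zero_or_pos n with h0 | hpos
    · subst h0
      have : x = y := Subtype.ext (by simpa using hx)
      rw [this]
    · have hle : retK s S x ≤ n := by
        by_contra hlt
        push Not at hlt
        exact retK_min s S x hpos hlt (hx ▸ y.2)
      obtain ⟨m, hm⟩ := Nat.exists_eq_add_of_le hle
      have hKpos := retK_pos s S x
      have h1 : (s ^ m) (ret s S x).1 = y.1 := by
        rw [ret_val, ← Perm.mul_apply, ← pow_add, add_comm, ← hm]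
        exact hx
      have h2 := ih m (by omega) _ h1
      exact (Perm.sameCycle_apply_left).1 h2

theorem sameCycle_ret (x y : {x // x ∈ S}) :
    (ret s S).SameCycle x y ↔ s.SameCycle x.1 y.1 := by
  constructor
  · intro h
    obtain ⟨i, _, hi⟩ := h.exists_pow_eq'
    rw [← hi]
    exact RetLib_sameCycle_pow s S x i
  · intro h
    obtain ⟨i, _, hi⟩ := h.exists_pow_eq'
    exact RetLib_of_pow s S y i x hi

theorem minimalPeriod_eq_card (x : T) : Function.minimalPeriod (fun t => s t) x =
    (univ.filter fun y => s.SameCycle x y).card := by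
  have hper : x ∈ Function.periodicPts (fun t => s t) := by
    refine ⟨orderOf s, orderOf_pos s, ?_⟩
    show (fun t => s t)^[orderOf s] x = x
    have : (⇑s)^[orderOf s] x = (s ^ orderOf s) x := by rw [Perm.iterate_eq_pow]
    exact this.trans (by rw [pow_orderOf_eq_one]; rfl)
  have hpos := Function.minimalPeriod_pos_of_mem_periodicPts hper
  rw [← card_range (Function.minimalPeriod (fun t => s t) x)]
  refine card_bij (fun i _ => (s ^ i) x) ?_ ?_ ?_
  · intro i _
    simp only [mem_filter, mem_univ, true_and]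
    exact ⟨(i : ℤ), by simp⟩
  · intro i hi j hj hij
    have hi' := mem_range.1 hi
    have hj' := mem_range.1 hj
    rw [← Perm.iterate_eq_pow, ← Perm.iterate_eq_pow] at hij
    exact Function.iterate_injOn_Iio_minimalPeriod hi' hj' hij
  · intro y hy
    simp only [mem_filter, mem_univ, true_and] at hy
    obtain ⟨i, _, hi⟩ := hy.exists_pow_eq'
    refine ⟨i % Function.minimalPeriod (fun t => s t) x, mem_range.2 (Nat.mod_lt _ hpos), ?_⟩
    rw [← Perm.iterate_eq_pow]
    have h1 : (fun t => s t)^[i % Function.minimalPeriod (fun t => s t) x] x =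
      (fun t => s t)^[i] x := Function.iterate_mod_minimalPeriod_eq
    exact h1.trans (by
      have : (⇑s)^[i] x = (s ^ i) x := by rw [Perm.iterate_eq_pow]
      exact this.trans hi)

theorem minimalPeriod_ret (x : {x // x ∈ S}) :
    Function.minimalPeriod (fun t => ret s S t) x =
      (univ.filter fun y => y ∈ S ∧ s.SameCycle x.1 y).card := by
  rw [minimalPeriod_eq_card]
  refine card_bij (fun y _ => y.1) ?_ ?_ ?_
  · intro y hy
    simp only [mem_filter, mem_univ, true_and] at hy ⊢
    exact ⟨y.2, (sameCycle_ret s S x y).1 hy⟩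
  · intro y _ z _ h
    exact Subtype.ext h
  · intro y hy
    simp only [mem_filter, mem_univ, true_and] at hy
    refine ⟨⟨y, hy.1⟩, ?_, rfl⟩
    simp only [mem_filter, mem_univ, true_and]
    exact (sameCycle_ret s S x ⟨y, hy.1⟩).2 hy.2

end

end PGr
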