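import Pool.Agent.PGr.Defs

/-! # Module PlSum: planarity in terms of even functions on the corners -/

set_option linter.unusedSectionVars false

namespace PGr
open Equiv Finset

section
variable {T : Type*} [Fintype T] [DecidableEq T]

theorem PlSum.exists_pow (s : Perm T) {x y : T} (h : s.SameCycle x y) :
    ∃ n : ℕ, (s ^ n) x = y := by
  obtain ⟨n, _, hn⟩ := h.exists_pow_eq'
  exact ⟨n, hn⟩

theorem PlSum.two (x : ZMod 2) : x + x = 0 := CharTwo.add_self_eq_zero x

/-- a function on `T` with sum zero on every cycle of `s` is a difference -/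
theorem exists_potential (s : Perm T) (j : T → ZMod 2)
    (h : ∀ t, ∑ x ∈ univ.filter (fun x => s.SameCycle t x), j x = 0) :
    ∃ p : T → ZMod 2, ∀ t, p t + p (s t) = j t := by
  classical
  -- a representative of each cycle
  let r : T → T := fun t => Quotient.out (Quotient.mk (Perm.SameCycle.setoid s) t)
  have hr : ∀ t, s.SameCycle (r t) t := fun t =>
    Quotient.exact (Quotient.out_eq (Quotient.mk (Perm.SameCycle.setoid s) t))
  have hrs : ∀ t, r (s t) = r t := by
    intro t
    have : Quotient.mk (Perm.SameCycle.setoid s) (s t) = Quotient.mk (Perm.SameCycle.setoid s) t :=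
      Quotient.sound (show s.SameCycle (s t) t from (Perm.sameCycle_apply_left.2 (Perm.SameCycle.refl s t)))
    show Quotient.out _ = Quotient.out _
    rw [this]
  have hex : ∀ t, ∃ n : ℕ, (s ^ n) (r t) = t := fun t => PlSum.exists_pow s (hr t)
  let k : T → ℕ := fun t => Nat.find (hex t)
  have hk : ∀ t, (s ^ k t) (r t) = t := fun t => Nat.find_spec (hex t)
  have hmin : ∀ t m, m < k t → (s ^ m) (r t) ≠ t := fun t m hm => Nat.find_min (hex t) hm
  refine ⟨fun t => ∑ i ∈ range (k t), j ((s ^ i) (r t)), fun t => ?_⟩
  have hsk : (s ^ (k t + 1)) (r t) = s t := by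
    rw [pow_succ', Perm.mul_apply, hk]
  by_cases hst : s t = r t
  · -- closing the cycle
    have hk0 : k (s t) = 0 := by
      have : (s ^ 0) (r (s t)) = s t := by rw [hrs, hst]; rfl
      by_contra hne
      exact hmin (s t) 0 (Nat.pos_of_ne_zero hne) this
    have hper : (s ^ (k t + 1)) (r t) = r t := by rw [hsk, hst]
    have hsum : ∑ i ∈ range (k t + 1), j ((s ^ i) (r t)) = 0 := by
      rw [← h t]
      apply Finset.sum_bij (fun i _ => (s ^ i) (r t))
      · intro i _
        rw [mem_filter]
        exact ⟨mem_univ _, (hr t).symm.trans ⟨i, by simp⟩⟩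
      · intro i hi i' hi' he
        rw [mem_range] at hi hi'
        -- both at most k t
        have key : ∀ u v : ℕ, u < v → v ≤ k t → (s ^ u) (r t) ≠ (s ^ v) (r t) := by
          intro u v huv hv heq
          have h1 : (s ^ (k t - v + u)) (r t) = t := by
            rw [pow_add, Perm.mul_apply, heq, ← Perm.mul_apply, ← pow_add]
            have : k t - v + v = k t := by omega
            rw [this, hk]
          exact hmin t _ (by omega) h1
        rcases lt_trichotomy i i' with hlt | heq | hgt
        · exact absurd he (key i i' hlt (by omega))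
        · exact heq
        · exact absurd he.symm (key i' i hgt (by omega))
      · intro x hx
        rw [mem_filter] at hx
        obtain ⟨m, hm⟩ := PlSum.exists_pow s ((hr t).trans hx.2)
        refine ⟨m % (k t + 1), mem_range.2 (Nat.mod_lt _ (Nat.succ_pos _)), ?_⟩
        have h2 : ∀ q : ℕ, (s ^ ((k t + 1) * q)) (r t) = r t := by
          intro q
          induction q with
          | zero => simp
          | succ q ih => rw [Nat.mul_succ, pow_add, Perm.mul_apply, hper, ih]
        have h3 : (s ^ m) (r t) = (s ^ (m % (k t + 1))) (r t) := by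
          conv_lhs => rw [← Nat.mod_add_div m (k t + 1)]
          rw [pow_add, Perm.mul_apply, h2]
        rw [← h3, hm]
      · intro i _
        rfl
    rw [sum_range_succ, hk] at hsum
    show ∑ i ∈ range (k t), j ((s ^ i) (r t)) + ∑ i ∈ range (k (s t)), j ((s ^ i) (r (s t))) = j t
    rw [hk0, range_zero, sum_empty, add_zero]
    have h5 := PlSum.two (j t)
    calc ∑ i ∈ range (k t), j ((s ^ i) (r t))
        = (∑ i ∈ range (k t), j ((s ^ i) (r t)) + j t) + j t := by rw [add_assoc, h5, add_zero]
      _ = j t := by rw [hsum, zero_add]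
  · have hk1 : k (s t) = k t + 1 := by
      apply le_antisymm
      · by_contra hlt
        push Not at hlt
        exact hmin (s t) (k t + 1) hlt (by rw [hrs, hsk])
      · by_contra hlt
        push Not at hlt
        have h1 : (s ^ k (s t)) (r t) = s t := by have := hk (s t); rwa [hrs] at this
        rcases Nat.eq_zero_or_pos (k (s t)) with h0 | hpos
        · rw [h0] at h1; exact hst h1.symm
        · obtain ⟨m, hm⟩ := Nat.exists_eq_succ_of_ne_zero hpos.ne'
          rw [hm, pow_succ', Perm.mul_apply] at h1
          exact hmin t m (by omega) (s.injective h1)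
    show ∑ i ∈ range (k t), j ((s ^ i) (r t)) + ∑ i ∈ range (k (s t)), j ((s ^ i) (r (s t))) = j t
    rw [hk1, hrs, sum_range_succ, hk, ← add_assoc, PlSum.two, zero_add]

theorem sum_cycle_eq_zero (s : Perm T) (p : T → ZMod 2) (t : T) :
    ∑ x ∈ univ.filter (fun x => s.SameCycle t x), (p x + p (s x)) = 0 := by
  rw [sum_add_distrib]
  have : ∑ x ∈ univ.filter (fun x => s.SameCycle t x), p (s x)
      = ∑ x ∈ univ.filter (fun x => s.SameCycle t x), p x := by
    apply Finset.sum_bij (fun x _ => s x)
    · intro x hx
      rw [mem_filter] at hx ⊢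
      exact ⟨mem_univ _, Perm.sameCycle_apply_right.2 hx.2⟩
    · intro x _ y _ h; exact s.injective h
    · intro y hy
      rw [mem_filter] at hy
      refine ⟨s⁻¹ y, ?_, by simp⟩
      rw [mem_filter]
      exact ⟨mem_univ _, hy.2.trans ⟨-1, by simp⟩⟩
    · intro x _; rfl
  rw [this, PlSum.two]

/-- `j` is even on all cycles of `s` and of `a * s` iff it has potentials `p`, `q` -/
theorem Pl_iff_sums {a s : Perm T} (hinv : ∀ t, a (a t) = t) :
    Pl a s ↔ ∀ j : T → ZMod 2,
      (∀ t, ∑ x ∈ univ.filter (fun x => s.SameCycle t x), j x = 0) →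
      (∀ t, ∑ x ∈ univ.filter (fun x => (a * s).SameCycle t x), j x = 0) →
      ∃ h : T → ZMod 2, (∀ t, h (a t) = h t) ∧ ∀ t, h t + h (s t) = j t := by
  constructor
  · intro hp j h1 h2
    obtain ⟨p, hp1⟩ := exists_potential s j h1
    obtain ⟨q', hq'⟩ := exists_potential (a * s) j h2
    obtain ⟨h, hh1, hh2⟩ := hp p (fun t => q' (a t)) (by
      intro t
      have e1 := hp1 t
      have e2 := hq' t
      simp only [Perm.mul_apply] at e2
      simp only [hinv]
      -- p t + q' t = p (s t) + q' (a (s t))
      have e3 : p t + p (s t) = q' t + q' (a (s t)) := by rw [e1, e2]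
      have e4 : p t + q' t = p (s t) + q' (a (s t)) := by
        have t1 := PlSum.two (p (s t))
        have t2 := PlSum.two (q' t)
        calc p t + q' t = (p t + p (s t)) + (p (s t) + q' t) := by
              rw [add_assoc, ← add_assoc (p (s t)), t1, zero_add]
          _ = (q' t + q' (a (s t))) + (p (s t) + q' t) := by rw [e3]
          _ = p (s t) + q' (a (s t)) + (q' t + q' t) := by ring
          _ = p (s t) + q' (a (s t)) := by rw [t2, add_zero]
      exact e4)
    exact ⟨h, hh1, fun t => by rw [hh2, hp1]⟩
  · intro H p q hpq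
    refine H (fun t => p t + p (s t)) (fun t => sum_cycle_eq_zero s p t) (fun t => ?_)
    have : ∀ x, p x + p (s x) = q (a x) + q (a ((a * s) x)) := by
      intro x
      have e := hpq x
      simp only [Perm.mul_apply, hinv]
      have t1 := PlSum.two (p (s x))
      have t2 := PlSum.two (q (a x))
      calc p x + p (s x) = (p x + q (a x)) + (q (a x) + p (s x)) := by
            rw [add_assoc, ← add_assoc (q (a x)), t2, zero_add]
        _ = (p (s x) + q (s x)) + (q (a x) + p (s x)) := by rw [e]
        _ = q (a x) + q (s x) + (p (s x) + p (s x)) := by ring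
        _ = q (a x) + q (s x) := by rw [t1, add_zero]
    simp_rw [this]
    exact sum_cycle_eq_zero (a * s) (fun x => q (a x)) t

end

end PGr
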