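import Pool.Agent.PGr.Cut
import Pool.Agent.PGr.PlSum

/-! # Module NoPinch -/

set_option linter.unusedSectionVars false

namespace PGr
open Equiv Finset

section
variable {T : Type*} [Fintype T] [DecidableEq T] {a s : Perm T}

theorem NoPinch_sum (s : Perm T) {t t' : T} (hne : t ≠ t') (h1 : s.SameCycle t t') (x : T) :
    ∑ y ∈ univ.filter (fun y => s.SameCycle x y),
      (if y = t ∨ y = t' then (1 : ZMod 2) else 0) = 0 := by
  classical
  by_cases hx : s.SameCycle x t
  · have hx' : s.SameCycle x t' := hx.trans h1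
    rw [← Finset.sum_filter]
    have : (univ.filter (fun y => s.SameCycle x y)).filter (fun y => y = t ∨ y = t') = {t, t'} := by
      ext y
      simp only [mem_filter, mem_univ, true_and, mem_insert, mem_singleton]
      constructor
      · exact fun h => h.2
      · rintro (rfl | rfl)
        · exact ⟨hx, Or.inl rfl⟩
        · exact ⟨hx', Or.inr rfl⟩
    rw [this, sum_pair hne]
    decide
  · have hx' : ¬ s.SameCycle x t' := fun h => hx (h.trans h1.symm)
    refine sum_eq_zero fun y hy => ?_
    rw [if_neg]
    rintro (rfl | rfl)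
    · exact hx (mem_filter.mp hy).2
    · exact hx' (mem_filter.mp hy).2

/-- two different corners at the same vertex are not in the same face -/
theorem Good.noPinch (h : Good a s) {t t' : T} (hne : t ≠ t') (h1 : s.SameCycle t t') :
    ¬ (a * s).SameCycle t t' := by
  intro h2
  obtain ⟨g, hg1, hg2⟩ := (Pl_iff_sums h.inv).mp h.pl
    (fun y => if y = t ∨ y = t' then (1 : ZMod 2) else 0)
    (NoPinch_sum s hne h1) (NoPinch_sum (a * s) hne h2)
  set A : Finset T := univ.filter fun x => g x = 1 with hA
  have hcl : Cl a A := by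
    intro x
    simp only [hA, mem_filter, mem_univ, true_and, hg1]
  have z2 : ∀ u : ZMod 2, u = 0 ∨ u = 1 := by decide
  have hbd : bd s A = {t, t'} := by
    ext x
    have hx := hg2 x
    simp only [bd, hA, mem_filter, mem_univ, true_and, mem_insert, mem_singleton]
    by_cases hxt : x = t ∨ x = t'
    · rw [if_pos hxt] at hx
      simp only [hxt, iff_true]
      rcases z2 (g x) with e1 | e1 <;> rcases z2 (g (s x)) with e2 | e2 <;>
        rw [e1, e2] at hx ⊢ <;> revert hx <;> decide
    · rw [if_neg hxt] at hx
      simp only [hxt, iff_false]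
      rcases z2 (g x) with e1 | e1 <;> rcases z2 (g (s x)) with e2 | e2 <;>
        rw [e1, e2] at hx ⊢ <;> revert hx <;> decide
  have hcut : cut s A = 2 := by rw [cut, hbd, card_pair hne]
  have hne' : A.Nonempty := by
    rw [nonempty_iff_ne_empty]
    intro h0
    rw [h0] at hcut
    simp [cut, bd] at hcut
  have huniv : A ≠ univ := by
    intro h0
    rw [h0, cut_univ] at hcut
    omega
  have := h.ns A hcl hne' huniv
  omega

/-- no loops -/
theorem Good.noLoop (h : Good a s) (t : T) : ¬ s.SameCycle t (a t) := by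
  intro h1
  by_cases heq : t = s⁻¹ (a t)
  · apply h.s_ne_a t
    conv_lhs => rw [heq]
    simp
  · refine h.noPinch heq ?_ ?_
    · exact h1.trans (Perm.SameCycle.symm ⟨1, by simp⟩)
    · refine Perm.SameCycle.symm ⟨1, ?_⟩
      simp [Perm.mul_apply, h.inv]

theorem Good.dual (h : Good a s) : Good a (a * s) := by
  refine ⟨h.inv, h.fpf, ?_, ?_, h.big⟩
  · intro A hA hne hu
    rw [cut_dual hA]
    exact h.ns A hA hne hu
  · intro p q hpq
    have h2 : ∀ u : ZMod 2, u + u = 0 := by decide
    obtain ⟨g, hg1, hg2⟩ := h.pl (fun t => q (a t)) (fun t => p (a t)) (by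
      intro t
      have := hpq t
      simp only [Perm.mul_apply, h.inv] at this ⊢
      rw [add_comm (q (a t)), this, add_comm])
    refine ⟨g, hg1, fun t => ?_⟩
    have e1 := hpq t
    have e2 := hg2 t
    simp only [Perm.mul_apply] at e1 ⊢
    rw [hg1, e2]
    have h3 : ∀ u v w z : ZMod 2, u + v = w + z → v + z = u + w := by decide
    exact h3 _ _ _ _ e1

theorem Good.two_le_nV (h : Good a s) : 2 ≤ nV s := by
  have hc : 0 < Fintype.card T := by have := h.big; omega
  obtain ⟨t⟩ := Fintype.card_pos_iff.mp hc
  have : Nontrivial (Quotient (Perm.SameCycle.setoid s)) := by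
    refine ⟨⟦t⟧, ⟦a t⟧, ?_⟩
    intro heq
    exact h.noLoop t (Quotient.exact heq)
  exact Finite.one_lt_card

end

theorem BMap.IsGood.dual {M : BMap} (h : M.IsGood) : M.dual.IsGood := Good.dual h

/-- duality is an involution -/
theorem dual_dual {M : BMap} (h : M.IsGood) : M.dual.dual = M := by
  have h1 : M.aa * (M.aa * M.s) = M.s := Equiv.ext fun t => h.inv (M.s t)
  have key : ∀ (D : Type) [i1 : Fintype D] [i2 : DecidableEq D] (a : Perm D)
      (s s' : Perm (D ⊕ Bool)), s = s' →
      (BMap.mk D a s : BMap) = BMap.mk D a s' := by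
    rintro D _ _ a s s' rfl
    rfl
  cases M with
  | mk D a s => exact key D a _ _ h1

end PGr
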