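import Pool.Agent.PGr.Cut
import Pool.Agent.PGr.NoPinch

/-! # Module SerExcl: series and parallel are exclusive -/

set_option linter.unusedSectionVars false

namespace PGr
open Equiv Finset

theorem SerExcl.apply_inv {α : Type*} (f : Perm α) (x : α) : f (f⁻¹ x) = x :=
  f.apply_symm_apply x

/-- In a series prefix of a good map, both neighbours of the root dart `inr true` are in `A` and
both neighbours of `inr false` are not. -/
theorem Pref.ends {M : BMap} (hM : M.IsGood) {A : Finset M.T} (h : Pref M A)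
    (hs : M.s⁻¹ (Sum.inr true) ∈ A) : M.s (Sum.inr false) ∉ A ∧ M.s⁻¹ (Sum.inr false) ∉ A := by
  have hR : ∀ t, t ∈ M.root → t ∉ A := by
    intro t ht h1
    rw [BMap.root, mem_insert, mem_singleton] at ht
    rcases ht with rfl | rfl
    · exact h.root h1
    · exact h.root ((h.cl (Sum.inr true)).1 h1)
  have ht : (Sum.inr true : M.T) ∈ M.root := by simp [BMap.root]
  have hf : (Sum.inr false : M.T) ∈ M.root := by simp [BMap.root]
  set X := univ.filter fun t => t ∈ A ∧ M.s t ∉ A ∪ M.root with hX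
  set Y := univ.filter fun t => t ∈ A ∧ M.s t ∈ M.root with hY
  set Z := univ.filter fun t => t ∈ M.root ∧ M.s t ∉ A ∪ M.root with hZ
  have h1 : (univ.filter fun t => t ∈ A ∧ M.s t ∉ A) = X ∪ Y := by
    ext t
    simp only [hX, hY, mem_filter, mem_univ, true_and, mem_union]
    constructor
    · rintro ⟨h1, h2⟩
      by_cases h3 : M.s t ∈ M.root
      · exact Or.inr ⟨h1, h3⟩
      · exact Or.inl ⟨h1, fun h4 => h4.elim h2 h3⟩
    · rintro (⟨h1, h2⟩ | ⟨h1, h2⟩)
      · exact ⟨h1, fun h3 => h2 (Or.inl h3)⟩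
      · exact ⟨h1, hR _ h2⟩
  have h2 : (univ.filter fun t => t ∈ A ∪ M.root ∧ M.s t ∉ A ∪ M.root) = X ∪ Z := by
    ext t
    simp only [hX, hZ, mem_filter, mem_univ, true_and, mem_union]
    tauto
  have d1 : Disjoint X Y := by
    rw [disjoint_left]
    intro t h3 h4
    rw [hX, mem_filter] at h3
    rw [hY, mem_filter] at h4
    exact h3.2.2 (mem_union_right _ h4.2.2)
  have d2 : Disjoint X Z := by
    rw [disjoint_left]
    intro t h3 h4
    rw [hX, mem_filter] at h3
    rw [hZ, mem_filter] at h4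
    exact hR t h4.2.1 h3.2.1
  have c1 := cut_eq_two_mul M.s A
  have c2 := cut_eq_two_mul M.s (A ∪ M.root)
  rw [h.cut4, h1, card_union_of_disjoint d1] at c1
  rw [h.cut4', h2, card_union_of_disjoint d2] at c2
  have hYt : M.s⁻¹ (Sum.inr true) ∈ Y := by
    rw [hY, mem_filter]
    refine ⟨mem_univ _, hs, ?_⟩
    rw [SerExcl.apply_inv]
    exact ht
  have hZs : Z ⊆ {Sum.inr false} := by
    intro t h3
    rw [hZ, mem_filter, BMap.root, mem_insert, mem_singleton] at h3
    rw [mem_singleton]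
    rcases h3.2.1 with rfl | rfl
    · exact absurd (mem_union_left _ h.fst) h3.2.2
    · rfl
  have hZ1 : Z.card ≤ 1 := (card_le_card hZs).trans (card_singleton _).le
  have hY1 : 1 ≤ Y.card := card_pos.2 ⟨_, hYt⟩
  have hYZ : Y.card = 1 ∧ Z.card = 1 := by omega
  constructor
  · intro h3
    have h4 : Z.card = 0 := by
      rw [card_eq_zero, eq_empty_iff_forall_notMem]
      intro t h5
      have h6 := hZs h5
      rw [mem_singleton] at h6
      subst h6
      rw [hZ, mem_filter] at h5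
      exact h5.2.2 (mem_union_left _ h3)
    omega
  · intro h3
    have h4 : M.s⁻¹ (Sum.inr false) ∈ Y := by
      rw [hY, mem_filter]
      refine ⟨mem_univ _, h3, ?_⟩
      rw [SerExcl.apply_inv]
      exact hf
    have h5 := card_le_one.1 hYZ.1.le _ hYt _ h4
    have h6 := M.s⁻¹.injective h5
    exact absurd (Sum.inr_injective h6) (by decide)

/-- a prefix of the dual is a prefix -/
theorem Pref.of_dual {M : BMap} (hM : M.IsGood) {A : Finset M.T} (h : Pref M.dual A) : Pref M A := by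
  have hcl : Cl M.aa A := h.cl
  have hroot : Cl M.aa M.root := by
    rintro (d | b)
    · simp [BMap.root, BMap.aa]
    · cases b <;> simp [BMap.root, BMap.aa]
  refine ⟨hcl, h.root, (hcl _).1 h.fst, h.rest, ?_, ?_⟩
  · exact (cut_dual hcl).symm.trans h.cut4
  · exact (cut_dual (hcl.union hroot)).symm.trans h.cut4'

theorem not_ser_par {M : BMap} (hM : M.IsGood) (h : IsSer M) : ¬ IsPar M := by
  rintro ⟨B, hB, hBs⟩
  obtain ⟨A, hA, hAs⟩ := h
  have hB' := Pref.of_dual hM hB
  have h1 := Pref.ends hM hA hAs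
  have h2 := Pref.ends hM.dual hB hBs
  have hinv : ∀ x, M.aa (M.aa x) = x := hM.inv
  have e : ∀ b, (M.aa * M.s)⁻¹ (Sum.inr b) = M.s⁻¹ (Sum.inr (!b)) := by
    intro b
    rw [Perm.inv_eq_iff_eq, Perm.mul_apply, SerExcl.apply_inv]
    change _ = Sum.inr (!(!b))
    rw [Bool.not_not]
  have h3 : M.s⁻¹ (Sum.inr false) ∈ B := by
    have h4 := e true
    have h5 : (M.aa * M.s)⁻¹ (Sum.inr true) ∈ B := hBs
    rw [h4] at h5
    exact h5
  have h4 : M.s⁻¹ (Sum.inr true) ∉ B := by
    intro h5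
    apply h2.2
    change (M.aa * M.s)⁻¹ (Sum.inr false) ∈ B
    rw [e false]
    exact h5
  have h5 := cut_sdiff_lt M.s A B ⟨Sum.inr true, Or.inr ⟨?_, ?_⟩⟩
  · rw [hA.cut4, hB'.cut4] at h5
    have h6 : 4 ≤ cut M.s (A \ B) := by
      refine hM.ns _ (hA.cl.sdiff hB'.cl) ⟨_, mem_sdiff.2 ⟨hAs, h4⟩⟩ fun h7 => ?_
      have h8 : (Sum.inr true : M.T) ∈ A \ B := by
        rw [h7]
        exact mem_univ _
      exact hA.root (mem_sdiff.1 h8).1
    have h7 : 4 ≤ cut M.s (B \ A) := by
      refine hM.ns _ (hB'.cl.sdiff hA.cl) ⟨_, mem_sdiff.2 ⟨h3, h1.2⟩⟩ fun h7 => ?_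
      have h8 : (Sum.inr true : M.T) ∈ (univ : Finset M.T) := mem_univ _
      rw [← h7] at h8
      exact hB'.root (mem_sdiff.1 h8).1
    omega
  · rw [mem_union, not_or]
    exact ⟨hA.root, hB'.root⟩
  · exact mem_inter.2 ⟨hA.fst, hB'.fst⟩

end PGr
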