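import Pool.Agent.PGr.CompFour
import Pool.Agent.PGr.CutIso

/-! # Module CompInj: a composite with rigid core determines the core and the nets -/

set_option linter.unusedSectionVars false

namespace PGr
open Equiv Finset

/-- an isomorphism of rooted good maps is unique -/
theorem iso_unique {T T' : Type*} [Fintype T] [DecidableEq T] {a s : Perm T} {a' s' : Perm T'}
    (h : Good a s) (r : T) (e e' : T ≃ T') (he : ∀ t, e (a t) = a' (e t))
    (hs : ∀ t, e (s t) = s' (e t)) (he' : ∀ t, e' (a t) = a' (e' t))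
    (hs' : ∀ t, e' (s t) = s' (e' t)) (hr : e r = e' r) : e = e' := by
  classical
  have hA : (univ.filter fun t => e t = e' t) = univ := by
    by_contra hne
    have h1 : Cl a (univ.filter fun t => e t = e' t) := by
      intro t
      simp only [mem_filter, mem_univ, true_and, he, he', a'.injective.eq_iff]
    have h2 := h.ns _ h1 ⟨r, by simpa using hr⟩ hne
    have h3 : cut s (univ.filter fun t => e t = e' t) = 0 := by
      rw [cut, card_eq_zero, bd, filter_eq_empty_iff]
      intro t _
      rw [not_not]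
      simp only [mem_filter, mem_univ, true_and, hs, hs', s'.injective.eq_iff]
    omega
  ext t
  have : t ∈ univ.filter fun t => e t = e' t := by rw [hA]; exact mem_univ _
  simpa using this

namespace CompInj
open CompFour

theorem exists_lst (M : GB) (b : Bool) : ∃ d, M.1.s (Sum.inl d) = Sum.inr b := by
  rcases h : M.1.s.symm (Sum.inr b) with d | b'
  · refine ⟨d, ?_⟩
    rw [← h, Equiv.apply_symm_apply]
  · exfalso
    obtain ⟨d, hd⟩ := exists_fst M b'
    rw [← h, Equiv.apply_symm_apply] at hd
    simp at hd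

/-- the dart before the root dart `inr b` -/
noncomputable def lstD (M : GB) (b : Bool) : M.1.D := (exists_lst M b).choose

theorem lstD_spec (M : GB) (b : Bool) : M.1.s (Sum.inl (lstD M b)) = Sum.inr b :=
  (exists_lst M b).choose_spec

theorem eq_lstD {M : GB} {b : Bool} {d : M.1.D} (h : M.1.s (Sum.inl d) = Sum.inr b) :
    d = lstD M b := by
  have := M.1.s.injective (h.trans (lstD_spec M b).symm)
  simpa using this

/-- from the first dart at `inr b` the rotation leads to the last dart at `inr b` -/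
theorem run (M : GB) (b : Bool) : ∃ k : ℕ, ∃ d : ℕ → M.1.D, d 0 = fstD M b ∧
    (∀ i < k, M.1.s (Sum.inl (d i)) = Sum.inl (d (i + 1))) ∧
    M.1.s (Sum.inl (d k)) = Sum.inr b := by
  classical
  have hex : ∃ p, 0 < p ∧ ∃ b', (M.1.s ^ p) (Sum.inr b) = Sum.inr b' :=
    ⟨orderOf M.1.s, orderOf_pos _, b, by simp [pow_orderOf_eq_one]⟩
  obtain ⟨hp0, b', hb'⟩ := Nat.find_spec hex
  have hmin : ∀ i, 0 < i → i < Nat.find hex → ∃ d, (M.1.s ^ i) (Sum.inr b) = Sum.inl d := by
    intro i hi hip
    rcases h : (M.1.s ^ i) (Sum.inr b) with d | c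
    · exact ⟨d, rfl⟩
    · exact absurd ⟨hi, c, h⟩ (Nat.find_min hex hip)
  set p := Nat.find hex with hp
  have hp2 : 2 ≤ p := by
    by_contra hlt
    have : p = 1 := by omega
    rw [this, pow_one, fstD_spec] at hb'
    simp at hb'
  have hne0 : Nonempty M.1.D := ⟨fstD M b⟩
  choose! d hd using fun i (h : 0 < i ∧ i < p) => hmin i h.1 h.2
  have hstep : ∀ i, 0 < i → i + 1 < p → M.1.s (Sum.inl (d i)) = Sum.inl (d (i + 1)) := by
    intro i hi hip
    rw [← hd i ⟨hi, by omega⟩, ← hd (i + 1) ⟨by omega, hip⟩, pow_succ', Perm.mul_apply]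
  refine ⟨p - 2, fun i => d (i + 1), ?_, ?_, ?_⟩
  · have h1 := hd 1 ⟨by omega, by omega⟩
    rw [pow_one, fstD_spec] at h1
    simpa using h1.symm
  · intro i hi
    exact hstep (i + 1) (by omega) (by omega)
  · have h1 := hd (p - 2 + 1) ⟨by omega, by omega⟩
    have h2 : M.1.s (Sum.inl (d (p - 2 + 1))) = Sum.inr b' := by
      rw [← h1, ← hb', ← Perm.mul_apply, ← pow_succ']
      have : (p - 2 + 1) + 1 = p := by omega
      rw [this]
    have hbb : b' = b := by
      by_contra hne
      have h3 : b' = !b := by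
        cases b <;> cases b' <;> first | rfl | exact absurd rfl hne
      have h4 := M.2.noLoop (Sum.inr b)
      apply h4
      refine ⟨p, ?_⟩
      rw [zpow_natCast, hb', h3]
      rfl
    rw [← hbb]
    exact h2

variable {C : Core} (N : C.I → GB)

/-- a dart of the net `i` as a dart of the composite -/
noncomputable def dt (i : C.I) (d : (N i).1.D) : (comp C N).T :=
  (Sum.inl (⟨i, d⟩ : Σ i, (N i).1.D) : (Σ i, (N i).1.D) ⊕ Bool)

theorem dt_inj {i : C.I} {d d' : (N i).1.D} (h : dt N i d = dt N i d') : d = d' := by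
  have h1 : (Sum.inl (⟨i, d⟩ : Σ i, (N i).1.D) : (Σ i, (N i).1.D) ⊕ Bool) =
    Sum.inl (⟨i, d'⟩ : Σ i, (N i).1.D) := h
  simpa using h1

theorem partOf_dt (i : C.I) (d : (N i).1.D) : partOf C N (dt N i d) = some i := rfl

theorem cases_dt (t : (comp C N).T) : (∃ i d, t = dt N i d) ∨ ∃ b, t = Sum.inr b := by
  rcases t with ⟨i, d⟩ | b
  · exact Or.inl ⟨i, d, rfl⟩
  · exact Or.inr ⟨b, rfl⟩

theorem aa_dt (i : C.I) (d : (N i).1.D) :
    (comp C N).aa (dt N i d) = dt N i ((N i).1.a d) := rfl

theorem s_dt_in {i : C.I} {d d' : (N i).1.D} (h : (N i).1.s (Sum.inl d) = Sum.inl d') :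
    (comp C N).s (dt N i d) = dt N i d' := comp_s_in C N h

/-- `jump` with values in the darts of the composite -/
noncomputable def J (x : (C.I × Bool) ⊕ Bool) : (comp C N).T := jump C N x

theorem s_dt_out {i : C.I} {d : (N i).1.D} {b : Bool}
    (h : (N i).1.s (Sum.inl d) = Sum.inr b) :
    (comp C N).s (dt N i d) = J N (C.s (Sum.inl (i, b))) := comp_s_out C N h

theorem s_dt_root (b : Bool) :
    (comp C N).s (Sum.inr b) = J N (C.s (Sum.inr b)) := comp_s_root C N b

theorem J_inl (j : C.I) (b : Bool) : J N (Sum.inl (j, b)) = dt N j (fstD (N j) b) := rfl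

/-- the last dart of the part at a core dart -/
noncomputable def L : (C.I × Bool) ⊕ Bool → (comp C N).T
  | Sum.inl (j, b) => dt N j (lstD (N j) b)
  | Sum.inr b => Sum.inr b

theorem L_inl (j : C.I) (b : Bool) : L N (Sum.inl (j, b)) = dt N j (lstD (N j) b) := rfl

theorem partOf_L (x : (C.I × Bool) ⊕ Bool) : partOf C N (L N x) = C.edge x := by
  rcases x with ⟨j, b⟩ | b <;> rfl

theorem partOf_J (x : (C.I × Bool) ⊕ Bool) : partOf C N (J N x) = C.edge x := by
  rcases x with ⟨j, b⟩ | b <;> rfl

theorem L_inj : Function.Injective (L N) := by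
  intro x y h
  have h0 := congrArg (partOf C N) h
  rw [partOf_L, partOf_L] at h0
  rcases x with ⟨j, b⟩ | b <;> rcases y with ⟨j', b'⟩ | b'
  · simp only [Core.edge, Option.some.injEq] at h0
    subst h0
    rw [L_inl, L_inl] at h
    have h3 := dt_inj N h
    have h1 := lstD_spec (N j) b
    have h2 := lstD_spec (N j) b'
    rw [h3, h2] at h1
    simp only [Sum.inr.injEq] at h1
    rw [h1]
  · simp [Core.edge] at h0
  · simp [Core.edge] at h0
  · have h1 : (Sum.inr b : (comp C N).T) = Sum.inr b' := h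
    simp only [Sum.inr.injEq] at h1
    rw [h1]

theorem s_L (x : (C.I × Bool) ⊕ Bool) : (comp C N).s (L N x) = J N (C.s x) := by
  rcases x with ⟨j, b⟩ | b
  · exact s_dt_out N (lstD_spec (N j) b)
  · exact s_dt_root N b

/-- the involution on core darts -/
def ca (C : Core) : (C.I × Bool) ⊕ Bool → (C.I × Bool) ⊕ Bool
  | Sum.inl (j, b) => Sum.inl (j, !b)
  | Sum.inr b => Sum.inr (!b)

theorem ca_eq (C : Core) (x : (C.I × Bool) ⊕ Bool) : C.toB.aa x = ca C x := by
  rcases x with ⟨j, b⟩ | b <;> rfl

theorem edge_ca (x : (C.I × Bool) ⊕ Bool) : C.edge (ca C x) = C.edge x := by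
  rcases x with ⟨j, b⟩ | b <;> rfl

theorem ca_ne (x : (C.I × Bool) ⊕ Bool) : ca C x ≠ x := by
  rcases x with ⟨j, b⟩ | b <;> cases b <;> simp [ca]

theorem edge_eq {x y : (C.I × Bool) ⊕ Bool} (h : C.edge x = C.edge y) : x = y ∨ x = ca C y := by
  rcases x with ⟨j, b⟩ | b <;> rcases y with ⟨j', b'⟩ | b'
  · simp only [Core.edge, Option.some.injEq] at h
    subst h
    cases b <;> cases b' <;> simp [ca]
  · simp [Core.edge] at h
  · simp [Core.edge] at h
  · cases b <;> cases b' <;> simp [ca]

theorem edge_s_ne (hC : C.toB.IsGood) (x : (C.I × Bool) ⊕ Bool) : C.edge (C.s x) ≠ C.edge x := by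
  intro h
  rcases edge_eq h with h1 | h1
  · exact Good.s_ne hC x h1
  · rw [← ca_eq] at h1
    exact Good.s_ne_a hC x h1

/-- the last darts are those followed by a dart of another part -/
theorem last_iff (hC : C.toB.IsGood) (t : (comp C N).T) :
    partOf C N ((comp C N).s t) ≠ partOf C N t ↔ ∃ x, t = L N x := by
  constructor
  · intro h
    rcases cases_dt N t with ⟨i, d, rfl⟩ | ⟨b, rfl⟩
    · rcases hs : (N i).1.s (Sum.inl d) with d' | b
      · exfalso
        apply h
        rw [s_dt_in N hs, partOf_dt, partOf_dt]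
      · refine ⟨Sum.inl (i, b), ?_⟩
        rw [eq_lstD hs, L_inl]
    · exact ⟨Sum.inr b, rfl⟩
  · rintro ⟨x, rfl⟩
    rw [s_L, partOf_J, partOf_L]
    exact edge_s_ne hC x

theorem comp_run (hC : C.toB.IsGood) (y : (C.I × Bool) ⊕ Bool) :
    ∃ k, ((comp C N).s ^ k) (J N y) = L N y ∧
      ∀ i < k, ¬ ∃ x, ((comp C N).s ^ i) (J N y) = L N x := by
  rcases y with ⟨j, b⟩ | b
  · obtain ⟨k, d, hd0, hd, hk⟩ := run (N j) b
    have hpow : ∀ i, i ≤ k → ((comp C N).s ^ i) (J N (Sum.inl (j, b))) = dt N j (d i) := by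
      intro i
      induction i with
      | zero =>
        intro _
        rw [pow_zero, hd0]
        rfl
      | succ i ih =>
        intro hi
        rw [pow_succ', Perm.mul_apply, ih (by omega)]
        exact s_dt_in N (hd i (by omega))
    refine ⟨k, ?_, ?_⟩
    · rw [hpow k le_rfl, eq_lstD hk, L_inl]
    · intro i hi
      rw [hpow i (by omega)]
      intro hx
      apply (last_iff N hC _).2 hx
      rw [s_dt_in N (hd i hi), partOf_dt, partOf_dt]
  · exact ⟨0, rfl, fun i hi => absurd hi (Nat.not_lt_zero _)⟩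

section two
variable {C' : Core} (N' : C'.I → GB)

theorem exists_part (hC' : C'.toB.IsGood) (hC : C.toB.IsGood) (hR : Rigid C.toB)
    (hR' : Rigid C'.toB) (e : (comp C N).T ≃ (comp C' N').T)
    (ha : ∀ t, e ((comp C N).aa t) = (comp C' N').aa (e t))
    (hs : ∀ t, e ((comp C N).s t) = (comp C' N').s (e t))
    (hr : e (Sum.inr true) = Sum.inr true) (i : C.I) :
    ∃ i' : C'.I, ∀ t, partOf C N t = some i → partOf C' N' (e t) = some i' := by
  classical
  have h1 : Cl (comp C' N').aa ((partSet C N i).map e.toEmbedding) :=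
    Cl_iso e ha (Cl_partSet C N i)
  have h2 : cut (comp C' N').s ((partSet C N i).map e.toEmbedding) = 4 := by
    rw [cut_iso e hs, cut_partSet C N hC i]
  have h3 : (Sum.inr true : (comp C' N').T) ∉ (partSet C N i).map e.toEmbedding := by
    rw [← hr, mem_map_equiv, Equiv.symm_apply_apply]
    exact root_not_mem_partSet C N i true
  have hI := card_I C hR
  rcases comp_four C' N' hC' hR' h1 h3 ((partSet_nonempty C N i).map) h2 with ⟨i', h⟩ | h
  · refine ⟨i', fun t ht => ?_⟩
    have h5 := h ((mem_map_equiv (f := e)).2 (by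
      rw [Equiv.symm_apply_apply]; exact (mem_partSet C N i t).2 ht) : e t ∈ _)
    exact (mem_partSet C' N' i' _).1 h5
  · exfalso
    obtain ⟨j, hj⟩ : ∃ j, j ≠ i := by
      by_contra hcon
      push Not at hcon
      have : Fintype.card C.I ≤ 1 := by
        rw [Fintype.card_le_one_iff]
        intro x y; rw [hcon x, hcon y]
      omega
    obtain ⟨t, ht⟩ := partSet_nonempty C N j
    rw [mem_partSet] at ht
    have h5 : e t ∈ (partSet C N i).map e.toEmbedding ∪ (comp C' N').root := by
      rw [h]; exact mem_univ _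
    rw [mem_union, mem_map_equiv, Equiv.symm_apply_apply, mem_partSet, ht] at h5
    rcases h5 with h5 | h5
    · exact hj (by simpa using h5)
    · obtain ⟨b, hb⟩ := mem_root.1 h5
      have hr2 : e (Sum.inr false) = Sum.inr false := by
        have := ha (Sum.inr true)
        rw [hr] at this
        exact this
      have : t = Sum.inr b := by
        apply e.injective
        rw [hb]
        cases b
        · exact hr2.symm
        · exact hr.symm
      rw [this, partOf_root] at ht
      simp at ht

/-- an isomorphism of composites induces an isomorphism of the cores -/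
theorem main (hC : C.toB.IsGood) (hR : Rigid C.toB) (hC' : C'.toB.IsGood)
    (hR' : Rigid C'.toB) (e : (comp C N).T ≃ (comp C' N').T)
    (ha : ∀ t, e ((comp C N).aa t) = (comp C' N').aa (e t))
    (hs : ∀ t, e ((comp C N).s t) = (comp C' N').s (e t))
    (hr : e (Sum.inr true) = Sum.inr true) :
    ∃ f : ((C.I × Bool) ⊕ Bool) ≃ ((C'.I × Bool) ⊕ Bool),
      (∀ x, e (L N x) = L N' (f x)) ∧ (∀ x, f (ca C x) = ca C' (f x)) ∧
      (∀ x, f (C.s x) = C'.s (f x)) ∧ f (Sum.inr true) = Sum.inr true ∧
      (∀ t t', partOf C N t = partOf C N t' ↔ partOf C' N' (e t) = partOf C' N' (e t')) := by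
  classical
  have ha' : ∀ t, e.symm ((comp C' N').aa t) = (comp C N).aa (e.symm t) := by
    intro t; rw [Equiv.symm_apply_eq, ha, Equiv.apply_symm_apply]
  have hs' : ∀ t, e.symm ((comp C' N').s t) = (comp C N).s (e.symm t) := by
    intro t; rw [Equiv.symm_apply_eq, hs, Equiv.apply_symm_apply]
  have hr' : e.symm (Sum.inr true) = Sum.inr true := by rw [Equiv.symm_apply_eq, hr]
  have hrf : e (Sum.inr false) = Sum.inr false := by
    have := ha (Sum.inr true)
    rw [hr] at this
    exact this
  choose θ hθ using exists_part N N' hC' hC hR hR' e ha hs hr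
  choose η hη using exists_part N' N hC hC' hR' hR e.symm ha' hs' hr'
  have hηθ : ∀ i, η (θ i) = i := by
    intro i
    obtain ⟨t, ht⟩ := partSet_nonempty C N i
    rw [mem_partSet] at ht
    have := hη _ _ (hθ i t ht)
    rw [Equiv.symm_apply_apply, ht] at this
    simpa using this.symm
  have hθi : Function.Injective θ := Function.LeftInverse.injective hηθ
  have hpart : ∀ t, partOf C' N' (e t) = (partOf C N t).map θ := by
    intro t
    rcases h : partOf C N t with _ | i
    · obtain ⟨b, rfl⟩ := partOf_eq_none C N h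
      cases b
      · rw [hrf]; rfl
      · rw [hr]; rfl
    · rw [hθ i t h]; rfl
  have hpp : ∀ t t', partOf C N t = partOf C N t' ↔
      partOf C' N' (e t) = partOf C' N' (e t') := by
    intro t t'
    rw [hpart, hpart]
    exact ⟨fun h => by rw [h], fun h => Option.map_injective hθi h⟩
  have hlast : ∀ t, (∃ x, t = L N x) ↔ ∃ x', e t = L N' x' := by
    intro t
    rw [← last_iff N hC, ← last_iff N' hC', ← hs, Ne, Ne, hpp]
  have hex1 : ∀ x, ∃ x', e (L N x) = L N' x' := fun x => (hlast _).1 ⟨x, rfl⟩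
  choose f hf using hex1
  have hfi : Function.Injective f := by
    intro x y hxy
    apply L_inj N
    apply e.injective
    rw [hf, hf, hxy]
  have hfs : Function.Surjective f := by
    intro x'
    obtain ⟨x, hx⟩ := (hlast (e.symm (L N' x'))).2 ⟨x', by rw [Equiv.apply_symm_apply]⟩
    refine ⟨x, L_inj N' ?_⟩
    rw [← hf, ← hx, Equiv.apply_symm_apply]
  have hedge : ∀ x, C'.edge (f x) = (C.edge x).map θ := by
    intro x
    rw [← partOf_L N' (f x), ← partOf_L N x, ← hf]
    exact hpart _
  refine ⟨Equiv.ofBijective f ⟨hfi, hfs⟩, hf, ?_, ?_, ?_, hpp⟩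
  · intro x
    change f (ca C x) = ca C' (f x)
    have h1 : C'.edge (f (ca C x)) = C'.edge (f x) := by rw [hedge, hedge, edge_ca]
    rcases edge_eq h1 with h2 | h2
    · exact absurd (hfi h2) (ca_ne x)
    · exact h2
  · intro x
    change f (C.s x) = C'.s (f x)
    obtain ⟨k, hk, hkm⟩ := comp_run N hC (C.s x)
    obtain ⟨k', hk', hkm'⟩ := comp_run N' hC' (C'.s (f x))
    have hz : e (J N (C.s x)) = J N' (C'.s (f x)) := by
      have h1 : (comp C N).s (L N x) = J N (C.s x) := s_L N x
      have h2 : (comp C' N').s (L N' (f x)) = J N' (C'.s (f x)) := s_L N' (f x)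
      rw [← h1, ← h2, hs, hf]
    have hpow : ∀ i t, e (((comp C N).s ^ i) t) = ((comp C' N').s ^ i) (e t) := by
      intro i
      induction i with
      | zero => intro t; rfl
      | succ i ih => intro t; rw [pow_succ', pow_succ', Perm.mul_apply, Perm.mul_apply, hs, ih]
    have hek : ((comp C' N').s ^ k) (J N' (C'.s (f x))) = L N' (f (C.s x)) := by
      rw [← hz, ← hpow, hk, hf]
    have hkk : k = k' := by
      rcases lt_trichotomy k k' with h | h | h
      · exact absurd ⟨_, hek⟩ (hkm' k h)
      · exact h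
      · exfalso
        apply hkm k' h
        obtain ⟨x0, hx0⟩ := (hlast (((comp C N).s ^ k') (J N (C.s x)))).2
          ⟨_, by rw [hpow, hz, hk']⟩
        exact ⟨x0, hx0⟩
    apply L_inj N'
    rw [← hek, ← hk', hkk]
  · change f (Sum.inr true) = Sum.inr true
    apply L_inj N'
    rw [← hf]
    exact hr

end two

end CompInj

open CompInj CompFour

theorem comp_inj_core (C C' : Core) (N : C.I → GB) (N' : C'.I → GB)
    (hC : C.toB.IsGood) (hR : Rigid C.toB) (hC' : C'.toB.IsGood) (hR' : Rigid C'.toB)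
    (h : BIso (comp C N) (comp C' N')) : BIso C.toB C'.toB := by
  obtain ⟨e, ha, hs, hr⟩ := h
  obtain ⟨f, -, h2, h3, h4, -⟩ := CompInj.main N N' hC hR hC' hR' e ha hs hr
  refine ⟨f, fun t => ?_, h3, h4⟩
  exact (congrArg f (ca_eq C t)).trans ((h2 t).trans (ca_eq C' (f t)).symm)

theorem comp_inj_nets (C : Core) (N N' : C.I → GB) (hC : C.toB.IsGood) (hR : Rigid C.toB)
    (h : BIso (comp C N) (comp C N')) (i : C.I) : BIso (N i).1 (N' i).1 := by
  classical
  obtain ⟨e, ha, hs, hr⟩ := h
  obtain ⟨f, h1, h2, h3, h4, h5⟩ := CompInj.main N N' hC hR hC hR e ha hs hr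
  have hf : f = Equiv.refl _ := by
    refine iso_unique (a := C.toB.aa) (s := C.s) (a' := C.toB.aa) (s' := C.s) hC (Sum.inr true) _ _
      ?_ h3 ?_ ?_ ?_
    · intro t
      exact (congrArg f (ca_eq C t)).trans ((h2 t).trans (ca_eq C (f t)).symm)
    · intro t; rfl
    · intro t; rfl
    · exact h4
  have hL : ∀ x, e (L N x) = L N' x := by
    intro x
    rw [h1, hf]
    rfl
  have hpart : ∀ t, partOf C N' (e t) = partOf C N t := by
    intro t
    rcases h : partOf C N t with _ | j
    · obtain ⟨b, rfl⟩ := partOf_eq_none C N h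
      have : e (Sum.inr b) = Sum.inr b := hL (Sum.inr b)
      rw [this]
      rfl
    · have h6 : partOf C N t = partOf C N (L N (Sum.inl (j, true))) := by
        rw [h]; rfl
      rw [h5, hL] at h6
      rw [h6]
      rfl
  have hex : ∀ d : (N i).1.D, ∃ d' : (N' i).1.D, e (dt N i d) = dt N' i d' := by
    intro d
    have h6 := hpart (dt N i d)
    rw [partOf_dt] at h6
    rcases cases_dt N' (e (dt N i d)) with ⟨j, d', h7⟩ | ⟨b, h7⟩
    · rw [h7, partOf_dt, Option.some.injEq] at h6
      subst h6
      exact ⟨d', h7⟩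
    · rw [h7, partOf_root] at h6
      simp at h6
  choose g hg using hex
  have hgi : Function.Injective g := by
    intro d d' hdd
    have h6 : e (dt N i d) = e (dt N i d') := by
      rw [hg, hg, hdd]
    exact dt_inj N (e.injective h6)
  have hgs : Function.Surjective g := by
    intro d'
    have h6 := hpart (e.symm (dt N' i d'))
    rw [Equiv.apply_symm_apply, partOf_dt] at h6
    rcases cases_dt N (e.symm (dt N' i d')) with ⟨j, d, h7⟩ | ⟨b, h7⟩
    · rw [h7, partOf_dt, Option.some.injEq] at h6
      subst h6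
      refine ⟨d, ?_⟩
      have h8 := hg d
      rw [← h7, Equiv.apply_symm_apply] at h8
      exact (dt_inj N' h8).symm
    · rw [h7, partOf_root] at h6
      simp at h6
  have hgl : ∀ b, g (lstD (N i) b) = lstD (N' i) b := by
    intro b
    have h6 := hL (Sum.inl (i, b))
    rw [L_inl, L_inl, hg] at h6
    exact dt_inj N' h6
  have hgf : ∀ b, g (fstD (N i) b) = fstD (N' i) b := by
    intro b
    obtain ⟨x, hx⟩ := C.s.surjective (Sum.inl (i, b))
    have h8 : e (J N (C.s x)) = J N' (C.s x) := by
      rw [← s_L, ← s_L, hs, hL]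
    rw [hx, J_inl, J_inl, hg] at h8
    exact dt_inj N' h8
  have hga : ∀ d, g ((N i).1.a d) = (N' i).1.a (g d) := by
    intro d
    have h6 := ha (dt N i d)
    rw [hg, aa_dt, aa_dt, hg] at h6
    exact dt_inj N' h6
  refine ⟨(Equiv.ofBijective g ⟨hgi, hgs⟩).sumCongr (Equiv.refl Bool), ?_, ?_, rfl⟩
  · rintro (d | b)
    · exact congrArg Sum.inl (hga d)
    · rfl
  · rintro (d | b)
    · change _ = (N' i).1.s (Sum.inl (g d))
      rcases h6 : (N i).1.s (Sum.inl d) with d2 | b
      · change Sum.inl (g d2) = _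
        have h8 := hs (dt N i d)
        rw [s_dt_in N h6, hg, hg] at h8
        rcases h9 : (N' i).1.s (Sum.inl (g d)) with d3 | b
        · rw [s_dt_in N' h9] at h8
          exact congrArg Sum.inl (dt_inj N' h8)
        · exfalso
          have h10 := (last_iff N' hC (dt N' i (g d))).2
            ⟨Sum.inl (i, b), by rw [eq_lstD h9, L_inl]⟩
          rw [← h8, partOf_dt, partOf_dt] at h10
          exact h10 rfl
      · change Sum.inr b = _
        rw [eq_lstD h6, hgl, lstD_spec]
    · change _ = (N' i).1.s (Sum.inr b)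
      rw [fstD_spec, fstD_spec]
      exact congrArg Sum.inl (hgf b)

end PGr
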