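import Pool.Agent.PGr.Defs

/-! # Module CompIso: the composite depends only on the classes of the nets -/

set_option linter.unusedSectionVars false

namespace PGr
open Equiv Finset

/-- an equivalence fixing the two additional points -/
theorem CompIso.exists_equiv {A B : Type} (e : A ⊕ Bool ≃ B ⊕ Bool)
    (he : ∀ b, e (Sum.inr b) = Sum.inr b) : ∃ f : A ≃ B, ∀ x, e (Sum.inl x) = Sum.inl (f x) := by
  have h1 : ∀ x : A, ∃ y : B, e (Sum.inl x) = Sum.inl y := by
    intro x
    rcases h : e (Sum.inl x) with y | b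
    · exact ⟨y, rfl⟩
    · exact absurd (e.injective (h.trans (he b).symm)) Sum.inl_ne_inr
  choose f hf using h1
  refine ⟨Equiv.ofBijective f ⟨?_, ?_⟩, hf⟩
  · intro x x' hx
    exact Sum.inl_injective (e.injective ((hf x).trans ((congrArg Sum.inl hx).trans (hf x').symm)))
  · intro y
    rcases h : e.symm (Sum.inl y) with x | b
    · refine ⟨x, Sum.inl_injective ((hf x).symm.trans ?_)⟩
      rw [← h, Equiv.apply_symm_apply]
    · exfalso
      have h2 : e (Sum.inr b) = Sum.inl y := by rw [← h, Equiv.apply_symm_apply]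
      rw [he b] at h2
      exact Sum.inr_ne_inl h2

/-- an isomorphism restricted to the darts which are no root darts -/
theorem CompIso.exists_f {M M' : BMap} (h : BIso M M') : ∃ f : M.D ≃ M'.D,
    (∀ d, f (M.a d) = M'.a (f d)) ∧
      ∀ x, M'.s (Sum.map f id x) = Sum.map f id (M.s x) := by
  obtain ⟨e, h1, h2, h3⟩ := h
  have h4 : ∀ b, e (Sum.inr b) = Sum.inr b := by
    intro b
    cases b
    · have h5 := h1 (Sum.inr true)
      rw [h3] at h5
      exact h5
    · exact h3
  obtain ⟨f, hf⟩ := CompIso.exists_equiv e h4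
  have h5 : ∀ x : M.T, e x = Sum.map f id x := by
    rintro (d | b)
    · exact hf d
    · exact h4 b
  refine ⟨f, fun d => ?_, fun x => ?_⟩
  · have h6 := h1 (Sum.inl d)
    rw [h5, h5] at h6
    exact Sum.inl_injective h6
  · have h6 := h2 x
    rw [h5, h5] at h6
    exact h6.symm

theorem comp_iso (C : Core) (N N' : C.I → GB) (h : ∀ i, BIso (N i).1 (N' i).1) :
    BIso (comp C N) (comp C N') := by
  choose f hfa hfs using fun i => CompIso.exists_f (h i)
  have hfst : ∀ i b, fstD (N' i) b = f i (fstD (N i) b) := by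
    intro i b
    have h1 := hfs i (Sum.inr b)
    rw [fstD_spec] at h1
    have h2 : (N' i).1.s (Sum.inr b) = Sum.inl (f i (fstD (N i) b)) := h1
    rw [fstD_spec] at h2
    exact Sum.inl_injective h2
  let E : (comp C N).T ≃ (comp C N').T :=
    Equiv.sumCongr (Equiv.sigmaCongrRight f) (Equiv.refl Bool)
  have hj : ∀ x, E (jump C N x) = jump C N' x := by
    rintro (⟨i, b⟩ | b)
    · change (Sum.inl ⟨i, f i (fstD (N i) b)⟩ : (comp C N').T) = Sum.inl ⟨i, fstD (N' i) b⟩
      rw [hfst]
    · rfl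
  refine ⟨E, ?_, ?_, rfl⟩
  · rintro (⟨i, d⟩ | b)
    · change (Sum.inl ⟨i, f i ((N i).1.a d)⟩ : (comp C N').T) = Sum.inl ⟨i, (N' i).1.a (f i d)⟩
      rw [hfa]
    · rfl
  · rintro (⟨i, d⟩ | b)
    · have h1 := hfs i (Sum.inl d)
      rcases h2 : (N i).1.s (Sum.inl d) with d' | b
      · rw [comp_s_in C N h2]
        rw [h2] at h1
        have h3 : (N' i).1.s (Sum.inl (f i d)) = Sum.inl (f i d') := h1
        exact (comp_s_in C N' h3).symm
      · rw [comp_s_out C N h2, hj]
        rw [h2] at h1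
        have h3 : (N' i).1.s (Sum.inl (f i d)) = Sum.inr b := h1
        exact (comp_s_out C N' h3).symm
    · rw [comp_s_root, hj]
      rfl

theorem serMap_iso {N₁ N₂ N₁' N₂' : GB} (h₁ : BIso N₁.1 N₁'.1) (h₂ : BIso N₂.1 N₂'.1) :
    BIso (serMap N₁ N₂) (serMap N₁' N₂') :=
  comp_iso _ _ _ (fun i => by cases i <;> assumption)

end PGr
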