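import Pool.Agent.PGr.Defs

/-! # Module Cut: calculus of the cut function, isomorphism invariance -/

set_option linter.unusedSectionVars false

namespace PGr
open Equiv Finset

section
variable {T : Type*} [Fintype T] [DecidableEq T] {a s : Perm T} {A B : Finset T}

theorem mem_bd {t : T} : t ∈ bd s A ↔ ¬ (t ∈ A ↔ s t ∈ A) := by simp [bd]

theorem Cl.compl (h : Cl a A) : Cl a Aᶜ := by
  intro t; simp only [mem_compl, h t]
theorem Cl.inter (h : Cl a A) (h' : Cl a B) : Cl a (A ∩ B) := by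
  intro t; simp only [mem_inter, h t, h' t]
theorem Cl.union (h : Cl a A) (h' : Cl a B) : Cl a (A ∪ B) := by
  intro t; simp only [mem_union, h t, h' t]
theorem Cl.sdiff (h : Cl a A) (h' : Cl a B) : Cl a (A \ B) := by
  intro t; simp only [mem_sdiff, h t, h' t]
theorem Cl_pair (hinv : ∀ t, a (a t) = t) (t : T) : Cl a {t, a t} := by
  intro u
  simp only [mem_insert, mem_singleton]
  constructor
  · rintro (h | h)
    · right; rw [← h, hinv]
    · left; exact a.injective h
  · rintro (h | h)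
    · right; rw [h]
    · left; rw [h, hinv]

theorem cut_eq_sum_CutAux (s : Perm T) (A : Finset T) :
    cut s A = ∑ t, if ¬ (t ∈ A ↔ s t ∈ A) then 1 else 0 := by
  simp only [cut, bd, card_filter]

theorem cut_compl (s : Perm T) (A : Finset T) : cut s Aᶜ = cut s A := by
  simp only [cut_eq_sum_CutAux]
  refine sum_congr rfl fun t _ => ?_
  simp only [mem_compl, not_iff_not]
theorem cut_univ (s : Perm T) : cut s univ = 0 := by
  simp [cut_eq_sum_CutAux]

theorem cut_inter_union (s : Perm T) (A B : Finset T) :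
    cut s (A ∩ B) + cut s (A ∪ B) ≤ cut s A + cut s B := by
  simp only [cut_eq_sum_CutAux, ← sum_add_distrib]
  refine sum_le_sum fun t _ => ?_
  simp only [mem_inter, mem_union]
  by_cases h1 : t ∈ A <;> by_cases h2 : t ∈ B <;> by_cases h3 : s t ∈ A <;>
    by_cases h4 : s t ∈ B <;> simp [h1, h2, h3, h4]

theorem cut_sdiff (s : Perm T) (A B : Finset T) :
    cut s (A \ B) + cut s (B \ A) ≤ cut s A + cut s B := by
  simp only [cut_eq_sum_CutAux, ← sum_add_distrib]
  refine sum_le_sum fun t _ => ?_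
  simp only [mem_sdiff]
  by_cases h1 : t ∈ A <;> by_cases h2 : t ∈ B <;> by_cases h3 : s t ∈ A <;>
    by_cases h4 : s t ∈ B <;> simp [h1, h2, h3, h4]

/-- the number of corners between `A ∩ B` and the complement of `A ∪ B` is counted twice -/
theorem cut_sdiff_lt (s : Perm T) (A B : Finset T)
    (h : ∃ t, (t ∈ A ∩ B ∧ s t ∉ A ∪ B) ∨ (t ∉ A ∪ B ∧ s t ∈ A ∩ B)) :
    cut s (A \ B) + cut s (B \ A) + 2 ≤ cut s A + cut s B := by
  obtain ⟨t0, ht0⟩ := h
  have e : ∑ t, (if t = t0 then 2 else 0 : ℕ) = 2 := by simp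
  simp only [cut_eq_sum_CutAux, ← sum_add_distrib]
  rw [← e, ← sum_add_distrib]
  refine sum_le_sum fun t _ => ?_
  simp only [mem_sdiff]
  by_cases hh : t = t0
  · subst hh
    simp only [mem_inter, mem_union, not_or] at ht0
    rcases ht0 with ⟨⟨h1, h2⟩, h3, h4⟩ | ⟨⟨h1, h2⟩, h3, h4⟩ <;> simp [h1, h2, h3, h4]
  · rw [if_neg hh]
    by_cases h1 : t ∈ A <;> by_cases h2 : t ∈ B <;> by_cases h3 : s t ∈ A <;>
      by_cases h4 : s t ∈ B <;> simp [h1, h2, h3, h4]

/-- leaving and entering corners are equinumerous -/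
theorem cut_eq_two_mul (s : Perm T) (A : Finset T) :
    cut s A = 2 * (univ.filter fun t => t ∈ A ∧ s t ∉ A).card := by
  have h1 : ∑ t, (if t ∈ A then 1 else 0 : ℕ) = ∑ t, (if s t ∈ A then 1 else 0 : ℕ) :=
    (Equiv.sum_comp s (fun t => (if t ∈ A then 1 else 0 : ℕ))).symm
  have h2 : cut s A + ∑ t, (if t ∈ A then 1 else 0 : ℕ) =
      2 * (univ.filter fun t => t ∈ A ∧ s t ∉ A).card + ∑ t, (if s t ∈ A then 1 else 0 : ℕ) := by
    rw [cut_eq_sum_CutAux, card_filter, mul_sum, ← sum_add_distrib, ← sum_add_distrib]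
    refine sum_congr rfl fun t _ => ?_
    by_cases h1 : t ∈ A <;> by_cases h3 : s t ∈ A <;> simp [h1, h3]
  omega

theorem cut_dual (hA : Cl a A) : cut (a * s) A = cut s A := by
  simp only [cut_eq_sum_CutAux, Perm.mul_apply, hA _]

theorem NS.uncross (h : NS a s) (hA : Cl a A) (hB : Cl a B) (h4 : cut s A = 4) (h4' : cut s B = 4)
    (hi : (A ∩ B).Nonempty) (hu : A ∪ B ≠ univ) : cut s (A ∩ B) = 4 ∧ cut s (A ∪ B) = 4 := by
  have h1 : 4 ≤ cut s (A ∩ B) := by
    refine h _ (hA.inter hB) hi fun h0 => hu ?_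
    rw [eq_univ_iff_forall] at h0 ⊢
    intro x
    exact mem_union_left _ (mem_inter.1 (h0 x)).1
  have h2 : 4 ≤ cut s (A ∪ B) := by
    refine h _ (hA.union hB) ?_ hu
    obtain ⟨x, hx⟩ := hi
    exact ⟨x, mem_union_left _ (mem_inter.1 hx).1⟩
  have h3 := cut_inter_union s A B
  omega

theorem NS.uncross_sdiff (h : NS a s) (hA : Cl a A) (hB : Cl a B) (h4 : cut s A = 4)
    (h4' : cut s B = 4) (hi : (A \ B).Nonempty) (hu : (B \ A).Nonempty) :
    cut s (A \ B) = 4 ∧ cut s (B \ A) = 4 := by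
  have h1 : 4 ≤ cut s (A \ B) := by
    refine h _ (hA.sdiff hB) hi fun h0 => ?_
    obtain ⟨x, hx⟩ := hu
    rw [eq_univ_iff_forall] at h0
    exact (mem_sdiff.1 (h0 x)).2 (mem_sdiff.1 hx).1
  have h2 : 4 ≤ cut s (B \ A) := by
    refine h _ (hB.sdiff hA) hu fun h0 => ?_
    obtain ⟨x, hx⟩ := hi
    rw [eq_univ_iff_forall] at h0
    exact (mem_sdiff.1 (h0 x)).2 (mem_sdiff.1 hx).1
  have h3 := cut_sdiff s A B
  omega

theorem four_le_cut_pair_CutAux (h : Good a s) (t : T) : 4 ≤ cut s {t, a t} := by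
  refine h.ns _ (Cl_pair h.inv t) ⟨t, by simp⟩ fun h0 => ?_
  have h1 := h.big
  rw [← card_univ, ← h0] at h1
  have h2 : ({t, a t} : Finset T).card ≤ 2 := card_le_two
  omega

theorem Good.s_ne (h : Good a s) (t : T) : s t ≠ t := by
  intro ht
  have h1 := four_le_cut_pair_CutAux h t
  have h2 : bd s {t, a t} ⊆ {a t, s.symm (a t)} := by
    intro u hu
    rw [mem_bd] at hu
    simp only [mem_insert, mem_singleton] at hu ⊢
    rw [Equiv.eq_symm_apply]
    by_cases h3 : u = t
    · exfalso; apply hu; rw [h3, ht]; 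
    · have h5 : s u ≠ t := fun h6 => h3 (s.injective (h6.trans ht.symm))
      tauto
  have h3 := (card_le_card h2).trans card_le_two
  rw [cut] at h1
  omega
theorem Good.s_ne_a (h : Good a s) (t : T) : s t ≠ a t := by
  intro ht
  have h1 := four_le_cut_pair_CutAux h t
  have h2 : bd s {t, a t} ⊆ {a t, s.symm t} := by
    intro u hu
    rw [mem_bd] at hu
    simp only [mem_insert, mem_singleton] at hu ⊢
    rw [Equiv.eq_symm_apply]
    by_cases h3 : u = t
    · exfalso; apply hu; rw [h3, ht]; simp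
    · have h5 : s u ≠ a t := fun h6 => h3 (s.injective (h6.trans ht.symm))
      tauto
  have h3 := (card_le_card h2).trans card_le_two
  rw [cut] at h1
  omega
theorem Good.cut_pair (h : Good a s) (t : T) : cut s {t, a t} = 4 := by
  refine le_antisymm ?_ (four_le_cut_pair_CutAux h t)
  have h2 : bd s {t, a t} ⊆ {t, a t, s.symm t, s.symm (a t)} := by
    intro u hu
    rw [mem_bd] at hu
    simp only [mem_insert, mem_singleton] at hu ⊢
    rw [Equiv.eq_symm_apply, Equiv.eq_symm_apply]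
    tauto
  exact (card_le_card h2).trans card_le_four

end

end PGr
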