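import Pool.Agent.PGr.NoPinch
import Pool.Agent.PGr.Cut

/-! # Module Digon: the map with two edges -/

set_option linter.unusedSectionVars false

namespace PGr
open Equiv Finset

theorem Digon_aa_inl (b : Bool) : digonB.aa (Sum.inl b) = Sum.inl (!b) := rfl
theorem Digon_aa_inr (b : Bool) : digonB.aa (Sum.inr b) = Sum.inr (!b) := rfl
theorem Digon_s_inl (b : Bool) : digonB.s (Sum.inl b) = Sum.inr b := rfl
theorem Digon_s_inr (b : Bool) : digonB.s (Sum.inr b) = Sum.inl b := rfl

theorem digon_good : digonB.IsGood := by
  refine ⟨?_, ?_, ?_, ?_, ?_⟩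
  · rintro ((_ | _) | (_ | _)) <;> rfl
  · rintro (b | b)
    · rw [Digon_aa_inl]; intro h; have := Sum.inl.inj h; revert this; cases b <;> decide
    · rw [Digon_aa_inr]; intro h; have := Sum.inr.inj h; revert this; cases b <;> decide
  · intro A hA hne hu
    have h1 : (Sum.inl false : digonB.T) ∈ A ↔ (Sum.inl true : digonB.T) ∈ A := hA (Sum.inl true)
    have h2 : (Sum.inr false : digonB.T) ∈ A ↔ (Sum.inr true : digonB.T) ∈ A := hA (Sum.inr true)
    have h3 : ¬ ((Sum.inl true : digonB.T) ∈ A ↔ (Sum.inr true : digonB.T) ∈ A) := by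
      intro h
      by_cases h4 : (Sum.inl true : digonB.T) ∈ A
      · apply hu
        ext x
        simp only [mem_univ, iff_true]
        rcases x with (_ | _) | (_ | _)
        · exact h1.mpr h4
        · exact h4
        · exact h2.mpr (h.mp h4)
        · exact h.mp h4
      · obtain ⟨x, hx⟩ := hne
        rcases x with (_ | _) | (_ | _)
        · exact h4 (h1.mp hx)
        · exact h4 hx
        · exact h4 (h.mpr (h2.mp hx))
        · exact h4 (h.mpr hx)
    have hbd : bd digonB.s A = univ := by
      ext x
      simp only [bd, mem_filter, mem_univ, true_and, iff_true]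
      rcases x with (_ | _) | (_ | _)
      · rw [Digon_s_inl]; tauto
      · rw [Digon_s_inl]; tauto
      · rw [Digon_s_inr]; tauto
      · rw [Digon_s_inr]; tauto
    rw [cut, hbd]
    decide
  · intro p q hpq
    have e1 := hpq (Sum.inl true)
    have e2 := hpq (Sum.inl false)
    have e3 := hpq (Sum.inr true)
    rw [Digon_s_inl, Digon_aa_inl] at e1 e2
    rw [Digon_s_inr, Digon_aa_inr] at e3
    simp only [Bool.not_true, Bool.not_false] at e1 e2 e3
    have key : ∀ a b c d e f g h : ZMod 2, a + b = c + d → e + f = g + h → c + h = a + f →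
        a + c = e + g := by decide
    have e4 := key _ _ _ _ _ _ _ _ e1 e2 e3
    refine ⟨fun t => match t with
      | Sum.inl _ => p (Sum.inl true) + p (Sum.inr true)
      | Sum.inr _ => 0, ?_, ?_⟩
    · rintro (b | b) <;> rfl
    · rintro (b | b)
      · rw [Digon_s_inl]
        cases b
        · simp only [add_zero]; exact e4
        · simp only [add_zero]
      · rw [Digon_s_inr]
        cases b
        · exact (zero_add _).trans (e4.trans (add_comm _ _))
        · exact (zero_add _).trans (add_comm _ _)
  · decide

theorem digon_nV : nV digonB.s = 2 := by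
  have key : ∀ x y : digonB.T, Perm.SameCycle digonB.s x y ↔
      Sum.elim id id x = Sum.elim (id : Bool → Bool) id y := by
    have h1 : ∀ n : ℕ, ∀ x : digonB.T, Sum.elim id id ((digonB.s ^ n) x) =
        Sum.elim (id : Bool → Bool) id x := by
      intro n
      induction n with
      | zero => intro x; rfl
      | succ n ih =>
        intro x
        rw [pow_succ, Perm.mul_apply, ih]
        rcases x with b | b <;> rfl
    intro x y
    constructor
    · intro h
      obtain ⟨n, -, hn⟩ := h.exists_pow_eq'
      rw [← hn]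
      exact (h1 n x).symm
    · intro h
      rcases x with b | b <;> rcases y with b' | b' <;>
        (have h' : b = b' := h) <;> subst h'
      · exact Perm.SameCycle.refl _ _
      · exact ⟨1, by rw [zpow_one]; rfl⟩
      · exact ⟨1, by rw [zpow_one]; rfl⟩
      · exact Perm.SameCycle.refl _ _
  have e : Quotient (Perm.SameCycle.setoid digonB.s) ≃ Bool :=
    { toFun := Quotient.lift (Sum.elim (id : Bool → Bool) id) (fun x y h => (key x y).mp h)
      invFun := fun b => Quotient.mk _ (Sum.inl b)
      left_inv := by
        intro q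
        induction q using Quotient.inductionOn with
        | h x => exact Quotient.sound ((key _ _).mpr rfl)
      right_inv := by intro b; rfl }
  rw [nV, Nat.card_congr e]
  simp

theorem digon_rl : digonB.rl = 2 := by
  have : Fact (Nat.Prime 2) := ⟨Nat.prime_two⟩
  refine Function.minimalPeriod_eq_prime (p := 2) ?_ ?_
  · rfl
  · intro h
    have h' : (Sum.inl false : digonB.T) = Sum.inr true := h
    cases h'

theorem digon_not_ser : ¬ IsSer digonB := by
  rintro ⟨A, hA, -⟩
  have h1 : (Sum.inl true : digonB.T) ∈ A := hA.fst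
  have h2 : (Sum.inl false : digonB.T) ∈ A := (hA.cl (Sum.inl true)).mpr h1
  apply hA.rest
  ext x
  simp only [mem_univ, iff_true, mem_union, BMap.root, mem_insert, mem_singleton]
  rcases x with (_ | _) | (_ | _)
  · exact Or.inl h2
  · exact Or.inl h1
  · exact Or.inr (Or.inr rfl)
  · exact Or.inr (Or.inl rfl)

theorem digon_not_par : ¬ IsPar digonB := by
  rintro ⟨A, hA, -⟩
  have h1 : (Sum.inl false : digonB.T) ∈ A := hA.fst
  have h2 : (Sum.inl true : digonB.T) ∈ A := (hA.cl (Sum.inl false)).mpr h1
  apply hA.rest
  ext x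
  simp only [mem_univ, iff_true, mem_union, BMap.root, mem_insert, mem_singleton]
  rcases x with (_ | _) | (_ | _)
  · exact Or.inl h1
  · exact Or.inl h2
  · exact Or.inr (Or.inr rfl)
  · exact Or.inr (Or.inl rfl)

/-- the number of nonroot darts is even and positive -/
theorem card_D_even {M : BMap} (h : M.IsGood) : ∃ k, 0 < k ∧ Fintype.card M.D = 2 * k := by
  have hinv : ∀ d, M.a (M.a d) = d := fun d => Sum.inl.inj (h.inv (Sum.inl d))
  have hfpf : ∀ d, M.a d ≠ d := fun d hd => h.fpf (Sum.inl d) (congrArg Sum.inl hd)
  have h1 : ∑ _x ∈ (univ : Finset M.D), (1 : ZMod 2) = 0 := by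
    refine sum_involution (fun d _ => M.a d) ?_ ?_ ?_ ?_
    · intro d _; decide
    · intro d _ _; exact hfpf d
    · intro d _; exact mem_univ _
    · intro d _; exact hinv d
  rw [sum_const, card_univ, nsmul_eq_mul, mul_one] at h1
  have h2 : 2 ∣ Fintype.card M.D := (ZMod.natCast_eq_zero_iff _ _).mp h1
  obtain ⟨k, hk⟩ := h2
  have h3 : 4 ≤ Fintype.card M.D + 2 := by
    have h4 := h.big
    rw [Fintype.card_sum, Fintype.card_bool] at h4
    exact h4
  exact ⟨k, by omega, hk⟩

/-- maps with two edges -/
theorem eq_digon {M : BMap} (h : M.IsGood) (h2 : Fintype.card M.D < 4) : BIso M digonB := by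
  obtain ⟨k, hk0, hk⟩ := card_D_even h
  have hc : Fintype.card M.D = 2 := by omega
  have hinv : ∀ d, M.a (M.a d) = d := fun d => Sum.inl.inj (h.inv (Sum.inl d))
  have hfpf : ∀ d, M.a d ≠ d := fun d hd => h.fpf (Sum.inl d) (congrArg Sum.inl hd)
  obtain ⟨d, hd⟩ := exists_fst ⟨M, h⟩ true
  simp only at hd
  have hall : ∀ x : M.D, x = d ∨ x = M.a d := by
    intro x
    by_contra hcon
    push Not at hcon
    have h3 : ({x, d, M.a d} : Finset M.D).card = 3 := by
      rw [card_insert_of_notMem, card_pair (hfpf d).symm]
      simp [hcon.1, hcon.2]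
    have h4 := card_le_univ ({x, d, M.a d} : Finset M.D)
    omega
  have hcases : ∀ x : M.T, x = Sum.inl d ∨ x = Sum.inl (M.a d) ∨ x = Sum.inr true ∨
      x = Sum.inr false := by
    rintro (x | (_ | _))
    · rcases hall x with rfl | rfl
      · exact Or.inl rfl
      · exact Or.inr (Or.inl rfl)
    · exact Or.inr (Or.inr (Or.inr rfl))
    · exact Or.inr (Or.inr (Or.inl rfl))
  have hs2 : M.s (Sum.inr false) = Sum.inl (M.a d) := by
    obtain ⟨d', hd'⟩ := exists_fst ⟨M, h⟩ false
    simp only at hd'
    rcases hall d' with e | e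
    · exfalso
      rw [e, ← hd] at hd'
      have := M.s.injective hd'
      simp at this
    · rw [hd', e]
  have hs3 : M.s (Sum.inl d) = Sum.inr true := by
    rcases hcases (M.s (Sum.inl d)) with e | e | e | e
    · exact absurd e (Good.s_ne h _)
    · exact absurd e (Good.s_ne_a h _)
    · exact e
    · exfalso
      refine Good.noLoop h (Sum.inr true) ⟨2, ?_⟩
      change (M.s ^ (2 : ℤ)) (Sum.inr true) = Sum.inr false
      rw [← e, ← hd]
      rfl
  have hs4 : M.s (Sum.inl (M.a d)) = Sum.inr false := by
    rcases hcases (M.s (Sum.inl (M.a d))) with e | e | e | e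
    · exfalso
      have := M.s.injective (e.trans hd.symm)
      simp at this
    · exact absurd e (Good.s_ne h _)
    · exfalso
      have := M.s.injective (e.trans hs3.symm)
      exact hfpf d (Sum.inl.inj this)
    · exact e
  have hne := hfpf d
  let f : M.D ≃ Bool :=
    { toFun := fun x => decide (x = d)
      invFun := fun b => if b then d else M.a d
      left_inv := by
        intro x
        rcases hall x with rfl | rfl
        · simp
        · simp [hne]
      right_inv := by
        intro b
        cases b
        · simp [hne]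
        · simp }
  have hf1 : f d = true := by simp [f]
  have hf2 : f (M.a d) = false := by simp [f, hne]
  refine ⟨Equiv.sumCongr f (Equiv.refl Bool), ?_, ?_, rfl⟩
  · intro t
    rcases hcases t with rfl | rfl | rfl | rfl
    · change Sum.inl (f (M.a d)) = digonB.aa (Sum.inl (f d))
      rw [hf1, hf2]; rfl
    · change Sum.inl (f (M.a (M.a d))) = digonB.aa (Sum.inl (f (M.a d)))
      rw [hinv, hf1, hf2]; rfl
    · rfl
    · rfl
  · intro t
    rcases hcases t with rfl | rfl | rfl | rfl
    · rw [hs3]
      change Sum.inr true = digonB.s (Sum.inl (f d))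
      rw [hf1]; rfl
    · rw [hs4]
      change Sum.inr false = digonB.s (Sum.inl (f (M.a d)))
      rw [hf2]; rfl
    · rw [hd]
      change Sum.inl (f d) = digonB.s (Sum.inr true)
      rw [hf1]; rfl
    · rw [hs2]
      change Sum.inl (f (M.a d)) = digonB.s (Sum.inr false)
      rw [hf2]; rfl

end PGr
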