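import Pool.Agent.PGr.NoPinch

/-! # Module Euler: homological planarity is Euler's formula -/

set_option linter.unusedSectionVars false

namespace PGr
open Equiv Finset

section
variable {T : Type*} [Fintype T] [DecidableEq T] {a s : Perm T}

/-- the number of connected components (orbits of the group generated by `a` and `s`) -/
noncomputable def nComp (a s : Perm T) : ℕ :=
  Nat.card (MulAction.orbitRel.Quotient (Subgroup.closure {a, s}) T)

/-- coboundary along a permutation -/
def Euler_del (σ : Perm T) : (T → ZMod 2) →ₗ[ZMod 2] (T → ZMod 2) where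
  toFun f := fun t => f t + f (σ t)
  map_add' f g := by funext t; simp only [Pi.add_apply]; ring
  map_smul' c f := by funext t; simp only [Pi.smul_apply, smul_eq_mul, RingHom.id_apply]; ring

theorem Euler_del_apply (σ : Perm T) (f : T → ZMod 2) (t : T) :
    Euler_del σ f t = f t + f (σ t) := rfl

theorem Euler_ai (σ : Perm T) (t : T) : σ (σ⁻¹ t) = t := σ.apply_symm_apply t

theorem Euler_two (u v : ZMod 2) : u + v = 0 ↔ v = u := by revert u v; decide

theorem Euler_mem_ker (σ : Perm T) (f : T → ZMod 2) :
    f ∈ LinearMap.ker (Euler_del σ) ↔ ∀ t, f (σ t) = f t := by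
  rw [LinearMap.mem_ker]
  constructor
  · intro h t
    have := congrFun h t
    rw [Euler_del_apply] at this
    exact (Euler_two _ _).mp this
  · intro h
    funext t
    rw [Euler_del_apply]
    exact (Euler_two _ _).mpr (h t)

/-- functions constant on the classes of an equivalence relation -/
theorem Euler_finrank_quot (r : Setoid T) (W : Submodule (ZMod 2) (T → ZMod 2))
    (hW : ∀ f, f ∈ W ↔ ∀ t t', r t t' → f t = f t') :
    Module.finrank (ZMod 2) W = Nat.card (Quotient r) := by
  classical
  have hinj : Function.Injective (LinearMap.funLeft (ZMod 2) (ZMod 2) (Quotient.mk r)) :=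
    LinearMap.funLeft_injective_of_surjective _ _ _ Quotient.mk_surjective
  have hrange : W = LinearMap.range (LinearMap.funLeft (ZMod 2) (ZMod 2) (Quotient.mk r)) := by
    ext f
    rw [hW, LinearMap.mem_range]
    constructor
    · intro h
      refine ⟨fun q => Quotient.lift f (fun x y hxy => h x y hxy) q, ?_⟩
      funext t
      rfl
    · rintro ⟨g, rfl⟩ t t' h
      simp only [LinearMap.funLeft_apply]
      rw [Quotient.sound h]
  rw [hrange, LinearMap.finrank_range_of_inj hinj]
  have : Fintype (Quotient r) := Fintype.ofFinite _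
  rw [Module.finrank_fintype_fun_eq_card, Nat.card_eq_fintype_card]

theorem Euler_finrank_ker (σ : Perm T) :
    Module.finrank (ZMod 2) (LinearMap.ker (Euler_del σ)) = nV σ := by
  rw [nV]
  refine Euler_finrank_quot _ _ fun f => ?_
  rw [Euler_mem_ker]
  constructor
  · rintro h t t' ⟨n, hn⟩
    have hnat : ∀ (n : ℕ) t, f ((σ ^ n) t) = f t := by
      intro n
      induction n with
      | zero => intro t; simp
      | succ n ih => intro t; rw [pow_succ, Perm.mul_apply, ih, h]
    rw [← hn]
    rcases n with n | n
    · simp only [Int.ofNat_eq_natCast, zpow_natCast]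
      exact (hnat n t).symm
    · rw [zpow_negSucc]
      have := hnat (n + 1) ((σ ^ (n + 1))⁻¹ t)
      rw [Euler_ai] at this
      exact this
  · intro h t
    exact h _ _ (Perm.SameCycle.symm ⟨1, by simp⟩)

theorem Euler_finrank_T : Module.finrank (ZMod 2) (T → ZMod 2) = Fintype.card T :=
  Module.finrank_fintype_fun_eq_card _

theorem Euler_finrank_range (σ : Perm T) :
    Module.finrank (ZMod 2) (LinearMap.range (Euler_del σ)) + nV σ = Fintype.card T := by
  rw [← Euler_finrank_ker, LinearMap.finrank_range_add_finrank_ker, Euler_finrank_T]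

theorem Euler_finrank_inv (hinv : ∀ t, a (a t) = t) (hfpf : ∀ t, a t ≠ t) :
    2 * Module.finrank (ZMod 2) (LinearMap.ker (Euler_del a)) = Fintype.card T := by
  have h : LinearMap.range (Euler_del a) = LinearMap.ker (Euler_del a) := by
    ext f
    rw [Euler_mem_ker, LinearMap.mem_range]
    constructor
    · rintro ⟨g, rfl⟩ t
      rw [Euler_del_apply, Euler_del_apply, hinv, add_comm]
    · intro h
      let e := Fintype.equivFin T
      refine ⟨fun t => if e t < e (a t) then f t else 0, ?_⟩
      funext t
      rw [Euler_del_apply]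
      simp only [hinv, h]
      rcases lt_trichotomy (e t) (e (a t)) with h1 | h1 | h1
      · rw [if_pos h1, if_neg (not_lt.mpr h1.le), add_zero]
      · exact absurd (e.injective h1).symm (hfpf t)
      · rw [if_neg (not_lt.mpr h1.le), if_pos h1, zero_add]
  have h1 := LinearMap.finrank_range_add_finrank_ker (Euler_del a)
  rw [h, Euler_finrank_T] at h1
  omega

/-- functions invariant under `a` and `s` -/
theorem Euler_finrank_comp (a s : Perm T) :
    Module.finrank (ZMod 2) (LinearMap.ker (Euler_del a) ⊓ LinearMap.ker (Euler_del s) :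
      Submodule (ZMod 2) (T → ZMod 2)) = nComp a s := by
  rw [nComp]
  refine Euler_finrank_quot (MulAction.orbitRel (Subgroup.closure {a, s}) T) _ fun f => ?_
  rw [Submodule.mem_inf, Euler_mem_ker, Euler_mem_ker]
  constructor
  · rintro ⟨h1, h2⟩ t t' ⟨g, hg⟩
    obtain ⟨g, hgm⟩ := g
    have key : ∀ g ∈ Subgroup.closure {a, s}, ∀ t, f (g t) = f t := by
      intro g hg
      induction hg using Subgroup.closure_induction with
      | mem x hx =>
        rcases hx with rfl | hx
        · exact h1
        · rw [Set.mem_singleton_iff.mp hx]; exact h2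
      | one => intro t; rfl
      | mul x y _ _ hx hy => intro t; rw [Perm.mul_apply, hx, hy]
      | inv x _ hx =>
        intro t
        have := hx (x⁻¹ t)
        rw [Euler_ai] at this
        exact this.symm
    have : f (g t') = f t' := key g hgm t'
    have hg' : g t' = t := hg
    rw [← hg', this]
  · intro h
    refine ⟨fun t => h _ _ ?_, fun t => h _ _ ?_⟩
    · exact ⟨⟨a, Subgroup.subset_closure (by simp)⟩, rfl⟩
    · exact ⟨⟨s, Subgroup.subset_closure (by simp)⟩, rfl⟩

theorem Euler_finrank_map (f : (T → ZMod 2) →ₗ[ZMod 2] (T → ZMod 2))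
    (p : Submodule (ZMod 2) (T → ZMod 2)) :
    Module.finrank (ZMod 2) (p.map f) +
      Module.finrank (ZMod 2) (p ⊓ LinearMap.ker f : Submodule (ZMod 2) (T → ZMod 2)) =
      Module.finrank (ZMod 2) p := by
  have h := LinearMap.finrank_range_add_finrank_ker (f.domRestrict p)
  rw [LinearMap.range_domRestrict, LinearMap.ker_domRestrict] at h
  rw [← h, ← Submodule.map_comap_subtype, Submodule.finrank_map_subtype_eq]

/-- the span of the coboundaries: functions with sum zero on all components -/
theorem Euler_finrank_sup (a s : Perm T) :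
    Module.finrank (ZMod 2) (LinearMap.range (Euler_del s) ⊔ LinearMap.range (Euler_del (a * s)) :
      Submodule (ZMod 2) (T → ZMod 2)) + nComp a s = Fintype.card T := by
  classical
  set W : Submodule (ZMod 2) (T → ZMod 2) :=
    LinearMap.range (Euler_del s) ⊔ LinearMap.range (Euler_del (a * s)) with hW
  set Q := MulAction.orbitRel.Quotient (Subgroup.closure {a, s}) T with hQ
  have : Fintype Q := Fintype.ofFinite _
  let mk : T → Q := fun t => Quotient.mk _ t
  -- sums over the components
  let S : (T → ZMod 2) →ₗ[ZMod 2] (Q → ZMod 2) :=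
    { toFun := fun f q => ∑ t ∈ univ.filter (fun t => mk t = q), f t
      map_add' := fun f g => by funext q; simp [sum_add_distrib]
      map_smul' := fun c f => by funext q; simp [mul_sum] }
  have hS : ∀ f q, S f q = ∑ t ∈ univ.filter (fun t => mk t = q), f t := fun _ _ => rfl
  have hmks : ∀ t, mk (s t) = mk t := fun t =>
    Quotient.sound ⟨⟨s, Subgroup.subset_closure (by simp)⟩, rfl⟩
  have hmka : ∀ t, mk (a t) = mk t := fun t =>
    Quotient.sound ⟨⟨a, Subgroup.subset_closure (by simp)⟩, rfl⟩
  have hker1 : ∀ σ : Perm T, (∀ t, mk (σ t) = mk t) → ∀ f, S (Euler_del σ f) = 0 := by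
    intro σ hσ f
    funext q
    rw [hS]
    simp only [Euler_del_apply, sum_add_distrib, Pi.zero_apply]
    have : ∑ t ∈ univ.filter (fun t => mk t = q), f (σ t) =
        ∑ t ∈ univ.filter (fun t => mk t = q), f t := by
      refine sum_bij (fun t _ => σ t) ?_ ?_ ?_ ?_
      · intro t ht
        simp only [mem_filter, mem_univ, true_and] at ht ⊢
        rw [hσ, ht]
      · intro t _ t' _ h
        exact σ.injective h
      · intro t ht
        simp only [mem_filter, mem_univ, true_and] at ht ⊢
        refine ⟨σ⁻¹ t, ?_, Euler_ai σ t⟩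
        rw [← hσ, Euler_ai, ht]
      · intro t _
        rfl
    rw [this]
    exact (Euler_two _ _).mpr rfl
  have hsub : ∀ g ∈ Subgroup.closure {a, s}, ∀ t, Pi.single t (1 : ZMod 2) + Pi.single (g t) 1 ∈ W := by
    have hgen : ∀ σ : Perm T, LinearMap.range (Euler_del σ) ≤ W → ∀ t,
        (Pi.single t (1 : ZMod 2) + Pi.single (σ t) 1 : T → ZMod 2) ∈ W := by
      intro σ hσ t
      apply hσ
      refine ⟨Pi.single (σ t) 1, ?_⟩
      funext x
      rw [Euler_del_apply, Pi.add_apply, add_comm]
      congr 1
      by_cases hx : x = t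
      · subst hx; simp
      · rw [Pi.single_eq_of_ne hx, Pi.single_eq_of_ne]
        exact fun h => hx (σ.injective h)
    have hs1 := hgen s le_sup_left
    have hs2 := hgen (a * s) le_sup_right
    have htr : ∀ x y z : T, (Pi.single x (1 : ZMod 2) + Pi.single y 1 : T → ZMod 2) ∈ W →
        (Pi.single y (1 : ZMod 2) + Pi.single z 1 : T → ZMod 2) ∈ W →
        (Pi.single x (1 : ZMod 2) + Pi.single z 1 : T → ZMod 2) ∈ W := by
      intro x y z h1 h2
      have := W.add_mem h1 h2
      have e : (Pi.single x (1 : ZMod 2) + Pi.single y 1 + (Pi.single y 1 + Pi.single z 1) :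
          T → ZMod 2) = Pi.single x 1 + Pi.single z 1 := by
        have h0 : (Pi.single y (1 : ZMod 2) + Pi.single y 1 : T → ZMod 2) = 0 := by
          funext u
          exact (Euler_two _ _).mpr rfl
        calc _ = Pi.single x 1 + (Pi.single y 1 + Pi.single y 1) + Pi.single z 1 := by abel
          _ = _ := by rw [h0, add_zero]
      rw [e] at this
      exact this
    intro g hg
    induction hg using Subgroup.closure_induction with
    | mem x hx =>
      intro t
      rcases hx with rfl | hx
      · have h1 := hs1 (s⁻¹ t)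
        have h2 := hs2 (s⁻¹ t)
        rw [Euler_ai] at h1
        rw [Perm.mul_apply, Euler_ai] at h2
        refine htr _ (s⁻¹ t) _ ?_ h2
        rw [add_comm]
        exact h1
      · rw [Set.mem_singleton_iff.mp hx]; exact hs1 t
    | one =>
      intro t
      have : (Pi.single t (1 : ZMod 2) + Pi.single ((1 : Perm T) t) 1 : T → ZMod 2) = 0 := by
        funext u
        exact (Euler_two _ _).mpr rfl
      rw [this]
      exact W.zero_mem
    | mul x y _ _ hx hy => intro t; exact htr _ (y t) _ (hy t) (hx (y t))
    | inv x _ hx =>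
      intro t
      have := hx (x⁻¹ t)
      rw [Euler_ai] at this
      rw [add_comm]
      exact this
  let rep : Q → T := Quotient.out
  have hrep : ∀ q, mk (rep q) = q := fun q => Quotient.out_eq q
  have hkerS : LinearMap.ker S = W := by
    apply le_antisymm
    · intro f hf
      rw [LinearMap.mem_ker] at hf
      have e1 : f = ∑ t, f t • (Pi.single t (1 : ZMod 2) + Pi.single (rep (mk t)) 1) := by
        have e2 : ∑ t, f t • (Pi.single (rep (mk t)) (1 : ZMod 2) : T → ZMod 2) = 0 := by
          rw [← sum_fiberwise_of_maps_to (t := univ) (g := mk) (fun _ _ => mem_univ _)]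
          refine sum_eq_zero fun q _ => ?_
          have e3 : ∑ t ∈ univ.filter (fun t => mk t = q),
              f t • (Pi.single (rep (mk t)) (1 : ZMod 2) : T → ZMod 2) =
              ∑ t ∈ univ.filter (fun t => mk t = q), f t • (Pi.single (rep q) 1 : T → ZMod 2) := by
            refine sum_congr rfl fun t ht => ?_
            rw [(mem_filter.mp ht).2]
          rw [e3, ← sum_smul, ← hS, hf]
          simp
        simp only [smul_add, sum_add_distrib]
        rw [e2, add_zero]
        funext x
        simp [Finset.sum_apply, Pi.single_apply]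
      rw [e1]
      refine W.sum_mem fun t _ => W.smul_mem _ ?_
      have hrel : MulAction.orbitRel (Subgroup.closure {a, s}) T (rep (mk t)) t :=
        Quotient.exact (hrep (mk t))
      obtain ⟨g, hg⟩ := hrel
      have hg' : g.1 t = rep (mk t) := hg
      rw [← hg']
      exact hsub g.1 g.2 t
    · rw [hW]
      apply sup_le
      · rintro _ ⟨f, rfl⟩
        exact hker1 s hmks f
      · rintro _ ⟨f, rfl⟩
        refine hker1 (a * s) (fun t => ?_) f
        rw [Perm.mul_apply, hmka, hmks]
  have hsurj : LinearMap.range S = ⊤ := by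
    rw [LinearMap.range_eq_top]
    intro g
    refine ⟨fun t => if t = rep (mk t) then g (mk t) else 0, ?_⟩
    funext q
    rw [hS, sum_eq_single (rep q)]
    · rw [hrep, if_pos rfl]
    · intro t ht hne
      rw [if_neg]
      rw [(mem_filter.mp ht).2]
      exact hne
    · intro h
      exfalso
      apply h
      simp [hrep]
  have h1 := LinearMap.finrank_range_add_finrank_ker S
  rw [hkerS, hsurj, finrank_top, Module.finrank_fintype_fun_eq_card, Euler_finrank_T] at h1
  have h2 : nComp a s = Fintype.card Q := by
    rw [nComp]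
    exact Nat.card_eq_fintype_card
  omega

theorem Pl_iff_euler (hinv : ∀ t, a (a t) = t) (hfpf : ∀ t, a t ≠ t) :
    Pl a s ↔ nV s + nV (a * s) = Fintype.card T / 2 + 2 * nComp a s := by
  set J : Submodule (ZMod 2) (T → ZMod 2) :=
    LinearMap.range (Euler_del s) ⊓ LinearMap.range (Euler_del (a * s)) with hJ
  set B : Submodule (ZMod 2) (T → ZMod 2) := (LinearMap.ker (Euler_del a)).map (Euler_del s) with hB
  have hBJ : B ≤ J := by
    rintro _ ⟨h, hh, rfl⟩
    rw [SetLike.mem_coe, Euler_mem_ker] at hh
    refine ⟨⟨h, rfl⟩, ⟨h, ?_⟩⟩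
    funext t
    rw [Euler_del_apply, Euler_del_apply, Perm.mul_apply, hh]
  have hPl : Pl a s ↔ J ≤ B := by
    constructor
    · rintro h j ⟨⟨p, hp⟩, ⟨q, hq⟩⟩
      obtain ⟨g, hg1, hg2⟩ := h p (fun t => q (a t)) (by
        intro t
        have e1 := congrFun hp t
        have e2 := congrFun hq t
        rw [Euler_del_apply] at e1 e2
        rw [Perm.mul_apply] at e2
        simp only [hinv]
        have h3 : ∀ u v w z : ZMod 2, u + v = w + z → u + w = v + z := by decide
        exact h3 _ _ _ _ (e1.trans e2.symm))
      refine ⟨g, ?_, ?_⟩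
      · rw [SetLike.mem_coe, Euler_mem_ker]; exact hg1
      · rw [← hp]
        funext t
        exact hg2 t
    · intro h p q hpq
      have hj : Euler_del s p ∈ J := by
        refine ⟨⟨p, rfl⟩, ⟨fun t => q (a t), ?_⟩⟩
        funext t
        rw [Euler_del_apply, Euler_del_apply, Perm.mul_apply, hinv]
        have h3 : ∀ u v w z : ZMod 2, u + v = w + z → v + z = u + w := by decide
        exact h3 _ _ _ _ (hpq t)
      obtain ⟨g, hg1, hg2⟩ := h hj
      rw [SetLike.mem_coe, Euler_mem_ker] at hg1
      exact ⟨g, hg1, fun t => congrFun hg2 t⟩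
  have hfin : J ≤ B ↔ Module.finrank (ZMod 2) B = Module.finrank (ZMod 2) J := by
    constructor
    · intro h
      rw [le_antisymm hBJ h]
    · intro h
      rw [Submodule.eq_of_le_of_finrank_eq hBJ h]
  rw [hPl, hfin]
  have d1 := Euler_finrank_map (Euler_del s) (LinearMap.ker (Euler_del a))
  rw [Euler_finrank_comp, ← hB] at d1
  have d2 := Euler_finrank_inv hinv hfpf
  have d3 := Submodule.finrank_sup_add_finrank_inf_eq (LinearMap.range (Euler_del s))
    (LinearMap.range (Euler_del (a * s)))
  rw [← hJ] at d3
  have d4 := Euler_finrank_sup a s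
  have d5 := Euler_finrank_range s
  have d6 := Euler_finrank_range (a * s)
  omega

theorem Good.euler (h : Good a s) : nV s + nV (a * s) = Fintype.card T / 2 + 2 := by
  classical
  rw [(Pl_iff_euler h.inv h.fpf).mp h.pl]
  have hc : 0 < Fintype.card T := by have := h.big; omega
  obtain ⟨t₀⟩ := Fintype.card_pos_iff.mp hc
  suffices nComp a s = 1 by omega
  rw [nComp, Nat.card_eq_one_iff_unique]
  have htr : ∀ t t' : T, ∃ g : Subgroup.closure {a, s}, g • t' = t := by
    intro t t'
    set A : Finset T := univ.filter fun x => ∃ g : Subgroup.closure {a, s}, g • t' = x with hA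
    have hmem : ∀ (σ : Perm T), σ ∈ Subgroup.closure {a, s} → ∀ x, (σ x ∈ A ↔ x ∈ A) := by
      intro σ hσ x
      simp only [hA, mem_filter, mem_univ, true_and]
      constructor
      · rintro ⟨g, hg⟩
        refine ⟨⟨σ, hσ⟩⁻¹ * g, ?_⟩
        rw [mul_smul, hg]
        change σ⁻¹ (σ x) = x
        simp
      · rintro ⟨g, hg⟩
        refine ⟨⟨σ, hσ⟩ * g, ?_⟩
        rw [mul_smul, hg]
        rfl
    have hcl : Cl a A := hmem a (Subgroup.subset_closure (by simp))
    have hs := hmem s (Subgroup.subset_closure (by simp))
    have hcut : cut s A = 0 := by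
      rw [cut, card_eq_zero, bd, filter_eq_empty_iff]
      intro x _
      rw [not_not]
      exact (hs x).symm
    have hne : A.Nonempty := ⟨t', by simp only [hA, mem_filter, mem_univ, true_and]; exact ⟨1, one_smul _ _⟩⟩
    have hu : A = univ := by
      by_contra hcon
      have := h.ns A hcl hne hcon
      omega
    have : t ∈ A := by rw [hu]; exact mem_univ _
    simpa [hA] using this
  constructor
  · constructor
    intro x y
    induction x using Quotient.inductionOn with
    | h x =>
      induction y using Quotient.inductionOn with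
      | h y => exact Quotient.sound (htr x y)
  · exact ⟨Quotient.mk _ t₀⟩

end

end PGr
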