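import Pool.Agent.PGr.TriProps
import Pool.Agent.PGr.Euler
import Pool.Agent.PGr.Digon

/-! # Module ParProps: the parallel composition, dual to the series composition -/

set_option linter.unusedSectionVars false

namespace PGr
open Equiv Finset

/-- the dual of a good map -/
def GB.dual (N : GB) : GB := ⟨N.1.dual, N.2.dual⟩

/-- parallel composition -/
noncomputable def parMap (N₁ N₂ : GB) : BMap := (serMap N₁.dual N₂.dual).dual

theorem parMap_good (N₁ N₂ : GB) : (parMap N₁ N₂).IsGood :=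
  (serMap_good N₁.dual N₂.dual).dual

theorem parMap_card (N₁ N₂ : GB) :
    Fintype.card (parMap N₁ N₂).D = Fintype.card N₁.1.D + Fintype.card N₂.1.D :=
  serMap_card N₁.dual N₂.dual

private theorem ParProps_euler {M : BMap} (h : M.IsGood) :
    ∃ k, Fintype.card M.D = 2 * k ∧ nV M.s + nV M.dual.s = k + 3 := by
  obtain ⟨k, -, hk⟩ := card_D_even h
  have h1 := Good.euler h
  have h2 : Fintype.card M.T = Fintype.card M.D + 2 := by
    rw [Fintype.card_sum, Fintype.card_bool]
  have h3 : nV (M.aa * M.s) = nV M.dual.s := rfl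
  rw [h3] at h1
  refine ⟨k, hk, ?_⟩
  omega

theorem parMap_nV (N₁ N₂ : GB) : nV (parMap N₁ N₂).s + 2 = nV N₁.1.s + nV N₂.1.s := by
  obtain ⟨k1, hk1, h1⟩ := ParProps_euler N₁.2
  obtain ⟨k2, hk2, h2⟩ := ParProps_euler N₂.2
  obtain ⟨k3, hk3, h3⟩ := ParProps_euler (serMap_good N₁.dual N₂.dual)
  have h4 := serMap_nV N₁.dual N₂.dual
  have h5 := serMap_card N₁.dual N₂.dual
  have e1 : nV N₁.dual.1.s = nV N₁.1.dual.s := rfl
  have e2 : nV N₂.dual.1.s = nV N₂.1.dual.s := rfl
  have e3 : nV (serMap N₁.dual N₂.dual).dual.s = nV (parMap N₁ N₂).s := rfl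
  have e4 : Fintype.card N₁.dual.1.D = Fintype.card N₁.1.D := rfl
  have e5 : Fintype.card N₂.dual.1.D = Fintype.card N₂.1.D := rfl
  rw [e1, e2] at h4
  rw [e3] at h3
  rw [e4, e5] at h5
  omega

theorem parMap_isPar (N₁ N₂ : GB) : IsPar (parMap N₁ N₂) := by
  have h := serMap_isSer N₁.dual N₂.dual
  have e : (parMap N₁ N₂).dual = serMap N₁.dual N₂.dual :=
    dual_dual (serMap_good N₁.dual N₂.dual)
  unfold IsPar
  rw [e]
  exact h

end PGr
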