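import Pool.Agent.PGr.Defs

/-! # Module Reps: every rooted map has a representative with explicit root edge, or a core -/

set_option linter.unusedSectionVars false

namespace PGr
open Equiv Finset

theorem exists_BMap {T : Type} [Fintype T] [DecidableEq T] (a s : Perm T) (r : T)
    (hinv : ∀ t, a (a t) = t) (hfpf : ∀ t, a t ≠ t) :
    ∃ (N : BMap) (e : T ≃ N.T), (∀ t, e (a t) = N.aa (e t)) ∧ (∀ t, e (s t) = N.s (e t)) ∧
      e r = Sum.inr true := by
  let D := {t : T // t ≠ r ∧ t ≠ a r}
  have har : a r ≠ r := hfpf r
  let e : T ≃ D ⊕ Bool :=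
    { toFun := fun t => if h1 : t = r then Sum.inr true else
        if h2 : t = a r then Sum.inr false else Sum.inl ⟨t, h1, h2⟩
      invFun := fun x => match x with
        | Sum.inl d => d.1
        | Sum.inr true => r
        | Sum.inr false => a r
      left_inv := by
        intro t
        by_cases h1 : t = r
        · simp [h1]
        · by_cases h2 : t = a r
          · simp [h2, har]
          · simp [h1, h2]
      right_inv := by
        rintro (⟨t, h1, h2⟩ | (_ | _))
        · simp [h1, h2]
        · simp [har]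
        · simp }
  have he1 : e r = Sum.inr true := by simp [e]
  have he2 : e (a r) = Sum.inr false := by simp [e, har]
  have he3 : ∀ t (h1 : t ≠ r) (h2 : t ≠ a r), e t = Sum.inl ⟨t, h1, h2⟩ := by
    intro t h1 h2; simp [e, h1, h2]
  have haD : ∀ t, (t ≠ r ∧ t ≠ a r) ↔ (a t ≠ r ∧ a t ≠ a r) := by
    intro t
    constructor
    · rintro ⟨h1, h2⟩
      refine ⟨fun h => h2 ?_, fun h => h1 (a.injective h)⟩
      rw [← h, hinv]
    · rintro ⟨h1, h2⟩
      refine ⟨fun h => h2 (by rw [h]), fun h => h1 ?_⟩
      rw [h, hinv]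
  let aD : Perm D := a.subtypePerm (fun t => (haD t).symm)
  refine ⟨{ D := D, a := aD, s := e.permCongr s }, e, ?_, ?_, he1⟩
  · intro t
    by_cases h1 : t = r
    · rw [h1, he1, he2]; rfl
    · by_cases h2 : t = a r
      · rw [h2, hinv, he1, he2]; rfl
      · have h3 := (haD t).mp ⟨h1, h2⟩
        rw [he3 t h1 h2, he3 (a t) h3.1 h3.2]
        rfl
  · intro t
    change e (s t) = e (s (e.symm (e t)))
    rw [Equiv.symm_apply_apply]

theorem exists_core (N : BMap) (hinv : ∀ d, N.a (N.a d) = d) (hfpf : ∀ d, N.a d ≠ d) :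
    ∃ C : Core, BIso C.toB N := by
  classical
  let r : Setoid N.D :=
    { r := fun d d' => d' = d ∨ d' = N.a d
      iseqv :=
        { refl := fun d => Or.inl rfl
          symm := by
            rintro d d' (h | h)
            · exact Or.inl h.symm
            · exact Or.inr (by rw [h, hinv])
          trans := by
            rintro d d' d'' (h | h) (h' | h')
            · exact Or.inl (h'.trans h)
            · exact Or.inr (by rw [h', h])
            · exact Or.inr (by rw [h', h])
            · exact Or.inl (by rw [h', h, hinv]) } }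
  let I := Quotient r
  have hout : ∀ d : N.D, d = Quotient.out (⟦d⟧ : I) ∨ d = N.a (Quotient.out (⟦d⟧ : I)) := by
    intro d
    exact Quotient.exact (Quotient.out_eq (⟦d⟧ : I))
  have ha : ∀ d : N.D, (⟦N.a d⟧ : I) = ⟦d⟧ := fun d => (Quotient.sound (Or.inr rfl)).symm
  let f : I × Bool → N.D := fun x => if x.2 then Quotient.out x.1 else N.a (Quotient.out x.1)
  have hf : ∀ x, (⟦f x⟧ : I) = x.1 := by
    rintro ⟨i, b⟩
    cases b
    · simp only [f]
      exact (ha _).trans (Quotient.out_eq i)
    · simp only [f]
      exact Quotient.out_eq i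
  have hbij : Function.Bijective f := by
    constructor
    · rintro ⟨i, b⟩ ⟨j, c⟩ h
      have hij : i = j := by
        have h1 := hf (i, b)
        have h2 := hf (j, c)
        rw [h] at h1
        exact h1.symm.trans h2
      subst hij
      cases b <;> cases c
      · rfl
      · exfalso
        exact hfpf _ h
      · exfalso
        exact hfpf _ h.symm
      · rfl
    · intro d
      rcases hout d with h | h
      · exact ⟨(⟦d⟧, true), h.symm⟩
      · exact ⟨(⟦d⟧, false), h.symm⟩
  let e0 : I × Bool ≃ N.D := Equiv.ofBijective f hbij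
  let e : (I × Bool) ⊕ Bool ≃ N.D ⊕ Bool := Equiv.sumCongr e0 (Equiv.refl Bool)
  refine ⟨{ I := I, s := e.symm.permCongr N.s }, e, ?_, ?_, rfl⟩
  · rintro (⟨i, b⟩ | b)
    · change Sum.inl (f (i, !b)) = Sum.inl (N.a (f (i, b)))
      cases b
      · exact congrArg Sum.inl (hinv _).symm
      · rfl
    · rfl
  · intro t
    change e (e.symm (N.s (e.symm.symm t))) = N.s (e t)
    rw [Equiv.apply_symm_apply]
    rfl

end PGr
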