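import Pool.Agent.PGr.TriProps
import Pool.Agent.PGr.SerExcl
import Pool.Agent.PGr.CutIso

/-! # Module SerInj: injectivity of the series composition -/

set_option linter.unusedSectionVars false

namespace PGr
open Equiv Finset

namespace SerInj

/-- the part of a core dart; root darts are their own parts -/
def cpart {C : Core} : (C.I × Bool) ⊕ Bool → C.I ⊕ Bool := Sum.map Prod.fst id

/-- the part of a dart of the composite -/
def mpart {C : Core} {N : C.I → GB} : (comp C N).T → C.I ⊕ Bool := Sum.map Sigma.fst id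

theorem mpart_jump (C : Core) (N : C.I → GB) (x : (C.I × Bool) ⊕ Bool) :
    mpart (C := C) (N := N) (jump C N x) = cpart x := by
  rcases x with ⟨j, b⟩ | b <;> rfl

/-- the dart `d` of the net `i` -/
def emb (C : Core) (N : C.I → GB) (i : C.I) (d : (N i).1.D) : (comp C N).T :=
  Sum.inl (⟨i, d⟩ : Σ i, (N i).1.D)

theorem emb_inj {C : Core} {N : C.I → GB} {i : C.I} {d d' : (N i).1.D}
    (h : emb C N i d = emb C N i d') : d = d' := by
  have h1 : (⟨i, d⟩ : Σ i, (N i).1.D) = ⟨i, d'⟩ := Sum.inl.inj h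
  exact eq_of_heq (Sigma.mk.inj h1).2

theorem mpart_emb {C : Core} {N : C.I → GB} (i : C.I) (d : (N i).1.D) :
    mpart (emb C N i d) = Sum.inl i := rfl

theorem emb_in {C : Core} {N : C.I → GB} {i : C.I} {d d' : (N i).1.D}
    (h : (N i).1.s (Sum.inl d) = Sum.inl d') : (comp C N).s (emb C N i d) = emb C N i d' :=
  comp_s_in C N h

theorem emb_out {C : Core} {N : C.I → GB} {i : C.I} {d : (N i).1.D} {b : Bool}
    (h : (N i).1.s (Sum.inl d) = Sum.inr b) :
    (comp C N).s (emb C N i d) = (jump C N (C.s (Sum.inl (i, b))) : (comp C N).T) :=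
  comp_s_out C N h

theorem mpart_inl {C : Core} {N : C.I → GB} {x : (comp C N).T} {i : C.I}
    (h : mpart x = Sum.inl i) : ∃ d : (N i).1.D, x = emb C N i d := by
  rcases x with ⟨j, d⟩ | b
  · have h1 : j = i := Sum.inl.inj h
    subst h1
    exact ⟨d, rfl⟩
  · exact absurd h (by intro h1; cases h1)

/-- no dart before a root dart is a root dart -/
theorem exists_lst (N : GB) (b : Bool) : ∃ d, N.1.s (Sum.inl d) = Sum.inr b := by
  obtain ⟨x, hx⟩ := N.1.s.surjective (Sum.inr b)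
  rcases x with d | b'
  · exact ⟨d, hx⟩
  · rw [fstD_spec] at hx
    exact absurd hx (by simp)

section nets
variable (C : Core) (N N' : C.I → GB) (e : (comp C N).T ≃ (comp C N').T)
  (ha : ∀ t, e ((comp C N).aa t) = (comp C N').aa (e t))
  (hs : ∀ t, e ((comp C N).s t) = (comp C N').s (e t))
  (hr : ∀ b, e (Sum.inr b) = Sum.inr b)
  (hpart : ∀ x, mpart (e x) = mpart x)
  (hne : ∀ i b, cpart (C.s (Sum.inl (i, b))) ≠ Sum.inl i)
  (hsep : ∀ i b b', cpart (C.s (Sum.inl (i, b))) = cpart (C.s (Sum.inl (i, b'))) → b = b')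

include hpart in
theorem exists_phi (i : C.I) (d : (N i).1.D) :
    ∃ d' : (N' i).1.D, e (emb C N i d) = emb C N' i d' :=
  mpart_inl (by rw [hpart]; rfl)

include hs hpart hne in
theorem last_in (i : C.I) (d d1 : (N i).1.D) (d' d1' : (N' i).1.D)
    (hd : e (emb C N i d) = emb C N' i d') (hd1 : e (emb C N i d1) = emb C N' i d1')
    (h : (N i).1.s (Sum.inl d) = Sum.inl d1) : (N' i).1.s (Sum.inl d') = Sum.inl d1' := by
  have h1 := hs (emb C N i d)
  rw [emb_in h, hd, hd1] at h1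
  rcases h2 : (N' i).1.s (Sum.inl d') with d2 | b
  · rw [emb_in h2] at h1
    rw [emb_inj h1]
  · exfalso
    rw [emb_out h2] at h1
    have h3 := congrArg mpart h1
    rw [mpart_jump] at h3
    exact hne i b h3.symm

include hs hpart hne hsep in
theorem last_out (i : C.I) (d : (N i).1.D) (d' : (N' i).1.D) (b : Bool)
    (hd : e (emb C N i d) = emb C N' i d')
    (h : (N i).1.s (Sum.inl d) = Sum.inr b) : (N' i).1.s (Sum.inl d') = Sum.inr b := by
  have h1 := hs (emb C N i d)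
  rw [emb_out h, hd] at h1
  have h4 := hpart (jump C N (C.s (Sum.inl (i, b))) : (comp C N).T)
  rw [h1, mpart_jump] at h4
  rcases h2 : (N' i).1.s (Sum.inl d') with d2 | b'
  · exfalso
    rw [emb_in h2] at h4
    exact hne i b h4.symm
  · rw [emb_out h2, mpart_jump] at h4
    rw [hsep i b' b h4]

include hs hr hpart hne hsep in
theorem first (i : C.I) (b : Bool) :
    e (emb C N i (fstD (N i) b)) = emb C N' i (fstD (N' i) b) := by
  rcases hy : C.s.symm (Sum.inl (i, b)) with ⟨j, b2⟩ | b2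
  · have hy' : C.s (Sum.inl (j, b2)) = Sum.inl (i, b) := by rw [← hy, Equiv.apply_symm_apply]
    obtain ⟨d, hd⟩ := exists_lst (N j) b2
    obtain ⟨d', hd'⟩ := exists_phi C N N' e hpart j d
    have h1 := last_out C N N' e hs hpart hne hsep j d d' b2 hd' hd
    have h2 := hs (emb C N j d)
    rw [emb_out hd, hd', emb_out h1, hy'] at h2
    exact h2
  · have hy' : C.s (Sum.inr b2) = Sum.inl (i, b) := by rw [← hy, Equiv.apply_symm_apply]
    have h2 := hs (Sum.inr b2)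
    rw [comp_s_root C N, hr, comp_s_root C N', hy'] at h2
    exact h2

include ha hs hr hpart hne hsep in
theorem nets (i : C.I) : BIso (N i).1 (N' i).1 := by
  choose φ hφ using exists_phi C N N' e hpart i
  have hinj : Function.Injective φ := by
    intro d d' h
    have h1 : e (emb C N i d) = e (emb C N i d') := by rw [hφ, hφ, h]
    exact emb_inj (e.injective h1)
  have hsurj : Function.Surjective φ := by
    intro d'
    obtain ⟨x, hx⟩ := e.surjective (emb C N' i d')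
    have h1 : mpart x = Sum.inl i := by rw [← hpart, hx]; rfl
    obtain ⟨d, rfl⟩ := mpart_inl h1
    refine ⟨d, ?_⟩
    rw [hφ] at hx
    exact emb_inj hx
  let E : (N i).1.D ≃ (N' i).1.D := Equiv.ofBijective φ ⟨hinj, hsurj⟩
  refine ⟨Equiv.sumCongr E (Equiv.refl Bool), ?_, ?_, rfl⟩
  · rintro (d | b)
    · change Sum.inl (φ ((N i).1.a d)) = Sum.inl ((N' i).1.a (φ d))
      have h1 := ha (emb C N i d)
      rw [hφ] at h1
      have h2 : (comp C N).aa (emb C N i d) = emb C N i ((N i).1.a d) := rfl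
      have h3 : (comp C N').aa (emb C N' i (φ d)) = emb C N' i ((N' i).1.a (φ d)) := rfl
      rw [h2, hφ, h3] at h1
      rw [emb_inj h1]
    · rfl
  · rintro (d | b)
    · change Equiv.sumCongr E (Equiv.refl Bool) ((N i).1.s (Sum.inl d)) =
        (N' i).1.s (Sum.inl (φ d))
      rcases h1 : (N i).1.s (Sum.inl d) with d1 | b
      · rw [last_in C N N' e hs hpart hne i d d1 (φ d) (φ d1) (hφ d) (hφ d1) h1]
        rfl
      · rw [last_out C N N' e hs hpart hne hsep i d (φ d) b (hφ d) h1]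
        rfl
    · change Equiv.sumCongr E (Equiv.refl Bool) ((N i).1.s (Sum.inr b)) =
        (N' i).1.s (Sum.inr b)
      rw [fstD_spec, fstD_spec]
      have h1 := first C N N' e hs hr hpart hne hsep i b
      rw [hφ] at h1
      change Sum.inl (φ (fstD (N i) b)) = _
      rw [emb_inj h1]

end nets

/-- a set of darts of the net `i` as a set of darts of the composite -/
def up {C : Core} {N : C.I → GB} (i : C.I) (Z : Finset (N i).1.D) : Finset (comp C N).T :=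
  Z.map ⟨emb C N i, fun _ _ h => emb_inj h⟩

theorem mem_up {C : Core} {N : C.I → GB} {i : C.I} {Z : Finset (N i).1.D} {x : (comp C N).T} :
    x ∈ up i Z ↔ ∃ d ∈ Z, emb C N i d = x := by
  rw [up, Finset.mem_map]
  rfl

theorem mem_dn {N : GB} {Z : Finset N.1.D} {x : N.1.T} :
    x ∈ (Z.map ⟨Sum.inl, Sum.inl_injective⟩ : Finset N.1.T) ↔ ∃ d ∈ Z, Sum.inl d = x := by
  simp

theorem cut_up {C : Core} {N : C.I → GB} (hne : ∀ i b, cpart (C.s (Sum.inl (i, b))) ≠ Sum.inl i)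
    (i : C.I) (Z : Finset (N i).1.D) :
    cut (comp C N).s (up i Z) = cut (N i).1.s (Z.map ⟨Sum.inl, Sum.inl_injective⟩) := by
  rw [cut_eq_two_mul, cut_eq_two_mul]
  congr 1
  have key : ∀ d, ((comp C N).s (emb C N i d) ∈ up i Z ↔
      (N i).1.s (Sum.inl d) ∈ (Z.map ⟨Sum.inl, Sum.inl_injective⟩ : Finset (N i).1.T)) := by
    intro d
    rw [mem_up, mem_dn]
    rcases h2 : (N i).1.s (Sum.inl d) with d2 | b
    · rw [emb_in h2]
      constructor
      · rintro ⟨d', hd', he⟩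
        exact ⟨d', hd', by rw [emb_inj he]⟩
      · rintro ⟨d', hd', he⟩
        exact ⟨d', hd', by rw [Sum.inl.inj he]⟩
    · rw [emb_out h2]
      constructor
      · rintro ⟨d', hd', he⟩
        have h3 := congrArg mpart he
        rw [mpart_jump] at h3
        exact absurd h3.symm (hne i b)
      · rintro ⟨d', hd', he⟩
        exact absurd he (by simp)
  have h1 : (univ.filter fun t => t ∈ up i Z ∧ (comp C N).s t ∉ up i Z) =
      (Z.filter fun d => (comp C N).s (emb C N i d) ∉ up i Z).map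
        ⟨emb C N i, fun _ _ h => emb_inj h⟩ := by
    ext x
    simp only [mem_filter, mem_univ, true_and, mem_map]
    constructor
    · rintro ⟨hx, hx2⟩
      obtain ⟨d, hd, rfl⟩ := mem_up.1 hx
      exact ⟨d, ⟨hd, hx2⟩, rfl⟩
    · rintro ⟨d, ⟨hd, hx2⟩, rfl⟩
      exact ⟨mem_up.2 ⟨d, hd, rfl⟩, hx2⟩
  have h2 : (univ.filter fun t => t ∈ (Z.map ⟨Sum.inl, Sum.inl_injective⟩ : Finset (N i).1.T) ∧
      (N i).1.s t ∉ (Z.map ⟨Sum.inl, Sum.inl_injective⟩ : Finset (N i).1.T)) =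
      (Z.filter fun d => (comp C N).s (emb C N i d) ∉ up i Z).map
        ⟨Sum.inl, Sum.inl_injective⟩ := by
    ext x
    simp only [mem_filter, mem_univ, true_and, mem_map, Function.Embedding.coeFn_mk]
    constructor
    · rintro ⟨⟨d, hd, rfl⟩, hx2⟩
      exact ⟨d, ⟨hd, fun hc => hx2 (by simpa using (key d).1 hc)⟩, rfl⟩
    · rintro ⟨d, ⟨hd, hx2⟩, rfl⟩
      exact ⟨⟨d, hd, rfl⟩, fun hc => hx2 ((key d).2 (by simpa using hc))⟩
  rw [h1, h2, card_map, card_map]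

theorem tri_hne : ∀ (i : tri.I) (b : Bool), cpart (C := tri) (tri.s (Sum.inl (i, b))) ≠ Sum.inl i := by
  change ∀ (i : Bool) (b : Bool), _
  decide

theorem tri_hsep : ∀ (i : tri.I) (b b' : Bool), cpart (C := tri) (tri.s (Sum.inl (i, b))) =
    cpart (C := tri) (tri.s (Sum.inl (i, b'))) → b = b' := by
  change ∀ (i : Bool) (b b' : Bool), _
  decide

theorem tri_rt : tri.s (Sum.inr true) = Sum.inl ((true, true) : Bool × Bool) := by rfl
theorem tri_tt : tri.s (Sum.inl ((true, true) : Bool × Bool)) = Sum.inr true := by rfl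

theorem root_compl (M : BMap) (hM : Good M.aa M.s) :
    cut M.s (univ.map ⟨Sum.inl, Sum.inl_injective⟩ : Finset M.T) = 4 := by
  have h1 : (univ.map ⟨Sum.inl, Sum.inl_injective⟩ : Finset M.T) =
      ({Sum.inr true, M.aa (Sum.inr true)} : Finset M.T)ᶜ := by
    ext x
    rcases x with d | b
    · simp [BMap.aa]
    · cases b <;> simp [BMap.aa]
  rw [h1, cut_compl]
  exact hM.cut_pair _

theorem cut_union_root (M : BMap) (Z : Finset M.D) :
    cut M.s (Z.map ⟨Sum.inl, Sum.inl_injective⟩ ∪ M.root) =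
      cut M.s (Zᶜ.map ⟨Sum.inl, Sum.inl_injective⟩ : Finset M.T) := by
  rw [← cut_compl]
  congr 1
  ext x
  rcases x with d | b
  · simp [BMap.root]
  · cases b <;> simp [BMap.root]

theorem mem_root {M : BMap} {x : M.T} : x ∈ M.root ↔ ∃ b, x = Sum.inr b := by
  rcases x with d | b
  · simp [BMap.root]
  · cases b <;> simp [BMap.root]

section ser
variable {N₁ N₂ : GB}

/-- a dart of the first net -/
def em1 (N₁ N₂ : GB) (d : N₁.1.D) : (serMap N₁ N₂).T := emb tri (serNets N₁ N₂) true d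

/-- a dart of the second net -/
def em2 (N₁ N₂ : GB) (d : N₂.1.D) : (serMap N₁ N₂).T := emb tri (serNets N₁ N₂) false d

theorem em1_inj {d d' : N₁.1.D} (h : em1 N₁ N₂ d = em1 N₁ N₂ d') : d = d' :=
  emb_inj (C := tri) (N := serNets N₁ N₂) (i := true) h

theorem em_cases (x : (serMap N₁ N₂).T) :
    (∃ d, x = em1 N₁ N₂ d) ∨ (∃ d, x = em2 N₁ N₂ d) ∨ ∃ b, x = Sum.inr b := by
  rcases x with ⟨j, d⟩ | b
  · rcases j with _ | _
    · exact Or.inr (Or.inl ⟨d, rfl⟩)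
    · exact Or.inl ⟨d, rfl⟩
  · exact Or.inr (Or.inr ⟨b, rfl⟩)

/-- the part of a dart -/
def mp (x : (serMap N₁ N₂).T) : Bool ⊕ Bool := mpart (C := tri) (N := serNets N₁ N₂) x

theorem mp_em1 (d : N₁.1.D) : mp (em1 N₁ N₂ d) = Sum.inl true := rfl
theorem mp_em2 (d : N₂.1.D) : mp (em2 N₁ N₂ d) = Sum.inl false := rfl
theorem mp_inr (b : Bool) : mp (Sum.inr b : (serMap N₁ N₂).T) = Sum.inr b := rfl

theorem aa_em1 (d : N₁.1.D) : (serMap N₁ N₂).aa (em1 N₁ N₂ d) = em1 N₁ N₂ (N₁.1.a d) := rfl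
theorem aa_em2 (d : N₂.1.D) : (serMap N₁ N₂).aa (em2 N₁ N₂ d) = em2 N₁ N₂ (N₂.1.a d) := rfl
theorem aa_inr (b : Bool) : (serMap N₁ N₂).aa (Sum.inr b) = Sum.inr (!b) := rfl

/-- a set of darts of the first net -/
def up1 (N₁ N₂ : GB) (Z : Finset N₁.1.D) : Finset (serMap N₁ N₂).T :=
  up (C := tri) (N := serNets N₁ N₂) true Z

/-- a set of darts of the second net -/
def up2 (N₁ N₂ : GB) (Z : Finset N₂.1.D) : Finset (serMap N₁ N₂).T :=
  up (C := tri) (N := serNets N₁ N₂) false Z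

theorem mem_up1 {Z : Finset N₁.1.D} {x : (serMap N₁ N₂).T} :
    x ∈ up1 N₁ N₂ Z ↔ ∃ d ∈ Z, em1 N₁ N₂ d = x :=
  mem_up (C := tri) (N := serNets N₁ N₂) (i := true)

theorem mem_up2 {Z : Finset N₂.1.D} {x : (serMap N₁ N₂).T} :
    x ∈ up2 N₁ N₂ Z ↔ ∃ d ∈ Z, em2 N₁ N₂ d = x :=
  mem_up (C := tri) (N := serNets N₁ N₂) (i := false)

theorem cut_up1 (Z : Finset N₁.1.D) : cut (serMap N₁ N₂).s (up1 N₁ N₂ Z) =
    cut N₁.1.s (Z.map ⟨Sum.inl, Sum.inl_injective⟩) :=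
  cut_up (N := serNets N₁ N₂) tri_hne true Z

theorem cut_up2 (Z : Finset N₂.1.D) : cut (serMap N₁ N₂).s (up2 N₁ N₂ Z) =
    cut N₂.1.s (Z.map ⟨Sum.inl, Sum.inl_injective⟩) :=
  cut_up (N := serNets N₁ N₂) tri_hne false Z

/-- the first part -/
def P1 (N₁ N₂ : GB) : Finset (serMap N₁ N₂).T := up1 N₁ N₂ univ

/-- the second part -/
def P2 (N₁ N₂ : GB) : Finset (serMap N₁ N₂).T := up2 N₁ N₂ univ

theorem em1_mem (d : N₁.1.D) : em1 N₁ N₂ d ∈ P1 N₁ N₂ := mem_up1.2 ⟨d, mem_univ _, rfl⟩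
theorem em2_mem (d : N₂.1.D) : em2 N₁ N₂ d ∈ P2 N₁ N₂ := mem_up2.2 ⟨d, mem_univ _, rfl⟩

theorem mp_P1 {x : (serMap N₁ N₂).T} (h : x ∈ P1 N₁ N₂) : mp x = Sum.inl true := by
  obtain ⟨d, -, rfl⟩ := mem_up1.1 h
  rfl

theorem mp_P2 {x : (serMap N₁ N₂).T} (h : x ∈ P2 N₁ N₂) : mp x = Sum.inl false := by
  obtain ⟨d, -, rfl⟩ := mem_up2.1 h
  rfl

theorem em2_P1 (d : N₂.1.D) : em2 N₁ N₂ d ∉ P1 N₁ N₂ := fun h => by
  have h1 := mp_P1 h
  rw [mp_em2] at h1
  simp at h1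

theorem em1_P2 (d : N₁.1.D) : em1 N₁ N₂ d ∉ P2 N₁ N₂ := fun h => by
  have h1 := mp_P2 h
  rw [mp_em1] at h1
  simp at h1

theorem inr_P1 (b : Bool) : (Sum.inr b : (serMap N₁ N₂).T) ∉ P1 N₁ N₂ := fun h => by
  have h1 := mp_P1 h
  rw [mp_inr] at h1
  simp at h1

theorem inr_P2 (b : Bool) : (Sum.inr b : (serMap N₁ N₂).T) ∉ P2 N₁ N₂ := fun h => by
  have h1 := mp_P2 h
  rw [mp_inr] at h1
  simp at h1

theorem em1_root (d : N₁.1.D) : em1 N₁ N₂ d ∉ (serMap N₁ N₂).root := fun h => by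
  obtain ⟨b, hb⟩ := mem_root.1 h
  cases hb

theorem em2_root (d : N₂.1.D) : em2 N₁ N₂ d ∉ (serMap N₁ N₂).root := fun h => by
  obtain ⟨b, hb⟩ := mem_root.1 h
  cases hb

theorem P1_cut : cut (serMap N₁ N₂).s (P1 N₁ N₂) = 4 := (cut_up1 univ).trans (root_compl _ N₁.2)
theorem P2_cut : cut (serMap N₁ N₂).s (P2 N₁ N₂) = 4 := (cut_up2 univ).trans (root_compl _ N₂.2)

theorem P1_cl : Cl (serMap N₁ N₂).aa (P1 N₁ N₂) := by
  intro t
  rcases em_cases t with ⟨d, rfl⟩ | ⟨d, rfl⟩ | ⟨b, rfl⟩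
  · rw [aa_em1]; exact ⟨fun _ => em1_mem _, fun _ => em1_mem _⟩
  · rw [aa_em2]; exact ⟨fun h => absurd h (em2_P1 _), fun h => absurd h (em2_P1 _)⟩
  · rw [aa_inr]; exact ⟨fun h => absurd h (inr_P1 _), fun h => absurd h (inr_P1 _)⟩

theorem s_root : (serMap N₁ N₂).s (Sum.inr true) = em1 N₁ N₂ (fstD N₁ true) := by
  have h := comp_s_root tri (serNets N₁ N₂) true
  exact h

theorem s_last {d : N₁.1.D} (h : N₁.1.s (Sum.inl d) = Sum.inr true) :
    (serMap N₁ N₂).s (em1 N₁ N₂ d) = Sum.inr true := by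
  have h1 := emb_out (C := tri) (N := serNets N₁ N₂) (i := true) (d := d) (b := true) h
  exact h1

theorem P_compl : (P1 N₁ N₂ ∪ (serMap N₁ N₂).root)ᶜ = P2 N₁ N₂ := by
  ext x
  rw [mem_compl, mem_union]
  rcases em_cases x with ⟨d, rfl⟩ | ⟨d, rfl⟩ | ⟨b, rfl⟩
  · exact ⟨fun h => absurd (Or.inl (em1_mem d)) h, fun h => absurd h (em1_P2 d)⟩
  · exact ⟨fun _ => em2_mem d, fun _ h => h.elim (em2_P1 d) (em2_root d)⟩
  · exact ⟨fun h => absurd (Or.inr (mem_root.2 ⟨b, rfl⟩)) h, fun h => absurd h (inr_P2 b)⟩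

theorem inv_root {d : N₁.1.D} (h : N₁.1.s (Sum.inl d) = Sum.inr true) :
    (serMap N₁ N₂).s⁻¹ (Sum.inr true) = em1 N₁ N₂ d := by
  have h1 := s_last (N₂ := N₂) h
  have h2 : (serMap N₁ N₂).s⁻¹ ((serMap N₁ N₂).s (em1 N₁ N₂ d)) = em1 N₁ N₂ d :=
    (serMap N₁ N₂).s.symm_apply_apply _
  rw [h1] at h2
  exact h2

theorem P_pref : Pref (serMap N₁ N₂) (P1 N₁ N₂) ∧
    (serMap N₁ N₂).s⁻¹ (Sum.inr true) ∈ P1 N₁ N₂ := by
  refine ⟨⟨P1_cl, inr_P1 _, ?_, ?_, P1_cut, ?_⟩, ?_⟩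
  · rw [s_root]
    exact em1_mem _
  · intro h
    have h1 : em2 N₁ N₂ (fstD N₂ true) ∈ P1 N₁ N₂ ∪ (serMap N₁ N₂).root := by
      rw [h]; exact mem_univ _
    rcases mem_union.1 h1 with h2 | h2
    · exact em2_P1 _ h2
    · exact em2_root _ h2
  · rw [← cut_compl, P_compl]
    exact P2_cut
  · obtain ⟨d, hd⟩ := exists_lst N₁ true
    rw [inv_root hd]
    exact em1_mem _

theorem P_sub (h : ¬ IsSer N₁.1) {A : Finset (serMap N₁ N₂).T} (hA : Pref (serMap N₁ N₂) A)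
    (hs : (serMap N₁ N₂).s⁻¹ (Sum.inr true) ∈ A) : P1 N₁ N₂ ⊆ A := by
  by_contra hsub
  obtain ⟨x0, hx0, hx0A⟩ := not_subset.1 hsub
  have hns := (serMap_good N₁ N₂).ns
  let Z : Finset N₁.1.D := univ.filter fun d => em1 N₁ N₂ d ∈ A
  have memZ : ∀ d, d ∈ Z ↔ em1 N₁ N₂ d ∈ A := fun d => by simp [Z]
  have hZ : A ∩ P1 N₁ N₂ = up1 N₁ N₂ Z := by
    ext x
    rw [mem_inter]
    constructor
    · rintro ⟨h1, h2⟩
      obtain ⟨d, -, rfl⟩ := mem_up1.1 h2
      exact mem_up1.2 ⟨d, (memZ d).2 h1, rfl⟩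
    · intro h1
      obtain ⟨d, hd, rfl⟩ := mem_up1.1 h1
      exact ⟨(memZ d).1 hd, em1_mem d⟩
  have hZc : P1 N₁ N₂ \ A = up1 N₁ N₂ Zᶜ := by
    ext x
    rw [mem_sdiff]
    constructor
    · rintro ⟨h1, h2⟩
      obtain ⟨d, -, rfl⟩ := mem_up1.1 h1
      exact mem_up1.2 ⟨d, mem_compl.2 fun h3 => h2 ((memZ d).1 h3), rfl⟩
    · intro h1
      obtain ⟨d, hd, rfl⟩ := mem_up1.1 h1
      exact ⟨em1_mem d, fun h2 => (mem_compl.1 hd) ((memZ d).2 h2)⟩
  have c1 : cut (serMap N₁ N₂).s (A ∩ P1 N₁ N₂) = 4 := by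
    refine (hns.uncross hA.cl P1_cl hA.cut4 P1_cut ?_ ?_).1
    · exact ⟨(serMap N₁ N₂).s (Sum.inr true), mem_inter.2 ⟨hA.fst, P_pref.1.fst⟩⟩
    · intro hu
      have h1 : (Sum.inr true : (serMap N₁ N₂).T) ∈ A ∪ P1 N₁ N₂ := by
        rw [hu]; exact mem_univ _
      rcases mem_union.1 h1 with h2 | h2
      · exact hA.root h2
      · exact inr_P1 _ h2
  have c2 : cut (serMap N₁ N₂).s (P1 N₁ N₂ \ A) = 4 := by
    by_cases hne : (A \ P1 N₁ N₂).Nonempty
    · exact (hns.uncross_sdiff hA.cl P1_cl hA.cut4 P1_cut hne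
        ⟨x0, mem_sdiff.2 ⟨hx0, hx0A⟩⟩).2
    · have hrcl : Cl (serMap N₁ N₂).aa (serMap N₁ N₂).root := by
        intro t
        rcases em_cases t with ⟨d, rfl⟩ | ⟨d, rfl⟩ | ⟨b, rfl⟩
        · rw [aa_em1]
          exact ⟨fun h => absurd h (em1_root _), fun h => absurd h (em1_root _)⟩
        · rw [aa_em2]
          exact ⟨fun h => absurd h (em2_root _), fun h => absurd h (em2_root _)⟩
        · rw [aa_inr]
          exact ⟨fun _ => mem_root.2 ⟨_, rfl⟩, fun _ => mem_root.2 ⟨_, rfl⟩⟩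
      have hB : Cl (serMap N₁ N₂).aa (A ∪ (serMap N₁ N₂).root)ᶜ := (hA.cl.union hrcl).compl
      have hB4 : cut (serMap N₁ N₂).s (A ∪ (serMap N₁ N₂).root)ᶜ = 4 := by
        rw [cut_compl]; exact hA.cut4'
      have heq : P1 N₁ N₂ \ A = P1 N₁ N₂ ∩ (A ∪ (serMap N₁ N₂).root)ᶜ := by
        ext x
        rw [mem_sdiff, mem_inter, mem_compl, mem_union]
        constructor
        · rintro ⟨h1, h2⟩
          refine ⟨h1, ?_⟩
          rintro (h3 | h3)
          · exact h2 h3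
          · obtain ⟨b, rfl⟩ := mem_root.1 h3
            exact inr_P1 _ h1
        · rintro ⟨h1, h2⟩
          exact ⟨h1, fun h3 => h2 (Or.inl h3)⟩
      rw [heq]
      refine (hns.uncross P1_cl hB P1_cut hB4 ?_ ?_).1
      · rw [← heq]
        exact ⟨x0, mem_sdiff.2 ⟨hx0, hx0A⟩⟩
      · intro hu
        have h1 : (Sum.inr true : (serMap N₁ N₂).T) ∈
            P1 N₁ N₂ ∪ (A ∪ (serMap N₁ N₂).root)ᶜ := by rw [hu]; exact mem_univ _
        rcases mem_union.1 h1 with h2 | h2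
        · exact inr_P1 _ h2
        · exact (mem_compl.1 h2) (mem_union.2 (Or.inr (mem_root.2 ⟨true, rfl⟩)))
  apply h
  refine ⟨Z.map ⟨Sum.inl, Sum.inl_injective⟩, ⟨?_, ?_, ?_, ?_, ?_, ?_⟩, ?_⟩
  · rintro (d | b)
    · have h1 := hA.cl (em1 N₁ N₂ d)
      rw [aa_em1, ← memZ, ← memZ] at h1
      constructor
      · intro h2
        obtain ⟨d', hd', he⟩ := mem_dn.1 h2
        have he' : d' = N₁.1.a d := Sum.inl.inj he
        rw [he'] at hd'
        exact mem_dn.2 ⟨d, h1.1 hd', rfl⟩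
      · intro h2
        obtain ⟨d', hd', he⟩ := mem_dn.1 h2
        have he' : d' = d := Sum.inl.inj he
        rw [he'] at hd'
        exact mem_dn.2 ⟨N₁.1.a d, h1.2 hd', rfl⟩
    · constructor
      · intro h2
        obtain ⟨d', hd', he⟩ := mem_dn.1 h2
        cases he
      · intro h2
        obtain ⟨d', hd', he⟩ := mem_dn.1 h2
        cases he
  · intro h2
    obtain ⟨d', hd', he⟩ := mem_dn.1 h2
    cases he
  · rw [fstD_spec]
    refine mem_dn.2 ⟨_, (memZ _).2 ?_, rfl⟩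
    have h1 := hA.fst
    rw [s_root] at h1
    exact h1
  · intro hu
    obtain ⟨d, -, rfl⟩ := mem_up1.1 hx0
    have h1 : (Sum.inl d : N₁.1.T) ∈ Z.map ⟨Sum.inl, Sum.inl_injective⟩ ∪ N₁.1.root := by
      rw [hu]; exact mem_univ _
    rcases mem_union.1 h1 with h2 | h2
    · obtain ⟨d', hd', he⟩ := mem_dn.1 h2
      have he' : d' = d := Sum.inl.inj he
      rw [he'] at hd'
      exact hx0A ((memZ d).1 hd')
    · obtain ⟨b, hb⟩ := mem_root.1 h2
      cases hb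
  · rw [hZ, cut_up1] at c1
    exact c1
  · rw [cut_union_root]
    rw [hZc, cut_up1] at c2
    exact c2
  · obtain ⟨d, hd⟩ := exists_lst N₁ true
    have h3 : N₁.1.s⁻¹ (Sum.inr true) = Sum.inl d := by
      rw [Perm.inv_eq_iff_eq, hd]
    rw [h3]
    rw [inv_root hd] at hs
    exact mem_dn.2 ⟨d, (memZ d).2 hs, rfl⟩

end ser

theorem pref_iso {M M' : BMap} (e : M.T ≃ M'.T) (ha : ∀ t, e (M.aa t) = M'.aa (e t))
    (hs : ∀ t, e (M.s t) = M'.s (e t)) (hr : ∀ b, e (Sum.inr b) = Sum.inr b) {A : Finset M.T}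
    (hA : Pref M A) : Pref M' (A.map e.toEmbedding) := by
  have hroot : M.root.map e.toEmbedding = M'.root := by
    ext x
    rw [mem_map, mem_root]
    constructor
    · rintro ⟨y, hy, rfl⟩
      obtain ⟨b, rfl⟩ := mem_root.1 hy
      exact ⟨b, hr b⟩
    · rintro ⟨b, rfl⟩
      exact ⟨Sum.inr b, mem_root.2 ⟨b, rfl⟩, hr b⟩
  have hun : A.map e.toEmbedding ∪ M'.root = (A ∪ M.root).map e.toEmbedding := by
    rw [map_union, hroot]
  refine ⟨Cl_iso e ha hA.cl, ?_, ?_, ?_, ?_, ?_⟩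
  · intro h
    rw [← hr true] at h
    exact hA.root ((mem_map' e.toEmbedding).1 h)
  · have h1 := hs (Sum.inr true)
    rw [hr] at h1
    rw [← h1]
    exact (mem_map' e.toEmbedding).2 hA.fst
  · rw [hun]
    intro hu
    apply hA.rest
    ext x
    have h1 : e x ∈ (A ∪ M.root).map e.toEmbedding := by rw [hu]; exact mem_univ _
    exact ⟨fun _ => mem_univ _, fun _ => (mem_map' e.toEmbedding).1 h1⟩
  · rw [cut_iso e hs]; exact hA.cut4
  · rw [hun, cut_iso e hs]; exact hA.cut4'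

theorem ser_iso {M M' : BMap} (e : M.T ≃ M'.T)
    (hs : ∀ t, e (M.s t) = M'.s (e t)) (hr : ∀ b, e (Sum.inr b) = Sum.inr b) {A : Finset M.T}
    (hA : M.s⁻¹ (Sum.inr true) ∈ A) : M'.s⁻¹ (Sum.inr true) ∈ A.map e.toEmbedding := by
  have h0 : M.s (M.s⁻¹ (Sum.inr true)) = Sum.inr true := M.s.apply_symm_apply _
  have h1 := hs (M.s⁻¹ (Sum.inr true))
  rw [h0, hr] at h1
  have h2 : M'.s⁻¹ (Sum.inr true) = e (M.s⁻¹ (Sum.inr true)) := by
    rw [Perm.inv_eq_iff_eq, h1]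
  rw [h2]
  exact (mem_map' e.toEmbedding).2 hA

end SerInj

open SerInj in
/-- series prefixes of the first net are the smaller series prefixes of `serMap N₁ N₂` -/
theorem serMap_inj {N₁ N₂ N₁' N₂' : GB} (h : ¬ IsSer N₁.1) (h' : ¬ IsSer N₁'.1)
    (he : BIso (serMap N₁ N₂) (serMap N₁' N₂')) : BIso N₁.1 N₁'.1 ∧ BIso N₂.1 N₂'.1 := by
  obtain ⟨e, ha, hs, hrt⟩ := he
  have hr : ∀ b, e (Sum.inr b) = Sum.inr b := by
    intro b
    cases b
    · have h1 := ha (Sum.inr true)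
      rw [hrt] at h1
      exact h1
    · exact hrt
  have ha' : ∀ t, e.symm ((serMap N₁' N₂').aa t) = (serMap N₁ N₂).aa (e.symm t) := fun t => by
    rw [Equiv.symm_apply_eq, ha, Equiv.apply_symm_apply]
  have hs' : ∀ t, e.symm ((serMap N₁' N₂').s t) = (serMap N₁ N₂).s (e.symm t) := fun t => by
    rw [Equiv.symm_apply_eq, hs, Equiv.apply_symm_apply]
  have hr' : ∀ b, e.symm (Sum.inr b) = Sum.inr b := fun b => by
    rw [Equiv.symm_apply_eq, hr]
  have k1 : P1 N₁' N₂' ⊆ (P1 N₁ N₂).map e.toEmbedding :=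
    P_sub h' (pref_iso e ha hs hr P_pref.1) (ser_iso e hs hr P_pref.2)
  have k2 : P1 N₁ N₂ ⊆ (P1 N₁' N₂').map e.symm.toEmbedding :=
    P_sub h (pref_iso e.symm ha' hs' hr' P_pref.1) (ser_iso e.symm hs' hr' P_pref.2)
  have k : ∀ x, e x ∈ P1 N₁' N₂' ↔ x ∈ P1 N₁ N₂ := by
    intro x
    constructor
    · intro hx
      exact (mem_map' e.toEmbedding).1 (k1 hx)
    · intro hx
      obtain ⟨y, hy, hyx⟩ := mem_map.1 (k2 hx)
      have h1 : y = e x := by rw [← hyx]; exact (e.apply_symm_apply y).symm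
      rw [← h1]; exact hy
  have hpart : ∀ x, mp (e x) = mp x := by
    intro x
    rcases em_cases x with ⟨d, rfl⟩ | ⟨d, rfl⟩ | ⟨b, rfl⟩
    · rw [mp_P1 ((k _).2 (em1_mem d)), mp_em1]
    · have h1 : e (em2 N₁ N₂ d) ∉ P1 N₁' N₂' := by
        rw [k]
        exact em2_P1 d
      rcases em_cases (e (em2 N₁ N₂ d)) with ⟨d', hd'⟩ | ⟨d', hd'⟩ | ⟨b, hb⟩
      · rw [hd'] at h1
        exact absurd (em1_mem d') h1
      · rw [hd', mp_em2, mp_em2]
      · rw [← hr b] at hb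
        have h2 := e.injective hb
        exact absurd (mem_root.2 ⟨b, h2⟩) (em2_root d)
    · rw [hr]
      rfl
  have hall := nets tri (serNets N₁ N₂) (serNets N₁' N₂') e ha hs hr hpart tri_hne tri_hsep
  exact ⟨hall true, hall false⟩

end PGr
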