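import Pool.Agent.PGr.SumLib
import Pool.Agent.PGr.SerInj
import Pool.Agent.PGr.CompInj
import Pool.Agent.PGr.CompIso
import Pool.Agent.PGr.Reps
import Pool.Agent.PGr.ParProps
import Pool.Agent.PGr.SerExcl
import Pool.Agent.PGr.Digon
import Pool.Agent.PGr.CutIso

/-! # Module ESum: the composition inequalities -/

set_option linter.unusedSectionVars false

namespace PGr
open Equiv Finset
open scoped ENNReal Classical

variable (s y : ℝ≥0∞)

namespace ESum

/-- the class of a good map -/
def cl (N : GB) : GC := Quotient.mk bSetoid N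

theorem rep_iso (N : GB) : BIso (GC.rep (cl N)).1 N.1 :=
  Quotient.exact (Quotient.out_eq (cl N))

theorem eq_of_iso {c c' : GC} (h : BIso c.rep.1 c'.rep.1) : c = c' := by
  rw [← Quotient.out_eq c, ← Quotient.out_eq c']
  exact Quotient.sound h

theorem iso_of_mk {N N' : GB} (h : cl N = cl N') :
    BIso N.1 N'.1 := Quotient.exact h

theorem Esel_eq (P : BMap → Prop) [∀ M, Decidable (P M)] :
    Esel s y P = ∑' c : GC, if P c.rep.1 then W s y c.rep.1 else 0 := by
  unfold Esel
  refine tsum_congr fun c => ?_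
  congr

theorem W_two (A M N : BMap) (k : ℕ) (hM : M.IsGood) (hN : N.IsGood)
    (h1 : nV A.s - 2 = k + (nV M.s - 2) + (nV N.s - 2))
    (h2 : Fintype.card A.D = Fintype.card M.D + Fintype.card N.D) :
    W s y A = s ^ k * W s y M * W s y N := by
  obtain ⟨a, -, ha⟩ := card_D_even hM
  obtain ⟨b, -, hb⟩ := card_D_even hN
  have h3 : Fintype.card A.D / 2 = Fintype.card M.D / 2 + Fintype.card N.D / 2 := by omega
  unfold W
  rw [h1, h3]
  ring

end ESum

theorem Esel_add (P : BMap → Prop) : Esel s y P + Esel s y (fun M => ¬ P M) = Es s y := by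
  unfold Es Esel
  rw [← ENNReal.tsum_add]
  refine tsum_congr fun c => ?_
  by_cases h : P c.rep.1
  · simp [h]
  · simp [h]

theorem ser_ge : s * Esel s y (fun M => ¬ IsSer M) * Es s y ≤ Esel s y IsSer := by
  have e1 : s * Esel s y (fun M => ¬ IsSer M) * Es s y =
      ∑' p : GC × GC, (s * if ¬ IsSer p.1.rep.1 then W s y p.1.rep.1 else 0) *
        (if True then W s y p.2.rep.1 else 0) := by
    rw [← tsum_prod_mul (fun c : GC => s * if ¬ IsSer c.rep.1 then W s y c.rep.1 else 0)
      (fun c : GC => if True then W s y c.rep.1 else 0)]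
    rw [ENNReal.tsum_mul_left]
    unfold Es
    rw [ESum.Esel_eq s y (fun M => ¬ IsSer M), ESum.Esel_eq s y (fun _ => True)]
  rw [e1]
  unfold Esel
  have hW : ∀ N₁ N₂ : GB, W s y (serMap N₁ N₂) = s * W s y N₁.1 * W s y N₂.1 := by
    intro N₁ N₂
    have h1 := serMap_nV N₁ N₂
    have h2 := Good.two_le_nV N₁.2
    have h3 := Good.two_le_nV N₂.2
    rw [ESum.W_two s y (serMap N₁ N₂) N₁.1 N₂.1 1 N₁.2 N₂.2 (by omega) (serMap_card N₁ N₂),
      pow_one]
  refine tsum_le_tsum_of_injOn
    (fun p : GC × GC => ESum.cl ⟨serMap p.1.rep p.2.rep, serMap_good _ _⟩) ?_ ?_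
  · rintro ⟨c, d⟩ ⟨c', d'⟩ h1 h2 h
    have hc : ¬ IsSer c.rep.1 := by
      intro h3
      apply h1
      simp [h3]
    have hc' : ¬ IsSer c'.rep.1 := by
      intro h3
      apply h2
      simp [h3]
    obtain ⟨h3, h4⟩ := serMap_inj hc hc' (ESum.iso_of_mk h)
    exact Prod.ext (ESum.eq_of_iso h3) (ESum.eq_of_iso h4)
  · rintro ⟨c, d⟩ h1
    have hc : ¬ IsSer c.rep.1 := by
      intro h3
      apply h1
      simp [h3]
    have hi := ESum.rep_iso ⟨serMap c.rep d.rep, serMap_good _ _⟩
    have hs : IsSer (GC.rep (ESum.cl ⟨serMap c.rep d.rep, serMap_good _ _⟩)).1 :=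
      hi.symm.ser (serMap_isSer _ _)
    show (s * if ¬ IsSer c.rep.1 then W s y c.rep.1 else 0) *
        (if True then W s y d.rep.1 else 0) ≤ _
    rw [if_pos hc, if_pos trivial, if_pos hs, hi.W_eq, hW]

theorem par_ge : Esel s y (fun M => ¬ IsPar M) * Es s y ≤ Esel s y IsPar := by
  have e1 : Esel s y (fun M => ¬ IsPar M) * Es s y =
      ∑' p : GC × GC, (if ¬ IsPar p.1.rep.1 then W s y p.1.rep.1 else 0) *
        (if True then W s y p.2.rep.1 else 0) := by
    rw [← tsum_prod_mul (fun c : GC => if ¬ IsPar c.rep.1 then W s y c.rep.1 else 0)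
      (fun c : GC => if True then W s y c.rep.1 else 0)]
    unfold Es
    rw [ESum.Esel_eq s y (fun M => ¬ IsPar M), ESum.Esel_eq s y (fun _ => True)]
  rw [e1]
  unfold Esel
  have hW : ∀ N₁ N₂ : GB, W s y (parMap N₁ N₂) = W s y N₁.1 * W s y N₂.1 := by
    intro N₁ N₂
    have h1 := parMap_nV N₁ N₂
    have h2 := Good.two_le_nV N₁.2
    have h3 := Good.two_le_nV N₂.2
    rw [ESum.W_two s y (parMap N₁ N₂) N₁.1 N₂.1 0 N₁.2 N₂.2 (by omega) (parMap_card N₁ N₂),
      pow_zero, one_mul]
  refine tsum_le_tsum_of_injOn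
    (fun p : GC × GC => ESum.cl ⟨parMap p.1.rep p.2.rep, parMap_good _ _⟩) ?_ ?_
  · rintro ⟨c, d⟩ ⟨c', d'⟩ h1 h2 h
    have hc : ¬ IsPar c.rep.1 := by
      intro h3
      apply h1
      simp [h3]
    have hc' : ¬ IsPar c'.rep.1 := by
      intro h3
      apply h2
      simp [h3]
    have h3 : BIso (parMap c.rep d.rep).dual (parMap c'.rep d'.rep).dual :=
      (ESum.iso_of_mk h).dual
    unfold parMap at h3
    rw [dual_dual (serMap_good _ _), dual_dual (serMap_good _ _)] at h3
    obtain ⟨h4, h5⟩ := serMap_inj (N₁ := c.rep.dual) (N₂ := d.rep.dual) (N₁' := c'.rep.dual)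
      (N₂' := d'.rep.dual) hc hc' h3
    have h6 : BIso c.rep.1.dual.dual c'.rep.1.dual.dual := BIso.dual h4
    have h7 : BIso d.rep.1.dual.dual d'.rep.1.dual.dual := BIso.dual h5
    rw [dual_dual c.rep.2, dual_dual c'.rep.2] at h6
    rw [dual_dual d.rep.2, dual_dual d'.rep.2] at h7
    exact Prod.ext (ESum.eq_of_iso h6) (ESum.eq_of_iso h7)
  · rintro ⟨c, d⟩ h1
    have hc : ¬ IsPar c.rep.1 := by
      intro h3
      apply h1
      simp [h3]
    have hi := ESum.rep_iso ⟨parMap c.rep d.rep, parMap_good _ _⟩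
    have hs : IsPar (GC.rep (ESum.cl ⟨parMap c.rep d.rep, parMap_good _ _⟩)).1 :=
      hi.symm.par (parMap_isPar _ _)
    show (if ¬ IsPar c.rep.1 then W s y c.rep.1 else 0) *
        (if True then W s y d.rep.1 else 0) ≤ _
    rw [if_pos hc, if_pos trivial, if_pos hs, hi.W_eq, hW]

namespace ESum

theorem W_comp (C : Core) (N : C.I → GB) (hC : C.toB.IsGood) :
    W s y (comp C N) = s ^ (nV C.s - 2) * ∏ i, W s y (N i).1 := by
  have h1 := nV_comp C N hC
  have h2 : 2 ≤ nV C.s := Good.two_le_nV hC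
  have h3 : ∀ i, 2 ≤ nV (N i).1.s := fun i => Good.two_le_nV (N i).2
  have h4 : ∑ i, nV (N i).1.s = 2 * Fintype.card C.I + ∑ i, (nV (N i).1.s - 2) := by
    rw [← Finset.card_univ, mul_comm, ← smul_eq_mul, ← Finset.sum_const, ← Finset.sum_add_distrib]
    refine Finset.sum_congr rfl fun i _ => ?_
    have := h3 i
    omega
  have h5 : nV (comp C N).s - 2 = (nV C.s - 2) + ∑ i, (nV (N i).1.s - 2) := by omega
  have h6 : Fintype.card (comp C N).D = ∑ i, Fintype.card (N i).1.D := by
    show Fintype.card (Σ i, (N i).1.D) = _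
    rw [Fintype.card_sigma]
  have h7 : ∀ i, ∃ k, Fintype.card (N i).1.D = 2 * k := fun i => by
    obtain ⟨k, -, hk⟩ := card_D_even (N i).2
    exact ⟨k, hk⟩
  choose k hk using h7
  have h8 : Fintype.card (comp C N).D / 2 = ∑ i, Fintype.card (N i).1.D / 2 := by
    rw [h6]
    have h9 : ∑ i, Fintype.card (N i).1.D = 2 * ∑ i, k i := by
      rw [Finset.mul_sum]
      exact Finset.sum_congr rfl fun i _ => hk i
    rw [h9, Nat.mul_div_cancel_left _ (by norm_num)]
    refine Finset.sum_congr rfl fun i _ => ?_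
    rw [hk i, Nat.mul_div_cancel_left _ (by norm_num)]
  unfold W
  rw [h5, h8, pow_add, Finset.prod_mul_distrib, Finset.prod_pow_eq_pow_sum,
    Finset.prod_pow_eq_pow_sum, mul_assoc]

theorem exists_core_of (c : GC) : ∃ C : Core, BIso C.toB c.rep.1 := by
  refine exists_core c.rep.1 (fun d => ?_) (fun d => ?_)
  · have h := c.rep.2.inv (Sum.inl d)
    exact Sum.inl_injective h
  · intro h
    exact c.rep.2.fpf (Sum.inl d) (congrArg Sum.inl h)

/-- a core of a class -/
noncomputable def core (c : GC) : Core := (exists_core_of c).choose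

theorem core_iso (c : GC) : BIso (core c).toB c.rep.1 := (exists_core_of c).choose_spec

theorem core_good (c : GC) : (core c).toB.IsGood := (core_iso c).symm.good c.rep.2

theorem core_card (c : GC) : Fintype.card c.rep.1.D / 2 = Fintype.card (core c).I := by
  rw [← (core_iso c).card_eq]
  show Fintype.card ((core c).I × Bool) / 2 = _
  rw [Fintype.card_prod, Fintype.card_bool, Nat.mul_div_cancel _ (by norm_num)]

end ESum

/-- the rigid compositions -/
theorem rig_ge : Rg s (Es s y) ≤
    Esel s y (fun M => ¬ IsSer M ∧ ¬ IsPar M ∧ 4 ≤ Fintype.card M.D) := by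
  have e1 : Rg s (Es s y) = ∑' p : Σ c : GC, ((ESum.core c).I → GC),
      if Rigid p.1.rep.1 then s ^ (nV p.1.rep.1.s - 2) * ∏ i, W s y (p.2 i).rep.1 else 0 := by
    unfold Rg
    rw [← tsum_sigma_eq (fun (c : GC) (g : (ESum.core c).I → GC) =>
      if Rigid c.rep.1 then s ^ (nV c.rep.1.s - 2) * ∏ i, W s y (g i).rep.1 else 0)]
    refine tsum_congr fun c => ?_
    by_cases h : Rigid c.rep.1
    · simp only [if_pos h]
      rw [ENNReal.tsum_mul_left, ESum.core_card, ← Finset.card_univ, ← Finset.prod_const]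
      congr 1
      rw [← prod_tsum (fun (_ : (ESum.core c).I) (x : GC) => W s y x.rep.1)]
      refine Finset.prod_congr rfl fun i _ => ?_
      unfold Es Esel
      exact tsum_congr fun c => if_pos trivial
    · simp only [if_neg h]
      simp
  rw [e1]
  unfold Esel
  have hgood : ∀ p : Σ c : GC, ((ESum.core c).I → GC),
      (comp (ESum.core p.1) (fun i => (p.2 i).rep)).IsGood :=
    fun p => comp_good _ _ (ESum.core_good p.1)
  refine tsum_le_tsum_of_injOn
    (fun p : Σ c : GC, ((ESum.core c).I → GC) =>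
      ESum.cl ⟨comp (ESum.core p.1) (fun i => (p.2 i).rep), hgood p⟩) ?_ ?_
  · rintro ⟨c, g⟩ ⟨c', g'⟩ h1 h2 h
    have hc : Rigid c.rep.1 := by
      by_contra h3
      apply h1
      simp [h3]
    have hc' : Rigid c'.rep.1 := by
      by_contra h3
      apply h2
      simp [h3]
    have hR := (ESum.core_iso c).symm.rigid hc
    have hR' := (ESum.core_iso c').symm.rigid hc'
    have h3 : BIso (comp (ESum.core c) (fun i => (g i).rep))
        (comp (ESum.core c') (fun i => (g' i).rep)) := ESum.iso_of_mk h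
    have h4 := comp_inj_core _ _ _ _ (ESum.core_good c) hR (ESum.core_good c') hR' h3
    have h5 : c = c' :=
      ESum.eq_of_iso (((ESum.core_iso c).symm.trans h4).trans (ESum.core_iso c'))
    subst h5
    have h6 : g = g' := by
      funext i
      exact ESum.eq_of_iso (comp_inj_nets _ _ _ (ESum.core_good c) hR h3 i)
    rw [h6]
  · rintro ⟨c, g⟩ h1
    have hc : Rigid c.rep.1 := by
      by_contra h3
      apply h1
      simp [h3]
    have hR := (ESum.core_iso c).symm.rigid hc
    have hi := ESum.rep_iso ⟨comp (ESum.core c) (fun i => (g i).rep), hgood ⟨c, g⟩⟩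
    have hW := ESum.W_comp s y (ESum.core c) (fun i => (g i).rep) (ESum.core_good c)
    have hnV : nV (ESum.core c).s = nV c.rep.1.s := (ESum.core_iso c).nV_eq
    have h3 : 3 ≤ Fintype.card (ESum.core c).I := by
      have := hR.1
      have e : Fintype.card (ESum.core c).toB.T = Fintype.card (ESum.core c).I * 2 + 2 := by
        show Fintype.card (((ESum.core c).I × Bool) ⊕ Bool) = _
        rw [Fintype.card_sum, Fintype.card_prod, Fintype.card_bool]
      omega
    have hcard : 4 ≤ Fintype.card (comp (ESum.core c) (fun i => (g i).rep)).D := by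
      have e : Fintype.card (comp (ESum.core c) (fun i => (g i).rep)).D =
          ∑ i, Fintype.card (g i).rep.1.D := by
        show Fintype.card (Σ i, (g i).rep.1.D) = _
        rw [Fintype.card_sigma]
      rw [e]
      have h5 : ∑ _i : (ESum.core c).I, 2 ≤ ∑ i, Fintype.card (g i).rep.1.D := by
        apply Finset.sum_le_sum
        intro i _
        obtain ⟨k, hk, hk2⟩ := card_D_even (g i).rep.2
        omega
      rw [Finset.sum_const, smul_eq_mul, Finset.card_univ] at h5
      omega
    have hP : ¬ IsSer (GC.rep (ESum.cl ⟨comp (ESum.core c) (fun i => (g i).rep),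
        hgood ⟨c, g⟩⟩)).1 ∧ ¬ IsPar (GC.rep (ESum.cl
        ⟨comp (ESum.core c) (fun i => (g i).rep), hgood ⟨c, g⟩⟩)).1 ∧
        4 ≤ Fintype.card (GC.rep (ESum.cl ⟨comp (ESum.core c) (fun i => (g i).rep),
          hgood ⟨c, g⟩⟩)).1.D := by
      refine ⟨fun h => ?_, fun h => ?_, ?_⟩
      · exact comp_not_ser _ _ (ESum.core_good c) hR (hi.ser h)
      · exact comp_not_par _ _ (ESum.core_good c) hR (hi.par h)
      · rw [hi.card_eq]
        exact hcard
    show (if Rigid c.rep.1 then s ^ (nV c.rep.1.s - 2) * ∏ i, W s y (g i).rep.1 else 0) ≤ _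
    rw [if_pos hc, if_pos hP, hi.W_eq, hW, hnV]

theorem E_ge : y + Esel s y IsSer + Esel s y IsPar + Rg s (Es s y) ≤ Es s y := by
  have h1 : y ≤ Esel s y (fun M => Fintype.card M.D < 4) := by
    have hi := ESum.rep_iso ⟨digonB, digon_good⟩
    have hlt : Fintype.card (GC.rep (ESum.cl ⟨digonB, digon_good⟩)).1.D < 4 := by
      rw [hi.card_eq]
      show Fintype.card Bool < 4
      decide
    have h2 : (if Fintype.card (GC.rep (ESum.cl ⟨digonB, digon_good⟩)).1.D < 4
        then W s y (GC.rep (ESum.cl ⟨digonB, digon_good⟩)).1 else 0) = y := by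
      rw [if_pos hlt, hi.W_eq]
      unfold W
      rw [digon_nV]
      have : Fintype.card digonB.D = 2 := by
        show Fintype.card Bool = 2
        decide
      rw [this]
      simp
    rw [ESum.Esel_eq s y (fun M => Fintype.card M.D < 4)]
    refine le_trans (le_of_eq h2.symm) ?_
    exact ENNReal.le_tsum (f := fun c : GC => if Fintype.card c.rep.1.D < 4 then
      W s y c.rep.1 else 0) _
  have h2 : Esel s y (fun M => Fintype.card M.D < 4) + Esel s y IsSer + Esel s y IsPar +
      Esel s y (fun M => ¬ IsSer M ∧ ¬ IsPar M ∧ 4 ≤ Fintype.card M.D) ≤ Es s y := by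
    unfold Es Esel
    rw [← ENNReal.tsum_add, ← ENNReal.tsum_add, ← ENNReal.tsum_add]
    refine ENNReal.tsum_le_tsum fun c => ?_
    rw [if_pos trivial]
    by_cases h4 : Fintype.card c.rep.1.D < 4
    · have hd := eq_digon c.rep.2 h4
      have hs : ¬ IsSer c.rep.1 := fun h => digon_not_ser (hd.ser h)
      have hp : ¬ IsPar c.rep.1 := fun h => digon_not_par (hd.par h)
      have h5 : ¬ (¬ IsSer c.rep.1 ∧ ¬ IsPar c.rep.1 ∧ 4 ≤ Fintype.card c.rep.1.D) := by
        rintro ⟨-, -, h⟩
        omega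
      rw [if_pos h4, if_neg hs, if_neg hp, if_neg h5]
      simp
    · rw [if_neg h4]
      by_cases hs : IsSer c.rep.1
      · have hp : ¬ IsPar c.rep.1 := not_ser_par c.rep.2 hs
        have h5 : ¬ (¬ IsSer c.rep.1 ∧ ¬ IsPar c.rep.1 ∧ 4 ≤ Fintype.card c.rep.1.D) := by
          rintro ⟨h, -, -⟩
          exact h hs
        rw [if_pos hs, if_neg hp, if_neg h5]
        simp
      · rw [if_neg hs]
        by_cases hp : IsPar c.rep.1
        · have h5 : ¬ (¬ IsSer c.rep.1 ∧ ¬ IsPar c.rep.1 ∧ 4 ≤ Fintype.card c.rep.1.D) := by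
            rintro ⟨-, h, -⟩
            exact h hp
          rw [if_pos hp, if_neg h5]
          simp
        · rw [if_neg hp]
          split_ifs
          · simp
          · simp
  have h3 := rig_ge s y
  calc y + Esel s y IsSer + Esel s y IsPar + Rg s (Es s y)
      ≤ Esel s y (fun M => Fintype.card M.D < 4) + Esel s y IsSer + Esel s y IsPar +
        Esel s y (fun M => ¬ IsSer M ∧ ¬ IsPar M ∧ 4 ≤ Fintype.card M.D) := by gcongr
    _ ≤ Es s y := h2

end PGr
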