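import Pool.Agent.PGr.NoPinch

/-! # Module CompV: number of vertices of the composite -/

set_option linter.unusedSectionVars false
set_option linter.unusedVariables false

namespace PGr
open Equiv Finset

namespace CompVAux

theorem root_uniq (M : GB) {x : M.1.T} {b b' : Bool} (h : M.1.s.SameCycle x (Sum.inr b))
    (h' : M.1.s.SameCycle x (Sum.inr b')) : b = b' := by
  by_contra hne
  have h1 : M.1.s.SameCycle (Sum.inr b) (Sum.inr b') := h.symm.trans h'
  have hb : b' = !b := by cases b <;> cases b' <;> simp_all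
  subst hb
  exact Good.noLoop M.2 (Sum.inr b) h1

theorem exists_nat_pow {T : Type*} [Fintype T] [DecidableEq T] {s : Perm T} {x y : T}
    (h : s.SameCycle x y) : ∃ n : ℕ, (s ^ n) x = y := by
  obtain ⟨i, _, hi⟩ := h.exists_pow_eq'
  exact ⟨i, hi⟩

theorem sc_apply {T : Type*} (s : Perm T) (x : T) : s.SameCycle x (s x) :=
  ⟨1, by simp⟩

variable (C : Core) (N : C.I → GB)

theorem pow_root (i : C.I) (b : Bool) : ∀ (n : ℕ) (d : (N i).1.D),
    ((N i).1.s ^ n) (Sum.inl d) = Sum.inr b →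
    (comp C N).s.SameCycle (Sum.inl ⟨i, d⟩) (jump C N (C.s (Sum.inl (i, b)))) := by
  intro n
  induction n with
  | zero => intro d h; simp at h
  | succ n ih =>
    intro d h
    rw [pow_succ, Perm.mul_apply] at h
    rcases hd : (N i).1.s (Sum.inl d) with d' | b'
    · rw [hd] at h
      have h1 := ih d' h
      have h2 := sc_apply (comp C N).s (Sum.inl ⟨i, d⟩)
      rw [comp_s_in C N hd] at h2
      exact h2.trans h1
    · have h2 := sc_apply (comp C N).s (Sum.inl ⟨i, d⟩)
      rw [comp_s_out C N hd] at h2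
      have hb : b' = b := by
        refine root_uniq (N i) (x := Sum.inr b') (Perm.SameCycle.refl _ _) ?_
        rw [hd] at h
        exact ⟨(n : ℤ), by simpa using h⟩
      rw [hb] at h2
      exact h2

theorem out_root {i : C.I} {b : Bool} {d : (N i).1.D}
    (h : (N i).1.s.SameCycle (Sum.inl d) (Sum.inr b)) :
    (comp C N).s.SameCycle (Sum.inl ⟨i, d⟩) (jump C N (C.s (Sum.inl (i, b)))) := by
  obtain ⟨n, hn⟩ := exists_nat_pow h
  exact pow_root C N i b n d hn

theorem fst_sc (i : C.I) (b : Bool) :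
    (N i).1.s.SameCycle (Sum.inl (fstD (N i) b)) (Sum.inr b) := by
  have h := sc_apply (N i).1.s (Sum.inr b)
  rw [fstD_spec] at h
  exact h.symm

theorem jump_step (y : (C.I × Bool) ⊕ Bool) :
    (comp C N).s.SameCycle (jump C N y) (jump C N (C.s y)) := by
  rcases y with ⟨i, b⟩ | b
  · exact out_root C N (fst_sc C N i b)
  · have h := sc_apply (comp C N).s (Sum.inr b)
    rw [comp_s_root] at h
    exact h

theorem jump_sc {y y' : (C.I × Bool) ⊕ Bool} (h : C.s.SameCycle y y') :
    (comp C N).s.SameCycle (jump C N y) (jump C N y') := by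
  obtain ⟨n, hn⟩ := exists_nat_pow h
  subst hn
  induction n with
  | zero => exact Perm.SameCycle.refl _ _
  | succ n ih =>
    rw [pow_succ', Perm.mul_apply]
    exact (ih ⟨(n : ℤ), by simp⟩).trans (jump_step C N _)

theorem core_sc {i : C.I} {b : Bool} {d : (N i).1.D}
    (h : (N i).1.s.SameCycle (Sum.inl d) (Sum.inr b)) :
    (comp C N).s.SameCycle (jump C N (Sum.inl (i, b))) (Sum.inl ⟨i, d⟩) :=
  (jump_step C N (Sum.inl (i, b))).trans (out_root C N h).symm

theorem inner_pow (i : C.I) : ∀ (n : ℕ) (d d' : (N i).1.D),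
    (¬ ∃ b, (N i).1.s.SameCycle (Sum.inl d) (Sum.inr b)) →
    ((N i).1.s ^ n) (Sum.inl d) = Sum.inl d' →
    (comp C N).s.SameCycle (Sum.inl ⟨i, d⟩) (Sum.inl ⟨i, d'⟩) := by
  intro n
  induction n with
  | zero =>
    intro d d' _ h
    have h1 : d = d' := by simpa using h
    rw [h1]
  | succ n ih =>
    intro d d' hb h
    rw [pow_succ, Perm.mul_apply] at h
    rcases hd : (N i).1.s (Sum.inl d) with e | b'
    · rw [hd] at h
      have h2 := sc_apply (comp C N).s (Sum.inl ⟨i, d⟩)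
      rw [comp_s_in C N hd] at h2
      refine h2.trans (ih e d' ?_ h)
      rintro ⟨b, hb'⟩
      apply hb
      refine ⟨b, ?_⟩
      have h3 := sc_apply (N i).1.s (Sum.inl d)
      rw [hd] at h3
      exact h3.trans hb'
    · exfalso
      apply hb
      refine ⟨b', ?_⟩
      have h3 := sc_apply (N i).1.s (Sum.inl d)
      rw [hd] at h3
      exact h3

/-- the cycles of a permutation -/
abbrev Cyc {T : Type*} (s : Perm T) : Type _ := Quotient (Perm.SameCycle.setoid s)

/-- the cycle of a dart -/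
def cyc {T : Type*} (s : Perm T) (x : T) : Cyc s := Quotient.mk (Perm.SameCycle.setoid s) x

theorem cyc_eq {T : Type*} {s : Perm T} {x y : T} : cyc s x = cyc s y ↔ s.SameCycle x y :=
  Quotient.eq (r := Perm.SameCycle.setoid s)

theorem cyc_s {T : Type*} (s : Perm T) (x : T) : cyc s (s x) = cyc s x :=
  cyc_eq.2 (sc_apply s x).symm

open Classical in
/-- the cycle type of a dart of the composite -/
noncomputable def F : (comp C N).T → Cyc C.s ⊕ (Σ i, Cyc (N i).1.s)
  | Sum.inr b => Sum.inl (cyc C.s (Sum.inr b))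
  | Sum.inl ⟨i, d⟩ =>
    if h : ∃ b, (N i).1.s.SameCycle (Sum.inl d) (Sum.inr b) then
      Sum.inl (cyc C.s (Sum.inl (i, h.choose)))
    else Sum.inr ⟨i, cyc (N i).1.s (Sum.inl d)⟩

theorem F_core {i : C.I} {b : Bool} {d : (N i).1.D}
    (h : (N i).1.s.SameCycle (Sum.inl d) (Sum.inr b)) :
    F C N (Sum.inl ⟨i, d⟩) = Sum.inl (cyc C.s (Sum.inl (i, b))) := by
  have h1 : ∃ b, (N i).1.s.SameCycle (Sum.inl d) (Sum.inr b) := ⟨b, h⟩
  have h2 : h1.choose = b := root_uniq (N i) h1.choose_spec h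
  simp only [F, dif_pos h1]
  rw [h2]

theorem F_inner {i : C.I} {d : (N i).1.D}
    (h : ¬ ∃ b, (N i).1.s.SameCycle (Sum.inl d) (Sum.inr b)) :
    F C N (Sum.inl ⟨i, d⟩) = Sum.inr ⟨i, cyc (N i).1.s (Sum.inl d)⟩ := by
  simp only [F, dif_neg h]

theorem F_jump (y : (C.I × Bool) ⊕ Bool) : F C N (jump C N y) = Sum.inl (cyc C.s y) := by
  rcases y with ⟨i, b⟩ | b
  · exact F_core C N (fst_sc C N i b)
  · rfl

theorem F_s (x : (comp C N).T) : F C N ((comp C N).s x) = F C N x := by
  rcases x with ⟨i, d⟩ | b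
  · rcases hd : (N i).1.s (Sum.inl d) with e | b
    · rw [comp_s_in C N hd]
      have h3 := sc_apply (N i).1.s (Sum.inl d)
      rw [hd] at h3
      by_cases hb : ∃ b, (N i).1.s.SameCycle (Sum.inl d) (Sum.inr b)
      · obtain ⟨b, hb⟩ := hb
        rw [F_core C N hb, F_core C N (h3.symm.trans hb)]
      · have hb' : ¬ ∃ b, (N i).1.s.SameCycle (Sum.inl e) (Sum.inr b) := by
          rintro ⟨b, hb'⟩
          exact hb ⟨b, h3.trans hb'⟩
        rw [F_inner C N hb, F_inner C N hb', cyc_eq.2 h3.symm]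
    · rw [comp_s_out C N hd]
      have h3 := sc_apply (N i).1.s (Sum.inl d)
      rw [hd] at h3
      rw [F_core C N h3, F_jump, cyc_s]
  · rw [comp_s_root, F_jump, cyc_s]
    rfl

theorem F_sc {x y : (comp C N).T} (h : (comp C N).s.SameCycle x y) : F C N x = F C N y := by
  obtain ⟨n, hn⟩ := exists_nat_pow h
  subst hn
  clear h
  induction n with
  | zero => rfl
  | succ n ih =>
    rw [pow_succ', Perm.mul_apply, F_s]
    exact ih

/-- the cycles of a net without root dart -/
abbrev Inn (M : GB) : Type := {q : Cyc M.1.s // ¬ ∃ b : Bool, q = cyc M.1.s (Sum.inr b)}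

theorem exists_dart (M : GB) (q : Inn M) : ∃ d, q.1 = cyc M.1.s (Sum.inl d) := by
  obtain ⟨q, hq⟩ := q
  induction q using Quotient.inductionOn with
  | _ x =>
    rcases x with d | b
    · exact ⟨d, rfl⟩
    · exact absurd ⟨b, rfl⟩ hq

/-- a dart in an inner cycle -/
noncomputable def dart (M : GB) (q : Inn M) : M.1.D := (exists_dart M q).choose

theorem dart_spec (M : GB) (q : Inn M) : q.1 = cyc M.1.s (Sum.inl (dart M q)) :=
  (exists_dart M q).choose_spec

theorem dart_root (M : GB) (q : Inn M) :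
    ¬ ∃ b, M.1.s.SameCycle (Sum.inl (dart M q)) (Sum.inr b) := by
  rintro ⟨b, hb⟩
  apply q.2
  refine ⟨b, ?_⟩
  rw [dart_spec M q]
  exact cyc_eq.2 hb

/-- cycles of the composite from the cycles of the core and the inner cycles of the nets -/
noncomputable def G : Cyc C.s ⊕ (Σ i, Inn (N i)) → Cyc (comp C N).s
  | Sum.inl q => Quotient.lift (fun y => cyc (comp C N).s (jump C N y))
      (fun _ _ h => cyc_eq.2 (jump_sc C N h)) q
  | Sum.inr ⟨i, q⟩ => cyc (comp C N).s (Sum.inl ⟨i, dart (N i) q⟩)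

/-- `F` on cycles -/
noncomputable def Fb : Cyc (comp C N).s → Cyc C.s ⊕ (Σ i, Cyc (N i).1.s) :=
  Quotient.lift (F C N) (fun _ _ h => F_sc C N h)

/-- the embedding -/
def emb : Cyc C.s ⊕ (Σ i, Inn (N i)) → Cyc C.s ⊕ (Σ i, Cyc (N i).1.s)
  | Sum.inl q => Sum.inl q
  | Sum.inr ⟨i, q⟩ => Sum.inr ⟨i, q.1⟩

theorem emb_inj : Function.Injective (emb C N) := by
  rintro (q | ⟨i, q⟩) (q' | ⟨i', q'⟩) h
  · simpa [emb] using h
  · simp [emb] at h
  · simp [emb] at h
  · simp only [emb, Sum.inr.injEq, Sigma.mk.inj_iff] at h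
    obtain ⟨rfl, h⟩ := h
    have := Subtype.ext (eq_of_heq h)
    rw [this]

theorem Fb_G (z : Cyc C.s ⊕ (Σ i, Inn (N i))) : Fb C N (G C N z) = emb C N z := by
  rcases z with q | ⟨i, q⟩
  · induction q using Quotient.inductionOn with
    | _ y => exact F_jump C N y
  · have h1 : Fb C N (G C N (Sum.inr ⟨i, q⟩)) = F C N (Sum.inl ⟨i, dart (N i) q⟩) := rfl
    rw [h1, F_inner C N (dart_root (N i) q)]
    simp only [emb]
    rw [← dart_spec]

theorem G_bij : Function.Bijective (G C N) := by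
  constructor
  · intro z z' h
    apply emb_inj C N
    rw [← Fb_G, ← Fb_G, h]
  · intro w
    induction w using Quotient.inductionOn with
    | _ x =>
      rcases x with ⟨i, d⟩ | b
      · by_cases hb : ∃ b, (N i).1.s.SameCycle (Sum.inl d) (Sum.inr b)
        · obtain ⟨b, hb⟩ := hb
          refine ⟨Sum.inl (cyc C.s (Sum.inl (i, b))), ?_⟩
          exact cyc_eq.2 (core_sc C N hb)
        · have hq : ¬ ∃ b : Bool, cyc (N i).1.s (Sum.inl d) = cyc (N i).1.s (Sum.inr b) := by
            rintro ⟨b, h⟩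
            exact hb ⟨b, cyc_eq.1 h⟩
          refine ⟨Sum.inr ⟨i, ⟨cyc (N i).1.s (Sum.inl d), hq⟩⟩, ?_⟩
          refine cyc_eq.2 ?_
          have h1 := cyc_eq.1 (dart_spec (N i) ⟨cyc (N i).1.s (Sum.inl d), hq⟩)
          obtain ⟨n, hn⟩ := exists_nat_pow h1
          exact (inner_pow C N i n d _ hb hn).symm
      · exact ⟨Sum.inl (cyc C.s (Sum.inr b)), rfl⟩

theorem card_inn (M : GB) : Nat.card (Inn M) + 2 = nV M.1.s := by
  classical
  have hinj : Function.Injective (fun b : Bool => cyc M.1.s (Sum.inr b)) := by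
    intro b b' h
    exact root_uniq M (Perm.SameCycle.refl _ (Sum.inr b)) (cyc_eq.1 h)
  have e1 : Bool ≃ {q : Cyc M.1.s // ∃ b : Bool, q = cyc M.1.s (Sum.inr b)} :=
    Equiv.ofBijective (fun b => ⟨cyc M.1.s (Sum.inr b), b, rfl⟩) (by
      constructor
      · intro b b' h
        exact hinj (congrArg Subtype.val h)
      · rintro ⟨q, b, rfl⟩
        exact ⟨b, rfl⟩)
  have e2 := Equiv.sumCompl (fun q : Cyc M.1.s => ∃ b : Bool, q = cyc M.1.s (Sum.inr b))
  have h2 := Nat.card_congr e2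
  rw [Nat.card_sum, ← Nat.card_congr e1] at h2
  have h3 : Nat.card Bool = 2 := by simp
  rw [h3] at h2
  have h4 : Nat.card (Cyc M.1.s) = nV M.1.s := rfl
  rw [h4] at h2
  rw [← h2, add_comm]

end CompVAux

variable (C : Core) (N : C.I → GB)

open CompVAux in
theorem nV_comp (hC : C.toB.IsGood) :
    nV (comp C N).s + 2 * Fintype.card C.I = nV C.s + ∑ i, nV (N i).1.s := by
  have h1 := Nat.card_congr (Equiv.ofBijective _ (G_bij C N))
  rw [Nat.card_sum, Nat.card_sigma] at h1
  have h2 : ∑ i, nV (N i).1.s = ∑ i, Nat.card (Inn (N i)) + 2 * Fintype.card C.I := by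
    rw [← Finset.sum_congr rfl (fun i _ => card_inn (N i)), sum_add_distrib]
    simp [mul_comm]
  rw [h2]
  unfold nV
  have h3 : Nat.card (Cyc C.s) + ∑ i, Nat.card (Inn (N i)) = Nat.card (Cyc (comp C N).s) := h1
  unfold Cyc at h3
  omega

end PGr
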