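import Pool.Agent.PGr.CompPl
import Pool.Agent.PGr.CompV

/-! # Module TriProps: the triangle and the series composition -/

set_option linter.unusedSectionVars false

namespace PGr
open Equiv Finset

theorem TriProps_app {α : Type*} (f : Perm α) (x : α) : f (f⁻¹ x) = x :=
  Perm.inv_eq_iff_eq.mp rfl |>.symm

theorem TriProps_s_sq : ∀ t : (Bool × Bool) ⊕ Bool,
    (tri.s : (Bool × Bool) ⊕ Bool → (Bool × Bool) ⊕ Bool) (tri.s t) = t := by decide

theorem TriProps_pl : Pl tri.toB.aa tri.toB.s := by
  intro p q H
  have e1 : p (Sum.inl (true, true)) + q (Sum.inl (true, false)) =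
      p (Sum.inr true) + q (Sum.inr true) := H (Sum.inl (true, true))
  have e2 : p (Sum.inr true) + q (Sum.inr false) =
      p (Sum.inl (true, true)) + q (Sum.inl (true, true)) := H (Sum.inr true)
  have e3 : p (Sum.inl (true, false)) + q (Sum.inl (true, true)) =
      p (Sum.inl (false, true)) + q (Sum.inl (false, true)) := H (Sum.inl (true, false))
  have e4 : p (Sum.inl (false, true)) + q (Sum.inl (false, false)) =
      p (Sum.inl (true, false)) + q (Sum.inl (true, false)) := H (Sum.inl (false, true))
  have e5 : p (Sum.inl (false, false)) + q (Sum.inl (false, true)) =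
      p (Sum.inr false) + q (Sum.inr false) := H (Sum.inl (false, false))
  have e6 : p (Sum.inr false) + q (Sum.inr true) =
      p (Sum.inl (false, false)) + q (Sum.inl (false, false)) := H (Sum.inr false)
  have h2 : (2 : ZMod 2) = 0 := by decide
  have key : (p (Sum.inl (true, true)) + p (Sum.inr true)) +
      (p (Sum.inl (false, false)) + p (Sum.inr false)) =
      p (Sum.inl (true, false)) + p (Sum.inl (false, true)) := by
    linear_combination e1 - e4 - e6 + (p (Sum.inr true) + p (Sum.inr false) +
      p (Sum.inr true) - p (Sum.inr true) - p (Sum.inl (true, false)) +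
      q (Sum.inr true) - q (Sum.inl (true, false))) * h2
  refine ⟨fun t => match t with
    | Sum.inl (true, _) => p (Sum.inl (true, true)) + p (Sum.inr true)
    | Sum.inl (false, _) => p (Sum.inl (false, false)) + p (Sum.inr false)
    | Sum.inr _ => 0, ?_, ?_⟩
  · rintro (⟨(_ | _), (_ | _)⟩ | (_ | _)) <;> rfl
  · rintro (⟨(_ | _), (_ | _)⟩ | (_ | _))
    · show (p (Sum.inl (false, false)) + p (Sum.inr false)) + 0 =
        p (Sum.inl (false, false)) + p (Sum.inr false)
      ring
    · show (p (Sum.inl (false, false)) + p (Sum.inr false)) +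
        (p (Sum.inl (true, true)) + p (Sum.inr true)) =
        p (Sum.inl (false, true)) + p (Sum.inl (true, false))
      linear_combination key
    · show (p (Sum.inl (true, true)) + p (Sum.inr true)) +
        (p (Sum.inl (false, false)) + p (Sum.inr false)) =
        p (Sum.inl (true, false)) + p (Sum.inl (false, true))
      linear_combination key
    · show (p (Sum.inl (true, true)) + p (Sum.inr true)) + 0 =
        p (Sum.inl (true, true)) + p (Sum.inr true)
      ring
    · show (0 : ZMod 2) + (p (Sum.inl (false, false)) + p (Sum.inr false)) =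
        p (Sum.inr false) + p (Sum.inl (false, false))
      ring
    · show (0 : ZMod 2) + (p (Sum.inl (true, true)) + p (Sum.inr true)) =
        p (Sum.inr true) + p (Sum.inl (true, true))
      ring

def TriProps_a : Perm ((Bool × Bool) ⊕ Bool) :=
  ext (Equiv.prodCongr (Equiv.refl Bool) Equiv.boolNot)

def TriProps_s : Perm ((Bool × Bool) ⊕ Bool) :=
  swap (Sum.inr true) (Sum.inl (true, true)) *
      swap (Sum.inl (true, false)) (Sum.inl (false, true)) *
      swap (Sum.inl (false, false)) (Sum.inr false)

theorem TriProps_ns : ∀ A : Finset ((Bool × Bool) ⊕ Bool),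
    (∀ t, TriProps_a t ∈ A ↔ t ∈ A) → A.Nonempty → A ≠ univ →
    4 ≤ (univ.filter fun t => ¬ (t ∈ A ↔ TriProps_s t ∈ A)).card := by
  decide +kernel

theorem tri_good : tri.toB.IsGood where
  inv := by
    have : ∀ t : (Bool × Bool) ⊕ Bool, TriProps_a (TriProps_a t) = t := by decide
    exact this
  fpf := by
    have : ∀ t : (Bool × Bool) ⊕ Bool, TriProps_a t ≠ t := by decide
    exact this
  ns := TriProps_ns
  pl := TriProps_pl
  big := by
    show 4 ≤ Fintype.card ((Bool × Bool) ⊕ Bool)
    decide

/-- the vertex of a dart of the triangle -/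
def TriProps_v : (Bool × Bool) ⊕ Bool → Option Bool
  | Sum.inl (true, true) => some true
  | Sum.inl (true, false) => none
  | Sum.inl (false, true) => none
  | Sum.inl (false, false) => some false
  | Sum.inr b => some b

theorem TriProps_same (t t' : (Bool × Bool) ⊕ Bool) :
    TriProps_s.SameCycle t t' ↔ TriProps_v t = TriProps_v t' := by
  have h1 : ∀ t t' : (Bool × Bool) ⊕ Bool, TriProps_v t = TriProps_v t' →
      t' = t ∨ t' = TriProps_s t := by decide
  have h2 : ∀ t : (Bool × Bool) ⊕ Bool, TriProps_v (TriProps_s t) = TriProps_v t := by decide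
  constructor
  · rintro ⟨i, rfl⟩
    induction i using Int.induction_on generalizing t with
    | zero => simp
    | succ n ih =>
      rw [zpow_add_one, Perm.mul_apply, ← ih (TriProps_s t), h2]
    | pred n ih =>
      rw [zpow_sub_one, Perm.mul_apply, ← ih (TriProps_s⁻¹ t)]
      have := h2 (TriProps_s⁻¹ t)
      rw [TriProps_app] at this
      exact this
  · intro h
    rcases h1 t t' h with h | h
    · rw [h]
    · rw [h]
      exact ⟨1, by simp⟩

theorem tri_nV : nV tri.s = 3 := by
  have e : Quotient (Perm.SameCycle.setoid TriProps_s) ≃ Option Bool := by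
    refine Equiv.ofBijective (Quotient.lift TriProps_v fun t t' h => (TriProps_same t t').mp h)
      ⟨?_, ?_⟩
    · intro x y
      induction x using Quotient.inductionOn with | _ x => ?_
      induction y using Quotient.inductionOn with | _ y => ?_
      intro h
      exact Quotient.sound ((TriProps_same x y).mpr h)
    · rintro (_ | b)
      · exact ⟨Quotient.mk _ (Sum.inl (true, false)), rfl⟩
      · exact ⟨Quotient.mk _ (Sum.inr b), rfl⟩
  show Nat.card (Quotient (Perm.SameCycle.setoid TriProps_s)) = 3
  rw [Nat.card_congr e]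
  simp

theorem serMap_good (N₁ N₂ : GB) : (serMap N₁ N₂).IsGood :=
  comp_good tri (serNets N₁ N₂) tri_good

theorem serMap_card (N₁ N₂ : GB) :
    Fintype.card (serMap N₁ N₂).D = Fintype.card N₁.1.D + Fintype.card N₂.1.D := by
  show Fintype.card (Σ i : Bool, ((serNets N₁ N₂) i).1.D) = _
  rw [Fintype.card_sigma, Fintype.sum_bool]
  rfl

theorem serMap_nV (N₁ N₂ : GB) : nV (serMap N₁ N₂).s + 1 = nV N₁.1.s + nV N₂.1.s := by
  have h := nV_comp tri (serNets N₁ N₂) tri_good
  have h1 : Fintype.card tri.I = 2 := by
    show Fintype.card Bool = 2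
    decide
  have h2 : ∑ i, nV ((serNets N₁ N₂) i).1.s = nV N₁.1.s + nV N₂.1.s := by
    show ∑ i : Bool, nV ((serNets N₁ N₂) i).1.s = _
    rw [Fintype.sum_bool]
    rfl
  rw [h1, tri_nV, h2] at h
  show nV (comp tri (serNets N₁ N₂)).s + 1 = _
  omega

theorem TriProps_exists_last (M : GB) (b : Bool) : ∃ d, M.1.s (Sum.inl d) = Sum.inr b := by
  rcases h : M.1.s⁻¹ (Sum.inr b) with d | b'
  · exact ⟨d, by rw [← h, TriProps_app]⟩
  · exfalso
    obtain ⟨d, hd⟩ := exists_fst M b'
    rw [← h, TriProps_app] at hd
    exact Sum.inr_ne_inl hd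

/-- the part of one net in a series composition -/
noncomputable def TriProps_P (N₁ N₂ : GB) (b : Bool) : Finset (serMap N₁ N₂).T :=
  partSet tri (serNets N₁ N₂) b

theorem TriProps_mem {N₁ N₂ : GB} {b : Bool} {t : (serMap N₁ N₂).T} :
    t ∈ TriProps_P N₁ N₂ b ↔ partOf tri (serNets N₁ N₂) t = some b := by
  unfold TriProps_P partSet partsSet
  exact Iff.trans Finset.mem_filter
    (Iff.trans (and_iff_right (Finset.mem_univ _)) Finset.mem_singleton)

theorem TriProps_mem_inl {N₁ N₂ : GB} {b : Bool} {i : Bool} {d : ((serNets N₁ N₂) i).1.D} :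
    (Sum.inl ⟨i, d⟩ : (serMap N₁ N₂).T) ∈ TriProps_P N₁ N₂ b ↔ i = b := by
  rw [TriProps_mem]
  exact ⟨fun h => Option.some.inj h, fun h => congrArg some h⟩

theorem TriProps_mem_inr {N₁ N₂ : GB} {b b' : Bool} :
    ¬ (Sum.inr b' : (serMap N₁ N₂).T) ∈ TriProps_P N₁ N₂ b := by
  rw [TriProps_mem]
  intro h
  cases h

theorem TriProps_root {N₁ N₂ : GB} {t : (serMap N₁ N₂).T} :
    t ∈ (serMap N₁ N₂).root ↔ ∃ b, t = Sum.inr b := by
  unfold BMap.root
  rw [Finset.mem_insert, Finset.mem_singleton]
  constructor
  · rintro (h | h)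
    · exact ⟨_, h⟩
    · exact ⟨_, h⟩
  · rintro ⟨b, h⟩
    cases b
    · exact Or.inr h
    · exact Or.inl h

theorem serMap_isSer (N₁ N₂ : GB) : IsSer (serMap N₁ N₂) := by
  refine ⟨TriProps_P N₁ N₂ true, ⟨?_, ?_, ?_, ?_, ?_, ?_⟩, ?_⟩
  · rintro (⟨i, d⟩ | b)
    · exact Iff.trans (TriProps_mem_inl (i := i)) (TriProps_mem_inl (i := i)).symm
    · exact ⟨fun h => absurd h TriProps_mem_inr, fun h => absurd h TriProps_mem_inr⟩
  · exact TriProps_mem_inr
  · exact TriProps_mem.mpr rfl
  · intro h
    have h1 : (Sum.inl ⟨false, fstD N₂ true⟩ : (serMap N₁ N₂).T) ∈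
        TriProps_P N₁ N₂ true ∪ (serMap N₁ N₂).root := by
      rw [h]
      exact Finset.mem_univ _
    rw [Finset.mem_union] at h1
    rcases h1 with h1 | h1
    · exact Bool.false_ne_true (TriProps_mem_inl.mp h1)
    · obtain ⟨b, hb⟩ := TriProps_root.mp h1
      exact Sum.inl_ne_inr hb
  · exact cut_partSet tri (serNets N₁ N₂) tri_good true
  · have h1 : TriProps_P N₁ N₂ true ∪ (serMap N₁ N₂).root = (TriProps_P N₁ N₂ false)ᶜ := by
      ext t
      rw [Finset.mem_union, Finset.mem_compl, TriProps_root]
      rcases t with ⟨i, d⟩ | b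
      · constructor
        · rintro (h | ⟨b, hb⟩)
          · intro h'
            have e1 := TriProps_mem_inl.mp h
            have e2 := TriProps_mem_inl.mp h'
            rw [e1] at e2
            exact Bool.false_ne_true e2.symm
          · exact absurd hb Sum.inl_ne_inr
        · intro h
          left
          apply TriProps_mem_inl.mpr
          cases i with
          | false => exact absurd (TriProps_mem_inl.mpr rfl) h
          | true => rfl
      · constructor
        · intro _
          exact TriProps_mem_inr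
        · intro _
          exact Or.inr ⟨b, rfl⟩
    have h2 : cut (serMap N₁ N₂).s (TriProps_P N₁ N₂ false) = 4 :=
      cut_partSet tri (serNets N₁ N₂) tri_good false
    rw [h1, cut_compl, h2]
  · obtain ⟨d, hd⟩ := TriProps_exists_last N₁ true
    have h1 : (serMap N₁ N₂).s (Sum.inl ⟨true, d⟩) = Sum.inr true :=
      comp_s_out tri (serNets N₁ N₂) (i := true) (d := d) (b := true) hd
    have h2 : (serMap N₁ N₂).s⁻¹ (Sum.inr true) = Sum.inl ⟨true, d⟩ := by
      rw [Perm.inv_eq_iff_eq]
      exact h1.symm
    rw [h2]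
    exact TriProps_mem_inl.mpr rfl

end PGr
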