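import Pool.Agent.PGr.SubMap
import Pool.Agent.PGr.SerExcl
import Pool.Agent.PGr.TriProps
import Pool.Agent.PGr.CutIso
import Pool.Agent.PGr.CompIso

/-! # Module SerSurj: a map with a series prefix is a series composition -/

set_option linter.unusedSectionVars false

namespace PGr
open Equiv Finset

namespace SerSurj

theorem inv_self {T : Type*} (f : Perm T) (x : T) : f⁻¹ (f x) = x := f.symm_apply_apply x
theorem self_inv {T : Type*} (f : Perm T) (x : T) : f (f⁻¹ x) = x := f.apply_symm_apply x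

/-- The dart before the first return. -/
theorem before_ret {T : Type*} [Fintype T] [DecidableEq T] (s : Perm T) (P : Finset T)
    (x : {x // x ∈ P}) (hx : s x.1 ∉ P) :
    ∃ y, y ∉ P ∧ s y = (ret s P x).1 ∧ (s⁻¹ y ∉ P ∨ s⁻¹ y = x.1) := by
  set k := retK s P x with hk
  have hk0 : 0 < k := retK_pos s P x
  have hk1 : k ≠ 1 := by
    intro h
    have h1 := retK_mem s P x
    rw [← hk, h, pow_one] at h1
    exact hx h1
  refine ⟨(s ^ (k - 1)) x.1, ?_, ?_, ?_⟩
  · exact retK_min s P x (by omega) (by omega)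
  · rw [ret_val, ← hk, ← Perm.mul_apply, ← pow_succ']
    congr 2
    omega
  · have h1 : s⁻¹ ((s ^ (k - 1)) x.1) = (s ^ (k - 2)) x.1 := by
      rw [Perm.inv_eq_iff_eq, ← Perm.mul_apply, ← pow_succ']
      congr 2
      omega
    rw [h1]
    by_cases h2 : k = 2
    · right
      rw [h2]
      simp
    · left
      exact retK_min s P x (by omega) (by omega)

/-- The map of a set of edges. -/
noncomputable def sub (M : BMap) (P : Finset M.T) (hP : Cl M.aa P) (z0 z1 : {x // x ∈ P}) : BMap :=
  { D := {x // x ∈ P}, a := subA M.aa P hP, s := insS (ret M.s P) z0 z1 }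

theorem tri_tt : tri.s (Sum.inl (true, true)) = Sum.inr true := by decide
theorem tri_tf : tri.s (Sum.inl (true, false)) = Sum.inl (false, true) := by decide
theorem tri_ft : tri.s (Sum.inl (false, true)) = Sum.inl (true, false) := by decide
theorem tri_ff : tri.s (Sum.inl (false, false)) = Sum.inr false := by decide
theorem tri_t : tri.s (Sum.inr true) = Sum.inl (true, true) := by decide
theorem tri_f : tri.s (Sum.inr false) = Sum.inl (false, false) := by decide

section glue
variable (M : BMap) (A B : Finset M.T) (hA : Cl M.aa A) (hB : Cl M.aa B)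
  (z0 z1 : {x // x ∈ A}) (w0 w1 : {x // x ∈ B})
  (h1 : (sub M A hA z0 z1).IsGood) (h2 : (sub M B hB w0 w1).IsGood)

/-- The darts of the composition as darts of `M`. -/
def glueD : ∀ i : Bool, (serNets ⟨sub M A hA z0 z1, h1⟩ ⟨sub M B hB w0 w1, h2⟩ i).1.D → M.T
  | true => fun x : {x // x ∈ A} => x.1
  | false => fun x : {x // x ∈ B} => x.1

def glue : (serMap ⟨sub M A hA z0 z1, h1⟩ ⟨sub M B hB w0 w1, h2⟩).T → M.T :=
  Sum.elim (fun p : Σ i : Bool, (serNets ⟨sub M A hA z0 z1, h1⟩ ⟨sub M B hB w0 w1, h2⟩ i).1.D =>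
    glueD M A B hA hB z0 z1 w0 w1 h1 h2 p.1 p.2) Sum.inr

theorem glue_true (x : {x // x ∈ A}) :
    glue M A B hA hB z0 z1 w0 w1 h1 h2 (Sum.inl ⟨true, x⟩) = x.1 := rfl

theorem glue_false (x : {x // x ∈ B}) :
    glue M A B hA hB z0 z1 w0 w1 h1 h2 (Sum.inl ⟨false, x⟩) = x.1 := rfl

theorem glue_inr (b : Bool) :
    glue M A B hA hB z0 z1 w0 w1 h1 h2 (Sum.inr b) = Sum.inr b := rfl

theorem glue_aa (t) : glue M A B hA hB z0 z1 w0 w1 h1 h2
    ((serMap ⟨sub M A hA z0 z1, h1⟩ ⟨sub M B hB w0 w1, h2⟩).aa t) =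
      M.aa (glue M A B hA hB z0 z1 w0 w1 h1 h2 t) := by
  rcases t with ⟨i, x⟩ | b
  · cases i
    · rfl
    · rfl
  · rfl

theorem fstD_true (hz : z0 ≠ z1) :
    fstD ⟨sub M A hA z0 z1, h1⟩ true = ret M.s A z0 := by
  have e1 := fstD_spec ⟨sub M A hA z0 z1, h1⟩ true
  have e2 : (sub M A hA z0 z1).s (Sum.inr true) = Sum.inl (ret M.s A z0) := insS_true _ hz
  exact Sum.inl_injective (e1.symm.trans e2)

theorem fstD_false (hz : z0 ≠ z1) :
    fstD ⟨sub M A hA z0 z1, h1⟩ false = ret M.s A z1 := by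
  have e1 := fstD_spec ⟨sub M A hA z0 z1, h1⟩ false
  have e2 : (sub M A hA z0 z1).s (Sum.inr false) = Sum.inl (ret M.s A z1) := insS_false _ hz
  exact Sum.inl_injective (e1.symm.trans e2)

theorem sub_s_in {z0 z1 : {x // x ∈ A}} (hz : z0 ≠ z1) {x : {x // x ∈ A}} (hx0 : x ≠ z0)
    (hx1 : x ≠ z1) (hx : M.s x ∈ A) : (sub M A hA z0 z1).s (Sum.inl x) = Sum.inl ⟨M.s x, hx⟩ := by
  have e1 : (sub M A hA z0 z1).s (Sum.inl x) = Sum.inl (ret M.s A x) := insS_inl _ hz hx0 hx1
  rw [e1, ret_of_mem M.s A x hx]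
  rfl

theorem glue_s (hz : z0 ≠ z1) (hw : w0 ≠ w1) (hz0 : M.s z0 = Sum.inr true)
    (hz1 : (ret M.s B w0).1 = M.s z1) (hw0 : (ret M.s A z1).1 = M.s w0)
    (hw1 : M.s w1 = Sum.inr false) (hr1 : (ret M.s A z0).1 = M.s (Sum.inr true))
    (hr0 : (ret M.s B w1).1 = M.s (Sum.inr false))
    (hAin : ∀ z : {x // x ∈ A}, z ≠ z0 → z ≠ z1 → M.s z ∈ A)
    (hBin : ∀ z : {x // x ∈ B}, z ≠ w0 → z ≠ w1 → M.s z ∈ B) (t) :
    glue M A B hA hB z0 z1 w0 w1 h1 h2
      ((serMap ⟨sub M A hA z0 z1, h1⟩ ⟨sub M B hB w0 w1, h2⟩).s t) =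
      M.s (glue M A B hA hB z0 z1 w0 w1 h1 h2 t) := by
  rcases t with ⟨i, x⟩ | b
  · cases i
    · -- the second net
      change {x // x ∈ B} at x
      rw [glue_false]
      by_cases hx0 : x = w0
      · subst hx0
        have e1 : (sub M B hB x w1).s (Sum.inl x) = Sum.inr true := insS_c0 _ hw
        have e2 := comp_s_out tri (serNets ⟨sub M A hA z0 z1, h1⟩ ⟨sub M B hB x w1, h2⟩)
          (i := false) (d := x) (b := true) e1
        rw [tri_ft] at e2
        unfold serMap
        rw [e2, ← hw0]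
        exact congrArg Subtype.val (fstD_false M A hA z0 z1 h1 hz)
      · by_cases hx1 : x = w1
        · subst hx1
          have e1 : (sub M B hB w0 x).s (Sum.inl x) = Sum.inr false := insS_c1 _ hw
          have e2 := comp_s_out tri (serNets ⟨sub M A hA z0 z1, h1⟩ ⟨sub M B hB w0 x, h2⟩)
            (i := false) (d := x) (b := false) e1
          rw [tri_ff] at e2
          unfold serMap
          rw [e2, hw1]
          rfl
        · have e1 := sub_s_in M B hB hw hx0 hx1 (hBin x hx0 hx1)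
          have e2 := comp_s_in tri (serNets ⟨sub M A hA z0 z1, h1⟩ ⟨sub M B hB w0 w1, h2⟩)
            (i := false) (d := x) (d' := ⟨M.s x, hBin x hx0 hx1⟩) e1
          unfold serMap
          rw [e2]
          rfl
    · change {x // x ∈ A} at x
      rw [glue_true]
      by_cases hx0 : x = z0
      · subst hx0
        have e1 : (sub M A hA x z1).s (Sum.inl x) = Sum.inr true := insS_c0 _ hz
        have e2 := comp_s_out tri (serNets ⟨sub M A hA x z1, h1⟩ ⟨sub M B hB w0 w1, h2⟩)
          (i := true) (d := x) (b := true) e1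
        rw [tri_tt] at e2
        unfold serMap
        rw [e2, hz0]
        rfl
      · by_cases hx1 : x = z1
        · subst hx1
          have e1 : (sub M A hA z0 x).s (Sum.inl x) = Sum.inr false := insS_c1 _ hz
          have e2 := comp_s_out tri (serNets ⟨sub M A hA z0 x, h1⟩ ⟨sub M B hB w0 w1, h2⟩)
            (i := true) (d := x) (b := false) e1
          rw [tri_tf] at e2
          unfold serMap
          rw [e2, ← hz1]
          exact congrArg Subtype.val (fstD_true M B hB w0 w1 h2 hw)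
        · have e1 := sub_s_in M A hA hz hx0 hx1 (hAin x hx0 hx1)
          have e2 := comp_s_in tri (serNets ⟨sub M A hA z0 z1, h1⟩ ⟨sub M B hB w0 w1, h2⟩)
            (i := true) (d := x) (d' := ⟨M.s x, hAin x hx0 hx1⟩) e1
          unfold serMap
          rw [e2]
          rfl
  · rw [glue_inr]
    cases b
    · have e2 := comp_s_root tri (serNets ⟨sub M A hA z0 z1, h1⟩ ⟨sub M B hB w0 w1, h2⟩) false
      rw [tri_f] at e2
      unfold serMap
      rw [e2, ← hr0]
      exact congrArg Subtype.val (fstD_false M B hB w0 w1 h2 hw)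
    · have e2 := comp_s_root tri (serNets ⟨sub M A hA z0 z1, h1⟩ ⟨sub M B hB w0 w1, h2⟩) true
      rw [tri_t] at e2
      unfold serMap
      rw [e2, ← hr1]
      exact congrArg Subtype.val (fstD_true M A hA z0 z1 h1 hz)

theorem glue_bij (hAB : ∀ x, x ∈ B → x ∉ A) (hr1A : Sum.inr true ∉ A) (hr0A : Sum.inr false ∉ A)
    (hr1B : Sum.inr true ∉ B) (hr0B : Sum.inr false ∉ B)
    (htri : ∀ x : M.T, x ∈ A ∨ x ∈ B ∨ x = Sum.inr true ∨ x = Sum.inr false) :
    Function.Bijective (glue M A B hA hB z0 z1 w0 w1 h1 h2) := by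
  constructor
  · rintro (⟨i, x⟩ | b) (⟨j, y⟩ | c) e
    · cases i <;> cases j
      · change {x // x ∈ B} at x
        change {x // x ∈ B} at y
        rw [glue_false, glue_false] at e
        rw [Subtype.ext e]
      · exfalso
        change {x // x ∈ B} at x
        change {x // x ∈ A} at y
        rw [glue_false, glue_true] at e
        apply hAB _ x.2
        rw [e]
        exact y.2
      · exfalso
        change {x // x ∈ A} at x
        change {x // x ∈ B} at y
        rw [glue_false, glue_true] at e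
        apply hAB _ y.2
        rw [← e]
        exact x.2
      · change {x // x ∈ A} at x
        change {x // x ∈ A} at y
        rw [glue_true, glue_true] at e
        rw [Subtype.ext e]
    · exfalso
      cases i
      · change {x // x ∈ B} at x
        rw [glue_false, glue_inr] at e
        have := x.2
        rw [e] at this
        cases c
        · exact hr0B this
        · exact hr1B this
      · change {x // x ∈ A} at x
        rw [glue_true, glue_inr] at e
        have := x.2
        rw [e] at this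
        cases c
        · exact hr0A this
        · exact hr1A this
    · exfalso
      cases j
      · change {x // x ∈ B} at y
        rw [glue_false, glue_inr] at e
        have := y.2
        rw [← e] at this
        cases b
        · exact hr0B this
        · exact hr1B this
      · change {x // x ∈ A} at y
        rw [glue_true, glue_inr] at e
        have := y.2
        rw [← e] at this
        cases b
        · exact hr0A this
        · exact hr1A this
    · rw [glue_inr, glue_inr] at e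
      have := Sum.inr_injective e
      rw [this]
  · intro x
    rcases htri x with h3 | h3 | h3 | h3
    · exact ⟨Sum.inl ⟨true, (⟨x, h3⟩ : {x // x ∈ A})⟩, rfl⟩
    · exact ⟨Sum.inl ⟨false, (⟨x, h3⟩ : {x // x ∈ B})⟩, rfl⟩
    · exact ⟨Sum.inr true, h3.symm⟩
    · exact ⟨Sum.inr false, h3.symm⟩

end glue

end SerSurj

open SerSurj

theorem exists_serMap {M : BMap} (h : M.IsGood) (hs : IsSer M) :
    ∃ N₁ N₂ : GB, ¬ IsSer N₁.1 ∧ BIso M (serMap N₁ N₂) := by
  classical
  -- the minimal series prefix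
  obtain ⟨A, ⟨hA, hAs⟩, hmin⟩ : ∃ A : Finset M.T, (Pref M A ∧ M.s⁻¹ (Sum.inr true) ∈ A) ∧
      ∀ A' : Finset M.T, (Pref M A' ∧ M.s⁻¹ (Sum.inr true) ∈ A') → A.card ≤ A'.card := by
    obtain ⟨A₀, hA₀⟩ := hs
    have hne : (univ.filter fun A : Finset M.T => Pref M A ∧ M.s⁻¹ (Sum.inr true) ∈ A).Nonempty :=
      ⟨A₀, by rw [mem_filter]; exact ⟨mem_univ _, hA₀⟩⟩
    obtain ⟨A, hA, hm⟩ := exists_min_image _ (fun A : Finset M.T => A.card) hne
    rw [mem_filter] at hA
    refine ⟨A, hA.2, fun A' hA' => hm A' ?_⟩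
    rw [mem_filter]
    exact ⟨mem_univ _, hA'⟩
  obtain ⟨he1, he2⟩ := hA.ends h hAs
  set s := M.s with hsdef
  set r1 : M.T := Sum.inr true with hr1
  set r0 : M.T := Sum.inr false with hr0
  have haa : M.aa r1 = r0 := rfl
  have hr1A : r1 ∉ A := hA.root
  have hr0A : r0 ∉ A := by
    intro h1
    have h2 := (hA.cl r1).1 (by rw [haa]; exact h1)
    exact hr1A h2
  have hne10 : r1 ≠ r0 := by simp [hr1, hr0]
  -- the second part
  set B : Finset M.T := (A ∪ M.root)ᶜ with hB
  have hroot : ∀ x, x ∈ M.root ↔ x = r1 ∨ x = r0 := by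
    intro x
    simp [BMap.root, hr1, hr0]
  have hrootcl : Cl M.aa M.root := by
    have := Cl_pair h.inv r1
    rw [haa] at this
    exact this
  have hBcl : Cl M.aa B := (hA.cl.union hrootcl).compl
  have hmemB : ∀ x, x ∈ B ↔ x ∉ A ∧ x ≠ r1 ∧ x ≠ r0 := by
    intro x
    rw [hB, mem_compl, mem_union, hroot]
    tauto
  have htri : ∀ x, x ∈ A ∨ x ∈ B ∨ x = r1 ∨ x = r0 := by
    intro x
    rw [hmemB]
    tauto
  have hcutA : cut s A = 4 := hA.cut4
  have hcutB : cut s B = 4 := by
    rw [hB, cut_compl]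
    exact hA.cut4'
  have hs1 : s r1 ∈ A := hA.fst
  have hs0 : s r0 ∈ B := by
    rw [hmemB]
    refine ⟨he1, ?_, ?_⟩
    · intro h1
      apply hr0A
      have h2 : r0 = s⁻¹ r1 := by rw [← h1, inv_self]
      rw [h2]
      exact hAs
    · exact h.s_ne r0
  have hs0' : s⁻¹ r0 ∈ B := by
    rw [hmemB]
    refine ⟨he2, ?_, ?_⟩
    · intro h1
      have h2 : s r1 = r0 := by rw [← h1, self_inv]
      exact hr0A (by rw [← h2]; exact hs1)
    · intro h1
      have h2 : s r0 = r0 := by
        have h3 : s (s⁻¹ r0) = r0 := self_inv _ _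
        rw [h1] at h3
        exact h3
      exact h.s_ne r0 h2
  -- last darts of `A`
  obtain ⟨z1t, z1f, hz1ne, hz1t, hz1f, hz1all⟩ : ∃ z0 z1 : {x // x ∈ A}, z0 ≠ z1 ∧
      s z0 = r1 ∧ s z1 ∉ A ∧ ∀ z ∈ A, s z ∉ A → z = z0 ∨ z = z1 := by
    obtain ⟨z0, z1, h1, h2, h3, h4⟩ := exists_last hcutA
    have h5 : s (s⁻¹ r1) = r1 := self_inv _ _
    rcases h4 (s⁻¹ r1) hAs (by rw [h5]; exact hr1A) with h6 | h6
    · exact ⟨z0, z1, h1, by rw [← h6, h5], h3, h4⟩
    · exact ⟨z1, z0, h1.symm, by rw [← h6, h5], h2, fun z hz hz' => (h4 z hz hz').symm⟩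
  have hz1fB : s z1f ∈ B := by
    rcases htri (s z1f) with h1 | h1 | h1 | h1
    · exact absurd h1 hz1f
    · exact h1
    · exfalso
      apply hz1ne
      apply Subtype.ext
      apply s.injective
      rw [h1, hz1t]
    · exfalso
      apply he2
      have h2 : s⁻¹ r0 = z1f.1 := by rw [← h1, inv_self]
      rw [h2]
      exact z1f.2
  -- last darts of `B`
  obtain ⟨z2t, z2f, hz2ne, hz2t, hz2f, hz2all⟩ : ∃ z0 z1 : {x // x ∈ B}, z0 ≠ z1 ∧
      s z0 ∉ B ∧ s z1 = r0 ∧ ∀ z ∈ B, s z ∉ B → z = z0 ∨ z = z1 := by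
    obtain ⟨z0, z1, h1, h2, h3, h4⟩ := exists_last hcutB
    have h5 : s (s⁻¹ r0) = r0 := self_inv _ _
    have h5' : s (s⁻¹ r0) ∉ B := by
      rw [h5, hmemB]
      tauto
    rcases h4 (s⁻¹ r0) hs0' h5' with h6 | h6
    · exact ⟨z1, z0, h1.symm, h3, by rw [← h6, h5], fun z hz hz' => (h4 z hz hz').symm⟩
    · exact ⟨z0, z1, h1, h2, by rw [← h6, h5], h4⟩
  have hz2tA : s z2t ∈ A := by
    rcases htri (s z2t) with h1 | h1 | h1 | h1
    · exact h1
    · exact absurd h1 hz2t
    · exfalso
      have h2 : s⁻¹ r1 = z2t.1 := by rw [← h1, inv_self]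
      rw [h2] at hAs
      exact ((hmemB _).1 z2t.2).1 hAs
    · exfalso
      apply hz2ne
      apply Subtype.ext
      apply s.injective
      rw [h1, hz2f]
  -- first returns
  have hAB : ∀ x, x ∈ B → x ∉ A := fun x hx => ((hmemB x).1 hx).1
  have hr1B : r1 ∉ B := fun hx => ((hmemB _).1 hx).2.1 rfl
  have hr0B : r0 ∉ B := fun hx => ((hmemB _).1 hx).2.2 rfl
  have hret1t : (ret s A z1t).1 = s r1 := by
    have h1 : (s ^ 2) z1t.1 = s r1 := by
      rw [pow_two, Perm.mul_apply, hz1t]
    have h2 := ret_spec s A z1t (k := 2) (by norm_num) (by rw [h1]; exact hs1) (by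
      intro i hi hi'
      have h3 : i = 1 := by omega
      rw [h3, pow_one, hz1t]
      exact hr1A)
    rw [h2]
    exact h1
  have hret2f : (ret s B z2f).1 = s r0 := by
    have h1 : (s ^ 2) z2f.1 = s r0 := by
      rw [pow_two, Perm.mul_apply, hz2f]
    have h2 := ret_spec s B z2f (k := 2) (by norm_num) (by rw [h1]; exact hs0) (by
      intro i hi hi'
      have h3 : i = 1 := by omega
      rw [h3, pow_one, hz2f]
      exact hr0B)
    rw [h2]
    exact h1
  have hret1f : (ret s A z1f).1 = s z2t := by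
    obtain ⟨y, hy1, hy2, hy3⟩ := before_ret s A z1f hz1f
    rw [← hy2]
    congr 1
    have hyA : s y ∈ A := by rw [hy2]; exact (ret s A z1f).2
    rcases htri y with h1 | h1 | h1 | h1
    · exact absurd h1 hy1
    · rcases hz2all y h1 (fun h2 => hAB _ h2 hyA) with h2 | h2
      · exact h2
      · exfalso
        rw [h2, hz2f] at hyA
        exact hr0A hyA
    · exfalso
      rw [h1] at hy3
      have h2 : s⁻¹ r1 = z1t.1 := by rw [← hz1t, inv_self]
      rw [h2] at hy3
      rcases hy3 with h3 | h3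
      · exact h3 z1t.2
      · exact hz1ne (Subtype.ext h3)
    · exfalso
      rw [h1] at hyA
      exact hAB _ hs0 hyA
  have hret2t : (ret s B z2t).1 = s z1f := by
    obtain ⟨y, hy1, hy2, hy3⟩ := before_ret s B z2t hz2t
    rw [← hy2]
    congr 1
    have hyB : s y ∈ B := by rw [hy2]; exact (ret s B z2t).2
    rcases htri y with h1 | h1 | h1 | h1
    · rcases hz1all y h1 (hAB _ hyB) with h2 | h2
      · exfalso
        rw [h2, hz1t] at hyB
        exact hr1B hyB
      · exact h2
    · exact absurd h1 hy1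
    · exfalso
      rw [h1] at hyB
      exact hAB _ hyB hs1
    · exfalso
      rw [h1] at hy3
      have h2 : s⁻¹ r0 = z2f.1 := by rw [← hz2f, inv_self]
      rw [h2] at hy3
      rcases hy3 with h3 | h3
      · exact h3 z2f.2
      · exact hz2ne (Subtype.ext h3.symm)
  have hz1t' : s z1t ∉ A := by rw [hz1t]; exact hr1A
  have hz2f' : s z2f ∉ B := by rw [hz2f]; exact hr0B
  have g1 : (sub M A hA.cl z1t z1f).IsGood := Good.subMap h hA.cl hcutA hz1t' hz1f hz1ne
  have g2 : (sub M B hBcl z2t z2f).IsGood := Good.subMap h hBcl hcutB hz2t hz2f' hz2ne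
  have hAin : ∀ z : {x // x ∈ A}, z ≠ z1t → z ≠ z1f → M.s z ∈ A := by
    intro z h1 h2
    by_contra h3
    rcases hz1all z.1 z.2 h3 with h4 | h4
    · exact h1 (Subtype.ext h4)
    · exact h2 (Subtype.ext h4)
  have hBin : ∀ z : {x // x ∈ B}, z ≠ z2t → z ≠ z2f → M.s z ∈ B := by
    intro z h1 h2
    by_contra h3
    rcases hz2all z.1 z.2 h3 with h4 | h4
    · exact h1 (Subtype.ext h4)
    · exact h2 (Subtype.ext h4)
  refine ⟨⟨sub M A hA.cl z1t z1f, g1⟩, ⟨sub M B hBcl z2t z2f, g2⟩, ?_, ?_⟩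
  · -- the first net is not series
    rintro ⟨A₁, hA₁, hs₁⟩
    change Finset ({x // x ∈ A} ⊕ Bool) at A₁
    set A' : Finset M.T := univ.filter fun x => ∃ hx : x ∈ A,
      (Sum.inl ⟨x, hx⟩ : {x // x ∈ A} ⊕ Bool) ∈ A₁ with hA'
    have hmem : ∀ x, x ∈ A' ↔ ∃ hx : x ∈ A, (Sum.inl ⟨x, hx⟩ : {x // x ∈ A} ⊕ Bool) ∈ A₁ := by
      intro x
      simp [hA']
    have hsub : A' ⊆ A := by
      intro x hx
      exact ((hmem x).1 hx).1
    have hr1' : r1 ∉ A' := fun hx => hr1A (hsub hx)
    have hr0' : r0 ∉ A' := fun hx => hr0A (hsub hx)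
    have hroot1 : (Sum.inr true : {x // x ∈ A} ⊕ Bool) ∉ A₁ := hA₁.root
    have hroot0 : (Sum.inr false : {x // x ∈ A} ⊕ Bool) ∉ A₁ := by
      intro h1
      exact hroot1 ((hA₁.cl (Sum.inr true)).1 h1)
    have hcl' : Cl M.aa A' := by
      have hdir : ∀ x, x ∈ A' → M.aa x ∈ A' := by
        intro x hx
        obtain ⟨h1, h2⟩ := (hmem x).1 hx
        rw [hmem]
        exact ⟨(hA.cl x).2 h1, (hA₁.cl (Sum.inl ⟨x, h1⟩)).2 h2⟩
      intro x
      constructor
      · intro hx
        have := hdir _ hx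
        rwa [show M.aa (M.aa x) = x from h.inv x] at this
      · exact hdir x
    have hz1tA' : z1t.1 ∈ A' := by
      rw [hmem]
      refine ⟨z1t.2, ?_⟩
      have h1 : (sub M A hA.cl z1t z1f).s⁻¹ (Sum.inr true) = Sum.inl z1t := by
        rw [Perm.inv_eq_iff_eq]
        exact (insS_c0 _ hz1ne).symm
      have h2 : (sub M A hA.cl z1t z1f).s⁻¹ (Sum.inr true) ∈ A₁ := hs₁
      rw [h1] at h2
      exact h2
    have hfst' : s r1 ∈ A' := by
      rw [hmem]
      refine ⟨hs1, ?_⟩
      have h1 : (sub M A hA.cl z1t z1f).s (Sum.inr true) = Sum.inl (ret s A z1t) :=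
        insS_true _ hz1ne
      have h2 : (sub M A hA.cl z1t z1f).s (Sum.inr true) ∈ A₁ := hA₁.fst
      rw [h1] at h2
      have h3 : ret s A z1t = ⟨s r1, hs1⟩ := Subtype.ext hret1t
      rw [h3] at h2
      exact h2
    -- leaving darts
    set L : Finset M.T := univ.filter fun t => t ∈ A' ∧ s t ∉ A' with hL
    have hLcard : L.card ≤ 2 := by
      set p : Perm ({x // x ∈ A} ⊕ Bool) := insS (ret s A) z1t z1f with hp
      set L₁ : Finset ({x // x ∈ A} ⊕ Bool) := univ.filter fun t => t ∈ A₁ ∧ p t ∉ A₁ with hL₁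
      have h1 : L₁.card = 2 := by
        have h2 := cut_eq_two_mul p A₁
        have h3 : cut p A₁ = 4 := hA₁.cut4
        have h4 : cut p A₁ = 2 * L₁.card := by
          rw [h2]
        omega
      rw [← h1]
      have h5 : L ⊆ L₁.image (Sum.elim (fun x => x.1) Sum.inr) := by
        intro t ht
        rw [hL, mem_filter] at ht
        obtain ⟨-, ht1, ht2⟩ := ht
        obtain ⟨h6, h7⟩ := (hmem t).1 ht1
        rw [mem_image]
        refine ⟨Sum.inl ⟨t, h6⟩, ?_, rfl⟩
        rw [hL₁, mem_filter]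
        refine ⟨mem_univ _, h7, ?_⟩
        by_cases e0 : (⟨t, h6⟩ : {x // x ∈ A}) = z1t
        · rw [e0, hp, insS_c0 _ hz1ne]
          exact hroot1
        · by_cases e1 : (⟨t, h6⟩ : {x // x ∈ A}) = z1f
          · rw [e1, hp, insS_c1 _ hz1ne]
            exact hroot0
          · rw [hp, insS_inl _ hz1ne e0 e1, ret_of_mem s A ⟨t, h6⟩ (hAin _ e0 e1)]
            intro h9
            exact ht2 ((hmem _).2 ⟨hAin _ e0 e1, h9⟩)
      exact (card_le_card h5).trans card_image_le
    have hcut1 : cut s A' = 4 := by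
      have h1 := cut_eq_two_mul s A'
      have h2 : 4 ≤ cut s A' := by
        apply h.ns A' hcl' ⟨_, hfst'⟩
        intro e
        apply hr1'
        rw [e]
        exact mem_univ _
      have h3 : cut s A' = 2 * L.card := h1
      omega
    have hcut2 : cut s (A' ∪ M.root) = 4 := by
      have h1 : cut s (A' ∪ M.root) =
          2 * (univ.filter fun t => t ∈ A' ∪ M.root ∧ s t ∉ A' ∪ M.root).card := by
        rw [cut_eq_two_mul]
      have h2 : 4 ≤ cut s (A' ∪ M.root) := by
        apply h.ns _ (hcl'.union hrootcl) ⟨_, mem_union_left _ hfst'⟩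
        intro e
        have h3 : s r0 ∈ A' ∪ M.root := by rw [e]; exact mem_univ _
        rw [mem_union, hroot] at h3
        have h4 := (hmemB _).1 hs0
        rcases h3 with h3 | h3 | h3
        · exact h4.1 (hsub h3)
        · exact h4.2.1 h3
        · exact h4.2.2 h3
      have h3 : (univ.filter fun t => t ∈ A' ∪ M.root ∧ s t ∉ A' ∪ M.root) ⊆
          insert r0 (L.erase z1t.1) := by
        intro t ht
        rw [mem_filter, mem_union, mem_union, hroot, hroot] at ht
        obtain ⟨-, ht1, ht2⟩ := ht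
        push Not at ht2
        rw [mem_insert]
        rcases ht1 with h4 | h4 | h4
        · right
          rw [mem_erase]
          refine ⟨?_, ?_⟩
          · intro h5
            rw [h5] at ht2
            exact ht2.2.1 hz1t
          · rw [hL, mem_filter]
            exact ⟨mem_univ _, h4, ht2.1⟩
        · exfalso
          rw [h4] at ht2
          exact ht2.1 hfst'
        · left; exact h4
      have h4 := card_le_card h3
      have h5 : z1t.1 ∈ L := by
        rw [hL, mem_filter]
        exact ⟨mem_univ _, hz1tA', by rw [hz1t]; exact hr1'⟩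
      have h6 := card_insert_le r0 (L.erase z1t.1)
      rw [card_erase_of_mem h5] at h6
      omega
    have hpref : Pref M A' := by
      refine ⟨hcl', hr1', hfst', ?_, hcut1, hcut2⟩
      intro e
      have h3 : s r0 ∈ A' ∪ M.root := by rw [e]; exact mem_univ _
      rw [mem_union, hroot] at h3
      have h4 := (hmemB _).1 hs0
      rcases h3 with h3 | h3 | h3
      · exact h4.1 (hsub h3)
      · exact h4.2.1 h3
      · exact h4.2.2 h3
    have hser : s⁻¹ r1 ∈ A' := by
      have h2 : s⁻¹ r1 = z1t.1 := by rw [← hz1t, inv_self]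
      rw [h2]
      exact hz1tA'
    have hle := hmin A' ⟨hpref, hser⟩
    have hlt : A'.card < A.card := by
      apply card_lt_card
      rw [ssubset_iff_of_subset hsub]
      have h3 : ∃ y : {x // x ∈ A} ⊕ Bool, y ∉ A₁ ∪ (sub M A hA.cl z1t z1f).root := by
        by_contra h4
        push Not at h4
        exact hA₁.rest (eq_univ_iff_forall.2 h4)
      obtain ⟨y, hy⟩ := h3
      rw [mem_union] at hy
      push Not at hy
      rcases y with ⟨x, hx⟩ | b
      · refine ⟨x, hx, ?_⟩
        intro h5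
        obtain ⟨h6, h7⟩ := (hmem x).1 h5
        exact hy.1 h7
      · exfalso
        apply hy.2
        cases b
        · exact mem_insert_of_mem (mem_singleton_self _)
        · exact mem_insert_self _ _
    omega
  · -- the isomorphism
    apply BIso.symm
    exact ⟨Equiv.ofBijective _ (glue_bij M A B hA.cl hBcl z1t z1f z2t z2f g1 g2 hAB hr1A hr0A
      hr1B hr0B htri),
      fun t => glue_aa M A B hA.cl hBcl z1t z1f z2t z2f g1 g2 t,
      fun t => glue_s M A B hA.cl hBcl z1t z1f z2t z2f g1 g2 hz1ne hz2ne hz1t hret2t hret1f hz2f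
        hret1t hret2f hAin hBin t, rfl⟩

end PGr
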