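import Pool.Agent.PGr.BlockDefs
import Pool.Agent.PGr.PlRestrict
import Pool.Agent.PGr.CutIso

/-! # Module HookGood: the hooked graphs and the block are good -/

set_option linter.unusedSectionVars false

namespace PGr
open Equiv Finset

variable {G : RG} {r : G.D}

/-- a rotation system restricted to a closed set of darts, transported along an equivalence -/
theorem HookGood.planar {T T' V : Type*} [Fintype T] [DecidableEq T] [Fintype T'] [DecidableEq T']
    {a : Perm T} (hinv : ∀ t, a (a t) = t) {inc : T → V}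
    (h : ∃ s : Perm T, (∀ t t', s.SameCycle t t' ↔ inc t = inc t') ∧ Pl a s)
    (S : Finset T) (hS : Cl a S) (e : {x // x ∈ S} ≃ T') {a' : Perm T'}
    (ha : ∀ x : {x // x ∈ S}, ∀ y : {x // x ∈ S}, y.1 = a x.1 → e y = a' (e x)) :
    ∃ s' : Perm T', (∀ t t', s'.SameCycle t t' ↔ inc (e.symm t).1 = inc (e.symm t').1) ∧
      Pl a' s' := by
  obtain ⟨s, hs, hp⟩ := h
  have hp' := hp.restrict hinv S hS
  refine ⟨e.permCongr (ret s S), fun t t' => ?_, ?_⟩
  · have key : ∀ (n : ℤ) (t : T'), ((e.permCongr (ret s S)) ^ n) t =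
        e ((ret s S ^ n) (e.symm t)) := by
      intro n t
      have h2 : (e.permCongr (ret s S)) ^ n = e.permCongr (ret s S ^ n) :=
        (map_zpow (e.permCongrHom) (ret s S) n).symm
      rw [h2]
      rfl
    have h3 : (e.permCongr (ret s S)).SameCycle t t' ↔
        (ret s S).SameCycle (e.symm t) (e.symm t') := by
      constructor
      · rintro ⟨n, hn⟩
        refine ⟨n, ?_⟩
        rw [key] at hn
        rw [← hn, Equiv.symm_apply_apply]
      · rintro ⟨n, hn⟩
        refine ⟨n, ?_⟩
        rw [key, hn, Equiv.apply_symm_apply]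
    rw [h3, sameCycle_ret, hs]
  · refine Pl_iso e (a := subA a S hS) (s := ret s S) (fun t => ?_) (fun t => ?_) hp'
    · exact ha t _ rfl
    · simp

theorem Hook.rg_good (hG : G.IsGood) (X : Hook G r) (hr : G.inc r = G.v0) (c : G.V) :
    (X.rg c).IsGood := by
  refine ⟨?_, ?_, ?_, ?_, ?_, ?_⟩
  · intro d; exact Subtype.ext (hG.inv d.1)
  · intro d h; exact hG.fpf d.1 (congrArg Subtype.val h)
  · intro d h; exact hG.loop d.1 (congrArg Subtype.val h)
  · intro d d' h h'
    exact Subtype.ext (hG.simp d.1 d'.1 (congrArg Subtype.val h) (congrArg Subtype.val h'))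
  · intro Y hY hne
    classical
    let Z : Finset G.V := univ.filter fun z =>
      ∀ h : z = c ∨ ∃ d, X.hook d = some c ∧ G.inc d = z, (⟨z, h⟩ : (X.rg c).V) ∈ Y
    have hZ : ∀ z, z ∈ Z ↔ ∀ h : z = c ∨ ∃ d, X.hook d = some c ∧ G.inc d = z,
        (⟨z, h⟩ : (X.rg c).V) ∈ Y := fun z => by simp only [Z, mem_filter, mem_univ, true_and]
    have hc : ∀ h : c = c ∨ ∃ d, X.hook d = some c ∧ G.inc d = c, (⟨c, h⟩ : (X.rg c).V) ∈ Y :=
      fun h => hY
    have h0 : G.v0 ∈ Z := by
      rw [hZ]
      intro h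
      have hv : G.v0 = c := by
        rcases h with h | ⟨d, hd, hd'⟩
        · exact h
        · rw [← hd']
          exact X.share d r c hd (by rw [X.root]; simp) (by rw [hd', hr])
      have : (⟨G.v0, h⟩ : (X.rg c).V) = ⟨c, Or.inl rfl⟩ := Subtype.ext hv
      rw [this]; exact hc _
    have h1 : Z ≠ univ := by
      intro hu
      apply hne
      ext y
      simp only [mem_univ, iff_true]
      have : y.1 ∈ Z := by rw [hu]; exact mem_univ _
      exact (hZ _).1 this y.2
    obtain ⟨d, hd1, hd2⟩ := hG.conn Z h0 h1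
    rw [hZ] at hd1 hd2
    push Not at hd2
    obtain ⟨hm, hn⟩ := hd2
    have hzc : G.inc (G.a d) ≠ c := by
      intro h
      apply hn
      have : (⟨G.inc (G.a d), hm⟩ : (X.rg c).V) = ⟨c, Or.inl rfl⟩ := Subtype.ext h
      rw [this]; exact hc _
    have hhook : X.hook d = some c := by
      rcases hm with h | ⟨d', hd', hd''⟩
      · exact absurd h hzc
      · by_contra hcon
        have := X.share d' (G.a d) c hd' (by rw [X.hh]; exact hcon) hd''
        exact hzc (hd''.symm.trans this)
    exact ⟨⟨d, hhook⟩, hd1 _, hn⟩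
  · classical
    let S : Finset G.D := univ.filter fun d => X.hook d = some c
    have hmem : ∀ d, d ∈ S ↔ X.hook d = some c := fun d => by simp [S]
    have hS : Cl G.a S := fun d => by rw [hmem, hmem, X.hh]
    let e : {x // x ∈ S} ≃ (X.rg c).D := Equiv.subtypeEquivRight hmem
    obtain ⟨s', h1, h2⟩ := HookGood.planar hG.inv hG.planar S hS e (a' := (X.rg c).a)
      (fun x y hxy => Subtype.ext hxy)
    refine ⟨s', fun t t' => ?_, h2⟩
    rw [h1]
    constructor
    · intro h; exact Subtype.ext h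
    · intro h; exact congrArg Subtype.val h

/-- the rooted graphs hooked at a vertex different from the root are smaller -/
theorem Hook.rg_size (X : Hook G r) {c : G.V} (hc : c ≠ G.inc r) : (X.rg c).size < G.size := by
  unfold RG.size
  refine Fintype.card_subtype_lt (x := G.inc r) ?_
  rintro (h | ⟨d, hd, hd'⟩)
  · exact hc h.symm
  · exact hc ((X.share d r c hd (by rw [X.root]; simp) hd').symm.trans hd')

/-- the root of a piece is not a hook -/
theorem Hook.not_root (hG : G.IsGood) (hP : Piece G) (X : Hook G r) (hr : G.inc r = G.v0) (d : G.D) :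
    X.hook d ≠ some G.v0 := by
  intro hd
  classical
  obtain ⟨x, hx, ⟨t, ht, htx⟩, t', ht', htx'⟩ := hP.2
    (univ.filter fun d => X.hook d = some G.v0)
    (fun d => by simp only [mem_filter, mem_univ, true_and, X.hh])
    ⟨d, by simpa using hd⟩
    (fun hu => by
      have : r ∈ (univ.filter fun d => X.hook d = some G.v0) := by rw [hu]; exact mem_univ _
      rw [mem_filter, X.root] at this
      simp at this)
  simp only [mem_filter, mem_univ, true_and] at ht ht'
  exact hx (htx.symm.trans (X.share t t' _ ht ht' (htx.trans htx'.symm)))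

theorem Hook.net_pole_ne (hG : G.IsGood) (X : Hook G r) (lab : X.BV → RC) :
    (X.net hG.inv lab).pole true ≠ (X.net hG.inv lab).pole false := by
  intro h
  exact hG.loop r (congrArg Subtype.val h).symm

theorem Hook.net_good (hG : G.IsGood) (X : Hook G r) (lab : X.BV → RC)
    (hne : Nonempty {d : G.D // X.hook d = none ∧ d ≠ r ∧ d ≠ G.a r}) :
    (X.net hG.inv lab).IsGood ∧ ¬ Direct (X.net hG.inv lab) := by
  classical
  have hra : G.a r ≠ r := hG.fpf r
  -- all darts of the block
  have hsur : ∀ d, X.hook d = none → ∃ t : (X.net hG.inv lab).T,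
      ((X.net hG.inv lab).inc t).1 = G.inc d ∧
      ((∃ h, t = Sum.inl ⟨d, h⟩) ∨ (d = r ∧ t = Sum.inr true) ∨ (d = G.a r ∧ t = Sum.inr false)) := by
    intro d hd
    by_cases h1 : d = r
    · exact ⟨Sum.inr true, by rw [h1]; rfl, Or.inr (Or.inl ⟨h1, rfl⟩)⟩
    · by_cases h2 : d = G.a r
      · exact ⟨Sum.inr false, by rw [h2]; rfl, Or.inr (Or.inr ⟨h2, rfl⟩)⟩
      · exact ⟨Sum.inl ⟨d, hd, h1, h2⟩, rfl, Or.inl ⟨_, rfl⟩⟩
  refine ⟨⟨?_, ?_, hne, ?_, ?_, ?_, ?_, ?_⟩, ?_⟩
  · intro d; exact Subtype.ext (hG.inv d.1)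
  · intro d h; exact hG.fpf d.1 (congrArg Subtype.val h)
  · rintro ⟨z, d, hd, hz⟩
    obtain ⟨t, ht, _⟩ := hsur d hd
    exact ⟨t, Subtype.ext (ht.trans hz)⟩
  · rintro (d | b) h
    · exact hG.loop d.1 (congrArg Subtype.val h)
    · cases b
      · exact X.net_pole_ne hG lab h
      · exact X.net_pole_ne hG lab h.symm
  · intro d d' h h'
    exact Subtype.ext (hG.simp d.1 d'.1 (congrArg Subtype.val h) (congrArg Subtype.val h'))
  · -- two
    have main : ∀ A : Finset (X.net hG.inv lab).T, Cl (X.net hG.inv lab).aa A → A.Nonempty →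
        Sum.inr true ∉ A → ∃ x y, x ≠ y ∧ Sh (X.net hG.inv lab).inc A x ∧
          Sh (X.net hG.inv lab).inc A y := by
      intro A hA hAne hroot
      have hroot' : Sum.inr false ∉ A := by
        intro h
        exact hroot ((hA (Sum.inr true)).1 h)
      let A' : Finset G.D := univ.filter fun d => ∃ h, (Sum.inl ⟨d, h⟩ : (X.net hG.inv lab).T) ∈ A
      have hA' : ∀ d, d ∈ A' ↔ ∃ h, (Sum.inl ⟨d, h⟩ : (X.net hG.inv lab).T) ∈ A := fun d => by
        simp only [A', mem_filter, mem_univ, true_and]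
      have hcl1 : ∀ d, d ∈ A' → G.a d ∈ A' := by
        intro d hd
        rw [hA'] at hd ⊢
        obtain ⟨h, hm⟩ := hd
        refine ⟨((X.net hG.inv lab).a ⟨d, h⟩).2, ?_⟩
        exact (hA (Sum.inl ⟨d, h⟩)).2 hm
      have hcl : Cl G.a A' := fun d =>
        ⟨fun h => by have := hcl1 _ h; rwa [hG.inv] at this, hcl1 d⟩
      obtain ⟨x, y, hxy, ⟨⟨d1, hd1, hx1⟩, d2, hd2, hn2, hx2⟩, ⟨d3, hd3, hy3⟩, d4, hd4, hn4, hy4⟩ :=
        X.ns A' hcl (fun d hd => by rw [hA'] at hd; exact hd.choose.1)
          (by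
            obtain ⟨t, ht⟩ := hAne
            rcases t with d | b
            · exact ⟨d.1, by rw [hA']; exact ⟨d.2, ht⟩⟩
            · cases b
              · exact absurd ht hroot'
              · exact absurd ht hroot)
          (by rw [hA']; rintro ⟨h, _⟩; exact h.2.1 rfl)
      have conv : ∀ (z : G.V) (d d' : G.D), d ∈ A' → G.inc d = z → d' ∉ A' → X.hook d' = none →
          G.inc d' = z → ∃ z' : X.BV, z'.1 = z ∧ Sh (X.net hG.inv lab).inc A z' := by
        intro z d d' hd hz hd' hn hz'
        rw [hA'] at hd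
        obtain ⟨h, hm⟩ := hd
        refine ⟨⟨z, d, h.1, hz⟩, rfl, ⟨Sum.inl ⟨d, h⟩, hm, Subtype.ext hz⟩, ?_⟩
        obtain ⟨t, ht, hcase⟩ := hsur d' hn
        refine ⟨t, ?_, Subtype.ext (ht.trans hz')⟩
        rcases hcase with ⟨h', rfl⟩ | ⟨_, rfl⟩ | ⟨_, rfl⟩
        · intro hmem
          exact hd' ((hA' d').2 ⟨h', hmem⟩)
        · exact hroot
        · exact hroot'
      obtain ⟨x', hx', hsx⟩ := conv x d1 d2 hd1 hx1 hd2 hn2 hx2
      obtain ⟨y', hy', hsy⟩ := conv y d3 d4 hd3 hy3 hd4 hn4 hy4
      exact ⟨x', y', fun h => hxy (by rw [← hx', ← hy', h]), hsx, hsy⟩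
    intro A hA hAne hAu
    by_cases hroot : (Sum.inr true : (X.net hG.inv lab).T) ∈ A
    · obtain ⟨x, y, hxy, ⟨⟨t1, ht1, hx1⟩, t2, ht2, hx2⟩, ⟨t3, ht3, hy3⟩, t4, ht4, hy4⟩ := main Aᶜ
        (fun t => by rw [mem_compl, mem_compl, hA t])
        (by
          rw [nonempty_iff_ne_empty]
          intro h
          exact hAu (by rwa [compl_eq_empty_iff] at h))
        (by simpa using hroot)
      rw [mem_compl] at ht1 ht2 ht3 ht4
      push Not at ht2 ht4
      exact ⟨x, y, hxy, ⟨⟨t2, ht2, hx2⟩, t1, ht1, hx1⟩, ⟨t4, ht4, hy4⟩, t3, ht3, hy3⟩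
    · exact main A hA hAne hroot
  · -- planarity
    let S : Finset G.D := univ.filter fun d => X.hook d = none
    have hmem : ∀ d, d ∈ S ↔ X.hook d = none := fun d => by simp [S]
    have hS : Cl G.a S := fun d => by rw [hmem, hmem, X.hh]
    let f : {x // x ∈ S} → (X.net hG.inv lab).T := fun x =>
      if h1 : x.1 = r then Sum.inr true else if h2 : x.1 = G.a r then Sum.inr false
        else Sum.inl ⟨x.1, (hmem _).1 x.2, h1, h2⟩
    let g : (X.net hG.inv lab).T → {x // x ∈ S} := fun t =>
      match t with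
      | Sum.inl d => ⟨d.1, (hmem _).2 d.2.1⟩
      | Sum.inr true => ⟨r, (hmem _).2 X.root⟩
      | Sum.inr false => ⟨G.a r, (hmem _).2 (by rw [X.hh, X.root])⟩
    have hfr : ∀ h, f ⟨r, h⟩ = Sum.inr true := fun h => by simp [f]
    have hfar : ∀ h, f ⟨G.a r, h⟩ = Sum.inr false := fun h => by simp [f, hra]
    have hfd : ∀ (x : {x // x ∈ S}) (h1 : x.1 ≠ r) (h2 : x.1 ≠ G.a r),
        f x = Sum.inl ⟨x.1, (hmem _).1 x.2, h1, h2⟩ := fun x h1 h2 => by simp [f, h1, h2]
    have hgf : ∀ x, g (f x) = x := by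
      intro x
      by_cases h1 : x.1 = r
      · have hx : x = ⟨r, h1 ▸ x.2⟩ := Subtype.ext h1
        rw [hx, hfr]
      · by_cases h2 : x.1 = G.a r
        · have hx : x = ⟨G.a r, h2 ▸ x.2⟩ := Subtype.ext h2
          rw [hx, hfar]
        · rw [hfd x h1 h2]
    have hfg : ∀ t, f (g t) = t := by
      rintro (d | b)
      · exact hfd ⟨d.1, (hmem _).2 d.2.1⟩ d.2.2.1 d.2.2.2
      · cases b
        · exact hfar _
        · exact hfr _
    let e : {x // x ∈ S} ≃ (X.net hG.inv lab).T := ⟨f, g, hgf, hfg⟩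
    obtain ⟨s', h1, h2⟩ := HookGood.planar hG.inv hG.planar S hS e (a' := (X.net hG.inv lab).aa)
      (by
        intro x y hxy
        show f y = (X.net hG.inv lab).aa (f x)
        by_cases h1 : x.1 = r
        · have hx : x = ⟨r, h1 ▸ x.2⟩ := Subtype.ext h1
          have hy : y = ⟨G.a r, by rw [hmem, X.hh, X.root]⟩ := Subtype.ext (by rw [hxy, h1])
          rw [hx, hy, hfr, hfar]; rfl
        · by_cases h2 : x.1 = G.a r
          · have hx : x = ⟨G.a r, h2 ▸ x.2⟩ := Subtype.ext h2
            have hy : y = ⟨r, by rw [hmem, X.root]⟩ := Subtype.ext (by rw [hxy, h2, hG.inv])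
            rw [hx, hy, hfr, hfar]; rfl
          · have h3 : y.1 ≠ r := by
              intro h; apply h2; rw [← h, hxy, hG.inv]
            have h4 : y.1 ≠ G.a r := by
              intro h; apply h1; rw [hxy] at h; exact G.a.injective h
            rw [hfd x h1 h2, hfd y h3 h4]
            exact congrArg Sum.inl (Subtype.ext hxy))
    refine ⟨s', fun t t' => ?_, h2⟩
    rw [h1]
    have h5 : ∀ t, G.inc (e.symm t).1 = ((X.net hG.inv lab).inc t).1 := by
      rintro (d | b)
      · rfl
      · cases b <;> rfl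
    rw [h5, h5]
    constructor
    · intro h; exact Subtype.ext h
    · intro h; exact congrArg Subtype.val h
  · rintro ⟨d, h1, h2⟩
    exact d.2.2.1 (hG.simp d.1 r (congrArg Subtype.val h1) (congrArg Subtype.val h2))

theorem Hook.net_empty (hG : G.IsGood) (X : Hook G r) (lab : X.BV → RC)
    (hne : IsEmpty {d : G.D // X.hook d = none ∧ d ≠ r ∧ d ≠ G.a r}) (l : RC) :
    NIso (X.net hG.inv lab) (emptyNet l) := by
  classical
  have hbv : ∀ z : X.BV, z = (X.net hG.inv lab).pole true ∨ z = (X.net hG.inv lab).pole false := by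
    rintro ⟨z, d, hd, hz⟩
    by_cases h1 : d = r
    · left; apply Subtype.ext
      show z = G.inc r
      rw [← hz, h1]
    · by_cases h2 : d = G.a r
      · right; apply Subtype.ext
        show z = G.inc (G.a r)
        rw [← hz, h2]
      · exact (hne.false ⟨d, hd, h1, h2⟩).elim
  have hpn := X.net_pole_ne hG lab
  let f : X.BV ≃ Bool :=
    { toFun := fun z => if z = (X.net hG.inv lab).pole true then true else false
      invFun := fun b => (X.net hG.inv lab).pole b
      left_inv := by
        intro z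
        rcases hbv z with h | h
        · show (X.net hG.inv lab).pole (if z = (X.net hG.inv lab).pole true then true else false) = z
          rw [if_pos h, h]
        · show (X.net hG.inv lab).pole (if z = (X.net hG.inv lab).pole true then true else false) = z
          rw [if_neg (by rw [h]; exact hpn.symm), h]
      right_inv := by
        intro b
        cases b
        · exact if_neg hpn.symm
        · exact if_pos rfl }
  have : IsEmpty (X.net hG.inv lab).D := hne
  have : IsEmpty (emptyNet l).D := inferInstanceAs (IsEmpty Empty)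
  refine ⟨Equiv.equivOfIsEmpty _ _, f, fun d => isEmptyElim d, fun d => isEmptyElim d, fun b => ?_,
    fun x hx => ?_⟩
  · exact f.apply_symm_apply b
  · exfalso
    rcases hbv x with h | h
    · exact hx true h
    · exact hx false h

end PGr
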