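import Pool.Agent.PGr.RGDefs
import Pool.Agent.PGr.Cut

/-! # Module ConeGood -/

set_option linter.unusedSectionVars false

namespace PGr
open Equiv Finset

variable {V : Type} [Fintype V] [DecidableEq V]

namespace ConeGood

/-- the component of a dart -/
noncomputable def cp {G : SimpleGraph V} (d : G.Dart) : G.ConnectedComponent :=
  G.connectedComponentMk d.fst

theorem cp_symm {G : SimpleGraph V} (d : G.Dart) : cp (dsymm G d) = cp d := by
  show G.connectedComponentMk d.snd = G.connectedComponentMk d.fst
  exact SimpleGraph.ConnectedComponent.sound d.adj.symm.reachable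

open Classical in
/-- a dart at the representative of a component -/
noncomputable def dl (G : SimpleGraph V) (c : G.ConnectedComponent) : Option G.Dart :=
  if h : ∃ d : G.Dart, d.fst = Quot.out c then some h.choose else none

theorem dl_some {G : SimpleGraph V} {c : G.ConnectedComponent} {d : G.Dart}
    (h : dl G c = some d) : d.fst = Quot.out c := by
  unfold dl at h
  split_ifs at h with h1
  have := h1.choose_spec
  simp only [Option.some.injEq] at h
  rw [← h]; exact this

theorem dl_none {G : SimpleGraph V} {c : G.ConnectedComponent} 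
    (h : dl G c = none) (d : G.Dart) : d.fst ≠ Quot.out c := by
  unfold dl at h
  split_ifs at h with h1
  intro h2
  exact h1 ⟨d, h2⟩

theorem cp_of_fst {G : SimpleGraph V} {c : G.ConnectedComponent} {d : G.Dart}
    (h : d.fst = Quot.out c) : cp d = c := by
  unfold cp
  rw [h]
  exact Quot.out_eq c

abbrev DD (G : SimpleGraph V) : Type := G.Dart ⊕ (G.ConnectedComponent × Bool)

/-- exchange the new dart with the chosen old one -/
noncomputable def mf (G : SimpleGraph V) : DD G → DD G
  | Sum.inl d => if dl G (cp d) = some d then Sum.inr (cp d, false) else Sum.inl d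
  | Sum.inr (c, true) => Sum.inr (c, true)
  | Sum.inr (c, false) => match dl G c with
    | some d => Sum.inl d
    | none => Sum.inr (c, false)

theorem mf_pos {G : SimpleGraph V} {d : G.Dart} (h : dl G (cp d) = some d) :
    mf G (Sum.inl d) = Sum.inr (cp d, false) := by
  simp [mf, h]

theorem mf_neg {G : SimpleGraph V} {d : G.Dart} (h : dl G (cp d) ≠ some d) :
    mf G (Sum.inl d) = Sum.inl d := by
  simp [mf, h]

theorem mf_some {G : SimpleGraph V} {c : G.ConnectedComponent} {d : G.Dart}
    (h : dl G c = some d) : mf G (Sum.inr (c, false)) = Sum.inl d := by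
  simp [mf, h]

theorem mf_none {G : SimpleGraph V} {c : G.ConnectedComponent}
    (h : dl G c = none) : mf G (Sum.inr (c, false)) = Sum.inr (c, false) := by
  simp [mf, h]

theorem mf_true {G : SimpleGraph V} {c : G.ConnectedComponent} :
    mf G (Sum.inr (c, true)) = Sum.inr (c, true) := by
  simp [mf]

theorem mf_inv (G : SimpleGraph V) : Function.Involutive (mf G) := by
  rintro (d | ⟨c, _ | _⟩)
  · by_cases h : dl G (cp d) = some d
    · rw [mf_pos h, mf_some h]
    · rw [mf_neg h, mf_neg h]
  · rcases h : dl G c with _ | d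
    · rw [mf_none h, mf_none h]
    · have hc := cp_of_fst (dl_some h)
      rw [mf_some h, mf_pos (by rw [hc]; exact h), hc]
  · rw [mf_true, mf_true]

/-- `σ` on the root corners, nothing on the others -/
def sp {α : Type*} (σ : Perm α) : Perm (α × Bool) where
  toFun p := (if p.2 then σ p.1 else p.1, p.2)
  invFun p := (if p.2 then σ.symm p.1 else p.1, p.2)
  left_inv := by rintro ⟨c, _ | _⟩ <;> simp
  right_inv := by rintro ⟨c, _ | _⟩ <;> simp

/-- the new rotation -/
noncomputable def rot (G : SimpleGraph V) (s : Perm G.Dart) (σ : Perm G.ConnectedComponent) :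
    Perm (DD G) :=
  Perm.sumCongr s (sp σ) * (mf_inv G).toPerm

section
variable {G : SimpleGraph V} {s : Perm G.Dart} {σ : Perm G.ConnectedComponent}

theorem rot_pos {d : G.Dart} (h : dl G (cp d) = some d) :
    rot G s σ (Sum.inl d) = Sum.inr (cp d, false) := by
  show Perm.sumCongr s (sp σ) (mf G (Sum.inl d)) = _
  rw [mf_pos h]; rfl

theorem rot_neg {d : G.Dart} (h : dl G (cp d) ≠ some d) :
    rot G s σ (Sum.inl d) = Sum.inl (s d) := by
  show Perm.sumCongr s (sp σ) (mf G (Sum.inl d)) = _
  rw [mf_neg h]; rfl

theorem rot_some {c : G.ConnectedComponent} {d : G.Dart} (h : dl G c = some d) :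
    rot G s σ (Sum.inr (c, false)) = Sum.inl (s d) := by
  show Perm.sumCongr s (sp σ) (mf G (Sum.inr (c, false))) = _
  rw [mf_some h]; rfl

theorem rot_none {c : G.ConnectedComponent} (h : dl G c = none) :
    rot G s σ (Sum.inr (c, false)) = Sum.inr (c, false) := by
  show Perm.sumCongr s (sp σ) (mf G (Sum.inr (c, false))) = _
  rw [mf_none h]; rfl

theorem rot_true {c : G.ConnectedComponent} :
    rot G s σ (Sum.inr (c, true)) = Sum.inr (σ c, true) := by
  show Perm.sumCongr s (sp σ) (mf G (Sum.inr (c, true))) = _
  rw [mf_true]; rfl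

theorem same_of_step {α : Type*} (f : Perm α) (x : α) : f.SameCycle x (f x) := ⟨1, by simp⟩

theorem same_inl (d : G.Dart) : (rot G s σ).SameCycle (Sum.inl d) (Sum.inl (s d)) := by
  by_cases h : dl G (cp d) = some d
  · have h1 := same_of_step (rot G s σ) (Sum.inl d)
    have h2 := same_of_step (rot G s σ) (Sum.inr (cp d, false))
    rw [rot_pos h] at h1
    rw [rot_some h] at h2
    exact h1.trans h2
  · have h1 := same_of_step (rot G s σ) (Sum.inl d)
    rw [rot_neg h] at h1
    exact h1

theorem same_pow {α β : Type*} [Fintype α] (f : Perm α) (g : Perm β) (φ : α → β)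
    (h : ∀ x, g.SameCycle (φ x) (φ (f x))) {x y : α} (hxy : f.SameCycle x y) :
    g.SameCycle (φ x) (φ y) := by
  obtain ⟨n, hn⟩ := hxy.exists_nat_pow_eq
  subst hn
  induction n with
  | zero => exact ⟨0, by simp⟩
  | succ n ih =>
    have : (f ^ (n + 1)) x = f ((f ^ n) x) := by rw [pow_succ', Perm.mul_apply]
    rw [this]
    exact (ih ⟨n, by simp⟩).trans (h _)

theorem inc_pow {α β : Type*} [Fintype α] (f : Perm α) (φ : α → β)
    (h : ∀ x, φ (f x) = φ x) {x y : α} (hxy : f.SameCycle x y) :
    φ x = φ y := by
  obtain ⟨n, hn⟩ := hxy.exists_nat_pow_eq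
  subst hn
  induction n with
  | zero => simp
  | succ n ih =>
    have : (f ^ (n + 1)) x = f ((f ^ n) x) := by rw [pow_succ', Perm.mul_apply]
    rw [this, h]
    exact ih ⟨n, by simp⟩

/-- the edge involution of the cone -/
def aD (G : SimpleGraph V) : Perm (DD G) :=
  Perm.sumCongr (dsymm G) (Equiv.prodCongr (Equiv.refl _) Equiv.boolNot)

theorem aD_l (d : G.Dart) : aD G (Sum.inl d) = Sum.inl (dsymm G d) := rfl
theorem aD_f (c : G.ConnectedComponent) : aD G (Sum.inr (c, false)) = Sum.inr (c, true) := rfl
theorem aD_t (c : G.ConnectedComponent) : aD G (Sum.inr (c, true)) = Sum.inr (c, false) := rfl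

theorem rot_pl (hs : ∀ d d', s.SameCycle d d' ↔ d.fst = d'.fst) (hpl : Pl (dsymm G) s) :
    Pl (aD G) (rot G s σ) := by
  classical
  have hsf : ∀ d : G.Dart, (s d).fst = d.fst := fun d =>
    (((hs d (s d)).1 (same_of_step s d))).symm
  intro P Q hPQ
  have h2 : ∀ x : ZMod 2, x + x = 0 := by decide
  have hcps : ∀ d : G.Dart, cp (s d) = cp d := by
    intro d; unfold cp; rw [hsf]
  -- the sum over a component
  have he : ∀ c d, dl G c = some d →
      Q (Sum.inr (c, true)) + Q (Sum.inr (c, false)) = 0 := by
    intro c d hd
    have hc := cp_of_fst (dl_some hd)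
    let FP : G.Dart → ZMod 2 := fun x => if cp x = c then P (Sum.inl x) else 0
    let FQ : G.Dart → ZMod 2 := fun x => if cp x = c then Q (Sum.inl x) else 0
    have hpt : ∀ x : G.Dart, FP x + FQ (dsymm G x) + (FP (s x) + FQ (s x)) =
        if x = d then Q (Sum.inr (c, true)) + Q (Sum.inr (c, false)) else 0 := by
      intro x
      by_cases hx : cp x = c
      · have e1 : FP x = P (Sum.inl x) := if_pos hx
        have e2 : FQ (dsymm G x) = Q (Sum.inl (dsymm G x)) := if_pos (by rw [cp_symm, hx])
        have e3 : FP (s x) = P (Sum.inl (s x)) := if_pos (by rw [hcps, hx])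
        have e4 : FQ (s x) = Q (Sum.inl (s x)) := if_pos (by rw [hcps, hx])
        rw [e1, e2, e3, e4]
        by_cases hxd : x = d
        · subst hxd
          rw [if_pos rfl]
          have a1 := hPQ (Sum.inl x)
          have a2 := hPQ (Sum.inr (c, false))
          rw [aD_l, rot_pos (by rw [hc]; exact hd), hc] at a1
          rw [aD_f, rot_some hd] at a2
          have gen : ∀ a b x y z u v : ZMod 2, a + b = x + y → x + z = u + v →
              a + b + (u + v) = z + y := by decide
          exact gen _ _ _ _ _ _ _ a1 a2
        · rw [if_neg hxd]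
          have a1 := hPQ (Sum.inl x)
          rw [aD_l, rot_neg (by rw [hx, hd]; simpa using fun h => hxd h.symm)] at a1
          rw [a1, h2]
      · have e1 : FP x = 0 := if_neg hx
        have e2 : FQ (dsymm G x) = 0 := if_neg (by rw [cp_symm]; exact hx)
        have e3 : FP (s x) = 0 := if_neg (by rw [hcps]; exact hx)
        have e4 : FQ (s x) = 0 := if_neg (by rw [hcps]; exact hx)
        rw [e1, e2, e3, e4, if_neg (by rintro rfl; exact hx hc)]
        simp
    have hsum : ∑ x, (FP x + FQ (dsymm G x) + (FP (s x) + FQ (s x))) = 0 := by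
      rw [sum_add_distrib, sum_add_distrib, sum_add_distrib, Equiv.sum_comp (dsymm G) FQ,
        Equiv.sum_comp s FP, Equiv.sum_comp s FQ, h2]
    rw [sum_congr rfl (fun x _ => hpt x)] at hsum
    simpa using hsum
  have heq : ∀ d : G.Dart, P (Sum.inl d) + Q (Sum.inl (dsymm G d)) =
      P (Sum.inl (s d)) + Q (Sum.inl (s d)) := by
    intro d
    by_cases h : dl G (cp d) = some d
    · have a1 := hPQ (Sum.inl d)
      have a2 := hPQ (Sum.inr (cp d, false))
      have a3 := he (cp d) d h
      rw [aD_l, rot_pos h] at a1
      rw [aD_f, rot_some h] at a2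
      have gen : ∀ a b x y z u v : ZMod 2, a + b = x + y → x + z = u + v → z + y = 0 →
              a + b = u + v := by decide
      exact gen _ _ _ _ _ _ _ a1 a2 a3
    · have a1 := hPQ (Sum.inl d)
      rw [aD_l, rot_neg h] at a1
      exact a1
  obtain ⟨g, hg1, hg2⟩ := hpl (fun d => P (Sum.inl d)) (fun d => Q (Sum.inl d)) heq
  let η : G.ConnectedComponent → ZMod 2 := fun c => P (Sum.inr (c, true))
  let κ : G.ConnectedComponent → ZMod 2 := fun c => match dl G c with
    | some d => g d + η c + P (Sum.inl d) + P (Sum.inr (c, false))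
    | none => 0
  have hκ : ∀ c d, dl G c = some d →
      κ c = g d + η c + P (Sum.inl d) + P (Sum.inr (c, false)) := by
    intro c d h
    simp only [κ, h]
  let H : DD G → ZMod 2 := fun t => match t with
    | Sum.inl d => g d + κ (cp d)
    | Sum.inr (c, _) => η c
  have Hl : ∀ d, H (Sum.inl d) = g d + κ (cp d) := fun d => rfl
  have Hr : ∀ c b, H (Sum.inr (c, b)) = η c := fun c b => rfl
  refine ⟨H, ?_, ?_⟩
  · rintro (d | ⟨c, _ | _⟩)
    · rw [aD_l]
      show H (Sum.inl (dsymm G d)) = H (Sum.inl d)
      rw [Hl, Hl, cp_symm, hg1]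
    · rfl
    · rfl
  · rintro (d | ⟨c, _ | _⟩)
    · by_cases h : dl G (cp d) = some d
      · rw [rot_pos h]
        rw [Hl, Hr (cp d) false, hκ _ _ h]
        generalize g d = a
        generalize η (cp d) = b
        generalize P (Sum.inl d) = x
        generalize P (Sum.inr (cp d, false)) = y
        revert a b x y; decide
      · rw [rot_neg h]
        rw [Hl, Hl, hcps]
        have a1 := hg2 d
        have gen : ∀ a b x y k : ZMod 2, a + b = x + y → a + k + (b + k) = x + y := by decide
        exact gen _ _ _ _ _ a1
    · rcases h : dl G c with _ | d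
      · rw [rot_none h, h2]
        exact (h2 _).symm
      · have hc := cp_of_fst (dl_some h)
        rw [rot_some h]
        rw [Hr c false, Hl, hcps, hc, hκ _ _ h]
        have a1 := hg2 d
        have gen : ∀ a b x y e z : ZMod 2, a + b = x + y →
            e + (b + (a + e + x + z)) = z + y := by decide
        exact gen _ _ _ _ _ _ a1
    · rw [rot_true]

end

end ConeGood

open ConeGood

/-- the conclusion of `planar_pl` is the hypothesis here -/
theorem cone_good' {G : SimpleGraph V}
    (h : ∃ s : Perm G.Dart, (∀ d d', s.SameCycle d d' ↔ d.fst = d'.fst) ∧ Pl (dsymm G) s) :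
    (cone G).IsGood := by
  classical
  obtain ⟨s, hs, hpl⟩ := h
  have out_inj : ∀ c c' : G.ConnectedComponent, Quot.out c = Quot.out c' → c = c' := by
    intro c c' h
    rw [← Quot.out_eq c, h, Quot.out_eq]
  have incl : ∀ d : G.Dart, (cone G).inc (Sum.inl d) = some d.fst := fun d => rfl
  have inct : ∀ c, (cone G).inc (Sum.inr (c, true)) = none := fun d => rfl
  have incf : ∀ c, (cone G).inc (Sum.inr (c, false)) = some (Quot.out c) := fun d => rfl
  have al : ∀ d : G.Dart, (cone G).a (Sum.inl d) = Sum.inl (dsymm G d) := fun d => rfl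
  have at' : ∀ c, (cone G).a (Sum.inr (c, true)) = Sum.inr (c, false) := fun d => rfl
  have af : ∀ c, (cone G).a (Sum.inr (c, false)) = Sum.inr (c, true) := fun d => rfl
  have hsf : ∀ d : G.Dart, (s d).fst = d.fst := fun d =>
    (((hs d (s d)).1 (same_of_step s d))).symm
  refine ⟨?_, ?_, ?_, ?_, ?_, ?_⟩
  · -- inv
    rintro (d | ⟨c, _ | _⟩)
    · rw [al, al]
      exact congrArg Sum.inl d.symm_symm
    · rw [af, at']
    · rw [at', af]
  · -- fpf
    rintro (d | ⟨c, _ | _⟩)
    · rw [al]
      intro h
      exact d.symm_ne (Sum.inl.inj h)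
    · rw [af]
      intro h
      simpa using congrArg Prod.snd (Sum.inr.inj h)
    · rw [at']
      intro h
      simpa using congrArg Prod.snd (Sum.inr.inj h)
  · -- loop
    rintro (d | ⟨c, _ | _⟩)
    · rw [al, incl, incl]
      intro h
      exact d.fst_ne_snd (Option.some.inj h).symm
    · rw [af, inct, incf]; simp
    · rw [at', inct, incf]; simp
  · -- simp
    rintro (d | ⟨c, _ | _⟩) (d' | ⟨c', _ | _⟩) h1 h2
    · rw [incl, incl] at h1
      rw [al, al, incl, incl] at h2
      have e1 : d.fst = d'.fst := Option.some.inj h1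
      have e2 : d.snd = d'.snd := Option.some.inj h2
      exact congrArg Sum.inl (SimpleGraph.Dart.ext _ _ (Prod.ext e1 e2))
    · rw [al, af, incl, inct] at h2; simp at h2
    · rw [incl, inct] at h1; simp at h1
    · rw [al, af, incl, inct] at h2; simp at h2
    · rw [incf, incf] at h1
      rw [out_inj c c' (Option.some.inj h1)]
    · rw [incf, inct] at h1; simp at h1
    · rw [incl, inct] at h1; simp at h1
    · rw [incf, inct] at h1; simp at h1
    · rw [at', at', incf, incf] at h2
      rw [out_inj c c' (Option.some.inj h2)]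
  · -- conn
    intro X h0 hX
    have : ∃ v : V, some v ∉ X := by
      by_contra hcon
      push Not at hcon
      apply hX
      rw [eq_univ_iff_forall]
      rintro (_ | v)
      · exact h0
      · exact hcon v
    obtain ⟨v, hv⟩ := this
    by_cases hc : some (Quot.out (G.connectedComponentMk v)) ∈ X
    · have hr : G.Reachable (Quot.out (G.connectedComponentMk v)) v := by
        rw [← SimpleGraph.ConnectedComponent.eq]
        exact Quot.out_eq _
      obtain ⟨p⟩ := hr
      obtain ⟨d, -, hd1, hd2⟩ := p.exists_boundary_dart {w | some w ∈ X} hc hv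
      exact ⟨Sum.inl d, hd1, hd2⟩
    · exact ⟨Sum.inr (G.connectedComponentMk v, true), h0, hc⟩
  · -- planar
    obtain ⟨σ, hσ, -⟩ := (univ : Finset G.ConnectedComponent).exists_cycleOn
    have hσ' : ∀ c c' : G.ConnectedComponent, σ.SameCycle c c' := fun c c' =>
      hσ.2 (by simp) (by simp)
    refine ⟨rot G s σ, ?_, ?_⟩
    · intro t t'
      have hstep : ∀ x, (cone G).inc (rot G s σ x) = (cone G).inc x := by
        rintro (d | ⟨c, _ | _⟩)
        · by_cases h : dl G (cp d) = some d
          · rw [rot_pos h, incf, incl, dl_some h]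
          · rw [rot_neg h, incl, incl, hsf]
        · rcases h : dl G c with _ | d
          · rw [rot_none h]
          · rw [rot_some h, incl, incf, hsf, dl_some h]
        · rw [rot_true, inct, inct]
      have key1 : ∀ d d' : G.Dart, d.fst = d'.fst →
          (rot G s σ).SameCycle (Sum.inl d) (Sum.inl d') := fun d d' h =>
        same_pow s (rot G s σ) Sum.inl same_inl ((hs d d').2 h)
      have key2 : ∀ c c' : G.ConnectedComponent,
          (rot G s σ).SameCycle (Sum.inr (c, true)) (Sum.inr (c', true)) := fun c c' =>
        same_pow σ (rot G s σ) (fun c => Sum.inr (c, true)) (fun x => by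
          have := same_of_step (rot G s σ) (Sum.inr (x, true))
          rw [rot_true] at this
          exact this) (hσ' c c')
      have key3 : ∀ (c : G.ConnectedComponent) (d : G.Dart), d.fst = Quot.out c →
          (rot G s σ).SameCycle (Sum.inl d) (Sum.inr (c, false)) := by
        intro c d hd
        rcases h : dl G c with _ | d'
        · exact absurd hd (dl_none h d)
        · have hc := cp_of_fst (dl_some h)
          have h1 := key1 d d' (by rw [hd, dl_some h])
          have h2 := same_of_step (rot G s σ) (Sum.inl d')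
          rw [rot_pos (by rw [hc]; exact h), hc] at h2
          exact h1.trans h2
      constructor
      · intro h
        exact inc_pow (rot G s σ) (cone G).inc hstep h
      · intro h
        rcases t with d | ⟨c, _ | _⟩ <;> rcases t' with d' | ⟨c', _ | _⟩
        · rw [incl, incl] at h
          exact key1 d d' (Option.some.inj h)
        · rw [incl, incf] at h
          exact key3 c' d (Option.some.inj h)
        · rw [incl, inct] at h; simp at h
        · rw [incl, incf] at h
          exact (key3 c d' (Option.some.inj h).symm).symm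
        · rw [incf, incf] at h
          rw [out_inj c c' (Option.some.inj h)]
        · rw [incf, inct] at h; simp at h
        · rw [incl, inct] at h; simp at h
        · rw [incf, inct] at h; simp at h
        · exact key2 c c'
    · exact rot_pl hs hpl

end PGr
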