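import Pool.Agent.PGr.RGDefs
import Pool.Agent.PGr.Euler

/-! # Module PlanarPl: Euler's formula for simple graphs gives homological planarity -/

set_option linter.unusedSectionVars false

namespace PGr
open Equiv Finset

variable {V : Type} [Fintype V] [DecidableEq V]

theorem PlanarPl_inv (G : SimpleGraph V) (d : G.Dart) : dsymm G (dsymm G d) = d := d.symm_symm

theorem PlanarPl_fpf (G : SimpleGraph V) (d : G.Dart) : dsymm G d ≠ d := d.symm_ne

theorem PlanarPl_card (G : SimpleGraph V) : Fintype.card G.Dart / 2 = Nat.card G.edgeSet := by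
  classical
  have h := G.dart_card_eq_twice_card_edges
  have h2 : G.edgeFinset.card = Nat.card G.edgeSet := by
    rw [Nat.card_eq_fintype_card, ← SimpleGraph.edgeFinset_card]
  have h3 : Fintype.card G.Dart = 2 * G.edgeFinset.card := by
    rw [← h]
  rw [h3, ← h2]
  omega

theorem PlanarPl_comp (G : SimpleGraph V) (s : Perm G.Dart)
    (hs : ∀ d d', s.SameCycle d d' ↔ d.fst = d'.fst) :
    nComp (dsymm G) s =
      Nat.card {c : G.ConnectedComponent // ∃ d : G.Dart, G.connectedComponentMk d.fst = c} := by
  rw [nComp]
  set H := Subgroup.closure {dsymm G, s} with hH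
  have hsg : s ∈ H := Subgroup.subset_closure (by simp)
  have hag : dsymm G ∈ H := Subgroup.subset_closure (by simp)
  have h1 : ∀ g ∈ H, ∀ d : G.Dart,
      G.connectedComponentMk (g d).fst = G.connectedComponentMk d.fst := by
    intro g hg
    rw [hH] at hg
    induction hg using Subgroup.closure_induction with
    | mem x hx =>
      rcases hx with rfl | hx
      · intro d
        exact SimpleGraph.ConnectedComponent.sound (SimpleGraph.Adj.reachable d.adj.symm)
      · rw [Set.mem_singleton_iff.mp hx]
        intro d
        have : (s d).fst = d.fst := by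
          rw [← hs]
          exact Perm.SameCycle.symm ⟨1, by simp⟩
        rw [this]
    | one => intro d; rfl
    | mul x y _ _ hx hy => intro d; rw [Perm.mul_apply, hx, hy]
    | inv x _ hx =>
      intro d
      have := hx (x⁻¹ d)
      have e : x (x⁻¹ d) = d := x.apply_symm_apply d
      rw [e] at this
      exact this.symm
  have hsame : ∀ d d' : G.Dart, d.fst = d'.fst → MulAction.orbitRel H G.Dart d d' := by
    intro d d' h
    obtain ⟨n, hn⟩ := (hs d' d).mpr h.symm
    exact ⟨⟨s ^ n, H.zpow_mem hsg n⟩, hn⟩
  have hwalk : ∀ (v w : V) (p : G.Walk v w) (d d' : G.Dart), d.fst = v → d'.fst = w →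
      MulAction.orbitRel H G.Dart d d' := by
    intro v w p
    induction p with
    | nil =>
      intro d d' h h'
      exact hsame d d' (h.trans h'.symm)
    | @cons u v w h p ih =>
      intro d d' hd hd'
      let e : G.Dart := ⟨(u, v), h⟩
      have h1 := hsame d e hd
      have h2 : MulAction.orbitRel H G.Dart e (dsymm G e) := by
        refine ⟨⟨dsymm G, hag⟩, ?_⟩
        exact PlanarPl_inv G e
      have h3 := ih (dsymm G e) d' rfl hd'
      exact (MulAction.orbitRel H G.Dart).trans ((MulAction.orbitRel H G.Dart).trans h1 h2) h3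
  refine Nat.card_congr (Equiv.ofBijective (fun q => Quotient.lift
    (s := MulAction.orbitRel H G.Dart)
    (fun d => (⟨G.connectedComponentMk d.fst, d, rfl⟩ :
      {c : G.ConnectedComponent // ∃ d : G.Dart, G.connectedComponentMk d.fst = c}))
    ?_ q) ⟨?_, ?_⟩)
  · rintro d d' ⟨g, hg⟩
    apply Subtype.ext
    have hg' : g.1 d' = d := hg
    change G.connectedComponentMk d.fst = G.connectedComponentMk d'.fst
    rw [← hg']
    exact h1 g.1 g.2 d'
  · intro x y
    induction x using Quotient.inductionOn with
    | h d =>
      induction y using Quotient.inductionOn with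
      | h d' =>
        intro h
        have h' : G.connectedComponentMk d.fst = G.connectedComponentMk d'.fst :=
          congrArg Subtype.val h
        obtain ⟨p⟩ := SimpleGraph.ConnectedComponent.exact h'
        exact Quotient.sound (hwalk _ _ p d d' rfl rfl)
  · rintro ⟨c, d, hd⟩
    refine ⟨Quotient.mk _ d, ?_⟩
    apply Subtype.ext
    exact hd

theorem planar_pl {G : SimpleGraph V} (h : IsPlanar G) :
    ∃ s : Perm G.Dart, (∀ d d', s.SameCycle d d' ↔ d.fst = d'.fst) ∧ Pl (dsymm G) s := by
  obtain ⟨s, hs, he⟩ := h
  refine ⟨s, hs, (Pl_iff_euler (PlanarPl_inv G) (PlanarPl_fpf G)).mpr ?_⟩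
  rw [PlanarPl_card, PlanarPl_comp G s hs]
  exact he

end PGr
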