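import Pool.Agent.PGr.RGDefs
import Pool.Agent.PGr.PlRestrict

/-! # Module Wedge: a rooted connected graph is the wedge of its pieces -/

set_option linter.unusedSectionVars false

namespace PGr
open Equiv Finset
open scoped ENNReal

theorem RIso.size_eq {G H : RG} (h : RIso G H) : G.size = H.size := by
  obtain ⟨e, f, h1, h2, h3⟩ := h
  exact Fintype.card_congr f

theorem Wedge.pl_congr {T T' : Type} [Fintype T] [DecidableEq T] [Fintype T'] [DecidableEq T']
    {a s : Perm T} {a' s' : Perm T'} (e : T ≃ T') (ha : ∀ t, e (a t) = a' (e t))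
    (hs : ∀ t, e (s t) = s' (e t)) (h : Pl a s) : Pl a' s' := by
  intro p q hpq
  obtain ⟨k, hk1, hk2⟩ := h (p ∘ e) (q ∘ e) (by
    intro t
    have := hpq (e t)
    simp only [Function.comp_apply, ha, hs]
    exact this)
  refine ⟨k ∘ e.symm, ?_, ?_⟩
  · intro t
    have h1 : e.symm (a' t) = a (e.symm t) := by
      rw [Equiv.symm_apply_eq, ha, Equiv.apply_symm_apply]
    simp only [Function.comp_apply, h1]
    exact hk1 _
  · intro t
    have h1 : e.symm (s' t) = s (e.symm t) := by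
      rw [Equiv.symm_apply_eq, hs, Equiv.apply_symm_apply]
    have h2 := hk2 (e.symm t)
    simp only [Function.comp_apply, Equiv.apply_symm_apply, hs] at h2
    simp only [Function.comp_apply, h1]
    exact h2

theorem RIso.good {G H : RG} (h : RIso G H) (hG : G.IsGood) : H.IsGood := by
  obtain ⟨e, f, h1, h2, h3⟩ := h
  have h1' : ∀ d, H.a d = e (G.a (e.symm d)) := fun d => by
    rw [h1, Equiv.apply_symm_apply]
  have h2' : ∀ d, H.inc d = f (G.inc (e.symm d)) := fun d => by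
    rw [h2, Equiv.apply_symm_apply]
  refine ⟨?_, ?_, ?_, ?_, ?_, ?_⟩
  · intro d
    rw [h1', h1', Equiv.symm_apply_apply, hG.inv, Equiv.apply_symm_apply]
  · intro d hd
    rw [h1'] at hd
    apply hG.fpf (e.symm d)
    rw [Equiv.eq_symm_apply]; exact hd
  · intro d hd
    rw [h1', h2', h2', Equiv.symm_apply_apply] at hd
    exact hG.loop _ (f.injective hd)
  · intro d d' hd hd'
    rw [h2', h2'] at hd
    rw [h1', h1', h2', h2', Equiv.symm_apply_apply, Equiv.symm_apply_apply] at hd'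
    exact e.symm.injective (hG.simp _ _ (f.injective hd) (f.injective hd'))
  · intro X h0 hX
    obtain ⟨d, hd, hd'⟩ := hG.conn (X.map f.symm.toEmbedding) (by
      rw [mem_map_equiv, Equiv.symm_symm, h3]; exact h0) (by
      intro hu
      apply hX
      rw [eq_univ_iff_forall] at hu ⊢
      intro x
      have := hu (f.symm x)
      rw [mem_map_equiv, Equiv.symm_symm, Equiv.apply_symm_apply] at this
      exact this)
    rw [mem_map_equiv, Equiv.symm_symm] at hd hd'
    refine ⟨e d, ?_, ?_⟩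
    · rw [← h2]; exact hd
    · rw [← h1, ← h2]; exact hd'
  · obtain ⟨s, hs, hpl⟩ := hG.planar
    have hse : ∀ t, e (s t) = (e.permCongr s) (e t) := fun t => by
      simp [Equiv.permCongr_apply]
    refine ⟨e.permCongr s, ?_, Wedge.pl_congr e h1 hse hpl⟩
    intro t t'
    rw [h2' t, h2' t', f.injective.eq_iff, ← hs]
    have hz : ∀ (n : ℤ) (x : H.D), ((e.permCongr s) ^ n) x = e ((s ^ n) (e.symm x)) := by
      intro n x
      have : (e.permCongr s) ^ n = e.permCongr (s ^ n) := by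
        have := map_zpow e.permCongrHom s n
        exact this.symm
      rw [this, Equiv.permCongr_apply]
    constructor
    · rintro ⟨n, hn⟩
      refine ⟨n, ?_⟩
      rw [hz] at hn
      rw [← hn, Equiv.symm_apply_apply]
    · rintro ⟨n, hn⟩
      refine ⟨n, ?_⟩
      rw [hz, hn, Equiv.apply_symm_apply]

theorem RIso.piece {G H : RG} (h : RIso G H) (hG : Piece G) : Piece H := by
  obtain ⟨e, f, h1, h2, h3⟩ := h
  refine ⟨hG.1.map e, ?_⟩
  intro A hA hne hnu
  obtain ⟨x, hx, hs⟩ := hG.2 (A.map e.symm.toEmbedding) (by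
      intro t
      rw [mem_map_equiv, mem_map_equiv, Equiv.symm_symm, h1]
      exact hA _) (hne.map) (by
      intro hu
      apply hnu
      rw [eq_univ_iff_forall] at hu ⊢
      intro y
      have := hu (e.symm y)
      rw [mem_map_equiv, Equiv.symm_symm, Equiv.apply_symm_apply] at this
      exact this)
  obtain ⟨⟨t, ht, htx⟩, ⟨t', ht', htx'⟩⟩ := hs
  rw [mem_map_equiv, Equiv.symm_symm] at ht ht'
  refine ⟨f x, ?_, ⟨e t, ht, ?_⟩, ⟨e t', ht', ?_⟩⟩
  · rw [← h3]; exact fun h => hx (f.injective h)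
  · rw [← h2, htx]
  · rw [← h2, htx']

theorem RG.size_pos (G : RG) : 0 < G.size := Fintype.card_pos_iff.mpr ⟨G.v0⟩

/-- pieces have at least two vertices -/
theorem Piece.two_le_size {G : RG} (hG : G.IsGood) (h : Piece G) : 2 ≤ G.size := by
  obtain ⟨d⟩ := h.1
  exact Fintype.one_lt_card_iff.mpr ⟨_, _, hG.loop d⟩

theorem wedge_size {J : Type} [Fintype J] [DecidableEq J] (X : J → RG) :
    (wedge X).size = 1 + ∑ j, ((X j).size - 1) := by
  show Fintype.card (Option (Σ j, {x : (X j).V // x ≠ (X j).v0})) = _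
  rw [Fintype.card_option, Fintype.card_sigma, add_comm]
  congr 1
  apply Finset.sum_congr rfl
  intro j _
  rw [Fintype.card_subtype_compl, Fintype.card_subtype_eq]
  rfl

theorem Wedge.inc_none {J : Type} [Fintype J] [DecidableEq J] (X : J → RG) (j : J) (d : (X j).D)
    (h : (X j).inc d = (X j).v0) : (wedge X).inc ⟨j, d⟩ = none := dif_pos h

theorem Wedge.inc_some {J : Type} [Fintype J] [DecidableEq J] (X : J → RG) (j : J) (d : (X j).D)
    (h : (X j).inc d ≠ (X j).v0) : (wedge X).inc ⟨j, d⟩ = some ⟨j, ⟨(X j).inc d, h⟩⟩ := dif_neg h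

theorem wedge_iso {J J' : Type} [Fintype J] [DecidableEq J] [Fintype J'] [DecidableEq J']
    (X : J → RG) (X' : J' → RG) (π : J ≃ J') (h : ∀ j, RIso (X j) (X' (π j))) :
    RIso (wedge X) (wedge X') := by
  classical
  choose e f h1 h2 h3 using h
  let F : ∀ j, {x : (X j).V // x ≠ (X j).v0} ≃ {x : (X' (π j)).V // x ≠ (X' (π j)).v0} :=
    fun j => (f j).subtypeEquiv (fun v => by rw [← h3, Ne, Ne, (f j).injective.eq_iff])
  let E : (wedge X).D ≃ (wedge X').D := Equiv.sigmaCongr (β₂ := fun j => (X' j).D) π e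
  let G : (wedge X).V ≃ (wedge X').V := Equiv.optionCongr (Equiv.sigmaCongr
      (β₂ := fun j => {x : (X' j).V // x ≠ (X' j).v0}) π F)
  refine ⟨E, G, ?_, ?_, rfl⟩
  · rintro ⟨j, d⟩
    show (⟨π j, e j ((X j).a d)⟩ : (wedge X').D) = ⟨π j, (X' (π j)).a (e j d)⟩
    rw [h1]
  · rintro ⟨j, d⟩
    by_cases hd : (X j).inc d = (X j).v0
    · have hd' : (X' (π j)).inc (e j d) = (X' (π j)).v0 := by rw [← h2, hd, h3]
      have e2 : (wedge X').inc (E ⟨j, d⟩) = none := Wedge.inc_none X' (π j) (e j d) hd'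
      rw [Wedge.inc_none X j d hd, e2]; rfl
    · have hd' : (X' (π j)).inc (e j d) ≠ (X' (π j)).v0 := by
        rw [← h2, ← h3]; exact fun h => hd ((f j).injective h)
      have e2 : (wedge X').inc (E ⟨j, d⟩) = some ⟨π j, ⟨_, hd'⟩⟩ :=
        Wedge.inc_some X' (π j) (e j d) hd'
      rw [Wedge.inc_some X j d hd, e2]
      show (some ⟨π j, F j ⟨(X j).inc d, hd⟩⟩ :
        Option (Σ j, {x : (X' j).V // x ≠ (X' j).v0})) = _
      congr 2
      exact Subtype.ext (h2 j d)

/-- two darts are related if they form an edge or share a vertex different from the root -/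
def Wedge.R (G : RG) (d d' : G.D) : Prop := d' = G.a d ∨ (G.inc d = G.inc d' ∧ G.inc d ≠ G.v0)

def Wedge.st (G : RG) : Setoid G.D := Relation.EqvGen.setoid (Wedge.R G)

abbrev Wedge.J (G : RG) : Type := Quotient (Wedge.st G)

noncomputable instance (G : RG) : DecidableEq (Wedge.J G) := Classical.decEq _
noncomputable instance (G : RG) : Fintype (Wedge.J G) :=
  @Fintype.ofFinite _ (inferInstanceAs (Finite (Quotient (Wedge.st G))))

/-- the darts of a class -/
noncomputable def Wedge.S (G : RG) (j : Wedge.J G) : Finset G.D :=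
  univ.filter fun d => (Quotient.mk (Wedge.st G) d) = j

theorem Wedge.mem_S {G : RG} {j : Wedge.J G} {d : G.D} :
    d ∈ Wedge.S G j ↔ Quotient.mk (Wedge.st G) d = j := by simp [Wedge.S]

theorem Wedge.mk_a {G : RG} (d : G.D) :
    Quotient.mk (Wedge.st G) (G.a d) = Quotient.mk (Wedge.st G) d := by
  apply Quotient.sound
  exact Relation.EqvGen.symm _ _ (Relation.EqvGen.rel _ _ (Or.inl rfl))

theorem Wedge.mk_inc {G : RG} {d d' : G.D} (h : G.inc d = G.inc d') (h0 : G.inc d ≠ G.v0) :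
    Quotient.mk (Wedge.st G) d = Quotient.mk (Wedge.st G) d' := by
  apply Quotient.sound
  exact Relation.EqvGen.rel _ _ (Or.inr ⟨h, h0⟩)

theorem Wedge.cl_S (G : RG) (j : Wedge.J G) : Cl G.a (Wedge.S G j) := by
  intro t
  rw [Wedge.mem_S, Wedge.mem_S, Wedge.mk_a]

/-- the piece of a class -/
noncomputable def Wedge.X (G : RG) (j : Wedge.J G) : RG :=
  letI : DecidablePred (fun x : G.V => x = G.v0 ∨ ∃ d ∈ Wedge.S G j, G.inc d = x) :=
    Classical.decPred _
  { D := {d // d ∈ Wedge.S G j}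
    V := {x : G.V // x = G.v0 ∨ ∃ d ∈ Wedge.S G j, G.inc d = x}
    a := subA G.a (Wedge.S G j) (Wedge.cl_S G j)
    inc := fun d => ⟨G.inc d.1, Or.inr ⟨d.1, d.2, rfl⟩⟩
    v0 := ⟨G.v0, Or.inl rfl⟩ }

theorem Wedge.X_good {G : RG} (hG : G.IsGood) (j : Wedge.J G) : (Wedge.X G j).IsGood := by
  classical
  refine ⟨?_, ?_, ?_, ?_, ?_, ?_⟩
  · intro d
    exact Subtype.ext (hG.inv d.1)
  · intro d hd
    exact hG.fpf d.1 (congrArg Subtype.val hd)
  · intro d hd
    exact hG.loop d.1 (congrArg Subtype.val hd)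
  · intro d d' hd hd'
    exact Subtype.ext (hG.simp d.1 d'.1 (congrArg Subtype.val hd) (congrArg Subtype.val hd'))
  · intro Y h0 hY
    obtain ⟨d, hd, hd'⟩ := hG.conn (univ.filter fun x : G.V =>
        ∀ h : x = G.v0 ∨ ∃ d ∈ Wedge.S G j, G.inc d = x, (⟨x, h⟩ : (Wedge.X G j).V) ∈ Y) (by
      simp only [mem_filter, mem_univ, true_and]
      intro h; exact h0) (by
      intro hu
      apply hY
      rw [eq_univ_iff_forall] at hu ⊢
      rintro ⟨x, hx⟩
      have := hu x
      simp only [mem_filter, mem_univ, true_and] at this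
      exact this hx)
    simp only [mem_filter, mem_univ, true_and, not_forall] at hd hd'
    obtain ⟨hx, hxY⟩ := hd'
    have hne : G.inc (G.a d) ≠ G.v0 := by
      intro h
      apply hxY
      have : (⟨G.inc (G.a d), hx⟩ : (Wedge.X G j).V) = (Wedge.X G j).v0 := Subtype.ext h
      rw [this]; exact h0
    obtain ⟨d', hd'S, hd'x⟩ := hx.resolve_left hne
    have h1 : G.a d ∈ Wedge.S G j := by
      rw [Wedge.mem_S] at hd'S ⊢
      rw [← hd'S]
      exact Wedge.mk_inc hd'x.symm hne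
    have h2 : d ∈ Wedge.S G j := (Wedge.cl_S G j d).1 h1
    exact ⟨⟨d, h2⟩, hd _, hxY⟩
  · obtain ⟨s, hs, hpl⟩ := hG.planar
    refine ⟨ret s (Wedge.S G j), ?_, Pl.restrict hpl hG.inv _ (Wedge.cl_S G j)⟩
    intro t t'
    have h1 : (ret s (Wedge.S G j)).SameCycle t t' ↔ G.inc t.1 = G.inc t'.1 :=
      (sameCycle_ret s (Wedge.S G j) t t').trans (hs _ _)
    exact h1.trans ⟨fun h => Subtype.ext h, fun h => congrArg Subtype.val h⟩

theorem Wedge.X_piece {G : RG} (j : Wedge.J G) : Piece (Wedge.X G j) := by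
  classical
  constructor
  · obtain ⟨d, hd⟩ := Quotient.exists_rep j
    exact ⟨⟨d, Wedge.mem_S.2 hd⟩⟩
  · intro A hA hne hnu
    by_contra hcon
    push Not at hcon
    have key : ∀ d d', Wedge.R G d d' →
        ((∃ h : d ∈ Wedge.S G j, (⟨d, h⟩ : (Wedge.X G j).D) ∈ A) ↔
          ∃ h : d' ∈ Wedge.S G j, (⟨d', h⟩ : (Wedge.X G j).D) ∈ A) := by
      intro d d' hR
      rcases hR with rfl | ⟨h1, h2⟩
      · constructor
        · rintro ⟨h, hA'⟩
          exact ⟨(Wedge.cl_S G j d).2 h, (hA ⟨d, h⟩).2 hA'⟩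
        · rintro ⟨h, hA'⟩
          exact ⟨(Wedge.cl_S G j d).1 h, (hA ⟨d, (Wedge.cl_S G j d).1 h⟩).1 hA'⟩
      · have hS : d ∈ Wedge.S G j ↔ d' ∈ Wedge.S G j := by
          rw [Wedge.mem_S, Wedge.mem_S, Wedge.mk_inc h1 h2]
        constructor
        · rintro ⟨h, hA'⟩
          refine ⟨hS.1 h, ?_⟩
          by_contra hd'
          refine hcon ((Wedge.X G j).inc ⟨d, h⟩) ?_ ⟨⟨_, hA', rfl⟩, ⟨⟨d', hS.1 h⟩, hd', ?_⟩⟩
          · intro h0
            exact h2 (congrArg Subtype.val h0)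
          · exact Subtype.ext h1.symm
        · rintro ⟨h, hA'⟩
          refine ⟨hS.2 h, ?_⟩
          by_contra hd'
          refine hcon ((Wedge.X G j).inc ⟨d', h⟩) ?_ ⟨⟨_, hA', rfl⟩, ⟨⟨d, hS.2 h⟩, hd', ?_⟩⟩
          · intro h0
            exact h2 (h1.trans (congrArg Subtype.val h0))
          · exact Subtype.ext h1
    have key2 : ∀ d d', Relation.EqvGen (Wedge.R G) d d' →
        ((∃ h : d ∈ Wedge.S G j, (⟨d, h⟩ : (Wedge.X G j).D) ∈ A) ↔
          ∃ h : d' ∈ Wedge.S G j, (⟨d', h⟩ : (Wedge.X G j).D) ∈ A) := by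
      intro d d' h
      induction h with
      | rel x y h => exact key x y h
      | refl x => exact Iff.rfl
      | symm x y _ ih => exact ih.symm
      | trans x y z _ _ ih1 ih2 => exact ih1.trans ih2
    obtain ⟨⟨d, hd⟩, hdA⟩ := hne
    apply hnu
    rw [eq_univ_iff_forall]
    rintro ⟨d', hd'⟩
    have hrel : Relation.EqvGen (Wedge.R G) d d' := by
      have h1 := (Wedge.mem_S.1 hd).trans (Wedge.mem_S.1 hd').symm
      exact Quotient.exact h1
    obtain ⟨h, hA'⟩ := (key2 d d' hrel).1 ⟨hd, hdA⟩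
    exact hA'

theorem Wedge.exists_dart {G : RG} (hG : G.IsGood) {x : G.V} (hx : x ≠ G.v0) :
    ∃ d, G.inc d = x := by
  classical
  obtain ⟨d, hd, hd'⟩ := hG.conn (univ.erase x) (by simp [hx.symm]) (by
    intro h
    have := eq_univ_iff_forall.1 h x
    simp at this)
  refine ⟨G.a d, ?_⟩
  by_contra h
  exact hd' (by simp [h])

theorem Wedge.iso {G : RG} (hG : G.IsGood) : RIso G (wedge (Wedge.X G)) := by
  classical
  let e : G.D ≃ (wedge (Wedge.X G)).D :=
    { toFun := fun d => ⟨Quotient.mk (Wedge.st G) d, ⟨d, Wedge.mem_S.2 rfl⟩⟩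
      invFun := fun p => p.2.1
      left_inv := fun d => rfl
      right_inv := by
        rintro ⟨j, ⟨d, hd⟩⟩
        have := Wedge.mem_S.1 hd
        subst this
        rfl }
  let g : (wedge (Wedge.X G)).V → G.V := fun o =>
    match o with
    | none => G.v0
    | some p => p.2.1.1
  have hg0 : ∀ p : (Σ j, {x : (Wedge.X G j).V // x ≠ (Wedge.X G j).v0}), p.2.1.1 ≠ G.v0 := by
    rintro ⟨j, ⟨x, hx⟩⟩ h
    exact hx (Subtype.ext h)
  have hg : Function.Bijective g := by
    constructor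
    · rintro (_ | ⟨j, ⟨⟨x, hx⟩, hx0⟩⟩) (_ | ⟨j', ⟨⟨x', hx'⟩, hx0'⟩⟩) h
      · rfl
      · exact absurd h.symm (hg0 ⟨j', ⟨⟨x', hx'⟩, hx0'⟩⟩)
      · exact absurd h (hg0 ⟨j, ⟨⟨x, hx⟩, hx0⟩⟩)
      · have hxx : x = x' := h
        subst hxx
        have hxne : x ≠ G.v0 := hg0 ⟨j, ⟨⟨x, hx⟩, hx0⟩⟩
        obtain ⟨d, hd, hdx⟩ := hx.resolve_left hxne
        obtain ⟨d', hd', hdx'⟩ := hx'.resolve_left hxne
        have hjj : j = j' := by
          rw [← Wedge.mem_S.1 hd, ← Wedge.mem_S.1 hd']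
          exact Wedge.mk_inc (hdx.trans hdx'.symm) (by rw [hdx]; exact hxne)
        subst hjj
        rfl
    · intro x
      by_cases hx : x = G.v0
      · exact ⟨none, hx.symm⟩
      · obtain ⟨d, hd⟩ := Wedge.exists_dart hG hx
        refine ⟨some ⟨Quotient.mk (Wedge.st G) d, ⟨⟨x, Or.inr ⟨d, Wedge.mem_S.2 rfl, hd⟩⟩, ?_⟩⟩, rfl⟩
        intro h
        exact hx (congrArg Subtype.val h)
  refine ⟨e, (Equiv.ofBijective g hg).symm, ?_, ?_, ?_⟩
  · intro d
    apply e.symm.injective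
    rw [Equiv.symm_apply_apply]
    rfl
  · intro d
    rw [Equiv.symm_apply_eq]
    show G.inc d = g ((wedge (Wedge.X G)).inc (e d))
    by_cases hd : G.inc d = G.v0
    · have h0 : (Wedge.X G (Quotient.mk (Wedge.st G) d)).inc ⟨d, Wedge.mem_S.2 rfl⟩ =
          (Wedge.X G (Quotient.mk (Wedge.st G) d)).v0 := Subtype.ext hd
      have e1 : (wedge (Wedge.X G)).inc (e d) = none := Wedge.inc_none _ _ _ h0
      rw [e1]; exact hd
    · have h0 : (Wedge.X G (Quotient.mk (Wedge.st G) d)).inc ⟨d, Wedge.mem_S.2 rfl⟩ ≠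
          (Wedge.X G (Quotient.mk (Wedge.st G) d)).v0 := fun h => hd (congrArg Subtype.val h)
      have e1 : (wedge (Wedge.X G)).inc (e d) = _ := Wedge.inc_some _ _ _ h0
      rw [e1]
      rfl
  · rw [Equiv.symm_apply_eq]
    rfl

theorem wedge_dec {G : RG} (h : G.IsGood) : ∃ (J : Type) (_ : Fintype J) (_ : DecidableEq J)
    (X : J → RG), (∀ j, (X j).IsGood ∧ Piece (X j) ∧ (X j).size ≤ G.size) ∧
      RIso G (wedge X) := by
  classical
  refine ⟨Wedge.J G, inferInstance, inferInstance, Wedge.X G, ?_, Wedge.iso h⟩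
  intro j
  refine ⟨Wedge.X_good h j, Wedge.X_piece j, ?_⟩
  exact Fintype.card_le_of_injective (fun x : (Wedge.X G j).V => (x.1 : G.V))
    Subtype.val_injective

end PGr
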