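import Pool.Agent.PGr.SumLib
import Pool.Agent.PGr.PlanarPl
import Pool.Agent.PGr.ConeGood
import Pool.Agent.PGr.Wedge

/-! # Module Cone: unlabelled planar graphs are at most as many as rooted connected ones with one
vertex more -/

set_option linter.unusedSectionVars false

namespace PGr
open Equiv Finset
open scoped ENNReal Classical

section
variable {V : Type} [Fintype V] [DecidableEq V]

theorem cone_good {G : SimpleGraph V} (h : IsPlanar G) : (cone G).IsGood :=
  cone_good' (planar_pl h)

theorem cone_size (G : SimpleGraph V) : (cone G).size = Fintype.card V + 1 := by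
  unfold RG.size
  exact Fintype.card_option

/-- a vertex of the cone -/
def Cone_v (G : SimpleGraph V) (u : V) : (cone G).V := (some u : Option V)

theorem Cone_adj {G H : SimpleGraph V} (e : (cone G).D ≃ (cone H).D)
    (f : (cone G).V ≃ (cone H).V)
    (h1 : ∀ d, e ((cone G).a d) = (cone H).a (e d)) (h2 : ∀ d, f ((cone G).inc d) = (cone H).inc (e d))
    {u v u' v' : V} (hu : f (Cone_v G u) = Cone_v H u') (hv : f (Cone_v G v) = Cone_v H v')
    (hG : G.Adj u v) : H.Adj u' v' := by
  let d : G.Dart := ⟨(u, v), hG⟩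
  have e1 : f (Cone_v G u) = (cone H).inc (e (Sum.inl d)) := h2 (Sum.inl d)
  have e2 : f (Cone_v G v) = (cone H).inc ((cone H).a (e (Sum.inl d))) := by
    rw [← h1, ← h2]
    rfl
  rw [hu] at e1
  rw [hv] at e2
  rcases h : e (Sum.inl d) with d' | ⟨c, b⟩
  · rw [h] at e1 e2
    have e3 : some u' = some d'.fst := e1
    have e4 : some v' = some d'.snd := e2
    rw [Option.some.inj e3, Option.some.inj e4]
    exact d'.adj
  · rw [h] at e1 e2
    cases b with
    | true =>
      have e3 : some u' = (none : Option V) := e1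
      exact absurd e3 (by simp)
    | false =>
      have e3 : some v' = (none : Option V) := e2
      exact absurd e3 (by simp)

theorem cone_inj {G H : SimpleGraph V} (h : RIso (cone G) (cone H)) : Nonempty (G ≃g H) := by
  obtain ⟨e, f, h1, h2, h3⟩ := h
  have key : ∃ g : V ≃ V, ∀ v, f (Cone_v G v) = Cone_v H (g v) := by
    have hf : ∀ v : V, ∃ w : V, f (Cone_v G v) = Cone_v H w := by
      intro v
      have h4 : (f (Cone_v G v) : Option V) ≠ (none : Option V) := by
        intro h5
        have h6 : f (Cone_v G v) = f (cone G).v0 := Eq.trans h5 h3.symm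
        have h7 : (some v : Option V) = none := f.injective h6
        exact absurd h7 (by simp)
      obtain ⟨w, hw⟩ := Option.ne_none_iff_exists'.mp h4
      exact ⟨w, hw⟩
    choose g hg using hf
    have hinj : Function.Injective g := by
      intro v w hvw
      have h4 : f (Cone_v G v) = f (Cone_v G w) := by rw [hg, hg, hvw]
      have h5 : (some v : Option V) = some w := f.injective h4
      exact Option.some.inj h5
    exact ⟨Equiv.ofBijective g (Finite.injective_iff_bijective.mp hinj), hg⟩
  obtain ⟨g, hg⟩ := key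
  refine ⟨⟨g, fun {u v} => ⟨fun hH => ?_, fun hG => ?_⟩⟩⟩
  · refine Cone_adj (G := H) (H := G) e.symm f.symm ?_ ?_ (u := g u) (v := g v) (u' := u)
      (v' := v) ?_ ?_ hH
    · intro d
      rw [Equiv.symm_apply_eq, h1, Equiv.apply_symm_apply]
    · intro d
      rw [Equiv.symm_apply_eq, h2, Equiv.apply_symm_apply]
    · exact (Equiv.symm_apply_eq f).mpr (hg u).symm
    · exact (Equiv.symm_apply_eq f).mpr (hg v).symm
  · exact Cone_adj e f h1 h2 (hg u) (hg v) hG

end

theorem u_le (x : ℝ≥0∞) (n : ℕ) : (u n : ℝ≥0∞) * x ^ (n + 1) ≤ Kn x (n + 1) := by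
  have h1 : (u n : ℝ≥0∞) * x ^ (n + 1) = ∑' _ : Quotient (pSetoid n), x ^ (n + 1) := by
    have hfin : Finite (Quotient (pSetoid n)) := inferInstance
    have := Fintype.ofFinite (Quotient (pSetoid n))
    rw [tsum_fintype, Finset.sum_const, nsmul_eq_mul, Finset.card_univ, u,
      Nat.card_eq_fintype_card]
  rw [h1]
  refine tsum_le_tsum_of_inj (fun q : Quotient (pSetoid n) =>
    (Quotient.mk rSetoid ⟨cone q.out.1, cone_good q.out.2⟩ : RC)) ?_ ?_
  · intro q q' h
    have h2 : RIso (cone q.out.1) (cone q'.out.1) := Quotient.exact h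
    have h4 := Quotient.sound (s := pSetoid n) (cone_inj h2 : (pSetoid n).r q.out q'.out)
    rwa [Quotient.out_eq, Quotient.out_eq] at h4
  · intro q
    have h2 : RIso (Quotient.out (Quotient.mk rSetoid
      ⟨cone q.out.1, cone_good q.out.2⟩)).1 (cone q.out.1) :=
      Quotient.exact (s := rSetoid) (Quotient.out_eq _)
    have h3 : (Quotient.out (Quotient.mk rSetoid
      ⟨cone q.out.1, cone_good q.out.2⟩)).1.size = n + 1 := by
      rw [h2.size_eq, cone_size, Fintype.card_fin]
    unfold wK
    rw [if_pos (le_of_eq h3)]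
    exact le_of_eq (by rw [← h3])

end PGr
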