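import Pool.Agent.PGr.RGDefs

/-! # Module Expand: size and isomorphism invariance of `expand` -/

set_option linter.unusedSectionVars false

namespace PGr
open Equiv Finset
open scoped ENNReal

theorem expand_size (N : LNet RC) :
    (expand N).size = 1 + ∑ v : {v : N.V // v ≠ N.pole true}, (N.lab v.1).rep.1.size := by
  show Fintype.card (Option (Σ v : {v : N.V // v ≠ N.pole true}, (N.lab v.1).rep.1.V)) = _
  rw [Fintype.card_option, Fintype.card_sigma, add_comm]
  rfl

theorem Expand.sum_split (N : LNet RC) (hp : N.pole true ≠ N.pole false) (g : N.V → ℕ) :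
    ∑ v : {v : N.V // v ≠ N.pole true}, g v.1 = g (N.pole false) + ∑ v : N.Int, g v.1 := by
  classical
  have h1 : ∑ v : {v : N.V // v ≠ N.pole true}, g v.1 =
      ∑ v ∈ univ.filter (fun v : N.V => v ≠ N.pole true), g v := by
    rw [← Finset.sum_subtype (univ.filter (fun v : N.V => v ≠ N.pole true)) (by simp)]
  have h2 : ∑ v : N.Int, g v.1 = ∑ v ∈ univ.filter (fun v : N.V => ∀ b, v ≠ N.pole b), g v := by
    rw [Finset.sum_subtype (univ.filter (fun v : N.V => ∀ b, v ≠ N.pole b))
      (p := fun v : N.V => ∀ b, v ≠ N.pole b) (by simp)]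
    rfl
  have h3 : univ.filter (fun v : N.V => v ≠ N.pole true) =
      insert (N.pole false) (univ.filter (fun v : N.V => ∀ b, v ≠ N.pole b)) := by
    ext v
    simp only [mem_filter, mem_univ, true_and, mem_insert, Bool.forall_bool]
    constructor
    · intro h
      by_cases h' : v = N.pole false
      · exact Or.inl h'
      · exact Or.inr ⟨h', h⟩
    · rintro (h | h)
      · rw [h]; exact hp.symm
      · exact h.2
  rw [h1, h2, h3, Finset.sum_insert (by simp)]

/-- the product of the weights `x ^ size` of the labels -/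
theorem expand_weight (x : ℝ≥0∞) (N : LNet RC) (hp : N.pole true ≠ N.pole false) :
    x ^ ((expand N).size - 1) = x ^ (N.lab (N.pole false)).rep.1.size *
      wt (fun c : RC => x ^ c.rep.1.size) N := by
  rw [expand_size, Nat.add_sub_cancel_left, wt,
    Expand.sum_split N hp (fun v => (N.lab v).rep.1.size), pow_add,
    Finset.prod_pow_eq_pow_sum]

theorem Expand.some_eq (N' : LNet RC) {w w' : N'.V} (h : w ≠ N'.pole true) (h' : w' ≠ N'.pole true)
    (e : w = w') :
    (some ⟨⟨w, h⟩, (N'.lab w).rep.1.v0⟩ :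
      Option (Σ v : {v : N'.V // v ≠ N'.pole true}, (N'.lab v.1).rep.1.V)) =
    some ⟨⟨w', h'⟩, (N'.lab w').rep.1.v0⟩ := by
  subst e; rfl

theorem expand_iso {N N' : LNet RC} (h : NIso N N')
    (hl : N.lab (N.pole false) = N'.lab (N'.pole false)) : RIso (expand N) (expand N') := by
  classical
  obtain ⟨e, f, h1, h2, h3, h4⟩ := h
  have hlab : ∀ v : {v : N.V // v ≠ N.pole true}, N.lab v.1 = N'.lab (f v.1) := by
    rintro ⟨v, hv⟩
    by_cases hv' : v = N.pole false
    · subst hv'
      rw [h3]; exact hl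
    · exact (h4 v (by rintro (_ | _) <;> assumption)).symm
  have hiso : ∀ v : {v : N.V // v ≠ N.pole true},
      RIso (N.lab v.1).rep.1 (N'.lab (f v.1)).rep.1 := by
    intro v
    rw [hlab v]
    exact RIso.refl _
  choose ev fv g1 g2 g3 using hiso
  let F : {v : N.V // v ≠ N.pole true} ≃ {v : N'.V // v ≠ N'.pole true} :=
    f.subtypeEquiv (fun v => by rw [← h3, Ne, Ne, f.injective.eq_iff])
  let E : (expand N).D ≃ (expand N').D :=
    Equiv.sumCongr (Equiv.sumCongr e (Equiv.refl Bool))
      (Equiv.sigmaCongr (β₂ := fun v : {v : N'.V // v ≠ N'.pole true} => (N'.lab v.1).rep.1.D) F ev)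
  let G : (expand N).V ≃ (expand N').V :=
    Equiv.optionCongr (Equiv.sigmaCongr
      (β₂ := fun v : {v : N'.V // v ≠ N'.pole true} => (N'.lab v.1).rep.1.V) F fv)
  refine ⟨E, G, ?_, ?_, rfl⟩
  · rintro ((d | b) | ⟨v, d⟩)
    · show (Sum.inl (Sum.inl (e (N.a d))) : (expand N').D) = Sum.inl (Sum.inl (N'.a (e d)))
      rw [h1]
    · rfl
    · show (Sum.inr ⟨F v, ev v ((N.lab v.1).rep.1.a d)⟩ : (expand N').D) =
        Sum.inr ⟨F v, (N'.lab (f v.1)).rep.1.a (ev v d)⟩
      rw [g1]
  · have hinc : ∀ t : N.T, f (N.inc t) = N'.inc ((Equiv.sumCongr e (Equiv.refl Bool)) t) := by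
      rintro (d | b)
      · exact h2 d
      · exact h3 b
    rintro (t | ⟨v, d⟩)
    · have ht := hinc t
      by_cases hn : N.inc t = N.pole true
      · have hn' : N'.inc ((Equiv.sumCongr e (Equiv.refl Bool)) t) = N'.pole true := by
          rw [← ht, hn, h3]
        have e1 : (expand N).inc (Sum.inl t) = none := by
          show (if h : N.inc t = N.pole true then none else _) = none
          rw [dif_pos hn]
        have e2 : (expand N').inc (E (Sum.inl t)) = none := by
          show (if h : N'.inc ((Equiv.sumCongr e (Equiv.refl Bool)) t) = N'.pole true then none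
            else _) = none
          rw [dif_pos hn']
        rw [e1, e2]; rfl
      · have hn' : N'.inc ((Equiv.sumCongr e (Equiv.refl Bool)) t) ≠ N'.pole true := by
          rw [← ht, ← h3]
          exact fun h => hn (f.injective h)
        have e1 : (expand N).inc (Sum.inl t) =
            some ⟨⟨N.inc t, hn⟩, (N.lab (N.inc t)).rep.1.v0⟩ := by
          show (if h : N.inc t = N.pole true then none else _) = _
          rw [dif_neg hn]
        have e2 : (expand N').inc (E (Sum.inl t)) =
            some ⟨⟨N'.inc ((Equiv.sumCongr e (Equiv.refl Bool)) t), hn'⟩,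
              (N'.lab (N'.inc ((Equiv.sumCongr e (Equiv.refl Bool)) t))).rep.1.v0⟩ := by
          show (if h : N'.inc ((Equiv.sumCongr e (Equiv.refl Bool)) t) = N'.pole true then none
            else _) = _
          rw [dif_neg hn']
        rw [e1, e2]
        show (some ⟨F ⟨N.inc t, hn⟩, fv ⟨N.inc t, hn⟩ (N.lab (N.inc t)).rep.1.v0⟩ :
          Option (Σ v : {v : N'.V // v ≠ N'.pole true}, (N'.lab v.1).rep.1.V)) = _
        rw [g3]
        exact Expand.some_eq N' (by rw [ht]; exact hn') hn' ht
    · show (some ⟨F v, fv v ((N.lab v.1).rep.1.inc d)⟩ :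
        Option (Σ v : {v : N'.V // v ≠ N'.pole true}, (N'.lab v.1).rep.1.V)) =
        some ⟨F v, (N'.lab (f v.1)).rep.1.inc (ev v d)⟩
      rw [g2]

end PGr
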