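import Pool.Agent.PGr.NetDefs
import Pool.Agent.PGr.CutIso

/-! # Module GlueLib: weight, size and isomorphism invariance of glued networks -/

set_option linter.unusedSectionVars false

namespace PGr
open Equiv Finset
open scoped ENNReal
universe u
variable {Λ : Type u}

/-- the induced bijection of the internal vertices -/
def GlueLib.intEquiv {N N' : LNet Λ} (f : N.V ≃ N'.V) (h3 : ∀ b, f (N.pole b) = N'.pole b) :
    N.Int ≃ N'.Int :=
  f.subtypeEquiv (fun x => by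
    constructor
    · intro h b hb
      exact h b (f.injective (hb.trans (h3 b).symm))
    · intro h b hb
      exact h b (by rw [hb, h3]))

theorem GlueLib.intEquiv_val {N N' : LNet Λ} (f : N.V ≃ N'.V)
    (h3 : ∀ b, f (N.pole b) = N'.pole b) (x : N.Int) :
    (GlueLib.intEquiv f h3 x).1 = f x.1 := rfl

/-- the induced bijection of all darts -/
def GlueLib.dart {N N' : LNet Λ} (e : N.D ≃ N'.D) : N.T ≃ N'.T :=
  Equiv.sumCongr e (Equiv.refl Bool)

theorem GlueLib.dart_aa {N N' : LNet Λ} {e : N.D ≃ N'.D} (h1 : ∀ d, e (N.a d) = N'.a (e d))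
    (t : N.T) : GlueLib.dart e (N.aa t) = N'.aa (GlueLib.dart e t) := by
  rcases t with d | b
  · change Sum.inl (e (N.a d)) = Sum.inl (N'.a (e d))
    rw [h1]
  · rfl

theorem GlueLib.dart_inc {N N' : LNet Λ} {e : N.D ≃ N'.D} {f : N.V ≃ N'.V}
    (h2 : ∀ d, f (N.inc (Sum.inl d)) = N'.inc (Sum.inl (e d)))
    (h3 : ∀ b, f (N.pole b) = N'.pole b) (t : N.T) :
    f (N.inc t) = N'.inc (GlueLib.dart e t) := by
  rcases t with d | b
  · exact h2 d
  · exact h3 b

theorem GlueLib.sh {T T' V V' : Type*} {inc : T → V} {inc' : T' → V'} (e : T ≃ T') (f : V ≃ V')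
    (h : ∀ t, f (inc t) = inc' (e t)) (A : Finset T) (x : V) :
    Sh inc' (A.map e.toEmbedding) (f x) ↔ Sh inc A x := by
  have hm : ∀ t, e t ∈ A.map e.toEmbedding ↔ t ∈ A := by
    intro t
    rw [Finset.mem_map_equiv, Equiv.symm_apply_apply]
  constructor
  · rintro ⟨⟨t, ht, h1⟩, t', ht', h2⟩
    obtain ⟨t, rfl⟩ := e.surjective t
    obtain ⟨t', rfl⟩ := e.surjective t'
    rw [hm] at ht ht'
    rw [← h] at h1 h2
    exact ⟨⟨t, ht, f.injective h1⟩, t', ht', f.injective h2⟩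
  · rintro ⟨⟨t, ht, h1⟩, t', ht', h2⟩
    refine ⟨⟨e t, (hm t).2 ht, ?_⟩, e t', fun h3 => ht' ((hm t').1 h3), ?_⟩
    · rw [← h, h1]
    · rw [← h, h2]

theorem GlueLib.nuniv {T T' : Type*} [Fintype T] [DecidableEq T] [Fintype T'] [DecidableEq T']
    (e : T ≃ T') {A : Finset T'} (h : A ≠ univ) : A.map e.symm.toEmbedding ≠ univ :=
  fun h1 => h (CutIso.map_univ e.symm h1)

theorem NIso.card_eq {N N' : LNet Λ} (h : NIso N N') : Fintype.card N.D = Fintype.card N'.D := by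
  obtain ⟨e, f, h1, h2, h3, h4⟩ := h
  exact Fintype.card_congr e

theorem NIso.wt_eq {N N' : LNet Λ} (h : NIso N N') (w : Λ → ℝ≥0∞) : wt w N = wt w N' := by
  obtain ⟨e, f, h1, h2, h3, h4⟩ := h
  unfold wt
  refine Fintype.prod_equiv (GlueLib.intEquiv f h3) _ _ ?_
  intro x
  rw [GlueLib.intEquiv_val, h4 x.1 x.2]

theorem NIso.good {N N' : LNet Λ} (h : NIso N N') (hN : N.IsGood) : N'.IsGood := by
  obtain ⟨e, f, h1, h2, h3, h4⟩ := h
  have ha := GlueLib.dart_aa h1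
  have hi := GlueLib.dart_inc h2 h3
  constructor
  · intro d
    obtain ⟨d, rfl⟩ := e.surjective d
    rw [← h1, ← h1, hN.inv]
  · intro d
    obtain ⟨d, rfl⟩ := e.surjective d
    rw [← h1]
    exact fun h5 => hN.fpf d (e.injective h5)
  · obtain ⟨d⟩ := hN.ne
    exact ⟨e d⟩
  · intro x
    obtain ⟨t, ht⟩ := hN.surj (f.symm x)
    refine ⟨GlueLib.dart e t, ?_⟩
    rw [← hi, ht, Equiv.apply_symm_apply]
  · intro t
    obtain ⟨t, rfl⟩ := (GlueLib.dart e).surjective t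
    rw [← ha, ← hi, ← hi]
    exact fun h5 => hN.loop t (f.injective h5)
  · intro d d' h5 h6
    obtain ⟨d, rfl⟩ := e.surjective d
    obtain ⟨d', rfl⟩ := e.surjective d'
    rw [← h2, ← h2] at h5
    rw [← h1, ← h1, ← h2, ← h2] at h6
    rw [hN.simp d d' (f.injective h5) (f.injective h6)]
  · intro A hA hne hu
    have hA' : Cl N.aa (A.map (GlueLib.dart e).symm.toEmbedding) :=
      Cl_iso (GlueLib.dart e).symm (CutIso.symm ha) hA
    obtain ⟨x, y, hxy, hx, hy⟩ := hN.two _ hA' hne.map (GlueLib.nuniv (GlueLib.dart e) hu)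
    have h5 := (GlueLib.sh (GlueLib.dart e) f hi _ x).2 hx
    have h6 := (GlueLib.sh (GlueLib.dart e) f hi _ y).2 hy
    rw [CutIso.map_symm] at h5 h6
    exact ⟨f x, f y, fun h7 => hxy (f.injective h7), h5, h6⟩
  · obtain ⟨s, hs1, hs2⟩ := hN.planar
    have hc : ∀ t, GlueLib.dart e (s t) =
        ((GlueLib.dart e).permCongr s) (GlueLib.dart e t) := by
      intro t
      simp [Equiv.permCongr_apply]
    refine ⟨(GlueLib.dart e).permCongr s, ?_, Pl_iso (GlueLib.dart e) ha hc hs2⟩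
    intro t t'
    obtain ⟨t, rfl⟩ := (GlueLib.dart e).surjective t
    obtain ⟨t', rfl⟩ := (GlueLib.dart e).surjective t'
    rw [← hi, ← hi, f.injective.eq_iff, ← hs1]
    constructor
    · rintro ⟨i, h5⟩
      refine ⟨i, (GlueLib.dart e).injective ?_⟩
      rw [CutIso.zpow (GlueLib.dart e) hc]
      exact h5
    · rintro ⟨i, h5⟩
      refine ⟨i, ?_⟩
      rw [← CutIso.zpow (GlueLib.dart e) hc, h5]

theorem NIso.direct {N N' : LNet Λ} (h : NIso N N') (hN : Direct N) : Direct N' := by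
  obtain ⟨e, f, h1, h2, h3, h4⟩ := h
  obtain ⟨d, h5, h6⟩ := hN
  refine ⟨e d, ?_, ?_⟩
  · rw [← h2, h5, h3]
  · rw [← h1, ← h2, h6, h3]

theorem NIso.conn {N N' : LNet Λ} (h : NIso N N') (hN : Conn N) : Conn N' := by
  obtain ⟨e, f, h1, h2, h3, h4⟩ := h
  intro A hA hne hu
  have hA' : Cl N.a (A.map e.symm.toEmbedding) := Cl_iso e.symm (CutIso.symm h1) hA
  obtain ⟨x, hx, hs⟩ := hN _ hA' hne.map (GlueLib.nuniv e hu)
  have h5 := (GlueLib.sh (inc' := fun d => N'.inc (Sum.inl d)) e f h2 _ x).2 hs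
  rw [CutIso.map_symm] at h5
  refine ⟨f x, fun b hb => hx b (f.injective (hb.trans (h3 b).symm)), h5⟩

theorem NIso.ser {N N' : LNet Λ} (h : NIso N N') (hN : SerN N) : SerN N' := by
  obtain ⟨e, f, h1, h2, h3, h4⟩ := h
  obtain ⟨A, hA, hne, hu, hxy⟩ := hN
  refine ⟨A.map e.toEmbedding, Cl_iso e h1 hA, hne.map, fun h5 => hu (CutIso.map_univ e h5), ?_⟩
  intro x y hx hy
  obtain ⟨x, rfl⟩ := f.surjective x
  obtain ⟨y, rfl⟩ := f.surjective y
  rw [GlueLib.sh e f h2] at hx hy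
  rw [hxy x y hx hy]

section
variable {I Vc : Type} [Fintype I] [DecidableEq I] [Fintype Vc] [DecidableEq Vc]

/-- the internal vertices of a glued network -/
def GlueLib.glueInt (cinc : (I × Bool) ⊕ Bool → Vc) (N : I → LNet Λ) (g : Vc → Λ) :
    ({x : Vc // ∀ b, x ≠ cinc (Sum.inr b)} ⊕ Σ i, (N i).Int) ≃ (glue cinc N g).Int where
  toFun
    | Sum.inl x => ⟨Sum.inl x.1, fun b hb => x.2 b (Sum.inl.inj hb)⟩
    | Sum.inr x => ⟨Sum.inr x, fun _ hb => by cases hb⟩
  invFun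
    | ⟨Sum.inl x, h⟩ => Sum.inl ⟨x, fun b hb => h b (congrArg Sum.inl hb)⟩
    | ⟨Sum.inr x, _⟩ => Sum.inr x
  left_inv := by rintro (x | x) <;> rfl
  right_inv := by rintro ⟨x | x, h⟩ <;> rfl

theorem wt_glue (w : Λ → ℝ≥0∞) (cinc : (I × Bool) ⊕ Bool → Vc) (N : I → LNet Λ) (g : Vc → Λ) :
    wt w (glue cinc N g) =
      (∏ x : {x : Vc // ∀ b, x ≠ cinc (Sum.inr b)}, w (g x.1)) * ∏ i, wt w (N i) := by
  unfold wt
  rw [← Fintype.prod_equiv (GlueLib.glueInt cinc N g) (fun x => w ((glue cinc N g).lab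
    (GlueLib.glueInt cinc N g x).1)) _ (fun x => rfl)]
  rw [Fintype.prod_sum_type, Fintype.prod_sigma]
  rfl

theorem GlueLib.inc_true (cinc : (I × Bool) ⊕ Bool → Vc) (N : I → LNet Λ) {i : I} {d : (N i).D}
    (h : (N i).inc (Sum.inl d) = (N i).pole true) :
    glueInc cinc N (Sum.inl ⟨i, d⟩) = Sum.inl (cinc (Sum.inl (i, true))) := dif_pos h

theorem GlueLib.inc_false (cinc : (I × Bool) ⊕ Bool → Vc) (N : I → LNet Λ) {i : I} {d : (N i).D}
    (h1 : ¬ (N i).inc (Sum.inl d) = (N i).pole true)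
    (h : (N i).inc (Sum.inl d) = (N i).pole false) :
    glueInc cinc N (Sum.inl ⟨i, d⟩) = Sum.inl (cinc (Sum.inl (i, false))) :=
  (dif_neg h1).trans (dif_pos h)

theorem GlueLib.inc_int (cinc : (I × Bool) ⊕ Bool → Vc) (N : I → LNet Λ) {i : I} {d : (N i).D}
    (h1 : ¬ (N i).inc (Sum.inl d) = (N i).pole true)
    (h2 : ¬ (N i).inc (Sum.inl d) = (N i).pole false) :
    glueInc cinc N (Sum.inl ⟨i, d⟩) =
      Sum.inr ⟨i, ⟨(N i).inc (Sum.inl d), by rintro (_ | _) <;> assumption⟩⟩ :=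
  (dif_neg h1).trans (dif_neg h2)

/-- the glued network depends only on the classes of the networks and the labels of the internal
vertices; the index set may be changed along a bijection compatible with `cinc`. -/
theorem glue_iso {I' : Type} [Fintype I'] [DecidableEq I'] (cinc : (I × Bool) ⊕ Bool → Vc)
    (cinc' : (I' × Bool) ⊕ Bool → Vc) (N : I → LNet Λ) (N' : I' → LNet Λ) (g g' : Vc → Λ)
    (π : I ≃ I') (hπ : ∀ i b, cinc' (Sum.inl (π i, b)) = cinc (Sum.inl (i, b)))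
    (hr : ∀ b, cinc' (Sum.inr b) = cinc (Sum.inr b))
    (hN : ∀ i, NIso (N i) (N' (π i)))
    (hg : ∀ x, (∀ b, x ≠ cinc (Sum.inr b)) → g x = g' x) :
    NIso (glue cinc N g) (glue cinc' N' g') := by
  choose e f h1 h2 h3 h4 using hN
  refine ⟨Equiv.sigmaCongr π e, Equiv.sumCongr (Equiv.refl Vc)
    (Equiv.sigmaCongr π (fun i => GlueLib.intEquiv (f i) (h3 i))), ?_, ?_, ?_, ?_⟩
  · rintro ⟨i, d⟩
    change (⟨π i, e i ((N i).a d)⟩ : Σ i, (N' i).D) = ⟨π i, (N' (π i)).a (e i d)⟩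
    rw [h1]
  · rintro ⟨i, d⟩
    change (Equiv.sumCongr (Equiv.refl Vc)
      (Equiv.sigmaCongr π (fun i => GlueLib.intEquiv (f i) (h3 i))))
      (glueInc cinc N (Sum.inl ⟨i, d⟩)) = glueInc cinc' N' (Sum.inl ⟨π i, e i d⟩)
    have hp : ∀ b, (N' (π i)).inc (Sum.inl (e i d)) = (N' (π i)).pole b ↔
        (N i).inc (Sum.inl d) = (N i).pole b := by
      intro b
      rw [← h2, ← h3, (f i).injective.eq_iff]
    by_cases c1 : (N i).inc (Sum.inl d) = (N i).pole true
    · rw [GlueLib.inc_true _ _ c1, GlueLib.inc_true _ _ ((hp true).2 c1)]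
      change Sum.inl (cinc (Sum.inl (i, true))) = _
      rw [hπ]
    · by_cases c2 : (N i).inc (Sum.inl d) = (N i).pole false
      · rw [GlueLib.inc_false _ _ c1 c2, GlueLib.inc_false _ _ (fun c => c1 ((hp true).1 c))
          ((hp false).2 c2)]
        change Sum.inl (cinc (Sum.inl (i, false))) = _
        rw [hπ]
      · rw [GlueLib.inc_int _ _ c1 c2, GlueLib.inc_int _ _ (fun c => c1 ((hp true).1 c))
          (fun c => c2 ((hp false).1 c))]
        change Sum.inr (⟨π i, _⟩ : Σ i, (N' i).Int) = Sum.inr ⟨π i, _⟩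
        congr 2
        exact Subtype.ext (h2 i d)
  · intro b
    change Sum.inl (cinc (Sum.inr b)) = Sum.inl (cinc' (Sum.inr b))
    rw [hr]
  · rintro (x | ⟨i, x⟩) hx
    · change g' x = g x
      exact (hg x (fun b hb => hx b (congrArg Sum.inl hb))).symm
    · change (N' (π i)).lab (f i x.1) = (N i).lab x.1
      exact h4 i x.1 x.2

end

theorem wt_edgeNet (w : Λ → ℝ≥0∞) (g : Bool → Λ) : wt w (edgeNet g) = 1 := by
  have : IsEmpty (edgeNet g).Int := ⟨fun x => x.2 x.1 rfl⟩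
  unfold wt
  exact Fintype.prod_empty _

theorem GlueLib.wt_bondInc (w : Λ → ℝ≥0∞) {J : Type} [Fintype J] [DecidableEq J]
    (X : J → LNet Λ) (g : Bool → Λ) : wt w (glue (bondInc J) X g) = ∏ j, wt w (X j) := by
  rw [wt_glue]
  have : IsEmpty {x : Bool // ∀ b, x ≠ bondInc J (Sum.inr b)} := ⟨fun x => x.2 x.1 rfl⟩
  rw [Fintype.prod_empty, one_mul]

theorem wt_bond (w : Λ → ℝ≥0∞) {J : Type} [Fintype J] [DecidableEq J] (b : Bool) (X : J → LNet Λ)
    (g : Bool → Λ) : wt w (bond b X g) = ∏ j, wt w (X j) := by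
  cases b
  · exact GlueLib.wt_bondInc w X g
  · change wt w (glue (bondInc (Option J)) (fun i => i.elim (edgeNet g) X) g) = _
    rw [GlueLib.wt_bondInc, Fintype.prod_option]
    change wt w (edgeNet g) * _ = _
    rw [wt_edgeNet, one_mul]
    rfl

theorem GlueLib.edge_iso (g g' : Bool → Λ) : NIso (edgeNet g) (edgeNet g') :=
  ⟨Equiv.refl _, Equiv.refl _, fun _ => rfl, fun _ => rfl, fun _ => rfl,
    fun x hx => absurd rfl (hx x)⟩

theorem bond_iso {J J' : Type} [Fintype J] [DecidableEq J] [Fintype J'] [DecidableEq J'] (b : Bool)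
    (X : J → LNet Λ) (X' : J' → LNet Λ) (g g' : Bool → Λ) (π : J ≃ J')
    (hX : ∀ j, NIso (X j) (X' (π j))) :
    NIso (bond b X g) (bond b X' g') := by
  cases b
  · exact glue_iso _ _ X X' g g' π (fun _ _ => rfl) (fun _ => rfl) hX
      (fun x hx => absurd rfl (hx x))
  · refine glue_iso (bondInc (Option J)) (bondInc (Option J')) (fun i => i.elim (edgeNet g) X)
      (fun i => i.elim (edgeNet g') X') g g' (Equiv.optionCongr π) (fun _ _ => rfl)
      (fun _ => rfl) ?_ (fun x hx => absurd rfl (hx x))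
    rintro (_ | j)
    · exact GlueLib.edge_iso g g'
    · exact hX j

theorem wt_serGlue (w : Λ → ℝ≥0∞) (N₁ N₂ : LNet Λ) (g : Option Bool → Λ) :
    wt w (serGlue N₁ N₂ g) = w (g none) * (wt w N₁ * wt w N₂) := by
  unfold serGlue
  rw [wt_glue, Fintype.prod_bool]
  congr 1
  have h : ∀ x : {x : Option Bool // ∀ b, x ≠ serInc (Sum.inr b)}, x.1 = none := by
    rintro ⟨_ | b, hx⟩
    · rfl
    · exact absurd rfl (hx b)
  let x0 : {x : Option Bool // ∀ b, x ≠ serInc (Sum.inr b)} :=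
    ⟨none, fun b hb => by cases hb⟩
  have hu : ∀ x : {x : Option Bool // ∀ b, x ≠ serInc (Sum.inr b)}, x = x0 := fun x =>
    Subtype.ext (h x)
  rw [Fintype.prod_eq_single x0 (fun x hx => absurd (hu x) hx)]

theorem serGlue_iso {N₁ N₂ N₁' N₂' : LNet Λ} {g g' : Option Bool → Λ}
    (h₁ : NIso N₁ N₁') (h₂ : NIso N₂ N₂') (hg : g none = g' none) :
    NIso (serGlue N₁ N₂ g) (serGlue N₁' N₂' g') := by
  refine glue_iso serInc serInc _ _ g g' (Equiv.refl Bool) (fun _ _ => rfl) (fun _ => rfl) ?_ ?_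
  · intro i
    cases i
    · exact h₂
    · exact h₁
  · rintro (_ | b) hx
    · exact hg
    · exact absurd rfl (hx b)

end PGr
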