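import Pool.Agent.PGr.SumDefs

/-! # Module MSet: the generating function of multisets -/

set_option linter.unusedSectionVars false

namespace PGr
open Equiv Finset
open scoped ENNReal Classical

theorem MSet.prod_map_mono {ι : Type*} {f g : ι → ℝ≥0∞} (h : ∀ i, f i ≤ g i) (m : Multiset ι) :
    (m.map f).prod ≤ (m.map g).prod := by
  induction m using Multiset.induction_on with
  | empty => simp
  | cons a m ih =>
    rw [Multiset.map_cons, Multiset.map_cons, Multiset.prod_cons, Multiset.prod_cons]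
    exact mul_le_mul' (h a) ih

theorem MS_mono {ι : Type*} {f g : ι → ℝ≥0∞} (h : ∀ i, f i ≤ g i) : MS f ≤ MS g :=
  ENNReal.tsum_le_tsum fun m => MSet.prod_map_mono h m

theorem one_le_MS {ι : Type*} (f : ι → ℝ≥0∞) : 1 ≤ MS f := by
  have := ENNReal.le_tsum (f := fun m : Multiset ι => (m.map f).prod) 0
  simpa [MS] using this

/-- `-log (1 - w) ≤ c w` on `[0, x0]` when it holds at `x0` -/
theorem inv_one_sub_le {x0 c w : ℝ} (hx : 0 < x0) (hx1 : x0 < 1) (hc : 1 / (1 - x0) ≤ Real.exp (c * x0))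
    (hw : 0 ≤ w) (hw' : w ≤ x0) : 1 / (1 - w) ≤ Real.exp (c * w) := by
  have h1 : 0 < 1 - x0 := by linarith
  have h2 : 0 < 1 - w := by linarith
  have h3 : - Real.log (1 - x0) ≤ c * x0 := by
    have := Real.log_le_log (by positivity) hc
    rwa [Real.log_exp, one_div, Real.log_inv] at this
  have ht0 : 0 ≤ w / x0 := by positivity
  have ht1 : w / x0 ≤ 1 := by rw [div_le_one hx]; exact hw'
  have hconc := (strictConcaveOn_log_Ioi.concaveOn).2 (show (1 : ℝ) ∈ Set.Ioi 0 by simp)
    (show (1 - x0 : ℝ) ∈ Set.Ioi 0 by simpa using h1) (show 0 ≤ 1 - w / x0 by linarith) ht0 (by ring)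
  simp only [smul_eq_mul, Real.log_one, mul_zero, zero_add, mul_one] at hconc
  have he : 1 - w / x0 + w / x0 * (1 - x0) = 1 - w := by field_simp; ring
  rw [he] at hconc
  have h4 : w / x0 * (- Real.log (1 - x0)) ≤ w / x0 * (c * x0) := mul_le_mul_of_nonneg_left h3 ht0
  have h5 : w / x0 * (c * x0) = c * w := by field_simp
  have h6 : - Real.log (1 - w) ≤ c * w := by linarith
  have h7 : 1 / (1 - w) = Real.exp (- Real.log (1 - w)) := by
    rw [Real.exp_neg, Real.exp_log h2, one_div]
  rw [h7]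
  exact Real.exp_le_exp.mpr h6

theorem MSet.geom_le {x0 c : ℝ} (hx : 0 < x0) (hx1 : x0 < 1)
    (hc : 1 / (1 - x0) ≤ Real.exp (c * x0)) {a : ℝ≥0∞} (ha : a ≤ ENNReal.ofReal x0) (K : ℕ) :
    ∑ k ∈ range K, a ^ k ≤ ENNReal.ofReal (Real.exp (c * a.toReal)) := by
  have hfin : a ≠ ∞ := ne_top_of_le_ne_top ENNReal.ofReal_ne_top ha
  have h1 : ∑ k ∈ range K, a ^ k ≤ (1 - a)⁻¹ := by
    rw [← ENNReal.tsum_geometric]
    exact ENNReal.sum_le_tsum _
  refine h1.trans ?_
  have haR : a.toReal ≤ x0 := by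
    have := ENNReal.toReal_mono ENNReal.ofReal_ne_top ha
    rwa [ENNReal.toReal_ofReal hx.le] at this
  have h2 := inv_one_sub_le hx hx1 hc (ENNReal.toReal_nonneg (a := a)) haR
  have h3 : (1 - a)⁻¹ = ENNReal.ofReal (1 / (1 - a.toReal)) := by
    rw [one_div, ENNReal.ofReal_inv_of_pos (by linarith), ENNReal.ofReal_sub _ ENNReal.toReal_nonneg,
      ENNReal.ofReal_toReal hfin, ENNReal.ofReal_one]
  rw [h3]
  exact ENNReal.ofReal_le_ofReal h2

theorem MSet.prod_count {ι : Type*} (f : ι → ℝ≥0∞) (m : Multiset ι) (s : Finset ι)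
    (h : m.toFinset ⊆ s) : (m.map f).prod = ∏ i ∈ s, f i ^ m.count i := by
  rw [Finset.prod_multiset_map_count]
  refine Finset.prod_subset h ?_
  intro i _ hi
  rw [Multiset.mem_toFinset] at hi
  rw [Multiset.count_eq_zero_of_notMem hi, pow_zero]

theorem MS_le {ι : Type*} (f : ι → ℝ≥0∞) {x0 c S : ℝ} (hx : 0 < x0) (hx1 : x0 < 1)
    (hc : 1 / (1 - x0) ≤ Real.exp (c * x0)) (hc0 : 0 ≤ c) (hS : 0 ≤ S)
    (hf : ∀ i, f i ≤ ENNReal.ofReal x0) (hs : ∑' i, f i ≤ ENNReal.ofReal S) :
    MS f ≤ ENNReal.ofReal (Real.exp (c * S)) := by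
  unfold MS
  rw [ENNReal.tsum_eq_iSup_sum]
  refine iSup_le fun F => ?_
  set s : Finset ι := F.sup Multiset.toFinset with hsdef
  set K : ℕ := F.sup Multiset.card + 1 with hKdef
  have hsub : ∀ m ∈ F, m.toFinset ⊆ s := fun m hm => Finset.le_sup (f := Multiset.toFinset) hm
  have hcard : ∀ m ∈ F, ∀ i, m.count i < K := by
    intro m hm i
    have h1 := Multiset.count_le_card i m
    have h2 : Multiset.card m ≤ F.sup Multiset.card := Finset.le_sup (f := Multiset.card) hm
    omega
  have h1 : ∑ m ∈ F, (m.map f).prod ≤ ∏ i ∈ s, ∑ k ∈ range K, f i ^ k := by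
    rw [Finset.prod_sum]
    have hinj : Set.InjOn (fun m : Multiset ι => (fun (i : ι) (_ : i ∈ s) => m.count i)) F := by
      intro m hm m' hm' he
      ext i
      by_cases hi : i ∈ s
      · exact congrFun (congrFun he i) hi
      · have h1 : i ∉ m := fun h => hi (hsub m hm (Multiset.mem_toFinset.mpr h))
        have h2 : i ∉ m' := fun h => hi (hsub m' hm' (Multiset.mem_toFinset.mpr h))
        rw [Multiset.count_eq_zero_of_notMem h1, Multiset.count_eq_zero_of_notMem h2]
    have h2 : ∑ m ∈ F, (m.map f).prod =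
        ∑ p ∈ F.image (fun m : Multiset ι => (fun (i : ι) (_ : i ∈ s) => m.count i)),
          ∏ i ∈ s.attach, f i.1 ^ p i.1 i.2 := by
      rw [Finset.sum_image hinj]
      refine Finset.sum_congr rfl fun m hm => ?_
      rw [MSet.prod_count f m s (hsub m hm), ← Finset.prod_attach]
    rw [h2]
    refine Finset.sum_le_sum_of_subset ?_
    intro p hp
    rw [Finset.mem_image] at hp
    obtain ⟨m, hm, rfl⟩ := hp
    rw [Finset.mem_pi]
    intro i _
    exact Finset.mem_range.mpr (hcard m hm i)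
  have hfin : ∀ i, f i ≠ ∞ := fun i => ne_top_of_le_ne_top ENNReal.ofReal_ne_top (hf i)
  calc ∑ m ∈ F, (m.map f).prod ≤ ∏ i ∈ s, ∑ k ∈ range K, f i ^ k := h1
    _ ≤ ∏ i ∈ s, ENNReal.ofReal (Real.exp (c * (f i).toReal)) :=
        Finset.prod_le_prod' fun i _ => MSet.geom_le hx hx1 hc (hf i) K
    _ = ENNReal.ofReal (∏ i ∈ s, Real.exp (c * (f i).toReal)) := by
        rw [ENNReal.ofReal_prod_of_nonneg fun i _ => (Real.exp_pos _).le]
    _ = ENNReal.ofReal (Real.exp (c * ∑ i ∈ s, (f i).toReal)) := by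
        rw [← Real.exp_sum, ← Finset.mul_sum]
    _ ≤ ENNReal.ofReal (Real.exp (c * S)) := by
        refine ENNReal.ofReal_le_ofReal (Real.exp_le_exp.mpr (mul_le_mul_of_nonneg_left ?_ hc0))
        rw [← ENNReal.toReal_sum fun i _ => hfin i]
        have h3 : ∑ i ∈ s, f i ≤ ENNReal.ofReal S := (ENNReal.sum_le_tsum s).trans hs
        have h4 := ENNReal.toReal_mono ENNReal.ofReal_ne_top h3
        rwa [ENNReal.toReal_ofReal hS] at h4

/-- multisets in the image of finite families -/
theorem exists_equiv_of_map_eq {J J' ι : Type*} [Fintype J] [Fintype J'] (f : J → ι) (f' : J' → ι)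
    (h : Multiset.map f univ.val = Multiset.map f' univ.val) :
    ∃ π : J ≃ J', ∀ j, f' (π j) = f j := by
  have hc : ∀ i : ι, Fintype.card {j // f j = i} = Fintype.card {j // f' j = i} := by
    intro i
    have h1 := congrArg (Multiset.count i) h
    rw [Multiset.count_map, Multiset.count_map] at h1
    rw [Fintype.card_subtype, Fintype.card_subtype]
    have h2 : ∀ {A : Type _} [Fintype A] (g : A → ι),
        Multiset.card (Multiset.filter (fun a => i = g a) (univ : Finset A).val) =
          (univ.filter fun a => g a = i).card := by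
      intro A _ g
      rw [Finset.card_def, Finset.filter_val]
      congr 1
      refine Multiset.filter_congr fun a _ => ?_
      exact eq_comm
    have h3 := h2 f
    have h4 : Multiset.card (Multiset.filter (fun a => i = f' a) (univ : Finset J').val) =
          (univ.filter fun a => f' a = i).card := by
      rw [Finset.card_def, Finset.filter_val]
      congr 1
      refine Multiset.filter_congr fun a _ => ?_
      exact eq_comm
    rw [h3, h4] at h1
    exact h1
  have e : ∀ i : ι, {j // f j = i} ≃ {j // f' j = i} := fun i => Fintype.equivOfCardEq (hc i)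
  refine ⟨(Equiv.sigmaFiberEquiv f).symm.trans
    ((Equiv.sigmaCongrRight e).trans (Equiv.sigmaFiberEquiv f')), fun j => ?_⟩
  show f' ((e (f j)) ⟨j, rfl⟩).1 = f j
  exact ((e (f j)) ⟨j, rfl⟩).2

end PGr
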