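import Pool.Agent.PGr.BlockDefs

/-! # Module BlockIso: a piece is the expansion of its block -/

set_option linter.unusedSectionVars false

namespace PGr
open Equiv Finset

variable {G : RG} {r : G.D}

/-- a vertex of the part hooked at `c` that is also on a dart outside is `c` -/
theorem BlockIso.eq_c (X : Hook G r) {c x : G.V}
    (hx : x = c ∨ ∃ d, X.hook d = some c ∧ G.inc d = x) {d0 : G.D} (h0 : X.hook d0 ≠ some c)
    (h1 : G.inc d0 = x) : x = c := by
  rcases hx with rfl | ⟨d, hd, hdx⟩
  · rfl
  · rw [← hdx]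
    exact X.share d d0 c hd h0 (hdx.trans h1.symm)

theorem BlockIso.same (X : Hook G r) {c c' x : G.V}
    (hc : ∃ d, X.hook d = none ∧ G.inc d = c) (hc' : ∃ d, X.hook d = none ∧ G.inc d = c')
    (hx : x = c ∨ ∃ d, X.hook d = some c ∧ G.inc d = x)
    (hx' : x = c' ∨ ∃ d, X.hook d = some c' ∧ G.inc d = x) : c = c' := by
  by_contra hne
  have key : ∀ {c c' : G.V}, c ≠ c' → (∃ d, X.hook d = none ∧ G.inc d = c') →
      (x = c ∨ ∃ d, X.hook d = some c ∧ G.inc d = x) →
      (x = c' ∨ ∃ d, X.hook d = some c' ∧ G.inc d = x) → x = c := by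
    intro c c' hne hc' hx hx'
    rcases hx' with rfl | ⟨d, hd, hdx⟩
    · obtain ⟨d0, h0, h1⟩ := hc'
      exact BlockIso.eq_c X hx (by rw [h0]; simp) h1
    · exact BlockIso.eq_c X hx (d0 := d) (by
        rw [hd]; intro h; exact hne (Option.some.inj h).symm) hdx
  exact hne ((key hne hc' hx hx').symm.trans (key (Ne.symm hne) hc hx' hx))

theorem BlockIso.exists_dart {G : RG} (hG : G.IsGood) {x : G.V} (hx : x ≠ G.v0) :
    ∃ d, G.inc d = x := by
  classical
  obtain ⟨d, hd, hd'⟩ := hG.conn (univ.erase x) (by simp [hx.symm]) (by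
    intro h
    have := eq_univ_iff_forall.1 h x
    simp at this)
  refine ⟨G.a d, ?_⟩
  by_contra h
  exact hd' (by simp [h])

theorem Hook.iso (hG : G.IsGood) (X : Hook G r) (hr : G.inc r = G.v0)
    (hroot : ∀ d, X.hook d ≠ some G.v0) (lab : X.BV → RC)
    (hlab : ∀ z : X.BV, z.1 ≠ G.v0 → RIso (X.rg z.1) (lab z).rep.1) :
    RIso G (expand (X.net hG.inv lab)) := by
  classical
  apply RIso.symm
  set N := X.net hG.inv lab with hN
  have hpt : (N.pole true).1 = G.v0 := hr
  have hv0 : ∀ v : {v : N.V // v ≠ N.pole true}, v.1.1 ≠ G.v0 := by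
    rintro ⟨v, hv⟩ h
    exact hv (Subtype.ext (h.trans hpt.symm))
  have hiso : ∀ v : {v : N.V // v ≠ N.pole true}, RIso (N.lab v.1).rep.1 (X.rg v.1.1) :=
    fun v => (hlab v.1 (hv0 v)).symm
  choose ev fv h1 h2 h3 using hiso
  let g : (expand N).D → G.D := fun x =>
    match x with
    | Sum.inl (Sum.inl d) => d.1
    | Sum.inl (Sum.inr b) => bif b then r else G.a r
    | Sum.inr p => (ev p.1 p.2).1
  let k : (expand N).V → G.V := fun x =>
    match x with
    | none => G.v0
    | some p => (fv p.1 p.2).1
  have hgnone : ∀ t, X.hook (g (Sum.inl t)) = none := by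
    rintro (d | b)
    · exact d.2.1
    · cases b
      · show X.hook (G.a r) = none
        rw [X.hh, X.root]
      · exact X.root
  have hgsome : ∀ p, X.hook (g (Sum.inr p)) = some p.1.1.1 := fun p => (ev p.1 p.2).2
  have hg : Function.Bijective g := by
    constructor
    · rintro (t | p) (t' | p') h
      · congr 1
        rcases t with d | b <;> rcases t' with d' | b'
        · exact congrArg Sum.inl (Subtype.ext h)
        · exfalso
          cases b'
          · exact d.2.2.2 h
          · exact d.2.2.1 h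
        · exfalso
          cases b
          · exact d'.2.2.2 h.symm
          · exact d'.2.2.1 h.symm
        · cases b <;> cases b'
          · rfl
          · exact absurd h (hG.fpf r)
          · exact absurd h.symm (hG.fpf r)
          · rfl
      · have e1 := hgnone t
        rw [h, hgsome p'] at e1
        simp at e1
      · have e1 := hgnone t'
        rw [← h, hgsome p] at e1
        simp at e1
      · obtain ⟨v, d⟩ := p
        obtain ⟨v', d'⟩ := p'
        have e1 := hgsome ⟨v, d⟩
        rw [h, hgsome ⟨v', d'⟩] at e1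
        have e2 : v' = v := Subtype.ext (Subtype.ext (Option.some.inj e1))
        subst e2
        have e3 : ev v' d = ev v' d' := Subtype.ext h
        rw [(ev v').injective e3]
    · intro d
      rcases hd : X.hook d with _ | c
      · by_cases hdr : d = r
        · exact ⟨Sum.inl (Sum.inr true), hdr.symm⟩
        · by_cases hdr' : d = G.a r
          · exact ⟨Sum.inl (Sum.inr false), hdr'.symm⟩
          · exact ⟨Sum.inl (Sum.inl ⟨d, hd, hdr, hdr'⟩), rfl⟩
      · have hc0 : c ≠ G.v0 := by
          rintro rfl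
          exact hroot d hd
        obtain ⟨d', hd', hd'c⟩ := X.ex2 d c hd
        let v : {v : N.V // v ≠ N.pole true} := ⟨⟨c, d', hd', hd'c⟩, fun h =>
          hc0 ((congrArg Subtype.val h).trans hpt)⟩
        exact ⟨Sum.inr ⟨v, (ev v).symm ⟨d, hd⟩⟩,
          congrArg Subtype.val (Equiv.apply_symm_apply (ev v) ⟨d, hd⟩)⟩
  have hk : Function.Bijective k := by
    have hne : ∀ p : (Σ v : {v : N.V // v ≠ N.pole true}, (N.lab v.1).rep.1.V),
        (fv p.1 p.2).1 ≠ G.v0 := by
      intro p hp
      have e1 := (fv p.1 p.2).2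
      have e2 := BlockIso.eq_c X e1 (d0 := r) (by rw [X.root]; simp) (hr.trans hp.symm)
      exact hv0 p.1 (e2.symm.trans hp)
    constructor
    · rintro (_ | p) (_ | p') h
      · rfl
      · exact absurd h.symm (hne p')
      · exact absurd h (hne p)
      · obtain ⟨v, z⟩ := p
        obtain ⟨v', z'⟩ := p'
        have e1 := (fv v z).2
        have e2 := (fv v' z').2
        have h' : (fv v z).1 = (fv v' z').1 := h
        rw [← h'] at e2
        have e3 : v = v' := Subtype.ext (Subtype.ext (BlockIso.same X v.1.2 v'.1.2 e1 e2))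
        subst e3
        have e4 : fv v z = fv v z' := Subtype.ext h'
        rw [(fv v).injective e4]
    · intro x
      by_cases hx : x = G.v0
      · exact ⟨none, hx.symm⟩
      · have key : ∀ (c : G.V) (hc : ∃ d, X.hook d = none ∧ G.inc d = c) (hc0 : c ≠ G.v0)
            (hxc : x = c ∨ ∃ d, X.hook d = some c ∧ G.inc d = x), ∃ y, k y = x := by
          intro c hc hc0 hxc
          let v : {v : N.V // v ≠ N.pole true} := ⟨⟨c, hc⟩, fun h =>
            hc0 ((congrArg Subtype.val h).trans hpt)⟩
          exact ⟨some ⟨v, (fv v).symm ⟨x, hxc⟩⟩,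
            congrArg Subtype.val (Equiv.apply_symm_apply (fv v) ⟨x, hxc⟩)⟩
        obtain ⟨d, hd⟩ := BlockIso.exists_dart hG hx
        rcases hh : X.hook d with _ | c
        · exact key x ⟨d, hh, hd⟩ hx (Or.inl rfl)
        · exact key c (X.ex2 d c hh) (by rintro rfl; exact hroot d hh) (Or.inr ⟨d, hh, hd⟩)
  have hkey : ∀ t : N.T, (N.inc t).1 = G.inc (g (Sum.inl t)) := by
    rintro (d | b)
    · rfl
    · cases b <;> rfl
  refine ⟨Equiv.ofBijective g hg, Equiv.ofBijective k hk, ?_, ?_, rfl⟩
  · rintro ((d | b) | p)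
    · rfl
    · cases b
      · show r = G.a (G.a r)
        rw [hG.inv]
      · rfl
    · show (ev p.1 ((N.lab p.1.1).rep.1.a p.2)).1 = G.a (ev p.1 p.2).1
      rw [h1]
      rfl
  · rintro (t | p)
    · show k ((expand N).inc (Sum.inl t)) = G.inc (g (Sum.inl t))
      rw [← hkey]
      by_cases ht : N.inc t = N.pole true
      · have e1 : (expand N).inc (Sum.inl t) = none := by
          show (if h : N.inc t = N.pole true then none else _) = none
          rw [dif_pos ht]
        rw [e1, ht]
        exact hpt.symm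
      · have e1 : (expand N).inc (Sum.inl t) =
            some ⟨⟨N.inc t, ht⟩, (N.lab (N.inc t)).rep.1.v0⟩ := by
          show (if h : N.inc t = N.pole true then none else _) = _
          rw [dif_neg ht]
        rw [e1]
        show (fv ⟨N.inc t, ht⟩ (N.lab (N.inc t)).rep.1.v0).1 = (N.inc t).1
        rw [h3]
        rfl
    · show (fv p.1 ((N.lab p.1.1).rep.1.inc p.2)).1 = G.inc (ev p.1 p.2).1
      rw [h2]
      rfl

end PGr
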