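import Pool.Agent.PGr.BlockDefs

/-! # Module Kappa: existence of hooks -/

set_option linter.unusedSectionVars false

namespace PGr
open Equiv Finset

/-- the family of the closed sets avoiding `r` which share at most one vertex with the complement -/
def Kappa.F (G : RG) (r : G.D) (A : Finset G.D) : Prop :=
  Cl G.a A ∧ A.Nonempty ∧ r ∉ A ∧ ∀ x y, Sh G.inc A x → Sh G.inc A y → x = y

theorem Kappa.union {G : RG} {r : G.D}
    (hconn : ∀ A : Finset G.D, Cl G.a A → A.Nonempty → A ≠ univ → ∃ x, Sh G.inc A x)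
    {A B : Finset G.D} (hA : Kappa.F G r A) (hB : Kappa.F G r B) (hne : (A ∩ B).Nonempty) :
    Kappa.F G r (A ∪ B) := by
  classical
  obtain ⟨hA1, hA2, hA3, hA4⟩ := hA
  obtain ⟨hB1, hB2, hB3, hB4⟩ := hB
  refine ⟨?_, hA2.mono subset_union_left, by simp [hA3, hB3], ?_⟩
  · intro t
    simp only [mem_union, hA1 t, hB1 t]
  · have hI : Cl G.a (A ∩ B) := by
      intro t
      simp only [mem_inter, hA1 t, hB1 t]
    obtain ⟨z, ⟨t, ht, htz⟩, ⟨t', ht', htz'⟩⟩ := hconn (A ∩ B) hI hne (by
      intro h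
      have : r ∈ A ∩ B := by rw [h]; exact mem_univ _
      exact hA3 (mem_inter.1 this).1)
    rw [mem_inter] at ht ht'
    have hsub : ∀ x, Sh G.inc (A ∪ B) x → Sh G.inc A x ∨ Sh G.inc B x := by
      rintro x ⟨⟨u, hu, hux⟩, ⟨v, hv, hvx⟩⟩
      rw [mem_union] at hu hv
      rw [not_or] at hv
      rcases hu with hu | hu
      · exact Or.inl ⟨⟨u, hu, hux⟩, ⟨v, hv.1, hvx⟩⟩
      · exact Or.inr ⟨⟨u, hu, hux⟩, ⟨v, hv.2, hvx⟩⟩
    -- if z is shared by the union then it is shared by both
    have hz : Sh G.inc (A ∪ B) z → Sh G.inc A z ∧ Sh G.inc B z := by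
      rintro ⟨_, ⟨v, hv, hvx⟩⟩
      rw [mem_union, not_or] at hv
      exact ⟨⟨⟨t, ht.1, htz⟩, ⟨v, hv.1, hvx⟩⟩, ⟨⟨t, ht.2, htz⟩, ⟨v, hv.2, hvx⟩⟩⟩
    have hz' : Sh G.inc A z ∨ Sh G.inc B z := by
      by_cases h : t' ∈ A
      · right
        exact ⟨⟨t, ht.2, htz⟩, ⟨t', fun h' => ht' ⟨h, h'⟩, htz'⟩⟩
      · left
        exact ⟨⟨t, ht.1, htz⟩, ⟨t', h, htz'⟩⟩
    -- main
    have main : ∀ x y, Sh G.inc (A ∪ B) x → Sh G.inc (A ∪ B) y → Sh G.inc A x → Sh G.inc B y →
        x = y := by
      intro x y hx hy hxA hyB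
      rcases hz' with h | h
      · have hxz : z = x := hA4 _ _ h hxA
        subst hxz
        exact hB4 _ _ (hz hx).2 hyB
      · have hyz : z = y := hB4 _ _ h hyB
        subst hyz
        exact hA4 _ _ hxA (hz hy).1
    intro x y hx hy
    rcases hsub x hx with h1 | h1 <;> rcases hsub y hy with h2 | h2
    · exact hA4 _ _ h1 h2
    · exact main x y hx hy h1 h2
    · exact (main y x hy hx h2 h1).symm
    · exact hB4 _ _ h1 h2

theorem Kappa.max {G : RG} {r : G.D}
    (hconn : ∀ A : Finset G.D, Cl G.a A → A.Nonempty → A ≠ univ → ∃ x, Sh G.inc A x)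
    (d : G.D) (h : ∃ A, Kappa.F G r A ∧ d ∈ A) :
    ∃ M, Kappa.F G r M ∧ d ∈ M ∧ ∀ B, Kappa.F G r B → d ∈ B → B ⊆ M := by
  classical
  obtain ⟨A0, hA0⟩ := h
  obtain ⟨M, hM, hmax⟩ := Finset.exists_max_image
    (univ.filter fun A : Finset G.D => Kappa.F G r A ∧ d ∈ A) card
    ⟨A0, by simpa using hA0⟩
  simp only [mem_filter, mem_univ, true_and] at hM hmax
  refine ⟨M, hM.1, hM.2, ?_⟩
  intro B hB hdB
  have hU := Kappa.union hconn hM.1 hB ⟨d, mem_inter.2 ⟨hM.2, hdB⟩⟩
  have h1 := hmax (M ∪ B) ⟨hU, mem_union_left _ hM.2⟩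
  have h2 : M = M ∪ B := Finset.eq_of_subset_of_card_le subset_union_left h1
  rw [h2]
  exact subset_union_right

/-- Proof: let `F` be the family of the nonempty closed sets avoiding `r` which share at most one
vertex with the complement.  By submodularity of the number of shared vertices the maximal members
of `F` are pairwise disjoint with different attachment vertices. -/
theorem exists_hook {G : RG} (hinv : ∀ d, G.a (G.a d) = d) (r : G.D)
    (hconn : ∀ A : Finset G.D, Cl G.a A → A.Nonempty → A ≠ univ → ∃ x, Sh G.inc A x) :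
    Nonempty (Hook G r) := by
  classical
  set F := Kappa.F G r with hF
  let P : G.D → Prop := fun d => ∃ A, F A ∧ d ∈ A
  let M : G.D → Finset G.D := fun d => if h : P d then (Kappa.max hconn d h).choose else ∅
  have hM : ∀ d, P d → F (M d) ∧ d ∈ M d ∧ ∀ B, F B → d ∈ B → B ⊆ M d := by
    intro d h
    have := (Kappa.max hconn d h).choose_spec
    have h2 : M d = (Kappa.max hconn d h).choose := dif_pos h
    rw [h2]; exact this
  let att : Finset G.D → G.V := fun A => if h : ∃ c, Sh G.inc A c then h.choose else G.v0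
  have hatt : ∀ A, F A → Sh G.inc A (att A) := by
    intro A hA
    have h1 : ∃ c, Sh G.inc A c := hconn A hA.1 hA.2.1 (by
      intro h; exact hA.2.2.1 (by rw [h]; exact mem_univ _))
    have h2 : att A = h1.choose := dif_pos h1
    rw [h2]; exact h1.choose_spec
  have hMeq : ∀ d d', P d → d' ∈ M d → P d' ∧ M d' = M d := by
    intro d d' hd hd'
    have h1 := hM d hd
    have hP : P d' := ⟨M d, h1.1, hd'⟩
    have h2 := hM d' hP
    have h3 : M d ⊆ M d' := h2.2.2 _ h1.1 hd'
    have h4 : M d' ⊆ M d := h1.2.2 _ h2.1 (h3 h1.2.1)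
    exact ⟨hP, h4.antisymm h3⟩
  have hsame : ∀ d d', P d → P d' → att (M d) = att (M d') → M d = M d' := by
    intro d d' hd hd' hc
    have h1 := hM d hd
    have h2 := hM d' hd'
    have hU : F (M d ∪ M d') := by
      obtain ⟨a1, a2, a3, a4⟩ := h1.1
      obtain ⟨b1, b2, b3, b4⟩ := h2.1
      refine ⟨?_, a2.mono subset_union_left, by simp [a3, b3], ?_⟩
      · intro t
        simp only [mem_union, a1 t, b1 t]
      · have key : ∀ x, Sh G.inc (M d ∪ M d') x → x = att (M d) := by
          rintro x ⟨⟨u, hu, hux⟩, ⟨v, hv, hvx⟩⟩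
          rw [mem_union] at hu hv
          rw [not_or] at hv
          rcases hu with hu | hu
          · exact a4 _ _ ⟨⟨u, hu, hux⟩, ⟨v, hv.1, hvx⟩⟩ (hatt _ h1.1)
          · rw [hc]
            exact b4 _ _ ⟨⟨u, hu, hux⟩, ⟨v, hv.2, hvx⟩⟩ (hatt _ h2.1)
        intro x y hx hy
        rw [key x hx, key y hy]
    have h3 : M d ∪ M d' ⊆ M d := h1.2.2 _ hU (mem_union_left _ h1.2.1)
    have h4 : M d ∪ M d' ⊆ M d' := h2.2.2 _ hU (mem_union_right _ h2.2.1)
    exact (subset_union_left.trans h4).antisymm (subset_union_right.trans h3)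
  let hook : G.D → Option G.V := fun d => if P d then some (att (M d)) else none
  have hook_none : ∀ d, hook d = none ↔ ¬ P d := by
    intro d
    by_cases h : P d <;> simp [hook, h]
  have hook_some : ∀ d c, hook d = some c ↔ P d ∧ att (M d) = c := by
    intro d c
    by_cases h : P d <;> simp [hook, h]
  have hPa : ∀ d, P (G.a d) ↔ P d := by
    intro d
    constructor
    · rintro ⟨A, hA, hd⟩
      exact ⟨A, hA, (hA.1 d).1 hd⟩
    · rintro ⟨A, hA, hd⟩
      exact ⟨A, hA, (hA.1 d).2 hd⟩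
  have share : ∀ d d' c, hook d = some c → hook d' ≠ some c → G.inc d = G.inc d' →
      G.inc d = c := by
    intro d d' c hd hd' hi
    rw [hook_some] at hd
    obtain ⟨hP, hc⟩ := hd
    have hd'M : d' ∉ M d := by
      intro h
      obtain ⟨h1, h2⟩ := hMeq d d' hP h
      apply hd'
      rw [hook_some]
      exact ⟨h1, by rw [h2]; exact hc⟩
    rw [← hc]
    exact (hM d hP).1.2.2.2 _ _ ⟨⟨d, (hM d hP).2.1, rfl⟩, ⟨d', hd'M, hi.symm⟩⟩
      (hatt _ (hM d hP).1)
  have ex1 : ∀ d c, hook d = some c → ∃ d', hook d' = some c ∧ G.inc d' = c := by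
    intro d c hd
    rw [hook_some] at hd
    obtain ⟨hP, hc⟩ := hd
    obtain ⟨⟨u, hu, hux⟩, _⟩ := hatt _ (hM d hP).1
    obtain ⟨h1, h2⟩ := hMeq d u hP hu
    exact ⟨u, (hook_some _ _).2 ⟨h1, by rw [h2]; exact hc⟩, hux.trans hc⟩
  refine ⟨⟨hook, ?_, ?_, share, ex1, ?_, ?_⟩⟩
  · rw [hook_none]
    rintro ⟨A, hA, hr⟩
    exact hA.2.2.1 hr
  · intro d
    by_cases h : P d
    · have h1 : G.a d ∈ M d := ((hM d h).1.1 d).2 (hM d h).2.1
      obtain ⟨h2, h3⟩ := hMeq d _ h h1
      have e1 : hook (G.a d) = some (att (M (G.a d))) := if_pos h2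
      have e2 : hook d = some (att (M d)) := if_pos h
      rw [e1, e2, h3]
    · rw [(hook_none d).2 h, hook_none, hPa]
      exact h
  · intro d c hd
    obtain ⟨d1, hd1, hd1c⟩ := ex1 d c hd
    rw [hook_some] at hd
    obtain ⟨hP, hc⟩ := hd
    obtain ⟨_, ⟨v, hv, hvx⟩⟩ := hatt _ (hM d hP).1
    have hvc : G.inc v = c := hvx.trans hc
    refine ⟨v, ?_, hvc⟩
    by_contra hne
    obtain ⟨c', hc'⟩ := Option.ne_none_iff_exists'.1 hne
    have hcc : c' ≠ c := by
      rintro rfl
      rw [hook_some] at hc'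
      have := hsame d v hP hc'.1 (hc.trans hc'.2.symm)
      rw [this] at hv
      exact hv (hM v hc'.1).2.1
    have h1 := share v d1 c' hc' (by
      rw [hd1]
      intro h
      exact hcc (Option.some.inj h).symm) (hvc.trans hd1c.symm)
    exact hcc (h1.symm.trans hvc)
  · intro A hA hAn hAne hrA
    by_contra hcon
    push Not at hcon
    let A' : Finset G.D := A ∪ univ.filter (fun d => ∃ c, hook d = some c ∧ (∃ e ∈ A, G.inc e = c) ∧
      ¬ ∃ e, e ∉ A ∧ hook e = none ∧ G.inc e = c)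
    have hmem : ∀ d, d ∈ A' ↔ d ∈ A ∨ ∃ c, hook d = some c ∧ (∃ e ∈ A, G.inc e = c) ∧
      ¬ ∃ e, e ∉ A ∧ hook e = none ∧ G.inc e = c := by
      intro d
      simp [A']
    have hhook : ∀ d, hook (G.a d) = hook d := by
      intro d
      by_cases h : P d
      · have h1 : G.a d ∈ M d := ((hM d h).1.1 d).2 (hM d h).2.1
        obtain ⟨h2, h3⟩ := hMeq d _ h h1
        have e1 : hook (G.a d) = some (att (M (G.a d))) := if_pos h2
        have e2 : hook d = some (att (M d)) := if_pos h
        rw [e1, e2, h3]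
      · rw [(hook_none d).2 h, hook_none, hPa]
        exact h
    have hroot : hook r = none := by
      rw [hook_none]
      rintro ⟨A, hA, hr⟩
      exact hA.2.2.1 hr
    have hFA' : F A' := by
      refine ⟨?_, hAne.mono subset_union_left, ?_, ?_⟩
      · intro t
        rw [hmem, hmem, hA t, hhook]
      · rw [hmem]
        rintro (h | ⟨c, h, _⟩)
        · exact hrA h
        · rw [hroot] at h; simp at h
      · have key : ∀ x, Sh G.inc A' x → (∃ d ∈ A, G.inc d = x) ∧
            ∃ d, d ∉ A ∧ hook d = none ∧ G.inc d = x := by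
          rintro x ⟨⟨d1, hd1, hd1x⟩, ⟨d2, hd2, hd2x⟩⟩
          rw [hmem] at hd1 hd2
          rw [not_or] at hd2
          rcases hd1 with hd1 | ⟨c, hc, ⟨e, he, hec⟩, hno⟩
          · refine ⟨⟨d1, hd1, hd1x⟩, ?_⟩
            rcases h2 : hook d2 with _ | c
            · exact ⟨d2, hd2.1, h2, hd2x⟩
            · have h3 : G.inc d2 = c := share d2 d1 c h2 (by rw [hAn d1 hd1]; simp)
                (hd2x.trans hd1x.symm)
              have hxc : x = c := hd2x.symm.trans h3
              by_contra hno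
              apply hd2.2
              refine ⟨c, h2, ⟨d1, hd1, hd1x.trans hxc⟩, ?_⟩
              rw [← hxc]; exact hno
          · exfalso
            have h4 : hook d2 ≠ some c := fun h => hd2.2 ⟨c, h, ⟨e, he, hec⟩, hno⟩
            have h5 : G.inc d1 = c := share d1 d2 c hc h4 (hd1x.trans hd2x.symm)
            have hxc : x = c := hd1x.symm.trans h5
            rcases h2 : hook d2 with _ | c'
            · exact hno ⟨d2, hd2.1, h2, hd2x.trans hxc⟩
            · have hcc : c ≠ c' := fun h => h4 (by rw [h2, h])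
              have h6 := share d2 d1 c' h2 (by
                rw [hc]; intro h; exact hcc (Option.some.inj h)) (hd2x.trans hd1x.symm)
              exact hcc (hxc.symm.trans (hd2x.symm.trans h6))
        intro x y hx hy
        by_contra hxy
        obtain ⟨hx1, hx2⟩ := key x hx
        obtain ⟨hy1, dy, hy2, hy3, hy4⟩ := key y hy
        exact hcon x y hxy ⟨hx1, hx2⟩ hy1 dy hy2 hy3 hy4
    obtain ⟨d, hd⟩ := hAne
    have h1 := hAn d hd
    rw [hook_none] at h1
    exact h1 ⟨A', hFA', (hmem d).2 (Or.inl hd)⟩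

end PGr
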