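import Pool.Agent.PGr.Wedge
import Pool.Agent.PGr.Kappa
import Pool.Agent.PGr.HookGood
import Pool.Agent.PGr.BlockIso

/-! # Module PieceDec: a piece is `expand N`, where `N` is the block of an edge at the root -/

set_option linter.unusedSectionVars false

namespace PGr
open Equiv Finset
open scoped ENNReal

theorem piece_dec {G : RG} (hG : G.IsGood) (hP : Piece G) :
    ∃ N : LNet RC, RIso G (expand N) ∧
      (∀ v, v ≠ N.pole true → (N.lab v).rep.1.size < G.size) ∧
      ((N.IsGood ∧ ¬ Direct N) ∨ NIso N (emptyNet (N.lab (N.pole false))) ∧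
        N.pole true ≠ N.pole false) := by
  -- a dart at the root
  obtain ⟨hne, hconn⟩ := hP
  have h2 := Piece.two_le_size hG ⟨hne, hconn⟩
  obtain ⟨r, hr⟩ : ∃ r, G.inc r = G.v0 := by
    obtain ⟨d, hd, -⟩ := hG.conn {G.v0} (by simp) (by
      intro h
      have : Fintype.card G.V = 1 := by rw [← card_univ, ← h, card_singleton]
      unfold RG.size at h2; omega)
    exact ⟨d, by simpa using hd⟩
  obtain ⟨X⟩ := exists_hook hG.inv r (fun A hA hA' hA'' => by
    obtain ⟨x, -, hx⟩ := hconn A hA hA' hA''; exact ⟨x, hx⟩)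
  let lab : X.BV → RC := fun z => Quotient.mk rSetoid ⟨X.rg z.1, X.rg_good hG hr z.1⟩
  have hlab : ∀ z : X.BV, RIso (X.rg z.1) (lab z).rep.1 := fun z =>
    RIso.symm (Quotient.exact (Quotient.out_eq (lab z)))
  refine ⟨X.net hG.inv lab, X.iso hG hr (X.not_root hG ⟨hne, hconn⟩ hr) lab (fun z _ => hlab z),
    fun v hv => ?_, ?_⟩
  · have h3 : (lab v).rep.1.size = (X.rg v.1).size := (RIso.size_eq (hlab v)).symm
    have h4 : (X.net hG.inv lab).lab v = lab v := rfl
    rw [h4, h3]
    refine X.rg_size fun h => hv (Subtype.ext ?_)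
    exact h
  · rcases isEmpty_or_nonempty {d : G.D // X.hook d = none ∧ d ≠ r ∧ d ≠ G.a r} with h | h
    · exact Or.inr ⟨X.net_empty hG lab h _, X.net_pole_ne hG lab⟩
    · exact Or.inl (X.net_good hG lab h)

end PGr
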