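import Pool.Agent.PGr.SumLib
import Pool.Agent.PGr.MSet
import Pool.Agent.PGr.Wedge
import Pool.Agent.PGr.Expand
import Pool.Agent.PGr.PieceDec
import Pool.Agent.PGr.GlueLib

/-! # Module KSum: inequalities for the generating functions of rooted graphs -/

set_option linter.unusedSectionVars false

namespace PGr
open Equiv Finset
open scoped ENNReal Classical

namespace KSum

/-- the class of a good rooted graph -/
def cls (G : RG) (h : G.IsGood) : RC := Quotient.mk rSetoid ⟨G, h⟩

theorem cls_iso (G : RG) (h : G.IsGood) : RIso (cls G h).rep.1 G :=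
  Quotient.exact (Quotient.out_eq (cls G h))

theorem iso_of_cls {G H : RG} {hG : G.IsGood} {hH : H.IsGood} (h : cls G hG = cls H hH) :
    RIso G H := Quotient.exact h

theorem eq_of_rep {c c' : RC} (h : RIso c.rep.1 c'.rep.1) : c = c' := by
  have h1 : Quotient.mk rSetoid c.rep = Quotient.mk rSetoid c'.rep := Quotient.sound h
  rwa [Quotient.out_eq, Quotient.out_eq] at h1

theorem tsum_opt {α : Type*} (f : Option α → ℝ≥0∞) :
    ∑' o, f o = f none + ∑' a, f (some a) := by
  rw [ENNReal.tsum_eq_add_tsum_ite none]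
  congr 1
  have hinj : Function.Injective (some : α → Option α) := Option.some_injective α
  have := hinj.tsum_eq (f := fun o => if o = none then 0 else f o) (by
    intro o ho
    cases o with
    | none => simp at ho
    | some a => exact ⟨a, rfl⟩)
  refine Eq.trans ?_ (this.symm.trans ?_)
  · refine tsum_congr fun o => ?_
    split_ifs <;> rfl
  · refine tsum_congr fun a => ?_
    simp

/-- the decomposition of a piece -/
structure PDec (c : RC) (N : LNet RC) : Prop where
  iso : RIso c.rep.1 (expand N)
  size : ∀ v, v ≠ N.pole true → (N.lab v).rep.1.size < c.rep.1.size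
  cases : (N.IsGood ∧ ¬ Direct N) ∨ NIso N (emptyNet (N.lab (N.pole false)))
  pole : N.pole true ≠ N.pole false

theorem exists_pdec (c : RC) (h : Piece c.rep.1) : ∃ N, PDec c N := by
  obtain ⟨N, h1, h2, h3⟩ := piece_dec c.rep.2 h
  refine ⟨N, h1, h2, ?_, ?_⟩
  · rcases h3 with h3 | h3
    · exact Or.inl h3
    · exact Or.inr h3.1
  · rcases h3 with h3 | h3
    · intro h4
      exact h3.1.loop (Sum.inr true) h4.symm
    · exact h3.2

/-- the class of a network, if it is good and not direct -/
noncomputable def ncls (N : LNet RC) : Option (NC RC) :=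
  if h : N.IsGood ∧ ¬ Direct N then some (Quotient.mk (nSetoid RC) ⟨N, h.1⟩) else none

theorem pdec_inj {c c' : RC} {N N' : LNet RC} (h : PDec c N) (h' : PDec c' N')
    (h1 : N.lab (N.pole false) = N'.lab (N'.pole false)) (h2 : ncls N = ncls N') : c = c' := by
  have h3 : NIso N N' := by
    unfold ncls at h2
    by_cases ha : N.IsGood ∧ ¬ Direct N
    · by_cases hb : N'.IsGood ∧ ¬ Direct N'
      · rw [dif_pos ha, dif_pos hb] at h2
        exact Quotient.exact (Option.some.inj h2)
      · rw [dif_pos ha, dif_neg hb] at h2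
        exact absurd h2 (by simp)
    · by_cases hb : N'.IsGood ∧ ¬ Direct N'
      · rw [dif_neg ha, dif_pos hb] at h2
        exact absurd h2 (by simp)
      · have e1 := h.cases.resolve_left ha
        have e2 := h'.cases.resolve_left hb
        rw [← h1] at e2
        exact e1.trans e2.symm
  exact eq_of_rep (h.iso.trans ((expand_iso h3 h1).trans h'.iso.symm))

theorem wt_emptyNet (w : RC → ℝ≥0∞) (l : RC) : wt w (emptyNet l) = 1 := by
  unfold wt
  have : IsEmpty (emptyNet l).Int := ⟨fun x => x.2 x.1 rfl⟩
  exact Finset.prod_of_isEmpty _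

/-- the weight of the pair of the label of the pole and the class of the network -/
noncomputable def gw (x : ℝ≥0∞) (n : ℕ) (p : RC × Option (NC RC)) : ℝ≥0∞ :=
  wK x n p.1 * match p.2 with
    | none => 1
    | some d => if ¬ Direct d.rep.1 then wt (wK x n) d.rep.1 else 0

theorem pdec_weight (x : ℝ≥0∞) (n : ℕ) {c : RC} {N : LNet RC} (h : PDec c N)
    (hn : c.rep.1.size ≤ n + 1) :
    x ^ (c.rep.1.size - 1) ≤ gw x n (N.lab (N.pole false), ncls N) := by
  rw [h.iso.size_eq, expand_weight x N h.pole]
  have hlab : ∀ v, v ≠ N.pole true → wK x n (N.lab v) = x ^ (N.lab v).rep.1.size := by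
    intro v hv
    have := h.size v hv
    rw [wK, if_pos (by omega)]
  have hwt : wt (fun c : RC => x ^ c.rep.1.size) N = wt (wK x n) N := by
    unfold wt
    exact Finset.prod_congr rfl fun v _ => (hlab v.1 (v.2 true)).symm
  rw [hwt, gw, ← hlab _ (Ne.symm h.pole)]
  refine mul_le_mul_right (le_of_eq ?_) _
  unfold ncls
  by_cases ha : N.IsGood ∧ ¬ Direct N
  · rw [dif_pos ha]
    set d : NC RC := Quotient.mk (nSetoid RC) ⟨N, ha.1⟩ with hd
    have hiso : NIso d.rep.1 N := Quotient.exact (Quotient.out_eq d)
    show wt (wK x n) N = if ¬ Direct d.rep.1 then wt (wK x n) d.rep.1 else 0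
    rw [if_pos (fun hdir => ha.2 (hiso.direct hdir)), hiso.wt_eq]
  · rw [dif_neg ha]
    have e1 := h.cases.resolve_left ha
    show wt (wK x n) N = 1
    rw [e1.wt_eq, wt_emptyNet]

end KSum

open KSum

variable (x : ℝ≥0∞)

theorem Kn_zero : Kn x 0 = 0 := by
  unfold Kn wK
  rw [ENNReal.tsum_eq_zero]
  intro c
  rw [if_neg]
  have := RG.size_pos c.rep.1
  omega

theorem Kn_le (n : ℕ) : Kn x n ≤ x * MS (wP x n) := by
  choose J fJ dJ X hX hiso using fun c : RC => wedge_dec c.rep.2
  unfold MS
  rw [← ENNReal.tsum_mul_left]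
  refine tsum_le_tsum_of_inj
    (fun c => Multiset.map (fun j => cls (X c j) (hX c j).1) (@univ (J c) (fJ c)).val) ?_ ?_
  · intro c c' h
    obtain ⟨π, hπ⟩ := exists_equiv_of_map_eq _ _ h
    have h1 := @wedge_iso (J c) (J c') (fJ c) (dJ c) (fJ c') (dJ c') (X c) (X c') π
      (fun j => iso_of_cls (hπ j).symm)
    exact eq_of_rep ((hiso c).trans (h1.trans (hiso c').symm))
  · intro c
    unfold wK
    split_ifs with hc
    · rw [Multiset.map_map]
      have h1 : ∀ j, (wP x n ∘ fun j => cls (X c j) (hX c j).1) j = x ^ ((X c j).size - 1) := by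
        intro j
        have hi := cls_iso (X c j) (hX c j).1
        have hs := hi.size_eq
        show wP x n (cls (X c j) (hX c j).1) = _
        unfold wP
        rw [if_pos, hs]
        refine ⟨hi.symm.piece (hX c j).2.1, ?_⟩
        rw [hs]
        exact (hX c j).2.2.trans hc
      have h2 : (Multiset.map (wP x n ∘ fun j => cls (X c j) (hX c j).1)
          (@univ (J c) (fJ c)).val).prod = ∏ j : J c, x ^ ((X c j).size - 1) := by
        show ∏ j : J c, (wP x n ∘ fun j => cls (X c j) (hX c j).1) j = _
        exact Finset.prod_congr rfl fun j _ => h1 j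
      rw [h2, Finset.prod_pow_eq_pow_sum]
      have h3 : c.rep.1.size = 1 + ∑ j : J c, ((X c j).size - 1) := by
        rw [(hiso c).size_eq]
        exact wedge_size (X c)
      rw [h3, pow_add, pow_one]
    · exact zero_le

theorem Pn_le (n : ℕ) : Pn x (n + 1) ≤ Kn x n * (1 + Nsel (wK x n) (fun N => ¬ Direct N)) := by
  have hex : ∀ c : RC, ∃ N : LNet RC, Piece c.rep.1 → PDec c N := by
    intro c
    by_cases h : Piece c.rep.1
    · obtain ⟨N, hN⟩ := exists_pdec c h
      exact ⟨N, fun _ => hN⟩
    · exact ⟨emptyNet c, fun h' => absurd h' h⟩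
  choose N hN using hex
  have hR : Kn x n * (1 + Nsel (wK x n) (fun N => ¬ Direct N)) = ∑' p, gw x n p := by
    have h1 : 1 + Nsel (wK x n) (fun N => ¬ Direct N) = ∑' o : Option (NC RC), (match o with
        | none => (1 : ℝ≥0∞)
        | some d => if ¬ Direct d.rep.1 then wt (wK x n) d.rep.1 else 0) := by
      rw [tsum_opt]
      unfold Nsel
      refine congrArg (fun z => (1 : ℝ≥0∞) + z) (tsum_congr fun d => ?_)
      by_cases h : Direct d.rep.1 <;> simp [h]
    rw [h1, Kn, tsum_prod_mul]
    rfl
  rw [hR]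
  refine tsum_le_tsum_of_injOn
    (fun c => ((N c).lab ((N c).pole false), ncls (N c))) ?_ ?_
  · intro c c' h h' he
    have hc : Piece c.rep.1 := by
      by_contra hc
      exact h (by rw [wP, if_neg (fun h2 => hc h2.1)])
    have hc' : Piece c'.rep.1 := by
      by_contra hc
      exact h' (by rw [wP, if_neg (fun h2 => hc h2.1)])
    exact pdec_inj (hN c hc) (hN c' hc') (congrArg Prod.fst he) (congrArg Prod.snd he)
  · intro c hc
    unfold wP
    split_ifs with h
    · exact pdec_weight x n (hN c h.1) h.2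
    · exact zero_le

end PGr
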