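import Pool.Agent.PGr.NetThm
import Pool.Agent.PGr.KSum
import Pool.Agent.PGr.Cone

/-! # Final assembly -/

set_option linter.unusedSectionVars false

namespace PGr
open Equiv Finset
open scoped ENNReal Classical

theorem wK_le (n : ℕ) (c : RC) : wK ex n c ≤ ex := by
  unfold wK
  split_ifs
  · calc ex ^ c.rep.1.size ≤ ex ^ 1 := pow_le_pow_right_of_le_one' ex_le_one (RG.size_pos _)
      _ = ex := pow_one _
  · exact zero_le

theorem wP_le (n : ℕ) (c : RC) : wP ex n c ≤ ex := by
  unfold wP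
  split_ifs with h
  · have := Piece.two_le_size c.rep.2 h.1
    calc ex ^ (c.rep.1.size - 1) ≤ ex ^ 1 :=
          pow_le_pow_right_of_le_one' ex_le_one (by omega)
      _ = ex := pow_one _
  · exact zero_le

theorem Pn_mono (n : ℕ) : Pn ex n ≤ Pn ex (n + 1) := by
  refine ENNReal.tsum_le_tsum fun c => ?_
  unfold wP
  by_cases h : Piece c.rep.1 ∧ c.rep.1.size ≤ n
  · rw [if_pos h, if_pos ⟨h.1, by omega⟩]
  · rw [if_neg h]; exact zero_le

theorem Kn_le_es (n : ℕ) : Kn ex n ≤ es := by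
  induction n with
  | zero => rw [Kn_zero]; exact zero_le
  | succ n ih =>
    have h1 : Pn ex (n + 1) ≤ ENNReal.ofReal (rs * rB) := by
      refine (Pn_le ex n).trans ?_
      rw [ENNReal.ofReal_mul (by norm_num [rs])]
      gcongr
      · exact ih
      · exact net_bound (wK ex n) (wK_le n) ih
    have h2 : MS (wP ex (n + 1)) ≤ ENNReal.ofReal (Real.exp (rc * (rs * rB))) :=
      MS_le _ (by norm_num [rx]) (by norm_num [rx]) num_c (by norm_num [rc])
        (by norm_num [rs, rB]) (wP_le (n + 1)) h1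
    calc Kn ex (n + 1) ≤ ex * MS (wP ex (n + 1)) := Kn_le ex (n + 1)
      _ ≤ ENNReal.ofReal rx * ENNReal.ofReal (Real.exp (rc * (rs * rB))) := by
          gcongr; exact le_refl _
      _ = ENNReal.ofReal (rx * Real.exp (rc * (rs * rB))) := by
          rw [← ENNReal.ofReal_mul (by norm_num [rx])]
      _ ≤ es := ENNReal.ofReal_le_ofReal num_K

/-- `u n ≤ (47/1250) * (27.7) ^ (n + 1)` -/
theorem u_bound (n : ℕ) : (u n : ℝ) ≤ 47 / 1250 * (277 / 10) ^ (n + 1) := by
  have h := (u_le ex n).trans (Kn_le_es (n + 1))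
  have h2 := ENNReal.toReal_mono (by simp [es]) h
  rw [ENNReal.toReal_mul, ENNReal.toReal_pow, ENNReal.toReal_natCast, ex, es,
    ENNReal.toReal_ofReal (by norm_num [rx]), ENNReal.toReal_ofReal (by norm_num [rs])] at h2
  have hx : (0 : ℝ) < rx ^ (n + 1) := by unfold rx; positivity
  have h3 : rx ^ (n + 1) * (277 / 10 : ℝ) ^ (n + 1) = 1 := by
    rw [← mul_pow]; norm_num [rx]
  calc (u n : ℝ) = (u n : ℝ) * rx ^ (n + 1) * (277 / 10) ^ (n + 1) := by
        rw [mul_assoc, h3, mul_one]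
    _ ≤ rs * (277 / 10) ^ (n + 1) := by gcongr
    _ = 47 / 1250 * (277 / 10) ^ (n + 1) := by rw [rs]

/-- the growth constant is at most `27.7` -/
theorem growth_le {γ : ℝ}
    (h : Filter.Tendsto (fun n : ℕ => (u n : ℝ) ^ (1 / n : ℝ)) Filter.atTop (nhds γ)) :
    γ ≤ 277 / 10 := by
  have h1 : ∀ n : ℕ, (u n : ℝ) ≤ 2 * (277 / 10) ^ n := by
    intro n
    refine (u_bound n).trans ?_
    rw [pow_succ]
    have : (0 : ℝ) < (277 / 10) ^ n := by positivity
    nlinarith
  have h2 : Filter.Tendsto (fun n : ℕ => (2 : ℝ) ^ (1 / n : ℝ) * (277 / 10)) Filter.atTop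
      (nhds (1 * (277 / 10))) := by
    apply Filter.Tendsto.mul_const
    have h3 : Filter.Tendsto (fun n : ℕ => (1 / n : ℝ)) Filter.atTop (nhds 0) :=
      tendsto_one_div_atTop_nhds_zero_nat
    have := (Real.continuous_const_rpow (a := 2) (by norm_num)).tendsto 0
    rw [Real.rpow_zero] at this
    exact this.comp h3
  rw [one_mul] at h2
  refine le_of_tendsto_of_tendsto h h2 ?_
  filter_upwards [Filter.eventually_gt_atTop 0] with n hn
  have hn' : (0 : ℝ) < n := by exact_mod_cast hn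
  calc (u n : ℝ) ^ (1 / n : ℝ) ≤ (2 * (277 / 10) ^ n) ^ (1 / n : ℝ) :=
        Real.rpow_le_rpow (by positivity) (h1 n) (by positivity)
    _ = 2 ^ (1 / n : ℝ) * (277 / 10) := by
        rw [Real.mul_rpow (by norm_num) (by positivity)]
        congr 1
        rw [one_div, Real.pow_rpow_inv_natCast (by norm_num) (by omega)]

end PGr
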