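import Pool.Agent.PGr.NetDefs
import Pool.Agent.PGr.Cut

/-! # Module DecGood: the parts of a decomposition are good networks; rotation systems -/

set_option linter.unusedSectionVars false

namespace PGr
open Equiv Finset
open scoped ENNReal
universe u
variable {Λ : Type u}

theorem DecGood_exit {T : Type*} [Fintype T] [DecidableEq T] {s : Perm T} {A : Finset T}
    {t t' : T} (h : s.SameCycle t t') (ht : t ∈ A) (ht' : t' ∉ A) :
    ∃ u, s.SameCycle t u ∧ u ∈ A ∧ s u ∉ A := by
  obtain ⟨n, hn⟩ := h.exists_nat_pow_eq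
  by_contra hc
  push Not at hc
  have key : ∀ k : ℕ, (s ^ k) t ∈ A := by
    intro k
    induction k with
    | zero => simpa using ht
    | succ k ih =>
      rw [pow_succ', Perm.mul_apply]
      exact hc _ ⟨k, by simp⟩ ih
  exact ht' (hn ▸ key n)

theorem DecGood_cut {T V : Type*} [Fintype T] [DecidableEq T] {s : Perm T} {inc : T → V}
    {A : Finset T} (hs : ∀ t t', s.SameCycle t t' ↔ inc t = inc t') {x y : V} (hxy : x ≠ y)
    (hx : Sh inc A x) (hy : Sh inc A y) : 4 ≤ cut s A := by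
  have key : ∀ x, Sh inc A x → ∃ u, inc u = x ∧ u ∈ A ∧ s u ∉ A := by
    rintro x ⟨⟨t, ht, e⟩, t', ht', e'⟩
    obtain ⟨u, h1, h2, h3⟩ := DecGood_exit ((hs t t').2 (e.trans e'.symm)) ht ht'
    exact ⟨u, by rw [← (hs t u).1 h1, e], h2, h3⟩
  obtain ⟨u, h1, h2, h3⟩ := key x hx
  obtain ⟨v, k1, k2, k3⟩ := key y hy
  have huv : u ≠ v := fun h => hxy (by rw [← h1, ← k1, h])
  rw [cut_eq_two_mul]
  have h5 : ({u, v} : Finset T) ⊆ univ.filter fun t => t ∈ A ∧ s t ∉ A := by
    intro w hw
    simp only [mem_insert, mem_singleton] at hw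
    rcases hw with rfl | rfl <;> simp [*]
  have h6 := card_le_card h5
  rw [card_pair huv] at h6
  omega

theorem DecGood_Sh_compl {T V : Type*} [Fintype T] [DecidableEq T] {inc : T → V}
    {A : Finset T} {x : V} (h : Sh inc Aᶜ x) : Sh inc A x := by
  obtain ⟨⟨t, ht, e⟩, t', ht', e'⟩ := h
  exact ⟨⟨t', by simpa using ht', e'⟩, t, by simpa using ht, e⟩

theorem DecGood_two {N : LNet Λ} (hN : N.IsGood) (X : Dec N) (i : X.I)
    {A : Finset (X.sub i).T} (hA : Cl (X.sub i).aa A) (hne : A.Nonempty)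
    (hr : ∀ b, Sum.inr b ∉ A) : ∃ x y, x ≠ y ∧ Sh (X.sub i).inc A x ∧ Sh (X.sub i).inc A y := by
  classical
  let j : (X.sub i).T → N.T := Sum.map (fun d : {d : N.D // X.part d = i} => d.1) id
  have hmem : ∀ d : N.D, Sum.inl d ∈ A.image j ↔ ∃ h : X.part d = i, Sum.inl ⟨d, h⟩ ∈ A := by
    intro d
    simp only [mem_image]
    constructor
    · rintro ⟨t, ht, e⟩
      rcases t with t | b
      · have : t.1 = d := Sum.inl.inj (show (Sum.inl t.1 : N.T) = Sum.inl d from e)
        subst this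
        exact ⟨t.2, ht⟩
      · exact absurd ht (hr b)
    · rintro ⟨h, hd⟩
      exact ⟨_, hd, rfl⟩
  have hroot : ∀ b, (Sum.inr b : N.T) ∉ A.image j := by
    intro b hb
    simp only [mem_image] at hb
    obtain ⟨t, ht, e⟩ := hb
    rcases t with t | b'
    · exact absurd (show (Sum.inl t.1 : N.T) = Sum.inr b from e) (by simp)
    · exact hr b' ht
  have hcl : Cl N.aa (A.image j) := by
    intro t
    rcases t with d | b
    · have e : N.aa (Sum.inl d) = Sum.inl (N.a d) := rfl
      rw [e, hmem, hmem]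
      constructor
      · rintro ⟨h, hd⟩
        have h' : X.part d = i := by rw [← X.part_a]; exact h
        refine ⟨h', ?_⟩
        have := hA (Sum.inl ⟨d, h'⟩)
        exact this.1 hd
      · rintro ⟨h, hd⟩
        have h' : X.part (N.a d) = i := by rw [X.part_a]; exact h
        refine ⟨h', ?_⟩
        have := hA (Sum.inl ⟨d, h⟩)
        exact this.2 hd
    · have e : N.aa (Sum.inr b) = Sum.inr (!b) := rfl
      rw [e]
      exact ⟨fun h => absurd h (hroot _), fun h => absurd h (hroot _)⟩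
  obtain ⟨x, y, hxy, hx, hy⟩ := hN.two (A.image j) hcl (hne.image j)
    (fun h => hroot true (h ▸ mem_univ _))
  have key : ∀ x, Sh N.inc (A.image j) x → ∃ x' : (X.sub i).V, x'.1 = x ∧ Sh (X.sub i).inc A x' := by
    rintro x ⟨⟨t, ht, e⟩, t', ht', e'⟩
    rcases t with d | b
    swap
    · exact absurd ht (hroot b)
    obtain ⟨h, hd⟩ := (hmem d).1 ht
    refine ⟨⟨x, d, h, e⟩, rfl, ⟨Sum.inl ⟨d, h⟩, hd, Subtype.ext e⟩, ?_⟩
    have hatt : ∀ b, N.inc (Sum.inl d) = X.att (X.part d, b) →
        ∃ t, t ∉ A ∧ (X.sub i).inc t = ⟨x, d, h, e⟩ := by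
      intro b hb
      refine ⟨Sum.inr b, hr b, Subtype.ext ?_⟩
      show X.att (i, b) = x
      rw [← e, hb, h]
    rcases t' with d' | b
    · by_cases h' : X.part d' = i
      · refine ⟨Sum.inl ⟨d', h'⟩, fun hm => ht' ((hmem d').2 ⟨h', hm⟩), Subtype.ext e'⟩
      · obtain ⟨b, hb⟩ := X.share d d' (by rw [h]; exact fun h0 => h' h0.symm) (e.trans e'.symm)
        exact hatt b hb
    · obtain ⟨b', hb'⟩ := X.root d b (e.trans e'.symm)
      exact hatt b' hb'
  obtain ⟨x', ex, hx'⟩ := key x hx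
  obtain ⟨y', ey, hy'⟩ := key y hy
  exact ⟨x', y', fun h => hxy (by rw [← ex, ← ey, h]), hx', hy'⟩

/-- the networks of the parts satisfy all conditions except planarity -/
theorem Dec.sub_good {N : LNet Λ} (hN : N.IsGood) (X : Dec N) (i : X.I)
    (hp : ∃ s : Perm (X.sub i).T, (∀ t t', s.SameCycle t t' ↔ (X.sub i).inc t = (X.sub i).inc t') ∧
      Pl (X.sub i).aa s) : (X.sub i).IsGood where
  inv := fun d => Subtype.ext (hN.inv d.1)
  fpf := fun d h => hN.fpf d.1 (congrArg Subtype.val h)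
  ne := by
    obtain ⟨d, h, _⟩ := X.att_mem i true
    exact ⟨⟨d, h⟩⟩
  surj := by
    rintro ⟨x, d, h, e⟩
    exact ⟨Sum.inl ⟨d, h⟩, Subtype.ext e⟩
  loop := by
    rintro (d | b) h
    · exact hN.loop (Sum.inl d.1) (congrArg Subtype.val h)
    · have h1 : X.att (i, !b) = X.att (i, b) := congrArg Subtype.val h
      cases b
      · exact X.att_ne i h1
      · exact X.att_ne i h1.symm
  simp := fun d d' h1 h2 =>
    Subtype.ext (hN.simp d.1 d'.1 (congrArg Subtype.val h1) (congrArg Subtype.val h2))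
  two := by
    intro A hA hne hu
    by_cases hr : Sum.inr true ∈ A
    · have hr' : Sum.inr false ∈ A := (hA (Sum.inr true)).2 hr
      have hne' : (Aᶜ).Nonempty := by
        rw [nonempty_iff_ne_empty, ne_eq, compl_eq_empty_iff]; exact hu
      obtain ⟨x, y, h, h1, h2⟩ := DecGood_two hN X i hA.compl hne' (by
        intro b
        cases b <;> simpa using by assumption)
      exact ⟨x, y, h, DecGood_Sh_compl h1, DecGood_Sh_compl h2⟩
    · have hr' : Sum.inr false ∉ A := fun h => hr ((hA (Sum.inr false)).2 h)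
      exact DecGood_two hN X i hA hne (by intro b; cases b <;> assumption)
  planar := hp

/-- a rotation system of a good network gives a good map -/
theorem LNet.IsGood.rot {N : LNet Λ} (hN : N.IsGood) : ∃ s : Perm N.T,
    (∀ t t', s.SameCycle t t' ↔ N.inc t = N.inc t') ∧ Good N.aa s := by
  obtain ⟨s, hs, hp⟩ := hN.planar
  refine ⟨s, hs, ?_, ?_, ?_, hp, ?_⟩
  · rintro (d | b)
    · exact congrArg Sum.inl (hN.inv d)
    · show (Sum.inr (!!b) : N.T) = _
      rw [Bool.not_not]
  · exact fun t h => hN.loop t (congrArg N.inc h)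
  · intro A hA hne hu
    obtain ⟨x, y, hxy, hx, hy⟩ := hN.two A hA hne hu
    exact DecGood_cut hs hxy hx hy
  · obtain ⟨d⟩ := hN.ne
    have h1 : 2 ≤ Fintype.card N.D := by
      have : ({N.a d, d} : Finset N.D).card = 2 := card_pair (hN.fpf d)
      rw [← this]
      exact card_le_univ _
    have h2 : Fintype.card N.T = Fintype.card N.D + 2 := by
      simp [LNet.T]
    omega

end PGr
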