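import Pool.Agent.PGr.NetDefs

/-! # Module GDec: a network with a decomposition is glued from the networks of the parts -/

set_option linter.unusedSectionVars false

namespace PGr
open Equiv Finset
open scoped ENNReal
universe u
variable {Λ : Type u}

/-- the vertex of `N` which belongs to a vertex of the glued network -/
def GDec.g {N : LNet Λ} (X : Dec N) {Vc : Type} (ι : Vc → N.V) :
    (Vc ⊕ Σ i, (X.sub i).Int) → N.V
  | Sum.inl v => ι v
  | Sum.inr x => x.2.1.1

theorem GDec.int_ne {N : LNet Λ} (X : Dec N) {i : X.I} (x : (X.sub i).Int) (b : Bool) :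
    x.1.1 ≠ X.att (i, b) := fun h => x.2 b (Subtype.ext h)

theorem GDec.int_share {N : LNet Λ} (X : Dec N) {i : X.I} (x : (X.sub i).Int) (d' : N.D)
    (h : N.inc (Sum.inl d') = x.1.1) : X.part d' = i := by
  by_contra hne
  obtain ⟨d, hd, hx⟩ := x.1.2
  obtain ⟨b, hb⟩ := X.share d d' (by rw [hd]; exact fun h1 => hne h1.symm) (hx.trans h.symm)
  rw [hx, hd] at hb
  exact GDec.int_ne X x b hb

theorem GDec.int_pole {N : LNet Λ} (X : Dec N) {i : X.I} (x : (X.sub i).Int) (b : Bool) :
    x.1.1 ≠ N.pole b := by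
  intro h
  obtain ⟨d, hd, hx⟩ := x.1.2
  obtain ⟨b', hb⟩ := X.root d b (hx.trans h)
  rw [hx, hd] at hb
  exact GDec.int_ne X x b' hb

theorem gdec {N : LNet Λ} (X : Dec N) (hsurj : Function.Surjective N.inc)
    {Vc : Type} [Fintype Vc] [DecidableEq Vc] (ι : Vc → N.V) (hι : Function.Injective ι)
    (cinc : (X.I × Bool) ⊕ Bool → Vc) (hcs : Function.Surjective cinc)
    (hc : ∀ x, ι (cinc (Sum.inl x)) = X.att x) (hc' : ∀ b, ι (cinc (Sum.inr b)) = N.pole b) :
    NIso N (glue cinc X.sub (fun x => N.lab (ι x))) := by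
  have hmix : ∀ (v : Vc) (x : Σ i, (X.sub i).Int), ι v ≠ x.2.1.1 := by
    rintro v ⟨i, x⟩ h
    obtain ⟨y, rfl⟩ := hcs v
    rcases y with ⟨j, b⟩ | b
    · rw [hc] at h
      obtain ⟨d', hd', hx'⟩ := X.att_mem j b
      have h1 : j = i := hd'.symm.trans (GDec.int_share X x d' (hx'.trans h))
      subst h1
      exact GDec.int_ne X x b h.symm
    · rw [hc'] at h
      exact GDec.int_pole X x b h.symm
  have hbij : Function.Bijective (GDec.g X ι) := by
    constructor
    · rintro (v | x) (v' | y) h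
      · exact congrArg Sum.inl (hι h)
      · exact absurd h (hmix v y)
      · exact absurd h.symm (hmix v' x)
      · obtain ⟨i, x⟩ := x
        obtain ⟨j, y⟩ := y
        change x.1.1 = y.1.1 at h
        obtain ⟨d, hd, hx⟩ := x.1.2
        have h1 : i = j := hd.symm.trans (GDec.int_share X y d (hx.trans h))
        subst h1
        rw [Subtype.ext (Subtype.ext h) (a1 := x) (a2 := y)]
    · intro x
      obtain ⟨t, rfl⟩ := hsurj x
      rcases t with d | b
      · by_cases h : ∃ b, N.inc (Sum.inl d) = X.att (X.part d, b)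
        · obtain ⟨b, hb⟩ := h
          exact ⟨Sum.inl (cinc (Sum.inl (X.part d, b))), (hc _).trans hb.symm⟩
        · exact ⟨Sum.inr ⟨X.part d, ⟨⟨N.inc (Sum.inl d), d, rfl, rfl⟩,
            fun b hb => h ⟨b, congrArg Subtype.val hb⟩⟩⟩, rfl⟩
      · exact ⟨Sum.inl (cinc (Sum.inr b)), hc' b⟩
  refine ⟨(Equiv.sigmaFiberEquiv X.part).symm, (Equiv.ofBijective _ hbij).symm, ?_, ?_, ?_, ?_⟩
  · intro d
    exact (Equiv.symm_apply_eq (Equiv.sigmaFiberEquiv X.part)).2 rfl
  · intro d
    refine (Equiv.symm_apply_eq (Equiv.ofBijective _ hbij)).2 ?_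
    change N.inc (Sum.inl d) = GDec.g X ι (glueInc cinc X.sub (Sum.inl ⟨X.part d, ⟨d, rfl⟩⟩))
    by_cases h1 : N.inc (Sum.inl d) = X.att (X.part d, true)
    · have h2 : glueInc cinc X.sub (Sum.inl ⟨X.part d, ⟨d, rfl⟩⟩) =
          Sum.inl (cinc (Sum.inl (X.part d, true))) := dif_pos (Subtype.ext h1)
      rw [h2]
      exact h1.trans (hc _).symm
    · have h1' : ¬ (X.sub (X.part d)).inc (Sum.inl ⟨d, rfl⟩) = (X.sub (X.part d)).pole true :=
        fun h => h1 (congrArg Subtype.val h)
      by_cases h3 : N.inc (Sum.inl d) = X.att (X.part d, false)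
      · have h2 : glueInc cinc X.sub (Sum.inl ⟨X.part d, ⟨d, rfl⟩⟩) =
            Sum.inl (cinc (Sum.inl (X.part d, false))) :=
          (dif_neg h1').trans (dif_pos (Subtype.ext h3))
        rw [h2]
        exact h3.trans (hc _).symm
      · have h3' : ¬ (X.sub (X.part d)).inc (Sum.inl ⟨d, rfl⟩) = (X.sub (X.part d)).pole false :=
          fun h => h3 (congrArg Subtype.val h)
        have h2 : glueInc cinc X.sub (Sum.inl ⟨X.part d, ⟨d, rfl⟩⟩) =
            Sum.inr ⟨X.part d, ⟨(X.sub (X.part d)).inc (Sum.inl ⟨d, rfl⟩), by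
              rintro (_ | _) <;> assumption⟩⟩ :=
          (dif_neg h1').trans (dif_neg h3')
        rw [h2]
        rfl
  · intro b
    exact (Equiv.symm_apply_eq (Equiv.ofBijective _ hbij)).2 (hc' b).symm
  · intro x _
    have h1 : ∀ z, glueLab X.sub (fun x => N.lab (ι x)) z = N.lab (GDec.g X ι z) := by
      rintro (v | y)
      · rfl
      · rfl
    exact (h1 _).trans (congrArg N.lab (Equiv.ofBijective_apply_symm_apply _ hbij x))

end PGr
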