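import Pool.Agent.PGr.InsPl
import Pool.Agent.PGr.PlRestrict

/-! # Module SubMap: the net of a set of edges with cut 4 -/

set_option linter.unusedSectionVars false

namespace PGr
open Equiv Finset

namespace SubMap
variable {T : Type*} [Fintype T] [DecidableEq T]

/-- following a permutation from a point of `P` to a point outside `P`, there is a first exit -/
theorem exit (f : Perm T) {P : Finset T} {x y : T} (hx : x ∈ P) (hy : y ∉ P)
    (hxy : f.SameCycle x y) :
    ∃ k : ℕ, (∀ i ≤ k, (f ^ i) x ∈ P) ∧ f ((f ^ k) x) ∉ P := by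
  obtain ⟨n, hn⟩ : ∃ n : ℕ, (f ^ n) x ∉ P := by
    obtain ⟨n, -, hn⟩ := hxy.exists_pow_eq'
    exact ⟨n, hn ▸ hy⟩
  have hex : ∃ n : ℕ, (f ^ n) x ∉ P := ⟨n, hn⟩
  have hspec := Nat.find_spec hex
  have hmin : ∀ i, i < Nat.find hex → (f ^ i) x ∈ P := fun i hi => by
    have := Nat.find_min hex hi
    simpa using this
  have hpos : Nat.find hex ≠ 0 := by
    intro h0
    rw [h0] at hspec
    exact hspec (by simpa using hx)
  obtain ⟨k, hk⟩ := Nat.exists_eq_succ_of_ne_zero hpos
  refine ⟨k, fun i hi => hmin i (by omega), ?_⟩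
  rw [hk, pow_succ', Perm.mul_apply] at hspec
  exact hspec

end SubMap

section
variable {T : Type*} [Fintype T] [DecidableEq T] {a s : Perm T}

/-- a set with cut 4 has exactly two last darts -/
theorem exists_last {P : Finset T} (hcut : cut s P = 4) :
    ∃ z0 z1 : {x // x ∈ P}, z0 ≠ z1 ∧ s z0 ∉ P ∧ s z1 ∉ P ∧ ∀ z ∈ P, s z ∉ P → z = z0 ∨ z = z1 := by
  rw [cut_eq_two_mul] at hcut
  have h2 : (univ.filter fun t => t ∈ P ∧ s t ∉ P).card = 2 := by omega
  obtain ⟨z0, z1, hne, heq⟩ := card_eq_two.mp h2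
  have hz0 : z0 ∈ P ∧ s z0 ∉ P := by
    have : z0 ∈ (univ.filter fun t => t ∈ P ∧ s t ∉ P) := by rw [heq]; simp
    simpa using this
  have hz1 : z1 ∈ P ∧ s z1 ∉ P := by
    have : z1 ∈ (univ.filter fun t => t ∈ P ∧ s t ∉ P) := by rw [heq]; simp
    simpa using this
  refine ⟨⟨z0, hz0.1⟩, ⟨z1, hz1.1⟩, ?_, hz0.2, hz1.2, ?_⟩
  · intro h; exact hne (congrArg Subtype.val h)
  · intro z hz hz'
    have : z ∈ (univ.filter fun t => t ∈ P ∧ s t ∉ P) := by simp [hz, hz']
    rw [heq] at this
    simpa using this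

namespace SubMap

theorem last_eq {P : Finset T} (hcut : cut s P = 4) {z0 z1 : T} (h0 : z0 ∈ P) (h1 : z1 ∈ P)
    (h0' : s z0 ∉ P) (h1' : s z1 ∉ P) (hne : z0 ≠ z1) {z : T} (hz : z ∈ P) (hz' : s z ∉ P) :
    z = z0 ∨ z = z1 := by
  obtain ⟨u0, u1, -, -, -, hu⟩ := exists_last hcut
  have e0 := hu z0 h0 h0'
  have e1 := hu z1 h1 h1'
  have e := hu z hz hz'
  rcases e0 with e0 | e0 <;> rcases e1 with e1 | e1 <;> rcases e with e | e <;>
    simp_all

end SubMap

/-- they are at different vertices -/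
theorem Good.last_ne (h : Good a s) {P : Finset T} (hP : Cl a P) (hcut : cut s P = 4)
    {z0 z1 : T} (h0 : z0 ∈ P) (h1 : z1 ∈ P) (h0' : s z0 ∉ P) (h1' : s z1 ∉ P) (hne : z0 ≠ z1) :
    ¬ s.SameCycle z0 z1 := by
  intro hs
  -- the face leaving at `z0` enters again at `t`
  have hψ0 : (a * s) z0 ∉ P := by
    rw [Perm.mul_apply, hP]; exact h0'
  obtain ⟨k, hk, hk'⟩ := SubMap.exit (a * s) (P := Pᶜ) (x := (a * s) z0) (y := z0)
    (by simpa using hψ0) (by simpa using h0)
    (Perm.sameCycle_apply_left.mpr (Perm.SameCycle.refl _ _))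
  set t := ((a * s) ^ k) ((a * s) z0) with ht
  have htP : t ∉ P := mem_compl.mp (hk k le_rfl)
  have hst : s t ∈ P := by
    have : (a * s) t ∈ P := by simpa using hk'
    rw [Perm.mul_apply, hP] at this
    exact this
  have hface : (a * s).SameCycle z0 t := by
    refine (Perm.sameCycle_apply_left.mp ?_)
    exact ⟨k, by simp [ht]⟩
  -- follow `s` from `s t`
  obtain ⟨m, hm, hm'⟩ := SubMap.exit s (P := P) (x := s t) (y := t) hst htP
    (Perm.sameCycle_apply_left.mpr (Perm.SameCycle.refl _ _))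
  have hz : (s ^ m) (s t) = z0 ∨ (s ^ m) (s t) = z1 :=
    SubMap.last_eq hcut h0 h1 h0' h1' hne (hm m le_rfl) hm'
  have hcyc : s.SameCycle t ((s ^ m) (s t)) :=
    (Perm.sameCycle_apply_left.mp ⟨m, by simp⟩)
  have hvert : s.SameCycle z0 t := by
    rcases hz with hz | hz
    · rw [hz] at hcyc; exact hcyc.symm
    · rw [hz] at hcyc; exact hs.trans hcyc.symm
  have hne' : z0 ≠ t := fun e => htP (e ▸ h0)
  exact h.noPinch hne' hvert hface

/-- straightness: the face leaving at `z0` is the face leaving at `z1` of the restricted map -/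
theorem Good.straight (h : Good a s) {P : Finset T} (hP : Cl a P) (hcut : cut s P = 4)
    {z0 z1 : {x // x ∈ P}} (h0' : s z0 ∉ P) (h1' : s z1 ∉ P) (hne : z0 ≠ z1) :
    (subA a P hP * ret s P).SameCycle z0 z1 := by
  obtain ⟨k, hkpos, hk, hkmin⟩ := exists_ret s P z0
  have hk1 : k ≠ 1 := by
    intro h1
    subst h1
    apply h0'
    have := (ret s P z0).2
    rw [← hk] at this
    simpa using this
  obtain ⟨j, rfl⟩ : ∃ j, k = j + 1 := ⟨k - 1, by omega⟩
  set y := (s ^ j) z0.1 with hy
  have hyP : y ∉ P := hkmin j (by omega) (by omega)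
  have hsy : s y = (ret s P z0).1 := by
    rw [← hk, pow_succ', Perm.mul_apply]
  have hvert : s.SameCycle z0.1 y := ⟨j, by simp [hy]⟩
  have hψy : (a * s) y = ((subA a P hP * ret s P) z0).1 := by
    rw [Perm.mul_apply, Perm.mul_apply, subA_val, hsy]
  have hψyP : (a * s) y ∈ P := by rw [hψy]; exact ((subA a P hP * ret s P) z0).2
  obtain ⟨m, hm, hm'⟩ := SubMap.exit (a * s) (P := P) (x := (a * s) y) (y := y) hψyP hyP
    (Perm.sameCycle_apply_left.mpr (Perm.SameCycle.refl _ _))
  -- the faces of the two maps agree inside `P`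
  have hfollow : ∀ i ≤ m, (((subA a P hP * ret s P) ^ i) ((subA a P hP * ret s P) z0)).1 =
      ((a * s) ^ i) ((a * s) y) := by
    intro i
    induction i with
    | zero => intro _; simp [hψy]
    | succ i ih =>
      intro hi
      have ih' := ih (by omega)
      rw [pow_succ', Perm.mul_apply, pow_succ', Perm.mul_apply]
      set w := ((subA a P hP * ret s P) ^ i) ((subA a P hP * ret s P) z0) with hw
      have hin : (a * s) w.1 ∈ P := by
        rw [ih']
        have := hm (i + 1) hi
        rwa [pow_succ', Perm.mul_apply] at this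
      have hsw : s w.1 ∈ P := by
        rw [Perm.mul_apply, hP] at hin; exact hin
      rw [Perm.mul_apply, subA_val, ret_of_mem s P w hsw, ← ih', Perm.mul_apply]
  set w := ((subA a P hP * ret s P) ^ m) ((subA a P hP * ret s P) z0) with hw
  have hw' := hfollow m le_rfl
  have hwlast : s w.1 ∉ P := by
    rw [hw', ← hP, ← Perm.mul_apply]
    exact hm'
  have hcyc : (subA a P hP * ret s P).SameCycle z0 w :=
    Perm.sameCycle_apply_left.mp ⟨m, by simp [hw]⟩
  rcases SubMap.last_eq hcut z0.2 z1.2 h0' h1' (fun e => hne (Subtype.ext e)) w.2 hwlast with e | e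
  · exfalso
    have hface : (a * s).SameCycle z0.1 y := by
      have h1 : (a * s).SameCycle y w.1 := by
        rw [hw']
        exact Perm.sameCycle_apply_left.mp ⟨m, by simp⟩
      rw [e] at h1
      exact h1.symm
    have hne' : z0.1 ≠ y := fun e' => hyP (by rw [← e']; exact z0.2)
    exact h.noPinch hne' hvert hface
  · have : w = z1 := Subtype.ext e
    rw [← this]; exact hcyc

namespace SubMap

theorem cut_sub {P : Finset T} (hcut : cut s P = 4)
    {z0 z1 : {x // x ∈ P}} (h0' : s z0 ∉ P) (h1' : s z1 ∉ P) (hne : z0 ≠ z1)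
    (A : Finset {x // x ∈ P}) :
    cut (insS (ret s P) z0 z1) (A.map ⟨Sum.inl, Sum.inl_injective⟩) =
      cut s (A.map ⟨Subtype.val, Subtype.val_injective⟩) := by
  rw [cut_eq_two_mul, cut_eq_two_mul]
  congr 1
  refine (card_bij' (fun (x : T) (hx : x ∈ univ.filter fun t =>
      t ∈ A.map ⟨Subtype.val, Subtype.val_injective⟩ ∧
        s t ∉ A.map ⟨Subtype.val, Subtype.val_injective⟩) =>
      (Sum.inl (⟨x, by
        simp only [mem_filter, mem_univ, true_and, mem_map, Function.Embedding.coeFn_mk] at hx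
        obtain ⟨⟨u, -, rfl⟩, -⟩ := hx
        exact u.2⟩ : {x // x ∈ P}) : {x // x ∈ P} ⊕ Bool))
    (fun x _ => Sum.elim (fun u => u.1) (fun _ => z0.1) x) ?_ ?_ ?_ ?_).symm
  · intro x hx
    simp only [mem_filter, mem_univ, true_and, mem_map, Function.Embedding.coeFn_mk] at hx ⊢
    obtain ⟨⟨u, hu, rfl⟩, hx2⟩ := hx
    refine ⟨⟨u, hu, rfl⟩, ?_⟩
    rintro ⟨v, hv, hve⟩
    have hu0 : u ≠ z0 := by
      intro e
      have := insS_c0 (ret s P) hne
      rw [← e] at this hve
      erw [this] at hve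
      simp at hve
    have hu1 : u ≠ z1 := by
      intro e
      have := insS_c1 (ret s P) hne
      rw [← e] at this hve
      erw [this] at hve
      simp at hve
    have hsu : s u.1 ∈ P := by
      by_contra hc
      rcases last_eq hcut z0.2 z1.2 h0' h1' (fun e => hne (Subtype.ext e)) u.2 hc with e | e
      · exact hu0 (Subtype.ext e)
      · exact hu1 (Subtype.ext e)
    have h3 := insS_inl (ret s P) hne hu0 hu1
    rw [ret_of_mem s P u hsu] at h3
    erw [h3] at hve
    simp only [Sum.inl.injEq] at hve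
    exact hx2 ⟨v, hv, by rw [hve]⟩
  · intro x hx
    simp only [mem_filter, mem_univ, true_and, mem_map, Function.Embedding.coeFn_mk] at hx ⊢
    obtain ⟨⟨u, hu, rfl⟩, hx2⟩ := hx
    refine ⟨⟨u, hu, rfl⟩, ?_⟩
    rintro ⟨v, hv, hve⟩
    simp only [Sum.elim_inl] at hve
    have hsu : s u.1 ∈ P := by rw [← hve]; exact v.2
    have hu0 : u ≠ z0 := by rintro rfl; exact h0' hsu
    have hu1 : u ≠ z1 := by rintro rfl; exact h1' hsu
    have h3 := insS_inl (ret s P) hne hu0 hu1
    rw [ret_of_mem s P u hsu] at h3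
    apply hx2
    refine ⟨v, hv, ?_⟩
    rw [h3]
    congr 1
    exact Subtype.ext hve
  · intro x hx; rfl
  · intro x hx
    simp only [mem_filter, mem_univ, true_and, mem_map, Function.Embedding.coeFn_mk] at hx
    obtain ⟨⟨u, hu, rfl⟩, hx2⟩ := hx
    rfl

/-- nonseparability is enough to check on sets without new darts -/
theorem ns_ext {D : Type*} [Fintype D] [DecidableEq D] {α : Perm D} {σ : Perm (D ⊕ Bool)}
    (H : ∀ A : Finset D, Cl α A → A.Nonempty → 4 ≤ cut σ (A.map ⟨Sum.inl, Sum.inl_injective⟩)) :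
    NS (ext α) σ := by
  have key : ∀ A : Finset (D ⊕ Bool), Cl (ext α) A → A.Nonempty → Sum.inr true ∉ A →
      4 ≤ cut σ A := by
    intro A hA hne ht
    have hf : Sum.inr false ∉ A := by
      rw [← hA]; simpa using ht
    have hA' : A = (univ.filter fun d => Sum.inl d ∈ A).map ⟨Sum.inl, Sum.inl_injective⟩ := by
      ext x
      rcases x with d | b
      · simp
      · cases b <;> simp [ht, hf]
    rw [hA']
    apply H
    · intro t
      simp only [mem_filter, mem_univ, true_and]
      have := hA (Sum.inl t)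
      simpa using this
    · obtain ⟨x, hx⟩ := hne
      rcases x with d | b
      · exact ⟨d, by simpa using hx⟩
      · cases b
        · exact absurd hx hf
        · exact absurd hx ht
  intro A hA hne hu
  by_cases ht : Sum.inr true ∈ A
  · rw [← cut_compl]
    refine key Aᶜ hA.compl ?_ (by simpa using ht)
    by_contra hc
    rw [not_nonempty_iff_eq_empty, compl_eq_empty_iff] at hc
    exact hu hc
  · exact key A hA hne ht

end SubMap

theorem Good.subMap (h : Good a s) {P : Finset T} (hP : Cl a P) (hcut : cut s P = 4)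
    {z0 z1 : {x // x ∈ P}} (h0' : s z0 ∉ P) (h1' : s z1 ∉ P) (hne : z0 ≠ z1) :
    Good (ext (subA a P hP)) (insS (ret s P) z0 z1) := by
  have hinv : ∀ t, subA a P hP (subA a P hP t) = t := fun t => Subtype.ext (by
    rw [subA_val, subA_val]; exact h.inv _)
  refine ⟨?_, ?_, ?_, ?_, ?_⟩
  · rintro (t | b)
    · rw [ext_inl, ext_inl, hinv]
    · rw [ext_inr, ext_inr, Bool.not_not]
  · rintro (t | b)
    · rw [ext_inl]
      intro e
      have := congrArg Subtype.val (Sum.inl_injective e)
      rw [subA_val] at this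
      exact h.fpf _ this
    · rw [ext_inr]
      intro e
      have := Sum.inr_injective e
      cases b <;> simp at this
  · apply SubMap.ns_ext
    intro A hA hAne
    rw [SubMap.cut_sub hcut h0' h1' hne]
    apply h.ns
    · intro t
      simp only [mem_map, Function.Embedding.coeFn_mk]
      constructor
      · rintro ⟨u, hu, hut⟩
        refine ⟨subA a P hP u, (hA u).mpr hu, ?_⟩
        rw [subA_val, hut, h.inv]
      · rintro ⟨u, hu, rfl⟩
        exact ⟨subA a P hP u, (hA u).mpr hu, rfl⟩
    · exact hAne.map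
    · intro hu
      have hPu : P = univ := by
        ext t
        simp only [mem_univ, iff_true]
        have : t ∈ A.map ⟨Subtype.val, Subtype.val_injective⟩ := by rw [hu]; simp
        simp only [mem_map, Function.Embedding.coeFn_mk] at this
        obtain ⟨u, -, rfl⟩ := this
        exact u.2
      rw [hPu, cut_univ] at hcut
      omega
  · exact (h.pl.restrict h.inv P hP).ins hinv hne (h.straight hP hcut h0' h1' hne)
  · rw [Fintype.card_sum, Fintype.card_bool]
    have : 1 < Fintype.card {x // x ∈ P} := Fintype.one_lt_card_iff.mpr ⟨z0, z1, hne⟩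
    omega

end

end PGr
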