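import Pool.Agent.PGr.Quot
import Pool.Agent.PGr.SubMap
import Pool.Agent.PGr.CutIso
import Pool.Agent.PGr.Cut
import Pool.Agent.PGr.RetLib
import Pool.Agent.PGr.Reps

/-! # Module RigidQuot: the rigid core of a map without prefixes -/

set_option linter.unusedSectionVars false

namespace PGr
open Equiv Finset

namespace RigidQuot

/-- The sets of edges with cut 4 which avoid the root edge. -/
structure Mem (M : BMap) (A : Finset M.T) : Prop where
  cl : Cl M.aa A
  ne : A.Nonempty
  root : Sum.inr true ∉ A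
  cut4 : cut M.s A = 4
  rest : A ∪ M.root ≠ univ

variable {M : BMap}

theorem mem_root {x : M.T} : x ∈ M.root ↔ x = Sum.inr true ∨ x = Sum.inr false := by
  simp [BMap.root]

theorem root_eq : M.root = {Sum.inr true, M.aa (Sum.inr true)} := rfl

theorem root_cl (hM : M.IsGood) : Cl M.aa M.root := by
  rw [root_eq]
  exact Cl_pair hM.inv _

theorem root_cut (hM : M.IsGood) : cut M.s M.root = 4 := by
  rw [root_eq]
  exact hM.cut_pair _

theorem not_mem_root_false {A : Finset M.T} (hA : Cl M.aa A) (hr : Sum.inr true ∉ A) :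
    Sum.inr false ∉ A := fun h => hr ((hA (Sum.inr true)).1 h)

theorem not_mem_root_of {A : Finset M.T} (hA : Cl M.aa A) (hr : Sum.inr true ∉ A) {x : M.T}
    (hx : x ∈ A) : x ∉ M.root := by
  rw [mem_root]
  rintro (h | h)
  · rw [h] at hx; exact hr hx
  · rw [h] at hx; exact not_mem_root_false hA hr hx

theorem s_root (hM : M.IsGood) (b : Bool) : M.s (Sum.inr b) ∉ M.root := by
  rw [mem_root]
  have h1 := hM.s_ne (Sum.inr b)
  have h2 := hM.s_ne_a (Sum.inr b)
  have h3 : M.aa (Sum.inr b) = Sum.inr (!b) := rfl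
  rw [h3] at h2
  cases b
  · rintro (h | h)
    · exact h2 h
    · exact h1 h
  · rintro (h | h)
    · exact h1 h
    · exact h2 h

/-- If the complement of the root is a disjoint union of two sets with cut 4, then one of them is
a prefix. -/
theorem pref_of {A B : Finset M.T} (clA : Cl M.aa A)
    (neB : B.Nonempty) (rA : Sum.inr true ∉ A) (rB : Sum.inr true ∉ B) (clB : Cl M.aa B)
    (cutA : cut M.s A = 4) (cutB : cut M.s B = 4) (hd : Disjoint A B)
    (hun : A ∪ B ∪ M.root = univ) (hs : M.s (Sum.inr true) ∈ A) : Pref M A := by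
  have hc : A ∪ M.root = Bᶜ := by
    ext x
    rw [mem_union, mem_compl]
    constructor
    · rintro (h | h)
      · exact disjoint_left.1 hd h
      · intro h2
        exact not_mem_root_of clB rB h2 h
    · intro h
      have h2 : x ∈ A ∪ B ∪ M.root := by rw [hun]; exact mem_univ _
      rw [mem_union, mem_union] at h2
      tauto
  refine ⟨clA, rA, hs, ?_, cutA, ?_⟩
  · rw [hc]
    intro h
    obtain ⟨x, hx⟩ := neB
    have h2 : x ∈ Bᶜ := by rw [h]; exact mem_univ _
    rw [mem_compl] at h2
    exact h2 hx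
  · rw [hc, cut_compl]
    exact cutB

theorem no_partition (hM : M.IsGood) (hp : ∀ A, ¬ Pref M A) {A B : Finset M.T} (clA : Cl M.aa A)
    (clB : Cl M.aa B) (neA : A.Nonempty) (neB : B.Nonempty) (rA : Sum.inr true ∉ A)
    (rB : Sum.inr true ∉ B) (cutA : cut M.s A = 4) (cutB : cut M.s B = 4) (hd : Disjoint A B)
    (hun : A ∪ B ∪ M.root = univ) : False := by
  have h1 : M.s (Sum.inr true) ∈ A ∪ B ∪ M.root := by rw [hun]; exact mem_univ _
  rw [mem_union, mem_union] at h1
  rcases h1 with (h1 | h1) | h1
  · exact hp A (pref_of clA neB rA rB clB cutA cutB hd hun h1)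
  · exact hp B (pref_of clB neA rB rA clA cutB cutA hd.symm (by rw [union_comm B A, hun]) h1)
  · exact s_root hM true h1

theorem Mem.union (hM : M.IsGood) (hp : ∀ A, ¬ Pref M A) {A B : Finset M.T} (hA : Mem M A)
    (hB : Mem M B) (hi : (A ∩ B).Nonempty) : Mem M (A ∪ B) := by
  have hr : Sum.inr true ∉ A ∪ B := by
    rw [mem_union]
    rintro (h | h)
    · exact hA.root h
    · exact hB.root h
  have hu : A ∪ B ≠ univ := fun h => hr (by rw [h]; exact mem_univ _)
  have hcut := hM.ns.uncross hA.cl hB.cl hA.cut4 hB.cut4 hi hu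
  refine ⟨hA.cl.union hB.cl, hA.ne.mono subset_union_left, hr, hcut.2, ?_⟩
  intro hun
  by_cases h1 : (B \ A).Nonempty
  · by_cases h2 : (A \ B).Nonempty
    · have h3 := (hM.ns.uncross_sdiff hA.cl hB.cl hA.cut4 hB.cut4 h2 h1).2
      refine no_partition hM hp hA.cl (hB.cl.sdiff hA.cl) hA.ne h1 hA.root
        (fun h => hB.root (mem_sdiff.1 h).1) hA.cut4 h3 disjoint_sdiff ?_
      rw [union_sdiff_self_eq_union]
      exact hun
    · rw [not_nonempty_iff_eq_empty, sdiff_eq_empty_iff_subset] at h2
      rw [union_eq_right.2 h2] at hun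
      exact hB.rest hun
  · rw [not_nonempty_iff_eq_empty, sdiff_eq_empty_iff_subset] at h1
    rw [union_eq_left.2 h1] at hun
    exact hA.rest hun

theorem mem_pair (hM : M.IsGood) (h6 : 4 ≤ Fintype.card M.D) {t : M.T} (ht : t ∉ M.root) :
    Mem M {t, M.aa t} := by
  have h1 : Sum.inr true ∉ ({t, M.aa t} : Finset M.T) := by
    rw [mem_insert, mem_singleton]
    rintro (h | h)
    · exact ht (by rw [← h, mem_root]; left; rfl)
    · apply ht
      have h2 : M.aa (M.aa t) = t := hM.inv t
      rw [← h] at h2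
      rw [← h2, mem_root]
      right; rfl
  refine ⟨Cl_pair hM.inv t, ⟨t, mem_insert_self _ _⟩, h1, hM.cut_pair t, ?_⟩
  intro h
  have h2 : Fintype.card M.T ≤ 4 := by
    rw [← card_univ, ← h]
    refine (card_union_le _ _).trans ?_
    have h3 : ({t, M.aa t} : Finset M.T).card ≤ 2 := card_insert_le _ _
    have h4 : M.root.card ≤ 2 := card_insert_le _ _
    omega
  have h3 : Fintype.card M.T = Fintype.card M.D + 2 := by
    rw [Fintype.card_sum, Fintype.card_bool]
  omega

/-- The partition in maximal members and the root. -/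
theorem exists_part (hM : M.IsGood) (h6 : 4 ≤ Fintype.card M.D) (hp : ∀ A, ¬ Pref M A) :
    ∃ part : M.T → Finset M.T, (∀ t u, part u = part t ↔ u ∈ part t) ∧
      (∀ t, t ∈ M.root → part t = M.root) ∧ (∀ t, t ∉ M.root → Mem M (part t)) ∧
      (∀ t A, Mem M A → t ∈ A → A ⊆ part t) := by
  classical
  have hex : ∀ t : M.T, ∃ A : Finset M.T, (t ∈ M.root → A = M.root) ∧
      (t ∉ M.root → Mem M A ∧ t ∈ A ∧ ∀ B, Mem M B → t ∈ B → B ⊆ A) := by
    intro t
    by_cases ht : t ∈ M.root
    · exact ⟨M.root, fun _ => rfl, fun h => absurd ht h⟩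
    · have hne : (univ.filter fun A : Finset M.T => Mem M A ∧ t ∈ A).Nonempty :=
        ⟨{t, M.aa t}, by
          rw [mem_filter]
          exact ⟨mem_univ _, mem_pair hM h6 ht, mem_insert_self _ _⟩⟩
      obtain ⟨A, hA, hmax⟩ := exists_max_image _ (fun A : Finset M.T => A.card) hne
      rw [mem_filter] at hA
      refine ⟨A, fun h => absurd h ht, fun _ => ⟨hA.2.1, hA.2.2, fun B hB htB => ?_⟩⟩
      have h1 : Mem M (A ∪ B) := hA.2.1.union hM hp hB ⟨t, mem_inter.2 ⟨hA.2.2, htB⟩⟩
      have h2 := hmax (A ∪ B) (by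
        rw [mem_filter]
        exact ⟨mem_univ _, h1, mem_union_left _ hA.2.2⟩)
      have h3 : A = A ∪ B := eq_of_subset_of_card_le subset_union_left h2
      rw [h3]
      exact subset_union_right
  choose part hroot hmax using hex
  have hself : ∀ t, t ∈ part t := by
    intro t
    by_cases ht : t ∈ M.root
    · rw [hroot t ht]; exact ht
    · exact (hmax t ht).2.1
  refine ⟨part, ?_, hroot, fun t ht => (hmax t ht).1, ?_⟩
  · intro t u
    constructor
    · intro h
      rw [← h]
      exact hself u
    · intro h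
      by_cases ht : t ∈ M.root
      · rw [hroot t ht] at h ⊢
        exact hroot u h
      · obtain ⟨h1, h2, h3⟩ := hmax t ht
        have hu : u ∉ M.root := not_mem_root_of h1.cl h1.root h
        obtain ⟨h4, h5, h6'⟩ := hmax u hu
        have h7 := h6' _ h1 h
        exact Subset.antisymm (h3 _ h4 (h7 h2)) h7
  · intro t A hA ht
    have ht' : t ∉ M.root := not_mem_root_of hA.cl hA.root ht
    exact (hmax t ht').2.2 A hA ht

end RigidQuot

open RigidQuot

/-- the maximal sets with cut 4 avoiding the root edge form a partition, and the quotient is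
rigid; it is presented through an arbitrary core isomorphic to it. -/
theorem exists_rigid_core {M : BMap} (hM : M.IsGood) (h6 : 4 ≤ Fintype.card M.D)
    (hp : ∀ A, ¬ Pref M A) :
    ∃ Q : BMap, Q.IsGood ∧ Rigid Q ∧ ∀ C : Core, BIso C.toB Q →
      ∃ (part : M.D → C.I) (lst : (C.I × Bool) ⊕ Bool → M.T),
        (∀ d, part (M.a d) = part d) ∧
        Function.Surjective part ∧
        Function.Injective lst ∧
        (∀ b, lst (Sum.inr b) = Sum.inr b) ∧
        (∀ i b, ∃ d, lst (Sum.inl (i, b)) = Sum.inl d ∧ part d = i) ∧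
        -- the darts `lst x` are exactly the darts followed by a dart in another part
        (∀ d, (∀ d', M.s (Sum.inl d) = Sum.inl d' → part d' ≠ part d) ↔
          ∃ x, lst x = Sum.inl d) ∧
        (∀ x y, M.s.SameCycle (lst x) (lst y) ↔ C.s.SameCycle x y) ∧
        (∀ i, cut M.s ((univ.filter fun d => part d = i).map ⟨Sum.inl, Sum.inl_injective⟩) = 4) := by
  classical
  obtain ⟨part', hiff, hproot, hpmem, hpmax⟩ := exists_part hM h6 hp
  have hself : ∀ t, t ∈ part' t := fun t => (hiff t t).1 rfl
  have hcl : ∀ t, Cl M.aa (part' t) := by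
    intro t
    by_cases ht : t ∈ M.root
    · rw [hproot t ht]; exact root_cl hM
    · exact (hpmem t ht).cl
  have hcut : ∀ t, cut M.s (part' t) = 4 := by
    intro t
    by_cases ht : t ∈ M.root
    · rw [hproot t ht]; exact root_cut hM
    · exact (hpmem t ht).cut4
  have hpa : ∀ t, part' (M.aa t) = part' t := fun t => (hiff t _).2 ((hcl t t).2 (hself t))
  have hfil : ∀ t, (univ.filter fun u => part' u = part' t) = part' t := by
    intro t
    ext u
    rw [mem_filter, hiff]
    simp
  have h4 : ∀ t, cut M.s (univ.filter fun u => part' u = part' t) = 4 := by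
    intro t
    rw [hfil]
    exact hcut t
  have hr1 : (Sum.inr true : M.T) ∈ M.root := mem_root.2 (Or.inl rfl)
  have hr0 : (Sum.inr false : M.T) ∈ M.root := mem_root.2 (Or.inr rfl)
  have hnr : ∀ d : M.D, (Sum.inl d : M.T) ∉ M.root := by
    intro d
    rw [mem_root]
    rintro (h | h) <;> exact absurd h (by simp)
  have hD : Nonempty M.D := by
    rw [← Fintype.card_pos_iff]
    omega
  obtain ⟨d₀⟩ := hD
  have h2 : ∃ t u, part' t ≠ part' u := by
    refine ⟨Sum.inr true, Sum.inl d₀, fun h => ?_⟩
    have h1 := (hiff _ _).1 h.symm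
    rw [hproot _ hr1] at h1
    exact hnr d₀ h1
  obtain ⟨L, hL, aL, haLp, haLne, haL2, hgood, hcutL⟩ : ∃ (L : Finset M.T),
      L = lastSet M.s part' ∧ ∃ aL : Perm {t // t ∈ L},
      (∀ z, part' (aL z).1 = part' z.1) ∧ (∀ z, aL z ≠ z) ∧
      (∀ z z' : {t // t ∈ L}, part' z'.1 = part' z.1 → z' = z ∨ z' = aL z) ∧
      Good aL (ret M.s L) ∧
      (∀ A : Finset {t // t ∈ L}, Cl aL A →
        cut (ret M.s L) A = cut M.s (univ.filter fun u => ∃ z ∈ A, part' u = part' z.1)) := by
    refine ⟨_, rfl, ?_⟩
    obtain ⟨aL, a1, a2, a3, a4, a5⟩ := exists_quot hM part' hpa h4 h2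
    exact ⟨aL, a1, a2, a3, a4, a5⟩
  have hmemL : ∀ t, t ∈ L ↔ M.s t ∉ part' t := by
    intro t
    rw [hL, lastSet, mem_filter, Ne, hiff]
    simp
  have hrL : ∀ b : Bool, (Sum.inr b : M.T) ∈ L := by
    intro b
    rw [hmemL, hproot _ (by cases b; exact hr0; exact hr1)]
    exact s_root hM b
  set R : {t // t ∈ L} := ⟨Sum.inr true, hrL true⟩ with hR
  have haR : aL R = ⟨Sum.inr false, hrL false⟩ := by
    have h1 := haL2 R ⟨Sum.inr false, hrL false⟩ (by
      rw [hiff, hR, hproot _ hr1]
      exact hr0)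
    rcases h1 with h1 | h1
    · exfalso
      have := congrArg Subtype.val h1
      simp [hR] at this
    · exact h1.symm
  have hpairs : ∀ z z' : {t // t ∈ L}, z'.1 ∈ part' z.1 → z' = z ∨ z' = aL z :=
    fun z z' h => haL2 z z' ((hiff _ _).2 h)
  obtain ⟨N, e, hea, hes, her⟩ := exists_BMap aL (ret M.s L) R hgood.inv hgood.fpf
  -- every part contains a last dart
  have hexL : ∀ t, ∃ z : {t // t ∈ L}, z.1 ∈ part' t := by
    intro t
    have h1 : cut M.s (part' t) =
        2 * (univ.filter fun u => u ∈ part' t ∧ M.s u ∉ part' t).card := by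
      rw [cut_eq_two_mul]
    rw [hcut t] at h1
    have h3 : 0 < (univ.filter fun u => u ∈ part' t ∧ M.s u ∉ part' t).card := by omega
    obtain ⟨z, hz⟩ := card_pos.1 h3
    rw [mem_filter] at hz
    have h5 : part' z = part' t := (hiff _ _).2 hz.2.1
    exact ⟨⟨z, (hmemL z).2 (by rw [h5]; exact hz.2.2)⟩, hz.2.1⟩
  have hcard8 : 8 ≤ Fintype.card {t // t ∈ L} := by
    -- three parts
    obtain ⟨t₂, ht₂⟩ : ∃ t₂, t₂ ∉ part' (Sum.inl d₀) ∪ M.root := by
      by_contra hcon
      push Not at hcon
      exact (hpmem _ (hnr d₀)).rest (eq_univ_iff_forall.2 hcon)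
    rw [mem_union] at ht₂
    push Not at ht₂
    obtain ⟨t₃, ht₃⟩ : ∃ t₃, t₃ ∉ part' (Sum.inl d₀) ∪ part' t₂ ∪ M.root := by
      by_contra hcon
      push Not at hcon
      have m1 := hpmem _ (hnr d₀)
      have m2 := hpmem _ ht₂.2
      refine no_partition hM hp m1.cl m2.cl m1.ne m2.ne m1.root m2.root m1.cut4 m2.cut4 ?_
        (eq_univ_iff_forall.2 hcon)
      rw [disjoint_left]
      intro u hu hu'
      apply ht₂.1
      rw [← hiff, ← (hiff _ _).2 hu', (hiff _ _).2 hu]
    rw [mem_union, mem_union] at ht₃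
    push Not at ht₃
    obtain ⟨z₁, hz₁⟩ := hexL (Sum.inl d₀)
    obtain ⟨z₂, hz₂⟩ := hexL t₂
    obtain ⟨z₃, hz₃⟩ := hexL t₃
    have e0 : part' R.1 = M.root := hproot _ hr1
    have e1 : part' z₁.1 = part' (Sum.inl d₀) := (hiff _ _).2 hz₁
    have e2 : part' z₂.1 = part' t₂ := (hiff _ _).2 hz₂
    have e3 : part' z₃.1 = part' t₃ := (hiff _ _).2 hz₃
    have n01 : part' (Sum.inl d₀) ≠ M.root := fun h => hnr d₀ (by rw [← h]; exact hself _)
    have n02 : part' t₂ ≠ M.root := fun h => ht₂.2 (by rw [← h]; exact hself _)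
    have n03 : part' t₃ ≠ M.root := fun h => ht₃.2 (by rw [← h]; exact hself _)
    have n12 : part' (Sum.inl d₀) ≠ part' t₂ := fun h => ht₂.1 ((hiff _ _).1 h.symm)
    have n13 : part' (Sum.inl d₀) ≠ part' t₃ := fun h => ht₃.1.1 ((hiff _ _).1 h.symm)
    have n23 : part' t₂ ≠ part' t₃ := fun h => ht₃.1.2 ((hiff _ _).1 h.symm)
    set w : Fin 4 → {t // t ∈ L} := ![R, z₁, z₂, z₃] with hw
    have hwinj : ∀ i j, part' (w i).1 = part' (w j).1 → i = j := by
      intro i j
      fin_cases i <;> fin_cases j <;> simp [hw, e0, e1, e2, e3, n01, n02, n03, n12, n13, n23,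
        n01.symm, n02.symm, n03.symm, n12.symm, n13.symm, n23.symm]
    set g : Fin 4 × Bool → {t // t ∈ L} := fun q => if q.2 then w q.1 else aL (w q.1) with hg
    have hgp : ∀ q, part' (g q).1 = part' (w q.1).1 := by
      rintro ⟨i, b⟩
      cases b
      · exact haLp _
      · rfl
    have hginj : Function.Injective g := by
      rintro ⟨i, b⟩ ⟨j, c⟩ h
      have h1 : i = j := by
        apply hwinj
        have := hgp (i, b)
        rw [h, hgp] at this
        exact this.symm
      subst h1
      cases b <;> cases c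
      · rfl
      · exact absurd h (haLne _)
      · exact absurd h.symm (haLne _)
      · rfl
    have := Fintype.card_le_of_injective g hginj
    simpa using this
  -- the key property
  have hkey : ∀ A : Finset {t // t ∈ L}, Cl aL A → 4 ≤ A.card →
      A.card + 4 ≤ Fintype.card {t // t ∈ L} → R ∉ A → cut (ret M.s L) A ≠ 4 := by
    intro A hA hA4 hA4' hRA hc
    rw [hcutL A hA] at hc
    set U : Finset M.T := univ.filter fun u => ∃ z ∈ A, part' u = part' z.1 with hU
    have hmemU : ∀ u, u ∈ U ↔ ∃ z ∈ A, part' u = part' z.1 := by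
      intro u
      rw [hU, mem_filter]
      simp
    have hUA : ∀ z : {t // t ∈ L}, z.1 ∈ U → z ∈ A := by
      intro z hz
      obtain ⟨z', hz', h1⟩ := (hmemU _).1 hz
      rcases haL2 z' z h1 with h3 | h3
      · rw [h3]; exact hz'
      · rw [h3]; exact (hA z').2 hz'
    have hUmem : Mem M U := by
      refine ⟨?_, ?_, ?_, hc, ?_⟩
      · intro u
        rw [hmemU, hmemU, hpa]
      · have h1 : A.Nonempty := by
          rw [← card_pos]; omega
        obtain ⟨z, hz⟩ := h1
        exact ⟨z.1, (hmemU _).2 ⟨z, hz, rfl⟩⟩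
      · intro h1
        exact hRA (hUA R h1)
      · intro h1
        have h3 : Aᶜ ⊆ {R, aL R} := by
          intro z hz
          rw [mem_compl] at hz
          have h5 : z.1 ∈ U ∪ M.root := by rw [h1]; exact mem_univ _
          rw [mem_union] at h5
          rcases h5 with h5 | h5
          · exact absurd (hUA z h5) hz
          · rw [mem_insert, mem_singleton]
            apply hpairs R z
            rw [hproot _ hr1]
            exact h5
        have h5 := card_le_card h3
        rw [card_compl] at h5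
        have h7 : ({R, aL R} : Finset {t // t ∈ L}).card ≤ 2 := card_insert_le _ _
        omega
    have hAne : A.Nonempty := by
      rw [← card_pos]; omega
    obtain ⟨z₁, hz₁⟩ := hAne
    have hz₂ : ∃ z₂ ∈ A, z₂ ∉ ({z₁, aL z₁} : Finset {t // t ∈ L}) := by
      by_contra hcon
      push Not at hcon
      have h3 : A ⊆ {z₁, aL z₁} := hcon
      have h5 := card_le_card h3
      have h7 : ({z₁, aL z₁} : Finset {t // t ∈ L}).card ≤ 2 := card_insert_le _ _
      omega
    obtain ⟨z₂, hz₂, hne⟩ := hz₂
    apply hne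
    rw [mem_insert, mem_singleton]
    apply hpairs z₁ z₂
    exact hpmax z₁.1 U hUmem ((hmemU _).2 ⟨z₁, hz₁, rfl⟩) ((hmemU _).2 ⟨z₂, hz₂, rfl⟩)
  have hNgood : N.IsGood := Good_iso e hea hes hgood
  have hesi : ∀ t, e.symm (N.s t) = ret M.s L (e.symm t) := by
    intro t
    rw [Equiv.symm_apply_eq, hes, Equiv.apply_symm_apply]
  have heai : ∀ t, e.symm (N.aa t) = aL (e.symm t) := by
    intro t
    rw [Equiv.symm_apply_eq, hea, Equiv.apply_symm_apply]
  have hNrigid : Rigid N := by
    have hcardN : Fintype.card N.T = Fintype.card {t // t ∈ L} := (Fintype.card_congr e).symm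
    refine ⟨by rw [hcardN]; exact hcard8, ?_⟩
    intro A hA hA4 hA4'
    set A' : Finset {t // t ∈ L} := A.map e.symm.toEmbedding with hA'
    have hA'c : A'.card = A.card := card_map _
    have hA'cl : Cl aL A' := Cl_iso e.symm heai hA
    have hA'cut : cut (ret M.s L) A' = cut N.s A := cut_iso e.symm hesi A
    have hge : 4 ≤ cut N.s A := by
      apply hNgood.ns A hA
      · rw [← card_pos]; omega
      · intro h
        rw [h, card_univ] at hA4'
        omega
    rcases hge.lt_or_eq with h | h
    · exact h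
    · exfalso
      rw [hcardN, ← hA'c] at hA4'
      rw [← hA'c] at hA4
      rw [← hA'cut] at h
      by_cases hRA : R ∈ A'
      · refine hkey A'ᶜ hA'cl.compl ?_ ?_ ?_ ?_
        · rw [card_compl]; omega
        · rw [card_compl]; omega
        · rw [mem_compl, not_not]; exact hRA
        · rw [cut_compl]; exact h.symm
      · exact hkey A' hA'cl hA4 hA4' hRA h.symm
  refine ⟨N, hNgood, hNrigid, ?_⟩
  intro C hC
  obtain ⟨e', he'a, he's, he'r⟩ := hC
  set φ : (C.I × Bool) ⊕ Bool ≃ {t // t ∈ L} := e'.trans e.symm with hφ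
  have hφs : ∀ x, φ (C.s x) = ret M.s L (φ x) := by
    intro x
    have h1 := he's x
    show e.symm (e' (C.s x)) = ret M.s L (e.symm (e' x))
    rw [← hesi]
    exact congrArg e.symm h1
  have hφa : ∀ x, φ (C.toB.aa x) = aL (φ x) := by
    intro x
    have h1 := he'a x
    show e.symm (e' (C.toB.aa x)) = aL (e.symm (e' x))
    rw [← heai]
    exact congrArg e.symm h1
  have hφr : φ (Sum.inr true) = R := by
    show e.symm (e' (Sum.inr true)) = R
    rw [Equiv.symm_apply_eq, her]
    exact he'r
  have hφr0 : φ (Sum.inr false) = ⟨Sum.inr false, hrL false⟩ := by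
    have h1 : φ (Sum.inr false) = aL (φ (Sum.inr true)) := hφa (Sum.inr true)
    rw [h1, hφr, haR]
  have hφflip : ∀ i b, φ (Sum.inl (i, !b)) = aL (φ (Sum.inl (i, b))) :=
    fun i b => hφa (Sum.inl (i, b))
  have hlroot : ∀ b, (φ (Sum.inr b)).1 = Sum.inr b := by
    intro b
    cases b
    · rw [hφr0]
    · rw [hφr]
  have hlnr : ∀ i b, (φ (Sum.inl (i, b))).1 ∉ M.root := by
    intro i b h
    have h1 : φ (Sum.inl (i, b)) = R ∨ φ (Sum.inl (i, b)) = aL R := by
      apply hpairs
      rw [hproot _ hr1]
      exact h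
    rw [haR, ← hφr0, ← hφr] at h1
    rcases h1 with h1 | h1
    · exact absurd (φ.injective h1) (by simp)
    · exact absurd (φ.injective h1) (by simp)
  -- the part of a dart
  have hexi : ∀ d : M.D, ∃ i : C.I, part' (φ (Sum.inl (i, true))).1 = part' (Sum.inl d) := by
    intro d
    obtain ⟨z, hz⟩ := hexL (Sum.inl d)
    have hz' : part' z.1 = part' (Sum.inl d) := (hiff _ _).2 hz
    rcases h : φ.symm z with ⟨i, b⟩ | b
    · have h1 : z = φ (Sum.inl (i, b)) := by rw [← h, Equiv.apply_symm_apply]
      refine ⟨i, ?_⟩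
      cases b
      · have h3 := hφflip i false
        rw [Bool.not_false] at h3
        rw [h3, haLp, ← h1, hz']
      · rw [← h1, hz']
    · exfalso
      have h1 : z = φ (Sum.inr b) := by rw [← h, Equiv.apply_symm_apply]
      rw [h1, hlroot] at hz'
      have h3 : part' (Sum.inr b) = M.root := hproot _ (by cases b; exact hr0; exact hr1)
      rw [h3] at hz'
      apply hnr d
      rw [hz']
      exact hself _
  choose part hpart using hexi
  have hpartflip : ∀ i b, part' (φ (Sum.inl (i, b))).1 = part' (φ (Sum.inl (i, true))).1 := by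
    intro i b
    cases b
    · have h3 := hφflip i false
      rw [Bool.not_false] at h3
      rw [h3, haLp]
    · rfl
  have huniq : ∀ i j, part' (φ (Sum.inl (i, true))).1 = part' (φ (Sum.inl (j, true))).1 →
      i = j := by
    intro i j h
    rcases haL2 _ _ h with h1 | h1
    · have h3 := φ.injective h1
      simp only [Sum.inl.injEq, Prod.mk.injEq, and_true] at h3
      exact h3
    · rw [← hφflip] at h1
      have h3 := φ.injective h1
      simp at h3
  have hparteq : ∀ d i, part d = i ↔ part' (Sum.inl d) = part' (φ (Sum.inl (i, true))).1 := by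
    intro d i
    rw [← hpart d]
    constructor
    · intro h; rw [h]
    · intro h; exact huniq _ _ h
  have hpart2 : ∀ d d', part d = part d' ↔ part' (Sum.inl d) = part' (Sum.inl d') := by
    intro d d'
    rw [hparteq, hpart d']
  refine ⟨part, fun x => (φ x).1, ?_, ?_, ?_, hlroot, ?_, ?_, ?_, ?_⟩
  · intro d
    rw [hpart2]
    exact hpa (Sum.inl d)
  · intro i
    rcases h : (φ (Sum.inl (i, true))).1 with d | b
    · exact ⟨d, by rw [hparteq, h]⟩
    · exfalso
      apply hlnr i true
      rw [h]
      cases b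
      · exact hr0
      · exact hr1
  · intro x y h
    exact φ.injective (Subtype.ext h)
  · intro i b
    rcases h : (φ (Sum.inl (i, b))).1 with d | b'
    · exact ⟨d, h, by rw [hparteq, ← h, hpartflip]⟩
    · exfalso
      apply hlnr i b
      rw [h]
      cases b'
      · exact hr0
      · exact hr1
  · intro d
    have h1 : (∃ x, (φ x).1 = Sum.inl d) ↔ (Sum.inl d : M.T) ∈ L := by
      constructor
      · rintro ⟨x, hx⟩
        rw [← hx]
        exact (φ x).2
      · intro h
        exact ⟨φ.symm ⟨Sum.inl d, h⟩, by rw [Equiv.apply_symm_apply]⟩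
    rw [h1, hmemL]
    constructor
    · intro h h3
      rcases h5 : M.s (Sum.inl d) with d' | b
      · rw [h5] at h3
        exact h d' h5 ((hpart2 _ _).2 ((hiff _ _).2 h3))
      · rw [h5] at h3
        have h7 := (hpmem _ (hnr d))
        refine not_mem_root_of h7.cl h7.root h3 ?_
        cases b
        · exact hr0
        · exact hr1
    · intro h d' h3 h5
      apply h
      rw [h3]
      exact (hiff _ _).1 ((hpart2 _ _).1 h5)
  · intro x y
    rw [← sameCycle_ret]
    have hpow : ∀ (n : ℤ) x, φ ((C.s ^ n) x) = ((ret M.s L) ^ n) (φ x) := by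
      intro n x
      have h1 : (φ.symm.trans (C.s.trans φ) : Perm _) = ret M.s L := by
        ext z
        have := hφs (φ.symm z)
        rw [Equiv.apply_symm_apply] at this
        rw [Equiv.trans_apply, Equiv.trans_apply, this]
      have h3 : (ret M.s L) = φ.permCongr C.s := by
        rw [← h1]
        rfl
      rw [h3, ← Equiv.permCongrHom_coe, ← map_zpow, Equiv.permCongrHom_coe]
      simp [Equiv.permCongr_apply]
    constructor
    · rintro ⟨n, hn⟩
      refine ⟨n, ?_⟩
      apply φ.injective
      rw [hpow, hn]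
    · rintro ⟨n, hn⟩
      refine ⟨n, ?_⟩
      rw [← hpow, hn]
  · intro i
    have h1 : (univ.filter fun d => part d = i).map ⟨Sum.inl, Sum.inl_injective⟩ =
        part' (φ (Sum.inl (i, true))).1 := by
      ext u
      rw [mem_map]
      constructor
      · rintro ⟨d, hd, rfl⟩
        rw [mem_filter] at hd
        exact (hiff _ _).1 ((hparteq _ _).1 hd.2)
      · intro hu
        have h3 := hpmem _ (hlnr i true)
        have h5 := not_mem_root_of h3.cl h3.root hu
        rcases u with d | b
        · refine ⟨d, ?_, rfl⟩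
          rw [mem_filter, hparteq]
          exact ⟨mem_univ _, (hiff _ _).2 hu⟩
        · exfalso
          apply h5
          cases b
          · exact hr0
          · exact hr1
    rw [h1]
    exact hcut _

end PGr
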