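import Pool.Agent.PGr.SubPl
import Pool.Agent.PGr.RigidQuot
import Pool.Agent.PGr.GDec
import Pool.Agent.PGr.DecGood
import Pool.Agent.PGr.SubMap
import Pool.Agent.PGr.Cut

/-! # Module NetRig: decomposition of a network that is neither series nor parallel -/

set_option linter.unusedSectionVars false

namespace PGr
open Equiv Finset
open scoped ENNReal
universe u
variable {Λ : Type u}

/-- the map of a network as a rooted map -/
def LNet.toB (N : LNet Λ) (s : Perm N.T) : BMap := { D := N.D, a := N.a, s := s }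

namespace NetRig

section leave
variable {T : Type*} [Fintype T] [DecidableEq T]

theorem leave {s : Perm T} {A : Finset T} {t t' : T} (h : s.SameCycle t t') (ht : t ∈ A)
    (ht' : t' ∉ A) : ∃ u, s.SameCycle t u ∧ u ∈ A ∧ s u ∉ A := by
  by_contra hcon
  push Not at hcon
  obtain ⟨k, hk⟩ := h.exists_nat_pow_eq
  have h1 : ∀ k : ℕ, (s ^ k) t ∈ A := by
    intro k
    induction k with
    | zero => simpa using ht
    | succ k ih =>
      have h2 := hcon ((s ^ k) t) ⟨k, by simp⟩ ih
      rw [pow_succ', Perm.mul_apply]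
      exact h2
  exact ht' (hk ▸ h1 k)

/-- the leaving corners -/
def lv (s : Perm T) (A : Finset T) : Finset T := univ.filter fun t => t ∈ A ∧ s t ∉ A

theorem mem_lv {s : Perm T} {A : Finset T} {t : T} : t ∈ lv s A ↔ t ∈ A ∧ s t ∉ A := by
  simp [lv]

theorem card_lv {s : Perm T} {A : Finset T} (h : cut s A = 4) : (lv s A).card = 2 := by
  have h1 := cut_eq_two_mul s A
  rw [h] at h1
  unfold lv
  omega

/-- three different leaving corners are impossible -/
theorem three {s : Perm T} {A : Finset T} (h : cut s A = 4) {x y z : T} (hx : x ∈ lv s A)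
    (hy : y ∈ lv s A) (hz : z ∈ lv s A) (hxy : x ≠ y) (hxz : x ≠ z) (hyz : y ≠ z) : False := by
  have h1 : ({x, y, z} : Finset T) ⊆ lv s A := by
    intro w hw
    simp only [mem_insert, mem_singleton] at hw
    rcases hw with rfl | rfl | rfl <;> assumption
  have h2 := card_le_card h1
  rw [card_lv h] at h2
  have h3 : ({x, y, z} : Finset T).card = 3 := by
    rw [card_insert_of_notMem, card_insert_of_notMem, card_singleton]
    · simpa using hyz
    · simp [hxy, hxz]
  omega

end leave

section vert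
variable {N : LNet Λ} {s : Perm N.T} (hr : ∀ t t', s.SameCycle t t' ↔ N.inc t = N.inc t')

include hr in
theorem inc_s (t : N.T) : N.inc (s t) = N.inc t :=
  ((hr _ _).1 ⟨1, by simp⟩).symm

include hr in
theorem vleave {A : Finset N.T} {x : N.V} (h : Sh N.inc A x) : ∃ u ∈ lv s A, N.inc u = x := by
  obtain ⟨⟨t, ht, htx⟩, t', ht', htx'⟩ := h
  obtain ⟨u, h1, h2, h3⟩ := leave ((hr t t').2 (htx.trans htx'.symm)) ht ht'
  exact ⟨u, mem_lv.2 ⟨h2, h3⟩, ((hr _ _).1 h1).symm.trans htx⟩

include hr in
theorem one_vertex {S : Finset N.T} (hcut : cut s S = 4) {r : N.T} (hrS : r ∉ S) (h1 : s r ∈ S)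
    (h2 : s.symm r ∈ S) {b : N.T} (hb : b ∉ S) (hbr : b ≠ r) (hinc : N.inc b = N.inc r)
    (htwo : ∃ x y, x ≠ y ∧ Sh N.inc S x ∧ Sh N.inc S y) : False := by
  obtain ⟨u, hu1, hu2, hu3⟩ := leave (A := insert r S) ((hr r b).2 hinc.symm)
    (mem_insert_self _ _) (by simp [hb, hbr])
  have hur : u ≠ r := by
    rintro rfl
    exact hu3 (mem_insert_of_mem h1)
  have huS : u ∈ S := (mem_insert.1 hu2).resolve_left hur
  have hsu : s u ∉ S := fun h => hu3 (mem_insert_of_mem h)
  have hsur : s u ≠ r := fun h => hu3 (h ▸ mem_insert_self _ _)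
  have hv : s.symm r ∈ lv s S := mem_lv.2 ⟨h2, by rwa [Equiv.apply_symm_apply]⟩
  have huv : u ≠ s.symm r := by
    rintro rfl
    exact hsur (s.apply_symm_apply r)
  have hincu : N.inc u = N.inc r := ((hr _ _).1 hu1).symm
  have hincv : N.inc (s.symm r) = N.inc r := by
    rw [← inc_s hr (s.symm r), Equiv.apply_symm_apply]
  have hy : ∃ y, y ≠ N.inc r ∧ Sh N.inc S y := by
    obtain ⟨x, y, hxy, hx, hy⟩ := htwo
    by_cases hx' : x = N.inc r
    · exact ⟨y, fun h => hxy (hx'.trans h.symm), hy⟩
    · exact ⟨x, hx', hx⟩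
  obtain ⟨y, hy1, hy2⟩ := hy
  obtain ⟨w, hw, hwy⟩ := vleave hr hy2
  refine three hcut (mem_lv.2 ⟨huS, hsu⟩) hv hw huv ?_ ?_
  · rintro rfl
    exact hy1 (hwy.symm.trans hincu)
  · rintro rfl
    exact hy1 (hwy.symm.trans hincv)

end vert

/-- the main part of `not_pref` -/
theorem no_pref {N : LNet Λ} (h : XNet N) (hs : ¬ SerN N) {s : Perm N.T}
    (hr : ∀ t t', s.SameCycle t t' ↔ N.inc t = N.inc t') (hg : Good N.aa s)
    (A : Finset N.T) (hcl : Cl N.aa A) (hroot : Sum.inr true ∉ A) (hfst : s (Sum.inr true) ∈ A)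
    (hrest : A ∪ {Sum.inr true, Sum.inr false} ≠ univ) (h4 : cut s A = 4)
    (h4' : cut s (A ∪ {Sum.inr true, Sum.inr false}) = 4) : False := by
  have hPQ : N.inc (Sum.inr false) ≠ N.inc (Sum.inr true) := h.good.loop (Sum.inr true)
  have hroot' : (Sum.inr false : N.T) ∉ A := fun h1 => hroot ((hcl (Sum.inr true)).1 h1)
  have haui : A ≠ univ := fun h1 => hroot (h1 ▸ mem_univ _)
  have hne : A.Nonempty := ⟨_, hfst⟩
  obtain ⟨B, hB⟩ : ∃ B, B = (A ∪ {Sum.inr true, Sum.inr false})ᶜ := ⟨_, rfl⟩
  have memB : ∀ t, t ∈ B ↔ t ∉ A ∧ t ≠ Sum.inr true ∧ t ≠ Sum.inr false := by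
    intro t
    rw [hB]
    simp only [mem_compl, mem_union, mem_insert, mem_singleton]
    tauto
  have hB4 : cut s B = 4 := by rw [hB, cut_compl]; exact h4'
  let A' : Finset N.D := univ.filter fun d => Sum.inl d ∈ A
  have memA' : ∀ d, d ∈ A' ↔ Sum.inl d ∈ A := fun d => by simp [A']
  have hA'cl : Cl N.a A' := by
    intro d
    rw [memA', memA']
    exact hcl (Sum.inl d)
  have hA'ne : A'.Nonempty := by
    rcases h1 : s (Sum.inr true) with d | b
    · exact ⟨d, (memA' d).2 (h1 ▸ hfst)⟩
    · rw [h1] at hfst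
      cases b
      · exact absurd hfst hroot'
      · exact absurd hfst hroot
  have hA'un : A' ≠ univ := by
    intro h1
    apply hrest
    ext t
    simp only [mem_union, mem_insert, mem_singleton, mem_univ, iff_true]
    rcases t with d | b
    · left
      rw [← memA', h1]
      exact mem_univ _
    · cases b <;> simp
  have hP1 : s.symm (Sum.inr true) ≠ Sum.inr true := fun h1 => by
    have h2 := hg.s_ne (Sum.inr true)
    rw [Equiv.symm_apply_eq] at h1
    exact h2 h1.symm
  have hincP : N.inc (s.symm (Sum.inr true)) = N.inc (Sum.inr true) := by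
    rw [← inc_s hr (s.symm (Sum.inr true)), Equiv.apply_symm_apply]
  have hincQ : N.inc (s.symm (Sum.inr false)) = N.inc (Sum.inr false) := by
    rw [← inc_s hr (s.symm (Sum.inr false)), Equiv.apply_symm_apply]
  by_cases hc : s.symm (Sum.inr true) ∈ A
  · apply hs
    refine ⟨A', hA'cl, hA'ne, hA'un, ?_⟩
    have noP : ∀ b, b ∉ A → b ≠ Sum.inr true → N.inc b ≠ N.inc (Sum.inr true) :=
      fun b h1 h2 h3 => one_vertex hr h4 hroot hfst hc h1 h2 h3 (h.good.two A hcl hne haui)
    have key : ∀ x, Sh (fun d => N.inc (Sum.inl d)) A' x →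
        x ≠ N.inc (Sum.inr true) ∧ ∃ u ∈ lv s A, N.inc u = x := by
      rintro x ⟨⟨d, hd, hdx⟩, d', hd', hdx'⟩
      rw [memA'] at hd hd'
      refine ⟨?_, ?_⟩
      · intro h1
        exact noP (Sum.inl d') hd' (by simp) (hdx'.trans h1)
      · exact vleave hr ⟨⟨_, hd, hdx⟩, _, hd', hdx'⟩
    intro x y hx hy
    by_contra hxy
    obtain ⟨hx1, u, hu, hux⟩ := key x hx
    obtain ⟨hy1, v, hv, hvy⟩ := key y hy
    refine three h4 hu hv (mem_lv.2 ⟨hc, by rwa [Equiv.apply_symm_apply]⟩) ?_ ?_ ?_
    · rintro rfl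
      exact hxy (hux.symm.trans hvy)
    · rintro rfl
      exact hx1 (hux.symm.trans hincP)
    · rintro rfl
      exact hy1 (hvy.symm.trans hincP)
  · obtain ⟨x, hxp, ⟨d, hd, hdx⟩, d', hd', hdx'⟩ := h.conn A' hA'cl hA'ne hA'un
    rw [memA'] at hd hd'
    have hxP : x ≠ N.inc (Sum.inr true) := hxp true
    have hxQ : x ≠ N.inc (Sum.inr false) := hxp false
    obtain ⟨u, hu, hux⟩ := vleave (s := s) hr (A := A) (x := x) ⟨⟨_, hd, hdx⟩, _, hd', hdx'⟩
    obtain ⟨v, hv, hvP⟩ := vleave (s := s) hr (A := A) (x := N.inc (Sum.inr true))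
      ⟨⟨_, hfst, inc_s hr _⟩, _, hroot, rfl⟩
    have hd'B : (Sum.inl d' : N.T) ∈ B := (memB _).2 ⟨hd', by simp, by simp⟩
    have hdB : (Sum.inl d : N.T) ∉ B := fun h1 => ((memB _).1 h1).1 hd
    obtain ⟨u', hu', hux'⟩ := vleave (s := s) hr (A := B) (x := x)
      ⟨⟨_, hd'B, hdx'⟩, _, hdB, hdx⟩
    have hw : s.symm (Sum.inr true) ∈ lv s B := by
      refine mem_lv.2 ⟨(memB _).2 ⟨hc, hP1, ?_⟩, ?_⟩
      · intro h1
        rw [h1] at hincP
        exact hPQ hincP
      · rw [Equiv.apply_symm_apply]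
        exact fun h1 => ((memB _).1 h1).2.1 rfl
    have hz1 : s.symm (Sum.inr false) ≠ Sum.inr false := fun h1 => by
      have h2 := hg.s_ne (Sum.inr false)
      rw [Equiv.symm_apply_eq] at h1
      exact h2 h1.symm
    have hz2 : s.symm (Sum.inr false) ≠ Sum.inr true := fun h1 => by
      rw [h1] at hincQ
      exact hPQ hincQ.symm
    by_cases hz : s.symm (Sum.inr false) ∈ A
    · refine three h4 hu hv (mem_lv.2 ⟨hz, by rwa [Equiv.apply_symm_apply]⟩) ?_ ?_ ?_
      · rintro rfl
        exact hxP (hux.symm.trans hvP)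
      · rintro rfl
        exact hxQ (hux.symm.trans hincQ)
      · rintro rfl
        exact hPQ (hincQ.symm.trans hvP)
    · have hzB : s.symm (Sum.inr false) ∈ lv s B := by
        refine mem_lv.2 ⟨(memB _).2 ⟨hz, hz2, hz1⟩, ?_⟩
        rw [Equiv.apply_symm_apply]
        exact fun h1 => ((memB _).1 h1).2.2 rfl
      refine three hB4 hu' hw hzB ?_ ?_ ?_
      · rintro rfl
        exact hxP (hux'.symm.trans hincP)
      · rintro rfl
        exact hxQ (hux'.symm.trans hincQ)
      · intro h1
        rw [h1] at hincP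
        exact hPQ (hincQ.symm.trans hincP)

/-- the end of `rig_dec` -/
theorem fin_dec {N : LNet Λ} (h : XNet N) {s : Perm N.T}
    (hr : ∀ t t', s.SameCycle t t' ↔ N.inc t = N.inc t') (hg : Good N.aa s) (C : Core)
    (part : N.D → C.I) (lst : (C.I × Bool) ⊕ Bool → N.T)
    (hp1 : ∀ d, part (N.a d) = part d) (hp2 : Function.Surjective part)
    (hp3 : Function.Injective lst) (hp4 : ∀ b, lst (Sum.inr b) = Sum.inr b)
    (hp5 : ∀ i b, ∃ d, lst (Sum.inl (i, b)) = Sum.inl d ∧ part d = i)
    (hp6 : ∀ d, (∀ d', s (Sum.inl d) = Sum.inl d' → part d' ≠ part d) ↔ ∃ x, lst x = Sum.inl d)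
    (hp7 : ∀ x y, s.SameCycle (lst x) (lst y) ↔ C.s.SameCycle x y)
    (hp8 : ∀ i, cut s ((univ.filter fun d => part d = i).map ⟨Sum.inl, Sum.inl_injective⟩) = 4)
    (hI : ∀ i : C.I, ∃ j, j ≠ i) :
    ∃ (X : C.I → LNet Λ) (g : C.CV → Λ), (∀ i, (X i).IsGood) ∧
      (∀ i, Fintype.card (X i).D < Fintype.card N.D) ∧ NIso N (glue C.vinc X g) := by
  have memP : ∀ i d, (Sum.inl d : N.T) ∈
      ((univ.filter fun d => part d = i).map ⟨Sum.inl, Sum.inl_injective⟩ : Finset N.T) ↔
      part d = i := by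
    intro i d
    simp
  have memP' : ∀ i b, (Sum.inr b : N.T) ∉
      ((univ.filter fun d => part d = i).map ⟨Sum.inl, Sum.inl_injective⟩ : Finset N.T) := by
    intro i b
    simp
  have clP : ∀ i, Cl N.aa
      ((univ.filter fun d => part d = i).map ⟨Sum.inl, Sum.inl_injective⟩ : Finset N.T) := by
    rintro i (d | b)
    · have h1 : N.aa (Sum.inl d) = Sum.inl (N.a d) := rfl
      rw [h1, memP, memP, hp1]
    · have h1 : N.aa (Sum.inr b) = Sum.inr (!b) := rfl
      rw [h1]
      exact iff_of_false (memP' _ _) (memP' _ _)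
  have last1 : ∀ e, s (Sum.inl e) ∉
      ((univ.filter fun d => part d = part e).map ⟨Sum.inl, Sum.inl_injective⟩ : Finset N.T) →
      ∃ b, lst (Sum.inl (part e, b)) = Sum.inl e := by
    intro e he
    obtain ⟨x, hx⟩ := (hp6 e).1 (by
      intro d' hd' h1
      rw [hd', memP] at he
      exact he h1)
    rcases x with ⟨i, b⟩ | b
    · obtain ⟨d, hd1, hd2⟩ := hp5 i b
      rw [hx] at hd1
      obtain rfl := Sum.inl_injective hd1
      subst hd2
      exact ⟨b, hx⟩
    · rw [hp4] at hx
      simp at hx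
  have last2 : ∀ i b e, lst (Sum.inl (i, b)) = Sum.inl e → s (Sum.inl e) ∉
      ((univ.filter fun d => part d = i).map ⟨Sum.inl, Sum.inl_injective⟩ : Finset N.T) := by
    intro i b e he h1
    obtain ⟨d, hd1, hd2⟩ := hp5 i b
    rw [he] at hd1
    obtain rfl := Sum.inl_injective hd1
    rcases h2 : s (Sum.inl e) with d' | b'
    · rw [h2, memP] at h1
      exact (hp6 e).2 ⟨_, he⟩ d' h2 (h1.trans hd2.symm)
    · rw [h2] at h1
      exact memP' _ _ h1
  have leav : ∀ d t', (∀ d', t' = Sum.inl d' → part d' ≠ part d) → N.inc (Sum.inl d) = N.inc t' →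
      ∃ b, N.inc (Sum.inl d) = N.inc (lst (Sum.inl (part d, b))) := by
    intro d t' ht' hinc
    obtain ⟨u, hu1, hu2, hu3⟩ := leave ((hr _ _).2 hinc) ((memP (part d) d).2 rfl) (by
      rcases t' with d' | b'
      · rw [memP]
        exact ht' d' rfl
      · exact memP' _ _)
    rcases u with e | b
    · rw [memP] at hu2
      obtain ⟨b, hb⟩ := last1 e (by rw [hu2]; exact hu3)
      refine ⟨b, ?_⟩
      rw [← hu2, hb]
      exact (hr _ _).1 hu1
    · exact absurd hu2 (memP' _ _)
  let X : Dec N :=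
    { I := C.I
      part := part
      att := fun x => N.inc (lst (Sum.inl x))
      part_a := hp1
      att_ne := by
        intro i hi
        obtain ⟨d, hd1, hd2⟩ := hp5 i true
        obtain ⟨e, he1, he2⟩ := hp5 i false
        have h1 := hg.last_ne (clP i) (hp8 i) (z0 := Sum.inl d) (z1 := Sum.inl e)
          ((memP _ _).2 hd2) ((memP _ _).2 he2) (last2 i true d hd1) (last2 i false e he1) (by
            rw [← hd1, ← he1]
            intro h2
            have h3 := hp3 h2
            simp at h3)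
        apply h1
        rw [hr, ← hd1, ← he1]
        exact hi
      att_mem := by
        intro i b
        obtain ⟨d, hd1, hd2⟩ := hp5 i b
        exact ⟨d, hd2, by rw [hd1]⟩
      share := by
        intro d d' hdd' hinc
        exact leav d (Sum.inl d') (fun e he => by
          obtain rfl := Sum.inl_injective he
          exact hdd'.symm) hinc
      root := by
        intro d b hinc
        exact leav d (Sum.inr b) (fun e he => by simp at he) hinc }
  have hlift : ∀ x y : (C.I × Bool) ⊕ Bool, C.s.SameCycle x y → N.inc (lst x) = N.inc (lst y) :=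
    fun x y hxy => (hr _ _).1 ((hp7 x y).2 hxy)
  let ι : C.CV → N.V := Quotient.lift (fun x => N.inc (lst x)) hlift
  have hι : Function.Injective ι := by
    intro x y
    refine Quotient.inductionOn₂ x y ?_
    intro x y hxy
    exact Quotient.sound ((hp7 x y).1 ((hr _ _).2 hxy))
  have hcs : Function.Surjective C.vinc := Quotient.mk_surjective
  refine ⟨X.sub, fun x => N.lab (ι x), ?_, ?_, ?_⟩
  · intro i
    exact Dec.sub_good h.good X i (Dec.sub_planar4 X i hr hg (hp8 i))
  · intro i
    obtain ⟨j, hj⟩ := hI i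
    obtain ⟨d, hd⟩ := hp2 j
    exact Fintype.card_subtype_lt (x := d) (p := fun d => part d = i) (fun h1 => hj (hd ▸ h1))
  · exact gdec X h.good.surj ι hι C.vinc hcs (fun x => rfl) (fun b => by
      change N.inc (lst (Sum.inr b)) = N.inc (Sum.inr b)
      rw [hp4])

end NetRig

/-- prefixes of the map come from series or parallel decompositions -/
theorem not_pref {N : LNet Λ} (h : XNet N) (hs : ¬ SerN N) {s : Perm N.T}
    (hr : ∀ t t', s.SameCycle t t' ↔ N.inc t = N.inc t') (hg : Good N.aa s)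
    (A : Finset (N.toB s).T) : ¬ Pref (N.toB s) A := fun hp =>
  NetRig.no_pref h hs hr hg A hp.cl hp.root hp.fst hp.rest hp.cut4 hp.cut4'

theorem rig_dec {N : LNet Λ} (h : XNet N) (hs : ¬ SerN N) :
    ∃ Q : BMap, Q.IsGood ∧ Rigid Q ∧ ∀ C : Core, BIso C.toB Q →
      ∃ (X : C.I → LNet Λ) (g : C.CV → Λ), (∀ i, (X i).IsGood) ∧
        (∀ i, Fintype.card (X i).D < Fintype.card N.D) ∧ NIso N (glue C.vinc X g) := by
  obtain ⟨s, hr, hg⟩ := h.good.rot
  have hM : (N.toB s).IsGood := hg
  have h6 : 4 ≤ Fintype.card (N.toB s).D := by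
    change 4 ≤ Fintype.card N.D
    obtain ⟨d⟩ := h.good.ne
    by_cases hall : ∀ d', d' = d ∨ d' = N.a d
    · exfalso
      obtain ⟨x, y, hxy, hx, hy⟩ := h.good.two {Sum.inl d, Sum.inl (N.a d)} (by
        rintro (t | b)
        · have h1 : N.aa (Sum.inl t) = Sum.inl (N.a t) := rfl
          rw [h1]
          simp only [mem_insert, mem_singleton, Sum.inl.injEq]
          constructor
          · rintro (h2 | h2)
            · right; rw [← h2, h.good.inv]
            · left; exact N.a.injective h2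
          · rintro (rfl | rfl)
            · right; rfl
            · left; exact h.good.inv _
        · have h1 : N.aa (Sum.inr b) = Sum.inr (!b) := rfl
          rw [h1]
          simp) ⟨Sum.inl d, by simp⟩ (by
          intro h1
          have h2 : (Sum.inr true : N.T) ∈ ({Sum.inl d, Sum.inl (N.a d)} : Finset N.T) := by
            rw [h1]; exact mem_univ _
          simp at h2)
      have key : ∀ z, Sh N.inc {Sum.inl d, Sum.inl (N.a d)} z →
          (z = N.inc (Sum.inl d) ∨ z = N.inc (Sum.inl (N.a d))) ∧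
            (z = N.pole true ∨ z = N.pole false) := by
        rintro z ⟨⟨t, ht, htz⟩, t', ht', htz'⟩
        refine ⟨?_, ?_⟩
        · simp only [mem_insert, mem_singleton] at ht
          rcases ht with rfl | rfl
          · exact Or.inl htz.symm
          · exact Or.inr htz.symm
        · rcases t' with d' | b
          · exfalso
            apply ht'
            rcases hall d' with rfl | rfl <;> simp
          · cases b
            · exact Or.inr htz'.symm
            · exact Or.inl htz'.symm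
      obtain ⟨hx1, hx2⟩ := key x hx
      obtain ⟨hy1, hy2⟩ := key y hy
      apply h.dir
      rcases hx1 with hx1 | hx1 <;> rcases hy1 with hy1 | hy1 <;>
        rcases hx2 with hx2 | hx2 <;> rcases hy2 with hy2 | hy2
      · exact absurd (hx1.trans hy1.symm) hxy
      · exact absurd (hx1.trans hy1.symm) hxy
      · exact absurd (hx1.trans hy1.symm) hxy
      · exact absurd (hx1.trans hy1.symm) hxy
      · exact absurd (hx2.trans hy2.symm) hxy
      · exact ⟨d, hx1.symm.trans hx2, hy1.symm.trans hy2⟩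
      · exact ⟨N.a d, hy1.symm.trans hy2, by rw [h.good.inv]; exact hx1.symm.trans hx2⟩
      · exact absurd (hx2.trans hy2.symm) hxy
      · exact absurd (hx2.trans hy2.symm) hxy
      · exact ⟨N.a d, hx1.symm.trans hx2, by rw [h.good.inv]; exact hy1.symm.trans hy2⟩
      · exact ⟨d, hy1.symm.trans hy2, hx1.symm.trans hx2⟩
      · exact absurd (hx2.trans hy2.symm) hxy
      · exact absurd (hx1.trans hy1.symm) hxy
      · exact absurd (hx1.trans hy1.symm) hxy
      · exact absurd (hx1.trans hy1.symm) hxy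
      · exact absurd (hx1.trans hy1.symm) hxy
    · push Not at hall
      obtain ⟨d', hd1, hd2⟩ := hall
      have h3 : N.a d' ≠ d := fun h4 => hd2 (by rw [← h4, h.good.inv])
      have h5 : N.a d' ≠ N.a d := fun h4 => hd1 (N.a.injective h4)
      have h7 : ({d, N.a d, d', N.a d'} : Finset N.D).card = 4 := by
        rw [card_insert_of_notMem, card_insert_of_notMem, card_insert_of_notMem, card_singleton]
        · simpa using (h.good.fpf d').symm
        · simp [Ne.symm hd2, h5.symm]
        · simp [(h.good.fpf d).symm, Ne.symm hd1, h3.symm]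
      rw [← h7]
      exact card_le_univ _
  obtain ⟨Q, hQ, hQr, hC⟩ := exists_rigid_core hM h6 (not_pref h hs hr hg)
  refine ⟨Q, hQ, hQr, fun C hCQ => ?_⟩
  obtain ⟨part, lst, hp1, hp2, hp3, hp4, hp5, hp6, hp7, hp8⟩ := hC C hCQ
  have hI : ∀ i : C.I, ∃ j, j ≠ i := by
    have h1 : 8 ≤ Fintype.card Q.T := hQr.1
    have h2 : Fintype.card Q.T = Fintype.card Q.D + 2 := by simp [BMap.T]
    have h3 : Fintype.card (C.I × Bool) = Fintype.card Q.D := hCQ.card_eq
    have h4 : Fintype.card (C.I × Bool) = Fintype.card C.I * 2 := by simp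
    intro i
    by_contra hcon
    push Not at hcon
    have h5 : Fintype.card C.I ≤ 1 := Fintype.card_le_one_iff_subsingleton.2
      ⟨fun x y => (hcon x).trans (hcon y).symm⟩
    omega
  exact NetRig.fin_dec h hr hg C part lst hp1 hp2 hp3 hp4 hp5 hp6 hp7 hp8 hI

end PGr
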