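import Pool.Agent.PGr.SumLib
import Pool.Agent.PGr.MSet
import Pool.Agent.PGr.GlueLib
import Pool.Agent.PGr.NetRig
import Pool.Agent.PGr.Reps
import Pool.Agent.PGr.CutIso

/-! # Module NetSumC: inequalities for the generating functions of networks -/

set_option linter.unusedSectionVars false

namespace PGr
open Equiv Finset
open scoped ENNReal Classical
universe u
variable {Λ : Type u} (w : Λ → ℝ≥0∞)

namespace NetSumC

theorem exists_core_rep (c : GC) : ∃ C : Core, BIso C.toB c.rep.1 := by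
  apply exists_core
  · intro d
    have h : c.rep.1.aa (c.rep.1.aa (Sum.inl d)) = Sum.inl d := c.rep.2.inv (Sum.inl d)
    have h2 : (Sum.inl (c.rep.1.a (c.rep.1.a d)) : c.rep.1.T) = Sum.inl d := h
    exact Sum.inl_injective h2
  · intro d h
    have h1 : c.rep.1.aa (Sum.inl d) ≠ Sum.inl d := c.rep.2.fpf (Sum.inl d)
    apply h1
    show (Sum.inl (c.rep.1.a d) : c.rep.1.T) = Sum.inl d
    rw [h]

/-- the core of a class -/
noncomputable def core (c : GC) : Core := (exists_core_rep c).choose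

theorem core_iso (c : GC) : BIso (core c).toB c.rep.1 := (exists_core_rep c).choose_spec

/-- the internal vertices of a core -/
abbrev CInt (C : Core) : Type := {x : C.CV // ∀ b, x ≠ C.vinc (Sum.inr b)}

/-- the index set -/
abbrev Ix (Λ : Type u) := Σ c : GC, ((core c).I → NC Λ) × (CInt (core c) → Λ)

/-- the decomposition -/
structure RDec (N : LNet Λ) (c : GC) (X : (core c).I → LNet Λ) (g : (core c).CV → Λ) : Prop where
  rig : Rigid c.rep.1
  good : ∀ i, (X i).IsGood
  small : ∀ i, Fintype.card (X i).D < Fintype.card N.D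
  iso : NIso N (glue (core c).vinc X g)

theorem exists_rdec {N : LNet Λ} (h : XNet N) (hs : ¬ SerN N) : ∃ c X g, RDec N c X g := by
  obtain ⟨Q, hQ, hR, hC⟩ := rig_dec h hs
  have hc : BIso (GC.rep (Quotient.mk bSetoid ⟨Q, hQ⟩)).1 Q := 
    Quotient.exact (s := bSetoid) (Quotient.out_eq (Quotient.mk bSetoid (⟨Q, hQ⟩ : GB)))
  obtain ⟨X, g, h1, h2, h3⟩ := hC (core (Quotient.mk bSetoid ⟨Q, hQ⟩)) ((core_iso _).trans hc)
  exact ⟨_, X, g, hc.symm.rigid hR, h1, h2, h3⟩

/-- the class of a good network -/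
def cls (N : LNet Λ) (h : N.IsGood) : NC Λ := Quotient.mk (nSetoid Λ) ⟨N, h⟩

theorem cls_iso (N : LNet Λ) (h : N.IsGood) : NIso (cls N h).rep.1 N :=
  Quotient.exact (Quotient.out_eq (cls N h))

theorem eq_of_rep {c c' : NC Λ} (h : NIso c.rep.1 c'.rep.1) : c = c' := by
  have h1 : Quotient.mk (nSetoid Λ) c.rep = Quotient.mk (nSetoid Λ) c'.rep := Quotient.sound h
  rwa [Quotient.out_eq, Quotient.out_eq] at h1

/-- the index of a decomposition -/
def ix {N : LNet Λ} {c : GC} {X : (core c).I → LNet Λ} {g : (core c).CV → Λ}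
    (h : RDec N c X g) : Ix Λ := ⟨c, (fun i => cls (X i) (h.good i), fun x => g x.1)⟩

theorem rdec_inj {d d' : NC Λ} {c c' : GC} {X : (core c).I → LNet Λ} {g : (core c).CV → Λ}
    {X' : (core c').I → LNet Λ} {g' : (core c').CV → Λ} (h : RDec d.rep.1 c X g)
    (h' : RDec d'.rep.1 c' X' g') (he : ix h = ix h') : d = d' := by
  obtain rfl : c = c' := congrArg Sigma.fst he
  have h2 := eq_of_heq (Sigma.mk.inj he).2
  have hF := congrArg Prod.fst h2
  have hG := congrArg Prod.snd h2
  have h3 : NIso (glue (core c).vinc X g) (glue (core c).vinc X' g') :=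
    glue_iso _ _ X X' g g' (Equiv.refl _) (fun _ _ => rfl) (fun _ => rfl)
      (fun i => Quotient.exact (congrFun hF i)) (fun x hx => congrFun hG ⟨x, hx⟩)
  exact eq_of_rep (h.iso.trans (h3.trans h'.iso.symm))

/-- the weights of the indices -/
noncomputable def pw (n : ℕ) (p : Ix Λ) : ℝ≥0∞ :=
  if Rigid p.1.rep.1 ∧ (core p.1).vinc (Sum.inr true) ≠ (core p.1).vinc (Sum.inr false) then
    (∏ i, if Fintype.card (p.2.1 i).rep.1.D ≤ n then wt w (p.2.1 i).rep.1 else 0) *
      ∏ x : CInt (core p.1), w (p.2.2 x)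
  else 0

theorem rdec_weight {n : ℕ} {N : LNet Λ} {c : GC} {X : (core c).I → LNet Λ}
    {g : (core c).CV → Λ} (hN : N.IsGood) (h : RDec N c X g) (hn : Fintype.card N.D ≤ n + 1) :
    wt w N ≤ pw w n (ix h) := by
  have hpole : (core c).vinc (Sum.inr true) ≠ (core c).vinc (Sum.inr false) := by
    obtain ⟨e, f, h1, h2, h3, h4⟩ := h.iso
    intro he
    have h5 : f (N.pole true) = f (N.pole false) := by
      rw [h3, h3]
      show (Sum.inl _ : _ ⊕ _) = Sum.inl _
      rw [he]
    exact hN.loop (Sum.inr true) (f.injective h5).symm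
  rw [h.iso.wt_eq, wt_glue]
  unfold pw
  rw [if_pos ⟨h.rig, hpole⟩, mul_comm]
  refine mul_le_mul' (le_of_eq ?_) (le_of_eq ?_)
  · refine Finset.prod_congr rfl fun i _ => ?_
    have hi := cls_iso (X i) (h.good i)
    have hc : Fintype.card (cls (X i) (h.good i)).rep.1.D ≤ n := by
      rw [hi.card_eq]
      have := h.small i
      omega
    show wt w (X i) = if Fintype.card (cls (X i) (h.good i)).rep.1.D ≤ n then
      wt w (cls (X i) (h.good i)).rep.1 else 0
    rw [if_pos hc, hi.wt_eq]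
  · rfl

theorem card_CInt {C : Core} (h : C.vinc (Sum.inr true) ≠ C.vinc (Sum.inr false)) :
    Fintype.card (CInt C) = nV C.s - 2 := by
  have h1 : nV C.s = Fintype.card C.CV := by
    rw [← Nat.card_eq_fintype_card]
    rfl
  have h2 : Fintype.card (CInt C) = (univ.filter fun x : C.CV => ∀ b, x ≠ C.vinc (Sum.inr b)).card :=
    Fintype.card_subtype _
  have h3 : (univ.filter fun x : C.CV => ∀ b, x ≠ C.vinc (Sum.inr b)) =
      univ \ {C.vinc (Sum.inr true), C.vinc (Sum.inr false)} := by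
    ext x
    simp only [mem_filter, mem_univ, true_and, mem_sdiff, mem_insert, mem_singleton, not_or,
      Bool.forall_bool]
    tauto
  rw [h2, h3, Finset.card_sdiff_of_subset (subset_univ _), card_pair h, card_univ, h1]

theorem sum_pw_le (n : ℕ) (c : GC) :
    (∑' q : ((core c).I → NC Λ) × (CInt (core c) → Λ), pw w n ⟨c, q⟩) ≤
      if Rigid c.rep.1 then (∑' l, w l) ^ (nV c.rep.1.s - 2) *
        (Nsel w fun N => Fintype.card N.D ≤ n) ^ (Fintype.card c.rep.1.D / 2) else 0 := by
  by_cases hc : Rigid c.rep.1 ∧ (core c).vinc (Sum.inr true) ≠ (core c).vinc (Sum.inr false)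
  · rw [if_pos hc.1]
    have h1 : ∀ q : ((core c).I → NC Λ) × (CInt (core c) → Λ), pw w n ⟨c, q⟩ =
        (∏ i, if Fintype.card (q.1 i).rep.1.D ≤ n then wt w (q.1 i).rep.1 else 0) *
          ∏ x : CInt (core c), w (q.2 x) := fun q => by unfold pw; rw [if_pos hc]
    simp_rw [h1]
    rw [← tsum_prod_mul (fun f : (core c).I → NC Λ =>
        ∏ i, if Fintype.card (f i).rep.1.D ≤ n then wt w (f i).rep.1 else 0)
      (fun g : CInt (core c) → Λ => ∏ x, w (g x)),
      ← prod_tsum (fun (_ : (core c).I) (d : NC Λ) =>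
        if Fintype.card d.rep.1.D ≤ n then wt w d.rep.1 else 0),
      ← prod_tsum (fun (_ : CInt (core c)) (l : Λ) => w l), prod_const, prod_const, card_univ,
      card_univ, card_CInt hc.2, mul_comm]
    have h2 : Fintype.card c.rep.1.D / 2 = Fintype.card (core c).I := by
      rw [← (core_iso c).card_eq]
      have : Fintype.card (core c).toB.D = Fintype.card (core c).I * 2 := by
        show Fintype.card ((core c).I × Bool) = _
        rw [Fintype.card_prod, Fintype.card_bool]
      rw [this]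
      simp
    have h3 : nV (core c).s = nV c.rep.1.s := (core_iso c).nV_eq
    have h4 : (Nsel w fun N => Fintype.card N.D ≤ n) =
        ∑' d : NC Λ, if Fintype.card d.rep.1.D ≤ n then wt w d.rep.1 else 0 := by
      unfold Nsel
      refine tsum_congr fun d => ?_
      split_ifs <;> rfl
    rw [h2, ← h3, h4]
  · have h1 : ∀ q : ((core c).I → NC Λ) × (CInt (core c) → Λ), pw w n ⟨c, q⟩ = 0 :=
      fun q => by unfold pw; rw [if_neg hc]
    simp_rw [h1]
    simp

theorem tsum_opt {α : Type*} (f : Option α → ℝ≥0∞) :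
    ∑' o, f o = f none + ∑' a, f (some a) := by
  rw [ENNReal.tsum_eq_add_tsum_ite none]
  congr 1
  have hinj : Function.Injective (some : α → Option α) := Option.some_injective α
  have := hinj.tsum_eq (f := fun o => if o = none then 0 else f o) (by
    intro o ho
    cases o with
    | none => simp at ho
    | some a => exact ⟨a, rfl⟩)
  refine Eq.trans ?_ (this.symm.trans ?_)
  · refine tsum_congr fun o => ?_
    split_ifs <;> rfl
  · refine tsum_congr fun a => ?_
    simp

end NetSumC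

open NetSumC

theorem rn_le (n : ℕ) :
    Nsel w (fun N => Fintype.card N.D ≤ n + 1 ∧ XNet N ∧ ¬ SerN N) ≤
      Rg (∑' l, w l) (Nsel w (fun N => Fintype.card N.D ≤ n)) := by
  have hex : ∀ d : NC Λ, ∃ o : Option (Ix Λ), (XNet d.rep.1 ∧ ¬ SerN d.rep.1) →
      ∃ c X g, ∃ h : RDec d.rep.1 c X g, o = some (ix h) := by
    intro d
    by_cases h : XNet d.rep.1 ∧ ¬ SerN d.rep.1
    · obtain ⟨c, X, g, hd⟩ := exists_rdec h.1 h.2
      exact ⟨some (ix hd), fun _ => ⟨c, X, g, hd, rfl⟩⟩
    · exact ⟨none, fun h' => absurd h' h⟩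
  choose φ hφ using hex
  have h1 : ∑' o : Option (Ix Λ), (match o with
      | none => (0 : ℝ≥0∞)
      | some p => pw w n p) ≤ Rg (∑' l, w l) (Nsel w (fun N => Fintype.card N.D ≤ n)) := by
    rw [tsum_opt]
    show 0 + ∑' p : Ix Λ, pw w n p ≤ _
    rw [zero_add, ← tsum_sigma_eq (fun c q => pw w n ⟨c, q⟩)]
    unfold Rg
    refine ENNReal.tsum_le_tsum fun c => ?_
    refine (sum_pw_le w n c).trans (le_of_eq ?_)
    split_ifs <;> rfl
  refine le_trans ?_ h1
  unfold Nsel
  refine tsum_le_tsum_of_injOn φ ?_ ?_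
  · intro d d' h h' he
    have hd : Fintype.card d.rep.1.D ≤ n + 1 ∧ XNet d.rep.1 ∧ ¬ SerN d.rep.1 := by
      by_contra hc
      exact h (if_neg hc)
    have hd' : Fintype.card d'.rep.1.D ≤ n + 1 ∧ XNet d'.rep.1 ∧ ¬ SerN d'.rep.1 := by
      by_contra hc
      exact h' (if_neg hc)
    obtain ⟨c, X, g, hr, e⟩ := hφ d hd.2
    obtain ⟨c', X', g', hr', e'⟩ := hφ d' hd'.2
    rw [e, e'] at he
    exact rdec_inj hr hr' (Option.some.inj he)
  · intro d h
    have hd : Fintype.card d.rep.1.D ≤ n + 1 ∧ XNet d.rep.1 ∧ ¬ SerN d.rep.1 := by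
      by_contra hc
      exact h (if_neg hc)
    rw [if_pos hd]
    obtain ⟨c, X, g, hr, e⟩ := hφ d hd.2
    rw [e]
    exact rdec_weight w d.rep.2 hr hd.1

theorem Rg_mono {s s' E E' : ℝ≥0∞} (hs : s ≤ s') (hE : E ≤ E') : Rg s E ≤ Rg s' E' := by
  unfold Rg
  refine ENNReal.tsum_le_tsum fun c => ?_
  split_ifs
  · gcongr
  · exact le_rfl

end PGr
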