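import Pool.Agent.PGr.Cut

/-! # Module CompNS: the composite of nonseparable maps is nonseparable -/

set_option linter.unusedSectionVars false

namespace PGr
open Equiv Finset

/-- the edge of a core dart (`none` is the root edge) -/
def Core.edge (C : Core) : (C.I × Bool) ⊕ Bool → Option C.I
  | Sum.inl x => some x.1
  | Sum.inr _ => none

/-- the part of a dart of the composite (`none` is the root edge) -/
def partOf (C : Core) (N : C.I → GB) : (comp C N).T → Option C.I
  | Sum.inl x => some x.1
  | Sum.inr _ => none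

variable (C : Core) (N : C.I → GB)

/-- the union of the parts in `J` -/
noncomputable def partsSet (J : Finset (Option C.I)) : Finset (comp C N).T :=
  univ.filter fun t => partOf C N t ∈ J

/-- the set of darts of the part `i` -/
noncomputable def partSet (i : C.I) : Finset (comp C N).T := partsSet C N {some i}

theorem CompNS.exists_lst (M : GB) (b : Bool) : ∃ d, M.1.s (Sum.inl d) = Sum.inr b := by
  rcases h : M.1.s.symm (Sum.inr b) with d | b'
  · exact ⟨d, by rw [← h, Equiv.apply_symm_apply]⟩
  · exfalso
    have h1 := cut_root_lt (M := M.1) b' ⟨b, by rw [← h, Equiv.apply_symm_apply]⟩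
    have h2 : 4 ≤ cut M.1.s M.1.root := by
      refine M.2.ns _ ?_ ⟨Sum.inr true, by simp [BMap.root]⟩ ?_
      · intro t
        rcases t with d | b
        · simp [BMap.root, BMap.aa]
        · cases b <;> simp [BMap.root, BMap.aa]
      · intro hu
        have := M.2.big
        rw [← card_univ, ← hu] at this
        have h3 : M.1.root.card ≤ 2 := card_insert_le _ _
        omega
    omega

/-- the dart before the root dart `inr b` -/
noncomputable def CompNS.lstD (M : GB) (b : Bool) : M.1.D := (CompNS.exists_lst M b).choose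

theorem CompNS.lstD_spec (M : GB) (b : Bool) : M.1.s (Sum.inl (CompNS.lstD M b)) = Sum.inr b :=
  (CompNS.exists_lst M b).choose_spec

theorem CompNS.lstD_unique (M : GB) {b : Bool} {d : M.1.D} (h : M.1.s (Sum.inl d) = Sum.inr b) :
    d = CompNS.lstD M b :=
  Sum.inl_injective (M.1.s.injective (h.trans (CompNS.lstD_spec M b).symm))

/-- the corner of the composite at a corner of the core -/
noncomputable def CompNS.lc : (C.I × Bool) ⊕ Bool → (comp C N).T
  | Sum.inl (i, b) => Sum.inl ⟨i, CompNS.lstD (N i) b⟩
  | Sum.inr b => Sum.inr b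

theorem CompNS.s_lc (x : (C.I × Bool) ⊕ Bool) :
    (comp C N).s (CompNS.lc C N x) = jump C N (C.s x) := by
  rcases x with ⟨i, b⟩ | b
  · exact comp_s_out C N (CompNS.lstD_spec (N i) b)
  · exact comp_s_root C N b

theorem CompNS.partOf_lc (x : (C.I × Bool) ⊕ Bool) : partOf C N (CompNS.lc C N x) = C.edge x := by
  rcases x with ⟨i, b⟩ | b <;> rfl

theorem CompNS.partOf_jump (x : (C.I × Bool) ⊕ Bool) : partOf C N (jump C N x) = C.edge x := by
  rcases x with ⟨i, b⟩ | b <;> rfl

theorem CompNS.lc_inj : Function.Injective (CompNS.lc C N) := by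
  intro x y h
  have h1 := congrArg (comp C N).s h
  rw [CompNS.s_lc, CompNS.s_lc] at h1
  exact C.s.injective (jump_inj C N h1)

/-- the corners of the composite -/
theorem CompNS.corner (t : (comp C N).T) :
    (∃ i d d', (N i).1.s (Sum.inl d) = Sum.inl d' ∧ t = Sum.inl ⟨i, d⟩ ∧
      (comp C N).s t = Sum.inl ⟨i, d'⟩) ∨ ∃ x, t = CompNS.lc C N x := by
  rcases t with ⟨i, d⟩ | b
  · rcases h : (N i).1.s (Sum.inl d) with d' | b
    · exact Or.inl ⟨i, d, d', h, rfl, comp_s_in C N h⟩
    · refine Or.inr ⟨Sum.inl (i, b), ?_⟩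
      rw [CompNS.lstD_unique (N i) h]
      rfl
  · exact Or.inr ⟨Sum.inr b, rfl⟩

/-- the cut of a union of parts is the cut in the core -/
theorem cut_partsSet (J : Finset (Option C.I)) :
    cut (comp C N).s (partsSet C N J) = cut C.s (univ.filter fun x => C.edge x ∈ J) := by
  have h : bd (comp C N).s (partsSet C N J) =
      (bd C.s (univ.filter fun x => C.edge x ∈ J)).map ⟨CompNS.lc C N, CompNS.lc_inj C N⟩ := by
    ext t
    rw [mem_bd, mem_map]
    simp only [partsSet, mem_filter, mem_univ, true_and, Function.Embedding.coeFn_mk]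
    constructor
    · intro ht
      rcases CompNS.corner C N t with ⟨i, d, d', -, rfl, h2⟩ | ⟨x, rfl⟩
      · exfalso
        apply ht
        rw [h2]
        exact Iff.rfl
      · refine ⟨x, ?_, rfl⟩
        rw [CompNS.s_lc, CompNS.partOf_lc, CompNS.partOf_jump] at ht
        rw [mem_bd]
        simpa using ht
    · rintro ⟨x, hx, rfl⟩
      rw [mem_bd] at hx
      rw [CompNS.s_lc, CompNS.partOf_lc, CompNS.partOf_jump]
      simpa using hx
  unfold cut
  rw [h, card_map]

theorem CompNS.mem_es (J : Finset (Option C.I)) (x : (C.I × Bool) ⊕ Bool) :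
    x ∈ (univ.filter fun x => C.edge x ∈ J) ↔ C.edge x ∈ J := by
  rw [mem_filter]
  exact and_iff_right (mem_univ _)

theorem CompNS.mem_ps (J : Finset (Option C.I)) (t : (comp C N).T) :
    t ∈ partsSet C N J ↔ partOf C N t ∈ J := by
  unfold partsSet
  rw [mem_filter]
  exact and_iff_right (mem_univ _)

theorem CompNS.edge_aa (x : C.toB.T) : C.edge (C.toB.aa x) = C.edge x := by
  rcases x with ⟨i, b⟩ | b <;> rfl

theorem CompNS.partOf_aa (t : (comp C N).T) :
    partOf C N ((comp C N).aa t) = partOf C N t := by
  rcases t with ⟨i, b⟩ | b <;> rfl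

theorem CompNS.cl_filter (J : Finset (Option C.I)) :
    Cl C.toB.aa (univ.filter fun x => C.edge x ∈ J : Finset C.toB.T) := by
  intro x
  have h1 := CompNS.mem_es C J (C.toB.aa x)
  have h2 := CompNS.mem_es C J x
  rw [CompNS.edge_aa] at h1
  exact h1.trans h2.symm

theorem cut_partSet (hC : C.toB.IsGood) (i : C.I) : cut (comp C N).s (partSet C N i) = 4 := by
  unfold partSet
  rw [cut_partsSet]
  have h1 := Good.cut_pair hC (Sum.inl (i, true))
  have h2 : (univ.filter fun x => C.edge x ∈ ({some i} : Finset (Option C.I))) =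
      ({Sum.inl (i, true), C.toB.aa (Sum.inl (i, true))} : Finset C.toB.T) := by
    ext x
    refine (CompNS.mem_es C _ x).trans ?_
    rw [mem_singleton]
    refine Iff.trans ?_ (mem_insert.trans (or_congr Iff.rfl mem_singleton)).symm
    rcases x with ⟨j, b⟩ | b
    · constructor
      · intro h
        have h3 : j = i := Option.some_injective _ h
        subst h3
        cases b
        · exact Or.inr rfl
        · exact Or.inl rfl
      · rintro (h | h)
        · have h3 := congrArg C.edge h
          exact h3
        · have h3 := congrArg C.edge h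
          exact h3
    · constructor
      · intro h
        exact absurd h.symm (Option.some_ne_none i)
      · rintro (h | h)
        · exact absurd h.symm Sum.inl_ne_inr
        · exact absurd h.symm Sum.inl_ne_inr
  rw [h2]
  exact h1

/-- the rotation of the core does not stay at an edge -/
theorem CompNS.edge_s (hC : C.toB.IsGood) (i : C.I) (b : Bool) :
    C.edge (C.s (Sum.inl (i, b))) ≠ some i := by
  intro h
  have h1 := Good.s_ne hC (Sum.inl (i, b))
  have h2 := Good.s_ne_a hC (Sum.inl (i, b))
  rcases h3 : C.s (Sum.inl (i, b)) with ⟨j, b'⟩ | b'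
  · rw [h3] at h
    have h4 : j = i := Option.some_injective _ h
    subst h4
    by_cases hb : b' = b
    · subst hb
      exact h1 h3
    · have hb' : b' = !b := by
        cases b <;> cases b' <;> simp_all
      subst hb'
      exact h2 h3
  · rw [h3] at h
    exact Option.some_ne_none i h.symm

theorem CompNS.inl_inj (i : C.I) :
    Function.Injective (fun d : (N i).1.D => (Sum.inl ⟨i, d⟩ : (comp C N).T)) :=
  fun _ _ h => sigma_mk_injective (β := fun i => (N i).1.D) (Sum.inl_injective h)

/-- sets of edges inside one net -/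
theorem CompNS.cut_sub (hC : C.toB.IsGood) (i : C.I) (B : Finset (N i).1.D) :
    cut (comp C N).s (B.map ⟨fun d => (Sum.inl ⟨i, d⟩ : (comp C N).T),
      CompNS.inl_inj C N i⟩) = cut (N i).1.s (B.map ⟨Sum.inl, Sum.inl_injective⟩) := by
  rw [cut_eq_two_mul, cut_eq_two_mul]
  congr 1
  symm
  refine card_bij (fun x _ => Sum.elim (fun d => (Sum.inl ⟨i, d⟩ : (comp C N).T)) Sum.inr x)
    ?_ ?_ ?_
  · rintro x hx
    rw [mem_filter] at hx
    obtain ⟨-, hx1, hx2⟩ := hx
    rw [mem_map] at hx1
    obtain ⟨d, hd, rfl⟩ := hx1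
    rw [mem_filter]
    refine ⟨mem_univ _, mem_map.2 ⟨d, hd, rfl⟩, fun h => hx2 ?_⟩
    rw [mem_map] at h
    obtain ⟨d', hd', h⟩ := h
    change _ = (comp C N).s (Sum.inl ⟨i, d⟩) at h
    change (N i).1.s (Sum.inl d) ∈ _
    rcases h3 : (N i).1.s (Sum.inl d) with e | b
    · rw [comp_s_in C N h3] at h
      have h4 : d' = e := CompNS.inl_inj C N i h
      rw [← h4]
      exact mem_map.2 ⟨d', hd', rfl⟩
    · exfalso
      rw [comp_s_out C N h3] at h
      have h4 := congrArg (partOf C N) h
      rw [CompNS.partOf_jump] at h4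
      exact CompNS.edge_s C hC i b h4.symm
  · rintro x hx y hy hxy
    rw [mem_filter] at hx hy
    obtain ⟨-, hx1, -⟩ := hx
    obtain ⟨-, hy1, -⟩ := hy
    rw [mem_map] at hx1 hy1
    obtain ⟨d, hd, rfl⟩ := hx1
    obtain ⟨e, he, rfl⟩ := hy1
    have h4 : d = e := CompNS.inl_inj C N i hxy
    rw [h4]
  · rintro t ht
    rw [mem_filter] at ht
    obtain ⟨-, ht1, ht2⟩ := ht
    rw [mem_map] at ht1
    obtain ⟨d, hd, rfl⟩ := ht1
    refine ⟨Sum.inl d, ?_, rfl⟩
    rw [mem_filter]
    refine ⟨mem_univ _, mem_map.2 ⟨d, hd, rfl⟩, fun h => ht2 ?_⟩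
    rw [mem_map] at h
    obtain ⟨d', hd', h⟩ := h
    change (comp C N).s (Sum.inl ⟨i, d⟩) ∈ _
    rw [comp_s_in C N h.symm]
    exact mem_map.2 ⟨d', hd', rfl⟩

/-- a nonempty set of edges inside one net has cut at least four -/
theorem CompNS.four_le_sub (hC : C.toB.IsGood) (i : C.I) {B : Finset (comp C N).T}
    (hB : Cl (comp C N).aa B) (hne : B.Nonempty) (hsub : B ⊆ partSet C N i) :
    4 ≤ cut (comp C N).s B := by
  have h1 : B = (univ.filter fun d : (N i).1.D => (Sum.inl ⟨i, d⟩ : (comp C N).T) ∈ B).map
      ⟨fun d => (Sum.inl ⟨i, d⟩ : (comp C N).T), CompNS.inl_inj C N i⟩ := by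
    ext t
    rw [mem_map]
    constructor
    · intro ht
      have h2 := hsub ht
      rw [partSet, partsSet, mem_filter] at h2
      rcases t with ⟨j, d⟩ | b
      · have h3 : j = i := by
          have h4 := h2.2
          rw [mem_singleton] at h4
          exact Option.some_injective _ h4
        subst h3
        exact ⟨d, mem_filter.2 ⟨mem_univ _, ht⟩, rfl⟩
      · have h4 := h2.2
        rw [mem_singleton] at h4
        exact absurd h4.symm (Option.some_ne_none i)
    · rintro ⟨d, hd, rfl⟩
      exact (mem_filter.1 hd).2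
  rw [h1, CompNS.cut_sub C N hC i]
  refine (N i).2.ns _ ?_ ?_ ?_
  · rintro (d | b)
    · simp only [mem_map, mem_filter, mem_univ, true_and, Function.Embedding.coeFn_mk, BMap.aa,
        ext_inl, Sum.inl.injEq, exists_eq_right]
      exact hB (Sum.inl ⟨i, d⟩)
    · simp [BMap.aa]
  · obtain ⟨t, ht⟩ := hne
    rw [h1, mem_map] at ht
    obtain ⟨d, hd, -⟩ := ht
    exact ⟨_, mem_map.2 ⟨d, hd, rfl⟩⟩
  · intro h
    have h2 : (Sum.inr true : (N i).1.T) ∈ (univ : Finset (N i).1.T) := mem_univ _
    rw [← h, mem_map] at h2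
    obtain ⟨d, -, h3⟩ := h2
    exact Sum.inl_ne_inr h3

theorem CompNS.cl_partsSet (J : Finset (Option C.I)) : Cl (comp C N).aa (partsSet C N J) := by
  rintro (⟨i, d⟩ | b)
  · unfold partsSet
    rw [mem_filter, mem_filter]
    exact and_congr (by simp) Iff.rfl
  · unfold partsSet
    rw [mem_filter, mem_filter]
    exact and_congr (by simp) Iff.rfl

theorem comp_ns (hC : C.toB.IsGood) : NS (comp C N).aa (comp C N).s := by
  classical
  -- sets without the root edge
  have key : ∀ A : Finset (comp C N).T, Cl (comp C N).aa A → A.Nonempty → Sum.inr true ∉ A →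
      4 ≤ cut (comp C N).s A := by
    intro A hA hne hr
    have hr' : Sum.inr false ∉ A := by
      intro h
      exact hr ((hA (Sum.inr true)).1 h)
    -- absorbing parts
    have h1 : ∀ S : Finset C.I, (∀ i ∈ S, (A ∩ partSet C N i).Nonempty) →
        cut (comp C N).s (A ∪ partsSet C N (S.map ⟨some, Option.some_injective _⟩)) ≤
          cut (comp C N).s A := by
      intro S
      induction S using Finset.induction_on with
      | empty =>
        intro _
        have h2 : partsSet C N ((∅ : Finset C.I).map ⟨some, Option.some_injective _⟩) = ∅ := by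
          ext t
          simp [partsSet]
        rw [h2, union_empty]
      | insert i S hi ih =>
        intro hS
        have h2 := ih fun j hj => hS j (mem_insert_of_mem hj)
        have h3 : A ∪ partsSet C N ((insert i S).map ⟨some, Option.some_injective _⟩) =
            (A ∪ partsSet C N (S.map ⟨some, Option.some_injective _⟩)) ∪ partSet C N i := by
          ext t
          simp only [partsSet, partSet, mem_union, mem_filter, mem_univ, true_and, map_insert,
            mem_insert, mem_singleton, Function.Embedding.coeFn_mk]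
          tauto
        have h4 := cut_inter_union (comp C N).s
          (A ∪ partsSet C N (S.map ⟨some, Option.some_injective _⟩)) (partSet C N i)
        rw [← h3, cut_partSet C N hC i] at h4
        have h5 : 4 ≤ cut (comp C N).s
            ((A ∪ partsSet C N (S.map ⟨some, Option.some_injective _⟩)) ∩ partSet C N i) := by
          refine CompNS.four_le_sub C N hC i ?_ ?_ inter_subset_right
          · exact (hA.union (CompNS.cl_partsSet C N _)).inter (CompNS.cl_partsSet C N _)
          · obtain ⟨t, ht⟩ := hS i (mem_insert_self i S)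
            rw [mem_inter] at ht
            exact ⟨t, mem_inter.2 ⟨mem_union_left _ ht.1, ht.2⟩⟩
        omega
    let S : Finset C.I := univ.filter fun i => (A ∩ partSet C N i).Nonempty
    have h2 := h1 S fun i hi => (mem_filter.1 hi).2
    have h3 : A ∪ partsSet C N (S.map ⟨some, Option.some_injective _⟩) =
        partsSet C N (S.map ⟨some, Option.some_injective _⟩) := by
      rw [union_eq_right]
      intro t ht
      unfold partsSet
      rw [mem_filter]
      refine ⟨mem_univ _, ?_⟩
      rcases t with ⟨i, d⟩ | b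
      · refine mem_map.2 ⟨i, ?_, rfl⟩
        rw [mem_filter]
        refine ⟨mem_univ _, Sum.inl ⟨i, d⟩, mem_inter.2 ⟨ht, ?_⟩⟩
        unfold partSet partsSet
        rw [mem_filter]
        exact ⟨mem_univ _, mem_singleton.2 rfl⟩
      · cases b
        · exact absurd ht hr'
        · exact absurd ht hr
    rw [h3, cut_partsSet] at h2
    refine le_trans ?_ h2
    refine hC.ns _ (CompNS.cl_filter C _) ?_ ?_
    · obtain ⟨t, ht⟩ := hne
      rcases t with ⟨i, d⟩ | b
      · refine ⟨Sum.inl (i, true), ?_⟩
        refine (CompNS.mem_es C _ _).2 (mem_map.2 ⟨i, ?_, rfl⟩)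
        rw [mem_filter]
        refine ⟨mem_univ _, Sum.inl ⟨i, d⟩, mem_inter.2 ⟨ht, ?_⟩⟩
        unfold partSet partsSet
        rw [mem_filter]
        exact ⟨mem_univ _, mem_singleton.2 rfl⟩
      · cases b
        · exact absurd ht hr'
        · exact absurd ht hr
    · intro h
      have h4 : (Sum.inr true : C.toB.T) ∈ (univ : Finset C.toB.T) := mem_univ _
      rw [← h] at h4
      have h5 := (CompNS.mem_es C _ _).1 h4
      rw [mem_map] at h5
      obtain ⟨i, -, h6⟩ := h5
      exact Option.some_ne_none i h6
  intro A hA hne hu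
  by_cases hr : Sum.inr true ∈ A
  · rw [← cut_compl]
    refine key _ hA.compl ?_ ?_
    · rwa [nonempty_iff_ne_empty, Ne, compl_eq_empty_iff]
    · rw [mem_compl, not_not]
      exact hr
  · exact key A hA hne hr

end PGr
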