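import Pool.Agent.PGr.CompNS

/-! # Module CompPl: the composite is planar -/

set_option linter.unusedSectionVars false

namespace PGr
open Equiv Finset

variable (C : Core) (N : C.I → GB)

theorem CompPl.two (x : ZMod 2) : x + x = 0 := CharTwo.add_self_eq_zero x

/-- the values of the potentials at the ends of a net -/
theorem CompPl.net (M : GB) (P Q : M.1.D → ZMod 2)
    (h : ∀ d d', M.1.s (Sum.inl d) = Sum.inl d' → P d + Q (M.1.a d) = P d' + Q d') :
    ∃ (hh : M.1.T → ZMod 2) (r : Bool → ZMod 2) (q : Bool → ZMod 2),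
      (∀ t, hh (M.1.aa t) = hh t) ∧
      (∀ d d', M.1.s (Sum.inl d) = Sum.inl d' → hh (Sum.inl d) + hh (Sum.inl d') = P d + P d') ∧
      (∀ b, hh (Sum.inl (CompNS.lstD M b)) + hh (Sum.inr b) = P (CompNS.lstD M b) + r b) ∧
      (∀ b, hh (Sum.inr b) + hh (Sum.inl (fstD M b)) = r b + P (fstD M b)) ∧
      (∀ b, r b + q b = P (CompNS.lstD M b) + Q (M.1.a (CompNS.lstD M b))) ∧
      (∀ b, r b + q (!b) = P (fstD M b) + Q (fstD M b)) := by
  classical
  set α : Bool → ZMod 2 := fun b => P (CompNS.lstD M b) + Q (M.1.a (CompNS.lstD M b)) with hα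
  set β : Bool → ZMod 2 := fun b => P (fstD M b) + Q (fstD M b) with hβ
  -- the sums
  have hsum : α true + α false = β true + β false := by
    have h1 : ∑ x : M.1.T, Sum.elim (fun d => P d + Q (M.1.a d)) (fun b => β b) x =
        ∑ x : M.1.T, Sum.elim (fun d => P d + Q d) (fun b => α b) (M.1.s x) := by
      refine sum_congr rfl fun x _ => ?_
      rcases x with d | b
      · rcases h2 : M.1.s (Sum.inl d) with d' | b
        · exact h d d' h2
        · rw [CompNS.lstD_unique M h2]
          rfl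
      · rw [fstD_spec]
        rfl
    have h2 : ∑ x : M.1.T, Sum.elim (fun d => P d + Q d) (fun b => α b) (M.1.s x) =
        ∑ x : M.1.T, Sum.elim (fun d => P d + Q d) (fun b => α b) x :=
      Equiv.sum_comp M.1.s (fun x => Sum.elim (fun d => P d + Q d) (fun b => α b) x)
    rw [h2, Fintype.sum_sum_type, Fintype.sum_sum_type] at h1
    simp only [Sum.elim_inl, Sum.elim_inr, Fintype.sum_bool, sum_add_distrib] at h1
    have h3 : ∑ d, Q (M.1.a d) = ∑ d, Q d := Equiv.sum_comp M.1.a Q
    rw [h3] at h1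
    exact (add_left_cancel h1).symm
  set q : Bool → ZMod 2 := fun b => if b then 0 else α true + β true with hq
  set r : Bool → ZMod 2 := fun b => α b + q b with hr
  have hrq1 : ∀ b, r b + q b = α b := by
    intro b
    rw [hr]
    simp only
    rw [add_assoc, CompPl.two, add_zero]
  have hrq2 : ∀ b, r b + q (!b) = β b := by
    intro b
    rw [hr, hq]
    cases b
    · simp only [Bool.not_false, if_true, Bool.false_eq_true, if_false]
      have h1 : α false + (α true + β true) + 0 = (α true + α false) + β true := by ring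
      rw [h1, hsum]
      have h2 : β true + β false + β true = β false + (β true + β true) := by ring
      rw [h2, CompPl.two, add_zero]
    · simp only [Bool.not_true, if_true, Bool.false_eq_true, if_false]
      have h1 : α true + 0 + (α true + β true) = (α true + α true) + β true := by ring
      rw [h1, CompPl.two, zero_add]
  obtain ⟨hh, h1, h2⟩ := M.2.pl (Sum.elim P r) (Sum.elim Q q) (by
    rintro (d | b)
    · rcases h3 : M.1.s (Sum.inl d) with d' | b
      · exact h d d' h3
      · change P d + Q (M.1.a d) = r b + q b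
        rw [hrq1, CompNS.lstD_unique M h3]
    · rw [fstD_spec]
      change r b + q (!b) = P (fstD M b) + Q (fstD M b)
      rw [hrq2])
  refine ⟨hh, r, q, h1, ?_, ?_, ?_, hrq1, hrq2⟩
  · intro d d' hd
    have h3 := h2 (Sum.inl d)
    rw [hd] at h3
    exact h3
  · intro b
    have h3 := h2 (Sum.inl (CompNS.lstD M b))
    rw [CompNS.lstD_spec] at h3
    exact h3
  · intro b
    have h3 := h2 (Sum.inr b)
    rw [fstD_spec] at h3
    exact h3

theorem comp_pl (hC : C.toB.IsGood) : Pl (comp C N).aa (comp C N).s := by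
  intro P Q hPQ
  have hin : ∀ i d d', (N i).1.s (Sum.inl d) = Sum.inl d' →
      P (Sum.inl ⟨i, d⟩) + Q (Sum.inl ⟨i, (N i).1.a d⟩) =
        P (Sum.inl ⟨i, d'⟩) + Q (Sum.inl ⟨i, d'⟩) := by
    intro i d d' h
    have h1 := hPQ (Sum.inl ⟨i, d⟩)
    rw [comp_s_in C N h] at h1
    exact h1
  choose hh r q n1 n2 n3 n4 n5 n6 using fun i => CompPl.net (N i)
    (fun d => P (Sum.inl ⟨i, d⟩)) (fun d => Q (Sum.inl ⟨i, d⟩)) (hin i)
  -- the core
  let Pc : C.toB.T → ZMod 2 := Sum.elim (fun x => r x.1 x.2) (fun b => P (Sum.inr b))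
  let Qc : C.toB.T → ZMod 2 := Sum.elim (fun x => q x.1 (!x.2)) (fun b => Q (Sum.inr b))
  have hjump : ∀ y : (C.I × Bool) ⊕ Bool, Pc y + Qc y = P (jump C N y) + Q (jump C N y) := by
    rintro (⟨i, b⟩ | b)
    · exact n6 i b
    · rfl
  have hlast : ∀ x : (C.I × Bool) ⊕ Bool, Pc x + Qc (C.toB.aa x) =
      P (CompNS.lc C N x) + Q ((comp C N).aa (CompNS.lc C N x)) := by
    rintro (⟨i, b⟩ | b)
    · have h1 := n5 i b
      change r i b + q i (!(!b)) = _
      rw [Bool.not_not]
      exact h1
    · rfl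
  obtain ⟨hc, c1, c2⟩ := hC.pl Pc Qc (by
    intro x
    have h1 := hPQ (CompNS.lc C N x)
    rw [CompNS.s_lc] at h1
    exact (hlast x).trans (h1.trans (hjump (C.s x)).symm))
  let H : (comp C N).T → ZMod 2 := fun t => match t with
    | Sum.inl ⟨i, d⟩ => hh i (Sum.inl d) + hh i (Sum.inr true) + hc (Sum.inl (i, true))
    | Sum.inr b => hc (Sum.inr b)
  have hhb : ∀ i b, hh i (Sum.inr b) = hh i (Sum.inr true) := by
    intro i b
    cases b
    · exact n1 i (Sum.inr true)
    · rfl
  have hcb : ∀ i b, hc (Sum.inl (i, b)) = hc (Sum.inl (i, true)) := by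
    intro i b
    cases b
    · exact c1 (Sum.inl (i, true))
    · rfl
  have hH : ∀ i d b, H (Sum.inl ⟨i, d⟩) = hh i (Sum.inl d) + hh i (Sum.inr b) +
      hc (Sum.inl (i, b)) := by
    intro i d b
    rw [hhb, hcb]
  have hA : ∀ x, H (CompNS.lc C N x) + hc x = P (CompNS.lc C N x) + Pc x := by
    rintro (⟨i, b⟩ | b)
    · change H (Sum.inl ⟨i, CompNS.lstD (N i) b⟩) + _ = _
      rw [hH i _ b, n3 i b]
      have h1 : P (Sum.inl ⟨i, CompNS.lstD (N i) b⟩) + r i b + hc (Sum.inl (i, b)) +
          hc (Sum.inl (i, b)) = P (Sum.inl ⟨i, CompNS.lstD (N i) b⟩) + r i b +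
            (hc (Sum.inl (i, b)) + hc (Sum.inl (i, b))) := by ring
      refine h1.trans ?_
      rw [CompPl.two, add_zero]
      rfl
    · exact (CompPl.two _).trans (CompPl.two _).symm
  have hB : ∀ y, hc y + H (jump C N y) = Pc y + P (jump C N y) := by
    rintro (⟨i, b⟩ | b)
    · change _ + H (Sum.inl ⟨i, fstD (N i) b⟩) = _
      rw [hH i _ b]
      have h2 := n4 i b
      have h1 : hc (Sum.inl (i, b)) + (hh i (Sum.inl (fstD (N i) b)) + hh i (Sum.inr b) +
          hc (Sum.inl (i, b))) = (hh i (Sum.inr b) + hh i (Sum.inl (fstD (N i) b))) +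
            (hc (Sum.inl (i, b)) + hc (Sum.inl (i, b))) := by ring
      refine h1.trans ?_
      rw [CompPl.two, add_zero]
      exact h2
    · exact (CompPl.two _).trans (CompPl.two _).symm
  refine ⟨H, ?_, ?_⟩
  · rintro (⟨i, d⟩ | b)
    · change hh i (Sum.inl ((N i).1.a d)) + _ + _ = hh i (Sum.inl d) + _ + _
      have h1 := n1 i (Sum.inl d)
      have h2 : hh i (Sum.inl ((N i).1.a d)) = hh i (Sum.inl d) := h1
      rw [h2]
    · exact c1 (Sum.inr b)
  · intro t
    rcases CompNS.corner C N t with ⟨i, d, d', h, rfl, h2⟩ | ⟨x, rfl⟩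
    · rw [h2]
      have h3 := n2 i d d' h
      rw [hH i d true, hH i d' true]
      have h1 : hh i (Sum.inl d) + hh i (Sum.inr true) + hc (Sum.inl (i, true)) +
          (hh i (Sum.inl d') + hh i (Sum.inr true) + hc (Sum.inl (i, true))) =
          (hh i (Sum.inl d) + hh i (Sum.inl d')) + (hh i (Sum.inr true) + hh i (Sum.inr true)) +
            (hc (Sum.inl (i, true)) + hc (Sum.inl (i, true))) := by ring
      rw [h1, CompPl.two, CompPl.two, add_zero, add_zero, h3]
    · rw [CompNS.s_lc]
      have h3 := hA x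
      have h4 := hB (C.s x)
      have h5 := c2 x
      have h6 : hc x + hc (C.s x) = Pc x + Pc (C.s x) := h5
      have h7 : H (CompNS.lc C N x) + H (jump C N (C.s x)) =
          (H (CompNS.lc C N x) + hc x) + (hc (C.s x) + H (jump C N (C.s x))) +
            (hc x + hc (C.s x)) := by
        have h8 : (H (CompNS.lc C N x) + hc x) + (hc (C.s x) + H (jump C N (C.s x))) +
            (hc x + hc (C.s x)) = H (CompNS.lc C N x) + H (jump C N (C.s x)) +
              (hc x + hc x) + (hc (C.s x) + hc (C.s x)) := by ring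
        rw [h8, CompPl.two, CompPl.two, add_zero, add_zero]
      rw [h7, h3, h4, h6]
      have h8 : P (CompNS.lc C N x) + Pc x + (Pc (C.s x) + P (jump C N (C.s x))) +
          (Pc x + Pc (C.s x)) = P (CompNS.lc C N x) + P (jump C N (C.s x)) +
            (Pc x + Pc x) + (Pc (C.s x) + Pc (C.s x)) := by ring
      rw [h8, CompPl.two, CompPl.two, add_zero, add_zero]

theorem comp_good (hC : C.toB.IsGood) : (comp C N).IsGood where
  inv := by
    rintro (⟨i, d⟩ | b)
    · have h1 := (N i).2.inv (Sum.inl d)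
      have h2 : (N i).1.a ((N i).1.a d) = d := Sum.inl_injective h1
      change (Sum.inl ⟨i, (N i).1.a ((N i).1.a d)⟩ : (comp C N).T) = _
      rw [h2]
    · change (Sum.inr (!(!b)) : (comp C N).T) = _
      rw [Bool.not_not]
  fpf := by
    rintro (⟨i, d⟩ | b) h
    · have h1 : (Sum.inl ⟨i, (N i).1.a d⟩ : (comp C N).T) = Sum.inl ⟨i, d⟩ := h
      have h2 := CompNS.inl_inj C N i h1
      exact (N i).2.fpf (Sum.inl d) (congrArg Sum.inl h2)
    · have h1 : (Sum.inr (!b) : (comp C N).T) = Sum.inr b := h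
      have h2 := Sum.inr_injective h1
      cases b <;> exact Bool.noConfusion h2
  ns := comp_ns C N hC
  pl := comp_pl C N hC
  big := by
    have h1 : 4 ≤ Fintype.card ((C.I × Bool) ⊕ Bool) := hC.big
    rw [Fintype.card_sum, Fintype.card_prod, Fintype.card_bool] at h1
    have h2 : 0 < Fintype.card C.I := by omega
    obtain ⟨i⟩ := Fintype.card_pos_iff.1 h2
    have h3 : 4 ≤ Fintype.card ((N i).1.D ⊕ Bool) := (N i).2.big
    rw [Fintype.card_sum, Fintype.card_bool] at h3
    have h4 : Fintype.card (N i).1.D ≤ Fintype.card (comp C N).D :=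
      Fintype.card_le_of_injective (fun d => (⟨i, d⟩ : (comp C N).D))
        (sigma_mk_injective (β := fun i => (N i).1.D))
    change 4 ≤ Fintype.card ((comp C N).D ⊕ Bool)
    rw [Fintype.card_sum, Fintype.card_bool]
    omega

end PGr
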