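import Pool.Agent.PGr.TriProps
import Pool.Agent.PGr.RetLib

/-! # Module SerRl: the root face of a series composition -/

set_option linter.unusedSectionVars false

namespace PGr
open Equiv Finset

namespace SerRl

/-- the face permutation as a function -/
def ps (M : BMap) : M.T → M.T := fun t => (M.aa * M.s) t

theorem rl_pos (N : GB) : 0 < N.1.rl := by
  rw [BMap.rl, minimalPeriod_eq_card, card_pos]
  exact ⟨Sum.inr true, by simp only [mem_filter, mem_univ, true_and]; exact Perm.SameCycle.refl _ _⟩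

theorem iter_rl (N : GB) : (ps N.1)^[N.1.rl] (Sum.inr true) = Sum.inr true :=
  Function.isPeriodicPt_minimalPeriod (fun t => (N.1.aa * N.1.s) t) (Sum.inr true)

theorem iter_eq_pow (M : BMap) (j : ℕ) (t : M.T) : (ps M)^[j] t = ((M.aa * M.s) ^ j) t := by
  induction j generalizing t with
  | zero => rfl
  | succ j ih =>
    rw [Function.iterate_succ_apply, ih, pow_succ]
    rfl

theorem iter_inl (N : GB) (j : ℕ) (h0 : 0 < j) (h : j < N.1.rl) :
    ∃ d, (ps N.1)^[j] (Sum.inr true) = Sum.inl d := by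
  rcases h1 : (ps N.1)^[j] (Sum.inr true) with d | b
  · exact ⟨d, rfl⟩
  · exfalso
    cases b with
    | true =>
      have h2 : Function.IsPeriodicPt (fun t => (N.1.aa * N.1.s) t) j (Sum.inr true) := h1
      have h3 := h2.minimalPeriod_le h0
      rw [BMap.rl] at h
      omega
    | false =>
      refine (Good.dual N.2).noLoop (Sum.inr true) ?_
      refine ⟨j, ?_⟩
      rw [zpow_natCast]
      have h2 := iter_eq_pow N.1 j (Sum.inr true)
      rw [h1] at h2
      exact h2.symm

/-- the corners of the root face of `N` different from the root corner -/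
theorem exists_d (N : GB) : ∃ d : ℕ → N.1.D, ∀ j, 0 < j → j < N.1.rl →
    (ps N.1)^[j] (Sum.inr true) = Sum.inl (d j) := by
  have : ∀ j, ∃ d : N.1.D, 0 < j → j < N.1.rl → (ps N.1)^[j] (Sum.inr true) = Sum.inl d := by
    intro j
    by_cases h : 0 < j ∧ j < N.1.rl
    · obtain ⟨d, hd⟩ := iter_inl N j h.1 h.2
      exact ⟨d, fun _ _ => hd⟩
    · exact ⟨fstD N true, fun h1 h2 => absurd ⟨h1, h2⟩ h⟩
  choose d hd using this
  exact ⟨d, hd⟩

theorem two_le (N : GB) : 2 ≤ N.1.rl := by
  have h0 := rl_pos N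
  by_contra h
  have h1 : N.1.rl = 1 := by omega
  have h2 := iter_rl N
  rw [h1] at h2
  have h3 : N.1.aa (N.1.s (Sum.inr true)) = Sum.inr true := h2
  rw [fstD_spec] at h3
  exact absurd h3 (by simp [BMap.aa])

section
variable (C : Core) (N : C.I → GB)

theorem run (i : C.I) (d : ℕ → (N i).1.D) (hd : ∀ j, 0 < j → j < (N i).1.rl →
    (ps (N i).1)^[j] (Sum.inr true) = Sum.inl (d j)) (j : ℕ) (h : j + 1 < (N i).1.rl) :
    (ps (comp C N))^[j] (Sum.inl ⟨i, d 1⟩) = Sum.inl ⟨i, d (j + 1)⟩ := by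
  induction j with
  | zero => rfl
  | succ j ih =>
    rw [Function.iterate_succ_apply', ih (by omega)]
    have h1 := hd (j + 1) (by omega) (by omega)
    have h2 := hd (j + 1 + 1) (by omega) (by omega)
    rw [Function.iterate_succ_apply', h1] at h2
    have h3 : (N i).1.aa ((N i).1.s (Sum.inl (d (j + 1)))) = Sum.inl (d (j + 1 + 1)) := h2
    rcases h4 : (N i).1.s (Sum.inl (d (j + 1))) with e | b
    · rw [h4] at h3
      have h5 : (N i).1.a e = d (j + 1 + 1) := Sum.inl_injective h3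
      show (comp C N).aa ((comp C N).s (Sum.inl ⟨i, d (j + 1)⟩)) = _
      rw [comp_s_in C N h4, ← h5]
      rfl
    · rw [h4] at h3
      exact absurd h3 (by simp [BMap.aa])

theorem last (i : C.I) (d : ℕ → (N i).1.D) (hd : ∀ j, 0 < j → j < (N i).1.rl →
    (ps (N i).1)^[j] (Sum.inr true) = Sum.inl (d j)) :
    ps (comp C N) (Sum.inl ⟨i, d ((N i).1.rl - 1)⟩) =
      (comp C N).aa (jump C N (C.s (Sum.inl (i, false)))) := by
  have h0 := two_le (N i)
  have h1 := hd ((N i).1.rl - 1) (by omega) (by omega)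
  have h2 := iter_rl (N i)
  have e : (N i).1.rl = (N i).1.rl - 1 + 1 := by omega
  rw [e, Function.iterate_succ_apply', h1] at h2
  have h3 : (N i).1.aa ((N i).1.s (Sum.inl (d ((N i).1.rl - 1)))) = Sum.inr true := h2
  rcases h4 : (N i).1.s (Sum.inl (d ((N i).1.rl - 1))) with e | b
  · rw [h4] at h3
    exact absurd h3 (by simp [BMap.aa])
  · rw [h4] at h3
    cases b with
    | true => exact absurd h3 (by simp [BMap.aa])
    | false =>
      show (comp C N).aa ((comp C N).s (Sum.inl ⟨i, d ((N i).1.rl - 1)⟩)) = _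
      rw [comp_s_out C N h4]

theorem first (i : C.I) (d : ℕ → (N i).1.D) (hd : ∀ j, 0 < j → j < (N i).1.rl →
    (ps (N i).1)^[j] (Sum.inr true) = Sum.inl (d j)) :
    (comp C N).aa (jump C N (Sum.inl (i, true))) = Sum.inl ⟨i, d 1⟩ := by
  have h0 := two_le (N i)
  have h1 := hd 1 (by omega) (by omega)
  have h2 : (N i).1.aa ((N i).1.s (Sum.inr true)) = Sum.inl (d 1) := h1
  rw [fstD_spec] at h2
  have h3 : (N i).1.a (fstD (N i) true) = d 1 := Sum.inl_injective h2
  rw [← h3]
  rfl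

end

end SerRl

open SerRl

theorem serMap_rl (N₁ N₂ : GB) : (serMap N₁ N₂).rl + 1 = N₁.1.rl + N₂.1.rl := by
  obtain ⟨d1, hd1⟩ := exists_d N₁
  obtain ⟨d2, hd2⟩ := exists_d N₂
  have r1 := two_le N₁
  have r2 := two_le N₂
  have t1 : tri.s (Sum.inr true) = Sum.inl (true, true) := by decide
  have t2 : tri.s (Sum.inl (true, false)) = Sum.inl (false, true) := by decide
  have t3 : tri.s (Sum.inl (false, false)) = Sum.inr false := by decide
  have a1 : ps (serMap N₁ N₂) (Sum.inr true) = Sum.inl ⟨true, d1 1⟩ := by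
    show (comp tri (serNets N₁ N₂)).aa ((comp tri (serNets N₁ N₂)).s (Sum.inr true)) = _
    rw [comp_s_root, t1]
    exact first tri (serNets N₁ N₂) true d1 hd1
  have a2 : ∀ j, j + 1 < N₁.1.rl → (ps (serMap N₁ N₂))^[j + 1] (Sum.inr true) =
      Sum.inl ⟨true, d1 (j + 1)⟩ := by
    intro j hj
    rw [Function.iterate_succ_apply, a1]
    exact run tri (serNets N₁ N₂) true d1 hd1 j hj
  have a3 : (ps (serMap N₁ N₂))^[N₁.1.rl] (Sum.inr true) = Sum.inl ⟨false, d2 1⟩ := by
    have e : N₁.1.rl = N₁.1.rl - 2 + 1 + 1 := by omega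
    rw [e, Function.iterate_succ_apply', a2 _ (by omega)]
    have e' : N₁.1.rl - 2 + 1 = N₁.1.rl - 1 := by omega
    rw [e']
    have h := last tri (serNets N₁ N₂) true d1 hd1
    rw [t2] at h
    exact h.trans (first tri (serNets N₁ N₂) false d2 hd2)
  have a4 : ∀ j, j + 1 < N₂.1.rl → (ps (serMap N₁ N₂))^[j + N₁.1.rl] (Sum.inr true) =
      Sum.inl ⟨false, d2 (j + 1)⟩ := by
    intro j hj
    rw [Function.iterate_add_apply, a3]
    exact run tri (serNets N₁ N₂) false d2 hd2 j hj
  have a5 : (ps (serMap N₁ N₂))^[N₁.1.rl + N₂.1.rl - 1] (Sum.inr true) = Sum.inr true := by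
    have e : N₁.1.rl + N₂.1.rl - 1 = N₂.1.rl - 2 + N₁.1.rl + 1 := by omega
    rw [e, Function.iterate_succ_apply', a4 _ (by omega)]
    have e' : N₂.1.rl - 2 + 1 = N₂.1.rl - 1 := by omega
    rw [e']
    have h := last tri (serNets N₁ N₂) false d2 hd2
    rw [t3] at h
    exact h
  have a6 : (serMap N₁ N₂).rl ≤ N₁.1.rl + N₂.1.rl - 1 :=
    Function.IsPeriodicPt.minimalPeriod_le (by omega) a5
  have a7 : 0 < (serMap N₁ N₂).rl :=
    Function.IsPeriodicPt.minimalPeriod_pos (by omega) a5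
  have a8 : (ps (serMap N₁ N₂))^[(serMap N₁ N₂).rl] (Sum.inr true) = Sum.inr true :=
    Function.isPeriodicPt_minimalPeriod _ _
  by_contra hne
  have a9 : (serMap N₁ N₂).rl < N₁.1.rl + N₂.1.rl - 1 := by omega
  by_cases hc : (serMap N₁ N₂).rl < N₁.1.rl
  · have e : (serMap N₁ N₂).rl = (serMap N₁ N₂).rl - 1 + 1 := by omega
    have h := a2 ((serMap N₁ N₂).rl - 1) (by omega)
    rw [← e, a8] at h
    exact absurd h (by simp)
  · have h := a4 ((serMap N₁ N₂).rl - N₁.1.rl) (by omega)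
    have e : (serMap N₁ N₂).rl - N₁.1.rl + N₁.1.rl = (serMap N₁ N₂).rl := by omega
    rw [e, a8] at h
    exact absurd h (by simp)

end PGr
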