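import Pool.Agent.PGr.RGDefs

/-! # Generating functions: definitions -/

set_option linter.unusedSectionVars false

namespace PGr
open Equiv Finset
open scoped ENNReal Classical

/-- sum of the weights of the classes of good rooted maps with property `P` -/
noncomputable def Esel (s y : ℝ≥0∞) (P : BMap → Prop) : ℝ≥0∞ :=
  ∑' c : GC, if P c.rep.1 then W s y c.rep.1 else 0

/-- sum over all good rooted maps -/
noncomputable def Es (s y : ℝ≥0∞) : ℝ≥0∞ := Esel s y (fun _ => True)

/-- maps with at most `n` nonroot darts and root face of length `l + 1` -/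
noncomputable def tl (s y : ℝ≥0∞) (n l : ℕ) : ℝ≥0∞ :=
  Esel s y (fun M => Fintype.card M.D ≤ n ∧ M.rl = l + 1)

/-- the same, not series -/
noncomputable def al (s y : ℝ≥0∞) (n l : ℕ) : ℝ≥0∞ :=
  Esel s y (fun M => Fintype.card M.D ≤ n ∧ M.rl = l + 1 ∧ ¬ IsSer M)

/-- maps with root face of length `l + 1` -/
noncomputable def tL (s y : ℝ≥0∞) (l : ℕ) : ℝ≥0∞ := Esel s y (fun M => M.rl = l + 1)

noncomputable def aL (s y : ℝ≥0∞) (l : ℕ) : ℝ≥0∞ := Esel s y (fun M => M.rl = l + 1 ∧ ¬ IsSer M)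

/-- generating function of the rigid maps, with weight `E` for a nonroot edge -/
noncomputable def Rg (s E : ℝ≥0∞) : ℝ≥0∞ :=
  ∑' c : GC, if Rigid c.rep.1 then
    s ^ (nV c.rep.1.s - 2) * E ^ (Fintype.card c.rep.1.D / 2) else 0

/-- sum of the weights of the classes of good networks with property `P` -/
noncomputable def Nsel {Λ : Type*} (w : Λ → ℝ≥0∞) (P : LNet Λ → Prop) : ℝ≥0∞ :=
  ∑' c : NC Λ, if P c.rep.1 then wt w c.rep.1 else 0

/-- generating function of the multisets with weights `f` -/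
noncomputable def MS {ι : Type*} (f : ι → ℝ≥0∞) : ℝ≥0∞ := ∑' m : Multiset ι, (m.map f).prod

/-- weights of rooted connected planar graphs with at most `n` vertices -/
noncomputable def wK (x : ℝ≥0∞) (n : ℕ) (c : RC) : ℝ≥0∞ :=
  if c.rep.1.size ≤ n then x ^ c.rep.1.size else 0

/-- their sum -/
noncomputable def Kn (x : ℝ≥0∞) (n : ℕ) : ℝ≥0∞ := ∑' c : RC, wK x n c

/-- weights of pieces with at most `n` vertices -/
noncomputable def wP (x : ℝ≥0∞) (n : ℕ) (c : RC) : ℝ≥0∞ :=
  if Piece c.rep.1 ∧ c.rep.1.size ≤ n then x ^ (c.rep.1.size - 1) else 0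

noncomputable def Pn (x : ℝ≥0∞) (n : ℕ) : ℝ≥0∞ := ∑' c : RC, wP x n c

end PGr
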