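import Pool.Agent.PGr.SumDefs

/-! # Module SumLib: sums in `ℝ≥0∞` -/

set_option linter.unusedSectionVars false

namespace PGr
open Equiv Finset
open scoped ENNReal Classical

theorem tsum_le_tsum_of_inj {α β : Type*} {f : α → ℝ≥0∞} {g : β → ℝ≥0∞} (φ : α → β)
    (hφ : Function.Injective φ) (h : ∀ x, f x ≤ g (φ x)) : ∑' x, f x ≤ ∑' y, g y :=
  (ENNReal.tsum_le_tsum h).trans (ENNReal.tsum_comp_le_tsum_of_injective hφ g)

/-- the same, where `φ` is only injective on the support -/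
theorem tsum_le_tsum_of_injOn {α β : Type*} {f : α → ℝ≥0∞} {g : β → ℝ≥0∞} (φ : α → β)
    (hφ : ∀ x y, f x ≠ 0 → f y ≠ 0 → φ x = φ y → x = y) (h : ∀ x, f x ≠ 0 → f x ≤ g (φ x)) :
    ∑' x, f x ≤ ∑' y, g y := by
  have h1 : ∑' x : Function.support f, f x = ∑' x, f x :=
    tsum_subtype_eq_of_support_subset (fun x hx => hx)
  rw [← h1]
  refine tsum_le_tsum_of_inj (fun x : Function.support f => φ x.1) ?_ ?_
  · intro x y hxy
    exact Subtype.ext (hφ x.1 y.1 x.2 y.2 hxy)
  · intro x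
    exact h x.1 x.2

theorem tsum_prod_mul {α β : Type*} (f : α → ℝ≥0∞) (g : β → ℝ≥0∞) :
    (∑' x, f x) * ∑' y, g y = ∑' p : α × β, f p.1 * g p.2 := by
  rw [ENNReal.tsum_prod (f := fun a b => f a * g b)]
  simp_rw [ENNReal.tsum_mul_left, ENNReal.tsum_mul_right]

theorem SumLib_prod_tsum (ι : Type*) [Finite ι] : ∀ [Fintype ι] {α : ι → Type*}
    (f : ∀ i, α i → ℝ≥0∞), ∏ i, ∑' x, f i x = ∑' g : ∀ i, α i, ∏ i, f i (g i) := by
  induction ι using Finite.induction_empty_option with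
  | of_equiv e ih =>
    intro _ α f
    rename_i κ κ' _
    have : Fintype κ := Fintype.ofEquiv _ e.symm
    rw [← Equiv.prod_comp e]
    rw [ih (fun i => f (e i))]
    rw [← (Equiv.piCongrLeft α e).tsum_eq]
    refine tsum_congr fun g => ?_
    rw [← Equiv.prod_comp e]
    refine Finset.prod_congr rfl fun i _ => ?_
    rw [Equiv.piCongrLeft_apply_apply]
  | h_empty =>
    intro _ α f
    rw [(hasSum_unique (fun g : ∀ i, α i => ∏ i, f i (g i))).tsum_eq]
    simp
  | h_option ih =>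
    rename_i κ _
    intro inst α f
    have hinst : inst = instFintypeOption := Subsingleton.elim _ _
    subst hinst
    have key : ∀ F : Option κ → ℝ≥0∞, ∏ i, F i = F none * ∏ i, F (some i) := by
      intro F
      exact Fintype.prod_option F
    rw [key, ih (fun i => f (some i)), tsum_prod_mul, ← (Equiv.piOptionEquivProd (β := α)).tsum_eq]
    refine tsum_congr fun g => ?_
    rw [key]
    rfl

/-- a product of sums is a sum over functions -/
theorem prod_tsum {ι : Type*} [Fintype ι] {α : ι → Type*} (f : ∀ i, α i → ℝ≥0∞) :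
    ∏ i, ∑' x, f i x = ∑' g : ∀ i, α i, ∏ i, f i (g i) := SumLib_prod_tsum ι f

theorem tsum_sigma_eq {α : Type*} {β : α → Type*} (f : ∀ x, β x → ℝ≥0∞) :
    ∑' x, ∑' y, f x y = ∑' p : Σ x, β x, f p.1 p.2 := (ENNReal.tsum_sigma f).symm

/-- if all truncations of a sum by a size function are at most `B`, the sum is at most `B` -/
theorem tsum_le_of_trunc {α : Type*} (f : α → ℝ≥0∞) (size : α → ℕ) (B : ℝ≥0∞)
    (h : ∀ n, (∑' x, if size x ≤ n then f x else 0) ≤ B) : ∑' x, f x ≤ B := by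
  rw [ENNReal.tsum_eq_iSup_sum]
  refine iSup_le fun s => ?_
  refine le_trans ?_ (h (s.sup size))
  refine le_trans (le_of_eq ?_) (ENNReal.sum_le_tsum s)
  refine Finset.sum_congr rfl fun x hx => ?_
  rw [if_pos (Finset.le_sup hx)]

end PGr
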