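import Pool.Agent.PGr.InsPl
import Pool.Agent.PGr.CutIso

/-! # Module InsMap: properties of `insMap` -/

set_option linter.unusedSectionVars false
set_option linter.unusedVariables false

namespace PGr
open Equiv Finset

namespace InsMapAux

theorem mem_periodicPts {T : Type*} [Fintype T] [DecidableEq T] (s : Perm T) (x : T) :
    x ∈ Function.periodicPts (fun t => s t) := by
  refine ⟨orderOf s, orderOf_pos s, ?_⟩
  have h1 : (⇑s)^[orderOf s] x = (s ^ orderOf s) x := by rw [Perm.iterate_eq_pow]
  exact h1.trans (by rw [pow_orderOf_eq_one]; rfl)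

theorem pow_ne {T : Type*} [Fintype T] [DecidableEq T] (s : Perm T) (x : T) {i j : ℕ}
    (hij : i < j) (hj : j < Function.minimalPeriod (fun t => s t) x) : (s ^ i) x ≠ (s ^ j) x := by
  intro h
  rw [← Perm.iterate_eq_pow, ← Perm.iterate_eq_pow] at h
  have := Function.iterate_injOn_Iio_minimalPeriod (f := fun t => s t) (x := x)
    (Set.mem_Iio.2 (hij.trans hj)) (Set.mem_Iio.2 hj) h
  omega

theorem minPer_eq {T : Type*} [Fintype T] [DecidableEq T] (s : Perm T) (x : T) {n : ℕ}
    (hn : 0 < n) (h : (s ^ n) x = x) (hm : ∀ j, 0 < j → j < n → (s ^ j) x ≠ x) :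
    Function.minimalPeriod (fun t => s t) x = n := by
  have hp : Function.IsPeriodicPt (fun t => s t) n x := by
    have h1 : (⇑s)^[n] x = (s ^ n) x := by rw [Perm.iterate_eq_pow]
    exact h1.trans h
  have hle := hp.minimalPeriod_le hn
  have hpos := Function.minimalPeriod_pos_of_mem_periodicPts (mem_periodicPts s x)
  by_contra hne
  refine hm _ hpos (lt_of_le_of_ne hle hne) ?_
  have h2 := Function.isPeriodicPt_minimalPeriod (fun t => s t) x
  rw [← Perm.iterate_eq_pow]
  exact h2

section
variable {T : Type*} [Fintype T] [DecidableEq T] (a s : Perm T) (c0 : T) {k : ℕ}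

theorem ne_aux (hk : 0 < k) (hk' : k < Function.minimalPeriod (fun t => (a * s) t) c0) :
    c0 ≠ ((a * s) ^ k) c0 := by
  have := pow_ne (a * s) c0 hk hk'
  simpa using this

theorem pow_aux (hk : 0 < k) (hk' : k < Function.minimalPeriod (fun t => (a * s) t) c0) :
    ∀ j, 0 < j → j ≤ k →
    ((ext a * insS s c0 (((a * s) ^ k) c0)) ^ j) (Sum.inr true) =
      Sum.inl (((a * s) ^ j) c0) := by
  have hne := ne_aux a s c0 hk hk'
  intro j
  induction j with
  | zero => intro h; omega
  | succ j ih =>
    intro _ hj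
    rw [pow_succ', Perm.mul_apply]
    rcases Nat.eq_zero_or_pos j with h0 | hpos
    · subst h0
      rw [pow_zero, Perm.one_apply, Perm.mul_apply, insS_true s hne, ext_inl]
      simp [Perm.mul_apply]
    · rw [ih hpos (by omega), Perm.mul_apply, insS_inl s hne, ext_inl, pow_succ', Perm.mul_apply,
        Perm.mul_apply]
      · have h1 := pow_ne (a * s) c0 hpos (show j < _ by omega)
        simpa using h1.symm
      · exact pow_ne (a * s) c0 (show j < k by omega) hk'

theorem rl_aux (hk : 0 < k) (hk' : k < Function.minimalPeriod (fun t => (a * s) t) c0) :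
    Function.minimalPeriod (fun t => (ext a * insS s c0 (((a * s) ^ k) c0)) t) (Sum.inr true) =
      k + 1 := by
  have hne := ne_aux a s c0 hk hk'
  refine minPer_eq _ _ (by omega) ?_ ?_
  · rw [pow_succ', Perm.mul_apply, pow_aux a s c0 hk hk' k hk le_rfl, Perm.mul_apply,
      insS_c1 s hne, ext_inr]
    rfl
  · intro j hj hj'
    rw [pow_aux a s c0 hk hk' j hj (by omega)]
    simp

theorem ser_aux {a s : Perm T} {c0 c1 : T} (h : Good a s) (hne : c0 ≠ c1)
    (A : Finset (T ⊕ Bool)) (hcl : Cl (ext a) A) (hrt : Sum.inr true ∉ A)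
    (hfst : insS s c0 c1 (Sum.inr true) ∈ A) (rest : A ∪ {Sum.inr true, Sum.inr false} ≠ univ)
    (cut4 : cut (insS s c0 c1) A = 4) (hs : (insS s c0 c1)⁻¹ (Sum.inr true) ∈ A) : False := by
  classical
  have hinv : (insS s c0 c1)⁻¹ (Sum.inr true) = Sum.inl c0 := by
    rw [Perm.inv_eq_iff_eq]
    exact (insS_c0 s hne).symm
  rw [hinv] at hs
  rw [insS_true s hne] at hfst
  have hrf : (Sum.inr false : T ⊕ Bool) ∉ A := by
    intro hf
    apply hrt
    have := (hcl (Sum.inr false)).2 hf
    simpa using this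
  set A0 : Finset T := univ.filter (fun t => Sum.inl t ∈ A) with hA0
  have hmem : ∀ t, t ∈ A0 ↔ (Sum.inl t : T ⊕ Bool) ∈ A := by
    intro t
    simp [hA0]
  have hmap : A = A0.map ⟨Sum.inl, Sum.inl_injective⟩ := by
    ext t
    simp only [mem_map, Function.Embedding.coeFn_mk]
    constructor
    · intro ht
      rcases t with t | b
      · exact ⟨t, (hmem t).2 ht, rfl⟩
      · cases b
        · exact absurd ht hrf
        · exact absurd ht hrt
    · rintro ⟨t, ht, rfl⟩
      exact (hmem t).1 ht
  have hcut := cut_insS_inl s hne A0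
  rw [← hmap, cut4] at hcut
  rw [if_pos ⟨(hmem _).2 hs, (hmem _).2 hfst⟩] at hcut
  have hlt : cut s A0 < 4 := by omega
  have hge : 4 ≤ cut s A0 := by
    refine h.ns A0 ?_ ⟨c0, (hmem _).2 hs⟩ ?_
    · intro t
      rw [hmem, hmem]
      have := hcl (Sum.inl t)
      rwa [ext_inl] at this
    · intro hu
      apply rest
      rw [eq_univ_iff_forall]
      intro t
      rcases t with t | b
      · refine mem_union_left _ ?_
        rw [← hmem, hu]
        exact mem_univ _
      · refine mem_union_right _ ?_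
        cases b <;> simp
  omega

end

theorem iso_aux {T T' : Type*} [Fintype T] [DecidableEq T] [Fintype T'] [DecidableEq T']
    (a s : Perm T) (a' s' : Perm T') (c0 c1 : T) (c0' c1' : T') (hne : c0 ≠ c1)
    (hne' : c0' ≠ c1') (e : T ⊕ Bool ≃ T' ⊕ Bool) (e1 : ∀ t, e (ext a t) = ext a' (e t))
    (e2 : ∀ t, e (insS s c0 c1 t) = insS s' c0' c1' (e t)) (e3 : e (Sum.inr true) = Sum.inr true) :
    ∃ f : T ≃ T', (∀ t, f (a t) = a' (f t)) ∧ (∀ t, f (s t) = s' (f t)) ∧ f c0 = c0' := by
  have e4 : e (Sum.inr false) = Sum.inr false := by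
    have h1 := e1 (Sum.inr true)
    rw [e3] at h1
    exact h1
  have hf : ∀ t, ∃ t', e (Sum.inl t) = Sum.inl t' := by
    intro t
    rcases ht : e (Sum.inl t) with t' | b
    · exact ⟨t', rfl⟩
    · exfalso
      cases b
      · rw [← e4] at ht
        have := e.injective ht
        simp at this
      · rw [← e3] at ht
        have := e.injective ht
        simp at this
  choose f hf using hf
  have finj : Function.Injective f := by
    intro t t' htt
    have h1 : e (Sum.inl t) = e (Sum.inl t') := by rw [hf, hf, htt]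
    have := e.injective h1
    simpa using this
  have fsurj : Function.Surjective f := by
    intro t'
    rcases ht : e.symm (Sum.inl t') with t | b
    · refine ⟨t, ?_⟩
      have h1 : e (Sum.inl t) = Sum.inl t' := by rw [← ht, Equiv.apply_symm_apply]
      rw [hf] at h1
      simpa using h1
    · exfalso
      have h1 : e (Sum.inr b) = Sum.inl t' := by rw [← ht, Equiv.apply_symm_apply]
      cases b
      · rw [e4] at h1; simp at h1
      · rw [e3] at h1; simp at h1
  have f0 : f c0 = c0' := by
    have h1 := e2 (Sum.inl c0)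
    rw [insS_c0 s hne, e3, hf] at h1
    have h2 := (insS s' c0' c1').injective ((insS_c0 s' hne').trans h1)
    simpa using h2.symm
  have f1 : f c1 = c1' := by
    have h1 := e2 (Sum.inl c1)
    rw [insS_c1 s hne, e4, hf] at h1
    have h2 := (insS s' c0' c1').injective ((insS_c1 s' hne').trans h1)
    simpa using h2.symm
  refine ⟨Equiv.ofBijective f ⟨finj, fsurj⟩, ?_, ?_, f0⟩
  · intro t
    show f (a t) = a' (f t)
    have h1 := e1 (Sum.inl t)
    rw [hf, ext_inl, ext_inl, hf] at h1
    simpa using h1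
  · intro t
    show f (s t) = s' (f t)
    by_cases ht0 : t = c0
    · rw [ht0, f0]
      have h1 := e2 (Sum.inr true)
      rw [insS_true s hne, e3, insS_true s' hne', hf] at h1
      simpa using h1
    · by_cases ht1 : t = c1
      · rw [ht1, f1]
        have h1 := e2 (Sum.inr false)
        rw [insS_false s hne, e4, insS_false s' hne', hf] at h1
        simpa using h1
      · have h1 := e2 (Sum.inl t)
        have h2 : f t ≠ c0' := fun h2 => ht0 (finj (h2.trans f0.symm))
        have h3 : f t ≠ c1' := fun h2 => ht1 (finj (h2.trans f1.symm))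
        rw [insS_inl s hne ht0 ht1, hf, hf, insS_inl s' hne' h2 h3] at h1
        simpa using h1

end InsMapAux

open InsMapAux

theorem BMap.IsGood.two_le_rl {M : BMap} (h : M.IsGood) : 2 ≤ M.rl := by
  have hpos := Function.minimalPeriod_pos_of_mem_periodicPts
    (mem_periodicPts (M.aa * M.s) (Sum.inr true))
  have h1 : M.rl ≠ 1 := by
    intro h1
    have h2 := Function.minimalPeriod_eq_one_iff_isFixedPt.1 h1
    have h3 : M.aa (M.s (Sum.inr true)) = Sum.inr true := h2
    have h4 := Good.s_ne_a h (Sum.inr true)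
    apply h4
    rw [← h.inv (M.s (Sum.inr true)), h3]
  have h5 : 0 < M.rl := hpos
  omega

variable {N : BMap} {k : ℕ}

theorem InsMap_ne (hk : 0 < k) (hk' : k < N.rl) :
    (Sum.inr true : N.T) ≠ ((N.aa * N.s) ^ k) (Sum.inr true) :=
  ne_aux N.aa N.s (Sum.inr true) hk hk'

theorem InsMap_sc {T : Type*} (f : Perm T) (x : T) (k : ℕ) : f.SameCycle x ((f ^ k) x) :=
  ⟨(k : ℤ), by simp⟩

theorem insMap_good (h : N.IsGood) (hk : 0 < k) (hk' : k < N.rl) : (insMap N k).IsGood :=
  Good.ins h (InsMap_ne hk hk') (InsMap_sc (N.aa * N.s) (Sum.inr true) k)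

theorem insMap_rl (h : N.IsGood) (hk : 0 < k) (hk' : k < N.rl) : (insMap N k).rl = k + 1 :=
  rl_aux N.aa N.s (Sum.inr true) hk hk'

theorem insMap_nV (h : N.IsGood) (hk : 0 < k) (hk' : k < N.rl) :
    nV (insMap N k).s = nV N.s := nV_insS N.s (InsMap_ne hk hk')

theorem insMap_not_ser (h : N.IsGood) (hk : 0 < k) (hk' : k < N.rl) : ¬ IsSer (insMap N k) := by
  rintro ⟨A, hA, hs⟩
  exact ser_aux h (InsMap_ne hk hk') A hA.cl hA.root hA.fst hA.rest hA.cut4 hs

theorem insMap_inj {N' : BMap} {k' : ℕ} (h : N.IsGood) (hk : 0 < k) (hk' : k < N.rl)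
    (h' : N'.IsGood) (hl : 0 < k') (hl' : k' < N'.rl) (he : BIso (insMap N k) (insMap N' k')) :
    BIso N N' := by
  obtain ⟨e, e1, e2, e3⟩ := he
  exact iso_aux N.aa N.s N'.aa N'.s _ _ _ _ (InsMap_ne hk hk') (InsMap_ne hl hl') e e1 e2 e3

end PGr
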