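import Pool.Agent.PGr.InsMap
import Pool.Agent.PGr.PlRestrict
import Pool.Agent.PGr.Reps
import Pool.Agent.PGr.CutIso

/-! # Module InsSurj: every good map with at least three edges that is not a series composition is
`insMap N k` -/

set_option linter.unusedSectionVars false

namespace PGr
open Equiv Finset

/-- the map without its root edge is nonseparable -/
theorem InsSurj.ns {M : BMap} (h : M.IsGood) (hs : ¬ IsSer M) {s' : Perm M.D} {c0 c1 : M.D}
    (hc : c0 ≠ c1) (hM : M.s = insS s' c0 c1) : NS M.a s' := by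
  classical
  intro A hA hne hu
  by_contra hlt
  -- sets of old edges
  have hcl : ∀ B : Finset M.D, Cl M.a B → Cl M.aa (B.map ⟨Sum.inl, Sum.inl_injective⟩) := by
    intro B hB
    rintro (d | b)
    · simp only [BMap.aa, ext_inl, mem_map, Function.Embedding.coeFn_mk, Sum.inl.injEq,
        exists_eq_right]
      exact hB d
    · simp [BMap.aa]
  have hge : ∀ B : Finset M.D, Cl M.a B → B.Nonempty →
      4 ≤ cut M.s (B.map ⟨Sum.inl, Sum.inl_injective⟩) := by
    intro B hB hBne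
    refine h.ns _ (hcl B hB) ?_ ?_
    · obtain ⟨d, hd⟩ := hBne
      exact ⟨_, mem_map.2 ⟨d, hd, rfl⟩⟩
    · intro h1
      have h2 : (Sum.inr true : M.T) ∈ (univ : Finset M.T) := mem_univ _
      rw [← h1, mem_map] at h2
      obtain ⟨d, -, h3⟩ := h2
      exact Sum.inl_ne_inr h3
  have hAc : Aᶜ.Nonempty := by rwa [nonempty_iff_ne_empty, Ne, compl_eq_empty_iff]
  have g1 := hge A hA hne
  have g2 := hge Aᶜ hA.compl hAc
  rw [hM, cut_insS_inl s' hc] at g1 g2
  rw [cut_compl] at g2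
  have heven := cut_eq_two_mul s' A
  -- a set with both sides of `c0` inside is a series prefix
  have key : ∀ B : Finset M.D, Cl M.a B → Bᶜ.Nonempty → c0 ∈ B → s' c0 ∈ B → cut s' B ≤ 2 →
      c1 ∈ Bᶜ → s' c1 ∈ Bᶜ → 2 ≤ cut s' B → False := by
    intro B hB hBc h1 h2 h3 h4 h5 h6
    apply hs
    have hk0 : ¬ (c1 ∈ B ∧ s' c1 ∈ B) := fun h7 => (mem_compl.1 h4) h7.1
    have hk1 : ¬ (c0 ∈ Bᶜ ∧ s' c0 ∈ Bᶜ) := fun h7 => (mem_compl.1 h7.1) h1
    have hcut : cut M.s (B.map ⟨Sum.inl, Sum.inl_injective⟩) = 4 := by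
      rw [hM, cut_insS_inl s' hc, if_pos ⟨h1, h2⟩, if_neg hk0]
      omega
    have hcut' : cut M.s (Bᶜ.map ⟨Sum.inl, Sum.inl_injective⟩) = 4 := by
      rw [hM, cut_insS_inl s' hc, cut_compl, if_neg hk1, if_pos ⟨h4, h5⟩]
      omega
    have hcompl : B.map ⟨Sum.inl, Sum.inl_injective⟩ ∪ M.root =
        (Bᶜ.map ⟨Sum.inl, Sum.inl_injective⟩ : Finset M.T)ᶜ := by
      ext x
      rw [mem_union, mem_compl]
      rcases x with d | b
      · simp [BMap.root]
      · cases b <;> simp [BMap.root]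
    refine ⟨B.map ⟨Sum.inl, Sum.inl_injective⟩, ⟨hcl B hB, ?_, ?_, ?_, hcut, ?_⟩, ?_⟩
    · rw [mem_map]
      rintro ⟨d, -, h7⟩
      exact Sum.inl_ne_inr h7
    · rw [hM, insS_true s' hc]
      exact mem_map.2 ⟨_, h2, rfl⟩
    · rw [hcompl]
      intro h7
      rw [compl_eq_univ_iff, map_eq_empty] at h7
      exact hBc.ne_empty h7
    · rw [hcompl, cut_compl]
      exact hcut'
    · have h7 : M.s (Sum.inl c0) = Sum.inr true := by rw [hM, insS_c0 s' hc]
      have h8 : M.s⁻¹ (Sum.inr true) = Sum.inl c0 := by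
        rw [← h7]
        exact M.s.symm_apply_apply _
      rw [h8]
      exact mem_map.2 ⟨_, h1, rfl⟩
  have hx : ∀ {B : Finset M.D} {x : M.D}, x ∈ B → ¬ x ∈ Bᶜ := fun h1 h2 => mem_compl.1 h2 h1
  by_cases a0 : c0 ∈ A ∧ s' c0 ∈ A
  · have b0 : ¬ (c0 ∈ Aᶜ ∧ s' c0 ∈ Aᶜ) := fun h1 => hx a0.1 h1.1
    rw [if_neg b0] at g2
    by_cases b1 : c1 ∈ Aᶜ ∧ s' c1 ∈ Aᶜ
    · have a1 : ¬ (c1 ∈ A ∧ s' c1 ∈ A) := fun h1 => hx h1.1 b1.1
      rw [if_pos a0, if_neg a1] at g1
      exact key A hA hAc a0.1 a0.2 (by omega) b1.1 b1.2 (by omega)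
    · rw [if_neg b1] at g2
      omega
  · rw [if_neg a0] at g1
    by_cases a1 : c1 ∈ A ∧ s' c1 ∈ A
    · have b1 : ¬ (c1 ∈ Aᶜ ∧ s' c1 ∈ Aᶜ) := fun h1 => hx a1.1 h1.1
      rw [if_pos a1] at g1
      rw [if_neg b1] at g2
      by_cases b0 : c0 ∈ Aᶜ ∧ s' c0 ∈ Aᶜ
      · refine key Aᶜ hA.compl ?_ b0.1 b0.2 ?_ ?_ ?_ ?_
        · rw [compl_compl]
          exact hne
        · rw [cut_compl]
          omega
        · rw [compl_compl]
          exact a1.1
        · rw [compl_compl]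
          exact a1.2
        · rw [cut_compl]
          omega
      · rw [if_neg b0] at g2
        omega
    · rw [if_neg a1] at g1
      omega

/-- transport of an insertion -/
theorem InsSurj.insS_iso {T T' : Type*} [DecidableEq T] [DecidableEq T'] {s : Perm T}
    {s' : Perm T'} (e : T ≃ T') (h : ∀ t, e (s t) = s' (e t)) {c0 c1 : T} (hc : c0 ≠ c1)
    (x : T ⊕ Bool) : (Equiv.sumCongr e (Equiv.refl Bool)) (insS s c0 c1 x) =
      insS s' (e c0) (e c1) ((Equiv.sumCongr e (Equiv.refl Bool)) x) := by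
  unfold insS
  rw [Perm.mul_apply, Perm.mul_apply, Perm.mul_apply, Perm.mul_apply]
  have g' : ∀ (u v y : T ⊕ Bool), Equiv.sumCongr e (Equiv.refl Bool) (swap u v y) =
      swap (Equiv.sumCongr e (Equiv.refl Bool) u) (Equiv.sumCongr e (Equiv.refl Bool) v)
        (Equiv.sumCongr e (Equiv.refl Bool) y) := fun u v y =>
    ((Equiv.sumCongr e (Equiv.refl Bool)).injective.swap_apply u v y).symm
  have g2 : ∀ y : T ⊕ Bool, Equiv.sumCongr e (Equiv.refl Bool) (Perm.sumCongr s 1 y) =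
      Perm.sumCongr s' 1 (Equiv.sumCongr e (Equiv.refl Bool) y) := by
    rintro (t | b)
    · exact congrArg Sum.inl (h t)
    · rfl
  rw [g2, g', g']
  rfl

theorem exists_insMap {M : BMap} (h : M.IsGood) (hs : ¬ IsSer M) (h6 : 4 ≤ Fintype.card M.D) :
    ∃ (N : BMap) (k : ℕ), N.IsGood ∧ 0 < k ∧ k < N.rl ∧ BIso M (insMap N k) := by
  classical
  obtain ⟨s', c0, c1, hc, hM⟩ := exists_ins M h
  have hinv : ∀ t, M.a (M.a t) = t := fun t => Sum.inl_injective (h.inv (Sum.inl t))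
  have hfpf : ∀ t, M.a t ≠ t := fun t ht => h.fpf (Sum.inl t) (congrArg Sum.inl ht)
  have hg : Good (ext M.a) (insS s' c0 c1) := by
    have h1 : Good M.aa M.s := h
    rw [hM] at h1
    exact h1
  have hgood : Good M.a s' :=
    { inv := hinv
      fpf := hfpf
      ns := InsSurj.ns h hs hc hM
      pl := Pl.del hinv hc hg.pl
      big := h6 }
  have hface := hg.sameFace hc
  obtain ⟨N, e, e1, e2, e3⟩ := exists_BMap M.a s' c0 hinv hfpf
  have hN : N.IsGood := Good_iso e e1 e2 hgood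
  have e12 : ∀ t, e ((M.a * s') t) = (N.aa * N.s) (e t) := fun t => by
    rw [Perm.mul_apply, Perm.mul_apply, e1, e2]
  have epow : ∀ (k : ℕ) t, e (((M.a * s') ^ k) t) = ((N.aa * N.s) ^ k) (e t) := by
    intro k
    induction k with
    | zero => intro t; rfl
    | succ k ih =>
      intro t
      rw [pow_succ' (M.a * s'), pow_succ' (N.aa * N.s)]
      change e ((M.a * s') (((M.a * s') ^ k) t)) = (N.aa * N.s) (((N.aa * N.s) ^ k) (e t))
      rw [e12, ih]
  obtain ⟨k0, -, hk0⟩ := hface.exists_pow_eq'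
  -- the period
  have hper : 0 < N.rl := by
    have := hN.two_le_rl
    omega
  have hmod : ((N.aa * N.s) ^ (k0 % N.rl)) (Sum.inr true) = e c1 := by
    have h1 : ((N.aa * N.s) ^ k0) (Sum.inr true) = e c1 := by
      rw [← e3, ← epow, hk0]
    have h2 : ∀ j : ℕ, ((N.aa * N.s) ^ j) (Sum.inr true) =
        (fun t => (N.aa * N.s) t)^[j] (Sum.inr true) := by
      intro j
      induction j with
      | zero => rfl
      | succ j ih => rw [pow_succ', Perm.mul_apply, ih, Function.iterate_succ_apply']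
    rw [h2] at h1 ⊢
    rw [← h1]
    exact Function.iterate_mod_minimalPeriod_eq
  have hk : 0 < k0 % N.rl := by
    rcases Nat.eq_zero_or_pos (k0 % N.rl) with h1 | h1
    · exfalso
      rw [h1, pow_zero, Perm.one_apply, ← e3] at hmod
      exact hc (e.injective hmod)
    · exact h1
  refine ⟨N, k0 % N.rl, hN, hk, Nat.mod_lt _ hper, Equiv.sumCongr e (Equiv.refl Bool), ?_, ?_, rfl⟩
  · rintro (t | b)
    · exact congrArg Sum.inl (e1 t)
    · rfl
  · intro t
    have h1 := InsSurj.insS_iso e e2 hc t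
    rw [e3, ← hmod] at h1
    rw [hM]
    exact h1

end PGr
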