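import Pool.Agent.PGr.SumLib
import Pool.Agent.PGr.InsSurj
import Pool.Agent.PGr.SerSurj
import Pool.Agent.PGr.SerRl
import Pool.Agent.PGr.InsMap
import Pool.Agent.PGr.Digon
import Pool.Agent.PGr.CutIso

/-! # Module TUpper: upper recursion for the truncated generating functions -/

set_option linter.unusedSectionVars false

namespace PGr
open Equiv Finset
open scoped ENNReal Classical

variable (s y : ℝ≥0∞)

namespace TUpper

theorem Esel_le {P Q : BMap → Prop} (h : ∀ c : GC, P c.rep.1 → Q c.rep.1) :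
    Esel s y P ≤ Esel s y Q := by
  refine ENNReal.tsum_le_tsum fun c => ?_
  by_cases hP : P c.rep.1
  · rw [if_pos hP, if_pos (h c hP)]
  · rw [if_neg hP]; exact zero_le

theorem Esel_false {P : BMap → Prop} (h : ∀ c : GC, ¬ P c.rep.1) : Esel s y P = 0 := by
  rw [Esel, ENNReal.tsum_eq_zero]
  intro c
  rw [if_neg (h c)]

theorem insMap_iso {N N' : BMap} (h : BIso N N') (k : ℕ) : BIso (insMap N k) (insMap N' k) := by
  obtain ⟨e, h1, h2, h3⟩ := h
  have h4 : ∀ t, e ((N.aa * N.s) t) = (N'.aa * N'.s) (e t) := by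
    intro t; rw [Perm.mul_apply, Perm.mul_apply, h1, h2]
  have h5 : ∀ j t, e (((N.aa * N.s) ^ j) t) = ((N'.aa * N'.s) ^ j) (e t) := by
    intro j
    induction j with
    | zero => intro t; rfl
    | succ j ih =>
      intro t
      rw [pow_succ, pow_succ]
      show e (((N.aa * N.s) ^ j) ((N.aa * N.s) t)) = ((N'.aa * N'.s) ^ j) ((N'.aa * N'.s) (e t))
      rw [ih, h4]
  refine ⟨Equiv.sumCongr e (Equiv.refl Bool), ?_, ?_, rfl⟩
  · rintro (t | b)
    · exact congrArg Sum.inl (h1 t)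
    · rfl
  · intro t
    change (Equiv.sumCongr e (Equiv.refl Bool)) (insS N.s (Sum.inr true)
      (((N.aa * N.s) ^ k) (Sum.inr true)) t) = insS N'.s (Sum.inr true)
      (((N'.aa * N'.s) ^ k) (Sum.inr true)) ((Equiv.sumCongr e (Equiv.refl Bool)) t)
    have h6 := h5 k (Sum.inr true)
    rw [h3] at h6
    rw [insS, insS, Perm.mul_apply, Perm.mul_apply, Perm.mul_apply, Perm.mul_apply, ← h6]
    have h7 : ∀ t : N.T ⊕ Bool, (Equiv.sumCongr e (Equiv.refl Bool))
        ((Perm.sumCongr N.s (1 : Perm Bool)) t) =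
        (Perm.sumCongr N'.s (1 : Perm Bool)) ((Equiv.sumCongr e (Equiv.refl Bool)) t) := by
      rintro (t | b)
      · exact congrArg Sum.inl (h2 t)
      · rfl
    have h8 : ∀ x z t : N.T ⊕ Bool, (Equiv.sumCongr e (Equiv.refl Bool)) (swap x z t) =
        swap (Equiv.sumCongr e (Equiv.refl Bool) x) (Equiv.sumCongr e (Equiv.refl Bool) z)
          (Equiv.sumCongr e (Equiv.refl Bool) t) := by
      intro x z t
      exact (Equiv.sumCongr e (Equiv.refl Bool)).injective.map_swap x z t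
    rw [h7, h8, h8]
    have h9 : ∀ t : N.T, (Equiv.sumCongr e (Equiv.refl Bool)) (Sum.inl t : N.T ⊕ Bool) =
      Sum.inl (e t) := fun _ => rfl
    have h10 : ∀ t : Bool, (Equiv.sumCongr e (Equiv.refl Bool)) (Sum.inr t : N.T ⊕ Bool) =
      Sum.inr t := fun _ => rfl
    rw [h9, h9, h10, h10, h3]

theorem rep_mk (N : GB) : BIso (GC.rep (Quotient.mk bSetoid N)).1 N.1 := Quotient.mk_out N

theorem eq_of_rep {c c' : GC} (h : BIso c.rep.1 c'.rep.1) : c = c' := by
  rw [← Quotient.out_eq c, ← Quotient.out_eq c']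
  exact Quotient.sound h

/-- nonroot darts of an insertion -/
theorem card_insMap (N : BMap) (k : ℕ) :
    Fintype.card (insMap N k).D = Fintype.card N.D + 2 := by
  change Fintype.card (N.D ⊕ Bool) = _
  rw [Fintype.card_sum]; rfl

theorem W_insMap {N : BMap} {k : ℕ} (h : N.IsGood) (hk : 0 < k) (hk' : k < N.rl) :
    W s y (insMap N k) = y * W s y N := by
  have e : (Fintype.card N.D + 2) / 2 = Fintype.card N.D / 2 + 1 := by omega
  rw [W, W, card_insMap, insMap_nV h hk hk', e, pow_succ]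
  ring

theorem exists_ins_class {c : GC} (h : ¬ IsSer c.rep.1) (h4 : 4 ≤ Fintype.card c.rep.1.D) :
    ∃ c' : GC, Fintype.card c.rep.1.D = Fintype.card c'.rep.1.D + 2 ∧
      ∃ k, 0 < k ∧ k < c'.rep.1.rl ∧ c.rep.1.rl = k + 1 ∧
      BIso c.rep.1 (insMap c'.rep.1 k) ∧ W s y c.rep.1 = y * W s y c'.rep.1 := by
  obtain ⟨N, k, hN, hk, hk', hi⟩ := exists_insMap c.rep.2 h h4
  have h1 := rep_mk ⟨N, hN⟩
  have h2 : BIso c.rep.1 (insMap (GC.rep (Quotient.mk bSetoid ⟨N, hN⟩)).1 k) :=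
    hi.trans (insMap_iso h1.symm k)
  have h3 : k < (GC.rep (Quotient.mk bSetoid ⟨N, hN⟩)).1.rl := by
    rw [h1.rl_eq]; exact hk'
  refine ⟨Quotient.mk bSetoid ⟨N, hN⟩, ?_, k, hk, h3, ?_, h2, ?_⟩
  · rw [h2.card_eq, card_insMap]
  · rw [hi.rl_eq, insMap_rl hN hk hk']
  · rw [h2.W_eq, W_insMap s y (GC.rep _).2 hk h3]

theorem W_serMap (N₁ N₂ : GB) : W s y (serMap N₁ N₂) = s * (W s y N₁.1 * W s y N₂.1) := by
  obtain ⟨k1, hk1, h1⟩ := card_D_even N₁.2
  obtain ⟨k2, hk2, h2⟩ := card_D_even N₂.2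
  have h3 := serMap_nV N₁ N₂
  have h4 := Good.two_le_nV N₁.2
  have h5 := Good.two_le_nV N₂.2
  have e1 : nV (serMap N₁ N₂).s - 2 = 1 + (nV N₁.1.s - 2) + (nV N₂.1.s - 2) := by omega
  have e2 : (Fintype.card N₁.1.D + Fintype.card N₂.1.D) / 2 =
    Fintype.card N₁.1.D / 2 + Fintype.card N₂.1.D / 2 := by omega
  rw [W, W, W, serMap_card, e1, e2, pow_add, pow_add, pow_add, pow_one]
  ring

theorem exists_ser_class {c : GC} (h : IsSer c.rep.1) :
    ∃ p : GC × GC, ¬ IsSer p.1.rep.1 ∧ BIso c.rep.1 (serMap p.1.rep p.2.rep) ∧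
      Fintype.card c.rep.1.D = Fintype.card p.1.rep.1.D + Fintype.card p.2.rep.1.D ∧
      c.rep.1.rl + 1 = p.1.rep.1.rl + p.2.rep.1.rl ∧
      W s y c.rep.1 = s * (W s y p.1.rep.1 * W s y p.2.rep.1) := by
  obtain ⟨N₁, N₂, h1, h2⟩ := exists_serMap c.rep.2 h
  have e1 := rep_mk N₁
  have e2 := rep_mk N₂
  have h3 : BIso c.rep.1 (serMap (GC.rep (Quotient.mk bSetoid N₁))
      (GC.rep (Quotient.mk bSetoid N₂))) := h2.trans (serMap_iso e1.symm e2.symm)
  refine ⟨(Quotient.mk bSetoid N₁, Quotient.mk bSetoid N₂), fun hs => h1 (e1.ser hs), h3, ?_, ?_,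
    ?_⟩
  · rw [h3.card_eq, serMap_card]
  · rw [h3.rl_eq, serMap_rl]
  · rw [h3.W_eq, W_serMap]

theorem sum_rl_le (f : GC → ℝ≥0∞) (g : GC → ℝ≥0∞) (P : ℕ → GC → Prop)
    [∀ l c, Decidable (P l c)] (m : GC → ℕ) (h : ∀ c, g c ≠ 0 → P (m c) c ∧ g c ≤ f c) :
    ∑' c, g c ≤ ∑' l, ∑' c, (if P l c then f c else 0) := by
  rw [ENNReal.tsum_comm]
  refine ENNReal.tsum_le_tsum fun c => ?_
  by_cases hg : g c = 0
  · rw [hg]; exact zero_le
  · obtain ⟨h1, h2⟩ := h c hg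
    refine le_trans ?_ (ENNReal.le_tsum (m c))
    rw [if_pos h1]; exact h2

end TUpper

open TUpper

theorem tl_zero (l : ℕ) : tl s y 0 l = 0 := by
  refine Esel_false s y fun c h => ?_
  obtain ⟨k, hk, hc⟩ := card_D_even c.rep.2
  have := h.1
  omega
theorem tl_zero' (n : ℕ) : tl s y n 0 = 0 := by
  refine Esel_false s y fun c h => ?_
  have := BMap.IsGood.two_le_rl c.rep.2
  have := h.2
  omega
theorem al_le_tl (n l : ℕ) : al s y n l ≤ tl s y n l :=
  Esel_le s y fun c h => ⟨h.1, h.2.1⟩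
theorem al_mono (n l : ℕ) : al s y n l ≤ al s y (n + 1) l :=
  Esel_le s y fun c h => ⟨h.1.trans (Nat.le_succ n), h.2⟩

theorem al_le (n l : ℕ) (hl : 0 < l) :
    al s y (n + 1) l ≤ (if l = 1 then y else 0) + y * ∑' m, (if l ≤ m then tl s y n m else 0) := by
  have key : ∀ c : GC, ∃ c' : GC, (¬ IsSer c.rep.1 → 4 ≤ Fintype.card c.rep.1.D →
      Fintype.card c.rep.1.D = Fintype.card c'.rep.1.D + 2 ∧
      ∃ k, 0 < k ∧ k < c'.rep.1.rl ∧ c.rep.1.rl = k + 1 ∧
      BIso c.rep.1 (insMap c'.rep.1 k) ∧ W s y c.rep.1 = y * W s y c'.rep.1) := by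
    intro c
    by_cases h : ¬ IsSer c.rep.1 ∧ 4 ≤ Fintype.card c.rep.1.D
    · obtain ⟨c', hc'⟩ := exists_ins_class s y h.1 h.2
      exact ⟨c', fun _ _ => hc'⟩
    · exact ⟨c, fun h1 h2 => absurd ⟨h1, h2⟩ h⟩
  choose φ hφ using key
  set f : GC → ℝ≥0∞ := fun c => if (Fintype.card c.rep.1.D ≤ n + 1 ∧ c.rep.1.rl = l + 1 ∧
    ¬ IsSer c.rep.1) then W s y c.rep.1 else 0 with hf
  have e0 : al s y (n + 1) l = ∑' c, f c := by
    rw [al, Esel]
    refine tsum_congr fun c => ?_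
    simp only [hf]
    congr
  have e1 : ∑' c, f c = ∑' c, (if Fintype.card c.rep.1.D < 4 then f c else 0) +
      ∑' c, (if 4 ≤ Fintype.card c.rep.1.D then f c else 0) := by
    rw [← ENNReal.tsum_add]
    refine tsum_congr fun c => ?_
    by_cases h : Fintype.card c.rep.1.D < 4
    · rw [if_pos h, if_neg (not_le.2 h), add_zero]
    · rw [if_neg h, if_pos (not_lt.1 h), zero_add]
  rw [e0, e1]
  refine add_le_add ?_ ?_
  · -- the digon
    set c0 : GC := Quotient.mk bSetoid ⟨digonB, digon_good⟩ with hc0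
    have h0 : BIso c0.rep.1 digonB := rep_mk _
    rw [tsum_eq_single c0]
    · split_ifs with h1 h2
      · have hW : W s y c0.rep.1 = y := by
          rw [h0.W_eq, W, digon_nV]
          have : Fintype.card digonB.D = 2 := rfl
          rw [this]; simp
        simp only [hf]
        split_ifs
        · rw [hW]
        · exact zero_le
      · have h3 : c0.rep.1.rl = 2 := by rw [h0.rl_eq, digon_rl]
        simp only [hf]
        rw [if_neg]
        rintro ⟨_, h4, _⟩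
        omega
      · exact zero_le
      · exact zero_le
    · intro c hc
      rw [if_neg]
      intro h1
      exact hc (eq_of_rep ((eq_digon c.rep.2 h1).trans h0.symm))
  · -- insertions
    set g : GC → ℝ≥0∞ := fun c => if (Fintype.card c.rep.1.D ≤ n ∧ l < c.rep.1.rl) then
      y * W s y c.rep.1 else 0 with hg
    have h1 : ∑' c, (if 4 ≤ Fintype.card c.rep.1.D then f c else 0) ≤ ∑' c, g c := by
      have hsupp : ∀ c : GC, (if 4 ≤ Fintype.card c.rep.1.D then f c else 0) ≠ 0 →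
          4 ≤ Fintype.card c.rep.1.D ∧ Fintype.card c.rep.1.D ≤ n + 1 ∧ c.rep.1.rl = l + 1 ∧
            ¬ IsSer c.rep.1 := by
        intro c hc
        by_cases h4 : 4 ≤ Fintype.card c.rep.1.D
        · rw [if_pos h4] at hc
          simp only [hf] at hc
          by_cases h5 : (Fintype.card c.rep.1.D ≤ n + 1 ∧ c.rep.1.rl = l + 1 ∧ ¬ IsSer c.rep.1)
          · exact ⟨h4, h5⟩
          · rw [if_neg h5] at hc; exact absurd rfl hc
        · rw [if_neg h4] at hc; exact absurd rfl hc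
      refine tsum_le_tsum_of_injOn φ ?_ ?_
      · intro c c' hc hc' he
        obtain ⟨a1, a2, a3, a4⟩ := hsupp c hc
        obtain ⟨b1, b2, b3, b4⟩ := hsupp c' hc'
        obtain ⟨_, k, _, _, hk, hi, _⟩ := hφ c a4 a1
        obtain ⟨_, k', _, _, hk', hi', _⟩ := hφ c' b4 b1
        have hkk : k = k' := by omega
        subst hkk
        rw [← he] at hi'
        exact eq_of_rep (hi.trans hi'.symm)
      · intro c hc
        obtain ⟨a1, a2, a3, a4⟩ := hsupp c hc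
        obtain ⟨b1, k, b2, b3, hk, hi, hW⟩ := hφ c a4 a1
        rw [if_pos a1]
        simp only [hf, hg]
        rw [if_pos ⟨a2, a3, a4⟩, if_pos ⟨by omega, by omega⟩, hW]
    refine h1.trans ?_
    have h2 : y * ∑' m, (if l ≤ m then tl s y n m else 0) =
        ∑' m, ∑' c : GC, (if (l ≤ m ∧ Fintype.card c.rep.1.D ≤ n ∧ c.rep.1.rl = m + 1) then
          y * W s y c.rep.1 else 0) := by
      rw [← ENNReal.tsum_mul_left]
      refine tsum_congr fun m => ?_
      by_cases hm : l ≤ m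
      · rw [if_pos hm, tl, Esel, ← ENNReal.tsum_mul_left]
        refine tsum_congr fun c => ?_
        by_cases h3 : Fintype.card c.rep.1.D ≤ n ∧ c.rep.1.rl = m + 1
        · rw [if_pos h3, if_pos ⟨hm, h3⟩]
        · rw [if_neg h3, if_neg (fun h4 => h3 h4.2), mul_zero]
      · rw [if_neg hm, mul_zero]
        symm
        rw [ENNReal.tsum_eq_zero]
        intro c
        rw [if_neg (fun h4 => hm h4.1)]
    rw [h2]
    refine sum_rl_le (fun c => y * W s y c.rep.1) g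
      (fun m c => l ≤ m ∧ Fintype.card c.rep.1.D ≤ n ∧ c.rep.1.rl = m + 1)
      (fun c => c.rep.1.rl - 1) ?_
    intro c hc
    simp only [hg] at hc ⊢
    by_cases h3 : Fintype.card c.rep.1.D ≤ n ∧ l < c.rep.1.rl
    · rw [if_pos h3]
      refine ⟨⟨by omega, h3.1, ?_⟩, le_rfl⟩
      have := BMap.IsGood.two_le_rl c.rep.2
      omega
    · rw [if_neg h3] at hc; exact absurd rfl hc

theorem tl_le (n l : ℕ) :
    tl s y (n + 1) l ≤ al s y (n + 1) l + s * ∑ p ∈ antidiagonal l, al s y n p.1 * tl s y n p.2 := by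
  have key : ∀ c : GC, ∃ p : GC × GC, (IsSer c.rep.1 → ¬ IsSer p.1.rep.1 ∧
      BIso c.rep.1 (serMap p.1.rep p.2.rep) ∧
      Fintype.card c.rep.1.D = Fintype.card p.1.rep.1.D + Fintype.card p.2.rep.1.D ∧
      c.rep.1.rl + 1 = p.1.rep.1.rl + p.2.rep.1.rl ∧
      W s y c.rep.1 = s * (W s y p.1.rep.1 * W s y p.2.rep.1)) := by
    intro c
    by_cases h : IsSer c.rep.1
    · obtain ⟨p, hp⟩ := exists_ser_class s y h
      exact ⟨p, fun _ => hp⟩
    · exact ⟨(c, c), fun h1 => absurd h1 h⟩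
  choose φ hφ using key
  set f : GC → ℝ≥0∞ := fun c => if (Fintype.card c.rep.1.D ≤ n + 1 ∧ c.rep.1.rl = l + 1 ∧
    IsSer c.rep.1) then W s y c.rep.1 else 0 with hf
  have e1 : tl s y (n + 1) l = al s y (n + 1) l + ∑' c, f c := by
    rw [tl, al, Esel, Esel, ← ENNReal.tsum_add]
    refine tsum_congr fun c => ?_
    simp only [hf]
    by_cases h1 : IsSer c.rep.1 <;>
      by_cases h2 : Fintype.card c.rep.1.D ≤ n + 1 ∧ c.rep.1.rl = l + 1
    · rw [if_pos h2, if_neg (fun h => h.2.2 h1), if_pos ⟨h2.1, h2.2, h1⟩, zero_add]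
    · rw [if_neg h2, if_neg (fun h => h2 ⟨h.1, h.2.1⟩), if_neg (fun h => h2 ⟨h.1, h.2.1⟩), zero_add]
    · rw [if_pos h2, if_pos ⟨h2.1, h2.2, h1⟩, if_neg (fun h => h1 h.2.2), add_zero]
    · rw [if_neg h2, if_neg (fun h => h2 ⟨h.1, h.2.1⟩), if_neg (fun h => h2 ⟨h.1, h.2.1⟩), zero_add]
  rw [e1]
  gcongr
  set g : GC × GC → ℝ≥0∞ := fun p => if (Fintype.card p.1.rep.1.D ≤ n ∧
    Fintype.card p.2.rep.1.D ≤ n ∧ p.1.rep.1.rl + p.2.rep.1.rl = l + 2 ∧ ¬ IsSer p.1.rep.1) then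
      s * (W s y p.1.rep.1 * W s y p.2.rep.1) else 0 with hg
  have hsupp : ∀ c : GC, f c ≠ 0 →
      Fintype.card c.rep.1.D ≤ n + 1 ∧ c.rep.1.rl = l + 1 ∧ IsSer c.rep.1 := by
    intro c hc
    by_contra h5
    simp only [hf] at hc
    rw [if_neg h5] at hc
    exact hc rfl
  have h1 : ∑' c, f c ≤ ∑' p, g p := by
    refine tsum_le_tsum_of_injOn φ ?_ ?_
    · intro c c' hc hc' he
      obtain ⟨a2, a3, a4⟩ := hsupp c hc
      obtain ⟨b2, b3, b4⟩ := hsupp c' hc'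
      obtain ⟨_, hi, _⟩ := hφ c a4
      obtain ⟨_, hi', _⟩ := hφ c' b4
      rw [← he] at hi'
      exact eq_of_rep (hi.trans hi'.symm)
    · intro c hc
      obtain ⟨a2, a3, a4⟩ := hsupp c hc
      obtain ⟨b1, b2, b3, b4, b5⟩ := hφ c a4
      obtain ⟨k1, hk1, hk1'⟩ := card_D_even (φ c).1.rep.2
      obtain ⟨k2, hk2, hk2'⟩ := card_D_even (φ c).2.rep.2
      simp only [hf, hg]
      rw [if_pos ⟨a2, a3, a4⟩, if_pos ⟨by omega, by omega, by omega, b1⟩, b5]
  refine h1.trans ?_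
  have h2 : s * ∑ p ∈ antidiagonal l, al s y n p.1 * tl s y n p.2 =
      ∑' q : GC × GC, ∑ p ∈ antidiagonal l,
        (if (Fintype.card q.1.rep.1.D ≤ n ∧ q.1.rep.1.rl = p.1 + 1 ∧ ¬ IsSer q.1.rep.1) ∧
          (Fintype.card q.2.rep.1.D ≤ n ∧ q.2.rep.1.rl = p.2 + 1) then
          s * (W s y q.1.rep.1 * W s y q.2.rep.1) else 0) := by
    rw [Summable.tsum_finsetSum (fun _ _ => ENNReal.summable), mul_sum]
    refine sum_congr rfl fun p _ => ?_
    rw [al, tl, Esel, Esel, tsum_prod_mul, ← ENNReal.tsum_mul_left]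
    refine tsum_congr fun q => ?_
    by_cases a1 : (Fintype.card q.1.rep.1.D ≤ n ∧ q.1.rep.1.rl = p.1 + 1 ∧ ¬ IsSer q.1.rep.1) <;>
    by_cases a2 : (Fintype.card q.2.rep.1.D ≤ n ∧ q.2.rep.1.rl = p.2 + 1)
    · rw [if_pos a1, if_pos a2, if_pos ⟨a1, a2⟩]
    · rw [if_pos a1, if_neg a2, if_neg (fun h => a2 h.2), mul_zero, mul_zero]
    · rw [if_neg a1, if_pos a2, if_neg (fun h => a1 h.1), zero_mul, mul_zero]
    · rw [if_neg a1, if_neg a2, if_neg (fun h => a1 h.1), zero_mul, mul_zero]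
  rw [h2]
  refine ENNReal.tsum_le_tsum fun q => ?_
  by_cases h3 : (Fintype.card q.1.rep.1.D ≤ n ∧
    Fintype.card q.2.rep.1.D ≤ n ∧ q.1.rep.1.rl + q.2.rep.1.rl = l + 2 ∧ ¬ IsSer q.1.rep.1)
  · have r1 := BMap.IsGood.two_le_rl q.1.rep.2
    have r2 := BMap.IsGood.two_le_rl q.2.rep.2
    have hm : (q.1.rep.1.rl - 1, q.2.rep.1.rl - 1) ∈ antidiagonal l := by
      rw [HasAntidiagonal.mem_antidiagonal]
      show q.1.rep.1.rl - 1 + (q.2.rep.1.rl - 1) = l
      omega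
    refine le_trans ?_ (single_le_sum (f := fun p : ℕ × ℕ =>
        (if (Fintype.card q.1.rep.1.D ≤ n ∧ q.1.rep.1.rl = p.1 + 1 ∧ ¬ IsSer q.1.rep.1) ∧
          (Fintype.card q.2.rep.1.D ≤ n ∧ q.2.rep.1.rl = p.2 + 1) then
          s * (W s y q.1.rep.1 * W s y q.2.rep.1) else 0)) (fun _ _ => zero_le) hm)
    simp only [hg]
    rw [if_pos h3, if_pos ⟨⟨h3.1, by omega, h3.2.2.2⟩, h3.2.1, by omega⟩]
  · simp only [hg]
    rw [if_neg h3]
    exact zero_le

theorem Es_le_of_trunc (B : ℝ≥0∞) (h : ∀ n, ∑' l, tl s y n l ≤ B) : Es s y ≤ B := by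
  rw [Es, Esel]
  simp only [if_true]
  refine tsum_le_of_trunc _ (fun c : GC => Fintype.card c.rep.1.D) B fun n => ?_
  refine le_trans ?_ (h n)
  have e : ∑' l, tl s y n l = ∑' l, ∑' c : GC,
      (if (Fintype.card c.rep.1.D ≤ n ∧ c.rep.1.rl = l + 1) then W s y c.rep.1 else 0) := by
    refine tsum_congr fun l => ?_
    rw [tl, Esel]
    refine tsum_congr fun c => ?_
    congr
  rw [e]
  refine sum_rl_le (fun c => W s y c.rep.1) _
      (fun m c => Fintype.card c.rep.1.D ≤ n ∧ c.rep.1.rl = m + 1)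
      (fun c => c.rep.1.rl - 1) ?_
  intro c hc
  by_cases h3 : Fintype.card c.rep.1.D ≤ n
  · rw [if_pos h3]
    refine ⟨⟨h3, ?_⟩, le_rfl⟩
    have := BMap.IsGood.two_le_rl c.rep.2
    omega
  · rw [if_neg h3] at hc; exact absurd rfl hc

end PGr
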