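import Pool.Agent.PGr.SumLib
import Pool.Agent.PGr.InsMap
import Pool.Agent.PGr.SerInj
import Pool.Agent.PGr.SerRl
import Pool.Agent.PGr.TriProps
import Pool.Agent.PGr.Digon
import Pool.Agent.PGr.CutIso
import Pool.Agent.PGr.TUpper

/-! # Module TLower: lower recursion for the generating functions by root face length -/

set_option linter.unusedSectionVars false

namespace PGr
open Equiv Finset
open scoped ENNReal Classical

variable (s y : ℝ≥0∞)

namespace TLower
open TUpper

/-- exchange of sums when the index `l` is a function of `c` -/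
theorem sum_rl_eq (g : GC → ℝ≥0∞) (f : GC → ℝ≥0∞) (P : ℕ → GC → Prop)
    [∀ l c, Decidable (P l c)] (m : GC → ℕ) (h1 : ∀ l c, P l c → l = m c)
    (h2 : ∀ c, (if P (m c) c then f c else 0) = g c) :
    ∑' l, ∑' c, (if P l c then f c else 0) = ∑' c, g c := by
  rw [ENNReal.tsum_comm]
  refine tsum_congr fun c => ?_
  rw [tsum_eq_single (m c), h2]
  intro l hl
  rw [if_neg (fun h => hl (h1 l c h))]

end TLower

open TUpper TLower

theorem aL_ge (l : ℕ) (hl : 0 < l) :
    (if l = 1 then y else 0) + y * ∑' m, (if l ≤ m then tL s y m else 0) ≤ aL s y l := by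
  set f : GC → ℝ≥0∞ := fun c => if (c.rep.1.rl = l + 1 ∧
    ¬ IsSer c.rep.1) then W s y c.rep.1 else 0 with hf
  have e0 : aL s y l = ∑' c, f c := by
    rw [aL, Esel]
    refine tsum_congr fun c => ?_
    simp only [hf]
    congr
  have e1 : ∑' c, f c = ∑' c, (if Fintype.card c.rep.1.D < 4 then f c else 0) +
      ∑' c, (if 4 ≤ Fintype.card c.rep.1.D then f c else 0) := by
    rw [← ENNReal.tsum_add]
    refine tsum_congr fun c => ?_
    by_cases h : Fintype.card c.rep.1.D < 4
    · rw [if_pos h, if_neg (not_le.2 h), add_zero]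
    · rw [if_neg h, if_pos (not_lt.1 h), zero_add]
  rw [e0, e1]
  refine add_le_add ?_ ?_
  · -- the digon
    set c0 : GC := Quotient.mk bSetoid ⟨digonB, digon_good⟩ with hc0
    have h0 : BIso c0.rep.1 digonB := rep_mk _
    refine le_trans ?_ (ENNReal.le_tsum c0)
    split_ifs with h1 h2 h2
    · have hW : W s y c0.rep.1 = y := by
        rw [h0.W_eq, W, digon_nV]
        have : Fintype.card digonB.D = 2 := rfl
        rw [this]; simp
      simp only [hf]
      rw [if_pos ⟨by rw [h0.rl_eq, digon_rl, h1], fun h => digon_not_ser (h0.ser h)⟩, hW]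
    · exfalso
      rw [h0.card_eq] at h2
      exact h2 (by decide)
    · exact zero_le
    · exact zero_le
  · -- insertions
    set g : GC → ℝ≥0∞ := fun c => if (l < c.rep.1.rl) then
      y * W s y c.rep.1 else 0 with hg
    have h2 : y * ∑' m, (if l ≤ m then tL s y m else 0) =
        ∑' m, ∑' c : GC, (if (l ≤ m ∧ c.rep.1.rl = m + 1) then
          y * W s y c.rep.1 else 0) := by
      rw [← ENNReal.tsum_mul_left]
      refine tsum_congr fun m => ?_
      by_cases hm : l ≤ m
      · rw [if_pos hm, tL, Esel, ← ENNReal.tsum_mul_left]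
        refine tsum_congr fun c => ?_
        by_cases h3 : c.rep.1.rl = m + 1
        · rw [if_pos h3, if_pos ⟨hm, h3⟩]
        · rw [if_neg h3, if_neg (fun h4 => h3 h4.2), mul_zero]
      · rw [if_neg hm, mul_zero]
        symm
        rw [ENNReal.tsum_eq_zero]
        intro c
        rw [if_neg (fun h4 => hm h4.1)]
    have h3 : y * ∑' m, (if l ≤ m then tL s y m else 0) = ∑' c, g c := by
      rw [h2]
      refine sum_rl_eq g (fun c => y * W s y c.rep.1) (fun m c => l ≤ m ∧ c.rep.1.rl = m + 1)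
        (fun c => c.rep.1.rl - 1) ?_ ?_
      · intro m c h
        have := h.2
        show m = c.rep.1.rl - 1
        omega
      · intro c
        have r1 := BMap.IsGood.two_le_rl c.rep.2
        simp only [hg]
        by_cases h4 : l < c.rep.1.rl
        · rw [if_pos h4, if_pos ⟨by omega, by omega⟩]
        · rw [if_neg h4, if_neg (fun h => h4 (by have := h.1; omega))]
    rw [h3]
    set φ : GC → GC := fun c => if h : l < c.rep.1.rl then
      Quotient.mk bSetoid ⟨insMap c.rep.1 l, insMap_good c.rep.2 hl h⟩ else c with hφ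
    have hsupp : ∀ c : GC, g c ≠ 0 → l < c.rep.1.rl := by
      intro c hc
      by_contra h4
      simp only [hg] at hc
      rw [if_neg h4] at hc
      exact hc rfl
    have hφ' : ∀ c : GC, l < c.rep.1.rl → BIso (φ c).rep.1 (insMap c.rep.1 l) := by
      intro c hc
      simp only [hφ]
      rw [dif_pos hc]
      exact rep_mk _
    refine tsum_le_tsum_of_injOn φ ?_ ?_
    · intro c c' hc hc' he
      have h5 := hφ' c (hsupp c hc)
      have h6 := hφ' c' (hsupp c' hc')
      rw [← he] at h6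
      exact eq_of_rep (insMap_inj c.rep.2 hl (hsupp c hc) c'.rep.2 hl (hsupp c' hc')
        (h5.symm.trans h6))
    · intro c hc
      have h4 := hsupp c hc
      have h5 := hφ' c h4
      obtain ⟨k, hk, hk'⟩ := card_D_even c.rep.2
      have h6 : 4 ≤ Fintype.card (φ c).rep.1.D := by
        rw [h5.card_eq, card_insMap]; omega
      rw [if_pos h6]
      simp only [hg, hf]
      rw [if_pos h4, if_pos ⟨by rw [h5.rl_eq, insMap_rl c.rep.2 hl h4],
        fun h => insMap_not_ser c.rep.2 hl h4 (h5.ser h)⟩, h5.W_eq, W_insMap s y c.rep.2 hl h4]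

theorem tL_ge (l : ℕ) :
    aL s y l + s * ∑ p ∈ antidiagonal l, aL s y p.1 * tL s y p.2 ≤ tL s y l := by
  set f : GC → ℝ≥0∞ := fun c => if (c.rep.1.rl = l + 1 ∧
    IsSer c.rep.1) then W s y c.rep.1 else 0 with hf
  have e1 : tL s y l = aL s y l + ∑' c, f c := by
    rw [tL, aL, Esel, Esel, ← ENNReal.tsum_add]
    refine tsum_congr fun c => ?_
    simp only [hf]
    by_cases h1 : IsSer c.rep.1 <;>
      by_cases h2 : c.rep.1.rl = l + 1
    · rw [if_pos h2, if_neg (fun h => h.2 h1), if_pos ⟨h2, h1⟩, zero_add]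
    · rw [if_neg h2, if_neg (fun h => h2 h.1), if_neg (fun h => h2 h.1), zero_add]
    · rw [if_pos h2, if_pos ⟨h2, h1⟩, if_neg (fun h => h1 h.2), add_zero]
    · rw [if_neg h2, if_neg (fun h => h2 h.1), if_neg (fun h => h2 h.1), zero_add]
  rw [e1]
  gcongr
  set g : GC × GC → ℝ≥0∞ := fun p => if (p.1.rep.1.rl + p.2.rep.1.rl = l + 2 ∧
    ¬ IsSer p.1.rep.1) then s * (W s y p.1.rep.1 * W s y p.2.rep.1) else 0 with hg
  have h2 : s * ∑ p ∈ antidiagonal l, aL s y p.1 * tL s y p.2 =
      ∑' q : GC × GC, ∑ p ∈ antidiagonal l,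
        (if (q.1.rep.1.rl = p.1 + 1 ∧ ¬ IsSer q.1.rep.1) ∧ (q.2.rep.1.rl = p.2 + 1) then
          s * (W s y q.1.rep.1 * W s y q.2.rep.1) else 0) := by
    rw [Summable.tsum_finsetSum (fun _ _ => ENNReal.summable), mul_sum]
    refine sum_congr rfl fun p _ => ?_
    rw [aL, tL, Esel, Esel, tsum_prod_mul, ← ENNReal.tsum_mul_left]
    refine tsum_congr fun q => ?_
    by_cases a1 : (q.1.rep.1.rl = p.1 + 1 ∧ ¬ IsSer q.1.rep.1) <;>
    by_cases a2 : (q.2.rep.1.rl = p.2 + 1)
    · rw [if_pos a1, if_pos a2, if_pos ⟨a1, a2⟩]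
    · rw [if_pos a1, if_neg a2, if_neg (fun h => a2 h.2), mul_zero, mul_zero]
    · rw [if_neg a1, if_pos a2, if_neg (fun h => a1 h.1), zero_mul, mul_zero]
    · rw [if_neg a1, if_neg a2, if_neg (fun h => a1 h.1), zero_mul, mul_zero]
  rw [h2]
  have h3 : ∀ q : GC × GC, ∑ p ∈ antidiagonal l,
        (if (q.1.rep.1.rl = p.1 + 1 ∧ ¬ IsSer q.1.rep.1) ∧ (q.2.rep.1.rl = p.2 + 1) then
          s * (W s y q.1.rep.1 * W s y q.2.rep.1) else 0) ≤ g q := by
    intro q
    have r1 := BMap.IsGood.two_le_rl q.1.rep.2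
    have r2 := BMap.IsGood.two_le_rl q.2.rep.2
    by_cases h4 : q.1.rep.1.rl + q.2.rep.1.rl = l + 2 ∧ ¬ IsSer q.1.rep.1
    · simp only [hg]
      rw [if_pos h4]
      rw [sum_eq_single (q.1.rep.1.rl - 1, q.2.rep.1.rl - 1)]
      · split_ifs
        · exact le_rfl
        · exact zero_le
      · rintro ⟨p1, p2⟩ _ hp
        rw [if_neg]
        rintro ⟨⟨a1, _⟩, a2⟩
        apply hp
        simp only at a1 a2
        rw [a1, a2]; rfl
      · intro hp
        exfalso
        apply hp
        rw [HasAntidiagonal.mem_antidiagonal]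
        show q.1.rep.1.rl - 1 + (q.2.rep.1.rl - 1) = l
        omega
    · rw [sum_eq_zero]
      · exact zero_le
      · rintro ⟨p1, p2⟩ hp
        rw [HasAntidiagonal.mem_antidiagonal] at hp
        simp only at hp
        rw [if_neg]
        rintro ⟨⟨a1, a3⟩, a2⟩
        simp only at a1 a2
        exact h4 ⟨by omega, a3⟩
  refine (ENNReal.tsum_le_tsum h3).trans ?_
  have hsupp : ∀ q : GC × GC, g q ≠ 0 → q.1.rep.1.rl + q.2.rep.1.rl = l + 2 ∧
    ¬ IsSer q.1.rep.1 := by
    intro c hc
    by_contra h4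
    simp only [hg] at hc
    rw [if_neg h4] at hc
    exact hc rfl
  have hφ' : ∀ q : GC × GC, BIso (GC.rep (Quotient.mk bSetoid
      ⟨serMap q.1.rep q.2.rep, serMap_good _ _⟩)).1 (serMap q.1.rep q.2.rep) := fun q => rep_mk _
  refine tsum_le_tsum_of_injOn (fun q : GC × GC => Quotient.mk bSetoid
      ⟨serMap q.1.rep q.2.rep, serMap_good _ _⟩) ?_ ?_
  · intro q q' hq hq' he
    have h5 := hφ' q
    have h6 := hφ' q'
    have he' : (Quotient.mk bSetoid ⟨serMap q.1.rep q.2.rep, serMap_good _ _⟩ : GC) =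
      Quotient.mk bSetoid ⟨serMap q'.1.rep q'.2.rep, serMap_good _ _⟩ := he
    rw [he'] at h5
    obtain ⟨i1, i2⟩ := serMap_inj (hsupp q hq).2 (hsupp q' hq').2 (h5.symm.trans h6)
    exact Prod.ext (eq_of_rep i1) (eq_of_rep i2)
  · intro q hq
    have h5 := hφ' q
    have h4 := hsupp q hq
    have h6 := serMap_rl q.1.rep q.2.rep
    simp only [hg, hf]
    rw [if_pos h4, if_pos]
    · rw [h5.W_eq, W_serMap]
    · refine ⟨?_, h5.symm.ser (serMap_isSer _ _)⟩
      rw [h5.rl_eq]
      omega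

theorem Es_eq_tsum : Es s y = ∑' l, tL s y l := by
  rw [Es, Esel]
  simp only [if_true]
  have e : ∑' l, tL s y l = ∑' l, ∑' c : GC,
      (if (c.rep.1.rl = l + 1) then W s y c.rep.1 else 0) := by
    refine tsum_congr fun l => ?_
    rw [tL, Esel]
    refine tsum_congr fun c => ?_
    congr
  rw [e]
  symm
  refine sum_rl_eq _ (fun c => W s y c.rep.1) (fun l c => c.rep.1.rl = l + 1)
    (fun c => c.rep.1.rl - 1) ?_ ?_
  · intro m c h
    show m = c.rep.1.rl - 1
    omega
  · intro c
    have r1 := BMap.IsGood.two_le_rl c.rep.2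
    show (if c.rep.1.rl = c.rep.1.rl - 1 + 1 then W s y c.rep.1 else 0) = _
    rw [if_pos (by omega)]

end PGr
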