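import Mathlib

/-! # The numerical parameters -/

namespace PGr
open scoped ENNReal

/-- weight of a vertex -/
noncomputable def rs : ℝ := 47 / 1250
/-- weight of an edge -/
noncomputable def ry : ℝ := 9519 / 20000
/-- `1 / γ` -/
noncomputable def rx : ℝ := 10 / 277
/-- `- log (1 - rx) ≤ rc * rx` -/
noncomputable def rc : ℝ := 10185 / 10000
/-- bound for the multisets of networks -/
noncomputable def rB : ℝ := 10502 / 10000

noncomputable def es : ℝ≥0∞ := ENNReal.ofReal rs
noncomputable def ey : ℝ≥0∞ := ENNReal.ofReal ry
noncomputable def ex : ℝ≥0∞ := ENNReal.ofReal rx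

end PGr
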