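import Pool.Agent.PGr.Consts

/-! # Module NumLo: iteration of the recursion of `TLower` -/

namespace PGr
open Finset
open scoped ENNReal Classical

namespace NumLo

/-- forces the evaluation of a natural number -/
def frc {α : Type} (x : ℕ) (f : ℕ → α) : α :=
  match x with
  | 0 => f 0
  | n + 1 => f (Nat.succ n)

theorem frc_eq {α : Type} (x : ℕ) (f : ℕ → α) : frc x f = f x := by
  cases x <;> rfl

/-- the denominator -/
def Dn : ℕ := 1000000000000000

/-- scalar product -/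
def dot : List ℕ → List ℕ → ℕ → ℕ
  | [], _, s => s
  | _ :: _, [], s => s
  | x :: xs, y :: ys, s => frc (Nat.add s (Nat.mul x y)) fun r => dot xs ys r

/-- the constant term -/
def extra : List ℕ → ℕ
  | [] => Dn
  | _ :: _ => 0

/-- the numbers `a_l` from the numbers `t_l` in descending order -/
def sufGo : List ℕ → ℕ → List ℕ → List ℕ
  | [], _, acc => acc
  | x :: xs, s, acc =>
    frc (Nat.add s x) fun s' =>
      frc (Nat.div (Nat.mul (Nat.add s' (extra xs)) 9519) 20000)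
        fun y => sufGo xs s' (y :: acc)

/-- the numbers `t_l` in descending order -/
def conv (A : List ℕ) : List ℕ → List ℕ → List ℕ
  | [], rev => rev
  | x :: xs, rev =>
    frc (Nat.add x (Nat.div (Nat.mul (dot A rev 0) 47) (Nat.mul 1250 Dn))) fun y =>
      conv A xs (y :: rev)

/-- forces the evaluation of a list -/
def frcL {α : Type} : List ℕ → List ℕ → (List ℕ → α) → α
  | [], acc, f => f acc
  | x :: xs, acc, f => frc x fun y => frcL xs (y :: acc) f

theorem frcL_eq {α : Type} (l acc : List ℕ) (f : List ℕ → α) :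
    frcL l acc f = f (l.reverse ++ acc) := by
  induction l generalizing acc with
  | nil => rfl
  | cons x xs ih => rw [frcL, frc_eq, ih]; simp

def step (rev : List ℕ) : List ℕ :=
  frcL (sufGo rev 0 []) [] fun A' => frcL A' [] fun A => conv A A []

theorem step_eq (rev : List ℕ) : step rev = conv (sufGo rev 0 []) (sufGo rev 0 []) [] := by
  rw [step, frcL_eq, frcL_eq]; simp

def iter : ℕ → List ℕ → List ℕ
  | 0, r => r
  | n + 1, r => frcL (step r) [] fun r' => frcL r' [] fun r'' => iter n r''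

theorem iter_succ (n : ℕ) (r : List ℕ) : iter (n + 1) r = iter n (step r) := by
  rw [iter, frcL_eq, frcL_eq]; simp

def sumL : List ℕ → ℕ
  | [] => 0
  | x :: xs => Nat.add x (sumL xs)

/-- the result of the iteration -/
@[irreducible] def res (n m : ℕ) : List ℕ := iter n (List.replicate m 0)

theorem check : Nat.ble (Nat.mul 11 Dn) (Nat.mul 10 (sumL (res 120 22))) = true := by
  decide +kernel


theorem Dn_ne : Dn ≠ 0 := by norm_num [Dn]

theorem conv_cons (A : List ℕ) (x : ℕ) (xs rev : List ℕ) : conv A (x :: xs) rev =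
    conv A xs ((x + dot A rev 0 * 47 / (1250 * Dn)) :: rev) := by
  rw [conv, frc_eq]
  rfl

theorem sufGo_cons (x : ℕ) (xs : List ℕ) (s : ℕ) (acc : List ℕ) : sufGo (x :: xs) s acc =
    sufGo xs (s + x) (((s + x + extra xs) * 9519 / 20000) :: acc) := by
  rw [sufGo, frc_eq, frc_eq]
  rfl

theorem dot_cons (x y : ℕ) (xs ys : List ℕ) (s : ℕ) : dot (x :: xs) (y :: ys) s =
    dot xs ys (s + x * y) := by
  rw [dot, frc_eq]
  rfl

attribute [irreducible] Dn

/-- lower bounds `A` for `a i, a (i + 1), ...`, multiplied with `D` -/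
def LA (D : ℝ≥0∞) (a : ℕ → ℝ≥0∞) : ℕ → List ℕ → Prop
  | _, [] => True
  | i, x :: xs => (x : ℝ≥0∞) ≤ D * a i ∧ LA D a (i + 1) xs

/-- lower bounds for `t n, ..., t 1` -/
def LR (D : ℝ≥0∞) (t : ℕ → ℝ≥0∞) : List ℕ → Prop
  | [] => True
  | x :: xs => (x : ℝ≥0∞) ≤ D * t (xs.length + 1) ∧ LR D t xs

theorem dot_le (D : ℝ≥0∞) (a t : ℕ → ℝ≥0∞) (A rev : List ℕ) (i s : ℕ) (hA : LA D a i A)
    (hr : LR D t rev) : (dot A rev s : ℝ≥0∞) ≤
      s + D * D * ∑ k ∈ range rev.length, a (i + k) * t (rev.length - k) := by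
  induction A generalizing rev i s with
  | nil => rw [dot]; exact le_self_add
  | cons x xs ih =>
    cases rev with
    | nil => rw [dot]; exact le_self_add
    | cons y ys =>
      rw [dot_cons]
      refine (ih ys (i + 1) _ hA.2 hr.2).trans ?_
      rw [List.length_cons, Finset.sum_range_succ']
      have h1 : ((s + x * y : ℕ) : ℝ≥0∞) ≤ s + D * D * (a i * t (ys.length + 1)) := by
        push_cast
        calc (s : ℝ≥0∞) + x * y ≤ s + (D * a i) * (D * t (ys.length + 1)) := by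
              gcongr
              · exact hA.1
              · exact hr.1
          _ = _ := by ring
      have h2 : ∑ k ∈ range ys.length, a (i + 1 + k) * t (ys.length - k) =
          ∑ k ∈ range ys.length, a (i + (k + 1)) * t (ys.length + 1 - (k + 1)) := by
        refine Finset.sum_congr rfl fun k _ => ?_
        congr 2
        · ring
        · omega
      rw [h2]
      calc ((s + x * y : ℕ) : ℝ≥0∞) +
            D * D * ∑ k ∈ range ys.length, a (i + (k + 1)) * t (ys.length + 1 - (k + 1))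
          ≤ (s + D * D * (a i * t (ys.length + 1))) +
            D * D * ∑ k ∈ range ys.length, a (i + (k + 1)) * t (ys.length + 1 - (k + 1)) := by
            gcongr
        _ = _ := by
            simp only [Nat.add_zero, Nat.sub_zero]
            ring

theorem LA_tail_of_LA {D : ℝ≥0∞} {a : ℕ → ℝ≥0∞} {i x : ℕ} {xs : List ℕ}
    (h : LA D a i (x :: xs)) : LA D a (i + 1) xs := h.2

/-- rounding down -/
theorem div_le {n c d : ℕ} (hd : d ≠ 0) {z : ℝ≥0∞} (h : (n : ℝ≥0∞) * c ≤ z * d) :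
    ((n * c / d : ℕ) : ℝ≥0∞) ≤ z := by
  have h1 : ((n * c / d : ℕ) : ℝ≥0∞) * d ≤ (n : ℝ≥0∞) * c := by
    exact_mod_cast Nat.div_mul_le_self (n * c) d
  have h2 := h1.trans h
  have hd0 : (d : ℝ≥0∞) ≠ 0 := by exact_mod_cast hd
  exact (ENNReal.mul_le_mul_iff_left hd0 (ENNReal.natCast_ne_top d)).mp h2

theorem es_mul : es * 1250 = 47 := by
  have : (1250 : ℝ≥0∞) = ENNReal.ofReal 1250 := by simp
  rw [es, this, ← ENNReal.ofReal_mul (by norm_num [rs])]
  norm_num [rs]

theorem ey_mul : ey * 20000 = 9519 := by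
  have : (20000 : ℝ≥0∞) = ENNReal.ofReal 20000 := by simp
  rw [ey, this, ← ENNReal.ofReal_mul (by norm_num [ry])]
  norm_num [ry]

theorem antidiag (a t : ℕ → ℝ≥0∞) (n : ℕ) : ∑ k ∈ range n, a (1 + k) * t (n - k) ≤
    ∑ p ∈ antidiagonal (n + 1), a p.1 * t p.2 := by
  rw [Finset.Nat.sum_antidiagonal_eq_sum_range_succ_mk, Finset.sum_range_succ',
    Finset.sum_range_succ]
  refine le_trans (le_of_eq ?_) (le_self_add.trans le_self_add)
  refine Finset.sum_congr rfl fun k hk => ?_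
  have : k < n := Finset.mem_range.mp hk
  show a (1 + k) * t (n - k) = a (k + 1) * t (n + 1 - (k + 1))
  congr 2
  · ring
  · omega

theorem conv_LR {t a : ℕ → ℝ≥0∞}
    (h2 : ∀ l, a l + es * ∑ p ∈ antidiagonal l, a p.1 * t p.2 ≤ t l) (A : List ℕ)
    (hA : LA Dn a 1 A) (As rev : List ℕ) (hAs : LA Dn a (rev.length + 1) As)
    (hr : LR Dn t rev) : LR Dn t (conv A As rev) := by
  induction As generalizing rev with
  | nil => exact hr
  | cons x xs ih =>
    rw [conv_cons]
    refine ih _ hAs.2 ⟨?_, hr⟩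
    have hq := dot_le Dn a t A rev 1 0 hA hr
    set q := dot A rev 0
    have hq' : (q : ℝ≥0∞) ≤ Dn * Dn * ∑ p ∈ antidiagonal (rev.length + 1), a p.1 * t p.2 := by
      refine hq.trans ?_
      rw [Nat.cast_zero, zero_add]
      gcongr
      exact antidiag a t rev.length
    set S := ∑ p ∈ antidiagonal (rev.length + 1), a p.1 * t p.2 with hS
    have h3 : ((q * 47 / (1250 * Dn) : ℕ) : ℝ≥0∞) ≤ Dn * (es * S) := by
      apply div_le (mul_ne_zero (by norm_num) Dn_ne)
      calc (q : ℝ≥0∞) * (47 : ℕ) ≤ (Dn * Dn * S) * (47 : ℕ) := by gcongr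
        _ = (Dn * Dn * S) * (es * 1250) := by rw [es_mul]; norm_num
        _ = Dn * (es * S) * ((1250 * Dn : ℕ) : ℝ≥0∞) := by push_cast; ring
    show ((x + q * 47 / (1250 * Dn) : ℕ) : ℝ≥0∞) ≤ Dn * t (rev.length + 1)
    rw [Nat.cast_add]
    calc (x : ℝ≥0∞) + ((q * 47 / (1250 * Dn) : ℕ) : ℝ≥0∞) ≤
        Dn * a (rev.length + 1) + Dn * (es * S) := add_le_add hAs.1 h3
      _ = Dn * (a (rev.length + 1) + es * S) := by ring
      _ ≤ _ := by gcongr; exact h2 _

/-- tails of the series -/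
noncomputable def tail (t : ℕ → ℝ≥0∞) (n : ℕ) : ℝ≥0∞ := ∑' m, (if n ≤ m then t m else 0)

theorem tail_le (t : ℕ → ℝ≥0∞) (n : ℕ) : tail t (n + 1) + t n ≤ tail t n := by
  have h1 : t n = ∑' m, (if m = n then t m else 0) := by
    rw [tsum_ite_eq]
  unfold tail
  conv_lhs => rw [h1]
  rw [← ENNReal.tsum_add]
  refine ENNReal.tsum_le_tsum fun m => ?_
  rcases lt_trichotomy m n with h | h | h
  · rw [if_neg (by omega), if_neg (by omega), if_neg (by omega)]; simp
  · rw [if_neg (by omega), if_pos h, if_pos (by omega)]; simp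
  · rw [if_pos (by omega), if_neg (by omega), if_pos (by omega)]; simp

theorem sufGo_LA {t a : ℕ → ℝ≥0∞}
    (h1 : ∀ l, 0 < l → (if l = 1 then ey else 0) + ey * ∑' m, (if l ≤ m then t m else 0) ≤ a l)
    (rev : List ℕ) (s : ℕ) (acc : List ℕ) (hs : (s : ℝ≥0∞) ≤ Dn * tail t (rev.length + 1))
    (hr : LR Dn t rev) (hacc : LA Dn a (rev.length + 1) acc) : LA Dn a 1 (sufGo rev s acc) := by
  induction rev generalizing s acc with
  | nil => exact hacc
  | cons x xs ih =>
    rw [sufGo_cons]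
    have hs' : ((s + x : ℕ) : ℝ≥0∞) ≤ Dn * tail t (xs.length + 1) := by
      rw [Nat.cast_add]
      calc (s : ℝ≥0∞) + x ≤ Dn * tail t (xs.length + 1 + 1) + Dn * t (xs.length + 1) :=
            add_le_add hs hr.1
        _ = Dn * (tail t (xs.length + 1 + 1) + t (xs.length + 1)) := by ring
        _ ≤ _ := by gcongr; exact tail_le t _
    refine ih (s + x) _ hs' hr.2 ⟨?_, hacc⟩
    have h3 := h1 (xs.length + 1) (Nat.succ_pos _)
    show (((s + x + extra xs) * 9519 / 20000 : ℕ) : ℝ≥0∞) ≤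
      Dn * a (xs.length + 1)
    apply div_le (by norm_num)
    have h4 : ((extra xs : ℕ) : ℝ≥0∞) * 9519 ≤
        Dn * (if xs.length + 1 = 1 then ey else 0) * 20000 := by
      cases xs with
      | nil =>
        simp only [extra, List.length_nil, zero_add, if_true]
        rw [← ey_mul]
        exact le_of_eq (by ring)
      | cons _ _ => simp [extra]
    calc ((s + x + extra xs : ℕ) : ℝ≥0∞) * (9519 : ℕ)
        = ((s + x : ℕ) : ℝ≥0∞) * 9519 +
          ((extra xs : ℕ) : ℝ≥0∞) * 9519 := by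
          rw [Nat.cast_add (s + x), add_mul]; norm_num
      _ ≤ (Dn * tail t (xs.length + 1)) * 9519 +
          Dn * (if xs.length + 1 = 1 then ey else 0) * 20000 := by gcongr
      _ = Dn * ((if xs.length + 1 = 1 then ey else 0) + ey * tail t (xs.length + 1)) * 20000 := by
          rw [← ey_mul]; ring
      _ ≤ Dn * a (xs.length + 1) * (20000 : ℕ) := by
          rw [Nat.cast_ofNat]
          gcongr
          exact h3

theorem step_LR {t a : ℕ → ℝ≥0∞}
    (h1 : ∀ l, 0 < l → (if l = 1 then ey else 0) + ey * ∑' m, (if l ≤ m then t m else 0) ≤ a l)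
    (h2 : ∀ l, a l + es * ∑ p ∈ antidiagonal l, a p.1 * t p.2 ≤ t l) (rev : List ℕ)
    (hr : LR Dn t rev) : LR Dn t (step rev) := by
  rw [step_eq]
  have hA : LA Dn a 1 (sufGo rev 0 []) := sufGo_LA h1 rev 0 [] (by simp) hr trivial
  exact conv_LR h2 _ hA _ [] hA trivial

theorem iter_LR {t a : ℕ → ℝ≥0∞}
    (h1 : ∀ l, 0 < l → (if l = 1 then ey else 0) + ey * ∑' m, (if l ≤ m then t m else 0) ≤ a l)
    (h2 : ∀ l, a l + es * ∑ p ∈ antidiagonal l, a p.1 * t p.2 ≤ t l) (n : ℕ) (rev : List ℕ)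
    (hr : LR Dn t rev) : LR Dn t (iter n rev) := by
  induction n generalizing rev with
  | zero => exact hr
  | succ n ih => rw [iter_succ]; exact ih _ (step_LR h1 h2 rev hr)

theorem LR_zero (D : ℝ≥0∞) (t : ℕ → ℝ≥0∞) (n : ℕ) : LR D t (List.replicate n 0) := by
  induction n with
  | zero => trivial
  | succ n ih => exact ⟨by simp, ih⟩

theorem sum_le {D : ℝ≥0∞} {t : ℕ → ℝ≥0∞} (rev : List ℕ) (hr : LR D t rev) :
    (sumL rev : ℝ≥0∞) + D * tail t (rev.length + 1) ≤ D * tail t 1 := by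
  induction rev with
  | nil => simp [sumL]
  | cons x xs ih =>
    refine le_trans ?_ (ih hr.2)
    show ((x + sumL xs : ℕ) : ℝ≥0∞) + D * tail t (xs.length + 1 + 1) ≤ _
    rw [Nat.cast_add]
    calc (x : ℝ≥0∞) + sumL xs + D * tail t (xs.length + 1 + 1)
        ≤ D * t (xs.length + 1) + sumL xs + D * tail t (xs.length + 1 + 1) := by
          gcongr; exact hr.1
      _ = sumL xs + D * (tail t (xs.length + 1 + 1) + t (xs.length + 1)) := by ring
      _ ≤ _ := by gcongr; exact tail_le t _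

theorem exists_rev {t a : ℕ → ℝ≥0∞}
    (h1 : ∀ l, 0 < l → (if l = 1 then ey else 0) + ey * ∑' m, (if l ≤ m then t m else 0) ≤ a l)
    (h2 : ∀ l, a l + es * ∑ p ∈ antidiagonal l, a p.1 * t p.2 ≤ t l) :
    ∃ S : ℕ, 11 * Dn ≤ 10 * S ∧ (S : ℝ≥0∞) ≤ Dn * tail t 1 := by
  have hr : ∀ n m, LR Dn t (res n m) := by
    intro n m
    unfold res
    exact iter_LR h1 h2 n (List.replicate m 0) (LR_zero _ _ _)
  exact ⟨sumL (res 120 22), Nat.le_of_ble_eq_true check,
    le_self_add.trans (sum_le (res 120 22) (hr 120 22))⟩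

end NumLo

open NumLo in
theorem num_lower (t a : ℕ → ℝ≥0∞)
    (h1 : ∀ l, 0 < l → (if l = 1 then ey else 0) + ey * ∑' m, (if l ≤ m then t m else 0) ≤ a l)
    (h2 : ∀ l, a l + es * ∑ p ∈ antidiagonal l, a p.1 * t p.2 ≤ t l) :
    ENNReal.ofReal (11 / 10) ≤ ∑' l, t l := by
  obtain ⟨S, hc, h3⟩ := exists_rev h1 h2
  have h4 : tail t 1 ≤ ∑' l, t l := ENNReal.tsum_le_tsum fun m => by split_ifs <;> simp
  have h5 : ((11 * Dn : ℕ) : ℝ≥0∞) ≤ ((10 * S : ℕ) : ℝ≥0∞) := by exact_mod_cast hc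
  have hD0 : (Dn : ℝ≥0∞) ≠ 0 := by exact_mod_cast Dn_ne
  have h6 : ENNReal.ofReal (11 / 10) * 10 = 11 := by
    have : (10 : ℝ≥0∞) = ENNReal.ofReal 10 := by simp
    rw [this, ← ENNReal.ofReal_mul (by norm_num)]
    norm_num
  have h7 : ENNReal.ofReal (11 / 10) * (10 * Dn) ≤ (∑' l, t l) * (10 * Dn) := by
    calc ENNReal.ofReal (11 / 10) * (10 * Dn) = (ENNReal.ofReal (11 / 10) * 10) * Dn := by ring
      _ = ((11 * Dn : ℕ) : ℝ≥0∞) := by rw [h6]; push_cast; ring
      _ ≤ ((10 * S : ℕ) : ℝ≥0∞) := h5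
      _ = 10 * S := by push_cast; ring
      _ ≤ 10 * (Dn * ∑' l, t l) := by gcongr; exact h3.trans (by gcongr)
      _ = _ := by ring
  have h8 : (10 * Dn : ℝ≥0∞) ≠ 0 := mul_ne_zero (by norm_num) hD0
  have h9 : (10 * Dn : ℝ≥0∞) ≠ ⊤ := ENNReal.mul_ne_top (by norm_num) (ENNReal.natCast_ne_top _)
  exact (ENNReal.mul_le_mul_iff_left h8 h9).mp h7

end PGr
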