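import Pool.Agent.PGr.NumUpT

/-! # Module NumUp: a supersolution of the recursion of `TUpper` -/

set_option linter.unusedSectionVars false

namespace PGr
open Finset
open scoped ENNReal Classical

namespace NumUp

theorem padd_getD (xs ys : List ℕ) (k : ℕ) :
    (padd xs ys).getD k 0 = xs.getD k 0 + ys.getD k 0 := by
  induction xs generalizing ys k with
  | nil => simp [padd]
  | cons x xs ih =>
    cases ys with
    | nil => simp [padd]
    | cons y ys =>
      cases k with
      | zero => simp [padd]
      | succ k => simp only [padd, List.getD_cons_succ]; exact ih ys k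

theorem map_getD (a : ℕ) (bs : List ℕ) (k : ℕ) :
    (bs.map fun b => a * b).getD k 0 = a * bs.getD k 0 := by
  induction bs generalizing k with
  | nil => simp
  | cons b bs ih =>
    cases k with
    | zero => simp
    | succ k => simp only [List.map_cons, List.getD_cons_succ]; exact ih k

theorem pmul_getD (as bs : List ℕ) (k : ℕ) :
    (pmul as bs).getD k 0 = ∑ p ∈ antidiagonal k, as.getD p.1 0 * bs.getD p.2 0 := by
  induction as generalizing k with
  | nil => simp [pmul]
  | cons a as ih =>
    rw [pmul, padd_getD, map_getD]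
    cases k with
    | zero => simp
    | succ k =>
      rw [List.getD_cons_succ, ih, Finset.Nat.antidiagonal_succ, sum_cons]
      simp only [List.getD_cons_zero, sum_map]
      congr 1

theorem chk_spec (as ps ns : List ℕ) (h : chk as ps ns = true) (k : ℕ) (hk : k < ps.length) :
    1250 * 1000000000000 * as.getD k 0 + 47 * ps.getD k 0 ≤
      1250 * 1000000000000 * (ns.getD k 0 + 300) := by
  induction ps generalizing as ns k with
  | nil => simp at hk
  | cons p ps ih =>
    rw [chk, Bool.and_eq_true, Nat.ble_eq] at h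
    cases k with
    | zero =>
      cases as <;> cases ns <;> simpa using h.1
    | succ k =>
      have := ih as.tail ns.tail h.2 k (by simpa using hk)
      cases as <;> cases ns <;> simpa using this

theorem up_getD (l : List ℕ) (k : ℕ) :
    268 * l.getD k 0 + 100 * (up l).getD (k + 1) 0 ≤ 268 * (up l).getD k 0 := by
  induction l generalizing k with
  | nil => simp [up]
  | cons n ns ih =>
    cases k with
    | zero =>
      simp only [up, List.getD_cons_zero, List.getD_cons_succ]
      have : (up ns).getD 0 0 = (up ns).headD 0 := by cases up ns <;> simp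
      rw [this]
      omega
    | succ k =>
      simp only [up, List.getD_cons_succ]
      exact ih k

theorem wsum_spec (i : ℕ) (l : List ℕ) (n : ℕ) :
    ∑ j ∈ range n, l.getD j 0 * (i + j) ^ 2 ≤ wsum i l := by
  induction l generalizing i n with
  | nil => simp [wsum]
  | cons a as ih =>
    cases n with
    | zero => simp
    | succ n =>
      rw [sum_range_succ', wsum]
      have := ih (i + 1) n
      simp only [List.getD_cons_succ, List.getD_cons_zero, add_zero]
      have e : ∑ j ∈ range n, as.getD j 0 * (i + (j + 1)) ^ 2 =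
          ∑ j ∈ range n, as.getD j 0 * (i + 1 + j) ^ 2 :=
        sum_congr rfl fun j _ => by rw [show i + (j + 1) = i + 1 + j by omega]
      rw [e]
      linarith

/-! ### real functions; index `l = k + 1` -/

/-- scaled head of the supersolution -/
noncomputable def Nr : ℕ → ℝ
  | 0 => 0
  | k + 1 => (tab.getD k 0 : ℕ) / 1000000000000

noncomputable def Ur : ℕ → ℝ
  | 0 => 0
  | k + 1 => ((up tab).getD k 0 : ℕ) / 1000000000000

noncomputable def Ar : ℕ → ℝ
  | 0 => 0
  | k + 1 => (atab.getD k 0 : ℕ) / 1000000000000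

noncomputable def rho : ℕ → ℝ
  | 0 => 0
  | k + 1 => (2000 / (2001 + k)) ^ 2

/-- `1 / w` -/
noncomputable def xx : ℝ := 100 / 268
/-- `y w / (w - 1)` -/
noncomputable def qq : ℝ := ry / (1 - xx)
noncomputable def ee : ℝ := 1 / 1000000

theorem Nr_nonneg (l : ℕ) : 0 ≤ Nr l := by cases l <;> simp only [Nr] <;> positivity
theorem Ur_nonneg (l : ℕ) : 0 ≤ Ur l := by cases l <;> simp only [Ur] <;> positivity
theorem Ar_nonneg (l : ℕ) : 0 ≤ Ar l := by cases l <;> simp only [Ar] <;> positivity
theorem rho_nonneg (l : ℕ) : 0 ≤ rho l := by cases l <;> simp only [rho] <;> positivity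

theorem xx_pos : 0 < xx := by norm_num [xx]
theorem qq_pos : 0 < qq := by norm_num [qq, xx, ry]
theorem ry_pos : 0 < ry := by norm_num [ry]
theorem rs_pos : 0 < rs := by norm_num [rs]

theorem Ur_rec (l : ℕ) (hl : 0 < l) : Nr l + xx * Ur (l + 1) ≤ Ur l := by
  obtain ⟨k, rfl⟩ : ∃ k, l = k + 1 := ⟨l - 1, by omega⟩
  have h := up_getD tab k
  have h' : (268 : ℝ) * (tab.getD k 0 : ℕ) + 100 * ((up tab).getD (k + 1) 0 : ℕ) ≤
      268 * ((up tab).getD k 0 : ℕ) := by exact_mod_cast h
  simp only [Nr, Ur, xx]
  linarith

theorem sum_Nr_le (n l : ℕ) (hl : 0 < l) : ∑ j ∈ range n, Nr (l + j) * xx ^ j ≤ Ur l := by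
  induction n generalizing l with
  | zero => simpa using Ur_nonneg l
  | succ n ih =>
    rw [sum_range_succ']
    have h1 := ih (l + 1) (by omega)
    have h2 := Ur_rec l hl
    have e : ∀ j, Nr (l + (j + 1)) * xx ^ (j + 1) = xx * (Nr (l + 1 + j) * xx ^ j) := by
      intro j; rw [pow_succ, show l + (j + 1) = l + 1 + j by omega]; ring
    simp only [e, ← mul_sum, add_zero, pow_zero, mul_one]
    have := mul_le_mul_of_nonneg_left h1 xx_pos.le
    linarith

theorem rho_anti {l m : ℕ} (hl : 0 < l) (h : l ≤ m) : rho m ≤ rho l := by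
  obtain ⟨k, rfl⟩ : ∃ k, l = k + 1 := ⟨l - 1, by omega⟩
  obtain ⟨j, rfl⟩ : ∃ j, m = j + 1 := ⟨m - 1, by omega⟩
  have h' : (k : ℝ) ≤ j := by exact_mod_cast (by omega : k ≤ j)
  simp only [rho]
  gcongr

theorem geom_le (n : ℕ) : ∑ j ∈ range n, xx ^ j ≤ 1 / (1 - xx) := by
  have h1 : xx < 1 := by norm_num [xx]
  rw [geom_sum_eq (by linarith [h1] : xx ≠ 1), ← neg_div_neg_eq, neg_sub, neg_sub]
  have : 0 ≤ xx ^ n := by have := xx_pos; positivity
  exact div_le_div_of_nonneg_right (by linarith) (by linarith)

/-- the supersolution -/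
noncomputable def ns (l : ℕ) : ℝ := xx ^ l * (Nr l + ee * rho l)

noncomputable def as (l : ℕ) : ℝ := xx ^ l * (Ar l + ee * qq * rho l)

theorem ee_pos : 0 < ee := by norm_num [ee]

theorem ns_nonneg (l : ℕ) : 0 ≤ ns l := by
  have := xx_pos; have := Nr_nonneg l; have := rho_nonneg l; have := ee_pos
  unfold ns; positivity

theorem as_nonneg (l : ℕ) : 0 ≤ as l := by
  have := xx_pos; have := Ar_nonneg l; have := rho_nonneg l; have := ee_pos; have := qq_pos
  unfold as; positivity

theorem tail_le (n l : ℕ) (hl : 0 < l) : ∑ j ∈ range n, ns (l + j) ≤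
    xx ^ l * (Ur l + ee * rho l / (1 - xx)) := by
  have h1 : xx < 1 := by norm_num [xx]
  have h0 := xx_pos
  have h2 : ∀ j, ns (l + j) ≤ xx ^ l * (Nr (l + j) * xx ^ j + ee * rho l * xx ^ j) := by
    intro j
    unfold ns
    rw [pow_add, mul_assoc]
    have h3 : rho (l + j) ≤ rho l := rho_anti hl (by omega)
    have h4 : 0 ≤ xx ^ j := by positivity
    have h5 : 0 ≤ xx ^ l := by positivity
    have h6 := ee_pos
    apply mul_le_mul_of_nonneg_left _ h5
    have : ee * rho (l + j) ≤ ee * rho l := by gcongr
    nlinarith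
  refine (sum_le_sum fun j _ => h2 j).trans ?_
  rw [← mul_sum, sum_add_distrib, ← mul_sum]
  have h3 := sum_Nr_le n l hl
  have h4 := geom_le n
  have h5 : 0 ≤ ee * rho l := mul_nonneg ee_pos.le (rho_nonneg l)
  have h6 := mul_le_mul_of_nonneg_left h4 h5
  rw [mul_one_div] at h6
  gcongr

theorem atab_getD (k : ℕ) : 9519 * (up tab).getD k 0 + (if k = 0 then 25510920000000000 else 0) ≤
    20000 * atab.getD k 0 ∨ (up tab).getD k 0 = 0 ∧ 0 < k := by
  have h1 : ∀ (l : List ℕ) (k : ℕ), k < l.length →
      9519 * (up l).getD k 0 ≤ 20000 * (atabAux l).getD k 0 := by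
    intro l
    have key : ∀ (us : List ℕ) (k : ℕ), k < us.length → 9519 * us.getD k 0 ≤
        20000 * (us.map fun u => (9519 * u + 19999) / 20000).getD k 0 := by
      intro us
      induction us with
      | nil => intro k hk; simp at hk
      | cons u us ih =>
        intro k hk
        cases k with
        | zero => simp only [List.map_cons, List.getD_cons_zero]; omega
        | succ k =>
          simp only [List.map_cons, List.getD_cons_succ]; exact ih k (by simpa using hk)
    intro k hk
    have hl : ∀ l : List ℕ, (up l).length = l.length := by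
      intro l
      induction l with
      | nil => rfl
      | cons n ns ih => simp [up, ih]
    exact key (up l) k (by rwa [hl])
  have hlen : (up tab).length = tab.length := by
    have : ∀ l : List ℕ, (up l).length = l.length := by
      intro l
      induction l with
      | nil => rfl
      | cons n ns ih => simp [up, ih]
    exact this tab
  by_cases hk : k < tab.length
  · left
    have h2 := h1 tab k hk
    have h3 := atab_eq
    have h4 : atabAux tab ≠ [] := by
      intro h
      have : (atabAux tab).length = tab.length := by simp [atabAux, hlen]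
      rw [h] at this
      simp at this
      omega
    obtain ⟨u, us, hu⟩ := List.exists_cons_of_ne_nil h4
    rw [h3, hu, addHead]
    rw [hu] at h2
    cases k with
    | zero => simp only [List.getD_cons_zero, if_true] at h2 ⊢; linarith
    | succ k =>
      simp only [List.getD_cons_succ, Nat.succ_ne_zero, if_false, add_zero] at h2 ⊢
      omega
  · right
    refine ⟨?_, ?_⟩
    · rw [List.getD_eq_default]; omega
    · have := tab_pos
      omega

theorem Ar_ge (l : ℕ) (hl : 0 < l) : (if l = 1 then ry / xx else 0) + ry * Ur l ≤ Ar l := by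
  obtain ⟨k, rfl⟩ : ∃ k, l = k + 1 := ⟨l - 1, by omega⟩
  simp only [Ar, Ur, add_eq_right]
  rcases atab_getD k with h | ⟨h, hk⟩
  · have h' : (9519 : ℝ) * ((up tab).getD k 0 : ℕ) +
        (if k = 0 then 25510920000000000 else 0) ≤ 20000 * (atab.getD k 0 : ℕ) := by
      have := (Nat.cast_le (α := ℝ)).mpr h
      push_cast at this
      exact this
    split_ifs at h' ⊢
    · simp only [ry, xx]; linarith
    · simp only [ry]; linarith
  · rw [h, if_neg (by omega)]
    simp only [Nat.cast_zero, zero_div, mul_zero, add_zero]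
    positivity

/-- the tail bound for the recursion of the `a_l` -/
theorem as_ge (n l : ℕ) (hl : 0 < l) :
    (if l = 1 then ry else 0) + ry * ∑ j ∈ range n, ns (l + j) ≤ as l := by
  have h1 := tail_le n l hl
  have h2 := Ar_ge l hl
  have h0 := xx_pos
  have h3 := mul_le_mul_of_nonneg_left h1 ry_pos.le
  have h4 : 0 < xx ^ l := by positivity
  have h5 : as l = xx ^ l * Ar l + ry * (xx ^ l * (ee * rho l / (1 - xx))) := by
    unfold as qq; ring
  have h6 := mul_le_mul_of_nonneg_left h2 h4.le
  rw [h5]
  have h7 : xx ^ l * (if l = 1 then ry / xx else 0) = if l = 1 then ry else 0 := by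
    split_ifs with h
    · rw [h, pow_one]; field_simp
    · simp
  rw [mul_add, h7] at h6
  have h8 : ry * (xx ^ l * (Ur l + ee * rho l / (1 - xx))) =
    xx ^ l * (ry * Ur l) + ry * (xx ^ l * (ee * rho l / (1 - xx))) := by ring
  linarith


/-! ### the quadratic terms -/

theorem sum_anti (f g : ℕ → ℝ) (hf : f 0 = 0) (hg : g 0 = 0) (k : ℕ) :
    ∑ p ∈ antidiagonal (k + 2), f p.1 * g p.2 =
      ∑ p ∈ antidiagonal k, f (p.1 + 1) * g (p.2 + 1) := by
  rw [Finset.Nat.antidiagonal_succ_succ', sum_cons, sum_cons]
  simp [hf, hg]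

theorem sum_anti_one (f g : ℕ → ℝ) (hf : f 0 = 0) (hg : g 0 = 0) :
    ∑ p ∈ antidiagonal 1, f p.1 * g p.2 = 0 := by
  rw [Finset.Nat.antidiagonal_succ, sum_cons]
  simp [hf, hg]

theorem conv_eq (k : ℕ) : ∑ p ∈ antidiagonal (k + 2), Ar p.1 * Nr p.2 =
    ((pmul atab tab).getD k 0 : ℕ) / 1000000000000 ^ 2 := by
  rw [sum_anti Ar Nr rfl rfl, pmul_getD]
  push_cast
  rw [sum_div]
  refine sum_congr rfl fun p _ => ?_
  simp only [Ar, Nr]
  ring

theorem headD_eq (l : List ℕ) : l.headD 0 = l.getD 0 0 := by cases l <;> simp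

theorem main_lin (l : ℕ) (hl : 0 < l) :
    (l ≤ 560 ∧ Ar l + rs * ∑ p ∈ antidiagonal l, Ar p.1 * Nr p.2 ≤
      Nr l + 300 / 1000000000000) ∨
    Ar l + rs * ∑ p ∈ antidiagonal l, Ar p.1 * Nr p.2 = 0 := by
  obtain ⟨h1, h2, -, -, -, h6, h7, h8⟩ := check_spec
  obtain ⟨k, rfl⟩ : ∃ k, l = k + 1 := ⟨l - 1, by omega⟩
  rcases Nat.eq_zero_or_pos k with rfl | hk
  · left
    refine ⟨by norm_num, ?_⟩
    rw [sum_anti_one Ar Nr rfl rfl, mul_zero, add_zero]
    rw [headD_eq, headD_eq] at h2
    have h2' : ((atab.getD 0 0 : ℕ) : ℝ) ≤ (tab.getD 0 0 : ℕ) + 300 := by exact_mod_cast h2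
    simp only [Ar, Nr]
    linarith
  · obtain ⟨j, rfl⟩ : ∃ j, k = j + 1 := ⟨k - 1, by omega⟩
    rw [conv_eq]
    have e1 : ∀ l : List ℕ, l.tail.getD j 0 = l.getD (j + 1) 0 := by
      intro l; cases l <;> simp
    by_cases hj : j < (pmul atab tab).length
    · left
      have h3 := chk_spec _ _ _ h1 j hj
      rw [e1, e1] at h3
      have h3' : (1250 : ℝ) * 1000000000000 * (atab.getD (j + 1) 0 : ℕ) +
          47 * ((pmul atab tab).getD j 0 : ℕ) ≤
          1250 * 1000000000000 * ((tab.getD (j + 1) 0 : ℕ) + 300) := by exact_mod_cast h3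
      refine ⟨by omega, ?_⟩
      simp only [Ar, Nr, rs]
      rw [← sub_nonneg]
      have e2 : ((tab.getD (j + 1) 0 : ℕ) : ℝ) / 1000000000000 + 300 / 1000000000000 -
          (((atab.getD (j + 1) 0 : ℕ) : ℝ) / 1000000000000 +
            47 / 1250 * (((pmul atab tab).getD j 0 : ℕ) / 1000000000000 ^ 2)) =
          (1250 * 1000000000000 * ((tab.getD (j + 1) 0 : ℕ) + 300) -
            (1250 * 1000000000000 * (atab.getD (j + 1) 0 : ℕ) +
              47 * ((pmul atab tab).getD j 0 : ℕ))) / (1250 * 1000000000000 ^ 2) := by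
        field_simp
      rw [e2]
      exact div_nonneg (by linarith) (by positivity)
    · by_cases hj' : j + 1 < atab.length
      · left
        -- this cannot happen, but we do not need to know it
        exfalso
        have h9 : atab.length ≤ (pmul atab tab).length + 1 := by
          have hpm : ∀ (as bs : List ℕ), as.length ≤ (pmul as bs).length := by
            intro as bs
            induction as with
            | nil => simp
            | cons a as ih =>
              have hpadd : ∀ xs ys : List ℕ, ys.length ≤ (padd xs ys).length := by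
                intro xs
                induction xs with
                | nil => intro ys; simp [padd]
                | cons x xs ih' =>
                  intro ys
                  cases ys with
                  | nil => simp
                  | cons y ys => simpa [padd] using ih' ys
              have := hpadd (bs.map fun b => a * b) (0 :: pmul as bs)
              simp only [pmul, List.length_cons] at this ⊢
              omega
          have := hpm atab tab
          omega
        omega
      · right
        have e3 : (pmul atab tab).getD j 0 = 0 := by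
          rw [List.getD_eq_default]; omega
        have e4 : atab.getD (j + 1) 0 = 0 := by
          rw [List.getD_eq_default]; omega
        simp only [Ar, e3, e4]
        norm_num

theorem rho_eq {l : ℕ} (hl : 0 < l) : rho l = (2000 / (2000 + (l : ℝ))) ^ 2 := by
  obtain ⟨k, rfl⟩ : ∃ k, l = k + 1 := ⟨l - 1, by omega⟩
  simp only [rho]; push_cast; ring_nf

theorem rho_shift {i j : ℕ} (hj : 0 < j) :
    rho j ≤ rho (i + j) * ((2000 + (i : ℝ)) / 2000) ^ 2 := by
  rw [rho_eq hj, rho_eq (by omega), ← mul_pow]
  apply pow_le_pow_left₀ (by positivity)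
  push_cast
  rw [div_mul_div_comm, div_le_div_iff₀ (by positivity) (by positivity)]
  have : (0 : ℝ) ≤ (i : ℝ) * j := by positivity
  nlinarith

theorem wsum_real (t : List ℕ) (f : ℕ → ℝ) (hf0 : f 0 = 0)
    (hf : ∀ k, f (k + 1) = (t.getD k 0 : ℕ) / 1000000000000) (n : ℕ) :
    ∑ i ∈ range n, f i * ((2000 + (i : ℝ)) / 2000) ^ 2 ≤
      ((wsum 2001 t : ℕ) : ℝ) / (1000000000000 * 2000 ^ 2) := by
  have h1 : ∑ i ∈ range (n + 1), f i * ((2000 + (i : ℝ)) / 2000) ^ 2 ≤
      ((wsum 2001 t : ℕ) : ℝ) / (1000000000000 * 2000 ^ 2) := by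
    rw [sum_range_succ', hf0, zero_mul, add_zero, le_div_iff₀ (by positivity), sum_mul]
    have h2 := (Nat.cast_le (α := ℝ)).mpr (wsum_spec 2001 t n)
    push_cast at h2
    refine le_trans (le_of_eq ?_) h2
    refine sum_congr rfl fun k _ => ?_
    rw [hf]
    push_cast
    field_simp
    ring
  refine le_trans ?_ h1
  rw [sum_range_succ]
  have hfn : 0 ≤ f n := by
    cases n with
    | zero => rw [hf0]
    | succ n => rw [hf]; positivity
  have : 0 ≤ f n * ((2000 + (n : ℝ)) / 2000) ^ 2 := by positivity
  linarith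

/-- bound for the weighted sum of `Ar` -/
noncomputable def SA : ℝ := 13635221453025455925 / (1000000000000 * 2000 ^ 2)
noncomputable def SN : ℝ := 15639786486690635794 / (1000000000000 * 2000 ^ 2)

theorem conv_rho (f : ℕ → ℝ) (_ : f 0 = 0) (hfn : ∀ i, 0 ≤ f i) (S : ℝ)
    (hS : ∀ n, ∑ i ∈ range n, f i * ((2000 + (i : ℝ)) / 2000) ^ 2 ≤ S) (l : ℕ) (_ : 0 < l) :
    ∑ p ∈ antidiagonal l, f p.1 * rho p.2 ≤ rho l * S := by
  have h1 : ∀ p ∈ antidiagonal l, f p.1 * rho p.2 ≤
      rho l * (f p.1 * ((2000 + (p.1 : ℝ)) / 2000) ^ 2) := by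
    intro p hp
    rw [HasAntidiagonal.mem_antidiagonal] at hp
    rcases Nat.eq_zero_or_pos p.2 with h0 | hpos
    · rw [h0]
      have := rho_nonneg l; have := hfn p.1
      simp only [rho, mul_zero]
      positivity
    · have := rho_shift (i := p.1) hpos
      rw [hp] at this
      have := mul_le_mul_of_nonneg_left this (hfn p.1)
      linarith
  refine (sum_le_sum h1).trans ?_
  rw [← mul_sum]
  apply mul_le_mul_of_nonneg_left _ (rho_nonneg l)
  rw [Finset.Nat.sum_antidiagonal_eq_sum_range_succ
    (fun i _ => f i * ((2000 + (i : ℝ)) / 2000) ^ 2)]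
  exact hS _

theorem sum_rho_le (n : ℕ) : ∑ i ∈ range n, rho i ≤ 2000 := by
  have h : ∀ n, ∑ i ∈ range (n + 1), rho i ≤ 2000 * (1 - 2000 / (2000 + (n : ℝ))) := by
    intro n
    rw [sum_range_succ']
    simp only [rho, add_zero]
    induction n with
    | zero => norm_num
    | succ n ih =>
      rw [sum_range_succ]
      have h1 : (2000 / (2001 + (n : ℝ))) ^ 2 ≤
          2000 * (2000 / (2000 + (n : ℝ)) - 2000 / (2000 + ((n + 1 : ℕ) : ℝ))) := by
        push_cast
        have e : 2000 * (2000 / (2000 + (n : ℝ)) - 2000 / (2000 + ((n : ℝ) + 1))) =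
            2000 ^ 2 / ((2000 + (n : ℝ)) * (2001 + (n : ℝ))) := by
          field_simp; ring
        rw [e, div_pow]
        apply div_le_div_of_nonneg_left (by positivity) (by positivity)
        have : (0 : ℝ) ≤ n := by positivity
        nlinarith
      linarith
  cases n with
  | zero => norm_num
  | succ n =>
    refine (h n).trans ?_
    have : 0 ≤ 2000 / (2000 + (n : ℝ)) := by positivity
    linarith

theorem rho_half {i l : ℕ} (hl : 0 < l) (h : l ≤ 2 * i) : rho i ≤ 4 * rho l := by
  rw [rho_eq hl, rho_eq (by omega), show (4 : ℝ) = 2 ^ 2 by norm_num, ← mul_pow]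
  apply pow_le_pow_left₀ (by positivity)
  rw [mul_div_assoc', div_le_div_iff₀ (by positivity) (by positivity)]
  have : (l : ℝ) ≤ 2 * i := by exact_mod_cast h
  nlinarith

theorem conv_rho_rho (l : ℕ) (hl : 0 < l) :
    ∑ p ∈ antidiagonal l, rho p.1 * rho p.2 ≤ 16000 * rho l := by
  have h1 : ∀ p ∈ antidiagonal l, rho p.1 * rho p.2 ≤ 4 * rho l * (rho p.1 + rho p.2) := by
    intro p hp
    rw [HasAntidiagonal.mem_antidiagonal] at hp
    have a1 := rho_nonneg p.1; have a2 := rho_nonneg p.2; have a3 := rho_nonneg l
    rcases le_total l (2 * p.1) with h | h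
    · have := rho_half hl h
      nlinarith [mul_nonneg a3 a1, mul_le_mul_of_nonneg_right this a2]
    · have := rho_half hl (i := p.2) (by omega)
      nlinarith [mul_nonneg a3 a2, mul_le_mul_of_nonneg_left this a1]
  refine (sum_le_sum h1).trans ?_
  rw [← mul_sum, sum_add_distrib]
  rw [Finset.Nat.sum_antidiagonal_eq_sum_range_succ (fun i _ => rho i)]
  have e : ∑ p ∈ antidiagonal l, rho p.2 = ∑ i ∈ range l.succ, rho i := by
    rw [← Finset.Nat.sum_antidiagonal_swap]
    exact Finset.Nat.sum_antidiagonal_eq_sum_range_succ (fun i _ => rho i) l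
  rw [e]
  have := sum_rho_le l.succ
  have := rho_nonneg l
  nlinarith

theorem super (l : ℕ) (hl : 0 < l) :
    as l + rs * ∑ p ∈ antidiagonal l, as p.1 * ns p.2 ≤ ns l := by
  obtain ⟨-, -, h3, h4, -, -, -, -⟩ := check_spec
  have hSA : ∀ n, ∑ i ∈ range n, Ar i * ((2000 + (i : ℝ)) / 2000) ^ 2 ≤ SA := fun n =>
    (wsum_real atab Ar rfl (fun _ => rfl) n).trans (by
      unfold SA; gcongr; exact_mod_cast h3)
  have hSN : ∀ n, ∑ i ∈ range n, Nr i * ((2000 + (i : ℝ)) / 2000) ^ 2 ≤ SN := fun n =>
    (wsum_real tab Nr rfl (fun _ => rfl) n).trans (by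
      unfold SN; gcongr; exact_mod_cast h4)
  have e2 := conv_rho Ar rfl Ar_nonneg SA hSA l hl
  have e3 := conv_rho Nr rfl Nr_nonneg SN hSN l hl
  have e3' : ∑ p ∈ antidiagonal l, rho p.1 * Nr p.2 ≤ rho l * SN := by
    rw [← Finset.Nat.sum_antidiagonal_swap]
    refine le_trans (le_of_eq (sum_congr rfl fun p _ => ?_)) e3
    simp only [Prod.fst_swap, Prod.snd_swap]; ring
  have e4 := conv_rho_rho l hl
  have e1 := main_lin l hl
  set S1 := ∑ p ∈ antidiagonal l, Ar p.1 * Nr p.2
  set S2 := ∑ p ∈ antidiagonal l, Ar p.1 * rho p.2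
  set S3 := ∑ p ∈ antidiagonal l, rho p.1 * Nr p.2
  set S4 := ∑ p ∈ antidiagonal l, rho p.1 * rho p.2
  have e5 : ∑ p ∈ antidiagonal l, as p.1 * ns p.2 =
      xx ^ l * (S1 + ee * S2 + ee * qq * S3 + ee * ee * qq * S4) := by
    simp only [S1, S2, S3, S4, mul_sum, ← sum_add_distrib]
    refine sum_congr rfl fun p hp => ?_
    rw [HasAntidiagonal.mem_antidiagonal] at hp
    rw [← hp, pow_add]
    unfold as ns
    ring
  have hx : 0 < xx ^ l := pow_pos xx_pos l
  have hr := rho_nonneg l
  have hq := qq_pos; have he := ee_pos; have hs := rs_pos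
  have key : Ar l + ee * qq * rho l + rs * (S1 + ee * S2 + ee * qq * S3 + ee * ee * qq * S4) ≤
      Nr l + ee * rho l := by
    have f2 : rs * (ee * S2) ≤ rs * (ee * (rho l * SA)) := by gcongr
    have f3 : rs * (ee * qq * S3) ≤ rs * (ee * qq * (rho l * SN)) := by gcongr
    have f4 : rs * (ee * ee * qq * S4) ≤ rs * (ee * ee * qq * (16000 * rho l)) := by gcongr
    have fK : qq + rs * SA + rs * qq * SN + rs * ee * qq * 16000 ≤ 999503 / 1000000 := by
      norm_num [qq, rs, SA, SN, ee, ry, xx]
    have fK' := mul_le_mul_of_nonneg_left fK (mul_nonneg he.le hr)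
    have f1 : Ar l + rs * S1 ≤ Nr l + ee * rho l * (497 / 1000000) := by
      rcases e1 with ⟨h560, h⟩ | h
      · have g1 : (2000 / 2560 : ℝ) ^ 2 ≤ rho l := by
          rw [rho_eq hl]
          have : (l : ℝ) ≤ 560 := by exact_mod_cast h560
          apply pow_le_pow_left₀ (by norm_num)
          apply div_le_div_of_nonneg_left (by norm_num) (by positivity) (by linarith)
        have g2 : 300 / 1000000000000 ≤ ee * (2000 / 2560 : ℝ) ^ 2 * (497 / 1000000) := by
          norm_num [ee]
        have g3 : ee * (2000 / 2560 : ℝ) ^ 2 * (497 / 1000000) ≤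
            ee * rho l * (497 / 1000000) := by gcongr
        linarith
      · rw [h]
        have := Nr_nonneg l
        positivity
    nlinarith
  rw [e5]
  have := mul_le_mul_of_nonneg_left key hx.le
  unfold as ns
  nlinarith

theorem sum_ns_le (n : ℕ) : ∑ l ∈ range n, ns l ≤ 1101 / 1000 := by
  obtain ⟨-, -, -, -, h5, -, -, -⟩ := check_spec
  have h1 : ∑ l ∈ range (n + 1), ns l ≤ 1101 / 1000 := by
    rw [sum_range_succ']
    have h0 : ns 0 = 0 := by simp [ns, Nr, rho]
    rw [h0, add_zero]
    have h2 := tail_le n 1 one_pos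
    have e : ∀ j, ns (1 + j) = ns (j + 1) := fun j => by rw [add_comm]
    simp only [e] at h2
    refine h2.trans ?_
    have h3 : Ur 1 ≤ 2948745248533 / 1000000000000 := by
      simp only [Ur]
      rw [headD_eq] at h5
      have : (((up tab).getD 0 0 : ℕ) : ℝ) ≤ 2948745248533 := by exact_mod_cast h5
      linarith
    have h4 : rho 1 ≤ 1 := by simp only [rho]; norm_num
    have hx := xx_pos
    calc xx ^ 1 * (Ur 1 + ee * rho 1 / (1 - xx)) ≤
        xx ^ 1 * (2948745248533 / 1000000000000 + ee * 1 / (1 - xx)) := by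
          have : 0 < 1 - xx := by norm_num [xx]
          have := ee_pos
          gcongr
      _ ≤ 1101 / 1000 := by norm_num [xx, ee]
  refine le_trans ?_ h1
  rw [sum_range_succ]
  have := ns_nonneg n
  linarith

end NumUp

open NumUp in
theorem num_upper (t a : ℕ → ℕ → ℝ≥0∞) (h0 : ∀ l, t 0 l = 0) (h00 : ∀ n, t n 0 = 0)
    (hat : ∀ n l, a n l ≤ t n l) (ha : ∀ n l, a n l ≤ a (n + 1) l)
    (h1 : ∀ n l, 0 < l →
      a (n + 1) l ≤ (if l = 1 then ey else 0) + ey * ∑' m, (if l ≤ m then t n m else 0))
    (h2 : ∀ n l, t (n + 1) l ≤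
      a (n + 1) l + es * ∑ p ∈ antidiagonal l, a n p.1 * t n p.2) (n : ℕ) :
    ∑' l, t n l ≤ ENNReal.ofReal (1101 / 1000) := by
  have key : ∀ n l, t n l ≤ ENNReal.ofReal (ns l) := by
    intro n
    induction n with
    | zero => intro l; rw [h0]; exact zero_le
    | succ n ih =>
      -- bound of the `a`
      have hA : ∀ l, 0 < l → a (n + 1) l ≤ ENNReal.ofReal (as l) := by
        intro l hl
        refine (h1 n l hl).trans ?_
        have hsum : ∑' m, (if l ≤ m then t n m else 0) ≤
            ENNReal.ofReal (xx ^ l * (Ur l + ee * rho l / (1 - xx))) := by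
          refine ENNReal.tsum_le_of_sum_range_le fun N => ?_
          calc ∑ m ∈ range N, (if l ≤ m then t n m else 0) ≤
              ∑ m ∈ range (l + N), (if l ≤ m then t n m else 0) :=
                sum_le_sum_of_subset (by
                  intro m hm; rw [mem_range] at hm ⊢; omega)
            _ = ∑ j ∈ range N, t n (l + j) := by
                rw [sum_range_add]
                have z : ∑ m ∈ range l, (if l ≤ m then t n m else 0) = 0 := by
                  refine sum_eq_zero fun m hm => ?_
                  rw [mem_range] at hm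
                  rw [if_neg (by omega)]
                rw [z, zero_add]
                refine sum_congr rfl fun j _ => ?_
                rw [if_pos (by omega)]
            _ ≤ ∑ j ∈ range N, ENNReal.ofReal (ns (l + j)) := sum_le_sum fun j _ => ih _
            _ = ENNReal.ofReal (∑ j ∈ range N, ns (l + j)) := by
                rw [ENNReal.ofReal_sum_of_nonneg fun j _ => ns_nonneg _]
            _ ≤ _ := ENNReal.ofReal_le_ofReal (tail_le N l hl)
        have hy : (if l = 1 then ey else 0) = ENNReal.ofReal (if l = 1 then ry else 0) := by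
          split_ifs <;> simp [ey]
        have hB : 0 ≤ xx ^ l * (Ur l + ee * rho l / (1 - xx)) := by
          have := xx_pos; have := Ur_nonneg l; have := rho_nonneg l; have := ee_pos
          have : 0 < 1 - xx := by norm_num [xx]
          positivity
        rw [hy]
        calc ENNReal.ofReal (if l = 1 then ry else 0) + ey * ∑' m, (if l ≤ m then t n m else 0)
            ≤ ENNReal.ofReal (if l = 1 then ry else 0) +
              ENNReal.ofReal ry * ENNReal.ofReal (xx ^ l * (Ur l + ee * rho l / (1 - xx))) := by
                gcongr; exact le_refl _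
          _ = ENNReal.ofReal ((if l = 1 then ry else 0) +
              ry * (xx ^ l * (Ur l + ee * rho l / (1 - xx)))) := by
                rw [ENNReal.ofReal_add, ENNReal.ofReal_mul ry_pos.le]
                · split_ifs
                  · exact ry_pos.le
                  · exact le_rfl
                · exact mul_nonneg ry_pos.le hB
          _ ≤ ENNReal.ofReal (as l) := by
                apply ENNReal.ofReal_le_ofReal
                have h2 := Ar_ge l hl
                have h4 : 0 < xx ^ l := pow_pos xx_pos l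
                have h6 := mul_le_mul_of_nonneg_left h2 h4.le
                have h7 : xx ^ l * (if l = 1 then ry / xx else 0) = if l = 1 then ry else 0 := by
                  split_ifs with h
                  · rw [h, pow_one]; have := xx_pos; field_simp
                  · simp
                rw [mul_add, h7] at h6
                have h5 : as l = xx ^ l * Ar l + ry * (xx ^ l * (ee * rho l / (1 - xx))) := by
                  unfold as qq; ring
                rw [h5]
                have h8 : ry * (xx ^ l * (Ur l + ee * rho l / (1 - xx))) =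
                  xx ^ l * (ry * Ur l) + ry * (xx ^ l * (ee * rho l / (1 - xx))) := by ring
                linarith
      have hA' : ∀ l, a n l ≤ ENNReal.ofReal (as l) := by
        intro l
        rcases Nat.eq_zero_or_pos l with rfl | hl
        · refine (hat n 0).trans ?_
          rw [h00]; exact zero_le
        · exact (ha n l).trans (hA l hl)
      intro l
      rcases Nat.eq_zero_or_pos l with rfl | hl
      · rw [h00]; exact zero_le
      · refine (h2 n l).trans ?_
        calc a (n + 1) l + es * ∑ p ∈ antidiagonal l, a n p.1 * t n p.2 ≤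
            ENNReal.ofReal (as l) + ENNReal.ofReal rs *
              ∑ p ∈ antidiagonal l, ENNReal.ofReal (as p.1) * ENNReal.ofReal (ns p.2) := by
              gcongr with p _
              · exact hA l hl
              · exact le_refl _
              · exact hA' _
              · exact ih _
          _ = ENNReal.ofReal (as l + rs * ∑ p ∈ antidiagonal l, as p.1 * ns p.2) := by
              have e : ∀ p ∈ antidiagonal l, ENNReal.ofReal (as p.1) * ENNReal.ofReal (ns p.2) =
                  ENNReal.ofReal (as p.1 * ns p.2) := fun p _ => by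
                rw [ENNReal.ofReal_mul (as_nonneg _)]
              have hn : 0 ≤ ∑ p ∈ antidiagonal l, as p.1 * ns p.2 :=
                sum_nonneg fun p _ => mul_nonneg (as_nonneg _) (ns_nonneg _)
              rw [sum_congr rfl e, ← ENNReal.ofReal_sum_of_nonneg
                fun p _ => mul_nonneg (as_nonneg _) (ns_nonneg _), ← ENNReal.ofReal_mul rs_pos.le,
                ← ENNReal.ofReal_add (as_nonneg _) (mul_nonneg rs_pos.le hn)]
          _ ≤ ENNReal.ofReal (ns l) := ENNReal.ofReal_le_ofReal (super l hl)
  refine ENNReal.tsum_le_of_sum_range_le fun N => ?_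
  calc ∑ l ∈ range N, t n l ≤ ∑ l ∈ range N, ENNReal.ofReal (ns l) :=
        sum_le_sum fun l _ => key n l
    _ = ENNReal.ofReal (∑ l ∈ range N, ns l) := by
        rw [ENNReal.ofReal_sum_of_nonneg fun j _ => ns_nonneg _]
    _ ≤ _ := ENNReal.ofReal_le_ofReal (sum_ns_le N)

end PGr
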