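import Pool.Agent.PGr.ESum
import Pool.Agent.PGr.Consts
import Pool.Agent.PGr.NumUp
import Pool.Agent.PGr.NumLo
import Pool.Agent.PGr.TUpper
import Pool.Agent.PGr.TLower

/-! # Module EReal: the generating function of the maps in the reals -/

set_option linter.unusedSectionVars false

namespace PGr
open Equiv Finset
open scoped ENNReal Classical

theorem Es_le : Es es ey ≤ ENNReal.ofReal (1101 / 1000) :=
  Es_le_of_trunc _ _ _ (num_upper _ _ (tl_zero es ey) (tl_zero' es ey)
    (al_le_tl es ey) (al_mono es ey) (al_le es ey) (tl_le es ey))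

theorem le_Es : ENNReal.ofReal (11 / 10) ≤ Es es ey := by
  rw [Es_eq_tsum]
  exact num_lower _ _ (aL_ge es ey) (tL_ge es ey)

/-- the value of the generating function -/
noncomputable def rE : ℝ := (Es es ey).toReal

theorem Es_ne_top : Es es ey ≠ ⊤ := ne_top_of_le_ne_top ENNReal.ofReal_ne_top Es_le

theorem ofReal_rE : ENNReal.ofReal rE = Es es ey := ENNReal.ofReal_toReal Es_ne_top

theorem rE_le : rE ≤ 1101 / 1000 := by
  have h := ENNReal.toReal_mono ENNReal.ofReal_ne_top Es_le
  rwa [ENNReal.toReal_ofReal (by norm_num)] at h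

theorem le_rE : 11 / 10 ≤ rE := by
  have h := ENNReal.toReal_mono Es_ne_top le_Es
  rwa [ENNReal.toReal_ofReal (by norm_num)] at h

/-- the series part as a real number -/
noncomputable def rS : ℝ := rs * rE ^ 2 / (1 + rs * rE)

/-- upper bound for the rigid part -/
noncomputable def rR : ℝ := (Rg es (Es es ey)).toReal

theorem Rg_ne_top : Rg es (Es es ey) ≠ ⊤ :=
  ne_top_of_le_ne_top Es_ne_top (le_trans le_add_self (E_ge es ey))

theorem rR_le : ry + rS + rE ^ 2 / (1 + rE) + rR ≤ rE := by
  have hfin : ∀ P : BMap → Prop, Esel es ey P ≠ ⊤ := fun P =>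
    ne_top_of_le_ne_top Es_ne_top (le_trans le_self_add (Esel_add es ey P).le)
  set S := (Esel es ey IsSer).toReal with hS
  set S' := (Esel es ey (fun M => ¬ IsSer M)).toReal with hS'
  set P := (Esel es ey IsPar).toReal with hP
  set P' := (Esel es ey (fun M => ¬ IsPar M)).toReal with hP'
  have hes : es.toReal = rs := ENNReal.toReal_ofReal (by norm_num [rs])
  have hey : ey.toReal = ry := ENNReal.toReal_ofReal (by norm_num [ry])
  have hrs : (0 : ℝ) < rs := by norm_num [rs]
  have hE0 : 0 < rE := lt_of_lt_of_le (by norm_num) le_rE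
  have e1 : S + S' = rE := by
    rw [hS, hS', ← ENNReal.toReal_add (hfin _) (hfin _), Esel_add]; rfl
  have e2 : P + P' = rE := by
    rw [hP, hP', ← ENNReal.toReal_add (hfin _) (hfin _), Esel_add]; rfl
  have e3 : rs * S' * rE ≤ S := by
    have := ENNReal.toReal_mono (hfin _) (ser_ge es ey)
    rwa [ENNReal.toReal_mul, ENNReal.toReal_mul, hes] at this
  have e4 : P' * rE ≤ P := by
    have := ENNReal.toReal_mono (hfin _) (par_ge es ey)
    rwa [ENNReal.toReal_mul] at this
  have e5 : ry + S + P + rR ≤ rE := by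
    have h := ENNReal.toReal_mono Es_ne_top (E_ge es ey)
    rw [ENNReal.toReal_add, ENNReal.toReal_add, ENNReal.toReal_add, hey] at h
    · exact h
    · exact ENNReal.ofReal_ne_top
    · exact hfin _
    · exact ENNReal.add_ne_top.mpr ⟨ENNReal.ofReal_ne_top, hfin _⟩
    · exact hfin _
    · exact ENNReal.add_ne_top.mpr ⟨ENNReal.add_ne_top.mpr ⟨ENNReal.ofReal_ne_top, hfin _⟩, hfin _⟩
    · exact Rg_ne_top
  have e6 : rS ≤ S := by
    rw [rS, div_le_iff₀ (by positivity)]
    have : S' = rE - S := by linarith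
    rw [this] at e3
    nlinarith
  have e7 : rE ^ 2 / (1 + rE) ≤ P := by
    rw [div_le_iff₀ (by positivity)]
    have : P' = rE - P := by linarith
    rw [this] at e4
    nlinarith
  linarith

/-- `rS + rR ≤ rE / (1 + rE) - ry` -/
theorem rX_le : rS + rR ≤ rE / (1 + rE) - ry := by
  have h := rR_le
  have hE0 : 0 < rE := lt_of_lt_of_le (by norm_num) le_rE
  have : rE - rE ^ 2 / (1 + rE) = rE / (1 + rE) := by field_simp; ring
  linarith

end PGr
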