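import Pool.Agent.PGr.RGDefs

/-! # Hooks: definitions for the block of an edge at the root of a piece -/

set_option linter.unusedSectionVars false

namespace PGr
open Equiv Finset

/-- `hook d = none` if the edge of `d` is in the block of the edge of `r`, and `hook d = some c` if
it is separated from this block by the vertex `c` of the block. -/
structure Hook (G : RG) (r : G.D) where
  hook : G.D → Option G.V
  root : hook r = none
  hh : ∀ d, hook (G.a d) = hook d
  /-- the edges hooked at `c` share only `c` with the other edges -/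
  share : ∀ d d' c, hook d = some c → hook d' ≠ some c → G.inc d = G.inc d' → G.inc d = c
  ex1 : ∀ d c, hook d = some c → ∃ d', hook d' = some c ∧ G.inc d' = c
  ex2 : ∀ d c, hook d = some c → ∃ d', hook d' = none ∧ G.inc d' = c
  /-- the block is nonseparable -/
  ns : ∀ A : Finset G.D, Cl G.a A → (∀ d ∈ A, hook d = none) → A.Nonempty → r ∉ A →
    ∃ x y, x ≠ y ∧ ((∃ d ∈ A, G.inc d = x) ∧ ∃ d, d ∉ A ∧ hook d = none ∧ G.inc d = x) ∧
      ((∃ d ∈ A, G.inc d = y) ∧ ∃ d, d ∉ A ∧ hook d = none ∧ G.inc d = y)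

variable {G : RG} {r : G.D}

/-- the edges hooked at `c`, as a graph with root `c` -/
def Hook.rg (X : Hook G r) (c : G.V) : RG where
  D := {d : G.D // X.hook d = some c}
  V := {z : G.V // z = c ∨ ∃ d, X.hook d = some c ∧ G.inc d = z}
  a := G.a.subtypePerm (fun d => by rw [X.hh])
  inc := fun d => ⟨G.inc d.1, Or.inr ⟨d.1, d.2, rfl⟩⟩
  v0 := ⟨c, Or.inl rfl⟩

/-- the vertices of the block -/
abbrev Hook.BV (X : Hook G r) : Type := {z : G.V // ∃ d, X.hook d = none ∧ G.inc d = z}

/-- the block as a network, with root edge `r` -/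
def Hook.net (X : Hook G r) (hinv : ∀ d, G.a (G.a d) = d) (lab : X.BV → RC) : LNet RC where
  D := {d : G.D // X.hook d = none ∧ d ≠ r ∧ d ≠ G.a r}
  V := X.BV
  a := G.a.subtypePerm (fun d => by
    rw [X.hh]
    have h1 : G.a d ≠ r ↔ d ≠ G.a r := by
      rw [not_iff_not]; constructor
      · rintro rfl; rw [hinv]
      · rintro rfl; rw [hinv]
    have h2 : G.a d ≠ G.a r ↔ d ≠ r := by rw [not_iff_not, G.a.injective.eq_iff]
    rw [h1, h2]; tauto)
  inc := Sum.elim (fun d => ⟨G.inc d.1, d.1, d.2.1, rfl⟩)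
    (fun b => bif b then ⟨G.inc r, r, X.root, rfl⟩
      else ⟨G.inc (G.a r), G.a r, by rw [X.hh, X.root], rfl⟩)
  lab := lab

end PGr
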