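import Mathlib

/-!
# Planar maps by permutations: definitions

A map is a finite set `T` of darts with two permutations: `a` (the edge involution, no fixed
point) and `s` (the rotation; its cycles are the vertices).  The corner `t` lies between the darts
`t` and `s t`; the cycles of `a * s` are the faces (as sets of corners).
-/

set_option linter.unusedSectionVars false

namespace PGr
open Equiv Finset

section basic
variable {T : Type*} [Fintype T] [DecidableEq T]

/-- `A` is closed under the edge involution `a`, that is, `A` is a set of edges. -/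
def Cl (a : Perm T) (A : Finset T) : Prop := ∀ t, a t ∈ A ↔ t ∈ A

/-- the corners at which exactly one of the two neighbouring darts is in `A` -/
def bd (s : Perm T) (A : Finset T) : Finset T := univ.filter fun t => ¬ (t ∈ A ↔ s t ∈ A)

/-- the number of boundary corners of `A` -/
def cut (s : Perm T) (A : Finset T) : ℕ := (bd s A).card

/-- nonseparable -/
def NS (a s : Perm T) : Prop :=
  ∀ A : Finset T, Cl a A → A.Nonempty → A ≠ univ → 4 ≤ cut s A

/-- homological planarity (genus zero) -/
def Pl (a s : Perm T) : Prop :=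
  ∀ p q : T → ZMod 2, (∀ t, p t + q (a t) = p (s t) + q (s t)) →
    ∃ h : T → ZMod 2, (∀ t, h (a t) = h t) ∧ ∀ t, h t + h (s t) = p t + p (s t)

/-- nonseparable planar map with at least two edges -/
structure Good (a s : Perm T) : Prop where
  inv : ∀ t, a (a t) = t
  fpf : ∀ t, a t ≠ t
  ns : NS a s
  pl : Pl a s
  big : 4 ≤ Fintype.card T

/-- number of vertices -/
noncomputable def nV (s : Perm T) : ℕ := Nat.card (Quotient (Perm.SameCycle.setoid s))

end basic

section ret
variable {T : Type*} [Fintype T] [DecidableEq T]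

theorem exists_pow_mem (s : Perm T) (S : Finset T) (x : {x // x ∈ S}) :
    ∃ k, 0 < k ∧ (s ^ k) x.1 ∈ S :=
  ⟨orderOf s, orderOf_pos s, by simp [pow_orderOf_eq_one]⟩

/-- number of steps until the first return to `S` -/
def retK (s : Perm T) (S : Finset T) (x : {x // x ∈ S}) : ℕ := Nat.find (exists_pow_mem s S x)

theorem retK_pos (s : Perm T) (S : Finset T) (x : {x // x ∈ S}) : 0 < retK s S x :=
  (Nat.find_spec (exists_pow_mem s S x)).1

theorem retK_mem (s : Perm T) (S : Finset T) (x : {x // x ∈ S}) : (s ^ retK s S x) x.1 ∈ S :=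
  (Nat.find_spec (exists_pow_mem s S x)).2

theorem retK_min (s : Perm T) (S : Finset T) (x : {x // x ∈ S}) {k : ℕ} (hk : 0 < k)
    (h : k < retK s S x) : (s ^ k) x.1 ∉ S := fun hm =>
  Nat.find_min (exists_pow_mem s S x) h ⟨hk, hm⟩

theorem ret_inj (s : Perm T) (S : Finset T) :
    Function.Injective (fun x : {x // x ∈ S} => (⟨(s ^ retK s S x) x.1, retK_mem s S x⟩ :
      {x // x ∈ S})) := by
  have key : ∀ x y : {x // x ∈ S}, retK s S x ≤ retK s S y →
      (s ^ retK s S x) x.1 = (s ^ retK s S y) y.1 → x = y := by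
    intro x y hle he
    obtain ⟨m, hm⟩ := Nat.exists_eq_add_of_le hle
    rw [hm, pow_add, Perm.mul_apply] at he
    have h1 : x.1 = (s ^ m) y.1 := (s ^ retK s S x).injective he
    rcases Nat.eq_zero_or_pos m with h0 | hpos
    · subst h0; exact Subtype.ext (by simpa using h1)
    · exfalso
      have hlt : m < retK s S y := by have := retK_pos s S x; omega
      exact retK_min s S y hpos hlt (h1 ▸ x.2)
  intro x y hxy
  have he := congrArg Subtype.val hxy
  simp only at he
  rcases le_total (retK s S x) (retK s S y) with h | h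
  · exact key x y h he
  · exact (key y x h he.symm).symm

/-- the first return permutation of `s` on `S` -/
noncomputable def ret (s : Perm T) (S : Finset T) : Perm {x // x ∈ S} :=
  Equiv.ofBijective _ (Finite.injective_iff_bijective.mp (ret_inj s S))

theorem ret_val (s : Perm T) (S : Finset T) (x : {x // x ∈ S}) :
    (ret s S x).1 = (s ^ retK s S x) x.1 := rfl

/-- the restriction of the involution to a closed set of darts -/
def subA (a : Perm T) (S : Finset T) (hS : Cl a S) : Perm {x // x ∈ S} :=
  a.subtypePerm hS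

theorem subA_val (a : Perm T) (S : Finset T) (hS : Cl a S) (x : {x // x ∈ S}) :
    (subA a S hS x).1 = a x.1 := rfl

/-- the involution on `T ⊕ Bool`, with one more edge `{inr true, inr false}` -/
def ext {T : Type*} (a : Perm T) : Perm (T ⊕ Bool) := Perm.sumCongr a Equiv.boolNot

@[simp] theorem ext_inl {T : Type*} (a : Perm T) (t : T) : ext a (Sum.inl t) = Sum.inl (a t) := rfl
@[simp] theorem ext_inr {T : Type*} (a : Perm T) (b : Bool) : ext a (Sum.inr b) = Sum.inr (!b) := rfl

/-- insert the new darts `inr true`, `inr false` in the corners `c0`, `c1` -/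
def insS (s : Perm T) (c0 c1 : T) : Perm (T ⊕ Bool) :=
  Perm.sumCongr s (1 : Perm Bool) * swap (Sum.inl c0) (Sum.inr true) *
    swap (Sum.inl c1) (Sum.inr false)

end ret

/-! ### Rooted maps -/

/-- A rooted map with explicit root edge: the darts are `D ⊕ Bool`, the root dart is `inr true`,
and the other dart of the root edge is `inr false`. -/
structure BMap where
  D : Type
  [fD : Fintype D]
  [dD : DecidableEq D]
  a : Perm D
  s : Perm (D ⊕ Bool)

attribute [instance] BMap.fD BMap.dD

/-- all darts -/
abbrev BMap.T (M : BMap) : Type := M.D ⊕ Bool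

/-- the edge involution on all darts -/
def BMap.aa (M : BMap) : Perm M.T := ext M.a

/-- the two darts of the root edge -/
def BMap.root (M : BMap) : Finset M.T := {Sum.inr true, Sum.inr false}

/-- nonseparable planar rooted map with at least two edges -/
def BMap.IsGood (M : BMap) : Prop := Good M.aa M.s

/-- the dual map -/
def BMap.dual (M : BMap) : BMap := { D := M.D, a := M.a, s := M.aa * M.s }

/-- length of the root face (the face of the corner `inr true`) -/
noncomputable def BMap.rl (M : BMap) : ℕ :=
  Function.minimalPeriod (fun t => (M.aa * M.s) t) (Sum.inr true)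

/-- isomorphism of rooted maps -/
def BIso (M N : BMap) : Prop :=
  ∃ e : M.T ≃ N.T, (∀ t, e (M.aa t) = N.aa (e t)) ∧ (∀ t, e (M.s t) = N.s (e t)) ∧
    e (Sum.inr true) = Sum.inr true

theorem BIso.refl (M : BMap) : BIso M M := ⟨Equiv.refl _, fun _ => rfl, fun _ => rfl, rfl⟩

theorem BIso.symm {M N : BMap} (h : BIso M N) : BIso N M := by
  obtain ⟨e, h1, h2, h3⟩ := h
  refine ⟨e.symm, fun t => ?_, fun t => ?_, ?_⟩
  · rw [Equiv.symm_apply_eq, h1, Equiv.apply_symm_apply]
  · rw [Equiv.symm_apply_eq, h2, Equiv.apply_symm_apply]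
  · rw [Equiv.symm_apply_eq, h3]

theorem BIso.trans {M N K : BMap} (h : BIso M N) (h' : BIso N K) : BIso M K := by
  obtain ⟨e, h1, h2, h3⟩ := h
  obtain ⟨e', h1', h2', h3'⟩ := h'
  exact ⟨e.trans e', fun t => by simp [h1, h1'], fun t => by simp [h2, h2'], by simp [h3, h3']⟩

/-- good rooted maps -/
abbrev GB := {M : BMap // M.IsGood}

instance bSetoid : Setoid GB where
  r M N := BIso M.1 N.1
  iseqv := ⟨fun _ => BIso.refl _, fun h => h.symm, fun h h' => h.trans h'⟩

/-- isomorphism classes of good rooted maps -/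
abbrev GC := Quotient bSetoid

/-- a representative -/
noncomputable abbrev GC.rep (c : GC) : GB := Quotient.out c

/-- `A` is a prefix: a set of edges without the root, containing the dart after the root dart,
not everything else, such that `A` and `A` with the root have cut `4`. -/
structure Pref (M : BMap) (A : Finset M.T) : Prop where
  cl : Cl M.aa A
  root : Sum.inr true ∉ A
  fst : M.s (Sum.inr true) ∈ A
  rest : A ∪ M.root ≠ univ
  cut4 : cut M.s A = 4
  cut4' : cut M.s (A ∪ M.root) = 4

/-- `M` is a series composition -/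
def IsSer (M : BMap) : Prop := ∃ A, Pref M A ∧ M.s⁻¹ (Sum.inr true) ∈ A

/-- `M` is a parallel composition -/
def IsPar (M : BMap) : Prop := IsSer M.dual

/-- at least four edges, and all nontrivial cuts larger than `4` -/
def Rigid (M : BMap) : Prop :=
  8 ≤ Fintype.card M.T ∧ ∀ A : Finset M.T, Cl M.aa A → 4 ≤ A.card → A.card + 4 ≤ Fintype.card M.T →
    4 < cut M.s A

open scoped ENNReal

/-- weight `s^(V-2) y^(E-1)` -/
noncomputable def W (s y : ℝ≥0∞) (M : BMap) : ℝ≥0∞ :=
  s ^ (nV M.s - 2) * y ^ (Fintype.card M.D / 2)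

/-! ### Insertion of an edge -/

/-- a new root edge is inserted in the root face, from the root corner to the `k`-th corner -/
noncomputable def insMap (N : BMap) (k : ℕ) : BMap :=
  { D := N.T, a := N.aa,
    s := insS N.s (Sum.inr true) (((N.aa * N.s) ^ k) (Sum.inr true)) }

/-! ### Composition -/

theorem cut_root_lt {M : BMap} (b : Bool) (h : ∃ b', M.s (Sum.inr b) = Sum.inr b') :
    cut M.s M.root < 4 := by
  obtain ⟨b', hb'⟩ := h
  have h3 : bd M.s M.root ⊆ {Sum.inr (!b), M.s.symm (Sum.inr (!b'))} := by
    intro t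
    simp only [bd, BMap.root, mem_filter, mem_univ, true_and, mem_insert, mem_singleton]
    intro ht
    by_cases h1 : t = Sum.inr b
    · exfalso
      apply ht
      rw [h1, hb']
      cases b <;> cases b' <;> simp
    · by_cases h2 : t = Sum.inr (!b)
      · exact Or.inl h2
      · right
        rw [Equiv.eq_symm_apply]
        have h4 : ¬ (t = Sum.inr true ∨ t = Sum.inr false) := by
          cases b <;> simp_all
        have h5 : M.s t = Sum.inr true ∨ M.s t = Sum.inr false := by tauto
        have h6 : M.s t ≠ Sum.inr b' := fun h => h1 (M.s.injective (h.trans hb'.symm))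
        cases b' <;> simp_all
  have h4 : cut M.s M.root ≤ 2 := (card_le_card h3).trans (card_insert_le _ _)
  omega

theorem exists_fst (M : GB) (b : Bool) : ∃ d, M.1.s (Sum.inr b) = Sum.inl d := by
  rcases h : M.1.s (Sum.inr b) with d | b'
  · exact ⟨d, rfl⟩
  · exfalso
    have h1 := cut_root_lt (M := M.1) b ⟨b', h⟩
    have h2 : 4 ≤ cut M.1.s M.1.root := by
      refine M.2.ns _ ?_ ⟨Sum.inr true, by simp [BMap.root]⟩ ?_
      · intro t
        rcases t with d | b
        · simp [BMap.root, BMap.aa]
        · cases b <;> simp [BMap.root, BMap.aa]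
      · intro hu
        have := M.2.big
        rw [← card_univ, ← hu] at this
        have h3 : M.1.root.card ≤ 2 := card_insert_le _ _
        omega
    omega

/-- the dart following the root dart `inr b` -/
noncomputable def fstD (M : GB) (b : Bool) : M.1.D := (exists_fst M b).choose

theorem fstD_spec (M : GB) (b : Bool) : M.1.s (Sum.inr b) = Sum.inl (fstD M b) :=
  (exists_fst M b).choose_spec

/-- a rooted map whose non-root darts are `I × Bool` -/
structure Core where
  I : Type
  [fI : Fintype I]
  [dI : DecidableEq I]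
  s : Perm ((I × Bool) ⊕ Bool)

attribute [instance] Core.fI Core.dI

def Core.toB (C : Core) : BMap :=
  { D := C.I × Bool, a := Equiv.prodCongr (Equiv.refl _) Equiv.boolNot, s := C.s }

section comp
variable (C : Core) (N : C.I → GB)

/-- entering a core dart means entering the net at its first dart -/
noncomputable def jump : (C.I × Bool) ⊕ Bool → (Σ i, (N i).1.D) ⊕ Bool
  | Sum.inl (j, b) => Sum.inl ⟨j, fstD (N j) b⟩
  | Sum.inr b => Sum.inr b

/-- the rotation of the composite, as a function -/
noncomputable def compFun : (Σ i, (N i).1.D) ⊕ Bool → (Σ i, (N i).1.D) ⊕ Bool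
  | Sum.inl ⟨i, d⟩ =>
    match (N i).1.s (Sum.inl d) with
    | Sum.inl d' => Sum.inl ⟨i, d'⟩
    | Sum.inr b => jump C N (C.s (Sum.inl (i, b)))
  | Sum.inr b => jump C N (C.s (Sum.inr b))

theorem compFun_in {i : C.I} {d d' : (N i).1.D} (h : (N i).1.s (Sum.inl d) = Sum.inl d') :
    compFun C N (Sum.inl ⟨i, d⟩) = Sum.inl ⟨i, d'⟩ := by
  simp only [compFun, h]

theorem compFun_out {i : C.I} {d : (N i).1.D} {b : Bool}
    (h : (N i).1.s (Sum.inl d) = Sum.inr b) :
    compFun C N (Sum.inl ⟨i, d⟩) = jump C N (C.s (Sum.inl (i, b))) := by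
  simp only [compFun, h]

theorem jump_inj : Function.Injective (jump C N) := by
  rintro (⟨j, b⟩ | b) (⟨j', b'⟩ | b') h
  · simp only [jump, Sum.inl.injEq, Sigma.mk.inj_iff] at h
    obtain ⟨rfl, h⟩ := h
    have h1 := fstD_spec (N j) b
    have h2 := fstD_spec (N j) b'
    rw [eq_of_heq h, ← h2] at h1
    have := (N j).1.s.injective h1
    simp only [Sum.inr.injEq] at this
    rw [this]
  · simp [jump] at h
  · simp [jump] at h
  · simp only [jump, Sum.inr.injEq] at h; rw [h]

/-- a non-root dart whose predecessor in the net is not a root dart is not hit by a jump -/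
theorem jump_ne {i : C.I} {d d' : (N i).1.D} (h : (N i).1.s (Sum.inl d) = Sum.inl d')
    (x : (C.I × Bool) ⊕ Bool) : jump C N x ≠ Sum.inl ⟨i, d'⟩ := by
  rcases x with ⟨j, b⟩ | b
  · intro hx
    simp only [jump, Sum.inl.injEq, Sigma.mk.inj_iff] at hx
    obtain ⟨rfl, hx⟩ := hx
    have h1 := fstD_spec (N j) b
    rw [eq_of_heq hx, ← h] at h1
    have := (N j).1.s.injective h1
    simp at this
  · intro hx; simp [jump] at hx

theorem compFun_inj : Function.Injective (compFun C N) := by
  have key : ∀ x : (Σ i, (N i).1.D) ⊕ Bool,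
      (∃ i d d', x = Sum.inl ⟨i, d⟩ ∧ (N i).1.s (Sum.inl d) = Sum.inl d' ∧
        compFun C N x = Sum.inl ⟨i, d'⟩) ∨
      (∃ y : (C.I × Bool) ⊕ Bool, compFun C N x = jump C N (C.s y) ∧
        ((∃ i d b, x = Sum.inl ⟨i, d⟩ ∧ (N i).1.s (Sum.inl d) = Sum.inr b ∧ y = Sum.inl (i, b)) ∨
          ∃ b, x = Sum.inr b ∧ y = Sum.inr b)) := by
    rintro (⟨i, d⟩ | b)
    · rcases h : (N i).1.s (Sum.inl d) with d' | b
      · exact Or.inl ⟨i, d, d', rfl, h, compFun_in C N h⟩
      · exact Or.inr ⟨Sum.inl (i, b), compFun_out C N h, Or.inl ⟨i, d, b, rfl, h, rfl⟩⟩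
    · exact Or.inr ⟨Sum.inr b, rfl, Or.inr ⟨b, rfl, rfl⟩⟩
  intro x x' hx
  rcases key x with ⟨i, d, d', rfl, h, hc⟩ | ⟨y, hc, hy⟩
  · rcases key x' with ⟨i', e, e', rfl, h', hc'⟩ | ⟨y', hc', hy'⟩
    · rw [hc, hc'] at hx
      simp only [Sum.inl.injEq, Sigma.mk.inj_iff] at hx
      obtain ⟨rfl, hx⟩ := hx
      rw [eq_of_heq hx, ← h'] at h
      have := (N i).1.s.injective h
      simp only [Sum.inl.injEq] at this
      rw [this]
    · rw [hc, hc'] at hx
      exact absurd hx.symm (jump_ne C N h _)
  · rcases key x' with ⟨i', e, e', rfl, h', hc'⟩ | ⟨y', hc', hy'⟩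
    · rw [hc, hc'] at hx
      exact absurd hx (jump_ne C N h' _)
    · rw [hc, hc'] at hx
      have hyy : y = y' := C.s.injective (jump_inj C N hx)
      subst hyy
      rcases hy with ⟨i, d, b, rfl, h, rfl⟩ | ⟨b, rfl, rfl⟩
      · rcases hy' with ⟨i', e, b', rfl, h', hi⟩ | ⟨b', rfl, hi⟩
        · simp only [Sum.inl.injEq, Prod.mk.injEq] at hi
          obtain ⟨rfl, rfl⟩ := hi
          have := (N i).1.s.injective (h.trans h'.symm)
          simp only [Sum.inl.injEq] at this
          rw [this]
        · simp at hi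
      · rcases hy' with ⟨i', e, b', rfl, h', hi⟩ | ⟨b', rfl, hi⟩
        · simp at hi
        · simp only [Sum.inr.injEq] at hi; rw [hi]

/-- the composite: the edge `i` of the core is replaced by the net `N i` -/
noncomputable def comp : BMap :=
  { D := Σ i, (N i).1.D
    a := Equiv.sigmaCongrRight fun i => (N i).1.a
    s := Equiv.ofBijective (compFun C N) (Finite.injective_iff_bijective.mp (compFun_inj C N)) }

theorem comp_s_in {i : C.I} {d d' : (N i).1.D} (h : (N i).1.s (Sum.inl d) = Sum.inl d') :
    (comp C N).s (Sum.inl ⟨i, d⟩) = Sum.inl ⟨i, d'⟩ := compFun_in C N h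

theorem comp_s_out {i : C.I} {d : (N i).1.D} {b : Bool}
    (h : (N i).1.s (Sum.inl d) = Sum.inr b) :
    (comp C N).s (Sum.inl ⟨i, d⟩) = jump C N (C.s (Sum.inl (i, b))) := compFun_out C N h

theorem comp_s_root (b : Bool) : (comp C N).s (Sum.inr b) = jump C N (C.s (Sum.inr b)) := rfl

end comp

/-- the triangle: first edge `true`, second edge `false` -/
def tri : Core :=
  { I := Bool
    s := swap (Sum.inr true) (Sum.inl (true, true)) *
      swap (Sum.inl (true, false)) (Sum.inl (false, true)) *
      swap (Sum.inl (false, false)) (Sum.inr false) }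

/-- the two nets of a series composition -/
def serNets (N₁ N₂ : GB) : tri.I → GB
  | true => N₁
  | false => N₂

/-- series composition -/
noncomputable def serMap (N₁ N₂ : GB) : BMap := comp tri (serNets N₁ N₂)

/-- the map with two vertices and two parallel edges -/
def digonB : BMap :=
  { D := Bool, a := Equiv.boolNot, s := Equiv.sumComm Bool Bool }

end PGr
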