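import Pool.Agent.PGr.InsBasic
import Pool.Agent.PGr.NoPinch

/-! # Module InsPl: an edge inserted in a face preserves planarity and nonseparability -/

set_option linter.unusedSectionVars false

namespace PGr
open Equiv Finset

section
variable {T : Type*} [Fintype T] [DecidableEq T] {a s : Perm T} {c0 c1 : T}

theorem InsPl.two (x : ZMod 2) : x + x = 0 := CharTwo.add_self_eq_zero x

theorem InsPl.eq_of_add {x y : ZMod 2} (h : x + y = 0) : x = y := by
  have h1 : x + y + y = 0 + y := by rw [h]
  rwa [add_assoc, InsPl.two, add_zero, zero_add] at h1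

theorem InsPl.exists_pow {f : Perm T} {x y : T} (h : f.SameCycle x y) :
    ∃ k : ℕ, (f ^ k) x = y := by
  obtain ⟨k, -, hk⟩ := h.exists_pow_eq'
  exact ⟨k, hk⟩

/-- `h t + Q (a t)` is constant on faces -/
theorem InsPl.face (hinv : ∀ t, a (a t) = t) {P Q h : T → ZMod 2}
    (he : ∀ t, P t + Q (a t) = P (s t) + Q (s t)) (ha : ∀ t, h (a t) = h t)
    (hs : ∀ t, h t + h (s t) = P t + P (s t)) (t : T) (k : ℕ) :
    h (((a * s) ^ k) t) + Q (a (((a * s) ^ k) t)) = h t + Q (a t) := by
  induction k with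
  | zero => rfl
  | succ k ih =>
    rw [pow_succ', Perm.mul_apply, ← ih]
    generalize ((a * s) ^ k) t = u
    rw [Perm.mul_apply, ha, hinv]
    have h1 := he u
    have h2 := hs u
    have h3 : h (s u) + Q (s u) + (h u + Q (a u)) = (h u + h (s u)) + (Q (a u) + Q (s u)) := by
      ring
    have h4 : Q (a u) + Q (s u) = P u + P (s u) := by
      have h5 : P u + Q (a u) + (P u + Q (s u)) = P (s u) + Q (s u) + (P u + Q (s u)) := by rw [h1]
      have h6 : P u + Q (a u) + (P u + Q (s u)) = (P u + P u) + (Q (a u) + Q (s u)) := by ring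
      have h7 : P (s u) + Q (s u) + (P u + Q (s u)) = (Q (s u) + Q (s u)) + (P u + P (s u)) := by
        ring
      rw [h6, h7, InsPl.two, InsPl.two, zero_add, zero_add] at h5
      exact h5
    rw [h2, h4, InsPl.two] at h3
    exact InsPl.eq_of_add h3

theorem Pl.ins (hinv : ∀ t, a (a t) = t) (h : Pl a s) (hc : c0 ≠ c1)
    (hf : (a * s).SameCycle c0 c1) : Pl (ext a) (insS s c0 c1) := by
  classical
  intro P Q hPQ
  -- the equations at the new darts
  have e0 : P (Sum.inl c0) + Q (Sum.inl (a c0)) = P (Sum.inr true) + Q (Sum.inr true) := by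
    have h1 := hPQ (Sum.inl c0)
    rwa [insS_c0 s hc] at h1
  have e0' : P (Sum.inr true) + Q (Sum.inr false) = P (Sum.inl (s c0)) + Q (Sum.inl (s c0)) := by
    have h1 := hPQ (Sum.inr true)
    rwa [insS_true s hc] at h1
  have e1 : P (Sum.inl c1) + Q (Sum.inl (a c1)) = P (Sum.inr false) + Q (Sum.inr false) := by
    have h1 := hPQ (Sum.inl c1)
    rwa [insS_c1 s hc] at h1
  have e1' : P (Sum.inr false) + Q (Sum.inr true) = P (Sum.inl (s c1)) + Q (Sum.inl (s c1)) := by
    have h1 := hPQ (Sum.inr false)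
    rwa [insS_false s hc] at h1
  have e2 : ∀ t, t ≠ c0 → t ≠ c1 →
      P (Sum.inl t) + Q (Sum.inl (a t)) = P (Sum.inl (s t)) + Q (Sum.inl (s t)) := by
    intro t h0 h1
    have h2 := hPQ (Sum.inl t)
    rwa [insS_inl s hc h0 h1] at h2
  obtain ⟨τ, hτ⟩ : ∃ τ : ZMod 2, τ = Q (Sum.inr true) + Q (Sum.inr false) := ⟨_, rfl⟩
  have d0 : P (Sum.inl c0) + Q (Sum.inl (a c0)) + τ = P (Sum.inl (s c0)) + Q (Sum.inl (s c0)) := by
    rw [e0, ← e0', hτ]
    have h1 : P (Sum.inr true) + Q (Sum.inr true) + (Q (Sum.inr true) + Q (Sum.inr false)) =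
      (Q (Sum.inr true) + Q (Sum.inr true)) + (P (Sum.inr true) + Q (Sum.inr false)) := by ring
    rw [h1, InsPl.two, zero_add]
  have d1 : P (Sum.inl c1) + Q (Sum.inl (a c1)) + τ = P (Sum.inl (s c1)) + Q (Sum.inl (s c1)) := by
    rw [e1, ← e1', hτ]
    have h1 : P (Sum.inr false) + Q (Sum.inr false) + (Q (Sum.inr true) + Q (Sum.inr false)) =
      (Q (Sum.inr false) + Q (Sum.inr false)) + (P (Sum.inr false) + Q (Sum.inr true)) := by ring
    rw [h1, InsPl.two, zero_add]
  -- the walk along the face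
  have hex := InsPl.exists_pow hf
  obtain ⟨k, hk, hmin⟩ : ∃ k : ℕ, ((a * s) ^ k) c0 = c1 ∧ ∀ j < k, ((a * s) ^ j) c0 ≠ c1 :=
    ⟨Nat.find hex, Nat.find_spec hex, fun j hj => Nat.find_min hex hj⟩
  have hk0 : 0 < k := by
    rcases Nat.eq_zero_or_pos k with h0 | h0
    · subst h0
      exact absurd hk hc
    · exact h0
  have hc0 : ∀ j, 0 < j → j ≤ k → ((a * s) ^ j) c0 ≠ c0 := by
    intro j hj hjk h1
    refine hmin (k - j) (by omega) ?_
    have h2 : k = (k - j) + j := by omega
    rw [h2, pow_add, Perm.mul_apply, h1] at hk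
    exact hk
  let F : T → Prop := fun t => ∃ j < k, t = s (((a * s) ^ j) c0)
  have hFs : ∀ t, F (s t) ↔ ∃ j < k, t = ((a * s) ^ j) c0 := fun t =>
    exists_congr fun j => and_congr_right fun _ => s.injective.eq_iff
  have hFa : ∀ t, F (a t) ↔ ∃ j < k, t = ((a * s) ^ (j + 1)) c0 := fun t =>
    exists_congr fun j => and_congr_right fun _ => by
      rw [pow_succ', Perm.mul_apply, Perm.mul_apply]
      constructor
      · intro h1
        rw [← h1, hinv]
      · intro h1
        rw [h1, hinv]
  have f0s : F (s c0) := (hFs c0).2 ⟨0, hk0, rfl⟩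
  have f0a : ¬ F (a c0) := fun h1 => by
    obtain ⟨j, hj, h2⟩ := (hFa c0).1 h1
    exact hc0 (j + 1) (by omega) (by omega) h2.symm
  have f1s : ¬ F (s c1) := fun h1 => by
    obtain ⟨j, hj, h2⟩ := (hFs c1).1 h1
    exact hmin j hj h2.symm
  have f1a : F (a c1) := (hFa c1).2 ⟨k - 1, by omega, by rw [Nat.sub_add_cancel hk0, hk]⟩
  have f2 : ∀ t, t ≠ c0 → t ≠ c1 → (F (s t) ↔ F (a t)) := by
    intro t h0 h1
    rw [hFs, hFa]
    constructor
    · rintro ⟨j, hj, h2⟩
      rcases Nat.eq_zero_or_pos j with h3 | h3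
      · subst h3
        exact absurd h2 h0
      · exact ⟨j - 1, by omega, by rw [Nat.sub_add_cancel h3]; exact h2⟩
    · rintro ⟨j, hj, h2⟩
      by_cases h3 : j + 1 = k
      · rw [h3, hk] at h2
        exact absurd h2 h1
      · exact ⟨j + 1, by omega, h2⟩
  -- the modified potential
  let Q' : T → ZMod 2 := fun t => Q (Sum.inl t) + if F t then τ else 0
  obtain ⟨g, g1, g2⟩ := h (fun t => P (Sum.inl t)) Q' (by
    intro t
    change P (Sum.inl t) + (Q (Sum.inl (a t)) + if F (a t) then τ else 0) =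
      P (Sum.inl (s t)) + (Q (Sum.inl (s t)) + if F (s t) then τ else 0)
    by_cases h0 : t = c0
    · subst h0
      rw [if_neg f0a, if_pos f0s, add_zero, ← add_assoc, ← d0, add_assoc _ τ τ, InsPl.two, add_zero]
    · by_cases h1 : t = c1
      · subst h1
        rw [if_pos f1a, if_neg f1s, add_zero, ← add_assoc, d1]
      · have h3 := f2 t h0 h1
        by_cases h4 : F (s t)
        · rw [if_pos h4, if_pos (h3.1 h4), ← add_assoc, ← add_assoc, e2 t h0 h1]
        · rw [if_neg h4, if_neg (fun h5 => h4 (h3.2 h5)), add_zero, add_zero, e2 t h0 h1])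
  have hq : ∀ t, P (Sum.inl t) + Q' (a t) = P (Sum.inl (s t)) + Q' (s t) := by
    intro t
    change P (Sum.inl t) + (Q (Sum.inl (a t)) + if F (a t) then τ else 0) =
      P (Sum.inl (s t)) + (Q (Sum.inl (s t)) + if F (s t) then τ else 0)
    by_cases h0 : t = c0
    · subst h0
      rw [if_neg f0a, if_pos f0s, add_zero, ← add_assoc, ← d0, add_assoc _ τ τ, InsPl.two, add_zero]
    · by_cases h1 : t = c1
      · subst h1
        rw [if_pos f1a, if_neg f1s, add_zero, ← add_assoc, d1]
      · have h3 := f2 t h0 h1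
        by_cases h4 : F (s t)
        · rw [if_pos h4, if_pos (h3.1 h4), ← add_assoc, ← add_assoc, e2 t h0 h1]
        · rw [if_neg h4, if_neg (fun h5 => h4 (h3.2 h5)), add_zero, add_zero, e2 t h0 h1]
  have hface := InsPl.face hinv hq g1 g2 c0 k
  rw [hk] at hface
  have hface' : g c1 + (Q (Sum.inl (a c1)) + τ) = g c0 + Q (Sum.inl (a c0)) := by
    have h1 : g c1 + (Q (Sum.inl (a c1)) + if F (a c1) then τ else 0) =
      g c0 + (Q (Sum.inl (a c0)) + if F (a c0) then τ else 0) := hface
    rwa [if_pos f1a, if_neg f0a, add_zero] at h1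
  -- the solution
  have hend : g c0 + P (Sum.inl c0) + P (Sum.inr true) = g c1 + P (Sum.inl c1) + P (Sum.inr false) := by
    apply InsPl.eq_of_add
    have h1 : g c0 + P (Sum.inl c0) + P (Sum.inr true) +
        (g c1 + P (Sum.inl c1) + P (Sum.inr false)) =
        (g c0 + Q (Sum.inl (a c0))) + (g c1 + (Q (Sum.inl (a c1)) + τ)) +
          (P (Sum.inl c0) + Q (Sum.inl (a c0)) + (P (Sum.inr true) + Q (Sum.inr true))) +
          (P (Sum.inl c1) + Q (Sum.inl (a c1)) + (P (Sum.inr false) + Q (Sum.inr false))) +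
          (τ + (Q (Sum.inr true) + Q (Sum.inr false))) := by
      have h2 : (g c0 + Q (Sum.inl (a c0))) + (g c1 + (Q (Sum.inl (a c1)) + τ)) +
          (P (Sum.inl c0) + Q (Sum.inl (a c0)) + (P (Sum.inr true) + Q (Sum.inr true))) +
          (P (Sum.inl c1) + Q (Sum.inl (a c1)) + (P (Sum.inr false) + Q (Sum.inr false))) +
          (τ + (Q (Sum.inr true) + Q (Sum.inr false))) =
          g c0 + P (Sum.inl c0) + P (Sum.inr true) +
            (g c1 + P (Sum.inl c1) + P (Sum.inr false)) +
            (Q (Sum.inl (a c0)) + Q (Sum.inl (a c0))) + (Q (Sum.inl (a c1)) + Q (Sum.inl (a c1))) +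
            (τ + τ) + (Q (Sum.inr true) + Q (Sum.inr true)) +
            (Q (Sum.inr false) + Q (Sum.inr false)) := by ring
      rw [h2, InsPl.two, InsPl.two, InsPl.two, InsPl.two, InsPl.two]
      simp only [add_zero]
    rw [h1, hface', InsPl.two, e0, e1, InsPl.two, InsPl.two, ← hτ]
    simp only [zero_add]
    rw [InsPl.two (P (Sum.inr false) + Q (Sum.inr false)), InsPl.two τ, add_zero]
  let v : ZMod 2 := g c0 + P (Sum.inl c0) + P (Sum.inr true)
  have hv1 : v = g c1 + P (Sum.inl c1) + P (Sum.inr false) := hend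
  refine ⟨Sum.elim g (fun _ => v), ?_, ?_⟩
  · rintro (t | b)
    · exact g1 t
    · rfl
  · rintro (t | b)
    · by_cases h0 : t = c0
      · subst h0
        rw [insS_c0 s hc]
        change g t + (g t + P (Sum.inl t) + P (Sum.inr true)) = _
        have h1 : g t + (g t + P (Sum.inl t) + P (Sum.inr true)) =
          (g t + g t) + (P (Sum.inl t) + P (Sum.inr true)) := by ring
        rw [h1, InsPl.two, zero_add]
      · by_cases h1 : t = c1
        · subst h1
          rw [insS_c1 s hc]
          change g t + v = _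
          rw [hv1]
          have h1 : g t + (g t + P (Sum.inl t) + P (Sum.inr false)) =
            (g t + g t) + (P (Sum.inl t) + P (Sum.inr false)) := by ring
          rw [h1, InsPl.two, zero_add]
        · rw [insS_inl s hc h0 h1]
          exact g2 t
    · cases b
      · rw [insS_false s hc]
        change v + g (s c1) = _
        rw [hv1]
        have h1 : g c1 + P (Sum.inl c1) + P (Sum.inr false) + g (s c1) =
          (g c1 + g (s c1)) + (P (Sum.inl c1) + P (Sum.inr false)) := by ring
        have h2 : g c1 + g (s c1) = P (Sum.inl c1) + P (Sum.inl (s c1)) := g2 c1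
        rw [h1, h2]
        have h3 : P (Sum.inl c1) + P (Sum.inl (s c1)) + (P (Sum.inl c1) + P (Sum.inr false)) =
          (P (Sum.inl c1) + P (Sum.inl c1)) + (P (Sum.inr false) + P (Sum.inl (s c1))) := by ring
        rw [h3, InsPl.two, zero_add]
      · rw [insS_true s hc]
        change g c0 + P (Sum.inl c0) + P (Sum.inr true) + g (s c0) = _
        have h1 : g c0 + P (Sum.inl c0) + P (Sum.inr true) + g (s c0) =
          (g c0 + g (s c0)) + (P (Sum.inl c0) + P (Sum.inr true)) := by ring
        have h2 : g c0 + g (s c0) = P (Sum.inl c0) + P (Sum.inl (s c0)) := g2 c0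
        rw [h1, h2]
        have h3 : P (Sum.inl c0) + P (Sum.inl (s c0)) + (P (Sum.inl c0) + P (Sum.inr true)) =
          (P (Sum.inl c0) + P (Sum.inl c0)) + (P (Sum.inr true) + P (Sum.inl (s c0))) := by ring
        rw [h3, InsPl.two, zero_add]

theorem Good.ins (h : Good a s) (hc : c0 ≠ c1) (hf : (a * s).SameCycle c0 c1) :
    Good (ext a) (insS s c0 c1) where
  inv := by
    rintro (t | b)
    · rw [ext_inl, ext_inl, h.inv]
    · rw [ext_inr, ext_inr, Bool.not_not]
  fpf := by
    rintro (t | b) h1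
    · rw [ext_inl] at h1
      exact h.fpf t (Sum.inl_injective h1)
    · rw [ext_inr] at h1
      have h2 := Sum.inr_injective h1
      cases b <;> exact Bool.noConfusion h2
  ns := by
    have key : ∀ A : Finset (T ⊕ Bool), Cl (ext a) A → A.Nonempty → Sum.inr true ∉ A →
        4 ≤ cut (insS s c0 c1) A := by
      intro A hA hne hr
      have hr' : Sum.inr false ∉ A := fun h1 => hr ((hA (Sum.inr true)).1 h1)
      have hAm : A = (univ.filter fun t : T => (Sum.inl t : T ⊕ Bool) ∈ A).map
          ⟨Sum.inl, Sum.inl_injective⟩ := by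
        ext x
        rw [mem_map]
        constructor
        · intro hx
          rcases x with t | b
          · exact ⟨t, mem_filter.2 ⟨mem_univ _, hx⟩, rfl⟩
          · cases b
            · exact absurd hx hr'
            · exact absurd hx hr
        · rintro ⟨t, ht, rfl⟩
          exact (mem_filter.1 ht).2
      set A' : Finset T := univ.filter fun t : T => (Sum.inl t : T ⊕ Bool) ∈ A with hA'
      have hcl : Cl a A' := by
        intro t
        rw [hA', mem_filter, mem_filter]
        exact and_congr (by simp) (hA (Sum.inl t))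
      have hne' : A'.Nonempty := by
        obtain ⟨x, hx⟩ := hne
        rw [hAm, mem_map] at hx
        obtain ⟨t, ht, -⟩ := hx
        exact ⟨t, ht⟩
      rw [hAm, cut_insS_inl s hc]
      by_cases hu : A' = univ
      · rw [hu, if_pos ⟨mem_univ _, mem_univ _⟩, if_pos ⟨mem_univ _, mem_univ _⟩]
        omega
      · have h1 := h.ns A' hcl hne' hu
        omega
    intro A hA hne hu
    by_cases hr : Sum.inr true ∈ A
    · rw [← cut_compl]
      refine key _ hA.compl ?_ ?_
      · rwa [nonempty_iff_ne_empty, Ne, compl_eq_empty_iff]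
      · rw [mem_compl, not_not]
        exact hr
    · exact key A hA hne hr
  pl := h.pl.ins h.inv hc hf
  big := by
    have h1 := h.big
    rw [Fintype.card_sum]
    omega

/-- conversely the two corners were in the same face -/
theorem Good.sameFace (h : Good (ext a) (insS s c0 c1)) (hc : c0 ≠ c1) :
    (a * s).SameCycle c0 c1 := by
  classical
  by_contra hf
  set ψ : Perm (T ⊕ Bool) := ext a * insS s c0 c1 with hψ
  have p0 : ψ (Sum.inl c0) = Sum.inr false := by
    rw [hψ, Perm.mul_apply, insS_c0 s hc]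
    rfl
  have p1 : ψ (Sum.inr true) = Sum.inl ((a * s) c0) := by
    rw [hψ, Perm.mul_apply, insS_true s hc]
    rfl
  have p2 : ∀ t, t ≠ c0 → t ≠ c1 → ψ (Sum.inl t) = Sum.inl ((a * s) t) := by
    intro t h0 h1
    rw [hψ, Perm.mul_apply, insS_inl s hc h0 h1]
    rfl
  -- first return to `c0`
  have hex : ∃ n : ℕ, 0 < n ∧ ((a * s) ^ n) c0 = c0 :=
    ⟨orderOf (a * s), orderOf_pos _, by rw [pow_orderOf_eq_one]; rfl⟩
  obtain ⟨n, ⟨hn0, hn⟩, hmin⟩ : ∃ n : ℕ, (0 < n ∧ ((a * s) ^ n) c0 = c0) ∧
      ∀ j < n, ¬ (0 < j ∧ ((a * s) ^ j) c0 = c0) :=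
    ⟨Nat.find hex, Nat.find_spec hex, fun j hj => Nat.find_min hex hj⟩
  have hwalk : ∀ j, 0 < j → j ≤ n → (ψ ^ j) (Sum.inr true) = Sum.inl (((a * s) ^ j) c0) := by
    intro j
    induction j with
    | zero =>
      intro h1
      exact absurd h1 (lt_irrefl 0)
    | succ j ih =>
      intro _ hj
      rcases Nat.eq_zero_or_pos j with h1 | h1
      · subst h1
        rw [zero_add, pow_one, pow_one, p1]
      · rw [pow_succ', Perm.mul_apply, ih h1 (by omega), p2, pow_succ' (a * s) j]
        · rfl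
        · intro h2
          exact hmin j (by omega) ⟨h1, h2⟩
        · intro h2
          exact hf ⟨j, by rw [zpow_natCast]; exact h2⟩
  have h1 : (ψ ^ (n + 1)) (Sum.inr true) = Sum.inr false := by
    rw [pow_succ', Perm.mul_apply, hwalk n hn0 le_rfl, hn, p0]
  have h2 := Good.noLoop h.dual (Sum.inr true)
  apply h2
  refine ⟨(n + 1 : ℕ), ?_⟩
  rw [zpow_natCast]
  exact h1

end

end PGr
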