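import Pool.Agent.PGr.CompPl
import Pool.Agent.PGr.SerExcl

/-! # Module CompFour: the sets of cut 4 in a composite with rigid core -/

set_option linter.unusedSectionVars false

namespace PGr
open Equiv Finset

variable (C : Core) (N : C.I → GB)

namespace CompFour

theorem mem_partsSet (J : Finset (Option C.I)) (t : (comp C N).T) :
    t ∈ partsSet C N J ↔ partOf C N t ∈ J := by simp [partsSet]

theorem mem_partSet (i : C.I) (t : (comp C N).T) :
    t ∈ partSet C N i ↔ partOf C N t = some i := by simp [partSet, partsSet]

theorem partOf_aa (t : (comp C N).T) : partOf C N ((comp C N).aa t) = partOf C N t := by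
  rcases t with ⟨i, d⟩ | b <;> rfl

theorem partOf_root (b : Bool) : partOf C N (Sum.inr b) = none := rfl

theorem partOf_eq_none {t : (comp C N).T} (h : partOf C N t = none) : ∃ b, t = Sum.inr b := by
  rcases t with ⟨i, d⟩ | b
  · simp [partOf] at h
  · exact ⟨b, rfl⟩

theorem Cl_partsSet (J : Finset (Option C.I)) : Cl (comp C N).aa (partsSet C N J) := by
  intro t
  rw [mem_partsSet, mem_partsSet, partOf_aa]

theorem Cl_partSet (i : C.I) : Cl (comp C N).aa (partSet C N i) := Cl_partsSet C N _

theorem partSet_nonempty (i : C.I) : (partSet C N i).Nonempty :=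
  ⟨(Sum.inl (⟨i, fstD (N i) true⟩ : Σ i, (N i).1.D) : (comp C N).T), by
    rw [mem_partSet]; rfl⟩

theorem root_not_mem_partSet (i : C.I) (b : Bool) :
    (Sum.inr b : (comp C N).T) ∉ partSet C N i := by
  rw [mem_partSet, partOf_root]; simp

theorem inr_mem_iff {M : BMap} {A : Finset M.T} (hA : Cl M.aa A) (b b' : Bool) :
    (Sum.inr b : M.T) ∈ A ↔ (Sum.inr b' : M.T) ∈ A := by
  have h : (Sum.inr true : M.T) ∈ A ↔ (Sum.inr false : M.T) ∈ A := (hA (Sum.inr true)).symm
  cases b <;> cases b' <;> simp [h]

theorem cl_root (M : BMap) : Cl M.aa M.root := by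
  intro t
  rcases t with d | b
  · simp [BMap.root, BMap.aa]
  · cases b <;> simp [BMap.root, BMap.aa]

theorem mem_root {M : BMap} {t : M.T} : t ∈ M.root ↔ ∃ b, t = Sum.inr b := by
  simp only [BMap.root, mem_insert, mem_singleton]
  constructor
  · rintro (h | h)
    · exact ⟨_, h⟩
    · exact ⟨_, h⟩
  · rintro ⟨b, rfl⟩
    cases b <;> simp

theorem card_I (hR : Rigid C.toB) : 3 ≤ Fintype.card C.I := by
  have h := hR.1
  have h2 : Fintype.card C.toB.T = 2 * Fintype.card C.I + 2 := by
    change Fintype.card ((C.I × Bool) ⊕ Bool) = _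
    simp [Fintype.card_sum, Fintype.card_prod]
    ring
  omega

theorem rigid_parts (hR : Rigid C.toB) (J : Finset C.I) (h1 : 2 ≤ J.card)
    (h2 : J.card < Fintype.card C.I) :
    4 < cut C.s (univ.filter fun x => C.edge x ∈ J.map Function.Embedding.some) := by
  have hcard : (univ.filter fun x => C.edge x ∈ J.map Function.Embedding.some).card =
      2 * J.card := by
    have : (univ.filter fun x => C.edge x ∈ J.map Function.Embedding.some) =
        ((J ×ˢ (univ : Finset Bool)).map
          (Function.Embedding.inl : (C.I × Bool) ↪ (C.I × Bool) ⊕ Bool)) := by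
      ext x
      rcases x with ⟨i, b⟩ | b
      · simp [Core.edge]
      · simp [Core.edge]
    rw [this, card_map, card_product]
    simp [mul_comm]
  have hcardT : Fintype.card C.toB.T = 2 * Fintype.card C.I + 2 := by
    change Fintype.card ((C.I × Bool) ⊕ Bool) = _
    simp [Fintype.card_sum, Fintype.card_prod]
    ring
  have hmem : ∀ x, x ∈ (univ.filter fun x => C.edge x ∈ J.map Function.Embedding.some) ↔
      C.edge x ∈ J.map Function.Embedding.some := by
    intro x; rw [mem_filter]; simp
  generalize (univ.filter fun x => C.edge x ∈ J.map Function.Embedding.some) = S at *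
  refine hR.2 S ?_ ?_ ?_
  · intro x
    refine (hmem _).trans (Iff.trans ?_ (hmem x).symm)
    rcases x with ⟨i, b⟩ | b
    · exact Iff.rfl
    · exact Iff.rfl
  · exact le_of_le_of_eq (by omega : 4 ≤ 2 * J.card) hcard.symm
  · rw [hcardT]
    refine le_trans (Nat.add_le_add_right (le_of_eq hcard) 4) ?_
    omega

/-- the parts met by `A` -/
noncomputable def meets (A : Finset (comp C N).T) : Finset C.I :=
  univ.filter fun i => ∃ t ∈ A, partOf C N t = some i

theorem mem_meets {A : Finset (comp C N).T} {i : C.I} :
    i ∈ meets C N A ↔ ∃ t ∈ A, partOf C N t = some i := by simp [meets]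

theorem cut_union_parts (hC : C.toB.IsGood) {A : Finset (comp C N).T}
    (hA : Cl (comp C N).aa A) (hr : Sum.inr true ∉ A) 
    (h4 : cut (comp C N).s A = 4) (K : Finset C.I) (hK : K ⊆ meets C N A) :
    cut (comp C N).s (A ∪ partsSet C N (K.map Function.Embedding.some)) = 4 := by
  classical
  have hns : NS (comp C N).aa (comp C N).s := (comp_good C N hC).ns
  induction K using Finset.induction_on with
  | empty =>
    have : partsSet C N ((∅ : Finset C.I).map Function.Embedding.some) = ∅ := by
      ext t
      rw [mem_partsSet]; simp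
    rw [this, union_empty, h4]
  | insert i K hi ih =>
    have ih := ih (fun x hx => hK (mem_insert_of_mem hx))
    have hi' : i ∈ meets C N A := hK (mem_insert_self _ _)
    obtain ⟨t, ht, hti⟩ := (mem_meets C N).1 hi'
    have hu := hns.uncross (A := A ∪ partsSet C N (K.map Function.Embedding.some))
      (B := partSet C N i) (hA.union (Cl_partsSet C N _)) (Cl_partSet C N i) ih
      (cut_partSet C N hC i)
      ⟨t, by
        rw [mem_inter, mem_union, mem_partSet]
        exact ⟨Or.inl ht, hti⟩⟩
      (by
        intro hu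
        have h1 : (Sum.inr true : (comp C N).T) ∈ (univ : Finset (comp C N).T) := mem_univ _
        rw [← hu, mem_union, mem_union, mem_partsSet, mem_partSet, partOf_root] at h1
        simp at h1
        exact hr h1)
    have hs : A ∪ partsSet C N ((insert i K).map Function.Embedding.some) =
        A ∪ partsSet C N (K.map Function.Embedding.some) ∪ partSet C N i := by
      ext x
      simp only [mem_union, mem_partsSet, mem_partSet, map_insert, mem_insert,
        Function.Embedding.some_apply]
      tauto
    rw [hs]
    exact hu.2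

theorem meets_card (hC : C.toB.IsGood) (hR : Rigid C.toB) {A : Finset (comp C N).T}
    (hA : Cl (comp C N).aa A) (hr : Sum.inr true ∉ A) (hne : A.Nonempty)
    (h4 : cut (comp C N).s A = 4) :
    (meets C N A).card = 1 ∨ meets C N A = univ := by
  classical
  have h := cut_union_parts C N hC hA hr h4 _ (Subset.refl _)
  have hs : A ∪ partsSet C N ((meets C N A).map Function.Embedding.some) =
      partsSet C N ((meets C N A).map Function.Embedding.some) := by
    rw [union_eq_right]
    intro t ht
    rw [mem_partsSet]
    rcases h : partOf C N t with _ | i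
    · exfalso
      obtain ⟨b, rfl⟩ := partOf_eq_none C N h
      exact hr ((inr_mem_iff hA b true).1 ht)
    · rw [mem_map]
      exact ⟨i, (mem_meets C N).2 ⟨t, ht, h⟩, rfl⟩
  rw [hs, cut_partsSet] at h
  set J := meets C N A with hJ
  have hJne : J.Nonempty := by
    obtain ⟨t, ht⟩ := hne
    rcases h : partOf C N t with _ | i
    · exfalso
      obtain ⟨b, rfl⟩ := partOf_eq_none C N h
      exact hr ((inr_mem_iff hA b true).1 ht)
    · exact ⟨i, (mem_meets C N).2 ⟨t, ht, h⟩⟩
  by_contra hcon
  push Not at hcon
  obtain ⟨h1, h2⟩ := hcon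
  have h3 : 0 < J.card := card_pos.2 hJne
  have h4' : J.card < Fintype.card C.I := by
    rw [← card_univ]
    exact card_lt_card (ssubset_univ_iff.2 h2)
  have h5 := rigid_parts C hR J (by omega) (by omega)
  omega

end CompFour

open CompFour

theorem comp_four (hC : C.toB.IsGood) (hR : Rigid C.toB) {A : Finset (comp C N).T}
    (hA : Cl (comp C N).aa A) (hr : Sum.inr true ∉ A) (hne : A.Nonempty)
    (h4 : cut (comp C N).s A = 4) :
    (∃ i, A ⊆ partSet C N i) ∨ A ∪ (comp C N).root = univ := by
  classical
  have hns : NS (comp C N).aa (comp C N).s := (comp_good C N hC).ns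
  have hI := card_I C hR
  rcases meets_card C N hC hR hA hr hne h4 with h1 | h1
  · left
    obtain ⟨i, hi⟩ := card_eq_one.1 h1
    refine ⟨i, fun t ht => ?_⟩
    rw [mem_partSet]
    rcases h : partOf C N t with _ | j
    · exfalso
      obtain ⟨b, rfl⟩ := partOf_eq_none C N h
      exact hr ((inr_mem_iff hA b true).1 ht)
    · have : j ∈ meets C N A := (mem_meets C N).2 ⟨t, ht, h⟩
      rw [hi, mem_singleton] at this
      rw [this]
  · right
    have hall : ∀ i, partSet C N i ⊆ A := by
      intro i
      by_contra hi
      have hdne : (partSet C N i \ A).Nonempty := by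
        rwa [sdiff_nonempty]
      obtain ⟨j, hj⟩ : ∃ j, j ≠ i := by
        by_contra hcon
        push Not at hcon
        have : Fintype.card C.I ≤ 1 := by
          rw [Fintype.card_le_one_iff]
          intro x y; rw [hcon x, hcon y]
        omega
      have hmem : ∀ j, j ≠ i → j ∈ meets C N (A \ partSet C N i) := by
        intro j hj
        have : j ∈ meets C N A := by rw [h1]; exact mem_univ _
        obtain ⟨t, ht, htj⟩ := (mem_meets C N).1 this
        refine (mem_meets C N).2 ⟨t, ?_, htj⟩
        rw [mem_sdiff, mem_partSet, htj]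
        exact ⟨ht, by simpa using hj⟩
      have hnei : i ∉ meets C N (A \ partSet C N i) := by
        intro hmi
        obtain ⟨t, ht, hti⟩ := (mem_meets C N).1 hmi
        rw [mem_sdiff, mem_partSet] at ht
        exact ht.2 hti
      have hne' : (A \ partSet C N i).Nonempty := by
        obtain ⟨t, ht, _⟩ := (mem_meets C N).1 (hmem j hj)
        exact ⟨t, ht⟩
      have h4' := (hns.uncross_sdiff hA (Cl_partSet C N i) h4 (cut_partSet C N hC i) hne' hdne).1
      rcases meets_card C N hC hR (hA.sdiff (Cl_partSet C N i))
        (fun h => hr (mem_sdiff.1 h).1) hne' h4' with h2 | h2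
      · have h3 : (univ.erase i : Finset C.I) ⊆ meets C N (A \ partSet C N i) := by
          intro x hx
          exact hmem x (ne_of_mem_erase hx)
        have h5 := card_le_card h3
        rw [card_erase_of_mem (mem_univ _), card_univ, h2] at h5
        omega
      · rw [h2] at hnei
        exact hnei (mem_univ _)
    rw [eq_univ_iff_forall]
    intro t
    rw [mem_union]
    rcases h : partOf C N t with _ | j
    · right
      exact mem_root.2 (partOf_eq_none C N h)
    · left
      exact hall j ((mem_partSet C N j t).2 h)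

theorem comp_no_pref (hC : C.toB.IsGood) (hR : Rigid C.toB) (A : Finset (comp C N).T) :
    ¬ Pref (comp C N) A := by
  classical
  intro h
  have hI := card_I C hR
  have hAne : A.Nonempty := ⟨_, h.fst⟩
  have hclr := cl_root (comp C N)
  have hclB : Cl (comp C N).aa (A ∪ (comp C N).root)ᶜ := (h.cl.union hclr).compl
  have hBne : ((A ∪ (comp C N).root)ᶜ).Nonempty := by
    rw [nonempty_iff_ne_empty, Ne, compl_eq_empty_iff]
    exact h.rest
  have hrB : (Sum.inr true : (comp C N).T) ∉ (A ∪ (comp C N).root)ᶜ := by
    rw [mem_compl, not_not, mem_union]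
    exact Or.inr (mem_root.2 ⟨_, rfl⟩)
  have hcutB : cut (comp C N).s (A ∪ (comp C N).root)ᶜ = 4 := by rw [cut_compl, h.cut4']
  obtain ⟨i, hi⟩ := (comp_four C N hC hR h.cl h.root hAne h.cut4).resolve_right h.rest
  have hBr : (A ∪ (comp C N).root)ᶜ ∪ (comp C N).root ≠ univ := by
    intro hu
    obtain ⟨t, ht⟩ := hAne
    have h1 : t ∈ (A ∪ (comp C N).root)ᶜ ∪ (comp C N).root := by rw [hu]; exact mem_univ _
    rw [mem_union, mem_compl, mem_union] at h1
    rcases h1 with h1 | h1
    · exact h1 (Or.inl ht)
    · obtain ⟨b, rfl⟩ := mem_root.1 h1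
      exact h.root ((inr_mem_iff h.cl b true).1 ht)
  obtain ⟨j, hj⟩ := (comp_four C N hC hR hclB hrB hBne hcutB).resolve_right hBr
  obtain ⟨k, hk⟩ : ∃ k, k ≠ i ∧ k ≠ j := by
    by_contra hcon
    push Not at hcon
    have h1 : (univ : Finset C.I) ⊆ {i, j} := by
      intro x _
      rw [mem_insert, mem_singleton]
      by_cases hx : x = i
      · exact Or.inl hx
      · exact Or.inr (hcon x hx)
    have h2 := card_le_card h1
    rw [card_univ] at h2
    have h3 : ({i, j} : Finset C.I).card ≤ 2 := card_insert_le _ _
    omega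
  obtain ⟨t, ht⟩ := partSet_nonempty C N k
  rw [mem_partSet] at ht
  by_cases htA : t ∈ A
  · have h1 := hi htA
    rw [mem_partSet, ht] at h1
    exact hk.1 (by simpa using h1)
  · have h1 : t ∈ (A ∪ (comp C N).root)ᶜ := by
      rw [mem_compl, mem_union]
      rintro (h1 | h1)
      · exact htA h1
      · obtain ⟨b, rfl⟩ := mem_root.1 h1
        rw [partOf_root] at ht
        simp at ht
    have h2 := hj h1
    rw [mem_partSet, ht] at h2
    exact hk.2 (by simpa using h2)

theorem comp_not_ser (hC : C.toB.IsGood) (hR : Rigid C.toB) : ¬ IsSer (comp C N) := by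
  rintro ⟨A, hA, _⟩
  exact comp_no_pref C N hC hR A hA

theorem comp_not_par (hC : C.toB.IsGood) (hR : Rigid C.toB) : ¬ IsPar (comp C N) := by
  rintro ⟨A, hA, _⟩
  exact comp_no_pref C N hC hR A (Pref.of_dual (comp_good C N hC) hA)

end PGr
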