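import Pool.Agent.PGr.NetDefs
import Pool.Agent.PGr.NoPinch
import Pool.Agent.PGr.Cut

/-! # Module SerCut: a set of edges sharing only one vertex with its complement (root edge
deleted) has cut 4 -/

set_option linter.unusedSectionVars false

namespace PGr
open Equiv Finset
open scoped ENNReal
universe u
variable {Λ : Type u}

theorem SerCut.eq_not {b b' : Bool} (h : b' ≠ b) : b' = !b := by
  cases b <;> cases b' <;> first | rfl | exact absurd rfl h

/-- the sets of old edges are closed -/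
theorem SerCut.cl_map {N : LNet Λ} {A : Finset N.D} (hA : Cl N.a A) :
    Cl N.aa (A.map ⟨Sum.inl, Sum.inl_injective⟩) := by
  rintro (d | b)
  · simp only [LNet.aa, ext_inl, mem_map, Function.Embedding.coeFn_mk, Sum.inl.injEq,
      exists_eq_right]
    exact hA d
  · simp [LNet.aa]

theorem SerCut.inr_notMem {N : LNet Λ} {A : Finset N.D} (b : Bool) :
    (Sum.inr b : N.T) ∉ A.map ⟨Sum.inl, Sum.inl_injective⟩ := by
  rw [mem_map]
  rintro ⟨d, -, h⟩
  exact Sum.inl_ne_inr h

theorem SerCut.inl_mem {N : LNet Λ} {A : Finset N.D} (d : N.D) :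
    (Sum.inl d : N.T) ∈ A.map ⟨Sum.inl, Sum.inl_injective⟩ ↔ d ∈ A := by
  rw [mem_map]
  constructor
  · rintro ⟨e, he, h⟩
    rwa [← Sum.inl_injective h]
  · intro h
    exact ⟨d, h, rfl⟩

/-- the vertices shared by a set of nonroot edges and the rest -/
theorem SerCut.sh_map {N : LNet Λ} {A : Finset N.D} {x : N.V}
    (h : Sh N.inc (A.map ⟨Sum.inl, Sum.inl_injective⟩) x) :
    (∃ d ∈ A, N.inc (Sum.inl d) = x) ∧
      ((∃ d, d ∉ A ∧ N.inc (Sum.inl d) = x) ∨ ∃ b, N.pole b = x) := by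
  obtain ⟨⟨t, ht, htx⟩, ⟨t', ht', htx'⟩⟩ := h
  constructor
  · rcases t with d | b
    · exact ⟨d, (SerCut.inl_mem d).1 ht, htx⟩
    · exact absurd ht (SerCut.inr_notMem b)
  · rcases t' with d | b
    · exact Or.inl ⟨d, fun h => ht' ((SerCut.inl_mem d).2 h), htx'⟩
    · exact Or.inr ⟨b, htx'⟩

theorem SerCut.pole_ne {N : LNet Λ} (h : N.IsGood) (b : Bool) : N.pole (!b) ≠ N.pole b :=
  h.loop (Sum.inr b)

/-- both sides contain exactly one pole, and the common vertex is internal -/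
theorem ser_ends {N : LNet Λ} (h : N.IsGood) {A : Finset N.D} (hA : Cl N.a A) (hne : A.Nonempty)
    (hu : A ≠ univ)
    (h1 : ∀ x y, Sh (fun d => N.inc (Sum.inl d)) A x → Sh (fun d => N.inc (Sum.inl d)) A y → x = y) :
    ∃ (b : Bool) (c : N.V), (∀ b', c ≠ N.pole b') ∧ Sh (fun d => N.inc (Sum.inl d)) A c ∧
      (∀ d, N.inc (Sum.inl d) = N.pole b → d ∈ A) ∧
      (∀ d, N.inc (Sum.inl d) = N.pole (!b) → d ∉ A) := by
  classical
  let VA : N.V → Prop := fun x => ∃ d ∈ A, N.inc (Sum.inl d) = x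
  let VB : N.V → Prop := fun x => ∃ d, d ∉ A ∧ N.inc (Sum.inl d) = x
  have h1' : ∀ x y, VA x → VB x → VA y → VB y → x = y := fun x y a1 a2 a3 a4 =>
    h1 x y ⟨a1, a2⟩ ⟨a3, a4⟩
  have hne' : (Aᶜ).Nonempty := by rwa [nonempty_iff_ne_empty, Ne, compl_eq_empty_iff]
  have huniv : ∀ B : Finset N.D, B.map ⟨Sum.inl, Sum.inl_injective⟩ ≠ (univ : Finset N.T) := by
    intro B h2
    have h3 : (Sum.inr true : N.T) ∈ (univ : Finset N.T) := mem_univ _
    rw [← h2] at h3
    exact SerCut.inr_notMem true h3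
  obtain ⟨x, y, hxy, hx, hy⟩ := h.two _ (SerCut.cl_map hA)
    (hne.map (f := ⟨Sum.inl, Sum.inl_injective⟩)) (huniv A)
  obtain ⟨x', y', hxy', hx', hy'⟩ := h.two _ (SerCut.cl_map hA.compl)
    (hne'.map (f := ⟨Sum.inl, Sum.inl_injective⟩)) (huniv Aᶜ)
  obtain ⟨hxA, hx2⟩ := SerCut.sh_map hx
  obtain ⟨hyA, hy2⟩ := SerCut.sh_map hy
  have hB : ∀ {z : N.V}, Sh N.inc ((Aᶜ).map ⟨Sum.inl, Sum.inl_injective⟩) z →
      VB z ∧ (VA z ∨ ∃ b, N.pole b = z) := by
    intro z hz
    obtain ⟨⟨d, hd, hdz⟩, h3⟩ := SerCut.sh_map hz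
    refine ⟨⟨d, mem_compl.1 hd, hdz⟩, ?_⟩
    rcases h3 with ⟨e, he, hez⟩ | h3
    · left
      refine ⟨e, ?_, hez⟩
      by_contra h4
      exact he (mem_compl.2 h4)
    · exact Or.inr h3
  obtain ⟨hxB', hx2'⟩ := hB hx'
  obtain ⟨hyB', hy2'⟩ := hB hy'
  have hpole : ∀ {z : N.V} {b : Bool}, (∃ b', N.pole b' = z) → z ≠ N.pole b → z = N.pole (!b) := by
    rintro z b ⟨b', rfl⟩ h3
    by_cases h4 : b' = b
    · rw [h4] at h3
      exact absurd rfl h3
    · rw [SerCut.eq_not h4]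
  -- no pole is common
  have hnp : ∀ b, VA (N.pole b) → VB (N.pole b) → False := by
    intro b h3 h4
    have hother : VA (N.pole (!b)) := by
      by_cases h5 : x = N.pole b
      · have h6 : y ≠ N.pole b := fun h7 => hxy (h5.trans h7.symm)
        rcases hy2 with h7 | h7
        · exact absurd (h1' y (N.pole b) hyA h7 h3 h4) h6
        · rw [← hpole h7 h6]
          exact hyA
      · rcases hx2 with h7 | h7
        · exact absurd (h1' x (N.pole b) hxA h7 h3 h4) h5
        · rw [← hpole h7 h5]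
          exact hxA
    have hother' : VB (N.pole (!b)) := by
      by_cases h5 : x' = N.pole b
      · have h6 : y' ≠ N.pole b := fun h7 => hxy' (h5.trans h7.symm)
        rcases hy2' with h7 | h7
        · exact absurd (h1' y' (N.pole b) h7 hyB' h3 h4) h6
        · rw [← hpole h7 h6]
          exact hyB'
      · rcases hx2' with h7 | h7
        · exact absurd (h1' x' (N.pole b) h7 hxB' h3 h4) h5
        · rw [← hpole h7 h5]
          exact hxB'
    exact SerCut.pole_ne h b (h1' _ _ hother hother' h3 h4)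
  -- a pole in `A`
  obtain ⟨b, hb⟩ : ∃ b, VA (N.pole b) := by
    rcases hx2 with h3 | ⟨b, rfl⟩
    · rcases hy2 with h4 | ⟨b, rfl⟩
      · exact absurd (h1' x y hxA h3 hyA h4) hxy
      · exact ⟨b, hyA⟩
    · exact ⟨b, hxA⟩
  obtain ⟨b', hb'⟩ : ∃ b, VB (N.pole b) := by
    rcases hx2' with h3 | ⟨b, rfl⟩
    · rcases hy2' with h4 | ⟨b, rfl⟩
      · exact absurd (h1' x' y' h3 hxB' h4 hyB') hxy'
      · exact ⟨b, hyB'⟩
    · exact ⟨b, hxB'⟩
  have hbb : b' = !b := by
    refine SerCut.eq_not fun h4 => ?_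
    rw [h4] at hb'
    exact hnp b hb hb'
  rw [hbb] at hb'
  -- a common vertex
  obtain ⟨c, hcA, hcB⟩ : ∃ c, VA c ∧ VB c := by
    rcases hx2 with h3 | ⟨b1, rfl⟩
    · exact ⟨x, hxA, h3⟩
    · rcases hy2 with h3 | ⟨b2, rfl⟩
      · exact ⟨y, hyA, h3⟩
      · exfalso
        have h3 : b1 ≠ b2 := fun h4 => hxy (by rw [h4])
        have h4 : VA (N.pole (!b)) := by
          by_cases h5 : b1 = b
          · have h6 : b2 = !b := SerCut.eq_not (fun h7 => h3 (h5.trans h7.symm))
            rw [← h6]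
            exact hyA
          · rw [← SerCut.eq_not h5]
            exact hxA
        exact hnp _ h4 hb'
  refine ⟨b, c, ?_, ⟨hcA, hcB⟩, ?_, ?_⟩
  · intro b1 h3
    rw [h3] at hcA hcB
    exact hnp b1 hcA hcB
  · intro d hd
    by_contra h3
    exact hnp b hb ⟨d, h3, hd⟩
  · intro d hd h3
    exact hnp (!b) ⟨d, h3, hd⟩ hb'

/-- a cycle with one boundary corner contains a second one -/
theorem SerCut.exists_other {T : Type*} [Fintype T] [DecidableEq T] (f : Perm T) (A : Finset T)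
    {t : T} (ht : t ∈ bd f A) : ∃ t', t' ≠ t ∧ f.SameCycle t t' ∧ t' ∈ bd f A := by
  classical
  by_contra hcon
  push Not at hcon
  have hex : ∃ n : ℕ, 0 < n ∧ (f ^ n) t = t :=
    ⟨orderOf f, orderOf_pos _, by rw [pow_orderOf_eq_one]; rfl⟩
  obtain ⟨n, ⟨hn0, hn⟩, hmin⟩ : ∃ n : ℕ, (0 < n ∧ (f ^ n) t = t) ∧
      ∀ j < n, ¬ (0 < j ∧ (f ^ j) t = t) :=
    ⟨Nat.find hex, Nat.find_spec hex, fun j hj => Nat.find_min hex hj⟩
  have hwalk : ∀ j, 0 < j → j ≤ n → ((f ^ j) t ∈ A ↔ f t ∈ A) := by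
    intro j
    induction j with
    | zero => intro h; exact absurd h (lt_irrefl 0)
    | succ j ih =>
      intro _ hj
      rcases Nat.eq_zero_or_pos j with h1 | h1
      · subst h1
        rw [zero_add, pow_one]
      · rw [← ih h1 (by omega), pow_succ']
        have h2 : (f ^ j) t ≠ t := fun h3 => hmin j (by omega) ⟨h1, h3⟩
        have h3 := hcon _ h2 ⟨(j : ℤ), by rw [zpow_natCast]⟩
        rw [mem_bd, not_not] at h3
        exact h3.symm
  have h1 := hwalk n hn0 le_rfl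
  rw [hn] at h1
  rw [mem_bd] at ht
  exact ht h1

theorem ser_cut4 {N : LNet Λ} (h : N.IsGood) {s : Perm N.T}
    (hs : ∀ t t', s.SameCycle t t' ↔ N.inc t = N.inc t') (hg : Good N.aa s)
    {A : Finset N.D} (hA : Cl N.a A) (hne : A.Nonempty) (hu : A ≠ univ)
    (h1 : ∀ x y, Sh (fun d => N.inc (Sum.inl d)) A x → Sh (fun d => N.inc (Sum.inl d)) A y → x = y) :
    cut s (A.map ⟨Sum.inl, Sum.inl_injective⟩) = 4 := by
  obtain ⟨b, c, hc, hcS, hb1, hb2⟩ := ser_ends h hA hne hu h1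
  set A1 : Finset N.T := A.map ⟨Sum.inl, Sum.inl_injective⟩ with hA1
  have hcl : Cl N.aa A1 := SerCut.cl_map hA
  have hge : 4 ≤ cut s A1 := by
    refine hg.ns _ hcl (hne.map (f := ⟨Sum.inl, Sum.inl_injective⟩)) fun h2 => ?_
    have h3 : (Sum.inr true : N.T) ∈ (univ : Finset N.T) := mem_univ _
    rw [← h2] at h3
    exact SerCut.inr_notMem true h3
  have hinc : ∀ t, N.inc (s t) = N.inc t := fun t =>
    ((hs t (s t)).1 ⟨1, by rw [zpow_one]⟩).symm
  -- the vertices of the boundary corners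
  have hvert : ∀ t ∈ bd s A1, N.inc t = c ∨ N.inc t = N.pole b := by
    intro t ht
    have hsh : Sh N.inc A1 (N.inc t) := by
      rw [mem_bd] at ht
      by_cases h2 : t ∈ A1
      · have h3 : s t ∉ A1 := fun h4 => ht (iff_of_true h2 h4)
        exact ⟨⟨t, h2, rfl⟩, ⟨s t, h3, hinc t⟩⟩
      · have h3 : s t ∈ A1 := by
          by_contra h4
          exact ht (iff_of_false h2 h4)
        exact ⟨⟨s t, h3, hinc t⟩, ⟨t, h2, rfl⟩⟩
    obtain ⟨h2, h3⟩ := SerCut.sh_map hsh
    rcases h3 with h3 | ⟨b', h3⟩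
    · exact Or.inl (h1 _ _ ⟨h2, h3⟩ hcS)
    · right
      by_cases h4 : b' = b
      · rw [← h3, h4]
      · exfalso
        obtain ⟨d, hd, hdx⟩ := h2
        refine hb2 d ?_ hd
        rw [hdx, ← h3, SerCut.eq_not h4]
  -- the boundary corners at the pole
  have hpole : (bd s A1).filter (fun t => N.inc t = N.pole b) ⊆
      {Sum.inr b, s.symm (Sum.inr b)} := by
    intro t ht
    rw [mem_filter, mem_bd] at ht
    obtain ⟨ht, htp⟩ := ht
    have hmem : ∀ u : N.T, N.inc u = N.pole b → u ∉ A1 → u = Sum.inr b := by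
      intro u hu1 hu2
      rcases u with d | b'
      · exact absurd ((SerCut.inl_mem d).2 (hb1 d hu1)) hu2
      · by_cases h4 : b' = b
        · rw [h4]
        · exfalso
          rw [SerCut.eq_not h4] at hu1
          exact SerCut.pole_ne h b hu1
    rw [mem_insert, mem_singleton]
    by_cases h2 : t ∈ A1
    · right
      have h3 : s t ∉ A1 := fun h4 => ht (iff_of_true h2 h4)
      rw [Equiv.eq_symm_apply]
      exact hmem _ ((hinc t).trans htp) h3
    · exact Or.inl (hmem t htp h2)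
  have hpole2 : ((bd s A1).filter (fun t => N.inc t = N.pole b)).card ≤ 2 :=
    (card_le_card hpole).trans card_le_two
  -- the boundary corners at `c`
  have hdual : bd (N.aa * s) A1 = bd s A1 := by
    ext t
    rw [mem_bd, mem_bd, Perm.mul_apply, hcl]
  have hother : ∀ t, t ∈ (bd s A1).filter (fun t => N.inc t = c) →
      ∃ t', (N.aa * s).SameCycle t t' ∧ t' ∈ (bd s A1).filter (fun t => N.inc t = N.pole b) := by
    intro t ht
    rw [mem_filter] at ht
    have h2 : t ∈ bd (N.aa * s) A1 := by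
      rw [hdual]
      exact ht.1
    obtain ⟨t', h3, h4, h5⟩ := SerCut.exists_other (N.aa * s) A1 h2
    rw [hdual] at h5
    refine ⟨t', h4, mem_filter.2 ⟨h5, ?_⟩⟩
    rcases hvert t' h5 with h6 | h6
    · exfalso
      exact hg.noPinch h3.symm ((hs t t').2 (ht.2.trans h6.symm)) h4
    · exact h6
  choose! g hg1 hg2 using hother
  have hc2 : ((bd s A1).filter (fun t => N.inc t = c)).card ≤ 2 := by
    refine le_trans (card_le_card_of_injOn g (fun t ht => hg2 t ht) ?_) hpole2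
    intro t ht u hu1 htu
    by_contra hne2
    have h2 := hg1 t ht
    have h3 := hg1 u hu1
    rw [← htu] at h3
    have h4 := (mem_filter.1 (mem_coe.1 ht)).2
    have h5 := (mem_filter.1 (mem_coe.1 hu1)).2
    exact hg.noPinch hne2 ((hs t u).2 (h4.trans h5.symm)) (h2.trans h3.symm)
  have hle : cut s A1 ≤ 4 := by
    have h2 : bd s A1 ⊆ (bd s A1).filter (fun t => N.inc t = c) ∪
        (bd s A1).filter (fun t => N.inc t = N.pole b) := by
      intro t ht
      rw [mem_union, mem_filter, mem_filter]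
      rcases hvert t ht with h3 | h3
      · exact Or.inl ⟨ht, h3⟩
      · exact Or.inr ⟨ht, h3⟩
    have h3 : (bd s A1).card ≤ 2 + 2 := (card_le_card h2).trans
      ((card_union_le _ _).trans (Nat.add_le_add hc2 hpole2))
    exact h3
  omega

end PGr
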