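import Pool.Agent.PGr.SubPl
import Pool.Agent.PGr.SerCut
import Pool.Agent.PGr.GDec
import Pool.Agent.PGr.DecGood
import Pool.Agent.PGr.GlueLib

/-! # Module NetSer: series decomposition -/

set_option linter.unusedSectionVars false

namespace PGr
open Equiv Finset
open scoped ENNReal
universe u
variable {Λ : Type u}

namespace NetSer

/-- the conditions of `SerN` -/
structure Ser (N : LNet Λ) (A : Finset N.D) : Prop where
  cl : Cl N.a A
  ne : A.Nonempty
  nu : A ≠ univ
  one : ∀ x y, Sh (fun d => N.inc (Sum.inl d)) A x → Sh (fun d => N.inc (Sum.inl d)) A y → x = y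

theorem sh_compl {T V : Type*} [Fintype T] [DecidableEq T] (inc : T → V) (A : Finset T) (x : V) :
    Sh inc Aᶜ x ↔ Sh inc A x := by
  unfold Sh
  simp only [mem_compl, not_not]
  exact and_comm

theorem Ser.compl {N : LNet Λ} {A : Finset N.D} (h : Ser N A) : Ser N Aᶜ where
  cl := h.cl.compl
  ne := by
    rw [nonempty_iff_ne_empty]
    intro e
    exact h.nu (by rwa [compl_eq_empty_iff] at e)
  nu := by
    intro e
    have : A = ∅ := by rwa [compl_eq_univ_iff] at e
    exact h.ne.ne_empty this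
  one := fun x y hx hy => h.one x y ((sh_compl _ _ _).mp hx) ((sh_compl _ _ _).mp hy)

/-- there are nonroot darts at both poles -/
theorem exists_pole {N : LNet Λ} (h : N.IsGood) (b : Bool) :
    ∃ d, N.inc (Sum.inl d) = N.pole b := by
  obtain ⟨d0⟩ := h.ne
  obtain ⟨x, y, hxy, hx, hy⟩ := h.two {Sum.inr true, Sum.inr false} (by
      rintro (d | b)
      · have : N.aa (Sum.inl d) = Sum.inl (N.a d) := rfl
        rw [this]; simp
      · have : N.aa (Sum.inr b) = Sum.inr (!b) := rfl
        rw [this]; cases b <;> simp) ⟨Sum.inr true, by simp⟩ (by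
      intro e
      have : (Sum.inl d0 : N.T) ∈ (univ : Finset N.T) := mem_univ _
      rw [← e] at this
      simp at this)
  have key : ∀ x, Sh N.inc {Sum.inr true, Sum.inr false} x →
      (∃ b, x = N.pole b) ∧ ∃ d, N.inc (Sum.inl d) = x := by
    rintro x ⟨⟨t, ht, rfl⟩, ⟨t', ht', he⟩⟩
    constructor
    · simp only [mem_insert, mem_singleton] at ht
      rcases ht with rfl | rfl
      · exact ⟨true, rfl⟩
      · exact ⟨false, rfl⟩
    · rcases t' with d | b
      · exact ⟨d, he⟩
      · exfalso; apply ht'; cases b <;> simp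
  obtain ⟨⟨bx, hbx⟩, hdx⟩ := key x hx
  obtain ⟨⟨by', hby⟩, hdy⟩ := key y hy
  have hb : b = bx ∨ b = by' := by
    have : bx ≠ by' := by
      rintro rfl
      exact hxy (hbx.trans hby.symm)
    revert this
    cases b <;> cases bx <;> cases by' <;> simp
  rcases hb with rfl | rfl
  · rw [← hbx]; exact hdx
  · rw [← hby]; exact hdy

/-- series sets on the side of the pole `true` -/
structure SerT (N : LNet Λ) (A : Finset N.D) : Prop extends Ser N A where
  pole : ∀ d, N.inc (Sum.inl d) = N.pole true → d ∈ A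

theorem SerT.ends {N : LNet Λ} (h : N.IsGood) {A : Finset N.D} (hA : SerT N A) :
    ∃ c : N.V, (∀ b', c ≠ N.pole b') ∧ Sh (fun d => N.inc (Sum.inl d)) A c ∧
      (∀ d, N.inc (Sum.inl d) = N.pole false → d ∉ A) := by
  obtain ⟨b, c, hc, hsh, h1, h2⟩ := ser_ends h hA.cl hA.ne hA.nu hA.one
  refine ⟨c, hc, hsh, ?_⟩
  cases b
  · exfalso
    obtain ⟨d, hd⟩ := exists_pole h true
    exact h2 d hd (hA.pole d hd)
  · exact h2

theorem Ser.exists_serT {N : LNet Λ} (h : N.IsGood) {A : Finset N.D} (hA : Ser N A) :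
    SerT N A ∨ SerT N Aᶜ := by
  obtain ⟨b, c, hc, hsh, h1, h2⟩ := ser_ends h hA.cl hA.ne hA.nu hA.one
  cases b
  · right
    exact ⟨hA.compl, fun d hd => by rw [mem_compl]; exact h2 d hd⟩
  · left
    exact ⟨hA, h1⟩

/-- the decomposition in the two sides of a series set -/
def dec {N : LNet Λ} (h : N.IsGood) {A : Finset N.D} (hA : SerT N A) (c : N.V)
    (hc : ∀ b', c ≠ N.pole b') (hsh : Sh (fun d => N.inc (Sum.inl d)) A c)
    (hf : ∀ d, N.inc (Sum.inl d) = N.pole false → d ∉ A) : Dec N where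
  I := Bool
  part := fun d => decide (d ∈ A)
  att := fun x => match x with
    | (true, true) => N.pole true
    | (true, false) => c
    | (false, true) => c
    | (false, false) => N.pole false
  part_a := fun d => by simp [hA.cl d]
  att_ne := fun i => by
    cases i
    · exact hc false
    · exact (hc true).symm
  att_mem := fun i b => by
    obtain ⟨dt, hdt⟩ := exists_pole h true
    obtain ⟨df, hdf⟩ := exists_pole h false
    obtain ⟨⟨d1, hd1, hd1'⟩, ⟨d2, hd2, hd2'⟩⟩ := hsh
    cases i <;> cases b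
    · exact ⟨df, by simpa using hf df hdf, hdf⟩
    · exact ⟨d2, by simpa using hd2, hd2'⟩
    · exact ⟨d1, by simpa using hd1, hd1'⟩
    · exact ⟨dt, by simpa using hA.pole dt hdt, hdt⟩
  share := fun d d' hdd he => by
    have hx : N.inc (Sum.inl d) = c := by
      apply hA.one _ _ _ hsh
      by_cases h1 : d ∈ A
      · have h2 : d' ∉ A := by
          intro h2; apply hdd; simp [h1, h2]
        exact ⟨⟨d, h1, rfl⟩, ⟨d', h2, he.symm⟩⟩
      · have h2 : d' ∈ A := by
          by_contra h2; apply hdd; simp [h1, h2]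
        exact ⟨⟨d', h2, he.symm⟩, ⟨d, h1, rfl⟩⟩
    by_cases h1 : d ∈ A
    · exact ⟨false, by rw [hx]; simp [h1]⟩
    · exact ⟨true, by rw [hx]; simp [h1]⟩
  root := fun d b he => by
    cases b
    · have h1 := hf d he
      exact ⟨false, by rw [he]; simp [h1]; rfl⟩
    · have h1 := hA.pole d he
      exact ⟨true, by rw [he]; simp [h1]; rfl⟩

section
variable {N : LNet Λ} (h : N.IsGood) {A : Finset N.D} (hA : SerT N A) (c : N.V)
    (hc : ∀ b', c ≠ N.pole b') (hsh : Sh (fun d => N.inc (Sum.inl d)) A c)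
    (hf : ∀ d, N.inc (Sum.inl d) = N.pole false → d ∉ A)

theorem pset_true : (dec h hA c hc hsh hf).pset true = A.map ⟨Sum.inl, Sum.inl_injective⟩ := by
  unfold Dec.pset
  congr 1
  ext d
  simp only [mem_filter, mem_univ, true_and]
  show decide (d ∈ A) = true ↔ d ∈ A
  exact decide_eq_true_iff

theorem pset_false : (dec h hA c hc hsh hf).pset false =
    (Aᶜ).map ⟨Sum.inl, Sum.inl_injective⟩ := by
  unfold Dec.pset
  congr 1
  ext d
  simp only [mem_filter, mem_univ, true_and, mem_compl]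
  show decide (d ∈ A) = false ↔ d ∉ A
  exact decide_eq_false_iff_not

theorem good_true : ((dec h hA c hc hsh hf).sub true).IsGood := by
  obtain ⟨s, hs, hg⟩ := h.rot
  refine (dec h hA c hc hsh hf).sub_good h true
    ((dec h hA c hc hsh hf).sub_planar4 true hs hg ?_)
  rw [pset_true]
  exact ser_cut4 h hs hg hA.cl hA.ne hA.nu hA.one

theorem good_false : ((dec h hA c hc hsh hf).sub false).IsGood := by
  obtain ⟨s, hs, hg⟩ := h.rot
  refine (dec h hA c hc hsh hf).sub_good h false
    ((dec h hA c hc hsh hf).sub_planar4 false hs hg ?_)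
  rw [pset_false]
  have hAc := hA.toSer.compl
  exact ser_cut4 h hs hg hAc.cl hAc.ne hAc.nu hAc.one

end

/-- a series set of the network of a part is a smaller series set -/
theorem lift {N : LNet Λ} (X : Dec N) (i : X.I) {A : Finset N.D}
    (hpart : ∀ d, X.part d = i ↔ d ∈ A) (hA : SerT N A) (hat : X.att (i, true) = N.pole true)
    (haf : ∀ x, Sh (fun d => N.inc (Sum.inl d)) A x → x = X.att (i, false))
    (A₂ : Finset {d : N.D // X.part d = i}) (h2 : SerT (X.sub i) A₂)
    (h3 : ∀ d, (X.sub i).inc (Sum.inl d) = (X.sub i).pole false → d ∉ A₂) :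
    ∃ A' : Finset N.D, SerT N A' ∧ A'.card < A.card := by
  have hcl : ∀ (d : N.D) (hd : X.part d = i) (hd' : X.part (N.a d) = i),
      (⟨N.a d, hd'⟩ : {d : N.D // X.part d = i}) ∈ A₂ ↔
        (⟨d, hd⟩ : {d : N.D // X.part d = i}) ∈ A₂ := fun d hd hd' => h2.cl ⟨d, hd⟩
  have hpole : ∀ (d : N.D) (hd : X.part d = i), N.inc (Sum.inl d) = N.pole true →
      (⟨d, hd⟩ : {d : N.D // X.part d = i}) ∈ A₂ := by
    intro d hd he
    refine h2.pole ⟨d, hd⟩ ?_
    exact Subtype.ext (he.trans hat.symm)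
  have hpf : ∀ (d : N.D) (hd : X.part d = i), N.inc (Sum.inl d) = X.att (i, false) →
      (⟨d, hd⟩ : {d : N.D // X.part d = i}) ∉ A₂ := by
    intro d hd he
    refine h3 ⟨d, hd⟩ ?_
    exact Subtype.ext he
  have hone : ∀ (d e : N.D) (hd : X.part d = i) (he : X.part e = i),
      (⟨d, hd⟩ : {d : N.D // X.part d = i}) ∈ A₂ → (⟨e, he⟩ : {d : N.D // X.part d = i}) ∈ A₂ →
      (∃ (d' : N.D) (hd' : X.part d' = i), (⟨d', hd'⟩ : {d : N.D // X.part d = i}) ∉ A₂ ∧
        N.inc (Sum.inl d') = N.inc (Sum.inl d)) →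
      (∃ (e' : N.D) (he' : X.part e' = i), (⟨e', he'⟩ : {d : N.D // X.part d = i}) ∉ A₂ ∧
        N.inc (Sum.inl e') = N.inc (Sum.inl e)) →
      N.inc (Sum.inl d) = N.inc (Sum.inl e) := by
    rintro d e hd he hdA heA ⟨d', hd', hdA', hdd⟩ ⟨e', he', heA', hee⟩
    have h4 := h2.one ((X.sub i).inc (Sum.inl ⟨d, hd⟩)) ((X.sub i).inc (Sum.inl ⟨e, he⟩))
      ⟨⟨⟨d, hd⟩, hdA, rfl⟩, ⟨⟨d', hd'⟩, hdA', Subtype.ext hdd⟩⟩
      ⟨⟨⟨e, he⟩, heA, rfl⟩, ⟨⟨e', he'⟩, heA', Subtype.ext hee⟩⟩
    exact congrArg Subtype.val h4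
  have hmem : ∀ d : N.D, d ∈ A₂.map ⟨Subtype.val, Subtype.val_injective⟩ ↔
      ∃ hd : X.part d = i, (⟨d, hd⟩ : {d : N.D // X.part d = i}) ∈ A₂ := by
    intro d
    rw [mem_map]
    constructor
    · rintro ⟨⟨e, he⟩, heA, hed⟩
      have hed' : e = d := hed
      subst hed'
      exact ⟨he, heA⟩
    · rintro ⟨hd, hdA⟩
      exact ⟨⟨d, hd⟩, hdA, rfl⟩
  obtain ⟨t, ht⟩ : ∃ t : {d : N.D // X.part d = i}, t ∉ A₂ := by
    by_contra hcon
    push Not at hcon
    exact h2.nu (Finset.eq_univ_iff_forall.mpr hcon)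
  have hlt : (A₂.map ⟨Subtype.val, Subtype.val_injective⟩).card < A.card := by
    apply card_lt_card
    rw [Finset.ssubset_iff_of_subset]
    · refine ⟨t.1, (hpart _).mp t.2, ?_⟩
      rw [hmem]
      rintro ⟨_, h5⟩
      exact ht h5
    · intro d hd
      obtain ⟨hd', -⟩ := (hmem d).mp hd
      exact (hpart d).mp hd'
  refine ⟨A₂.map ⟨Subtype.val, Subtype.val_injective⟩, ⟨⟨?_, ?_, ?_, ?_⟩, ?_⟩, hlt⟩
  · intro d
    rw [hmem, hmem]
    constructor
    · rintro ⟨h5, h6⟩
      have h7 : X.part d = i := by rw [← X.part_a]; exact h5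
      exact ⟨h7, (hcl d h7 h5).mp h6⟩
    · rintro ⟨h5, h6⟩
      have h7 : X.part (N.a d) = i := by rw [X.part_a]; exact h5
      exact ⟨h7, (hcl d h5 h7).mpr h6⟩
  · obtain ⟨u, hu⟩ := h2.ne
    exact ⟨u.1, (hmem _).mpr ⟨u.2, hu⟩⟩
  · intro e
    rw [e] at hlt
    have := card_le_univ A
    rw [card_univ] at hlt
    omega
  · have key : ∀ x, Sh (fun d => N.inc (Sum.inl d))
        (A₂.map ⟨Subtype.val, Subtype.val_injective⟩) x →
        ∃ (d : N.D) (hd : X.part d = i), (⟨d, hd⟩ : {d : N.D // X.part d = i}) ∈ A₂ ∧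
          N.inc (Sum.inl d) = x ∧
          ∃ (d' : N.D) (hd' : X.part d' = i), (⟨d', hd'⟩ : {d : N.D // X.part d = i}) ∉ A₂ ∧
            N.inc (Sum.inl d') = N.inc (Sum.inl d) := by
      rintro x ⟨⟨d, hd, hdx⟩, ⟨d', hd', hdx'⟩⟩
      simp only at hdx hdx'
      obtain ⟨h5, h6⟩ := (hmem d).mp hd
      refine ⟨d, h5, h6, hdx, ?_⟩
      by_cases h7 : d' ∈ A
      · have h8 := (hpart d').mpr h7
        refine ⟨d', h8, ?_, hdx'.trans hdx.symm⟩
        intro h9
        exact hd' ((hmem d').mpr ⟨h8, h9⟩)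
      · exfalso
        have h8 : x = X.att (i, false) := haf x ⟨⟨d, (hpart d).mp h5, hdx⟩, ⟨d', h7, hdx'⟩⟩
        exact hpf d h5 (hdx.trans h8) h6
    intro x y hx hy
    obtain ⟨d, hd, hdA, hdx, hd'⟩ := key x hx
    obtain ⟨e, he, heA, hey, he'⟩ := key y hy
    rw [← hdx, ← hey]
    exact hone d e hd he hdA heA hd' he'
  · intro d hd
    have h5 : X.part d = i := (hpart d).mpr (hA.pole d hd)
    exact (hmem d).mpr ⟨h5, hpole d h5 hd⟩

end NetSer

theorem ser_dec {N : LNet Λ} (h : N.IsGood) (hs : SerN N) : ∃ (N₁ N₂ : LNet Λ) (g : Option Bool → Λ),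
    N₁.IsGood ∧ N₂.IsGood ∧ ¬ SerN N₁ ∧ Fintype.card N₁.D < Fintype.card N.D ∧
      Fintype.card N₂.D < Fintype.card N.D ∧ NIso N (serGlue N₁ N₂ g) := by
  obtain ⟨A0, hA1, hA2, hA3, hA4⟩ := hs
  have hex : {A : Finset N.D | NetSer.SerT N A}.Nonempty := by
    rcases NetSer.Ser.exists_serT h ⟨hA1, hA2, hA3, hA4⟩ with h1 | h1
    · exact ⟨_, h1⟩
    · exact ⟨_, h1⟩
  obtain ⟨A, hA, hmin⟩ := Set.exists_min_image _ Finset.card (Set.toFinite _) hex
  have hA : NetSer.SerT N A := hA
  obtain ⟨c, hc, hsh, hf⟩ := hA.ends h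
  have g1 := NetSer.good_true h hA c hc hsh hf
  have g2 := NetSer.good_false h hA c hc hsh hf
  refine ⟨(NetSer.dec h hA c hc hsh hf).sub true, (NetSer.dec h hA c hc hsh hf).sub false,
    fun x => N.lab (match x with
      | some true => N.pole true
      | none => c
      | some false => N.pole false), g1, g2, ?_, ?_, ?_, ?_⟩
  · rintro ⟨B, hB1, hB2, hB3, hB4⟩
    have hlift : ∀ B : Finset ((NetSer.dec h hA c hc hsh hf).sub true).D,
        NetSer.SerT ((NetSer.dec h hA c hc hsh hf).sub true) B → False := by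
      intro B hB
      obtain ⟨-, -, -, hB'⟩ := hB.ends g1
      obtain ⟨A', hA', hlt⟩ := NetSer.lift (NetSer.dec h hA c hc hsh hf) true
        (fun d => decide_eq_true_iff) hA rfl (fun x hx => hA.one x c hx hsh) B hB hB'
      exact absurd (hmin A' hA') (by omega)
    rcases NetSer.Ser.exists_serT g1 ⟨hB1, hB2, hB3, hB4⟩ with h1 | h1
    · exact hlift _ h1
    · exact hlift _ h1
  · obtain ⟨d, hd⟩ := NetSer.exists_pole h false
    have h1 : d ∉ A := hf d hd
    exact Fintype.card_subtype_lt (x := d) (p := fun d => decide (d ∈ A) = true) (by simpa using h1)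
  · obtain ⟨d, hd⟩ := NetSer.exists_pole h true
    have h1 : d ∈ A := hA.pole d hd
    exact Fintype.card_subtype_lt (x := d) (p := fun d => decide (d ∈ A) = false)
      (by simpa using h1)
  · have hiso := gdec (NetSer.dec h hA c hc hsh hf) h.surj (Vc := Option Bool)
      (fun x => match x with
      | some true => N.pole true
      | none => c
      | some false => N.pole false) (by
        have hpp : N.pole true ≠ N.pole false := h.loop (Sum.inr false)
        rintro (_ | _ | _) (_ | _ | _) e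
        · rfl
        · exact absurd e (hc false)
        · exact absurd e (hc true)
        · exact absurd e.symm (hc false)
        · rfl
        · exact absurd e.symm hpp
        · exact absurd e.symm (hc true)
        · exact absurd e hpp
        · rfl) serInc (by
        rintro (_ | _ | _)
        · exact ⟨Sum.inl (true, false), rfl⟩
        · exact ⟨Sum.inr false, rfl⟩
        · exact ⟨Sum.inr true, rfl⟩) (by
        rintro ⟨i, b⟩
        cases i <;> cases b <;> rfl) (by
        rintro (_ | _) <;> rfl)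
    have hsub : (NetSer.dec h hA c hc hsh hf).sub = fun i : Bool =>
        bif i then (NetSer.dec h hA c hc hsh hf).sub true
        else (NetSer.dec h hA c hc hsh hf).sub false := by
      funext i
      cases i <;> rfl
    unfold serGlue
    have h9 : (fun i : Bool => bif i then (NetSer.dec h hA c hc hsh hf).sub true
        else (NetSer.dec h hA c hc hsh hf).sub false) = (NetSer.dec h hA c hc hsh hf).sub :=
      hsub.symm
    rw [h9]
    exact hiso

end PGr
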