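import Pool.Agent.PGr.Cut

/-! # Module InsBasic: insertion of two darts in two corners -/

set_option linter.unusedSectionVars false

namespace PGr
open Equiv Finset

section
variable {T : Type*} [Fintype T] [DecidableEq T] (s : Perm T) {c0 c1 : T}

theorem insS_c0 (hc : c0 ≠ c1) : insS s c0 c1 (Sum.inl c0) = Sum.inr true := by
  have h1 : swap (Sum.inl c1 : T ⊕ Bool) (Sum.inr false) (Sum.inl c0) = Sum.inl c0 :=
    swap_apply_of_ne_of_ne (by simpa using hc) (by simp)
  simp [insS, Perm.mul_apply, h1]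
theorem insS_c1 (hc : c0 ≠ c1) : insS s c0 c1 (Sum.inl c1) = Sum.inr false := by
  have h1 : swap (Sum.inl c0 : T ⊕ Bool) (Sum.inr true) (Sum.inr false) = Sum.inr false :=
    swap_apply_of_ne_of_ne (by simp) (by simp)
  simp [insS, Perm.mul_apply, h1]
theorem insS_inl (hc : c0 ≠ c1) {t : T} (h0 : t ≠ c0) (h1 : t ≠ c1) :
    insS s c0 c1 (Sum.inl t) = Sum.inl (s t) := by
  have e1 : swap (Sum.inl c1 : T ⊕ Bool) (Sum.inr false) (Sum.inl t) = Sum.inl t :=
    swap_apply_of_ne_of_ne (by simpa using h1) (by simp)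
  have e2 : swap (Sum.inl c0 : T ⊕ Bool) (Sum.inr true) (Sum.inl t) = Sum.inl t :=
    swap_apply_of_ne_of_ne (by simpa using h0) (by simp)
  simp [insS, Perm.mul_apply, e1, e2]
theorem insS_true (hc : c0 ≠ c1) : insS s c0 c1 (Sum.inr true) = Sum.inl (s c0) := by
  have e1 : swap (Sum.inl c1 : T ⊕ Bool) (Sum.inr false) (Sum.inr true) = Sum.inr true :=
    swap_apply_of_ne_of_ne (by simp) (by simp)
  simp [insS, Perm.mul_apply, e1]
theorem insS_false (hc : c0 ≠ c1) : insS s c0 c1 (Sum.inr false) = Sum.inl (s c1) := by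
  have e2 : swap (Sum.inl c0 : T ⊕ Bool) (Sum.inr true) (Sum.inl c1) = Sum.inl c1 :=
    swap_apply_of_ne_of_ne (by simpa using hc.symm) (by simp)
  simp [insS, Perm.mul_apply, e2]

/-- projection of the new darts to the corners in which they are inserted -/
def InsBasic.pr (c0 c1 : T) : T ⊕ Bool → T
  | Sum.inl t => t
  | Sum.inr true => c0
  | Sum.inr false => c1

theorem InsBasic.sameCycle_map {X Y : Type*} {f : Perm X} {g : Perm Y} (π : X → Y)
    (h : ∀ x, g.SameCycle (π x) (π (f x))) {x y : X} (hxy : f.SameCycle x y) :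
    g.SameCycle (π x) (π y) := by
  obtain ⟨i, rfl⟩ := hxy
  induction i with
  | zero => simpa using Perm.SameCycle.refl _ _
  | succ n ih =>
    refine ih.trans ?_
    have h2 : (f ^ ((n : ℤ) + 1)) x = f ((f ^ (n : ℤ)) x) := by
      rw [← Perm.mul_apply, ← zpow_one_add, add_comm]
    rw [h2]
    exact h _
  | pred n ih =>
    refine ih.trans ?_
    have h2 : (f ^ (-(n : ℤ))) x = f ((f ^ (-(n : ℤ) - 1)) x) := by
      rw [← Perm.mul_apply, ← zpow_one_add]
      congr 2
      ring
    rw [h2]
    exact (h _).symm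

theorem InsBasic.step (hc : c0 ≠ c1) (x : T ⊕ Bool) :
    s.SameCycle (InsBasic.pr c0 c1 x) (InsBasic.pr c0 c1 (insS s c0 c1 x)) := by
  rcases x with t | b
  · by_cases h0 : t = c0
    · subst h0; rw [insS_c0 s hc]; exact Perm.SameCycle.refl _ _
    · by_cases h1 : t = c1
      · subst h1; rw [insS_c1 s hc]; exact Perm.SameCycle.refl _ _
      · rw [insS_inl s hc h0 h1]
        exact Perm.sameCycle_apply_right.2 (Perm.SameCycle.refl _ _)
  · cases b
    · rw [insS_false s hc]; exact Perm.sameCycle_apply_right.2 (Perm.SameCycle.refl _ _)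
    · rw [insS_true s hc]; exact Perm.sameCycle_apply_right.2 (Perm.SameCycle.refl _ _)

theorem InsBasic.proj (hc : c0 ≠ c1) {x y : T ⊕ Bool} (h : (insS s c0 c1).SameCycle x y) :
    s.SameCycle (InsBasic.pr c0 c1 x) (InsBasic.pr c0 c1 y) :=
  InsBasic.sameCycle_map _ (InsBasic.step s hc) h

theorem InsBasic.true_c0 (hc : c0 ≠ c1) :
    (insS s c0 c1).SameCycle (Sum.inl c0) (Sum.inr true) := by
  rw [← insS_c0 s hc]
  exact Perm.sameCycle_apply_right.2 (Perm.SameCycle.refl _ _)

theorem InsBasic.false_c1 (hc : c0 ≠ c1) :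
    (insS s c0 c1).SameCycle (Sum.inl c1) (Sum.inr false) := by
  rw [← insS_c1 s hc]
  exact Perm.sameCycle_apply_right.2 (Perm.SameCycle.refl _ _)

theorem InsBasic.back (hc : c0 ≠ c1) (t : T) :
    (insS s c0 c1).SameCycle (Sum.inl t) (Sum.inl (s t)) := by
  by_cases h0 : t = c0
  · subst h0
    refine (InsBasic.true_c0 s hc).trans ?_
    rw [← insS_true s hc]
    exact Perm.sameCycle_apply_right.2 (Perm.SameCycle.refl _ _)
  · by_cases h1 : t = c1
    · subst h1
      refine (InsBasic.false_c1 s hc).trans ?_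
      rw [← insS_false s hc]
      exact Perm.sameCycle_apply_right.2 (Perm.SameCycle.refl _ _)
    · rw [← insS_inl s hc h0 h1]
      exact Perm.sameCycle_apply_right.2 (Perm.SameCycle.refl _ _)

theorem sameCycle_insS (hc : c0 ≠ c1) (t t' : T) :
    (insS s c0 c1).SameCycle (Sum.inl t) (Sum.inl t') ↔ s.SameCycle t t' :=
  ⟨fun h => InsBasic.proj s hc h,
    fun h => InsBasic.sameCycle_map (fun x => (Sum.inl x : T ⊕ Bool)) (InsBasic.back s hc) h⟩
theorem sameCycle_insS_true (hc : c0 ≠ c1) (t : T) :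
    (insS s c0 c1).SameCycle (Sum.inl t) (Sum.inr true) ↔ s.SameCycle t c0 :=
  ⟨fun h => InsBasic.proj s hc h,
    fun h => ((sameCycle_insS s hc t c0).2 h).trans (InsBasic.true_c0 s hc)⟩
theorem sameCycle_insS_false (hc : c0 ≠ c1) (t : T) :
    (insS s c0 c1).SameCycle (Sum.inl t) (Sum.inr false) ↔ s.SameCycle t c1 :=
  ⟨fun h => InsBasic.proj s hc h,
    fun h => ((sameCycle_insS s hc t c1).2 h).trans (InsBasic.false_c1 s hc)⟩

theorem nV_insS (hc : c0 ≠ c1) : nV (insS s c0 c1) = nV s := by
  unfold nV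
  apply Nat.card_congr
  refine ⟨Quotient.lift (fun x => Quotient.mk (Perm.SameCycle.setoid s) (InsBasic.pr c0 c1 x))
      (fun x y h => Quotient.sound (InsBasic.proj s hc h)),
    Quotient.lift (fun t => Quotient.mk (Perm.SameCycle.setoid (insS s c0 c1)) (Sum.inl t))
      (fun x y h => Quotient.sound ((sameCycle_insS s hc x y).2 h)), ?_, ?_⟩
  · intro q
    induction q using Quotient.inductionOn with
    | _ x =>
      apply Quotient.sound
      show (insS s c0 c1).SameCycle (Sum.inl (InsBasic.pr c0 c1 x)) x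
      rcases x with t | b
      · exact Perm.SameCycle.refl _ _
      · cases b
        · exact InsBasic.false_c1 s hc
        · exact InsBasic.true_c0 s hc
  · intro q
    induction q using Quotient.inductionOn with
    | _ x => rfl

/-- a set of old edges -/
theorem cut_insS_inl (hc : c0 ≠ c1) (A : Finset T) :
    cut (insS s c0 c1) (A.map ⟨Sum.inl, Sum.inl_injective⟩) =
      cut s A + (if c0 ∈ A ∧ s c0 ∈ A then 2 else 0) + (if c1 ∈ A ∧ s c1 ∈ A then 2 else 0) := by
  rw [cut_eq_two_mul, cut_eq_two_mul]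
  have h1 : (univ.filter fun t : T ⊕ Bool => t ∈ A.map ⟨Sum.inl, Sum.inl_injective⟩ ∧
      insS s c0 c1 t ∉ A.map ⟨Sum.inl, Sum.inl_injective⟩) =
      (univ.filter fun t : T => t ∈ A ∧ (s t ∉ A ∨ t = c0 ∨ t = c1)).map
        ⟨Sum.inl, Sum.inl_injective⟩ := by
    ext x
    rcases x with t | b
    · simp only [mem_filter, mem_univ, true_and, mem_map, Function.Embedding.coeFn_mk,
        Sum.inl.injEq, exists_eq_right]
      by_cases h0 : t = c0
      · subst h0
        rw [insS_c0 s hc]
        simp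
      · by_cases h1 : t = c1
        · subst h1
          rw [insS_c1 s hc]
          simp
        · rw [insS_inl s hc h0 h1]
          simp [h0, h1]
    · simp
  have h2 : (univ.filter fun t : T => t ∈ A ∧ (s t ∉ A ∨ t = c0 ∨ t = c1)).card =
      (univ.filter fun t => t ∈ A ∧ s t ∉ A).card + (if c0 ∈ A ∧ s c0 ∈ A then 1 else 0) +
        (if c1 ∈ A ∧ s c1 ∈ A then 1 else 0) := by
    have h3 : (univ.filter fun t : T => t ∈ A ∧ (s t ∉ A ∨ t = c0 ∨ t = c1)) =
        ((univ.filter fun t => t ∈ A ∧ s t ∉ A) ∪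
          (univ.filter fun t => t = c0 ∧ c0 ∈ A ∧ s c0 ∈ A)) ∪
          (univ.filter fun t => t = c1 ∧ c1 ∈ A ∧ s c1 ∈ A) := by
      ext t
      simp only [mem_filter, mem_univ, true_and, mem_union]
      by_cases h0 : t = c0
      · subst h0
        simp only [hc, false_and, or_false, true_and]
        tauto
      · by_cases h1 : t = c1
        · subst h1
          simp only [hc.symm, false_and, or_false, true_and]
          tauto
        · simp [h0, h1]
    have h4 : ∀ c : T, (univ.filter fun t => t = c ∧ c ∈ A ∧ s c ∈ A).card =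
        if c ∈ A ∧ s c ∈ A then 1 else 0 := by
      intro c
      by_cases h : c ∈ A ∧ s c ∈ A
      · rw [if_pos h]
        have : (univ.filter fun t => t = c ∧ c ∈ A ∧ s c ∈ A) = {c} := by
          ext t; simp [h.1, h.2]
        rw [this, card_singleton]
      · rw [if_neg h]
        rw [card_eq_zero, filter_eq_empty_iff]
        intro t _ ht
        exact h ht.2
    rw [h3, card_union_of_disjoint, card_union_of_disjoint, h4, h4]
    · rw [disjoint_left]
      intro t ht ht'
      simp only [mem_filter, mem_univ, true_and] at ht ht'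
      obtain ⟨rfl, h5, h6⟩ := ht'
      exact ht.2 h6
    · rw [disjoint_left]
      intro t ht ht'
      simp only [mem_filter, mem_univ, true_and, mem_union] at ht ht'
      obtain ⟨rfl, h5, h6⟩ := ht'
      rcases ht with h7 | ⟨h7, _⟩
      · exact h7.2 h6
      · exact hc h7.symm
  rw [h1, card_map, h2]
  split_ifs <;> ring

end

theorem InsBasic.exists_pre (M : BMap) (h : M.IsGood) (b : Bool) :
    ∃ c : M.D, M.s (Sum.inl c) = Sum.inr b := by
  rcases hx : M.s.symm (Sum.inr b) with c | b'
  · exact ⟨c, by rw [← hx, apply_symm_apply]⟩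
  · exfalso
    obtain ⟨d, hd⟩ := exists_fst ⟨M, h⟩ b'
    have h1 : M.s (Sum.inr b') = Sum.inr b := by rw [← hx, apply_symm_apply]
    rw [show M.s (Sum.inr b') = Sum.inl d from hd] at h1
    simp at h1

/-- the rotation without the root edge -/
noncomputable def InsBasic.f (M : BMap) (h : M.IsGood) (d : M.D) : M.D :=
  match M.s (Sum.inl d) with
  | Sum.inl d' => d'
  | Sum.inr b => fstD ⟨M, h⟩ b

theorem InsBasic.f_inl (M : BMap) (h : M.IsGood) {d d' : M.D} (hd : M.s (Sum.inl d) = Sum.inl d') :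
    InsBasic.f M h d = d' := by
  simp only [InsBasic.f, hd]

theorem InsBasic.f_inr (M : BMap) (h : M.IsGood) {d : M.D} {b : Bool}
    (hd : M.s (Sum.inl d) = Sum.inr b) : InsBasic.f M h d = fstD ⟨M, h⟩ b := by
  simp only [InsBasic.f, hd]

theorem InsBasic.f_inj (M : BMap) (h : M.IsGood) : Function.Injective (InsBasic.f M h) := by
  intro d e hde
  rcases hd : M.s (Sum.inl d) with d' | b
  · rcases he : M.s (Sum.inl e) with e' | b'
    · rw [InsBasic.f_inl M h hd, InsBasic.f_inl M h he] at hde
      rw [hde, ← he] at hd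
      exact Sum.inl_injective (M.s.injective hd)
    · exfalso
      rw [InsBasic.f_inl M h hd, InsBasic.f_inr M h he] at hde
      have h1 : M.s (Sum.inr b') = Sum.inl (fstD ⟨M, h⟩ b') := fstD_spec ⟨M, h⟩ b'
      rw [hde, ← h1] at hd
      have := M.s.injective hd
      simp at this
  · rcases he : M.s (Sum.inl e) with e' | b'
    · exfalso
      rw [InsBasic.f_inr M h hd, InsBasic.f_inl M h he] at hde
      have h1 : M.s (Sum.inr b) = Sum.inl (fstD ⟨M, h⟩ b) := fstD_spec ⟨M, h⟩ b
      rw [← hde, ← h1] at he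
      have := M.s.injective he
      simp at this
    · rw [InsBasic.f_inr M h hd, InsBasic.f_inr M h he] at hde
      have h1 : M.s (Sum.inr b) = Sum.inl (fstD ⟨M, h⟩ b) := fstD_spec ⟨M, h⟩ b
      have h2 : M.s (Sum.inr b') = Sum.inl (fstD ⟨M, h⟩ b') := fstD_spec ⟨M, h⟩ b'
      rw [hde, ← h2] at h1
      have h3 : b = b' := Sum.inr_injective (M.s.injective h1)
      rw [h3, ← he] at hd
      exact Sum.inl_injective (M.s.injective hd)

/-- every good rooted map is obtained by insertion of its root edge -/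
theorem exists_ins (M : BMap) (h : M.IsGood) :
    ∃ (s' : Perm M.D) (c0 c1 : M.D), c0 ≠ c1 ∧ M.s = insS s' c0 c1 := by
  obtain ⟨c0, h0⟩ := InsBasic.exists_pre M h true
  obtain ⟨c1, h1⟩ := InsBasic.exists_pre M h false
  have hc : c0 ≠ c1 := by
    rintro rfl
    rw [h0] at h1
    simp at h1
  let s' : Perm M.D := Equiv.ofBijective _ (Finite.injective_iff_bijective.mp (InsBasic.f_inj M h))
  have hs' : ∀ d, s' d = InsBasic.f M h d := fun d => rfl
  refine ⟨s', c0, c1, hc, ?_⟩
  ext x
  rcases x with d | b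
  · by_cases hd0 : d = c0
    · subst hd0; rw [insS_c0 s' hc, h0]
    · by_cases hd1 : d = c1
      · subst hd1; rw [insS_c1 s' hc, h1]
      · rw [insS_inl s' hc hd0 hd1, hs']
        rcases hd : M.s (Sum.inl d) with d' | b
        · rw [InsBasic.f_inl M h hd]
        · exfalso
          cases b
          · rw [← h1] at hd; exact hd1 (Sum.inl_injective (M.s.injective hd))
          · rw [← h0] at hd; exact hd0 (Sum.inl_injective (M.s.injective hd))
  · cases b
    · rw [insS_false s' hc, hs', InsBasic.f_inr M h h1]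
      exact fstD_spec ⟨M, h⟩ false
    · rw [insS_true s' hc, hs', InsBasic.f_inr M h h0]
      exact fstD_spec ⟨M, h⟩ true

end PGr
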