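import Pool.Agent.PGr.NetDefs
import Pool.Agent.PGr.SubMap
import Pool.Agent.PGr.PlRestrict
import Pool.Agent.PGr.RetLib
import Pool.Agent.PGr.InsBasic
import Pool.Agent.PGr.CutIso

/-! # Module SubPl: planarity of the network of a part -/

set_option linter.unusedSectionVars false

namespace PGr
open Equiv Finset
open scoped ENNReal
universe u
variable {Λ : Type u}

/-- the darts of the part `i` of a decomposition -/
def Dec.pset {N : LNet Λ} (X : Dec N) (i : X.I) : Finset N.T :=
  (univ.filter fun d => X.part d = i).map ⟨Sum.inl, Sum.inl_injective⟩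

namespace SubPl

theorem sameCycle_iso {T T' : Type*} (f : T ≃ T') (s : Perm T) (x y : T') :
    (f.permCongr s).SameCycle x y ↔ s.SameCycle (f.symm x) (f.symm y) := by
  have key : ∀ n : ℤ, ((f.permCongr s) ^ n) x = f ((s ^ n) (f.symm x)) := by
    intro n
    have h1 : (f.permCongr s) ^ n = f.permCongr (s ^ n) := by
      have := map_zpow f.permCongrHom s n
      exact this.symm
    rw [h1]; rfl
  constructor
  · rintro ⟨n, hn⟩
    refine ⟨n, ?_⟩
    rw [key] at hn
    rw [← hn, Equiv.symm_apply_apply]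
  · rintro ⟨n, hn⟩
    refine ⟨n, ?_⟩
    rw [key, hn, Equiv.apply_symm_apply]

/-- the darts of the network of a part -/
abbrev TT {N : LNet Λ} (X : Dec N) (i : X.I) : Type := {d : N.D // X.part d = i} ⊕ Bool

/-- the vertex of a dart of a part, as a vertex of the network -/
def vv {N : LNet Λ} (X : Dec N) (i : X.I) (t : TT X i) : N.V :=
  Sum.elim (fun d : {d : N.D // X.part d = i} => N.inc (Sum.inl d.1)) (fun b => X.att (i, b)) t

theorem vv_inl {N : LNet Λ} (X : Dec N) (i : X.I) (d : {d : N.D // X.part d = i}) :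
    vv X i (Sum.inl d) = N.inc (Sum.inl d.1) := rfl

theorem vv_inr {N : LNet Λ} (X : Dec N) (i : X.I) (b : Bool) :
    vv X i (Sum.inr b) = X.att (i, b) := rfl

theorem inc_iff {N : LNet Λ} (X : Dec N) (i : X.I) (t t' : TT X i) :
    (X.sub i).inc t = (X.sub i).inc t' ↔ vv X i t = vv X i t' := by
  have h : ∀ t : TT X i, ((X.sub i).inc t).1 = vv X i t := by
    rintro (d | b) <;> rfl
  rw [← h, ← h]
  exact Subtype.ext_iff

theorem transport {N : LNet Λ} (X : Dec N) (i : X.I) {T' : Type*} [Fintype T'] [DecidableEq T']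
    {a' s' : Perm T'} (f : TT X i ≃ T') (hf : ∀ t : TT X i, f ((X.sub i).aa t) = a' (f t))
    (hs : ∀ t t' : TT X i, s'.SameCycle (f t) (f t') ↔ vv X i t = vv X i t')
    (hp : Pl a' s') :
    ∃ s' : Perm (X.sub i).T, (∀ t t', s'.SameCycle t t' ↔ (X.sub i).inc t = (X.sub i).inc t') ∧
      Pl (X.sub i).aa s' := by
  have h1 : ∀ t t' : TT X i, (f.symm.permCongr s' : Perm (TT X i)).SameCycle t t' ↔
      vv X i t = vv X i t' := by
    intro t t'
    rw [sameCycle_iso, Equiv.symm_symm]
    exact hs t t'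
  obtain ⟨aT, haT⟩ : ∃ aT : Perm (TT X i), aT = (X.sub i).aa := ⟨(X.sub i).aa, rfl⟩
  have hf' : ∀ t : TT X i, f (aT t) = a' (f t) := by
    intro t; rw [haT]; exact hf t
  have h2 : Pl aT (f.symm.permCongr s' : Perm (TT X i)) := by
    refine Pl_iso f.symm ?_ ?_ hp
    · intro t
      rw [Equiv.symm_apply_eq, hf', Equiv.apply_symm_apply]
    · intro t
      simp [Equiv.permCongr_apply]
  rw [haT] at h2
  exact ⟨f.symm.permCongr s', fun t t' => (h1 t t').trans (inc_iff X i t t').symm, h2⟩

theorem mem_pset {N : LNet Λ} {X : Dec N} {i : X.I} {d : N.D} :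
    (Sum.inl d : N.T) ∈ X.pset i ↔ X.part d = i := by
  simp [Dec.pset]

theorem inr_notMem_pset {N : LNet Λ} {X : Dec N} {i : X.I} {b : Bool} :
    (Sum.inr b : N.T) ∉ X.pset i := by
  simp [Dec.pset]

theorem pset_cl {N : LNet Λ} (X : Dec N) (i : X.I) : Cl N.aa (X.pset i) := by
  rintro (d | b)
  · have : N.aa (Sum.inl d) = Sum.inl (N.a d) := rfl
    rw [this, mem_pset, mem_pset, X.part_a]
  · have : N.aa (Sum.inr b) = Sum.inr (!b) := rfl
    rw [this]
    exact ⟨fun h => absurd h inr_notMem_pset, fun h => absurd h inr_notMem_pset⟩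

end SubPl

/-- a part with cut 4 -/
theorem Dec.sub_planar4 {N : LNet Λ} (X : Dec N) (i : X.I) {s : Perm N.T}
    (hs : ∀ t t', s.SameCycle t t' ↔ N.inc t = N.inc t') (hg : Good N.aa s)
    (h4 : cut s (X.pset i) = 4) :
    ∃ s' : Perm (X.sub i).T, (∀ t t', s'.SameCycle t t' ↔ (X.sub i).inc t = (X.sub i).inc t') ∧
      Pl (X.sub i).aa s' := by
  obtain ⟨z0, z1, hne, h0, h1, -⟩ := exists_last h4
  -- the last darts are at the attachments
  have hatt : ∀ z : {x // x ∈ X.pset i}, s z.1 ∉ X.pset i → ∃ b, N.inc z.1 = X.att (i, b) := by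
    rintro ⟨z, hz⟩ hsz
    simp only at hsz ⊢
    have hsame : N.inc z = N.inc (s z) := (hs _ _).mp (Perm.sameCycle_apply_right.mpr
      (Perm.SameCycle.refl _ _))
    rcases z with d | b
    · rw [SubPl.mem_pset] at hz
      rcases hsz' : s (Sum.inl d) with d' | b
      · rw [hsz', SubPl.mem_pset] at hsz
        rw [hsz'] at hsame
        obtain ⟨b, hb⟩ := X.share d d' (by rw [hz]; exact fun e => hsz e.symm) hsame
        exact ⟨b, by rw [hb, hz]⟩
      · rw [hsz'] at hsame
        obtain ⟨b', hb'⟩ := X.root d b hsame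
        exact ⟨b', by rw [hb', hz]⟩
    · exact absurd hz SubPl.inr_notMem_pset
  obtain ⟨b0, hb0⟩ := hatt z0 h0
  obtain ⟨b1, hb1⟩ := hatt z1 h1
  have hvne : N.inc z0.1 ≠ N.inc z1.1 := fun e => hg.last_ne (SubPl.pset_cl X i) h4 z0.2 z1.2 h0 h1
    (fun e' => hne (Subtype.ext e')) ((hs _ _).mpr e)
  -- rename
  obtain ⟨w, hw1, hw2⟩ : ∃ w : Bool → {x // x ∈ X.pset i},
      (∀ b, N.inc (w b).1 = X.att (i, b)) ∧ ∀ b, s (w b).1 ∉ X.pset i := by
    cases b0 <;> cases b1
    · exact absurd (hb0.trans hb1.symm) hvne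
    · refine ⟨fun b => bif b then z1 else z0, fun b => ?_, fun b => ?_⟩ <;> cases b <;> assumption
    · refine ⟨fun b => bif b then z0 else z1, fun b => ?_, fun b => ?_⟩ <;> cases b <;> assumption
    · exact absurd (hb0.trans hb1.symm) hvne
  have hwne : w true ≠ w false := by
    intro e
    apply X.att_ne i
    rw [← hw1, ← hw1, e]
  have hwc : ¬ s.SameCycle (w true).1 (w false).1 := by
    rw [hs, hw1, hw1]; exact X.att_ne i
  have hgood := hg.subMap (SubPl.pset_cl X i) h4 (hw2 true) (hw2 false) hwne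
  let g : {d : N.D // X.part d = i} → {x // x ∈ X.pset i} :=
    fun d => ⟨Sum.inl d.1, SubPl.mem_pset.mpr d.2⟩
  have hgb : Function.Bijective g := by
    constructor
    · rintro ⟨d, hd⟩ ⟨d', hd'⟩ e
      have := Sum.inl_injective (congrArg Subtype.val e)
      exact Subtype.ext this
    · rintro ⟨(d | b), hx⟩
      · exact ⟨⟨d, SubPl.mem_pset.mp hx⟩, rfl⟩
      · exact absurd hx SubPl.inr_notMem_pset
  let f : SubPl.TT X i ≃ {x // x ∈ X.pset i} ⊕ Bool :=
    Equiv.sumCongr (Equiv.ofBijective g hgb) (Equiv.refl Bool)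
  have hfl : ∀ d : {d : N.D // X.part d = i}, f (Sum.inl d) = Sum.inl (g d) := fun _ => rfl
  have hfr : ∀ b : Bool, f (Sum.inr b) = Sum.inr b := fun _ => rfl
  have key1 : ∀ x y : {x // x ∈ X.pset i},
      (insS (ret s (X.pset i)) (w true) (w false)).SameCycle
        (Sum.inl x) (Sum.inl y) ↔ N.inc x.1 = N.inc y.1 := by
    intro x y
    rw [sameCycle_insS _ hwne, sameCycle_ret, hs]
  have key2 : ∀ (x : {x // x ∈ X.pset i}) (b : Bool),
      (insS (ret s (X.pset i)) (w true) (w false)).SameCycle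
        (Sum.inl x) (Sum.inr b) ↔ N.inc x.1 = X.att (i, b) := by
    intro x b
    cases b
    · rw [sameCycle_insS_false _ hwne, sameCycle_ret, hs, hw1]
    · rw [sameCycle_insS_true _ hwne, sameCycle_ret, hs, hw1]
  have key3 : ¬ (insS (ret s (X.pset i)) (w true) (w false)).SameCycle
      (Sum.inr true) (Sum.inr false) := by
    intro h3
    have h4 := (key2 (w true) true).mpr (hw1 true)
    have h5 := (key2 (w true) false).mp (h4.trans h3)
    rw [hw1] at h5
    exact X.att_ne i h5
  have hmain : ∀ t t' : SubPl.TT X i,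
      (insS (ret s (X.pset i)) (w true) (w false)).SameCycle (f t) (f t') ↔
        SubPl.vv X i t = SubPl.vv X i t' := by
    rintro (d | b) (d' | b')
    · rw [hfl, hfl, key1, SubPl.vv_inl, SubPl.vv_inl]
    · rw [hfl, hfr, key2, SubPl.vv_inl, SubPl.vv_inr]
    · rw [hfl, hfr, Perm.sameCycle_comm, key2, SubPl.vv_inl, SubPl.vv_inr]
      exact eq_comm
    · rw [hfr, hfr, SubPl.vv_inr, SubPl.vv_inr]
      cases b <;> cases b'
      · exact iff_of_true (Perm.SameCycle.refl _ _) rfl
      · exact iff_of_false (fun e => key3 e.symm) (fun e => X.att_ne i e.symm)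
      · exact iff_of_false key3 (X.att_ne i)
      · exact iff_of_true (Perm.SameCycle.refl _ _) rfl
  refine SubPl.transport X i (a' := ext (subA N.aa (X.pset i) (SubPl.pset_cl X i)))
    (s' := insS (ret s (X.pset i)) (w true) (w false)) f ?_ hmain hgood.pl
  rintro (d | b)
  · rfl
  · rfl

/-- a part attached at the two poles -/
theorem Dec.sub_planar_par {N : LNet Λ} (hN : N.IsGood) (X : Dec N) (i : X.I)
    (h : ∀ b, X.att (i, b) = N.pole b) :
    ∃ s' : Perm (X.sub i).T, (∀ t t', s'.SameCycle t t' ↔ (X.sub i).inc t = (X.sub i).inc t') ∧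
      Pl (X.sub i).aa s' := by
  obtain ⟨s, hs, hpl⟩ := hN.planar
  have hinv : ∀ t, N.aa (N.aa t) = t := by
    rintro (d | b)
    · exact congrArg Sum.inl (hN.inv d)
    · show Sum.inr (!!b) = Sum.inr b
      rw [Bool.not_not]
  set S : Finset N.T := X.pset i ∪ {Sum.inr true, Sum.inr false} with hS
  have mSl : ∀ d : N.D, (Sum.inl d : N.T) ∈ S ↔ X.part d = i := by
    intro d
    simp [hS, SubPl.mem_pset]
  have mSr : ∀ b : Bool, (Sum.inr b : N.T) ∈ S := by
    intro b
    cases b <;> simp [hS]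
  have hScl : Cl N.aa S := by
    rintro (d | b)
    · have : N.aa (Sum.inl d) = Sum.inl (N.a d) := rfl
      rw [this, mSl, mSl, X.part_a]
    · have : N.aa (Sum.inr b) = Sum.inr (!b) := rfl
      rw [this]
      exact iff_of_true (mSr _) (mSr _)
  let g : SubPl.TT X i → {x // x ∈ S} := fun t => Sum.elim
    (fun d : {d : N.D // X.part d = i} => (⟨Sum.inl d.1, (mSl _).mpr d.2⟩ : {x // x ∈ S}))
    (fun b => ⟨Sum.inr b, mSr b⟩) t
  have hgb : Function.Bijective g := by
    constructor
    · rintro (⟨d, hd⟩ | b) (⟨d', hd'⟩ | b') e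
      · have := Sum.inl_injective (congrArg Subtype.val e)
        exact congrArg Sum.inl (Subtype.ext this)
      · have e' : (Sum.inl d : N.T) = Sum.inr b' := congrArg Subtype.val e
        exact absurd e' (by simp)
      · have e' : (Sum.inr b : N.T) = Sum.inl d' := congrArg Subtype.val e
        exact absurd e' (by simp)
      · have := Sum.inr_injective (congrArg Subtype.val e)
        exact congrArg Sum.inr this
    · rintro ⟨(d | b), hx⟩
      · exact ⟨Sum.inl ⟨d, (mSl _).mp hx⟩, rfl⟩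
      · exact ⟨Sum.inr b, rfl⟩
  refine SubPl.transport X i (a' := subA N.aa S hScl) (s' := ret s S) (Equiv.ofBijective g hgb)
    ?_ ?_ (hpl.restrict hinv S hScl)
  · rintro (d | b)
    · rfl
    · rfl
  · intro t t'
    have hval : ∀ t : SubPl.TT X i, N.inc (g t).1 = SubPl.vv X i t := by
      rintro (d | b)
      · rfl
      · exact (h b).symm
    rw [sameCycle_ret, hs]
    show N.inc (g t).1 = N.inc (g t').1 ↔ _
    rw [hval, hval]

end PGr
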