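import Pool.Agent.PGr.SumLib
import Pool.Agent.PGr.MSet
import Pool.Agent.PGr.GlueLib
import Pool.Agent.PGr.NetSer

/-! # Module NetSumB: inequalities for the generating functions of networks -/

set_option linter.unusedSectionVars false

namespace PGr
open Equiv Finset
open scoped ENNReal Classical
universe u
variable {Λ : Type u} (w : Λ → ℝ≥0∞)

/-- the representative of the class of a good network is isomorphic to it -/
theorem NetSumB.rep_iso (N : GN Λ) : NIso (NC.rep (Quotient.mk (nSetoid Λ) N)).1 N.1 :=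
  Quotient.exact (Quotient.out_eq (Quotient.mk (nSetoid Λ) N))

theorem sn_le (n : ℕ) :
    Nsel w (fun N => Fintype.card N.D ≤ n + 1 ∧ XNet N ∧ SerN N) ≤
      (∑' l, w l) * Nsel w (fun N => Fintype.card N.D ≤ n ∧ ¬ SerN N) *
        Nsel w (fun N => Fintype.card N.D ≤ n) := by
  unfold Nsel
  rw [tsum_prod_mul, tsum_prod_mul]
  -- the data of the series decomposition of the representative
  have key : ∀ c : NC Λ, (Fintype.card c.rep.1.D ≤ n + 1 ∧ XNet c.rep.1 ∧ SerN c.rep.1) →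
      ∃ p : (Λ × NC Λ) × NC Λ,
      (∃ g : Option Bool → Λ, g none = p.1.1 ∧
        NIso c.rep.1 (serGlue p.1.2.rep.1 p.2.rep.1 g)) ∧
      (Fintype.card p.1.2.rep.1.D ≤ n ∧ ¬ SerN p.1.2.rep.1) ∧ Fintype.card p.2.rep.1.D ≤ n := by
    intro c hP
    obtain ⟨N₁, N₂, g, h1, h2, h3, h4, h5, h6⟩ := ser_dec c.rep.2 hP.2.2
    have i1 := NetSumB.rep_iso ⟨N₁, h1⟩
    have i2 := NetSumB.rep_iso ⟨N₂, h2⟩
    refine ⟨((g none, Quotient.mk (nSetoid Λ) ⟨N₁, h1⟩), Quotient.mk (nSetoid Λ) ⟨N₂, h2⟩),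
      ⟨g, rfl, h6.trans (serGlue_iso i1.symm i2.symm rfl)⟩, ⟨?_, ?_⟩, ?_⟩
    · rw [i1.card_eq]
      change Fintype.card N₁.D ≤ n
      have := hP.1
      omega
    · exact fun h => h3 (i1.ser h)
    · rw [i2.card_eq]
      change Fintype.card N₂.D ≤ n
      have := hP.1
      omega
  by_cases hne : Nonempty ((Λ × NC Λ) × NC Λ)
  · choose! φ hφ using key
    refine tsum_le_tsum_of_injOn φ ?_ ?_
    · intro c c' hc hc' he
      have hP : Fintype.card c.rep.1.D ≤ n + 1 ∧ XNet c.rep.1 ∧ SerN c.rep.1 := by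
        by_contra h
        exact hc (if_neg h)
      have hP' : Fintype.card c'.rep.1.D ≤ n + 1 ∧ XNet c'.rep.1 ∧ SerN c'.rep.1 := by
        by_contra h
        exact hc' (if_neg h)
      obtain ⟨⟨g, hg, hi⟩, -⟩ := hφ c hP
      obtain ⟨⟨g', hg', hi'⟩, -⟩ := hφ c' hP'
      rw [← he] at hg' hi'
      have h1 : NIso c.rep.1 c'.rep.1 :=
        hi.trans ((serGlue_iso (NIso.refl _) (NIso.refl _) (hg.trans hg'.symm)).trans hi'.symm)
      have h2 : Quotient.mk (nSetoid Λ) c.rep = Quotient.mk (nSetoid Λ) c'.rep :=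
        Quotient.sound h1
      rw [Quotient.out_eq, Quotient.out_eq] at h2
      exact h2
    · intro c hc
      have hP : Fintype.card c.rep.1.D ≤ n + 1 ∧ XNet c.rep.1 ∧ SerN c.rep.1 := by
        by_contra h
        exact hc (if_neg h)
      obtain ⟨⟨g, hg, hi⟩, h1, h2⟩ := hφ c hP
      rw [if_pos hP, if_pos h1, if_pos h2, hi.wt_eq w, wt_serGlue, hg, mul_assoc]
  · refine le_trans (le_of_eq (ENNReal.tsum_eq_zero.2 (fun c => if_neg (fun h => ?_)))) zero_le
    obtain ⟨p, -⟩ := key c h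
    exact hne ⟨p⟩

theorem Nsel_add (P Q : LNet Λ → Prop) : Nsel w (fun N => P N ∧ Q N) + Nsel w (fun N => P N ∧ ¬ Q N) =
    Nsel w P := by
  unfold Nsel
  rw [← ENNReal.tsum_add]
  refine tsum_congr fun c => ?_
  by_cases h1 : P c.rep.1
  · by_cases h2 : Q c.rep.1
    · rw [if_pos ⟨h1, h2⟩, if_neg (fun h => h.2 h2), if_pos h1, add_zero]
    · rw [if_neg (fun h => h2 h.2), if_pos ⟨h1, h2⟩, if_pos h1, zero_add]
  · rw [if_neg (fun h => h1 h.1), if_neg (fun h => h1 h.1), if_neg h1, add_zero]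

end PGr
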