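import Pool.Agent.PGr.NoPinch
import Pool.Agent.PGr.RetLib
import Pool.Agent.PGr.Cut
import Pool.Agent.PGr.SubMap

/-! # Module Quot: contraction of the parts of a partition in sets with cut 4 -/

set_option linter.unusedSectionVars false

namespace PGr
open Equiv Finset

section
variable {T ι : Type*} [Fintype T] [DecidableEq T] [DecidableEq ι] {a s : Perm T}

/-- the last darts -/
def lastSet (s : Perm T) (part : T → ι) : Finset T := univ.filter fun t => part (s t) ≠ part t

namespace Quot

theorem mem_last {part : T → ι} {t : T} : t ∈ lastSet s part ↔ part (s t) ≠ part t := by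
  simp [lastSet]

/-- the first return lies in the part entered -/
theorem part_ret (part : T → ι) (z : {t // t ∈ lastSet s part}) :
    part (ret s (lastSet s part) z).1 = part (s z.1) := by
  obtain ⟨k, hk0, hk, hmin⟩ := exists_ret s (lastSet s part) z
  rw [← hk]
  have key : ∀ i, i + 1 ≤ k → part ((s ^ (i + 1)) z.1) = part (s z.1) := by
    intro i
    induction i with
    | zero => intro _; simp
    | succ i ih =>
      intro hi
      have h1 := hmin (i + 1) (by omega) (by omega)
      rw [mem_last, not_not] at h1
      rw [pow_succ', Perm.mul_apply, h1]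
      exact ih (by omega)
  obtain ⟨j, rfl⟩ : ∃ j, k = j + 1 := ⟨k - 1, by omega⟩
  exact key j le_rfl

/-- sums over the cycles of the first return permutation -/
theorem sum_ext (f : Perm T) (L : Finset T) (j : {x // x ∈ L} → ZMod 2)
    (hj : ∀ z, ∑ x ∈ univ.filter (fun x => (ret f L).SameCycle z x), j x = 0) (t : T) :
    ∑ x ∈ univ.filter (fun x => f.SameCycle t x), (if h : x ∈ L then j ⟨x, h⟩ else 0) = 0 := by
  by_cases hz : ∃ z : {x // x ∈ L}, f.SameCycle t z.1
  · obtain ⟨z, hz⟩ := hz
    have hjz := hj z
    rw [sum_filter] at hjz
    rw [sum_filter, ← sum_subset (subset_univ L), ← sum_coe_sort L]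
    · refine Eq.trans (sum_congr rfl fun x _ => ?_) hjz
      have h1 : f.SameCycle t x.1 ↔ (ret f L).SameCycle z x := by
        rw [sameCycle_ret]
        exact ⟨fun h => hz.symm.trans h, fun h => hz.trans h⟩
      by_cases h2 : f.SameCycle t x.1
      · rw [if_pos h2, if_pos (h1.mp h2), dif_pos x.2]
      · rw [if_neg h2, if_neg (fun h => h2 (h1.mpr h))]
    · intro x _ hx
      rw [dif_neg hx, ite_self]
  · push Not at hz
    refine sum_eq_zero fun x hx => ?_
    simp only [mem_filter, mem_univ, true_and] at hx
    rw [dif_neg]
    intro h
    exact hz ⟨x, h⟩ hx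

end Quot

/-- The parts of a partition in at least two parts with cut 4 are contracted to edges; the darts are
the last darts.  `cut` is preserved. -/
theorem exists_quot (h : Good a s) (part : T → ι) (hpart : ∀ t, part (a t) = part t)
    (h4 : ∀ t, cut s (univ.filter fun u => part u = part t) = 4) (h2 : ∃ t u, part t ≠ part u) :
    ∃ aL : Perm {t // t ∈ lastSet s part},
      (∀ z, part (aL z).1 = part z.1) ∧ (∀ z, aL z ≠ z) ∧
      (∀ z z' : {t // t ∈ lastSet s part}, part z'.1 = part z.1 → z' = z ∨ z' = aL z) ∧
      Good aL (ret s (lastSet s part)) ∧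
      (∀ A : Finset {t // t ∈ lastSet s part}, Cl aL A →
        cut (ret s (lastSet s part)) A =
          cut s (univ.filter fun u => ∃ z ∈ A, part u = part z.1)) := by
  classical
  set L := lastSet s part with hL
  have mL : ∀ t, t ∈ L ↔ part (s t) ≠ part t := fun t => Quot.mem_last
  have hPcl : ∀ t, Cl a (univ.filter fun u => part u = part t) := by
    intro t u
    simp [hpart]
  -- two last darts in every part
  have htwo : ∀ t, ∃ z0 z1 : L, z0 ≠ z1 ∧ part z0.1 = part t ∧ part z1.1 = part t ∧
      ∀ z : L, part z.1 = part t → z = z0 ∨ z = z1 := by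
    intro t
    obtain ⟨z0, z1, hne, h0, h1, hz⟩ := exists_last (h4 t)
    have h0p : part z0.1 = part t := (mem_filter.mp z0.2).2
    have h1p : part z1.1 = part t := (mem_filter.mp z1.2).2
    have h0L : z0.1 ∈ L := by
      rw [mL, h0p]; simpa using h0
    have h1L : z1.1 ∈ L := by
      rw [mL, h1p]; simpa using h1
    refine ⟨⟨z0, h0L⟩, ⟨z1, h1L⟩, ?_, h0p, h1p, ?_⟩
    · intro e; exact hne (Subtype.ext (Subtype.mk.inj e))
    · intro z hzp
      have h3 : s z.1 ∉ (univ.filter fun u => part u = part t) := by
        have := (mL z.1).mp z.2
        simpa [hzp] using this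
      rcases hz z.1 (by simpa using hzp) h3 with e | e
      · exact Or.inl (Subtype.ext e)
      · exact Or.inr (Subtype.ext e)
  have hother : ∀ z : L, ∃ z' : L, part z'.1 = part z.1 ∧ z' ≠ z ∧
      ∀ w : L, part w.1 = part z.1 → w = z ∨ w = z' := by
    intro z
    obtain ⟨z0, z1, hne, h0, h1, hz⟩ := htwo z.1
    rcases hz z rfl with e | e
    · refine ⟨z1, h1, fun e' => hne (by rw [← e, e']), fun w hw => ?_⟩
      rw [e]; exact hz w hw
    · refine ⟨z0, h0, fun e' => hne (by rw [← e, e']), fun w hw => ?_⟩
      rw [e]; exact (hz w hw).symm
  choose f hf1 hf2 hf3 using hother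
  have hinv : Function.Involutive f := by
    intro z
    rcases hf3 z (f (f z)) (by rw [hf1, hf1]) with e | e
    · exact e
    · exact absurd e (hf2 (f z))
  let aL : Perm L := hinv.toPerm
  have haL : ∀ z, aL z = f z := fun z => rfl
  have h1' : ∀ z, part (aL z).1 = part z.1 := hf1
  have h2' : ∀ z, aL z ≠ z := hf2
  have h3' : ∀ z z' : L, part z'.1 = part z.1 → z' = z ∨ z' = aL z := fun z z' => hf3 z z'
  have hret : ∀ z : L, part (ret s L z).1 = part (s z.1) := Quot.part_ret part
  -- membership in the union of the parts
  have hmemB : ∀ A : Finset L, Cl aL A → ∀ w : L, (∃ z ∈ A, part w.1 = part z.1) ↔ w ∈ A := by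
    intro A hA w
    constructor
    · rintro ⟨z, hz, hwz⟩
      rcases h3' z w hwz with e | e
      · rwa [e]
      · rw [e]; exact (hA z).mpr hz
    · intro hw; exact ⟨w, hw, rfl⟩
  have hcutF : ∀ A : Finset L, Cl aL A →
      cut (ret s L) A = cut s (univ.filter fun u => ∃ z ∈ A, part u = part z.1) := by
    intro A hA
    unfold cut
    rw [← card_map ⟨Subtype.val, Subtype.val_injective⟩]
    congr 1
    ext t
    simp only [bd, mem_map, mem_filter, mem_univ, true_and, Function.Embedding.coeFn_mk]
    constructor
    · rintro ⟨w, hw, rfl⟩
      rw [hmemB A hA w]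
      rw [← hret w, hmemB A hA (ret s L w)]
      exact hw
    · intro ht
      have htL : t ∈ L := by
        rw [mL]
        intro e
        apply ht
        rw [e]
      refine ⟨⟨t, htL⟩, ?_, rfl⟩
      have e1 := hmemB A hA ⟨t, htL⟩
      have e2 := hmemB A hA (ret s L ⟨t, htL⟩)
      rw [hret] at e2
      simp only at e1 e2
      rw [e1, e2] at ht
      exact ht
  refine ⟨aL, h1', h2', h3', ⟨?_, h2', ?_, ?_, ?_⟩, hcutF⟩
  · exact hinv
  · intro A hA hne hu
    rw [hcutF A hA]
    apply h.ns
    · intro u
      simp [hpart]
    · obtain ⟨z, hz⟩ := hne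
      exact ⟨z.1, by simp only [mem_filter, mem_univ, true_and]; exact ⟨z, hz, rfl⟩⟩
    · intro hu'
      apply hu
      ext z
      simp only [mem_univ, iff_true]
      rw [← hmemB A hA z]
      have : z.1 ∈ (univ.filter fun u => ∃ z ∈ A, part u = part z.1) := by rw [hu']; simp
      simpa using this
  · -- planarity
    have hface : aL * ret s L = ret (a * s) L := by
      ext z
      congr 1
      -- w = the first return of `s`, x = the first return of the face permutation
      set w := ret s L z with hw
      have hzs : part (s z.1) ≠ part z.1 := (mL _).mp z.2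
      have hzw : s.SameCycle z.1 w.1 := by
        obtain ⟨k, -, hk, -⟩ := exists_ret s L z
        exact ⟨k, by rw [← hk]; simp⟩
      have hwp : part w.1 = part (s z.1) := hret z
      obtain ⟨m, hm, hm'⟩ := SubMap.exit (a * s) (P := univ.filter fun u => part u = part (s z.1))
        (x := (a * s) z.1) (y := z.1) (by simp [hpart]) (by simpa using hzs.symm)
        (Perm.sameCycle_apply_left.mpr (Perm.SameCycle.refl _ _))
      have hm1 : ∀ i ≤ m, part (((a * s) ^ (i + 1)) z.1) = part (s z.1) := by
        intro i hi
        have := hm i hi
        rw [← Perm.mul_apply, ← pow_succ] at this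
        simpa using this
      have hm2 : part (s (((a * s) ^ (m + 1)) z.1)) ≠ part (s z.1) := by
        rw [← Perm.mul_apply ((a * s) ^ m), ← pow_succ, ← Perm.mul_apply (a * s), ← pow_succ'] at hm'
        have h5 : part (((a * s) ^ (m + 1 + 1)) z.1) ≠ part (s z.1) := by
          simpa using hm'
        rw [pow_succ', Perm.mul_apply, Perm.mul_apply, hpart] at h5
        exact h5
      have hxL : ((a * s) ^ (m + 1)) z.1 ∈ L := by
        rw [mL, hm1 m le_rfl]; exact hm2
      have hx : ret (a * s) L z = ⟨((a * s) ^ (m + 1)) z.1, hxL⟩ := by
        apply ret_spec _ _ _ (Nat.succ_pos m)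
        intro i hi0 him
        obtain ⟨j, rfl⟩ : ∃ j, i = j + 1 := ⟨i - 1, by omega⟩
        rw [mL, not_not, hm1 j (by omega)]
        have h6 := hm1 (j + 1) (by omega)
        rw [pow_succ', Perm.mul_apply, Perm.mul_apply, hpart] at h6
        exact h6
      rw [Perm.mul_apply, hx]
      rcases h3' w ⟨_, hxL⟩ (by rw [hwp]; exact hm1 m le_rfl) with e | e
      · exfalso
        have e' : ((a * s) ^ (m + 1)) z.1 = w.1 := congrArg Subtype.val e
        have hne : z.1 ≠ w.1 := by
          intro e2
          apply hzs
          rw [← hwp, ← e2]
        refine h.noPinch hne hzw ⟨(m + 1 : ℕ), ?_⟩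
        rw [zpow_natCast]; exact e'
      · exact e.symm
    have hinv' : ∀ z, aL (aL z) = z := hinv
    rw [Pl_iff_sums hinv']
    intro j hj1 hj2
    rw [hface] at hj2
    have hpl := (Pl_iff_sums h.inv).mp h.pl (fun t => if hh : t ∈ L then j ⟨t, hh⟩ else 0)
      (Quot.sum_ext s L j hj1) (Quot.sum_ext (a * s) L j hj2)
    obtain ⟨η, hη1, hη2⟩ := hpl
    -- `η` is constant on the parts
    have hconst : ∀ t u, part u = part t → η u = η t := by
      have hval : ∀ x : ZMod 2, x = 0 ∨ x = 1 := by decide
      intro t
      set P := (univ.filter fun u => part u = part t) with hP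
      have hsum : cut s (P.filter fun u => η u = 1) + cut s (P.filter fun u => η u = 0) = 4 := by
        rw [← h4 t]
        unfold cut
        rw [← card_union_of_disjoint]
        · congr 1
          ext u
          simp only [bd, mem_union, mem_filter, mem_univ, true_and, hP]
          have h7 := hη2 u
          by_cases hu : part u = part t
          · by_cases hsu : part (s u) = part t
            · have huL : u ∉ L := by rw [mL, hu, hsu]; simp
              rw [dif_neg huL] at h7
              have h8 : η u = η (s u) := by
                have : η u + η (s u) + η (s u) = η (s u) := by rw [h7, zero_add]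
                rw [add_assoc, CharTwo.add_self_eq_zero, add_zero] at this
                exact this
              simp [hu, hsu, h8]
            · simp only [hu, hsu, true_and, false_and, iff_false, not_not]
              constructor
              · intro _; trivial
              · intro _
                rcases hval (η u) with e | e <;> simp [e]
          · by_cases hsu : part (s u) = part t
            · simp only [hu, hsu, true_and, false_and, false_iff, not_not]
              constructor
              · intro _; simp
              · intro _
                rcases hval (η (s u)) with e | e <;> simp [e]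
            · simp [hu, hsu]
        · rw [Finset.disjoint_left]
          intro u
          simp only [bd, mem_filter, mem_univ, true_and, hP]
          intro h9 h10
          have h7 := hη2 u
          by_cases hu : part u = part t
          · by_cases hsu : part (s u) = part t
            · have huL : u ∉ L := by rw [mL, hu, hsu]; simp
              rw [dif_neg huL] at h7
              have h8 : η u = η (s u) := by
                have : η u + η (s u) + η (s u) = η (s u) := by rw [h7, zero_add]
                rw [add_assoc, CharTwo.add_self_eq_zero, add_zero] at this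
                exact this
              simp [hu, hsu, h8] at h9
            · simp only [hu, hsu, true_and, false_and, iff_false, not_not] at h9 h10
              rw [h9] at h10
              exact one_ne_zero h10
          · by_cases hsu : part (s u) = part t
            · simp only [hu, hsu, true_and, false_and, false_iff, not_not] at h9 h10
              rw [h9] at h10
              exact one_ne_zero h10
            · simp [hu, hsu] at h9
      have hcl : ∀ c : ZMod 2, Cl a (P.filter fun u => η u = c) := by
        intro c u
        simp [hP, hpart, hη1]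
      have hcase : (P.filter fun u => η u = 1) = ∅ ∨ (P.filter fun u => η u = 0) = ∅ := by
        by_contra hc
        push Not at hc
        obtain ⟨hc1, hc0⟩ := hc
        have hn1 : (P.filter fun u => η u = 1).Nonempty := nonempty_iff_ne_empty.mpr (by
          first | exact hc1 | exact hc1.ne_empty)
        have hn0 : (P.filter fun u => η u = 0).Nonempty := nonempty_iff_ne_empty.mpr (by
          first | exact hc0 | exact hc0.ne_empty)
        have hu1 : (P.filter fun u => η u = 1) ≠ univ := by
          intro e
          obtain ⟨x, hx⟩ := hn0
          have hx' : x ∈ (P.filter fun u => η u = 1) := by rw [e]; simp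
          simp only [mem_filter] at hx hx'
          exact one_ne_zero (hx'.2.symm.trans hx.2)
        have hu0 : (P.filter fun u => η u = 0) ≠ univ := by
          intro e
          obtain ⟨x, hx⟩ := hn1
          have hx' : x ∈ (P.filter fun u => η u = 0) := by rw [e]; simp
          simp only [mem_filter] at hx hx'
          exact one_ne_zero (hx.2.symm.trans hx'.2)
        have i1 := h.ns _ (hcl 1) hn1 hu1
        have i0 := h.ns _ (hcl 0) hn0 hu0
        omega
      intro u hu
      have huP : u ∈ P := by simp [hP, hu]
      have htP : t ∈ P := by simp [hP]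
      rcases hcase with hc | hc
      · have h11 : ∀ v ∈ P, η v = 0 := by
          intro v hv
          rcases hval (η v) with e | e
          · exact e
          · exfalso
            have : v ∈ (P.filter fun u => η u = 1) := by simp [hv, e]
            rw [hc] at this
            simp at this
        rw [h11 u huP, h11 t htP]
      · have h11 : ∀ v ∈ P, η v = 1 := by
          intro v hv
          rcases hval (η v) with e | e
          · exfalso
            have : v ∈ (P.filter fun u => η u = 0) := by simp [hv, e]
            rw [hc] at this
            simp at this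
          · exact e
        rw [h11 u huP, h11 t htP]
    refine ⟨fun z => η z.1, fun z => hconst _ _ (h1' z), fun z => ?_⟩
    have h12 := hη2 z.1
    rw [dif_pos z.2] at h12
    show η z.1 + η (ret s L z).1 = j z
    rw [hconst _ _ (hret z), h12]
  · obtain ⟨t, u, htu⟩ := h2
    obtain ⟨z0, z1, hz, hz0, hz1, -⟩ := htwo t
    obtain ⟨w0, w1, hw, hw0, hw1, -⟩ := htwo u
    have n00 : z0 ≠ w0 := by rintro rfl; exact htu (hz0.symm.trans hw0)
    have n01 : z0 ≠ w1 := by rintro rfl; exact htu (hz0.symm.trans hw1)
    have n10 : z1 ≠ w0 := by rintro rfl; exact htu (hz1.symm.trans hw0)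
    have n11 : z1 ≠ w1 := by rintro rfl; exact htu (hz1.symm.trans hw1)
    have hc : ({z0, z1, w0, w1} : Finset L).card = 4 := by
      rw [card_insert_of_notMem (by simp [hz, n00, n01]),
        card_insert_of_notMem (by simp [n10, n11]), card_pair hw]
    rw [← hc]
    exact card_le_univ _

end

end PGr
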