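import Pool.Agent.PGr.SubPl
import Pool.Agent.PGr.GDec
import Pool.Agent.PGr.DecGood
import Pool.Agent.PGr.GlueLib

/-! # Module NetPar: parallel decomposition -/

set_option linter.unusedSectionVars false

namespace PGr
open Equiv Finset
open scoped ENNReal Classical
universe u
variable {Λ : Type u}

namespace NetPar

/-- one step: the other dart of the edge, or a dart at the same internal vertex -/
def stp (N : LNet Λ) (d d' : N.D) : Prop :=
  d' = N.a d ∨ (N.inc (Sum.inl d) = N.inc (Sum.inl d') ∧ ∀ b, N.inc (Sum.inl d) ≠ N.pole b)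

/-- the equivalence relation generated by the steps -/
def st (N : LNet Λ) : Setoid N.D := Relation.EqvGen.setoid (stp N)

theorem st_mem {N : LNet Λ} (A : Finset N.D)
    (hA : ∀ d d', stp N d d' → (d ∈ A ↔ d' ∈ A)) {d d' : N.D} (h : (st N).r d d') :
    d ∈ A ↔ d' ∈ A := by
  have h' : Relation.EqvGen (stp N) d d' := h
  induction h' with
  | rel x y hxy => exact hA x y hxy
  | refl x => exact Iff.rfl
  | symm x y _ ih => exact (ih ‹_›).symm
  | trans x y z _ _ ih1 ih2 => exact (ih1 ‹_›).trans (ih2 ‹_›)

theorem both {N : LNet Λ} (h : N.IsGood) (A : Finset N.D) (hne : A.Nonempty)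
    (hA : ∀ d d', stp N d d' → (d ∈ A ↔ d' ∈ A)) (b : Bool) :
    ∃ d ∈ A, N.inc (Sum.inl d) = N.pole b := by
  let B : Finset N.T := A.map ⟨Sum.inl, Sum.inl_injective⟩
  have hB : ∀ d : N.D, (Sum.inl d : N.T) ∈ B ↔ d ∈ A := by
    intro d; simp [B]
  have hB' : ∀ b : Bool, (Sum.inr b : N.T) ∉ B := by
    intro b; simp [B]
  have hcl : Cl N.aa B := by
    rintro (d | b)
    · show (Sum.inl (N.a d) : N.T) ∈ B ↔ (Sum.inl d : N.T) ∈ B
      rw [hB, hB]
      exact (hA d (N.a d) (Or.inl rfl)).symm
    · show (Sum.inr (!b) : N.T) ∈ B ↔ (Sum.inr b : N.T) ∈ B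
      simp [hB']
  have hBne : B.Nonempty := by
    obtain ⟨d, hd⟩ := hne
    exact ⟨Sum.inl d, (hB d).2 hd⟩
  have hBu : B ≠ univ := by
    intro hu
    exact hB' true (by rw [hu]; exact mem_univ _)
  obtain ⟨x, y, hxy, hx, hy⟩ := h.two B hcl hBne hBu
  have key : ∀ z, Sh N.inc B z → ∃ b, z = N.pole b ∧ ∃ d ∈ A, N.inc (Sum.inl d) = z := by
    rintro z ⟨⟨t, ht, htz⟩, ⟨t', ht', htz'⟩⟩
    rcases t with d | b
    · have hd : d ∈ A := (hB d).1 ht
      by_cases hz : ∀ b, z ≠ N.pole b
      · exfalso
        rcases t' with d' | b'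
        · apply ht'
          rw [hB]
          exact (hA d d' (Or.inr ⟨by rw [htz, htz'], fun b => by rw [htz]; exact hz b⟩)).1 hd
        · exact hz b' htz'.symm
      · push Not at hz
        obtain ⟨b, hb⟩ := hz
        exact ⟨b, hb, d, hd, htz⟩
    · exact absurd ht (hB' b)
  obtain ⟨b1, hb1, d1, hd1, hd1'⟩ := key x hx
  obtain ⟨b2, hb2, d2, hd2, hd2'⟩ := key y hy
  have hb12 : b1 ≠ b2 := by
    rintro rfl
    exact hxy (hb1.trans hb2.symm)
  by_cases hb : b = b1
  · subst hb; exact ⟨d1, hd1, by rw [hd1', hb1]⟩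
  · have : b = b2 := by
      cases b <;> cases b1 <;> cases b2 <;> simp_all
    subst this; exact ⟨d2, hd2, by rw [hd2', hb2]⟩

theorem pole_ne {N : LNet Λ} (h : N.IsGood) : N.pole true ≠ N.pole false := by
  intro he
  exact h.loop (Sum.inr true) he.symm

theorem pole_inj {N : LNet Λ} (h : N.IsGood) : Function.Injective N.pole := by
  intro b b' hb
  cases b <;> cases b'
  · rfl
  · exact absurd hb.symm (pole_ne h)
  · exact absurd hb (pole_ne h)
  · rfl

noncomputable instance (N : LNet Λ) : Fintype (Quotient (st N)) := Fintype.ofFinite _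

/-- the parallel decomposition -/
noncomputable def pdec (N : LNet Λ) (h : N.IsGood) : Dec N where
  I := Quotient (st N)
  fI := inferInstance
  dI := Classical.decEq _
  part := Quotient.mk (st N)
  att := fun x => N.pole x.2
  part_a := fun d => Quotient.sound ((st N).symm' (Relation.EqvGen.rel _ _ (Or.inl rfl)))
  att_ne := fun _ => pole_ne h
  att_mem := by
    intro i b
    obtain ⟨d0, rfl⟩ := Quotient.exists_rep i
    obtain ⟨d, hd, hd'⟩ := both h (univ.filter fun d => Quotient.mk (st N) d = Quotient.mk (st N) d0)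
      ⟨d0, by simp⟩ (by
        intro d d' hdd
        have : Quotient.mk (st N) d = Quotient.mk (st N) d' :=
          Quotient.sound (Relation.EqvGen.rel _ _ hdd)
        simp [this]) b
    exact ⟨d, by simpa using hd, hd'⟩
  share := by
    intro d d' hne heq
    by_contra hcon
    push Not at hcon
    apply hne
    exact Quotient.sound (Relation.EqvGen.rel _ _ (Or.inr ⟨heq, hcon⟩))
  root := fun d b hb => ⟨b, hb⟩

theorem sub_good {N : LNet Λ} (h : N.IsGood) (i : (pdec N h).I) : ((pdec N h).sub i).IsGood :=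
  Dec.sub_good h (pdec N h) i (Dec.sub_planar_par h (pdec N h) i (fun _ => rfl))

theorem sub_conn {N : LNet Λ} (h : N.IsGood) (i : (pdec N h).I) : Conn ((pdec N h).sub i) := by
  intro A hcl hne hu
  by_contra hcon
  apply hu
  rw [eq_univ_iff_forall]
  obtain ⟨d0, hd0⟩ := hne
  intro d
  -- the image of `A` in `N.D`
  let B : Finset N.D := univ.filter fun d => ∃ hd : (pdec N h).part d = i, (⟨d, hd⟩ : {d : N.D // (pdec N h).part d = i}) ∈ A
  have hB : ∀ d : {d : N.D // (pdec N h).part d = i}, d.1 ∈ B ↔ d ∈ A := by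
    intro d
    simp only [B, mem_filter, mem_univ, true_and]
    exact ⟨fun ⟨_, h⟩ => h, fun h => ⟨d.2, h⟩⟩
  have hstep : ∀ d d', stp N d d' → (d ∈ B → d' ∈ B) := by
    intro d d' hdd hd
    have hdi : (pdec N h).part d = i := by
      simp only [B, mem_filter, mem_univ, true_and] at hd
      exact hd.1
    have hpd : (pdec N h).part d = (pdec N h).part d' :=
      Quotient.sound (Relation.EqvGen.rel _ _ hdd)
    have hdi' : (pdec N h).part d' = i := by rw [← hpd, hdi]
    have hdA : (⟨d, hdi⟩ : {d : N.D // (pdec N h).part d = i}) ∈ A := (hB ⟨d, hdi⟩).1 hd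
    rcases hdd with hdd | ⟨h1, h2⟩
    · subst hdd
      rw [hB ⟨N.a d, hdi'⟩]
      exact (hcl ⟨d, hdi⟩).2 hdA
    · by_contra hd'
      apply hcon
      refine ⟨⟨N.inc (Sum.inl d), d, hdi, rfl⟩, ?_, ⟨⟨d, hdi⟩, hdA, rfl⟩, ⟨⟨d', hdi'⟩, ?_, ?_⟩⟩
      · intro b hb
        exact h2 b (congrArg Subtype.val hb)
      · intro hA; exact hd' ((hB ⟨d', hdi'⟩).2 hA)
      · exact Subtype.ext h1.symm
  have hsymm : ∀ d d', stp N d d' → stp N d' d := by
    intro d d' hdd
    rcases hdd with hdd | ⟨h1, h2⟩
    · subst hdd; exact Or.inl (h.inv d).symm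
    · exact Or.inr ⟨h1.symm, fun b => by rw [← h1]; exact h2 b⟩
  refine (hB d).1 ?_
  refine (st_mem B (fun d d' hdd => ⟨hstep d d' hdd, hstep d' d (hsymm d d' hdd)⟩)
    (?_ : (st N).r d0.1 d.1)).1 ((hB d0).2 hd0)
  have : (pdec N h).part d0.1 = (pdec N h).part d.1 := by rw [d0.2, d.2]
  exact Quotient.exact this

/-- the direct edge -/
theorem direct_class {N : LNet Λ} (h : N.IsGood) {d0 : N.D}
    (h0 : N.inc (Sum.inl d0) = N.pole true) (h1 : N.inc (Sum.inl (N.a d0)) = N.pole false)
    {d : N.D} (hd : (pdec N h).part d = (pdec N h).part d0) : d = d0 ∨ d = N.a d0 := by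
  have hr : (st N).r d0 d := Quotient.exact hd.symm
  have := st_mem ({d0, N.a d0} : Finset N.D) (by
    have key : ∀ d d', stp N d d' → d ∈ ({d0, N.a d0} : Finset N.D) →
        d' ∈ ({d0, N.a d0} : Finset N.D) := by
      intro d d' hdd hd
      simp only [mem_insert, mem_singleton] at hd ⊢
      rcases hdd with hdd | ⟨-, h3⟩
      · subst hdd
        rcases hd with rfl | rfl
        · exact Or.inr rfl
        · exact Or.inl (h.inv _)
      · exfalso
        rcases hd with rfl | rfl
        · exact h3 _ h0
        · exact h3 _ h1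
    intro d d' hdd
    refine ⟨key d d' hdd, key d' d ?_⟩
    rcases hdd with hdd | ⟨h1, h2⟩
    · subst hdd; exact Or.inl (h.inv d).symm
    · exact Or.inr ⟨h1.symm, fun b => by rw [← h1]; exact h2 b⟩) hr
  simpa using this.1 (by simp)

/-- the class of the direct edge is the single edge -/
theorem direct_iso {N : LNet Λ} (h : N.IsGood) {d0 : N.D}
    (h0 : N.inc (Sum.inl d0) = N.pole true) (h1 : N.inc (Sum.inl (N.a d0)) = N.pole false)
    (g : Bool → Λ) :
    NIso ((pdec N h).sub ((pdec N h).part d0)) (edgeNet g) := by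
  have hd0 : (pdec N h).part (N.a d0) = (pdec N h).part d0 := (pdec N h).part_a d0
  have hcl : ∀ d : {d : N.D // (pdec N h).part d = (pdec N h).part d0}, d.1 = d0 ∨ d.1 = N.a d0 :=
    fun d => direct_class h h0 h1 d.2
  have hne : N.a d0 ≠ d0 := h.fpf d0
  have hpe := pole_ne h
  let e : {d : N.D // (pdec N h).part d = (pdec N h).part d0} ≃ Bool :=
    { toFun := fun d => decide (d.1 = d0)
      invFun := fun b => bif b then ⟨d0, rfl⟩ else ⟨N.a d0, hd0⟩
      left_inv := by
        intro d
        rcases hcl d with hd | hd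
        · apply Subtype.ext
          simp [hd]
        · apply Subtype.ext
          simp [hd, hne]
      right_inv := by
        intro b
        cases b
        · simp [hne]
        · simp }
  let V' := {x : N.V // ∃ d, (pdec N h).part d = (pdec N h).part d0 ∧ N.inc (Sum.inl d) = x}
  have hv : ∀ x : V', x.1 = N.pole true ∨ x.1 = N.pole false := by
    rintro ⟨x, d, hd, rfl⟩
    rcases hcl ⟨d, hd⟩ with hd | hd
    · left
      show N.inc (Sum.inl d) = _
      rw [show d = d0 from hd, h0]
    · right
      show N.inc (Sum.inl d) = _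
      rw [show d = N.a d0 from hd, h1]
  let f : V' ≃ Bool :=
    { toFun := fun x => decide (x.1 = N.pole true)
      invFun := fun b => ⟨N.pole b, by
        cases b
        · exact ⟨N.a d0, hd0, h1⟩
        · exact ⟨d0, rfl, h0⟩⟩
      left_inv := by
        intro x
        rcases hv x with hx | hx
        · apply Subtype.ext
          simp [hx]
        · apply Subtype.ext
          simp [hx, hpe.symm]
      right_inv := by
        intro b
        cases b
        · simp [hpe.symm]
        · simp }
  have hf : ∀ b, f ⟨N.pole b, (f.symm b).2⟩ = b := fun b => f.apply_symm_apply b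
  refine ⟨e, f, ?_, ?_, ?_, ?_⟩
  · intro d
    show decide (N.a d.1 = d0) = !(decide (d.1 = d0))
    rcases hcl d with hd | hd
    · simp [hd, hne]
    · simp [hd, hne, h.inv]
  · intro d
    show decide (N.inc (Sum.inl d.1) = N.pole true) = decide (d.1 = d0)
    rcases hcl d with hd | hd
    · simp [hd, h0]
    · simp [hd, hne, h1, hpe.symm]
  · intro b
    exact hf b
  · intro x hx
    exfalso
    rcases hv x with h' | h'
    · exact hx true (Subtype.ext h')
    · exact hx false (Subtype.ext h')

theorem not_direct {N : LNet Λ} (h : N.IsGood) (i : (pdec N h).I)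
    (hi : ∀ d0, N.inc (Sum.inl d0) = N.pole true → N.inc (Sum.inl (N.a d0)) = N.pole false →
      i ≠ (pdec N h).part d0) : ¬ Direct ((pdec N h).sub i) := by
  rintro ⟨d, hd1, hd2⟩
  exact hi d.1 (congrArg Subtype.val hd1) (congrArg Subtype.val hd2) d.2.symm

end NetPar

open NetPar

theorem par_dec {N : LNet Λ} (h : N.IsGood) : ∃ (J : Type) (_ : Fintype J) (_ : DecidableEq J)
    (X : J → LNet Λ) (g : Bool → Λ), (∀ j, XNet (X j)) ∧
      (∀ j, Fintype.card (X j).D ≤ Fintype.card N.D) ∧ NIso N (bond (decide (Direct N)) X g) := by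
  have hiso : NIso N (glue (bondInc (pdec N h).I) (pdec N h).sub (fun b => N.lab (N.pole b))) := by
    refine gdec (pdec N h) h.surj (Vc := Bool) N.pole (pole_inj h) (bondInc (pdec N h).I) ?_ ?_ ?_
    · intro b; exact ⟨Sum.inr b, rfl⟩
    · intro x; rfl
    · intro b; rfl
  have hcard : ∀ i, Fintype.card ((pdec N h).sub i).D ≤ Fintype.card N.D := by
    intro i
    exact Fintype.card_le_of_injective (fun d : {d : N.D // (pdec N h).part d = i} => d.1)
      Subtype.val_injective
  by_cases hdir : Direct N
  · have hdir' := hdir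
    obtain ⟨d0, h0, h1⟩ := hdir'
    let i0 : (pdec N h).I := (pdec N h).part d0
    let J := {i : (pdec N h).I // i ≠ i0}
    let g : Bool → Λ := fun b => N.lab (N.pole b)
    refine ⟨J, inferInstance, inferInstance, fun j => (pdec N h).sub j.1, g, ?_, fun j => hcard _, ?_⟩
    · intro j
      refine ⟨sub_good h _, sub_conn h _, not_direct h _ ?_⟩
      intro d hd1 hd2
      have : d = d0 := h.simp d d0 (by rw [hd1, h0]) (by rw [hd2, h1])
      rw [this]; exact j.2
    · have hd : decide (Direct N) = true := by simpa using hdir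
      rw [hd]
      refine hiso.trans ?_
      let π : (pdec N h).I ≃ Option J :=
        { toFun := fun i => if hi : i = i0 then none else some ⟨i, hi⟩
          invFun := fun j => j.elim i0 (fun j => j.1)
          left_inv := by
            intro i
            by_cases hi : i = i0
            · simp [hi]
            · simp [hi]
          right_inv := by
            rintro (_ | j)
            · simp
            · have := j.2
              simp [this] }
      have hπ0 : π i0 = none := by
        show (if hi : i0 = i0 then none else some (⟨i0, hi⟩ : J)) = none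
        simp
      have hπ1 : ∀ i (hi : i ≠ i0), π i = some ⟨i, hi⟩ := by
        intro i hi
        show (if hi : i = i0 then none else some (⟨i, hi⟩ : J)) = _
        simp [hi]
      refine glue_iso (bondInc (pdec N h).I) (bondInc (Option J)) _ _ _ _ π (fun _ _ => rfl)
        (fun _ => rfl) ?_ (fun _ _ => rfl)
      intro i
      by_cases hi : i = i0
      · subst hi
        rw [hπ0]
        exact direct_iso h h0 h1 g
      · rw [hπ1 i hi]
        exact NIso.refl _
  · refine ⟨(pdec N h).I, inferInstance, inferInstance, (pdec N h).sub,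
      fun b => N.lab (N.pole b), ?_, hcard, ?_⟩
    · intro i
      refine ⟨sub_good h _, sub_conn h _, not_direct h _ ?_⟩
      intro d hd1 hd2
      exact absurd ⟨d, hd1, hd2⟩ hdir
    · have hd : decide (Direct N) = false := by simpa using hdir
      rw [hd]
      exact hiso

/-- an `XNet` has an internal vertex -/
theorem XNet.exists_int {N : LNet Λ} (h : XNet N) : Nonempty N.Int := by
  by_contra hcon
  have hall : ∀ x : N.V, ∃ b, x = N.pole b := by
    intro x
    by_contra hx
    push Not at hx
    exact hcon ⟨⟨x, hx⟩⟩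
  obtain ⟨d⟩ := h.good.ne
  obtain ⟨b, hb⟩ := hall (N.inc (Sum.inl d))
  obtain ⟨b', hb'⟩ := hall (N.inc (Sum.inl (N.a d)))
  have hne : b' ≠ b := by
    rintro rfl
    exact h.good.loop (Sum.inl d) (hb'.trans hb.symm)
  cases b <;> cases b'
  · exact hne rfl
  · exact h.dir ⟨N.a d, hb', by rw [h.good.inv, hb]⟩
  · exact h.dir ⟨d, hb, hb'⟩
  · exact hne rfl

end PGr
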