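import Pool.Agent.PGr.SumLib
import Pool.Agent.PGr.MSet
import Pool.Agent.PGr.GlueLib
import Pool.Agent.PGr.NetPar

/-! # Module NetSumA: inequalities for the generating functions of networks -/

set_option linter.unusedSectionVars false

namespace PGr
open Equiv Finset
open scoped ENNReal Classical
universe u
variable {Λ : Type u} (w : Λ → ℝ≥0∞)

/-- the weights of the `XNet`s with at most `n` darts -/
noncomputable def fX (n : ℕ) (c : NC Λ) : ℝ≥0∞ :=
  if Fintype.card c.rep.1.D ≤ n ∧ XNet c.rep.1 then wt w c.rep.1 else 0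

private theorem NetSumA_xnet {N N' : LNet Λ} (h : NIso N N') (hN : XNet N) : XNet N' :=
  ⟨h.good hN.good, h.conn hN.conn, fun hd => hN.dir (h.symm.direct hd)⟩

/-- the class of a network -/
private def NetSumA_cls (N : LNet Λ) (h : N.IsGood) : NC Λ := Quotient.mk (nSetoid Λ) ⟨N, h⟩

private theorem NetSumA_rep (N : LNet Λ) (h : N.IsGood) :
    NIso N (NetSumA_cls N h).rep.1 := by
  have := Quotient.mk_out (s := nSetoid Λ) (⟨N, h⟩ : GN Λ)
  exact NIso.symm this

private theorem NetSumA_fX (n : ℕ) (N : LNet Λ) (h : XNet N) (hn : Fintype.card N.D ≤ n) :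
    fX w n (NetSumA_cls N h.good) = wt w N := by
  have h1 := NetSumA_rep N h.good
  unfold fX
  rw [if_pos ⟨by rw [← h1.card_eq]; exact hn, NetSumA_xnet h1 h⟩, ← h1.wt_eq w]

/-- the decomposition map with its properties -/
private theorem NetSumA_dec (n : ℕ) :
    ∃ φ : NC Λ → Bool × Multiset (NC Λ),
      (∀ c c', φ c = φ c' → c = c') ∧
      (∀ c, (φ c).1 = decide (Direct c.rep.1)) ∧
      (∀ c, φ c ≠ (false, 0)) ∧
      (∀ c, Fintype.card c.rep.1.D ≤ n →
        wt w c.rep.1 = ((φ c).2.map (fX w n)).prod) := by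
  have H : ∀ c : NC Λ, ∃ (J : Type) (_ : Fintype J) (_ : DecidableEq J)
    (X : J → LNet Λ) (g : Bool → Λ), (∀ j, XNet (X j)) ∧
      (∀ j, Fintype.card (X j).D ≤ Fintype.card c.rep.1.D) ∧
      NIso c.rep.1 (bond (decide (Direct c.rep.1)) X g) := fun c => par_dec c.rep.2
  choose J fJ dJ X g hX hcard hiso using H
  refine ⟨fun c => (decide (Direct c.rep.1),
    Multiset.map (fun j => NetSumA_cls (X c j) (hX c j).good) (@univ (J c) (fJ c)).val),
    ?_, fun c => rfl, ?_, ?_⟩
  · intro c c' hcc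
    simp only [Prod.mk.injEq] at hcc
    obtain ⟨h1, h2⟩ := hcc
    obtain ⟨π, hπ⟩ := exists_equiv_of_map_eq (J := J c) (J' := J c') _ _ h2
    have h3 : ∀ j, NIso (X c j) (X c' (π j)) := fun j => by
      have := hπ j
      exact NIso.symm (Quotient.exact this)
    have h4 : NIso (bond (decide (Direct c.rep.1)) (X c) (g c))
        (bond (decide (Direct c'.rep.1)) (X c') (g c')) := by
      rw [← h1]
      exact bond_iso _ (X c) (X c') (g c) (g c') π h3
    have h5 : NIso c.rep.1 c'.rep.1 := ((hiso c).trans h4).trans (hiso c').symm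
    rw [← Quotient.out_eq c, ← Quotient.out_eq c']
    exact Quotient.sound h5
  · intro c hc
    simp only [Prod.mk.injEq, Multiset.map_eq_zero, Finset.val_eq_zero] at hc
    obtain ⟨h1, h2⟩ := hc
    have hJ : IsEmpty (J c) := by
      rw [Finset.univ_eq_empty_iff] at h2
      exact h2
    obtain ⟨e, -⟩ := hiso c
    rw [h1] at e
    obtain ⟨d⟩ := c.rep.2.ne
    obtain ⟨i, -⟩ := e d
    exact hJ.false i
  · intro c hn
    rw [(hiso c).wt_eq w, wt_bond]
    simp only [Multiset.map_map, Function.comp_def]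
    rw [Finset.prod]
    congr 1
    refine Multiset.map_congr rfl fun j _ => ?_
    rw [NetSumA_fX w n (X c j) (hX c j) ((hcard c j).trans hn)]

theorem dn_le (n : ℕ) :
    Nsel w (fun N => Fintype.card N.D ≤ n) + 1 ≤ 2 * MS (fX w n) := by
  obtain ⟨φ, h1, h2, h3, h4⟩ := NetSumA_dec w n
  have e : 2 * MS (fX w n) =
      ∑' p : Bool × Multiset (NC Λ), (p.2.map (fX w n)).prod := by
    rw [ENNReal.tsum_prod (f := fun (_ : Bool) (m : Multiset (NC Λ)) => (m.map (fX w n)).prod),
      tsum_bool]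
    unfold MS
    rw [two_mul]
  rw [e, ENNReal.tsum_eq_add_tsum_ite ((false, 0) : Bool × Multiset (NC Λ)), add_comm]
  simp only [Multiset.map_zero, Multiset.prod_zero]
  refine add_le_add le_rfl ?_
  unfold Nsel
  refine tsum_le_tsum_of_inj φ (fun c c' h => h1 c c' h) fun c => ?_
  split_ifs with hc
  · rename_i h5; exact absurd h5 (h3 c)
  · exact (h4 c hc).le
  · exact zero_le
  · exact zero_le

theorem nd_le (n : ℕ) :
    Nsel w (fun N => Fintype.card N.D ≤ n ∧ ¬ Direct N) + 1 ≤ MS (fX w n) := by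
  obtain ⟨φ, h1, h2, h3, h4⟩ := NetSumA_dec w n
  unfold MS
  rw [ENNReal.tsum_eq_add_tsum_ite (0 : Multiset (NC Λ)), add_comm]
  simp only [Multiset.map_zero, Multiset.prod_zero]
  refine add_le_add le_rfl ?_
  unfold Nsel
  have key : ∀ c : NC Λ, ¬ Direct c.rep.1 → (φ c).1 = false := fun c hc => by
    rw [h2 c]; simp [hc]
  refine tsum_le_tsum_of_injOn (fun c => (φ c).2) (fun c c' hc hc' h => ?_) fun c hc => ?_
  · have hd : ¬ Direct c.rep.1 := by
      by_contra hd; exact hc (by simp [hd])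
    have hd' : ¬ Direct c'.rep.1 := by
      by_contra hd; exact hc' (by simp [hd])
    exact h1 c c' (Prod.ext ((key c hd).trans (key c' hd').symm) h)
  · have hP : Fintype.card c.rep.1.D ≤ n ∧ ¬ Direct c.rep.1 := by
      by_contra hd; exact hc (by rw [if_neg hd])
    rw [if_pos hP]
    have h5 : (φ c).2 ≠ 0 := fun h => h3 c (Prod.ext (key c hP.2) h)
    rw [if_neg h5]
    exact (h4 c hP.1).le

theorem fX_le {x0 : ℝ≥0∞} (hx : x0 ≤ 1) (hw : ∀ l, w l ≤ x0) (n : ℕ) (c : NC Λ) :
    fX w n c ≤ x0 := by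
  unfold fX
  split_ifs with h
  · obtain ⟨x⟩ := h.2.exists_int
    unfold wt
    rw [← Finset.mul_prod_erase univ _ (mem_univ x)]
    calc w (c.rep.1.lab x.1) * ∏ x ∈ univ.erase x, w (c.rep.1.lab x.1)
        ≤ x0 * 1 := by
          refine mul_le_mul' (hw _) ?_
          exact Finset.prod_le_one' fun y _ => (hw _).trans hx
      _ = x0 := mul_one _
  · exact zero_le

end PGr
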