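import Pool.Agent.PGr.Defs

/-!
# Planar networks with labelled vertices: definitions

A network is a graph with two poles and a root edge joining them; the root edge has the two darts
`inr true`, `inr false`.
-/

set_option linter.unusedSectionVars false

namespace PGr
open Equiv Finset
open scoped ENNReal
universe u

/-- A graph with a root edge; the darts of the other edges are `D`, `inc` gives the vertex of a
dart, and every vertex carries a label (the labels of the two poles are irrelevant). -/
structure LNet (Λ : Type u) where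
  D : Type
  V : Type
  [fD : Fintype D]
  [dD : DecidableEq D]
  [fV : Fintype V]
  [dV : DecidableEq V]
  a : Perm D
  inc : D ⊕ Bool → V
  lab : V → Λ

attribute [instance] LNet.fD LNet.dD LNet.fV LNet.dV

variable {Λ : Type u}

abbrev LNet.T (N : LNet Λ) : Type := N.D ⊕ Bool

def LNet.aa (N : LNet Λ) : Perm N.T := ext N.a

/-- the two poles -/
def LNet.pole (N : LNet Λ) (b : Bool) : N.V := N.inc (Sum.inr b)

/-- the internal vertices -/
def LNet.Int (N : LNet Λ) : Type := {x : N.V // ∀ b, x ≠ N.pole b}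

instance (N : LNet Λ) : Fintype N.Int := inferInstanceAs (Fintype {x : N.V // ∀ b, x ≠ N.pole b})
instance (N : LNet Λ) : DecidableEq N.Int :=
  inferInstanceAs (DecidableEq {x : N.V // ∀ b, x ≠ N.pole b})

/-- `x` is a common vertex of the edge set `A` and of its complement -/
def Sh {T V : Type*} (inc : T → V) (A : Finset T) (x : V) : Prop :=
  (∃ t ∈ A, inc t = x) ∧ ∃ t, t ∉ A ∧ inc t = x

/-- planar, nonseparable with its root edge, and simple without its root edge -/
structure LNet.IsGood (N : LNet Λ) : Prop where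
  inv : ∀ d, N.a (N.a d) = d
  fpf : ∀ d, N.a d ≠ d
  ne : Nonempty N.D
  surj : Function.Surjective N.inc
  loop : ∀ t, N.inc (N.aa t) ≠ N.inc t
  simp : ∀ d d' : N.D, N.inc (Sum.inl d) = N.inc (Sum.inl d') →
    N.inc (Sum.inl (N.a d)) = N.inc (Sum.inl (N.a d')) → d = d'
  two : ∀ A : Finset N.T, Cl N.aa A → A.Nonempty → A ≠ univ →
    ∃ x y, x ≠ y ∧ Sh N.inc A x ∧ Sh N.inc A y
  planar : ∃ s : Perm N.T, (∀ t t', s.SameCycle t t' ↔ N.inc t = N.inc t') ∧ Pl N.aa s

/-- isomorphism of networks: respects poles and the labels of the internal vertices -/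
def NIso (N N' : LNet Λ) : Prop :=
  ∃ (e : N.D ≃ N'.D) (f : N.V ≃ N'.V),
    (∀ d, e (N.a d) = N'.a (e d)) ∧
    (∀ d, f (N.inc (Sum.inl d)) = N'.inc (Sum.inl (e d))) ∧
    (∀ b, f (N.pole b) = N'.pole b) ∧
    ∀ x, (∀ b, x ≠ N.pole b) → N'.lab (f x) = N.lab x

theorem NIso.refl (N : LNet Λ) : NIso N N :=
  ⟨Equiv.refl _, Equiv.refl _, fun _ => rfl, fun _ => rfl, fun _ => rfl, fun _ _ => rfl⟩

theorem NIso.symm {N N' : LNet Λ} (h : NIso N N') : NIso N' N := by
  obtain ⟨e, f, h1, h2, h3, h4⟩ := h
  refine ⟨e.symm, f.symm, fun d => ?_, fun d => ?_, fun b => ?_, fun x hx => ?_⟩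
  · rw [Equiv.symm_apply_eq, h1, Equiv.apply_symm_apply]
  · rw [Equiv.symm_apply_eq, h2, Equiv.apply_symm_apply]
  · rw [Equiv.symm_apply_eq, h3]
  · have := h4 (f.symm x) (fun b hb => hx b (by rw [← h3, ← hb, Equiv.apply_symm_apply]))
    rw [← this, Equiv.apply_symm_apply]

theorem NIso.trans {N N' N'' : LNet Λ} (h : NIso N N') (h' : NIso N' N'') : NIso N N'' := by
  obtain ⟨e, f, h1, h2, h3, h4⟩ := h
  obtain ⟨e', f', h1', h2', h3', h4'⟩ := h'
  refine ⟨e.trans e', f.trans f', fun d => by simp [h1, h1'], fun d => by simp [h2, h2'],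
    fun b => by simp [h3, h3'], fun x hx => ?_⟩
  rw [← h4 x hx, ← h4' (f x) (fun b hb => hx b (f.injective (by rw [hb, h3])))]
  rfl

/-- good networks -/
abbrev GN (Λ : Type u) := {N : LNet Λ // N.IsGood}

instance nSetoid (Λ : Type u) : Setoid (GN Λ) where
  r M N := NIso M.1 N.1
  iseqv := ⟨fun _ => NIso.refl _, fun h => h.symm, fun h h' => h.trans h'⟩

/-- isomorphism classes of good networks -/
abbrev NC (Λ : Type u) := Quotient (nSetoid Λ)

noncomputable abbrev NC.rep (c : NC Λ) : GN Λ := Quotient.out c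

/-- the weight of a network: product of the weights of the labels of its internal vertices -/
noncomputable def wt (w : Λ → ℝ≥0∞) (N : LNet Λ) : ℝ≥0∞ := ∏ x : N.Int, w (N.lab x.1)

/-- there is a nonroot edge joining the poles -/
def Direct (N : LNet Λ) : Prop :=
  ∃ d, N.inc (Sum.inl d) = N.pole true ∧ N.inc (Sum.inl (N.a d)) = N.pole false

/-- the nonroot edges are connected through internal vertices -/
def Conn (N : LNet Λ) : Prop :=
  ∀ A : Finset N.D, Cl N.a A → A.Nonempty → A ≠ univ →
    ∃ x : N.V, (∀ b, x ≠ N.pole b) ∧ Sh (fun d => N.inc (Sum.inl d)) A x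

/-- good networks that are neither an edge nor a parallel composition -/
structure XNet (N : LNet Λ) : Prop where
  good : N.IsGood
  conn : Conn N
  dir : ¬ Direct N

/-- series composition -/
def SerN (N : LNet Λ) : Prop :=
  ∃ A : Finset N.D, Cl N.a A ∧ A.Nonempty ∧ A ≠ univ ∧
    ∀ x y, Sh (fun d => N.inc (Sum.inl d)) A x → Sh (fun d => N.inc (Sum.inl d)) A y → x = y

section glue
variable {I Vc : Type} [Fintype I] [DecidableEq I] [Fintype Vc] [DecidableEq Vc]

def glueInc (cinc : (I × Bool) ⊕ Bool → Vc) (N : I → LNet Λ) :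
    (Σ i, (N i).D) ⊕ Bool → Vc ⊕ Σ i, (N i).Int
  | Sum.inr b => Sum.inl (cinc (Sum.inr b))
  | Sum.inl ⟨i, d⟩ =>
    if h1 : (N i).inc (Sum.inl d) = (N i).pole true then Sum.inl (cinc (Sum.inl (i, true)))
    else if h2 : (N i).inc (Sum.inl d) = (N i).pole false then Sum.inl (cinc (Sum.inl (i, false)))
    else Sum.inr ⟨i, ⟨(N i).inc (Sum.inl d), by rintro (_ | _) <;> assumption⟩⟩

def glueLab (N : I → LNet Λ) (g : Vc → Λ) : (Vc ⊕ Σ i, (N i).Int) → Λ
  | Sum.inl x => g x
  | Sum.inr ⟨i, x⟩ => (N i).lab x.1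

/-- Replace every edge `i` of a graph with vertex set `Vc` (the dart `inl (i, b)` is at the vertex
`cinc (inl (i, b))`, the root darts are `inr b`) by the network `N i`. -/
def glue (cinc : (I × Bool) ⊕ Bool → Vc) (N : I → LNet Λ) (g : Vc → Λ) : LNet Λ where
  D := Σ i, (N i).D
  V := Vc ⊕ Σ i, (N i).Int
  a := Equiv.sigmaCongrRight fun i => (N i).a
  inc := glueInc cinc N
  lab := glueLab N g

end glue

/-- a single edge joining the poles -/
def edgeNet (g : Bool → Λ) : LNet Λ where
  D := Bool
  V := Bool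
  a := Equiv.boolNot
  inc := Sum.elim id id
  lab := g

/-- all edges join the two poles -/
def bondInc (I : Type) : (I × Bool) ⊕ Bool → Bool := Sum.elim Prod.snd id

/-- parallel composition, possibly with a direct edge -/
def bond {J : Type} [Fintype J] [DecidableEq J] (b : Bool) (X : J → LNet Λ) (g : Bool → Λ) :
    LNet Λ :=
  match b with
  | false => glue (bondInc J) X g
  | true => glue (bondInc (Option J)) (fun i => i.elim (edgeNet g) X) g

/-- the vertices `some true`, `none`, `some false` of a path; first edge `true` -/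
def serInc : (Bool × Bool) ⊕ Bool → Option Bool
  | Sum.inl (true, true) => some true
  | Sum.inl (true, false) => none
  | Sum.inl (false, true) => none
  | Sum.inl (false, false) => some false
  | Sum.inr b => some b

/-- series composition -/
def serGlue (N₁ N₂ : LNet Λ) (g : Option Bool → Λ) : LNet Λ :=
  glue serInc (fun i => bif i then N₁ else N₂) g

/-- the vertices of a core -/
def Core.CV (C : Core) : Type := Quotient (Perm.SameCycle.setoid C.s)
noncomputable instance (C : Core) : DecidableEq C.CV := Classical.decEq _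
noncomputable instance (C : Core) : Fintype C.CV :=
  @Fintype.ofFinite _ (inferInstanceAs (Finite (Quotient (Perm.SameCycle.setoid C.s))))

/-- the vertex of a dart of a core -/
def Core.vinc (C : Core) : (C.I × Bool) ⊕ Bool → C.CV := Quotient.mk (Perm.SameCycle.setoid C.s)

/-- A decomposition of the nonroot edges of a network in parts, each of them attached to the rest
at its two attachment vertices. -/
structure Dec (N : LNet Λ) where
  I : Type
  [fI : Fintype I]
  [dI : DecidableEq I]
  part : N.D → I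
  att : I × Bool → N.V
  part_a : ∀ d, part (N.a d) = part d
  att_ne : ∀ i, att (i, true) ≠ att (i, false)
  att_mem : ∀ i b, ∃ d, part d = i ∧ N.inc (Sum.inl d) = att (i, b)
  share : ∀ d d', part d ≠ part d' → N.inc (Sum.inl d) = N.inc (Sum.inl d') →
    ∃ b, N.inc (Sum.inl d) = att (part d, b)
  root : ∀ d b, N.inc (Sum.inl d) = N.inc (Sum.inr b) → ∃ b', N.inc (Sum.inl d) = att (part d, b')

attribute [instance] Dec.fI Dec.dI

/-- the network of a part -/
def Dec.sub {N : LNet Λ} (X : Dec N) (i : X.I) : LNet Λ where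
  D := {d : N.D // X.part d = i}
  V := {x : N.V // ∃ d, X.part d = i ∧ N.inc (Sum.inl d) = x}
  a := N.a.subtypePerm (fun d => by rw [X.part_a])
  inc := Sum.elim (fun d => ⟨N.inc (Sum.inl d.1), d.1, d.2, rfl⟩)
    (fun b => ⟨X.att (i, b), X.att_mem i b⟩)
  lab := fun x => N.lab x.1

end PGr
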