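import Pool.Agent.PGr.Consts

/-! # Module NumExp: numerical inequalities with the exponential function -/

namespace PGr
open Real

theorem NumExp.exp_lower (x : ℝ) (hx : 0 ≤ x) : 1 + x + x ^ 2 / 2 + x ^ 3 / 6 ≤ exp x := by
  have := Real.sum_le_exp_of_nonneg hx 4
  simp [Finset.sum_range_succ, Nat.factorial] at this
  linarith

theorem NumExp.exp_upper (x : ℝ) (hx : 0 ≤ x) (hx1 : x ≤ 1) :
    exp x ≤ 1 + x + x ^ 2 / 2 + x ^ 3 / 6 + x ^ 4 * (5 / 96) := by
  have := Real.exp_bound' hx hx1 (n := 4) (by norm_num)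
  simp [Finset.sum_range_succ, Nat.factorial] at this
  linarith

theorem num_c : 1 / (1 - rx) ≤ exp (rc * rx) := by
  refine le_trans ?_ (NumExp.exp_lower _ (by norm_num [rc, rx]))
  norm_num [rc, rx]

theorem NumExp.arg_le {E : ℝ} (h : 0 ≤ E) (h' : E ≤ 1101 / 1000) :
    E / (1 + E) ≤ 11 / 21 + (E - 11 / 10) * (100 / 441) := by
  rw [div_le_iff₀ (by linarith)]
  nlinarith [sq_nonneg (E - 11 / 10)]

theorem num_g {E : ℝ} (h : 11 / 10 ≤ E) (h' : E ≤ 1101 / 1000) :
    2 * exp (rc * (E / (1 + E) - ry)) - 1 ≤ E := by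
  have h1 := NumExp.arg_le (by linarith) h'
  set d : ℝ := E - 11 / 10 with hd
  have hd0 : 0 ≤ d := by linarith
  have hd1 : d ≤ 1 / 1000 := by linarith
  have h2 : rc * (E / (1 + E) - ry) ≤ rc * (11 / 21 - ry) + rc * (100 / 441) * d := by
    have : rc * (E / (1 + E) - ry) ≤ rc * (11 / 21 + d * (100 / 441) - ry) :=
      mul_le_mul_of_nonneg_left (by linarith) (by norm_num [rc])
    refine this.trans (le_of_eq ?_)
    ring
  have ha : exp (rc * (11 / 21 - ry)) ≤ 104996 / 100000 := by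
    refine (NumExp.exp_upper _ (by norm_num [rc, ry]) (by norm_num [rc, ry])).trans ?_
    norm_num [rc, ry]
  have hb : exp (rc * (100 / 441) * d) ≤ 1 + (24 / 100) * d := by
    have hv0 : 0 ≤ rc * (100 / 441) * d := mul_nonneg (by norm_num [rc]) hd0
    have hv : rc * (100 / 441) * d ≤ (2310 / 10000) * d :=
      mul_le_mul_of_nonneg_right (by norm_num [rc]) hd0
    have h3 := exp_le_exp.mpr hv
    have h4 := NumExp.exp_upper ((2310 / 10000) * d) (by positivity) (by linarith)
    refine h3.trans (h4.trans ?_)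
    have e2 : d ^ 2 ≤ d * (1 / 1000) := by nlinarith
    have e3 : d ^ 3 ≤ d * (1 / 1000) := by
      have : d ^ 3 = d ^ 2 * d := by ring
      nlinarith [sq_nonneg d]
    have e4 : d ^ 4 ≤ d * (1 / 1000) := by
      have : d ^ 4 = d ^ 3 * d := by ring
      have h0 : 0 ≤ d ^ 3 := by positivity
      nlinarith [sq_nonneg d]
    nlinarith
  have h3 : exp (rc * (E / (1 + E) - ry)) ≤ (104996 / 100000) * (1 + (24 / 100) * d) := by
    refine (exp_le_exp.mpr h2).trans ?_
    rw [exp_add]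
    exact mul_le_mul ha hb (exp_pos _).le (by norm_num)
  have hE : E = d + 11 / 10 := by rw [hd]; ring
  rw [hE] at h3 ⊢
  linarith

theorem num_B {E : ℝ} (h : 0 ≤ E) (h' : E ≤ 1101 / 1000) :
    exp (rc * (E / (1 + E) - ry)) ≤ rB := by
  have h1 : E / (1 + E) ≤ 1101 / 2101 := by
    rw [div_le_div_iff₀ (by linarith) (by norm_num)]
    linarith
  have h2 : rc * (E / (1 + E) - ry) ≤ rc * (1101 / 2101 - ry) :=
    mul_le_mul_of_nonneg_left (by linarith) (by norm_num [rc])
  refine (exp_le_exp.mpr h2).trans ?_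
  refine (NumExp.exp_upper _ (by norm_num [rc, ry]) (by norm_num [rc, ry])).trans ?_
  norm_num [rc, ry, rB]

theorem num_K : rx * exp (rc * (rs * rB)) ≤ rs := by
  have h := NumExp.exp_upper (rc * (rs * rB)) (by norm_num [rc, rs, rB]) (by norm_num [rc, rs, rB])
  refine (mul_le_mul_of_nonneg_left h (by norm_num [rx])).trans ?_
  norm_num [rc, rs, rB, rx]

end PGr
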