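import Pool.Agent.PGr.NetSumA
import Pool.Agent.PGr.NetSumB
import Pool.Agent.PGr.NetSumC
import Pool.Agent.PGr.EReal
import Pool.Agent.PGr.NumExp

/-! # Module NetThm: bound for the generating function of networks -/

set_option linter.unusedSectionVars false

namespace PGr
open Equiv Finset
open scoped ENNReal Classical
universe u
variable {Λ : Type u} (w : Λ → ℝ≥0∞)

theorem ex_le_one : ex ≤ 1 := by
  rw [ex, ← ENNReal.ofReal_one]
  exact ENNReal.ofReal_le_ofReal (by norm_num [rx])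

theorem rS_nonneg : 0 ≤ rS := by
  have hE0 : 0 < rE := lt_of_lt_of_le (by norm_num) le_rE
  have hrs : (0 : ℝ) < rs := by norm_num [rs]
  rw [rS]; positivity

theorem rR_nonneg : 0 ≤ rR := ENNReal.toReal_nonneg

theorem rS_eq : rs * (rE - rS) * rE = rS := by
  have hE0 : 0 < rE := lt_of_lt_of_le (by norm_num) le_rE
  have hrs : (0 : ℝ) < rs := by norm_num [rs]
  have h1 : (1 + rs * rE) ≠ 0 := by positivity
  rw [rS]; field_simp; ring

theorem tsum_fX (n : ℕ) : ∑' c, fX w n c =
    Nsel w (fun N => Fintype.card N.D ≤ n ∧ XNet N ∧ SerN N) +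
      Nsel w (fun N => Fintype.card N.D ≤ n ∧ XNet N ∧ ¬ SerN N) := by
  have h := Nsel_add w (fun N => Fintype.card N.D ≤ n ∧ XNet N) SerN
  simp only [and_assoc] at h
  rw [h]
  refine tsum_congr fun c => ?_
  unfold fX
  by_cases hc : Fintype.card c.rep.1.D ≤ n ∧ XNet c.rep.1
  · rw [if_pos hc, if_pos hc]
  · rw [if_neg hc, if_neg hc]

theorem Nsel_mono {P Q : LNet Λ → Prop} (h : ∀ N, P N → Q N) : Nsel w P ≤ Nsel w Q := by
  refine ENNReal.tsum_le_tsum fun c => ?_
  by_cases hp : P c.rep.1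
  · simp [hp, h _ hp]
  · simp [hp]

theorem Nsel_zero (P : LNet Λ → Prop) (h : ∀ N, N.IsGood → ¬ P N) : Nsel w P = 0 := by
  simp [Nsel, fun c : NC Λ => h c.rep.1 c.rep.2]

theorem exp_mono_aux {σ σ' ρ : ℝ} (h : σ ≤ σ') (h0 : 0 ≤ σ + ρ) :
    2 * Real.exp (rc * (σ + ρ)) - σ ≤ 2 * Real.exp (rc * (σ' + ρ)) - σ' := by
  have hc : (1 : ℝ) ≤ rc := by norm_num [rc]
  have h1 : rc * (σ' - σ) + 1 ≤ Real.exp (rc * (σ' - σ)) := Real.add_one_le_exp _
  have h2 : Real.exp (rc * (σ' + ρ)) = Real.exp (rc * (σ + ρ)) * Real.exp (rc * (σ' - σ)) := by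
    rw [← Real.exp_add]; congr 1; ring
  have h3 : (1 : ℝ) ≤ Real.exp (rc * (σ + ρ)) := Real.one_le_exp (by positivity)
  have h5 : (σ' - σ) ≤ rc * (σ' - σ) := by nlinarith
  have h6 : Real.exp (rc * (σ + ρ)) * (rc * (σ' - σ) + 1) ≤ Real.exp (rc * (σ' + ρ)) := by
    rw [h2]; exact mul_le_mul_of_nonneg_left h1 (Real.exp_pos _).le
  have h7 : rc * (σ' - σ) ≤ Real.exp (rc * (σ + ρ)) * (rc * (σ' - σ)) := by
    have : 0 ≤ rc * (σ' - σ) := by nlinarith
    nlinarith
  nlinarith

theorem MS_fX_le (hw : ∀ l, w l ≤ ex) (n : ℕ) {σ : ℝ} (h0 : 0 ≤ σ)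
    (h : ∑' c, fX w n c ≤ ENNReal.ofReal σ) : MS (fX w n) ≤ ENNReal.ofReal (Real.exp (rc * σ)) :=
  MS_le (fX w n) (by norm_num [rx]) (by norm_num [rx]) num_c (by norm_num [rc]) h0
    (fun c => fX_le w ex_le_one hw n c) h

theorem main_le : 2 * Real.exp (rc * (rS + rR)) - 1 ≤ rE := by
  have h := num_g le_rE rE_le
  have h2 : Real.exp (rc * (rS + rR)) ≤ Real.exp (rc * (rE / (1 + rE) - ry)) := by
    apply Real.exp_le_exp.mpr
    exact mul_le_mul_of_nonneg_left rX_le (by norm_num [rc])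
  linarith

theorem net_induction (hw : ∀ l, w l ≤ ex) (hs : ∑' l, w l ≤ es) (n : ℕ) :
    Nsel w (fun N => Fintype.card N.D ≤ n ∧ XNet N ∧ SerN N) ≤ ENNReal.ofReal rS ∧
    Nsel w (fun N => Fintype.card N.D ≤ n ∧ XNet N ∧ ¬ SerN N) ≤ ENNReal.ofReal rR := by
  induction n with
  | zero =>
    have key : ∀ P : LNet Λ → Prop, Nsel w (fun N => Fintype.card N.D ≤ 0 ∧ P N) = 0 := by
      intro P
      refine Nsel_zero w _ fun N hN h => ?_
      have := hN.ne
      have h2 := Fintype.card_pos (α := N.D)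
      omega
    rw [key, key]
    exact ⟨zero_le, zero_le⟩
  | succ n ih =>
    obtain ⟨ihS, ihR⟩ := ih
    set S := Nsel w (fun N => Fintype.card N.D ≤ n ∧ XNet N ∧ SerN N) with hSdef
    set R := Nsel w (fun N => Fintype.card N.D ≤ n ∧ XNet N ∧ ¬ SerN N) with hRdef
    set D := Nsel w (fun N => Fintype.card N.D ≤ n) with hDdef
    set H := Nsel w (fun N => Fintype.card N.D ≤ n ∧ ¬ SerN N) with hHdef
    have hS_top : S ≠ ⊤ := ne_top_of_le_ne_top ENNReal.ofReal_ne_top ihS
    have hR_top : R ≠ ⊤ := ne_top_of_le_ne_top ENNReal.ofReal_ne_top ihR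
    have hσ : S.toReal ≤ rS := by
      have := ENNReal.toReal_mono ENNReal.ofReal_ne_top ihS
      rwa [ENNReal.toReal_ofReal rS_nonneg] at this
    have hρ : R.toReal ≤ rR := by
      have := ENNReal.toReal_mono ENNReal.ofReal_ne_top ihR
      rwa [ENNReal.toReal_ofReal rR_nonneg] at this
    have hσ0 : 0 ≤ S.toReal := ENNReal.toReal_nonneg
    have hρ0 : 0 ≤ R.toReal := ENNReal.toReal_nonneg
    have hMS : MS (fX w n) ≤ ENNReal.ofReal (Real.exp (rc * (S.toReal + R.toReal))) := by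
      refine MS_fX_le w hw n (by positivity) ?_
      rw [tsum_fX, ENNReal.ofReal_add hσ0 hρ0, ENNReal.ofReal_toReal hS_top,
        ENNReal.ofReal_toReal hR_top]
    have hD1 : D + 1 ≤ ENNReal.ofReal (2 * Real.exp (rc * (S.toReal + R.toReal))) := by
      refine (dn_le w n).trans ?_
      rw [ENNReal.ofReal_mul (by norm_num), ENNReal.ofReal_ofNat]
      gcongr
    have hD_top : D ≠ ⊤ :=
      ne_top_of_le_ne_top ENNReal.ofReal_ne_top (le_trans le_self_add hD1)
    have hd : D.toReal + 1 ≤ 2 * Real.exp (rc * (S.toReal + R.toReal)) := by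
      have := ENNReal.toReal_mono ENNReal.ofReal_ne_top hD1
      rwa [ENNReal.toReal_ofReal (by positivity), ENNReal.toReal_add hD_top ENNReal.one_ne_top,
        ENNReal.toReal_one] at this
    have hDH : S + H ≤ D := by
      rw [hDdef, ← Nsel_add w (fun N => Fintype.card N.D ≤ n) SerN]
      gcongr
      exact Nsel_mono w fun N h => ⟨h.1, h.2.2⟩
    have hH_top : H ≠ ⊤ := ne_top_of_le_ne_top hD_top (le_trans le_add_self hDH)
    have hh : S.toReal + H.toReal ≤ D.toReal := by
      have := ENNReal.toReal_mono hD_top hDH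
      rwa [ENNReal.toReal_add hS_top hH_top] at this
    have hexp : Real.exp (rc * (S.toReal + R.toReal)) ≤ Real.exp (rc * (rS + rR)) := by
      apply Real.exp_le_exp.mpr
      exact mul_le_mul_of_nonneg_left (by linarith) (by norm_num [rc])
    have hdE : D.toReal ≤ rE := by have := main_le; linarith
    have hhE : H.toReal ≤ rE - rS := by
      have h1 := exp_mono_aux (ρ := R.toReal) hσ (by positivity)
      have h2 : Real.exp (rc * (rS + R.toReal)) ≤ Real.exp (rc * (rS + rR)) := by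
        apply Real.exp_le_exp.mpr
        exact mul_le_mul_of_nonneg_left (by linarith) (by norm_num [rc])
      have := main_le
      linarith
    have hDE : D ≤ Es es ey := by
      rw [← ofReal_rE, ← ENNReal.ofReal_toReal hD_top]
      exact ENNReal.ofReal_le_ofReal hdE
    have hH0 : 0 ≤ H.toReal := ENNReal.toReal_nonneg
    have hD0 : 0 ≤ D.toReal := ENNReal.toReal_nonneg
    constructor
    · refine (sn_le w n).trans ?_
      calc (∑' l, w l) * H * D ≤ es * ENNReal.ofReal (rE - rS) * ENNReal.ofReal rE := by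
            gcongr
            · rw [← ENNReal.ofReal_toReal hH_top]; exact ENNReal.ofReal_le_ofReal hhE
            · rw [ofReal_rE]; exact hDE
        _ = ENNReal.ofReal (rs * (rE - rS) * rE) := by
            rw [es, ← ENNReal.ofReal_mul (by norm_num [rs]), ← ENNReal.ofReal_mul]
            have : (0 : ℝ) ≤ rs := by norm_num [rs]
            exact mul_nonneg this (by linarith)
        _ = ENNReal.ofReal rS := by rw [rS_eq]
    · refine (rn_le w n).trans ?_
      rw [rR, ENNReal.ofReal_toReal Rg_ne_top]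
      exact Rg_mono hs hDE

theorem net_bound (hw : ∀ l, w l ≤ ex) (hs : ∑' l, w l ≤ es) :
    1 + Nsel w (fun N => ¬ Direct N) ≤ ENNReal.ofReal rB := by
  have key : ∀ n, Nsel w (fun N => Fintype.card N.D ≤ n ∧ ¬ Direct N) ≤
      ENNReal.ofReal (rB - 1) := by
    intro n
    obtain ⟨hS, hR⟩ := net_induction w hw hs n
    have h1 : MS (fX w n) ≤ ENNReal.ofReal rB := by
      refine (MS_fX_le w hw n (σ := rS + rR) (add_nonneg rS_nonneg rR_nonneg) ?_).trans ?_
      · rw [tsum_fX, ENNReal.ofReal_add rS_nonneg rR_nonneg]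
        gcongr
      · refine ENNReal.ofReal_le_ofReal (le_trans ?_ (num_B (E := rE) ?_ rE_le))
        · apply Real.exp_le_exp.mpr
          exact mul_le_mul_of_nonneg_left rX_le (by norm_num [rc])
        · have := le_rE; linarith
    have h2 := (nd_le w n).trans h1
    rw [ENNReal.ofReal_sub _ zero_le_one, ENNReal.ofReal_one]
    exact ENNReal.le_sub_of_add_le_right ENNReal.one_ne_top h2
  have h3 : Nsel w (fun N => ¬ Direct N) ≤ ENNReal.ofReal (rB - 1) := by
    refine tsum_le_of_trunc _ (fun c : NC Λ => Fintype.card c.rep.1.D) _ fun n => ?_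
    refine le_trans (le_of_eq ?_) (key n)
    refine tsum_congr fun c => ?_
    by_cases h1 : Fintype.card c.rep.1.D ≤ n <;> by_cases h2 : Direct c.rep.1 <;> simp [h1, h2]
  calc 1 + Nsel w (fun N => ¬ Direct N) ≤ ENNReal.ofReal 1 + ENNReal.ofReal (rB - 1) := by
        rw [ENNReal.ofReal_one]; gcongr
    _ = ENNReal.ofReal rB := by
        rw [← ENNReal.ofReal_add zero_le_one (by norm_num [rB])]; congr 1; ring

end PGr
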