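import Pool.Agent.PGr.Consts

/-! # Module NumUp: a supersolution of the recursion of `TUpper` -/

set_option linter.unusedSectionVars false

namespace PGr
open Finset
open scoped ENNReal Classical

namespace NumUp

/-- `l`-th entry (starting with `l = 1`): `10 ^ 12 * n_l * (2.68) ^ l`, where `n_l` is an upper
approximation of the fixed point of the recursion truncated at `280` -/
def tab : List ℕ := [
  2679001301039, 613927816958, 235516240384, 117821996454, 68474033280, 43775638755, 29894557998,
  21426961428, 15936401719, 12203733633, 9568519552, 7649855993, 6216617983, 5122544918,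
  4271747316, 3599431519, 3060657953, 2623539160, 2264990439, 1967999562, 1719828361,
  1510801569, 1333474756, 1182052348, 1051973868, 939615372, 842071061, 756991533,
  682462587, 616913450, 559046589, 507783532, 462222691, 421606267, 385294072,
  352742693, 323488786, 297135600, 273342044, 251813767, 232295842, 214566732,
  198433291, 183726616, 170298562, 158018837, 146772539, 136458086, 126985451,
  118274665, 110254533, 102861538, 96038897, 89735749, 83906451, 78509966,
  73509341, 68871239, 64565538, 60564981, 56844866, 53382773, 50158327,
  47152984, 44349848, 41733503, 39289867, 37006062, 34870297, 32871766,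
  31000553, 29247552, 27604389, 26063361, 24617369, 23259871, 21984830,
  20786670, 19660236, 18600762, 17603834, 16665363, 15781558, 14948902,
  14164130, 13424207, 12726313, 12067823, 11446296, 10859456, 10305182,
  9781497, 9286557, 8818639, 8376133, 7957538, 7561446, 7186542,
  6831596, 6495456, 6177040, 5875338, 5589400, 5318336, 5061311,
  4817540, 4586287, 4366860, 4158607, 3960918, 3773217, 3594962,
  3425643, 3264781, 3111924, 2966645, 2828543, 2697239, 2572376,
  2453617, 2340644, 2233157, 2130873, 2033523, 1940855, 1852629,
  1768620, 1688614, 1612409, 1539813, 1470646, 1404735, 1341920,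
  1282046, 1224969, 1170549, 1118657, 1069169, 1021968, 976942,
  933985, 892998, 853887, 816559, 780931, 746921, 714451,
  683449, 653846, 625574, 598571, 572778, 548138, 524597,
  502104, 480609, 460067, 440434, 421668, 403728, 386576,
  370178, 354497, 339502, 325161, 311445, 298324, 285773,
  273765, 262276, 251283, 240764, 230697, 221061, 211839,
  203011, 194560, 186469, 178723, 171305, 164203, 157401,
  150886, 144647, 138670, 132945, 127460, 122206, 117171,
  112347, 107724, 103294, 99048, 94979, 91079, 87340,
  83755, 80319, 77024, 73865, 70836, 67931, 65145,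
  62473, 59910, 57452, 55093, 52831, 50660, 48578,
  46579, 44661, 42821, 41055, 39359, 37732, 36170,
  34670, 33230, 31847, 30519, 29244, 28019, 26843,
  25713, 24628, 23585, 22583, 21620, 20695, 19805,
  18951, 18129, 17339, 16579, 15848, 15146, 14470,
  13820, 13195, 12593, 12014, 11456, 10920, 10403,
  9905, 9426, 8965, 8520, 8092, 7679, 7281,
  6897, 6527, 6170, 5826, 5493, 5173, 4863,
  4564, 4275, 3996, 3726, 3465, 3213, 2969,
  2733, 2504, 2283, 2069, 1861, 1659, 1464,
  1274, 1090, 911, 738, 569, 405, 245]

/-- `up l = l_0 + l_1 / 2.68 + ...` rounded up -/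
def up : List ℕ → List ℕ
  | [] => []
  | n :: ns => (n + (100 * (up ns).headD 0 + 267) / 268) :: up ns

/-- the list of the `a_l` -/
def atabAux (l : List ℕ) : List ℕ := (up l).map fun u => (9519 * u + 19999) / 20000

def addHead (c : ℕ) : List ℕ → List ℕ
  | [] => []
  | n :: ns => (n + c) :: ns

def atab : List ℕ := addHead 1275546000000 (atabAux tab)

/-- sum of polynomials -/
def padd : List ℕ → List ℕ → List ℕ
  | [], ys => ys
  | x :: xs, [] => x :: xs
  | x :: xs, y :: ys => (x + y) :: padd xs ys

/-- product of polynomials -/
def pmul : List ℕ → List ℕ → List ℕ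
  | [], _ => []
  | a :: as, bs => padd (bs.map fun b => a * b) (0 :: pmul as bs)

def chk : List ℕ → List ℕ → List ℕ → Bool
  | _, [], _ => true
  | as, p :: ps, ns =>
    Nat.ble (1250 * 1000000000000 * as.headD 0 + 47 * p)
      (1250 * 1000000000000 * (ns.headD 0 + 300)) && chk as.tail ps ns.tail

/-- weighted sum with weights `i ^ 2`, `(i + 1) ^ 2`, ... -/
def wsum : ℕ → List ℕ → ℕ
  | _, [] => 0
  | i, a :: as => a * i ^ 2 + wsum (i + 1) as

set_option maxRecDepth 100000 in
theorem c1 : chk atab.tail (pmul atab tab) tab.tail = true := by decide +kernel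
set_option maxRecDepth 100000 in
theorem c2 : Nat.ble (atab.headD 0) (tab.headD 0 + 300) = true := by decide +kernel
set_option maxRecDepth 100000 in
theorem c3 : Nat.ble (wsum 2001 atab) 13635221453025455925 = true := by decide +kernel
set_option maxRecDepth 100000 in
theorem c4 : Nat.ble (wsum 2001 tab) 15639786486690635794 = true := by decide +kernel
set_option maxRecDepth 100000 in
theorem c5 : Nat.ble ((up tab).headD 0) 2948745248533 = true := by decide +kernel
set_option maxRecDepth 100000 in
theorem c6 : Nat.ble tab.length 280 = true := by decide +kernel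
set_option maxRecDepth 100000 in
theorem c7 : Nat.ble (pmul atab tab).length 559 = true := by decide +kernel
set_option maxRecDepth 100000 in
theorem c8 : Nat.ble atab.length 280 = true := by decide +kernel
set_option maxRecDepth 100000 in
theorem c9 : Nat.ble 1 tab.length = true := by decide +kernel
set_option maxRecDepth 100000 in
theorem atab_eq : atab = addHead 1275546000000 (atabAux tab) := rfl

attribute [irreducible] tab atab

theorem tab_pos : 1 ≤ tab.length := Nat.le_of_ble_eq_true c9

theorem check_spec : chk atab.tail (pmul atab tab) tab.tail = true ∧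
    atab.headD 0 ≤ tab.headD 0 + 300 ∧ wsum 2001 atab ≤ 13635221453025455925 ∧
    wsum 2001 tab ≤ 15639786486690635794 ∧ (up tab).headD 0 ≤ 2948745248533 ∧
    tab.length ≤ 280 ∧ (pmul atab tab).length ≤ 559 ∧ atab.length ≤ 280 :=
  ⟨c1, Nat.le_of_ble_eq_true c2, Nat.le_of_ble_eq_true c3, Nat.le_of_ble_eq_true c4,
    Nat.le_of_ble_eq_true c5, Nat.le_of_ble_eq_true c6, Nat.le_of_ble_eq_true c7,
    Nat.le_of_ble_eq_true c8⟩

end NumUp

end PGr
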