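import Pool.Agent.PGr.NetDefs

/-!
# Rooted connected planar graphs, blocks, and the final objects: definitions
-/

set_option linter.unusedSectionVars false

namespace PGr
open Equiv Finset
open scoped ENNReal

/-- a graph (given by its darts) with a root vertex -/
structure RG where
  D : Type
  V : Type
  [fD : Fintype D]
  [dD : DecidableEq D]
  [fV : Fintype V]
  [dV : DecidableEq V]
  a : Perm D
  inc : D → V
  v0 : V

attribute [instance] RG.fD RG.dD RG.fV RG.dV

/-- simple, connected, planar -/
structure RG.IsGood (G : RG) : Prop where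
  inv : ∀ d, G.a (G.a d) = d
  fpf : ∀ d, G.a d ≠ d
  loop : ∀ d, G.inc (G.a d) ≠ G.inc d
  simp : ∀ d d', G.inc d = G.inc d' → G.inc (G.a d) = G.inc (G.a d') → d = d'
  conn : ∀ X : Finset G.V, G.v0 ∈ X → X ≠ univ → ∃ d, G.inc d ∈ X ∧ G.inc (G.a d) ∉ X
  planar : ∃ s : Perm G.D, (∀ t t', s.SameCycle t t' ↔ G.inc t = G.inc t') ∧ Pl G.a s

/-- rooted isomorphism -/
def RIso (G H : RG) : Prop :=
  ∃ (e : G.D ≃ H.D) (f : G.V ≃ H.V),
    (∀ d, e (G.a d) = H.a (e d)) ∧ (∀ d, f (G.inc d) = H.inc (e d)) ∧ f G.v0 = H.v0

theorem RIso.refl (G : RG) : RIso G G :=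
  ⟨Equiv.refl _, Equiv.refl _, fun _ => rfl, fun _ => rfl, rfl⟩

theorem RIso.symm {G H : RG} (h : RIso G H) : RIso H G := by
  obtain ⟨e, f, h1, h2, h3⟩ := h
  refine ⟨e.symm, f.symm, fun d => ?_, fun d => ?_, ?_⟩
  · rw [Equiv.symm_apply_eq, h1, Equiv.apply_symm_apply]
  · rw [Equiv.symm_apply_eq, h2, Equiv.apply_symm_apply]
  · rw [Equiv.symm_apply_eq, h3]

theorem RIso.trans {G H K : RG} (h : RIso G H) (h' : RIso H K) : RIso G K := by
  obtain ⟨e, f, h1, h2, h3⟩ := h
  obtain ⟨e', f', h1', h2', h3'⟩ := h'
  exact ⟨e.trans e', f.trans f', fun d => by simp [h1, h1'], fun d => by simp [h2, h2'],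
    by simp [h3, h3']⟩

abbrev GR := {G : RG // G.IsGood}

instance rSetoid : Setoid GR where
  r G H := RIso G.1 H.1
  iseqv := ⟨fun _ => RIso.refl _, fun h => h.symm, fun h h' => h.trans h'⟩

/-- isomorphism classes of rooted connected simple planar graphs -/
abbrev RC := Quotient rSetoid

noncomputable abbrev RC.rep (c : RC) : GR := Quotient.out c

/-- number of vertices -/
def RG.size (G : RG) : ℕ := Fintype.card G.V

/-- the edges are connected through vertices other than the root: the root is not a cut vertex -/
def Piece (G : RG) : Prop :=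
  Nonempty G.D ∧ ∀ A : Finset G.D, Cl G.a A → A.Nonempty → A ≠ univ →
    ∃ x, x ≠ G.v0 ∧ Sh G.inc A x

section wedge
variable {J : Type} [Fintype J] [DecidableEq J]

/-- identify the roots of the rooted graphs `X j` -/
def wedge (X : J → RG) : RG where
  D := Σ j, (X j).D
  V := Option (Σ j, {x : (X j).V // x ≠ (X j).v0})
  a := Equiv.sigmaCongrRight fun j => (X j).a
  inc := fun d => if h : (X d.1).inc d.2 = (X d.1).v0 then none else some ⟨d.1, ⟨_, h⟩⟩
  v0 := none

end wedge

/-- Replace every vertex `v ≠ N.pole true` of the graph `N` (with its root edge) by the rooted graph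
which is its label; the root is `N.pole true`. -/
noncomputable def expand (N : LNet RC) : RG where
  D := N.T ⊕ Σ v : {v : N.V // v ≠ N.pole true}, (N.lab v.1).rep.1.D
  V := Option (Σ v : {v : N.V // v ≠ N.pole true}, (N.lab v.1).rep.1.V)
  a := Perm.sumCongr N.aa (Equiv.sigmaCongrRight fun v => (N.lab v.1).rep.1.a)
  inc := Sum.elim
    (fun t => if h : N.inc t = N.pole true then none else
      some ⟨⟨N.inc t, h⟩, (N.lab (N.inc t)).rep.1.v0⟩)
    (fun d => some ⟨d.1, (N.lab d.1.1).rep.1.inc d.2⟩)
  v0 := none

/-- the network without nonroot edges -/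
def emptyNet {Λ : Type*} (l : Λ) : LNet Λ where
  D := Empty
  V := Bool
  a := Equiv.refl _
  inc := Sum.elim (fun e => nomatch e) id
  lab := fun _ => l

/-! ### Simple graphs -/

section sg
variable {V : Type} [Fintype V] [DecidableEq V]

/-- the involution reversing darts -/
def dsymm (G : SimpleGraph V) : Perm G.Dart :=
  ⟨SimpleGraph.Dart.symm, SimpleGraph.Dart.symm, fun d => d.symm_symm, fun d => d.symm_symm⟩

/-- number of cycles (including fixed points) -/
noncomputable def nCyc {T : Type*} (s : Perm T) : ℕ :=
  Nat.card (Quotient (Perm.SameCycle.setoid s))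

/-- Planarity of a simple graph: there is a rotation system `s` (a permutation of the darts whose
cycles are the sets of darts leaving a vertex) satisfying Euler's formula
`#vertices + #faces = #edges + 2 #components`, where only the components with at least one edge are
counted (isolated vertices are irrelevant for planarity), and the faces are the cycles of
`dsymm G * s`. -/
def IsPlanar (G : SimpleGraph V) : Prop :=
  ∃ s : Perm G.Dart, (∀ d d', s.SameCycle d d' ↔ d.fst = d'.fst) ∧
    nCyc s + nCyc (dsymm G * s) = Nat.card G.edgeSet +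
      2 * Nat.card {c : G.ConnectedComponent // ∃ d : G.Dart, G.connectedComponentMk d.fst = c}

noncomputable instance dartFintype (G : SimpleGraph V) : Fintype G.Dart := by
  classical exact inferInstance

noncomputable instance dartDec (G : SimpleGraph V) : DecidableEq G.Dart := Classical.decEq _

noncomputable instance ccFintype (G : SimpleGraph V) : Fintype G.ConnectedComponent := by
  classical exact Fintype.ofFinite _

noncomputable instance ccDec (G : SimpleGraph V) : DecidableEq G.ConnectedComponent :=
  Classical.decEq _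

/-- a new root vertex is joined to one vertex of every component -/
noncomputable def cone (G : SimpleGraph V) : RG where
  D := G.Dart ⊕ (G.ConnectedComponent × Bool)
  V := Option V
  a := Perm.sumCongr (dsymm G) (Equiv.prodCongr (Equiv.refl _) Equiv.boolNot)
  inc := Sum.elim (fun d => some d.fst) (fun c => if c.2 then none else some (Quot.out c.1))
  v0 := none

end sg

/-- planar graphs on `Fin n` up to isomorphism -/
def pSetoid (n : ℕ) : Setoid {G : SimpleGraph (Fin n) // IsPlanar G} where
  r G H := Nonempty (G.1 ≃g H.1)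
  iseqv := ⟨fun _ => ⟨SimpleGraph.Iso.refl⟩, fun ⟨h⟩ => ⟨h.symm⟩, fun ⟨h⟩ ⟨h'⟩ => ⟨h.trans h'⟩⟩

/-- the number of unlabelled planar graphs on `n` vertices -/
noncomputable def u (n : ℕ) : ℕ := Nat.card (Quotient (pSetoid n))

end PGr
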